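import Pool.Agent.H982.CL6

/-!
# Closing probability of self-avoiding walks on `ℤ³`: the bounds
-/

set_option autoImplicit false
set_option linter.unusedSectionVars false

namespace H982.CL

open Finset Q294.Close Filter Topology

lemma iter_up {u : ℕ → ℝ} {δ : ℝ} {n l : ℕ}
    (h : ∀ i, i < l → |u (n + 2 * i + 2) - u (n + 2 * i)| ≤ δ) :
    ∀ i, i ≤ l → |u (n + 2 * i) - u n| ≤ i * δ := by
  intro i
  induction i with
  | zero => intro _; simp
  | succ i ih =>
    intro hi
    have h1 := ih (by omega)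
    have h2 := h i (by omega)
    have e : n + 2 * (i + 1) = n + 2 * i + 2 := by ring
    rw [e]
    have h3 := abs_sub_le (u (n + 2 * i + 2)) (u (n + 2 * i)) (u n)
    push_cast
    linarith

/-- **Pointwise bound on `ℤ³`.** -/
theorem point3 : ∃ K : ℝ, 0 < K ∧ ∀ n : ℕ, 3 ≤ n →
    (κ (Ed 3) n : ℝ) ≤ K * (1 / cr n * EE K n) * c (Ed 3) n := by
  obtain ⟨K0, hK0, hup⟩ := up3
  obtain ⟨C1, K1, hC1, hK1, hrc⟩ := rat_c
  obtain ⟨C2, K2, hC2, hK2, hrp⟩ := rat_p
  obtain ⟨C3, hC3, hpt⟩ := pointwise' (E := Ed 3) Ed_neg mu3_one low3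
  set C' := C1 + C2 + 32 with hC'
  set K' := K0 + K1 + K2 with hK'
  have hC'1 : 32 ≤ C' := by linarith
  have hK'0 : 0 ≤ K' := by linarith
  set M := C3 * (6 * C' + K0) + 2 * C' + K' + 1 with hM
  have hM0 : 0 < M := by positivity
  have hC3K : 0 ≤ C3 * (6 * C' + K0) := by positivity
  refine ⟨M, hM0, ?_⟩
  intro n hn
  have hnr : (3:ℝ) ≤ n := by exact_mod_cast hn
  have hcr := cr_one_le (show 1 ≤ n by omega)
  have hcr0 : 0 < cr n := by linarith
  have hE := one_le_EE hK'0 n
  have hE0 := EE_pos K' n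
  have hc0 := c3_pos n
  have hmu := mu3_one
  have hmu0 : 0 < mu3 := by linarith
  have hκc : (κ (Ed 3) n : ℝ) ≤ c (Ed 3) n := by exact_mod_cast κ_le (Ed 3) n
  set δ := C' * (1 / cr n * EE K' n) with hδ
  have hδ0 : 0 < δ := by positivity
  have hEM : EE K' n ≤ EE M n := EE_mono (by linarith) n
  have hD : 1 / cr n * EE K' n ≤ 1 / cr n * EE M n :=
    mul_le_mul_of_nonneg_left hEM (by positivity)
  rcases le_or_gt δ (1 / 2) with hδ2 | hδ2
  · -- main case
    set l := ⌊1 / δ⌋₊ with hl
    have h2 : 2 ≤ 1 / δ := by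
      rw [le_div_iff₀ hδ0]; linarith
    have hl1 : 1 ≤ l := by
      rw [hl]; exact Nat.le_floor (by push_cast; linarith)
    have hlup : (l:ℝ) ≤ 1 / δ := Nat.floor_le (by positivity)
    have hllow : 1 / δ < l + 1 := Nat.lt_floor_add_one _
    have hlδ : (l:ℝ) * δ ≤ 1 := by rwa [le_div_iff₀ hδ0] at hlup
    have hlr : (1:ℝ) ≤ l := by exact_mod_cast hl1
    have hlinv : 1 / (l:ℝ) ≤ 2 * δ := by
      have h3 : 1 / (2 * δ) ≤ l := by
        have h4 : 1 / (2 * δ) = (1 / δ) / 2 := by field_simp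
        rw [h4]; linarith
      rw [div_le_iff₀ (by positivity)] at h3
      rw [div_le_iff₀ (by linarith)]
      linarith
    have hlcr : C' * (l:ℝ) ≤ cr n := by
      have h3 : C' * (1 / cr n) ≤ δ := by
        rw [hδ]
        apply mul_le_mul_of_nonneg_left _ (by linarith)
        exact le_mul_of_one_le_right (by positivity) hE
      have h4 : (l:ℝ) * (C' * (1 / cr n)) ≤ 1 :=
        (mul_le_mul_of_nonneg_left h3 (by linarith)).trans hlδ
      have h5 : (l:ℝ) * (C' * (1 / cr n)) = C' * l / cr n := by ring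
      rw [h5, div_le_one hcr0] at h4
      exact h4
    have hln : 32 * l ≤ n := by
      have h3 : (32:ℝ) * l ≤ n := by
        have h4 := cr_le n (by omega)
        nlinarith
      exact_mod_cast h3
    have hn32 : 32 ≤ n := by omega
    have hcond : C2 * (cr n * EE K2 n) ≤ n := by
      have h3 : C' * EE K' n ≤ cr n := by
        have h4 : δ ≤ 1 := by linarith
        have h5 : δ = C' * EE K' n / cr n := by rw [hδ]; ring
        rw [h5, div_le_one hcr0] at h4
        exact h4
      have h4 : EE K2 n ≤ EE K' n := EE_mono (by linarith) n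
      have h5 : C2 * EE K2 n ≤ cr n := by
        refine le_trans ?_ h3
        exact mul_le_mul (by linarith) h4 (EE_pos _ _).le (by linarith)
      have h6 := cr_cube n
      calc C2 * (cr n * EE K2 n) = (C2 * EE K2 n) * cr n := by ring
        _ ≤ cr n * cr n := mul_le_mul_of_nonneg_right h5 hcr0.le
        _ ≤ cr n ^ 3 := by nlinarith [mul_pos hcr0 hcr0]
        _ = n := h6
    -- the two sequences
    set s := fun N : ℕ => Real.log ((c (Ed 3) N : ℝ) / mu3 ^ N) with hs
    set f := fun N : ℕ => Real.log (FF (1 / n) N) with hf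
    have hs1 : ∀ m, 3 ≤ m → n ≤ 2 * m → m ≤ 2 * n → |s (m + 2) - s m| ≤ δ := by
      intro m h1 h2 h3
      refine (hrc n hn m h1 (by omega) (by omega)).trans ?_
      rw [hδ]
      apply mul_le_mul (by linarith) _ (by have := EE_pos K1 n; positivity) (by linarith)
      exact mul_le_mul_of_nonneg_left (EE_mono (by linarith) n) (by positivity)
    have hf1 : ∀ m, 3 ≤ m → n ≤ 2 * m → m ≤ 2 * n → |f (m + 2) - f m| ≤ δ := by
      intro m h1 h2 h3
      refine (hrp n hn hcond m h1 h2 h3).trans ?_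
      rw [hδ]
      apply mul_le_mul (by linarith) _ (by have := EE_pos K2 n; positivity) (by linarith)
      exact mul_le_mul_of_nonneg_left (EE_mono (by linarith) n) (by positivity)
    have hsexp : ∀ N, Real.exp (s N) = (c (Ed 3) N : ℝ) / mu3 ^ N := fun N =>
      Real.exp_log (div_pos (c3_pos N) (pow_pos hmu0 N))
    have hε : 1 / (n:ℝ) ≤ 1 / 32 := by
      apply one_div_le_one_div_of_le (by norm_num)
      exact_mod_cast hn32
    have hε0 : 0 < 1 / (n:ℝ) := by positivity
    have hFpos : ∀ N, 0 < FF (1 / n) N := fun N => lt_of_lt_of_le hε0 (FF_ge (by linarith) N)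
    have hfexp : ∀ N, Real.exp (f N) = FF (1 / n) N := fun N => Real.exp_log (hFpos N)
    have hsup : ∀ i, i ≤ 2 * l → |s (n + 2 * i) - s n| ≤ 2 := by
      intro i hi
      have h3 := iter_up (u := s) (δ := δ) (n := n) (l := 2 * l) (fun j hj =>
        hs1 (n + 2 * j) (by omega) (by omega) (by omega)) i hi
      have h4 : (i:ℝ) ≤ 2 * l := by exact_mod_cast hi
      nlinarith
    have hsdn : ∀ i, i ≤ 2 * l + 1 → |s n - s (n - 2 * i)| ≤ 3 := by
      intro i hi
      have h3 := iter_up (u := s) (δ := δ) (n := n - 2 * i) (l := i) (fun j hj =>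
        hs1 (n - 2 * i + 2 * j) (by omega) (by omega) (by omega)) i le_rfl
      have e : n - 2 * i + 2 * i = n := by omega
      rw [e] at h3
      have h4 : (i:ℝ) ≤ 2 * l + 1 := by exact_mod_cast hi
      nlinarith
    have hsdn' : ∀ i, i ≤ l → |s n - s (n - 2 * i)| ≤ 1 := by
      intro i hi
      have h3 := iter_up (u := s) (δ := δ) (n := n - 2 * i) (l := i) (fun j hj =>
        hs1 (n - 2 * i + 2 * j) (by omega) (by omega) (by omega)) i le_rfl
      have e : n - 2 * i + 2 * i = n := by omega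
      rw [e] at h3
      have h4 : (i:ℝ) ≤ l := by exact_mod_cast hi
      nlinarith
    have hfdn : ∀ i, i ≤ l → |f n - f (n - 2 * i)| ≤ 1 := by
      intro i hi
      have h3 := iter_up (u := f) (δ := δ) (n := n - 2 * i) (l := i) (fun j hj =>
        hf1 (n - 2 * i + 2 * j) (by omega) (by omega) (by omega)) i le_rfl
      have e : n - 2 * i + 2 * i = n := by omega
      rw [e] at h3
      have h4 : (i:ℝ) ≤ l := by exact_mod_cast hi
      nlinarith
    have he1 : Real.exp 1 ≤ 2.72 := by have := Real.exp_one_lt_d9; linarith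
    have he0 := Real.exp_pos 1
    have he3 : Real.exp 3 ≤ 81 := by
      have : Real.exp 3 = Real.exp 1 ^ 3 := by rw [← Real.exp_nat_mul]; norm_num
      rw [this]
      calc Real.exp 1 ^ 3 ≤ 2.72 ^ 3 := pow_le_pow_left₀ he0.le he1 3
        _ ≤ 81 := by norm_num
    have hsame : ∀ N, n ≤ N + (4 * l + 2) → N ≤ n + 4 * l → N % 2 = n % 2 →
        (c (Ed 3) N : ℝ) / mu3 ^ N ≤ 81 * ((c (Ed 3) n : ℝ) / mu3 ^ n) := by
      intro N h1 h2 h3
      rw [← hsexp, ← hsexp]
      have h4 : s N ≤ 3 + s n := by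
        rcases le_or_gt n N with h | h
        · have h5 := hsup ((N - n) / 2) (by omega)
          have e : n + 2 * ((N - n) / 2) = N := by omega
          rw [e] at h5
          have := (abs_le.mp h5).2
          linarith
        · have h5 := hsdn ((n - N) / 2) (by omega)
          have e : n - 2 * ((n - N) / 2) = N := by omega
          rw [e] at h5
          have := (abs_le.mp h5).1
          linarith
      calc Real.exp (s N) ≤ Real.exp (3 + s n) := Real.exp_le_exp.mpr h4
        _ = Real.exp 3 * Real.exp (s n) := Real.exp_add _ _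
        _ ≤ 81 * Real.exp (s n) := mul_le_mul_of_nonneg_right he3 (Real.exp_pos _).le
    have hz : ∀ i, i ≤ l → (κ (Ed 3) n : ℝ) / mu3 ^ n ≤
        81 * ((κ (Ed 3) (n - 2 * i) : ℝ) / mu3 ^ (n - 2 * i)) +
        81 / n * ((c (Ed 3) n : ℝ) / mu3 ^ n) := by
      intro i hi
      have hcm := c3_pos (n - 2 * i)
      have a1 := (abs_le.mp (hfdn i hi)).2
      have a2 := (abs_le.mp (hsdn' i hi)).2
      have a3 := (abs_le.mp (hsdn' i hi)).1
      -- `F_n ≤ e F_m`, `s_n ≤ e s_m`, `s_m ≤ e s_n`
      have b1 : FF (1 / n) n ≤ Real.exp 1 * FF (1 / n) (n - 2 * i) := by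
        rw [← hfexp, ← hfexp, ← Real.exp_add]
        exact Real.exp_le_exp.mpr (by linarith)
      have b2 : (c (Ed 3) n : ℝ) / mu3 ^ n ≤
          Real.exp 1 * ((c (Ed 3) (n - 2 * i) : ℝ) / mu3 ^ (n - 2 * i)) := by
        rw [← hsexp, ← hsexp, ← Real.exp_add]
        exact Real.exp_le_exp.mpr (by linarith)
      have b3 : (c (Ed 3) (n - 2 * i) : ℝ) / mu3 ^ (n - 2 * i) ≤
          Real.exp 1 * ((c (Ed 3) n : ℝ) / mu3 ^ n) := by
        rw [← hsexp, ← hsexp, ← Real.exp_add]
        exact Real.exp_le_exp.mpr (by linarith)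
      set m := n - 2 * i with hm
      have hpn := pow_pos hmu0 n
      have hpm := pow_pos hmu0 m
      -- in terms of probabilities
      set p := (κ (Ed 3) n : ℝ) / c (Ed 3) n with hp
      set r := (κ (Ed 3) m : ℝ) / c (Ed 3) m with hr
      have hp0 : 0 ≤ p := by positivity
      have hr0 : 0 ≤ r := by positivity
      have hFp : FF (1 / n) n = (1 - 1 / n) * p + 1 / n := by
        unfold FF
        rw [hp]
        field_simp
      have hFr : FF (1 / n) m = (1 - 1 / n) * r + 1 / n := by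
        unfold FF
        rw [hr]
        field_simp
      rw [hFp, hFr] at b1
      have c1 : p ≤ 3 * r + 3 * (1 / n) := by
        have d1 : (31 / 32 : ℝ) * p ≤ (1 - 1 / n) * p := mul_le_mul_of_nonneg_right (by linarith) hp0
        have d2 : (1 - 1 / (n:ℝ)) * r ≤ r := mul_le_of_le_one_left hr0 (by linarith)
        have d4 : 0 ≤ (1 - 1 / (n:ℝ)) * r := mul_nonneg (by linarith) hr0
        have d3 : Real.exp 1 * ((1 - 1 / n) * r + 1 / n) ≤ 2.72 * (r + 1 / n) :=
          mul_le_mul he1 (by linarith) (by linarith) (by norm_num)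
        linarith
      have e1 : (κ (Ed 3) n : ℝ) / mu3 ^ n = p * ((c (Ed 3) n : ℝ) / mu3 ^ n) := by
        rw [hp]; field_simp
      have e2 : (κ (Ed 3) m : ℝ) / mu3 ^ m = r * ((c (Ed 3) m : ℝ) / mu3 ^ m) := by
        rw [hr]; field_simp
      rw [e1, e2]
      set sn := (c (Ed 3) n : ℝ) / mu3 ^ n with hsn
      set sm := (c (Ed 3) m : ℝ) / mu3 ^ m with hsm
      have hsn0 : 0 < sn := by positivity
      have hsm0 : 0 < sm := by positivity
      have b2' : sn ≤ 2.72 * sm := b2.trans (mul_le_mul_of_nonneg_right he1 hsm0.le)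
      calc p * sn ≤ (3 * r + 3 * (1 / n)) * sn := mul_le_mul_of_nonneg_right c1 hsn0.le
        _ = 3 * r * sn + 3 * (1 / n) * sn := by ring
        _ ≤ 3 * r * (2.72 * sm) + 3 * (1 / n) * sn := by
            have : 3 * r * sn ≤ 3 * r * (2.72 * sm) := mul_le_mul_of_nonneg_left b2' (by positivity)
            linarith
        _ ≤ 81 * (r * sm) + 81 / n * sn := by
            have f1 : 0 ≤ r * sm := by positivity
            have f2 : 0 ≤ 1 / (n:ℝ) * sn := by positivity
            have f3 : 81 / (n:ℝ) * sn = 81 * (1 / n * sn) := by ring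
            rw [f3]
            nlinarith
    have hH0 : 0 ≤ K0 * (cr n * EE K0 n) := by have := EE_pos K0 n; positivity
    have hmain := hpt n (by omega) (K0 * (cr n * EE K0 n)) hH0
      (fun N hN => hup n hn N (by omega)) l hl1 hln hsame hz
    refine hmain.trans ?_
    apply mul_le_mul_of_nonneg_right _ hc0.le
    -- final estimate
    have hlog := log_le_EE hn
    have hlog0 : 0 ≤ Real.log n := by have := log_gt_one hn; linarith
    have g1 : Real.log n / l ≤ 6 * C' * (1 / cr n * EE (K' + 1) n) := by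
      calc Real.log n / l = Real.log n * (1 / l) := by ring
        _ ≤ (3 * EE 1 n) * (2 * δ) := mul_le_mul hlog hlinv (by positivity)
            (by have := EE_pos 1 n; positivity)
        _ = 6 * C' * (1 / cr n * (EE K' n * EE 1 n)) := by rw [hδ]; ring
        _ = 6 * C' * (1 / cr n * EE (K' + 1) n) := by rw [EE_mul]
    have g2 : K0 * (cr n * EE K0 n) / n ≤ K0 * (1 / cr n * EE (K' + 1) n) := by
      have h6 := cr_cube n
      have h7 : (n:ℝ) = cr n ^ 3 := h6.symm
      have h8 : K0 * (cr n * EE K0 n) / n = K0 * (1 / cr n * (1 / cr n * EE K0 n)) := by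
        rw [h7]; field_simp
      rw [h8]
      apply mul_le_mul_of_nonneg_left _ (by linarith)
      apply mul_le_mul_of_nonneg_left _ (by positivity)
      have h9 : 1 / cr n ≤ 1 := by rw [div_le_one hcr0]; exact hcr
      calc 1 / cr n * EE K0 n ≤ 1 * EE K0 n := mul_le_mul_of_nonneg_right h9 (EE_pos _ _).le
        _ = EE K0 n := one_mul _
        _ ≤ EE (K' + 1) n := EE_mono (by linarith) n
    have g3 : EE (K' + 1) n ≤ EE M n := by
      apply EE_mono
      have : 0 ≤ C3 * (6 * C' + K0) := hC3K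
      rw [hM]; linarith
    calc C3 * (Real.log n / l + K0 * (cr n * EE K0 n) / n)
        ≤ C3 * (6 * C' * (1 / cr n * EE (K' + 1) n) + K0 * (1 / cr n * EE (K' + 1) n)) := by
          apply mul_le_mul_of_nonneg_left _ hC3.le
          linarith
      _ = C3 * (6 * C' + K0) * (1 / cr n * EE (K' + 1) n) := by ring
      _ ≤ M * (1 / cr n * EE M n) := by
          apply mul_le_mul (by linarith) _ (by have := EE_pos (K' + 1) n; positivity) hM0.le
          exact mul_le_mul_of_nonneg_left g3 (by positivity)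
  · -- trivial case
    refine hκc.trans (le_mul_of_one_le_left hc0.le ?_)
    have h1 : 1 ≤ 2 * δ := by linarith
    refine h1.trans ?_
    calc 2 * δ = 2 * C' * (1 / cr n * EE K' n) := by rw [hδ]; ring
      _ ≤ M * (1 / cr n * EE M n) := by
          apply mul_le_mul (by linarith) hD (by positivity) hM0.le

/-- **Good lengths at every scale on `ℤ³`.** -/
theorem scale3 : ∃ K : ℝ, 0 < K ∧ ∀ n : ℕ, 3 ≤ n →
    ∃ N, n ≤ N ∧ N ≤ 2 * n ∧ Odd N ∧
      (κ (Ed 3) N : ℝ) ≤ K * ((1 / cr n) ^ 2 * EE K n) * c (Ed 3) N := by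
  obtain ⟨K0, hK0, hup⟩ := up3
  obtain ⟨C, hC, h⟩ := nested' (E := Ed 3) Ed_neg mu3_one low3
  refine ⟨C * (12 * K0) + K0 + 1, by positivity, ?_⟩
  intro n hn
  set M := C * (12 * K0) + K0 + 1 with hM
  have hcr := cr_one_le (show 1 ≤ n by omega)
  have hcr0 : 0 < cr n := by linarith
  have hE0 := EE_pos K0 n
  have hE1 := one_le_EE (show 0 ≤ K0 by linarith) n
  have hH0 : 0 ≤ K0 * (cr n * EE K0 n) := by positivity
  obtain ⟨N, h1, h2, h3, h4⟩ := h n (by omega) (K0 * (cr n * EE K0 n)) hH0 (hup n hn)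
  refine ⟨N, h1, h2, h3, h4.trans (mul_le_mul_of_nonneg_right ?_ (c3_pos N).le)⟩
  have hlog := log_le_EE hn
  have hlogcr := log_le_cr n
  have hlog0 : 0 ≤ Real.log n := by have := log_gt_one hn; linarith
  have g1 : K0 * (cr n * EE K0 n) + Real.log n ≤ 4 * K0 * (cr n * EE K0 n) := by
    have : 3 * cr n ≤ 3 * (K0 * (cr n * EE K0 n)) := by
      have h5 : cr n ≤ cr n * EE K0 n := le_mul_of_one_le_right hcr0.le hE1
      nlinarith
    linarith
  have h7 : (n:ℝ) = cr n ^ 3 := (cr_cube n).symm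
  calc C * ((K0 * (cr n * EE K0 n) + Real.log n) * Real.log n / n)
      ≤ C * ((4 * K0 * (cr n * EE K0 n)) * (3 * EE 1 n) / n) := by
        apply mul_le_mul_of_nonneg_left _ hC.le
        apply div_le_div_of_nonneg_right _ (Nat.cast_nonneg _)
        exact mul_le_mul g1 hlog hlog0 (by positivity)
    _ = C * (12 * K0) * ((1 / cr n) ^ 2 * (EE K0 n * EE 1 n)) := by
        rw [h7]; field_simp; ring
    _ = C * (12 * K0) * ((1 / cr n) ^ 2 * EE (K0 + 1) n) := by rw [EE_mul]
    _ ≤ M * ((1 / cr n) ^ 2 * EE M n) := by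
        have h8 : 0 ≤ C * (12 * K0) := by positivity
        apply mul_le_mul (by linarith) _ (by have := EE_pos (K0 + 1) n; positivity) (by linarith)
        exact mul_le_mul_of_nonneg_left (EE_mono (by linarith) n) (by positivity)

end H982.CL
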