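import Pool.Graph.R_pool_sql_team_seeded_3997aac3.Q294.Close3

/-!
# Closing probability of self-avoiding walks: the entropy argument at late times

Walks in an additive group with steps in a finite symmetric set, as in `Q294.Close1`.
The entropy of the first `k` steps of a closing walk is a concave function of `k`, because
closing walks can be rotated; so the entropy gained between the times `k1` and `k2` is at most
`(k2 - k1) / k1` times the entropy at the time `k1`.
-/

set_option autoImplicit false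
set_option linter.unusedSectionVars false

namespace H982.CL

open Finset Q294.Close

variable {G : Type*} [AddCommGroup G]

/-! ### rotation of closing walks -/

/-- the walk seen from its first step -/
def sh (ω : ℕ → G) : ℕ → G := fun i => ω (i + 1) - ω 1

/-- rotation of a closing walk -/
def rot (n : ℕ) (ω : ℕ → G) : ℕ → G := fun i => if i < n then ω (i + 1) - ω 1 else -ω 1

lemma rot_lt {n i : ℕ} (ω : ℕ → G) (h : i < n) : rot n ω i = ω (i + 1) - ω 1 := by
  unfold rot; rw [if_pos h]

lemma rot_ge {n i : ℕ} (ω : ℕ → G) (h : n ≤ i) : rot n ω i = -ω 1 := by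
  unfold rot; rw [if_neg (by omega)]

lemma rot_mem {E : Finset G} (hE : ∀ e ∈ E, -e ∈ E) {n : ℕ} (hn : 1 ≤ n) {ω : ℕ → G}
    (hω : ω ∈ Cl E n) : rot n ω ∈ Cl E n := by
  obtain ⟨⟨h0, h1, h2, h3⟩, h4⟩ := hω
  refine ⟨⟨?_, ?_, ?_, ?_⟩, ?_⟩
  · rw [rot_lt _ (by omega), zero_add, sub_self]
  · intro i hi
    rw [rot_lt _ hi]
    rcases Nat.lt_or_ge (i + 1) n with h | h
    · rw [rot_lt _ h, sub_sub_sub_cancel_right]
      exact h1 (i + 1) h
    · rw [rot_ge _ h]
      have : i + 1 = n := by omega
      rw [this]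
      have e : -ω 1 - (ω n - ω 1) = -ω n := by abel
      rw [e]
      exact hE _ h4
  · have key : ∀ i, i < n → rot n ω i ≠ -ω 1 := by
      intro i hi h
      rw [rot_lt _ hi] at h
      have h5 : ω (i + 1) = ω 0 := by
        rw [h0]
        have : ω (i + 1) - ω 1 + ω 1 = -ω 1 + ω 1 := by rw [h]
        simpa using this
      have := h2 (i + 1) 0 (by omega) (by omega) h5
      omega
    intro i j hi hj h
    rcases Nat.lt_or_ge i n with h5 | h5 <;> rcases Nat.lt_or_ge j n with h6 | h6
    · rw [rot_lt _ h5, rot_lt _ h6] at h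
      have := h2 _ _ (by omega) (by omega) (sub_left_inj.mp h)
      omega
    · rw [rot_ge _ h6] at h
      exact absurd h (key i h5)
    · rw [rot_ge _ h5] at h
      exact absurd h.symm (key j h6)
    · omega
  · intro i hi
    rw [rot_ge _ hi, rot_ge _ le_rfl]
  · rw [rot_ge _ le_rfl]
    apply hE
    have := h1 0 (by omega)
    rw [h0, zero_add, sub_zero] at this
    exact this

lemma rot_inj {E : Finset G} {n : ℕ} (hn : 1 ≤ n) : Set.InjOn (rot n) (Cl E n) := by
  intro f hf g hg h
  have h1 : f 1 = g 1 := by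
    have := congrFun h n
    rw [rot_ge _ le_rfl, rot_ge _ le_rfl] at this
    exact neg_inj.mp this
  refine W_ext hf.1 hg.1 ?_
  intro i hi
  rcases Nat.eq_zero_or_pos i with rfl | hpos
  · rw [hf.1.1, hg.1.1]
  · have := congrFun h (i - 1)
    rw [rot_lt _ (by omega), rot_lt _ (by omega), h1] at this
    have h2 := sub_left_inj.mp this
    have h3 : i - 1 + 1 = i := by omega
    rwa [h3] at h2

lemma sum_rot {E : Finset G} (hE : ∀ e ∈ E, -e ∈ E) {n : ℕ} (hn : 1 ≤ n) (F : (ℕ → G) → ℝ) :
    ∑ ω ∈ (Cl_finite E n).toFinset, F (rot n ω) = ∑ ω ∈ (Cl_finite E n).toFinset, F ω := by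
  classical
  have h1 : Set.InjOn (rot n) ((Cl_finite E n).toFinset : Set (ℕ → G)) := by
    rw [Set.Finite.coe_toFinset]
    exact rot_inj hn
  have h2 : (Cl_finite E n).toFinset.image (rot n) = (Cl_finite E n).toFinset := by
    apply Finset.eq_of_subset_of_card_le
    · intro f hf
      obtain ⟨g, hg, rfl⟩ := Finset.mem_image.mp hf
      rw [Set.Finite.mem_toFinset] at hg ⊢
      exact rot_mem hE hn hg
    · rw [Finset.card_image_of_injOn h1]
  conv_rhs => rw [← h2]
  rw [Finset.sum_image h1]

/-- `F` depends on the first `k` steps only -/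
def Dep (k : ℕ) (F : (ℕ → G) → ℝ) : Prop :=
  ∀ x y : ℕ → G, (∀ i, i ≤ k → x i = y i) → F x = F y

lemma ES_sh {E : Finset G} (hE : ∀ e ∈ E, -e ∈ E) {lam : ℝ} {I : Finset ℕ} {k : ℕ}
    (hI : ∀ n ∈ I, k < n) {F : (ℕ → G) → ℝ} (hF : Dep k F) :
    ES E lam I (fun ω => F (sh ω)) = ES E lam I F := by
  unfold ES
  refine Finset.sum_congr rfl (fun n hn => ?_)
  rw [← Finset.sum_div, ← Finset.sum_div]
  congr 1
  rw [← sum_rot hE (by have := hI n hn; omega) F]
  refine Finset.sum_congr rfl (fun ω _ => ?_)
  apply hF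
  intro i hi
  rw [rot_lt _ (lt_of_le_of_lt hi (hI n hn))]
  rfl

lemma Dep_Tw {E : Finset G} {lam : ℝ} {I : Finset ℕ} (k : ℕ) :
    Dep k (fun ω => Real.log (Tw E lam I k ω)) := fun x y h => by
  simp only
  rw [Tw_congr h]

lemma Tw_sh_pos {E : Finset G} (hE : ∀ e ∈ E, -e ∈ E) {lam : ℝ} (hl : 0 < lam) {I : Finset ℕ}
    {n k : ℕ} (hn : n ∈ I) (hk : k < n) {ω : ℕ → G} (hω : ω ∈ Cl E n) :
    0 < Tw E lam I k (sh ω) := by
  have h1 := Tw_self_pos (k := k) hl hn (rot_mem hE (by omega) hω)
  rwa [Tw_congr (y := sh ω)] at h1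
  intro i hi
  rw [rot_lt _ (by omega)]
  rfl

/-- the continuations of a walk by one step -/
lemma sum_next {E : Finset G} {lam : ℝ} (hl : 0 < lam) {I : Finset ℕ} {k : ℕ} (hk : 1 ≤ k)
    {y : ℕ → G} (hy : y ∈ W E k) [DecidableEq (ℕ → G)] :
    ∑ x ∈ (W_finite E (k + 1)).toFinset.filter (fun x => tr k x = y), Tw E lam I k (sh x) ≤
      Tw E lam I (k - 1) (sh y) := by
  unfold Tw
  rw [Finset.sum_comm]
  refine Finset.sum_le_sum (fun n _ => ?_)
  rw [← Finset.sum_div]
  apply div_le_div_of_nonneg_right _ (pow_pos hl _).le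
  set S := (W_finite E (k + 1)).toFinset.filter (fun x => tr k x = y) with hS
  have hdisj : ∀ x ∈ S, ∀ x' ∈ S, x ≠ x' → Disjoint (DS_finite E k n (sh x)).toFinset
      (DS_finite E k n (sh x')).toFinset := by
    intro x hx x' hx' hne
    rw [Finset.disjoint_left]
    intro ω h1 h2
    rw [Set.Finite.mem_toFinset] at h1 h2
    apply hne
    rw [hS, Finset.mem_filter, Set.Finite.mem_toFinset] at hx hx'
    refine W_ext hx.1 hx'.1 ?_
    intro i hi
    have a1 : ∀ j, j ≤ k → x j = x' j := by
      rw [← tr_eq_iff, hx.2, hx'.2]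
    rcases Nat.lt_or_ge i (k + 1) with h3 | h3
    · exact a1 i (by omega)
    · have h4 : i = k + 1 := by omega
      subst h4
      have b1 := h1.2 k le_rfl
      have b2 := h2.2 k le_rfl
      unfold sh at b1 b2
      rw [b1, a1 1 hk] at b2
      exact sub_left_inj.mp b2
  have hsub : S.biUnion (fun x => (DS_finite E k n (sh x)).toFinset) ⊆
      (DS_finite E (k - 1) n (sh y)).toFinset := by
    intro ω hω
    rw [Finset.mem_biUnion] at hω
    obtain ⟨x, hx, hω⟩ := hω
    rw [Set.Finite.mem_toFinset] at hω ⊢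
    rw [hS, Finset.mem_filter, Set.Finite.mem_toFinset] at hx
    refine ⟨hω.1, ?_⟩
    intro i hi
    rw [hω.2 i (by omega)]
    unfold sh
    rw [← hx.2, tr_apply _ (by omega), tr_apply _ (by omega)]
  have hcard := Finset.card_le_card hsub
  rw [Finset.card_biUnion hdisj] at hcard
  have e : ∀ k x, (DS E k n x).ncard = (DS_finite E k n x).toFinset.card := fun k x =>
    Set.ncard_eq_toFinset_card _ _
  simp only [e]
  exact_mod_cast hcard

/-- **Concavity of the entropy.** -/
lemma concave {E : Finset G} (hE : ∀ e ∈ E, -e ∈ E) {lam : ℝ} (hl : 0 < lam) {I : Finset ℕ}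
    {k : ℕ} (hk : 1 ≤ k) (hI : ∀ n ∈ I, k < n) :
    2 * ES E lam I (fun ω => Real.log (Tw E lam I k ω)) ≤
      ES E lam I (fun ω => Real.log (Tw E lam I (k + 1) ω)) +
        ES E lam I (fun ω => Real.log (Tw E lam I (k - 1) ω)) := by
  classical
  set v : (ℕ → G) → ℝ := fun ω => Tw E lam I k ω * Tw E lam I k (sh ω) /
    (Tw E lam I (k + 1) ω * Tw E lam I (k - 1) (sh ω)) with hv
  have hE1 := ES_sh (lam := lam) hE hI (Dep_Tw (E := E) (lam := lam) (I := I) k)
  have hE2 := ES_sh (lam := lam) hE (fun n hn => (by have := hI n hn; omega : k - 1 < n))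
    (Dep_Tw (E := E) (lam := lam) (I := I) (k - 1))
  -- the sum of `v`
  have hvle : ES E lam I v ≤ Zw E lam I := by
    have hIk : ∀ n ∈ I, k + 1 ≤ n := fun n hn => hI n hn
    rw [ES_group hIk]
    swap
    · intro x y h
      simp only [hv]
      rw [Tw_congr (k := k) (fun i hi => h i (by omega)), Tw_congr (k := k + 1) h,
        Tw_congr (k := k) (x := sh x) (y := sh y) (fun i hi => by
          unfold sh; rw [h (i + 1) (by omega), h 1 (by omega)]),
        Tw_congr (k := k - 1) (x := sh x) (y := sh y) (fun i hi => by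
          unfold sh; rw [h (i + 1) (by omega), h 1 (by omega)])]
    have h1 : ∀ x ∈ (W_finite E (k + 1)).toFinset, Tw E lam I (k + 1) x * v x ≤
        Tw E lam I k x * Tw E lam I k (sh x) / Tw E lam I (k - 1) (sh x) := by
      intro x _
      have n1 := Tw_nonneg (E := E) hl I (k + 1) x
      have n2 := Tw_nonneg (E := E) hl I k x
      have n3 := Tw_nonneg (E := E) hl I k (sh x)
      have n4 := Tw_nonneg (E := E) hl I (k - 1) (sh x)
      rcases n1.eq_or_lt with h0 | h0
      · rw [← h0, zero_mul]; positivity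
      · simp only [hv]
        apply le_of_eq
        rw [← mul_div_assoc, mul_div_mul_left _ _ h0.ne']
    refine (Finset.sum_le_sum h1).trans ?_
    rw [← Finset.sum_fiberwise_of_maps_to (s := (W_finite E (k + 1)).toFinset)
      (t := (W_finite E k).toFinset) (g := tr k)]
    swap
    · intro x hx
      rw [Set.Finite.mem_toFinset] at hx ⊢
      exact tr_mem_W hx (by omega)
    have h2 : ∀ y ∈ (W_finite E k).toFinset,
        ∑ x ∈ (W_finite E (k + 1)).toFinset.filter (fun x => tr k x = y),
          Tw E lam I k x * Tw E lam I k (sh x) / Tw E lam I (k - 1) (sh x) ≤ Tw E lam I k y := by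
      intro y hy
      rw [Set.Finite.mem_toFinset] at hy
      have h3 : ∀ x ∈ (W_finite E (k + 1)).toFinset.filter (fun x => tr k x = y),
          Tw E lam I k x * Tw E lam I k (sh x) / Tw E lam I (k - 1) (sh x) =
          Tw E lam I k y / Tw E lam I (k - 1) (sh y) * Tw E lam I k (sh x) := by
        intro x hx
        rw [Finset.mem_filter] at hx
        have e1 : ∀ i, i ≤ k → x i = y i := fun i hi => by rw [← hx.2, tr_apply x hi]
        rw [Tw_congr (k := k) e1, Tw_congr (k := k - 1) (x := sh x) (y := sh y) (fun i hi => by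
          unfold sh; rw [e1 (i + 1) (by omega), e1 1 (by omega)])]
        ring
      rw [Finset.sum_congr rfl h3, ← Finset.mul_sum]
      have h4 := sum_next (lam := lam) (I := I) hl hk hy
      have n2 := Tw_nonneg (E := E) hl I k y
      have n4 := Tw_nonneg (E := E) hl I (k - 1) (sh y)
      rcases n4.eq_or_lt with h0 | h0
      · rw [← h0, div_zero, zero_mul]; exact n2
      · calc Tw E lam I k y / Tw E lam I (k - 1) (sh y) * _ ≤
              Tw E lam I k y / Tw E lam I (k - 1) (sh y) * Tw E lam I (k - 1) (sh y) :=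
              mul_le_mul_of_nonneg_left h4 (by positivity)
          _ = Tw E lam I k y := by field_simp
    refine (Finset.sum_le_sum h2).trans ?_
    exact le_of_eq (sum_Tw (fun n hn => (hI n hn).le))
  -- pointwise
  have hpt : ES E lam I (fun ω => (1 - v ω) + (Real.log (Tw E lam I k ω) +
      Real.log (Tw E lam I k (sh ω)))) ≤ ES E lam I (fun ω => Real.log (Tw E lam I (k + 1) ω) +
      Real.log (Tw E lam I (k - 1) (sh ω))) := by
    refine ES_mono hl (fun n hn ω hω => ?_)
    have p1 := Tw_self_pos (k := k + 1) hl hn hω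
    have p2 := Tw_self_pos (k := k) hl hn hω
    have p3 := Tw_sh_pos (k := k) hE hl hn (hI n hn) hω
    have p4 := Tw_sh_pos (k := k - 1) hE hl hn (by have := hI n hn; omega) hω
    have h1 := Real.log_le_sub_one_of_pos (x := v ω) (by simp only [hv]; positivity)
    simp only [hv] at h1 ⊢
    rw [Real.log_div (by positivity) (by positivity), Real.log_mul p2.ne' p3.ne',
      Real.log_mul p1.ne' p4.ne'] at h1
    linarith
  rw [ES_add, ES_add, ES_add, hE1, hE2] at hpt
  have h5 : ES E lam I (fun ω => 1 - v ω) = Zw E lam I - ES E lam I v := by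
    have h6 := ES_add (E := E) (lam := lam) (I := I) (fun ω => 1 - v ω) v
    simp only [sub_add_cancel] at h6
    rw [ES_const, one_mul] at h6
    linarith
  rw [h5] at hpt
  linarith

end H982.CL
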