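import Pool.Agent.H982.CL8

/-!
# The exponents of polygons and of walks on `ℤ^d`
-/

set_option autoImplicit false
set_option linter.unusedSectionVars false

namespace H982.CL

open Finset Q294.Close Filter Topology

variable {G : Type*} [AddCommGroup G]

/-- submultiplicativity -/
lemma c_add_le (E : Finset G) (m k : ℕ) : c E (m + k) ≤ c E m * c E k := by
  unfold c
  rw [← Set.ncard_prod]
  refine Set.ncard_le_ncard_of_injOn (fun f => (tr m f, fun i => f (m + i) - f m)) ?_ ?_
    ((W_finite E m).prod (W_finite E k))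
  · intro f hf
    refine ⟨tr_mem_W hf (by omega), ?_, ?_, ?_, ?_⟩
    · simp
    · intro i hi
      simp only
      rw [sub_sub_sub_cancel_right]
      exact hf.2.1 (m + i) (by omega)
    · intro i j hi hj h
      have := hf.2.2.1 (m + i) (m + j) (by omega) (by omega) (sub_left_inj.mp h)
      omega
    · intro i hi
      simp only
      rw [hf.2.2.2 (m + i) (by omega)]
  · intro f hf g hg h
    simp only [Prod.mk.injEq] at h
    have h1 := tr_eq_iff.mp h.1
    refine W_ext hf hg ?_
    intro i hi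
    rcases le_or_gt i m with h2 | h2
    · exact h1 i h2
    · have h3 := congrFun h.2 (i - m)
      have e : m + (i - m) = i := by omega
      rw [e, h1 m le_rfl] at h3
      exact sub_left_inj.mp h3

/-- straight walks -/
lemma c_pos_d {d : ℕ} (hd : 1 ≤ d) (n : ℕ) : 0 < c (Ed d) n := by
  unfold c
  rw [Set.ncard_pos (W_finite _ _)]
  let j : Fin d := ⟨0, hd⟩
  refine ⟨fun i => Pi.single j ((min i n : ℕ) : ℤ), ?_, ?_, ?_, ?_⟩
  · simp
  · intro i hi
    rw [mem_Ed, ← Pi.single_sub, min_eq_left (by omega), min_eq_left (by omega)]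
    rw [Finset.sum_eq_single j]
    · rw [Pi.single_eq_same]; push_cast; simp
    · intro a _ ha
      rw [Pi.single_eq_of_ne ha, abs_zero]
    · intro h; exact absurd (Finset.mem_univ j) h
  · intro a b ha hb h
    have := congrFun h j
    simp only [Pi.single_eq_same] at this
    omega
  · intro i hi
    simp only
    rw [min_eq_right hi, min_self]

/-- the connective constant exists -/
lemma mu_exists {d : ℕ} (hd : 1 ≤ d) : ∃ μ : ℝ,
    Tendsto (fun n : ℕ => (c (Ed d) n : ℝ) ^ (1 / (n : ℝ))) atTop (𝓝 μ) := by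
  have hc : ∀ n, (1:ℝ) ≤ c (Ed d) n := fun n => by
    have := c_pos_d hd n
    exact_mod_cast this
  have hsub : Subadditive (fun n => Real.log (c (Ed d) n)) := by
    intro m k
    rw [← Real.log_mul (by linarith [hc m]) (by linarith [hc k])]
    apply Real.log_le_log (by linarith [hc (m + k)])
    exact_mod_cast c_add_le (Ed d) m k
  have hbdd : BddBelow (Set.range fun n : ℕ => Real.log (c (Ed d) n) / n) := by
    refine ⟨0, ?_⟩
    rintro _ ⟨n, rfl⟩
    exact div_nonneg (Real.log_nonneg (hc n)) (Nat.cast_nonneg n)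
  refine ⟨Real.exp hsub.lim, ?_⟩
  refine ((Real.continuous_exp.tendsto _).comp (hsub.tendsto_lim hbdd)).congr (fun n => ?_)
  simp only [Function.comp]
  rw [Real.rpow_def_of_pos (by linarith [hc n])]
  congr 1
  ring

/-- the connective constant is a lower bound -/
lemma mu_low {d : ℕ} (hd : 1 ≤ d) {μ : ℝ}
    (hμ : Tendsto (fun n : ℕ => (c (Ed d) n : ℝ) ^ (1 / (n : ℝ))) atTop (𝓝 μ)) :
    1 ≤ μ ∧ ∀ n, μ ^ n ≤ (c (Ed d) n : ℝ) := by
  have hc : ∀ n, (1:ℝ) ≤ c (Ed d) n := fun n => by
    have := c_pos_d hd n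
    exact_mod_cast this
  have hsub : Subadditive (fun n => Real.log (c (Ed d) n)) := by
    intro m k
    rw [← Real.log_mul (by linarith [hc m]) (by linarith [hc k])]
    apply Real.log_le_log (by linarith [hc (m + k)])
    exact_mod_cast c_add_le (Ed d) m k
  have hbdd : BddBelow (Set.range fun n : ℕ => Real.log (c (Ed d) n) / n) := by
    refine ⟨0, ?_⟩
    rintro _ ⟨n, rfl⟩
    exact div_nonneg (Real.log_nonneg (hc n)) (Nat.cast_nonneg n)
  have hlim := hsub.tendsto_lim hbdd
  have h2 : Tendsto (fun n : ℕ => (c (Ed d) n : ℝ) ^ (1 / (n : ℝ))) atTop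
      (𝓝 (Real.exp hsub.lim)) := by
    refine ((Real.continuous_exp.tendsto _).comp hlim).congr (fun n => ?_)
    simp only [Function.comp]
    rw [Real.rpow_def_of_pos (by linarith [hc n])]
    congr 1
    ring
  have he := tendsto_nhds_unique hμ h2
  constructor
  · rw [he]
    apply Real.one_le_exp
    refine ge_of_tendsto' hlim (fun n => div_nonneg (Real.log_nonneg (hc n)) (Nat.cast_nonneg n))
  · intro n
    rcases Nat.eq_zero_or_pos n with rfl | hn
    · simpa using hc 0
    · have h3 := hsub.lim_le_div hbdd (show n ≠ 0 by omega)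
      rw [le_div_iff₀ (by exact_mod_cast hn)] at h3
      rw [he, ← Real.exp_nat_mul]
      calc Real.exp (n * hsub.lim) ≤ Real.exp (Real.log (c (Ed d) n)) :=
            Real.exp_le_exp.mpr (by linarith)
        _ = c (Ed d) n := Real.exp_log (by linarith [hc n])

/-- `ω` is a self-avoiding polygon of length `n` -/
def IsSAP (d n : ℕ) (ω : Fin (n + 1) → Fin d → ℤ) : Prop :=
  ω 0 = 0 ∧ ω (Fin.last n) = 0 ∧ (∀ i : Fin n, ∑ j, |ω i.succ j - ω i.castSucc j| = 1) ∧
    ∀ i j : Fin (n + 1), i < j → (j : ℕ) ≤ n - 1 → ω i ≠ ω j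

lemma A_eq (d N : ℕ) (hN : 1 ≤ N) :
    {ω : Fin (N + 1 + 1) → Fin d → ℤ | IsSAP d (N + 1) ω}.ncard = κ (Ed d) N := by
  unfold κ
  symm
  refine Set.ncard_congr (fun f _ => fun i : Fin (N + 1 + 1) => if (i : ℕ) ≤ N then f i else 0)
    ?_ ?_ ?_
  · rintro f ⟨⟨h0, h1, h2, h3⟩, h4⟩
    refine ⟨?_, ?_, ?_, ?_⟩
    · simp [h0]
    · simp
    · intro i
      simp only [Fin.val_succ, Fin.val_castSucc]
      rcases Nat.lt_or_ge (i : ℕ) N with h | h
      · rw [if_pos (by omega), if_pos (by omega)]
        have := h1 i h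
        rw [mem_Ed] at this
        simpa using this
      · have hi : (i : ℕ) = N := by have := i.2; omega
        rw [if_neg (by omega), if_pos (by omega), hi]
        rw [mem_Ed] at h4
        simpa using h4
    · intro i j hij hj h
      simp only at h
      have hij' : (i : ℕ) < j := hij
      rw [if_pos (by omega), if_pos (by omega)] at h
      have := h2 i j (by omega) (by omega) h
      omega
  · rintro f g ⟨hf, -⟩ ⟨hg, -⟩ h
    refine W_ext hf hg (fun i hi => ?_)
    have := congrFun h ⟨i, by omega⟩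
    simpa [hi] using this
  · rintro ω ⟨h0, h1, h2, h3⟩
    refine ⟨fun i => ω ⟨min i N, by omega⟩, ⟨⟨?_, ?_, ?_, ?_⟩, ?_⟩, ?_⟩
    · exact h0
    · intro i hi
      rw [mem_Ed]
      have := h2 ⟨i, by omega⟩
      have e1 : (⟨min (i + 1) N, by omega⟩ : Fin (N + 1 + 1)) =
          (⟨i, by omega⟩ : Fin (N + 1)).succ := by
        apply Fin.ext; simp; omega
      have e2 : (⟨min i N, by omega⟩ : Fin (N + 1 + 1)) =
          (⟨i, by omega⟩ : Fin (N + 1)).castSucc := by
        apply Fin.ext; simp; omega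
      show ∑ j, |(ω ⟨min (i + 1) N, _⟩ - ω ⟨min i N, _⟩) j| = 1
      rw [e1, e2]
      simpa using this
    · intro i j hi hj h
      simp only at h
      by_contra hne
      rcases lt_or_gt_of_ne hne with h4 | h4
      · exact h3 ⟨min i N, by omega⟩ ⟨min j N, by omega⟩ (by
          show min i N < min j N; omega) (by show min j N ≤ N + 1 - 1; omega) h
      · exact h3 ⟨min j N, by omega⟩ ⟨min i N, by omega⟩ (by
          show min j N < min i N; omega) (by show min i N ≤ N + 1 - 1; omega) h.symm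
    · intro i hi
      simp only
      congr 1
      apply Fin.ext
      simp only
      omega
    · rw [mem_Ed]
      have := h2 ⟨N, by omega⟩
      have e1 : (⟨N, by omega⟩ : Fin (N + 1)).succ = Fin.last (N + 1) := by
        apply Fin.ext; simp
      have e2 : (⟨N, by omega⟩ : Fin (N + 1)).castSucc = ⟨min N N, by omega⟩ := by
        apply Fin.ext; simp
      rw [e1, e2, h1] at this
      simpa using this
    · funext i
      simp only
      split_ifs with h4
      · congr 1
        apply Fin.ext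
        simp only
        omega
      · have : i = Fin.last (N + 1) := by
          apply Fin.ext
          have := i.2
          simp only [Fin.val_last]
          omega
        rw [this, h1]

/-- **The inequality `α ≤ γ`.** -/
theorem alpha_le_gamma {d : ℕ} (hd : 2 ≤ d) {μ : ℝ}
    (hμ : Tendsto (fun n : ℕ => (c (Ed d) n : ℝ) ^ (1 / (n : ℝ))) atTop (𝓝 μ)) {α γ : ℝ}
    (hγ : Tendsto (fun n : ℕ => Real.log ((c (Ed d) n : ℝ) / μ ^ n) / Real.log n) atTop
      (𝓝 (γ - 1)))
    (hα : Tendsto (fun j : ℕ => Real.log ((κ (Ed d) (2 * j + 1) : ℝ) / μ ^ (2 * j + 2)) /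
      Real.log ((2 * j + 2 : ℕ) : ℝ)) atTop (𝓝 (α - 2))) : α ≤ γ := by
  obtain ⟨hμ1, hlow⟩ := mu_low (by omega) hμ
  have hμ0 : 0 < μ := by linarith
  obtain ⟨C, hC, hnest⟩ := nested' (E := Ed d) Ed_neg hμ1 hlow
  by_contra hlt
  push Not at hlt
  set ε := (α - γ) / 4 with hε
  have hε0 : 0 < ε := by rw [hε]; linarith
  have hcpos : ∀ n, (0:ℝ) < c (Ed d) n := fun n => by exact_mod_cast c_pos_d (by omega) n
  have hs1 : ∀ n, 1 ≤ (c (Ed d) n : ℝ) / μ ^ n := fun n => by
    rw [one_le_div (pow_pos hμ0 n)]; exact hlow n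
  have hlog0 : ∀ n, 0 ≤ Real.log ((c (Ed d) n : ℝ) / μ ^ n) := fun n => Real.log_nonneg (hs1 n)
  have hγ1 : 0 ≤ γ - 1 := by
    refine ge_of_tendsto hγ ?_
    filter_upwards [eventually_ge_atTop 1] with n hn
    exact div_nonneg (hlog0 n) (Real.log_natCast_nonneg n)
  -- upper bound for the walks
  obtain ⟨n0, hn0⟩ := eventually_atTop.1 (hγ.eventually_lt_const
    (show γ - 1 < γ - 1 + ε by linarith))
  have hup : ∀ n, max n0 2 ≤ n → Real.log ((c (Ed d) n : ℝ) / μ ^ n) ≤
      (γ - 1 + ε) * Real.log n := by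
    intro n hn
    have h1 := hn0 n (le_trans (le_max_left _ _) hn)
    have h2 : 2 ≤ n := le_trans (le_max_right _ _) hn
    have h3 : 0 < Real.log n := Real.log_pos (by exact_mod_cast (by omega : 1 < n))
    rw [div_lt_iff₀ h3] at h1
    exact h1.le
  set B := ∑ n ∈ range (max n0 2), Real.log ((c (Ed d) n : ℝ) / μ ^ n) with hB
  have hB0 : 0 ≤ B := Finset.sum_nonneg (fun n _ => hlog0 n)
  set g := γ - 1 + ε with hg
  have hg0 : 0 < g := by rw [hg]; linarith
  have hH : ∀ n : ℕ, 2 ≤ n → ∀ N : ℕ, N ≤ 4 * n →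
      (c (Ed d) N : ℝ) ≤ μ ^ N * Real.exp (B + g * (3 * Real.log n)) := by
    intro n hn N hN
    have hnr : (2:ℝ) ≤ n := by exact_mod_cast hn
    have hlogn : 0 < Real.log n := Real.log_pos (by linarith)
    have key : Real.log ((c (Ed d) N : ℝ) / μ ^ N) ≤ B + g * (3 * Real.log n) := by
      rcases Nat.lt_or_ge N (max n0 2) with h | h
      · have h1 : Real.log ((c (Ed d) N : ℝ) / μ ^ N) ≤ B :=
          Finset.single_le_sum (f := fun n => Real.log ((c (Ed d) n : ℝ) / μ ^ n))
            (fun n _ => hlog0 n) (Finset.mem_range.mpr h)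
        have : 0 ≤ g * (3 * Real.log n) := by positivity
        linarith
      · have h1 := hup N h
        have h2 : Real.log N ≤ 3 * Real.log n := by
          have h3 : (N:ℝ) ≤ (n:ℝ) ^ 3 := by
            have h4 : (N:ℝ) ≤ 4 * n := by exact_mod_cast hN
            have h5 : 4 * (n:ℝ) ≤ (n:ℝ) ^ 3 := by
              have : (4:ℝ) ≤ (n:ℝ) ^ 2 := by nlinarith
              nlinarith
            linarith
          have hN0 : (0:ℝ) < N := by
            have : 2 ≤ N := le_trans (le_max_right _ _) h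
            exact_mod_cast (by omega : 0 < N)
          have h5 := Real.log_le_log hN0 h3
          rw [Real.log_pow] at h5
          exact_mod_cast h5
        have h3 := mul_le_mul_of_nonneg_left h2 hg0.le
        linarith
    have h1 := (Real.log_le_iff_le_exp (lt_of_lt_of_le one_pos (hs1 N))).mp key
    rw [div_le_iff₀ (pow_pos hμ0 N)] at h1
    linarith
  -- lower bound for the polygons
  obtain ⟨j0, hj0⟩ := eventually_atTop.1 (hα.eventually_const_lt
    (show α - 2 - ε < α - 2 by linarith))
  -- the contradiction at a large scale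
  set D := B / Real.log 2 + 3 * g + 1 with hD
  have hlog2 : 0 < Real.log 2 := Real.log_pos (by norm_num)
  have hD0 : 0 < D := by positivity
  have hlim : ∀ᶠ n : ℕ in atTop, Real.log (C * D) + 2 * Real.log (Real.log n) +
      (|g - 1| + 1) * Real.log 4 + |α - 2 - ε| * Real.log 4 < ε * Real.log n := by
    have h1 : ∀ᶠ x : ℝ in atTop, Real.log (C * D) + 2 * Real.log x +
        (|g - 1| + 1) * Real.log 4 + |α - 2 - ε| * Real.log 4 < ε * x := by
      have h2 := Real.isLittleO_log_id_atTop.bound (show (0:ℝ) < ε / 4 by positivity)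
      have h3 : Tendsto (fun x : ℝ => ε / 2 * x) atTop atTop :=
        tendsto_id.const_mul_atTop (by positivity)
      filter_upwards [h2, h3.eventually_gt_atTop (Real.log (C * D) +
        (|g - 1| + 1) * Real.log 4 + |α - 2 - ε| * Real.log 4),
        eventually_ge_atTop (1:ℝ)] with x hx1 hx2 hx3
      rw [Real.norm_eq_abs, Real.norm_eq_abs, abs_of_nonneg (Real.log_nonneg hx3), id,
        abs_of_pos (by linarith)] at hx1
      linarith
    exact (Real.tendsto_log_atTop.comp tendsto_natCast_atTop_atTop).eventually h1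
  obtain ⟨n1, hn1⟩ := eventually_atTop.1 hlim
  set n := max (max n1 (2 * j0 + 3)) (max n0 2) with hn
  have hna : n1 ≤ n := le_trans (le_max_left _ _) (le_max_left _ _)
  have hnb : 2 * j0 + 3 ≤ n := le_trans (le_max_right _ _) (le_max_left _ _)
  have hnc : max n0 2 ≤ n := le_max_right _ _
  have hn2 : 2 ≤ n := le_trans (le_max_right _ _) hnc
  have hnr : (2:ℝ) ≤ n := by exact_mod_cast hn2
  have hlogn : Real.log 2 ≤ Real.log n := Real.log_le_log (by norm_num) hnr
  have hlogn0 : 0 < Real.log n := by linarith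
  have hH0 : 0 ≤ B + g * (3 * Real.log n) := by positivity
  obtain ⟨N, h1, h2, ⟨j, rfl⟩, h4⟩ := hnest n hn2 _ hH0 (hH n hn2)
  have hj : j0 ≤ j := by omega
  have h5 := hj0 j hj
  have h6 := hn1 n hna
  have hκpos : (0:ℝ) < κ (Ed d) (2 * j + 1) := by
    obtain ⟨d', rfl⟩ : ∃ d', d = d' + 2 := ⟨d - 2, by omega⟩
    exact_mod_cast κ_pos d' (show 1 ≤ j by omega)
  -- logarithm of the bound
  have hXle : B + g * (3 * Real.log n) + Real.log n ≤ D * Real.log n := by
    rw [hD]
    have : B ≤ B / Real.log 2 * Real.log n := by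
      rw [div_mul_eq_mul_div, le_div_iff₀ hlog2]
      exact mul_le_mul_of_nonneg_left hlogn hB0
    nlinarith
  have h7 : (κ (Ed d) (2 * j + 1) : ℝ) ≤
      C * (D * Real.log n * Real.log n / n) * c (Ed d) (2 * j + 1) := by
    refine h4.trans (mul_le_mul_of_nonneg_right ?_ (hcpos _).le)
    apply mul_le_mul_of_nonneg_left _ hC.le
    apply div_le_div_of_nonneg_right _ (by linarith)
    exact mul_le_mul_of_nonneg_right hXle hlogn0.le
  have h8 : Real.log (κ (Ed d) (2 * j + 1)) ≤ Real.log (C * D) + 2 * Real.log (Real.log n) -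
      Real.log n + Real.log (c (Ed d) (2 * j + 1)) := by
    have h9 := Real.log_le_log hκpos h7
    have e : C * (D * Real.log n * Real.log n / n) * c (Ed d) (2 * j + 1) =
        (C * D) * (Real.log n ^ 2 / n) * c (Ed d) (2 * j + 1) := by ring
    rw [e, Real.log_mul (by positivity) (hcpos _).ne', Real.log_mul (by positivity)
      (by positivity), Real.log_div (by positivity) (by positivity), Real.log_pow] at h9
    push_cast at h9
    linarith
  have h10 := hup (2 * j + 1) (by omega)
  rw [Real.log_div (hcpos _).ne' (pow_pos hμ0 _).ne'] at h10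
  have hx : 0 < Real.log ((2 * j + 2 : ℕ) : ℝ) := by
    apply Real.log_pos
    exact_mod_cast (by omega : 1 < 2 * j + 2)
  rw [lt_div_iff₀ hx, Real.log_div hκpos.ne' (pow_pos hμ0 _).ne'] at h5
  have h11 : Real.log (μ ^ (2 * j + 2)) = Real.log (μ ^ (2 * j + 1)) + Real.log μ := by
    rw [← Real.log_mul (pow_pos hμ0 _).ne' hμ0.ne', ← pow_succ]
  have h12 := Real.log_nonneg hμ1
  -- compare the logarithms of the lengths with `log n`
  have hlog4 : 0 < Real.log 4 := Real.log_pos (by norm_num)
  have hN1 : Real.log ((2 * j + 1 : ℕ) : ℝ) ≤ Real.log n + Real.log 4 := by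
    rw [← Real.log_mul (by positivity) (by norm_num)]
    apply Real.log_le_log (by exact_mod_cast (by omega : 0 < 2 * j + 1))
    exact_mod_cast (by omega : 2 * j + 1 ≤ n * 4)
  have hN2 : Real.log ((2 * j + 2 : ℕ) : ℝ) ≤ Real.log n + Real.log 4 := by
    rw [← Real.log_mul (by positivity) (by norm_num)]
    apply Real.log_le_log (by exact_mod_cast (by omega : 0 < 2 * j + 2))
    exact_mod_cast (by omega : 2 * j + 2 ≤ n * 4)
  have hN3 : Real.log n ≤ Real.log ((2 * j + 2 : ℕ) : ℝ) := by
    apply Real.log_le_log (by linarith)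
    exact_mod_cast (by omega : n ≤ 2 * j + 2)
  have k1 : g * Real.log ((2 * j + 1 : ℕ) : ℝ) ≤ g * (Real.log n + Real.log 4) :=
    mul_le_mul_of_nonneg_left hN1 hg0.le
  have k2 : (α - 2 - ε) * Real.log n - |α - 2 - ε| * Real.log 4 ≤
      (α - 2 - ε) * Real.log ((2 * j + 2 : ℕ) : ℝ) := by
    have := neg_abs_le (α - 2 - ε)
    have h13 : 0 ≤ Real.log ((2 * j + 2 : ℕ) : ℝ) - Real.log n := by linarith
    have h14 : Real.log ((2 * j + 2 : ℕ) : ℝ) - Real.log n ≤ Real.log 4 := by linarith
    have h15 : -(|α - 2 - ε| * Real.log 4) ≤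
        (α - 2 - ε) * (Real.log ((2 * j + 2 : ℕ) : ℝ) - Real.log n) := by
      have a1 : -|α - 2 - ε| * (Real.log ((2 * j + 2 : ℕ) : ℝ) - Real.log n) ≤
          (α - 2 - ε) * (Real.log ((2 * j + 2 : ℕ) : ℝ) - Real.log n) :=
        mul_le_mul_of_nonneg_right this h13
      have a2 := mul_le_mul_of_nonneg_left h14 (abs_nonneg (α - 2 - ε))
      linarith
    linarith
  have k3 : g * Real.log 4 ≤ (|g - 1| + 1) * Real.log 4 := by
    apply mul_le_mul_of_nonneg_right _ hlog4.le
    have := le_abs_self (g - 1)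
    linarith
  have hfin : (α - 2 - ε) * Real.log n < Real.log (C * D) + 2 * Real.log (Real.log n) -
      Real.log n + g * Real.log n + (|g - 1| + 1) * Real.log 4 + |α - 2 - ε| * Real.log 4 := by
    linarith
  have : α - 2 - ε - (g - 1) = 2 * ε := by rw [hg, hε]; ring
  have h16 : 2 * ε * Real.log n < ε * Real.log n := by
    have e2 : (α - 2 - ε) * Real.log n = (2 * ε + (g - 1)) * Real.log n := by
      rw [← this]; ring
    rw [e2] at hfin
    linarith
  nlinarith

end H982.CL
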