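import Pool.Agent.H982.CL1

/-!
# Closing probability of self-avoiding walks: the general inequality at late times
-/

set_option autoImplicit false
set_option linter.unusedSectionVars false

namespace H982.CL

open Finset Q294.Close

variable {G : Type*} [AddCommGroup G]

/-- weighted key inequality, times in `[k1, k2)` -/
lemma Tw_le' {E : Finset G} (hE : ∀ e ∈ E, -e ∈ E) {lam : ℝ} (hl : 0 < lam) {a b k1 k2 k : ℕ}
    (hk1 : k1 ≤ k) (hk2 : k < k2) (ha : k2 < a) (x : ℕ → G) :
    lam ^ k * Tw E lam (Icc a b) (k + 1) x ≤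
      Bw E lam (Icc (a - k2) (b - k1)) k x - Bw E lam (Icc (a - k2) (b - k1)) (k + 1) x := by
  classical
  have h1 : lam ^ k * Tw E lam (Icc a b) (k + 1) x =
      ∑ m ∈ (Icc a b).image (fun n => n - k), ((DS E (k + 1) (k + m) x).ncard : ℝ) / lam ^ m := by
    rw [Finset.sum_image]
    · unfold Tw
      rw [Finset.mul_sum]
      refine Finset.sum_congr rfl (fun n hn => ?_)
      have hn' := Finset.mem_Icc.mp hn
      have h2 : k + (n - k) = n := by omega
      rw [h2]
      have h3 : lam ^ n = lam ^ k * lam ^ (n - k) := by rw [← pow_add, h2]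
      rw [h3]
      have : lam ^ k ≠ 0 := (pow_pos hl _).ne'
      have : lam ^ (n - k) ≠ 0 := (pow_pos hl _).ne'
      field_simp
    · intro n hn m hm h
      have hn' := Finset.mem_Icc.mp hn
      have hm' := Finset.mem_Icc.mp hm
      simp only at h
      omega
  rw [h1]
  unfold Bw
  rw [← Finset.sum_sub_distrib]
  have h4 : ∀ m ∈ Icc (a - k2) (b - k1), ((DS E (k + 1) (k + m) x).ncard : ℝ) / lam ^ m ≤
      ((BS E k m x).ncard : ℝ) / lam ^ m - ((BS E (k + 1) m x).ncard : ℝ) / lam ^ m := by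
    intro m hm
    have hm' := Finset.mem_Icc.mp hm
    rw [← sub_div]
    apply div_le_div_of_nonneg_right _ (pow_pos hl _).le
    have h5 := DS_le hE k m (by omega) x
    have h6 : ((DS E (k + 1) (k + m) x).ncard : ℝ) + ((BS E (k + 1) m x).ncard : ℝ) ≤
      ((BS E k m x).ncard : ℝ) := by exact_mod_cast h5
    linarith
  refine le_trans ?_ (Finset.sum_le_sum h4)
  refine Finset.sum_le_sum_of_subset_of_nonneg ?_ (fun _ _ _ => by positivity)
  intro m hm
  simp only [Finset.mem_image, Finset.mem_Icc] at hm ⊢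
  omega

/-- the sum of the `B` over the walks -/
lemma sum_Bw {E : Finset G} (hE : ∀ e ∈ E, -e ∈ E) {lam : ℝ} (hl : 0 < lam) {a b L k1 k2 k : ℕ}
    (hL : k2 = k1 + L) (hk1 : k1 ≤ k) (hk2 : k ≤ k2) (ha : k2 < a) (hab : a ≤ b) :
    ∑ x ∈ (W_finite E k).toFinset, Bw E lam (Icc (a - k2) (b - k1)) k x ≤
      lam ^ k * Sw E lam (Icc (a - L) (b + L)) := by
  classical
  unfold Bw
  rw [Finset.sum_comm]
  have h3 : ∀ m ∈ Icc (a - k2) (b - k1), ∑ x ∈ (W_finite E k).toFinset,
      ((BS E k m x).ncard : ℝ) / lam ^ m ≤ lam ^ k * ((c E (k + m) : ℝ) / lam ^ (k + m)) := by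
    intro m _
    rw [← Finset.sum_div]
    have h4 : (∑ x ∈ (W_finite E k).toFinset, ((BS E k m x).ncard : ℝ)) ≤ (c E (k + m) : ℝ) := by
      exact_mod_cast sum_BS hE k m
    have h5 : lam ^ k * ((c E (k + m) : ℝ) / lam ^ (k + m)) = (c E (k + m) : ℝ) / lam ^ m := by
      rw [pow_add]
      have : lam ^ k ≠ 0 := (pow_pos hl _).ne'
      have : lam ^ m ≠ 0 := (pow_pos hl _).ne'
      field_simp
    rw [h5]
    exact div_le_div_of_nonneg_right h4 (pow_pos hl _).le
  refine (Finset.sum_le_sum h3).trans ?_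
  rw [← Finset.mul_sum]
  apply mul_le_mul_of_nonneg_left _ (pow_pos hl _).le
  unfold Sw
  have h6 : ∑ m ∈ Icc (a - k2) (b - k1), (c E (k + m) : ℝ) / lam ^ (k + m) =
      ∑ n ∈ (Icc (a - k2) (b - k1)).image (fun m => k + m), (c E n : ℝ) / lam ^ n := by
    rw [Finset.sum_image]
    intro m _ m' _ h
    simp only at h
    omega
  rw [h6]
  refine Finset.sum_le_sum_of_subset_of_nonneg ?_ (fun _ _ _ => by positivity)
  intro n hn
  simp only [Finset.mem_image, Finset.mem_Icc] at hn ⊢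
  omega

/-- (C): second moment bound, times in `[k1, k2)` -/
lemma ES_ratio' {E : Finset G} (hE : ∀ e ∈ E, -e ∈ E) {lam : ℝ} (hl : 0 < lam)
    {a b L k1 k2 k : ℕ} (hL : k2 = k1 + L) (hk1 : k1 ≤ k) (hk2 : k < k2) (ha : k2 < a)
    (hab : a ≤ b) (hS : 0 < Sw E lam (Icc (a - L) (b + L))) :
    Zw E lam (Icc a b) ^ 2 / (E.card * Sw E lam (Icc (a - L) (b + L))) ≤
      ES E lam (Icc a b) (fun ω => lam ^ k * Tw E lam (Icc a b) (k + 1) ω /
        Bw E lam (Icc (a - k2) (b - k1)) k ω) := by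
  classical
  have hI : ∀ n ∈ Icc a b, k + 1 ≤ n := fun n hn => by
    have := Finset.mem_Icc.mp hn; omega
  set Z := Zw E lam (Icc a b) with hZ
  set S := Sw E lam (Icc (a - L) (b + L)) with hSdef
  rw [ES_group hI]
  swap
  · intro x y h
    rw [Tw_congr h, Bw_congr (fun i hi => h i (by omega))]
  rcases Nat.eq_zero_or_pos E.card with hE0 | hEpos
  · rw [hE0]
    simp only [Nat.cast_zero, zero_mul, div_zero]
    refine Finset.sum_nonneg (fun x _ => ?_)
    have h1 := Tw_nonneg (E := E) hl (Icc a b) (k + 1) x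
    have h2 := Bw_nonneg (E := E) hl (Icc (a - k2) (b - k1)) k x
    positivity
  have hEr : (0:ℝ) < E.card := by exact_mod_cast hEpos
  have hlk : 0 < lam ^ k := pow_pos hl k
  set R := (E.card : ℝ) * (lam ^ k * S) with hR
  have hRpos : 0 < R := by positivity
  -- sum of the `B`
  have hB : ∑ x ∈ (W_finite E (k + 1)).toFinset, Bw E lam (Icc (a - k2) (b - k1)) k x ≤ R := by
    have h1 := sum_ext (E := E) k (fun x => Bw E lam (Icc (a - k2) (b - k1)) k x)
      (fun x => Bw_nonneg hl _ _ _)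
    have h2 : ∑ x ∈ (W_finite E (k + 1)).toFinset, Bw E lam (Icc (a - k2) (b - k1)) k (tr k x) =
        ∑ x ∈ (W_finite E (k + 1)).toFinset, Bw E lam (Icc (a - k2) (b - k1)) k x :=
      Finset.sum_congr rfl (fun x _ => Bw_congr (fun i hi => tr_apply x hi))
    rw [h2] at h1
    refine h1.trans ?_
    rw [hR]
    apply mul_le_mul_of_nonneg_left _ hEr.le
    exact sum_Bw hE hl hL hk1 hk2.le ha hab
  -- pointwise bound
  have hpt : ∀ x ∈ (W_finite E (k + 1)).toFinset,
      2 * (Z / R) * lam ^ k * Tw E lam (Icc a b) (k + 1) x -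
        (Z / R) ^ 2 * lam ^ k * Bw E lam (Icc (a - k2) (b - k1)) k x ≤
      Tw E lam (Icc a b) (k + 1) x * (lam ^ k * Tw E lam (Icc a b) (k + 1) x /
        Bw E lam (Icc (a - k2) (b - k1)) k x) := by
    intro x _
    have hT := Tw_nonneg (E := E) hl (Icc a b) (k + 1) x
    have hB0 := Bw_nonneg (E := E) hl (Icc (a - k2) (b - k1)) k x
    have hB1 := Bw_nonneg (E := E) hl (Icc (a - k2) (b - k1)) (k + 1) x
    have hTB := Tw_le' hE hl (b := b) hk1 hk2 ha x
    rcases hT.eq_or_lt with h0 | h0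
    · rw [← h0]
      have : 0 ≤ (Z / R) ^ 2 * lam ^ k * Bw E lam (Icc (a - k2) (b - k1)) k x := by positivity
      simp only [mul_zero, zero_mul, zero_sub]
      linarith
    · have hBpos : 0 < Bw E lam (Icc (a - k2) (b - k1)) k x := by
        have : 0 < lam ^ k * Tw E lam (Icc a b) (k + 1) x := by positivity
        linarith
      set T := Tw E lam (Icc a b) (k + 1) x
      set B := Bw E lam (Icc (a - k2) (b - k1)) k x
      have e : T * (lam ^ k * T / B) = lam ^ k * (T ^ 2 / B) := by ring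
      rw [e]
      have h1 : 2 * (Z / R) * T - (Z / R) ^ 2 * B ≤ T ^ 2 / B := by
        rw [le_div_iff₀ hBpos]
        nlinarith [sq_nonneg (T - Z / R * B)]
      calc 2 * (Z / R) * lam ^ k * T - (Z / R) ^ 2 * lam ^ k * B
          = lam ^ k * (2 * (Z / R) * T - (Z / R) ^ 2 * B) := by ring
        _ ≤ lam ^ k * (T ^ 2 / B) := mul_le_mul_of_nonneg_left h1 hlk.le
  refine le_trans ?_ (Finset.sum_le_sum hpt)
  rw [Finset.sum_sub_distrib, ← Finset.mul_sum, ← Finset.mul_sum, sum_Tw hI, ← hZ]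
  have h7 : (Z / R) ^ 2 * lam ^ k * ∑ x ∈ (W_finite E (k + 1)).toFinset,
      Bw E lam (Icc (a - k2) (b - k1)) k x ≤ (Z / R) ^ 2 * lam ^ k * R :=
    mul_le_mul_of_nonneg_left hB (by positivity)
  have h8 : Z ^ 2 / (E.card * S) = 2 * (Z / R) * lam ^ k * Z - (Z / R) ^ 2 * lam ^ k * R := by
    rw [hR]
    field_simp
    ring
  rw [h8]
  linarith

/-- positivity of `B` along a closing walk -/
lemma Bw_self_pos {E : Finset G} (hE : ∀ e ∈ E, -e ∈ E) {lam : ℝ} (hl : 0 < lam)
    {a b k1 k2 k n : ℕ} (hk1 : k1 ≤ k) (hk2 : k < k2) (ha : k2 < a) (hn : n ∈ Icc a b)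
    {ω : ℕ → G} (hω : ω ∈ Cl E n) : 0 < Bw E lam (Icc (a - k2) (b - k1)) k ω := by
  have h1 := Tw_le' hE hl (b := b) hk1 hk2 ha ω
  have h2 := Bw_nonneg (E := E) hl (Icc (a - k2) (b - k1)) (k + 1) ω
  have h3 : 0 < lam ^ k * Tw E lam (Icc a b) (k + 1) ω :=
    mul_pos (pow_pos hl _) (Tw_self_pos hl hn hω)
  linarith

/-- (A): telescoping along a closing walk, times in `[k1, k2)` -/
lemma telescope' {E : Finset G} (hE : ∀ e ∈ E, -e ∈ E) {lam : ℝ} (hl : 0 < lam)
    {a b L k1 k2 n : ℕ} (hL : k2 = k1 + L) (hL1 : 1 ≤ L) (ha : k2 < a) (hn : n ∈ Icc a b)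
    {ω : ℕ → G} (hω : ω ∈ Cl E n) :
    ∑ i ∈ range (L - 1), lam ^ (k1 + i) * Tw E lam (Icc a b) (k1 + i + 1) ω /
        Bw E lam (Icc (a - k2) (b - k1)) (k1 + i) ω ≤
      Real.log (Bw E lam (Icc (a - k2) (b - k1)) k1 ω) +
        (-Real.log (lam ^ (k2 - 1)) + -Real.log (Tw E lam (Icc a b) k2 ω)) := by
  set B := fun k => Bw E lam (Icc (a - k2) (b - k1)) k ω with hB
  set T := fun k => Tw E lam (Icc a b) k ω with hT
  have hTpos : ∀ k, 0 < T k := fun k => Tw_self_pos hl hn hω
  have hTB : ∀ k, k1 ≤ k → k < k2 → lam ^ k * T (k + 1) ≤ B k - B (k + 1) := fun k h1 h2 =>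
    Tw_le' hE hl h1 h2 ha ω
  have hB0 : ∀ k, 0 ≤ B k := fun k => Bw_nonneg hl _ _ _
  have hBpos : ∀ k, k1 ≤ k → k < k2 → 0 < B k := fun k h1 h2 =>
    Bw_self_pos hE hl h1 h2 ha hn hω
  have h1 : ∀ i ∈ range (L - 1), lam ^ (k1 + i) * T (k1 + i + 1) / B (k1 + i) ≤
      Real.log (B (k1 + i)) - Real.log (B (k1 + (i + 1))) := by
    intro i hi
    have hi' : i < L - 1 := Finset.mem_range.mp hi
    have b1 := hBpos (k1 + i) (by omega) (by omega)
    have b2 := hBpos (k1 + i + 1) (by omega) (by omega)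
    have e0 : k1 + (i + 1) = k1 + i + 1 := by omega
    rw [e0]
    have h2 := Real.one_sub_inv_le_log_of_pos (x := B (k1 + i) / B (k1 + i + 1)) (by positivity)
    rw [Real.log_div b1.ne' b2.ne', inv_div] at h2
    refine le_trans ?_ h2
    rw [div_le_iff₀ b1]
    have h3 : (1 - B (k1 + i + 1) / B (k1 + i)) * B (k1 + i) = B (k1 + i) - B (k1 + i + 1) := by
      field_simp
    rw [h3]
    exact hTB (k1 + i) (by omega) (by omega)
  refine (Finset.sum_le_sum h1).trans ?_
  rw [Finset.sum_range_sub' (fun i => Real.log (B (k1 + i)))]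
  rw [add_zero]
  have e1 : k1 + (L - 1) = k2 - 1 := by omega
  rw [e1]
  have h5 : lam ^ (k2 - 1) * T k2 ≤ B (k2 - 1) := by
    have h6 := hTB (k2 - 1) (by omega) (by omega)
    have h7 := hB0 (k2 - 1 + 1)
    have h8 : k2 - 1 + 1 = k2 := by omega
    rw [h8] at h6 h7
    linarith
  have h9 : Real.log (lam ^ (k2 - 1)) + Real.log (T k2) ≤ Real.log (B (k2 - 1)) := by
    rw [← Real.log_mul (pow_pos hl _).ne' (hTpos k2).ne']
    exact Real.log_le_log (mul_pos (pow_pos hl _) (hTpos k2)) h5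
  linarith

/-- Jensen's inequality for `log B - log T` -/
lemma jensen {E : Finset G} (hE : ∀ e ∈ E, -e ∈ E) {lam : ℝ} (hl : 0 < lam)
    {a b L k1 k2 : ℕ} (hL : k2 = k1 + L) (hL1 : 1 ≤ L) (ha : k2 < a) (hab : a ≤ b)
    (hZ : 0 < Zw E lam (Icc a b)) (hS : 0 < Sw E lam (Icc (a - L) (b + L))) :
    ES E lam (Icc a b) (fun ω => Real.log (Bw E lam (Icc (a - k2) (b - k1)) k1 ω)) ≤
      Zw E lam (Icc a b) * (Real.log (lam ^ k1) + Real.log (Sw E lam (Icc (a - L) (b + L))) -
        Real.log (Zw E lam (Icc a b))) +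
      ES E lam (Icc a b) (fun ω => Real.log (Tw E lam (Icc a b) k1 ω)) := by
  classical
  set Z := Zw E lam (Icc a b) with hZdef
  set S := Sw E lam (Icc (a - L) (b + L)) with hSdef
  set R := lam ^ k1 * S with hR
  have hRpos : 0 < R := by positivity
  have hI : ∀ n ∈ Icc a b, k1 ≤ n := fun n hn => by
    have := Finset.mem_Icc.mp hn; omega
  have hpt : ES E lam (Icc a b) (fun ω => Real.log (Bw E lam (Icc (a - k2) (b - k1)) k1 ω)) ≤
      ES E lam (Icc a b) (fun ω => ((Real.log R - Real.log Z - 1) +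
        (Z / R) * (Bw E lam (Icc (a - k2) (b - k1)) k1 ω / Tw E lam (Icc a b) k1 ω)) +
        Real.log (Tw E lam (Icc a b) k1 ω)) := by
    refine ES_mono hl (fun n hn ω hω => ?_)
    have p1 := Bw_self_pos (k1 := k1) hE hl le_rfl (by omega) ha hn hω
    have p2 := Tw_self_pos (k := k1) hl hn hω
    have h1 := Real.log_le_sub_one_of_pos (x := (Z / R) *
      (Bw E lam (Icc (a - k2) (b - k1)) k1 ω / Tw E lam (Icc a b) k1 ω)) (by positivity)
    rw [Real.log_mul (by positivity) (by positivity), Real.log_div hZ.ne' hRpos.ne',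
      Real.log_div p1.ne' p2.ne'] at h1
    linarith
  refine hpt.trans ?_
  rw [ES_add, ES_add, ES_const]
  have h2 : ES E lam (Icc a b) (fun ω => (Z / R) *
      (Bw E lam (Icc (a - k2) (b - k1)) k1 ω / Tw E lam (Icc a b) k1 ω)) ≤ Z := by
    rw [ES_group hI]
    swap
    · intro x y h
      rw [Tw_congr h, Bw_congr h]
    have h3 : ∀ x ∈ (W_finite E k1).toFinset, Tw E lam (Icc a b) k1 x * ((Z / R) *
        (Bw E lam (Icc (a - k2) (b - k1)) k1 x / Tw E lam (Icc a b) k1 x)) ≤
        (Z / R) * Bw E lam (Icc (a - k2) (b - k1)) k1 x := by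
      intro x _
      have n1 := Tw_nonneg (E := E) hl (Icc a b) k1 x
      have n2 := Bw_nonneg (E := E) hl (Icc (a - k2) (b - k1)) k1 x
      rcases n1.eq_or_lt with h0 | h0
      · rw [← h0, zero_mul]; positivity
      · apply le_of_eq
        field_simp
    refine (Finset.sum_le_sum h3).trans ?_
    rw [← Finset.mul_sum]
    have h4 := sum_Bw hE hl hL le_rfl (by omega) ha hab
    calc Z / R * _ ≤ Z / R * R := mul_le_mul_of_nonneg_left h4 (by positivity)
      _ = Z := by field_simp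
  rw [← hZdef]
  have h5 : Real.log R = Real.log (lam ^ k1) + Real.log S :=
    Real.log_mul (pow_pos hl _).ne' hS.ne'
  rw [h5]
  nlinarith

lemma c_pos_of {E : Finset G} {lam : ℝ} {I : Finset ℕ} {k : ℕ} (hI : ∀ n ∈ I, k ≤ n)
    (hZ : 0 < Zw E lam I) : 0 < (c E k : ℝ) := by
  by_contra h
  have h0 : c E k = 0 := by
    have : (c E k : ℝ) ≤ 0 := not_lt.mp h
    exact_mod_cast le_antisymm this (by positivity)
  have h1 : (W_finite E k).toFinset = ∅ := by
    rw [← Finset.card_eq_zero, ← Set.ncard_eq_toFinset_card _ (W_finite E k)]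
    exact h0
  have h2 := sum_Tw (E := E) (lam := lam) hI
  rw [h1, Finset.sum_empty] at h2
  exact absurd h2 hZ.ne

/-- a concave sequence -/
lemma conc_aux {u : ℕ → ℝ} {m : ℕ} (h : ∀ k, 1 ≤ k → k < m → u (k + 1) + u (k - 1) ≤ 2 * u k)
    {k1 L : ℕ} (h1 : 1 ≤ k1) (h2 : k1 + L ≤ m) :
    (k1 : ℝ) * (u (k1 + L) - u k1) ≤ L * (u k1 - u 0) := by
  have hmono : ∀ j k, j ≤ k → k < m → u (k + 1) - u k ≤ u (j + 1) - u j := by
    intro j k hjk
    induction k, hjk using Nat.le_induction with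
    | base => intro _; exact le_rfl
    | succ k hk ih =>
      intro hk2
      have a1 := ih (by omega)
      have a2 := h (k + 1) (by omega) hk2
      rw [Nat.add_sub_cancel] at a2
      linarith
  rcases Nat.eq_zero_or_pos L with h0 | hLpos
  · subst h0; simp
  -- slope at `k1`
  set s := u (k1 + 1) - u k1 with hs
  have hup : ∀ l, l ≤ L → u (k1 + l) - u k1 ≤ l * s := by
    intro l
    induction l with
    | zero => intro _; simp
    | succ l ih =>
      intro hl
      have a1 := ih (by omega)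
      have a2 := hmono k1 (k1 + l) (by omega) (by omega)
      have e : k1 + (l + 1) = k1 + l + 1 := by omega
      rw [e]
      push_cast
      linarith
  have hlow : ∀ j, j ≤ k1 → (j : ℝ) * s ≤ u j - u 0 := by
    intro j
    induction j with
    | zero => intro _; simp
    | succ j ih =>
      intro hj
      have a1 := ih (by omega)
      have a2 := hmono j k1 (by omega) (by omega)
      push_cast
      linarith
  have b1 := hup L le_rfl
  have b2 := hlow k1 le_rfl
  have hk0 : (0 : ℝ) ≤ k1 := Nat.cast_nonneg _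
  have hL0 : (0 : ℝ) ≤ L := Nat.cast_nonneg _
  calc (k1 : ℝ) * (u (k1 + L) - u k1) ≤ k1 * (L * s) := mul_le_mul_of_nonneg_left b1 hk0
    _ = L * (k1 * s) := by ring
    _ ≤ L * (u k1 - u 0) := mul_le_mul_of_nonneg_left b2 hL0

/-- **General inequality at late times.** -/
theorem general' {E : Finset G} (hE : ∀ e ∈ E, -e ∈ E) {lam : ℝ} (hl : 0 < lam)
    {a b L k1 k2 : ℕ} (hL : k2 = k1 + L) (hL1 : 1 ≤ L) (hk1 : 1 ≤ k1) (ha : k2 < a) (hab : a ≤ b)
    (hZ : 0 < Zw E lam (Icc a b)) (hS : 0 < Sw E lam (Icc (a - L) (b + L))) :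
    ((L : ℝ) - 1) * (Zw E lam (Icc a b) / (E.card * Sw E lam (Icc (a - L) (b + L)))) ≤
      Real.log (Sw E lam (Icc (a - L) (b + L))) - Real.log (Zw E lam (Icc a b)) +
        (Real.log lam + L / k1 * (Real.log (c E k1) - k1 * Real.log lam)) := by
  set Z := Zw E lam (Icc a b) with hZdef
  set S := Sw E lam (Icc (a - L) (b + L)) with hSdef
  set u : ℕ → ℝ := fun k => -ES E lam (Icc a b) (fun ω => Real.log (Tw E lam (Icc a b) k ω))
    with hu
  have hI : ∀ n ∈ Icc a b, k1 ≤ n := fun n hn => by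
    have := Finset.mem_Icc.mp hn; omega
  -- concavity
  have hconc : (k1 : ℝ) * (u (k1 + L) - u k1) ≤ L * (u k1 - u 0) := by
    refine conc_aux (m := k2) ?_ hk1 (by omega)
    intro k h1 h2
    have := concave hE hl (I := Icc a b) h1 (fun n hn => by
      have := Finset.mem_Icc.mp hn; omega)
    simp only [hu]
    linarith
  -- entropy at the time `k1`
  have hent : u k1 ≤ Z * (Real.log (c E k1) - Real.log Z) := by
    have h1 := ES_entropy (E := E) hl hI hZ
    have h2 : u k1 = ES E lam (Icc a b) (fun ω => -Real.log (Tw E lam (Icc a b) k1 ω)) := by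
      have h3 := ES_add (E := E) (lam := lam) (I := Icc a b)
        (fun ω => Real.log (Tw E lam (Icc a b) k1 ω))
        (fun ω => -Real.log (Tw E lam (Icc a b) k1 ω))
      simp only [add_neg_cancel] at h3
      rw [ES_const, zero_mul] at h3
      simp only [hu]
      linarith
    rw [h2]
    exact h1
  have h0 : u 0 = -(Z * Real.log Z) := by
    have h1 : ES E lam (Icc a b) (fun ω => Real.log (Tw E lam (Icc a b) 0 ω)) =
        ES E lam (Icc a b) (fun _ => Real.log Z) := by
      unfold ES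
      refine Finset.sum_congr rfl (fun n _ => Finset.sum_congr rfl (fun ω hω => ?_))
      rw [Set.Finite.mem_toFinset] at hω
      have h2 : Tw E lam (Icc a b) 0 ω = Z := by
        rw [hZdef]
        unfold Tw Zw κ
        refine Finset.sum_congr rfl (fun m _ => ?_)
        congr 2
        apply congrArg
        ext f
        unfold DS
        simp only [Set.mem_ofPred_eq, and_iff_left_iff_imp]
        intro hf i hi
        have : i = 0 := by omega
        subst this
        rw [hf.1.1, hω.1.1]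
      simp only [h2]
    simp only [hu]
    rw [h1, ES_const]
    ring
  -- the sum
  have h1 : ∑ i ∈ range (L - 1), ES E lam (Icc a b) (fun ω => lam ^ (k1 + i) *
      Tw E lam (Icc a b) (k1 + i + 1) ω / Bw E lam (Icc (a - k2) (b - k1)) (k1 + i) ω) ≤
      ES E lam (Icc a b) (fun ω => Real.log (Bw E lam (Icc (a - k2) (b - k1)) k1 ω) +
        (-Real.log (lam ^ (k2 - 1)) + -Real.log (Tw E lam (Icc a b) k2 ω))) := by
    rw [← ES_sum]
    exact ES_mono hl (fun n hn ω hω => telescope' hE hl hL hL1 ha hn hω)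
  rw [ES_add, ES_add, ES_const] at h1
  have h2 : ES E lam (Icc a b) (fun ω => -Real.log (Tw E lam (Icc a b) k2 ω)) = u k2 := by
    have h3 := ES_add (E := E) (lam := lam) (I := Icc a b)
      (fun ω => Real.log (Tw E lam (Icc a b) k2 ω))
      (fun ω => -Real.log (Tw E lam (Icc a b) k2 ω))
    simp only [add_neg_cancel] at h3
    rw [ES_const, zero_mul] at h3
    simp only [hu]
    linarith
  have h3 := jensen hE hl hL hL1 ha hab hZ hS
  rw [← hZdef, ← hSdef] at h3
  have h4 : ES E lam (Icc a b) (fun ω => Real.log (Tw E lam (Icc a b) k1 ω)) = -u k1 := by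
    simp only [hu]; ring
  rw [h4] at h3
  have h5 : ∑ i ∈ range (L - 1), Z ^ 2 / (E.card * S) ≤ ∑ i ∈ range (L - 1),
      ES E lam (Icc a b) (fun ω => lam ^ (k1 + i) *
      Tw E lam (Icc a b) (k1 + i + 1) ω / Bw E lam (Icc (a - k2) (b - k1)) (k1 + i) ω) :=
    Finset.sum_le_sum (fun i hi => ES_ratio' hE hl hL (by omega)
      (by have := Finset.mem_range.mp hi; omega) ha hab hS)
  rw [Finset.sum_const, Finset.card_range, nsmul_eq_mul] at h5
  have h6 : ((L - 1 : ℕ) : ℝ) = (L : ℝ) - 1 := by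
    rw [Nat.cast_sub hL1]; simp
  rw [h6] at h5
  rw [h2] at h1
  have hk1r : (1:ℝ) ≤ k1 := by exact_mod_cast hk1
  have hlog1 : Real.log (lam ^ k1) = k1 * Real.log lam := by rw [Real.log_pow]
  have hlog2 : Real.log (lam ^ (k2 - 1)) = (k1 + L - 1) * Real.log lam := by
    rw [Real.log_pow, Nat.cast_sub (by omega), hL]
    push_cast
    ring
  have hk2u : u k2 = u (k1 + L) := by rw [hL]
  have h7 : u (k1 + L) - u k1 ≤ L / k1 * (Z * Real.log (c E k1)) := by
    have h8 : (k1 : ℝ) * (u (k1 + L) - u k1) ≤ L * (Z * Real.log (c E k1)) := by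
      refine hconc.trans ?_
      apply mul_le_mul_of_nonneg_left _ (Nat.cast_nonneg _)
      rw [h0]
      linarith
    rw [div_mul_eq_mul_div, le_div_iff₀ (by linarith)]
    linarith
  have h9 : ((L : ℝ) - 1) * (Z ^ 2 / (E.card * S)) ≤
      Z * (k1 * Real.log lam + Real.log S - Real.log Z) -
        (k1 + L - 1) * Real.log lam * Z + L / k1 * (Z * Real.log (c E k1)) := by
    rw [hlog1] at h3
    rw [hlog2, hk2u, ← hZdef] at h1
    linarith
  have h10 : ((L : ℝ) - 1) * (Z ^ 2 / (E.card * S)) = Z * (((L : ℝ) - 1) * (Z / (E.card * S))) := by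
    ring
  rw [h10] at h9
  have hk1ne : (k1 : ℝ) ≠ 0 := by linarith
  have h11 : Z * (k1 * Real.log lam + Real.log S - Real.log Z) -
        (k1 + L - 1) * Real.log lam * Z + L / k1 * (Z * Real.log (c E k1)) =
      Z * (Real.log S - Real.log Z +
        (Real.log lam + L / k1 * (Real.log (c E k1) - k1 * Real.log lam))) := by
    field_simp
    ring
  rw [h11] at h9
  exact le_of_mul_le_mul_left h9 hZ

end H982.CL
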