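import Pool.Agent.H982.CL2

/-!
# Closing probability of self-avoiding walks: windows of lengths, with late times
-/

set_option autoImplicit false
set_option linter.unusedSectionVars false

namespace H982.CL

open Finset Q294.Close

variable {G : Type*} [AddCommGroup G]

/-- the constant in the window bound -/
noncomputable def Cv (E : Finset G) (lam : ℝ) : ℝ :=
  (E.card + 1) * (8 + (3 + Real.log lam) / Real.log 2)

lemma Cv_pos (E : Finset G) {lam : ℝ} (hl : 1 ≤ lam) : 0 < Cv E lam := by
  have h1 := Real.log_nonneg hl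
  have h2 : 0 < Real.log 2 := Real.log_pos (by norm_num)
  unfold Cv
  positivity

/-- **Window bound.** -/
theorem window' {E : Finset G} (hE : ∀ e ∈ E, -e ∈ E) {lam : ℝ} (hl : 1 ≤ lam)
    (hlow : ∀ n, lam ^ n ≤ c E n) {n : ℕ} (hn : 2 ≤ n) {H : ℝ} (hH : 0 ≤ H)
    (hup : ∀ N, N ≤ 4 * n → (c E N : ℝ) ≤ lam ^ N * Real.exp H) {a b L : ℕ} (hL1 : 1 ≤ L)
    (ha : n + L ≤ a) (hb : b + L ≤ 4 * n) :
    Zw E lam (Icc a b) ≤ Cv E lam * (Real.log n / L + H / n) * Sw E lam (Icc (a - L) (b + L)) := by
  have hl0 : 0 < lam := by linarith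
  have hlog2 : 0 < Real.log 2 := Real.log_pos (by norm_num)
  have hloglam := Real.log_nonneg hl
  have hnr : (2:ℝ) ≤ n := by exact_mod_cast hn
  have hlogn : Real.log 2 ≤ Real.log n := Real.log_le_log (by norm_num) hnr
  have hlogn0 : 0 < Real.log n := by linarith
  have hLr : (1:ℝ) ≤ L := by exact_mod_cast hL1
  have hCv := Cv_pos E hl
  have hq : (0:ℝ) ≤ E.card := by positivity
  set S := Sw E lam (Icc (a - L) (b + L)) with hSdef
  set Z := Zw E lam (Icc a b) with hZdef
  have hZ0 : 0 ≤ Z := Zw_nonneg hl0 _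
  have hS0 : 0 ≤ S := Sw_nonneg hl0 _
  have hHn : 0 ≤ H / n := by positivity
  have hR : 0 ≤ Cv E lam * (Real.log n / L + H / n) * S := by positivity
  rcases hZ0.eq_or_lt with h0 | hZ
  · rw [← h0]; exact hR
  have hab : a ≤ b := by
    by_contra h
    rw [hZdef, Finset.Icc_eq_empty h] at hZ
    simp [Zw] at hZ
  have hS1 : 1 ≤ S := one_le_Sw hl0 hlow (n := a) (Finset.mem_Icc.mpr ⟨by omega, by omega⟩)
  have hZS : Z ≤ S := (Zw_le_Sw hl0 _).trans (Sw_mono hl0 (fun i hi => by
    rw [Finset.mem_Icc] at hi ⊢; omega))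
  have hCv8 : 3 / Real.log 2 ≤ Cv E lam - 8 := by
    unfold Cv
    have h4 : 0 ≤ (3 + Real.log lam) / Real.log 2 := by positivity
    have h5 : 3 / Real.log 2 ≤ (3 + Real.log lam) / Real.log 2 := by
      apply div_le_div_of_nonneg_right _ hlog2.le; linarith
    nlinarith
  rcases lt_or_ge (n * Z) S with hsmall | hlarge
  · -- trivial case
    have h1 : 1 / (n:ℝ) ≤ 4 / L := by
      rw [div_le_div_iff₀ (by linarith) (by linarith)]
      have : (L:ℝ) ≤ 4 * n := by exact_mod_cast (by omega : L ≤ 4 * n)
      linarith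
    have h2 : (4:ℝ) ≤ Cv E lam * Real.log n := by
      have h6 : 3 ≤ (Cv E lam - 8) * Real.log 2 := by
        rwa [div_le_iff₀ hlog2] at hCv8
      have h7 : Real.log 2 > 0.69 := by have := Real.log_two_gt_d9; linarith
      nlinarith
    have h3 : Z ≤ 1 / (n:ℝ) * S := by
      rw [one_div_mul_eq_div, le_div_iff₀ (by linarith)]; linarith
    calc Z ≤ 1 / (n:ℝ) * S := h3
      _ ≤ 4 / L * S := mul_le_mul_of_nonneg_right h1 hS0
      _ ≤ (Cv E lam * Real.log n) / L * S :=
          mul_le_mul_of_nonneg_right (div_le_div_of_nonneg_right h2 (by linarith)) hS0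
      _ = Cv E lam * (Real.log n / L) * S := by ring
      _ ≤ Cv E lam * (Real.log n / L + H / n) * S := by
          apply mul_le_mul_of_nonneg_right _ hS0
          apply mul_le_mul_of_nonneg_left _ hCv.le
          linarith
  have hqpos : (1:ℝ) ≤ E.card := by
    rcases Nat.eq_zero_or_pos E.card with h | h
    · exfalso
      have h1 := hlow 1
      have h2 := c_succ_le E 0
      rw [h] at h2
      norm_num at h1 h2
      have : (c E 1 : ℝ) = 0 := by exact_mod_cast h2
      linarith
    · exact_mod_cast h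
  have hgen := general' (k1 := a - 1 - L) (k2 := a - 1) hE hl0 (by omega) hL1
    (by omega) (by omega) hab hZ (lt_of_lt_of_le one_pos hS1)
  rw [← hZdef, ← hSdef] at hgen
  have hk1 : (n:ℝ) / 2 ≤ ((a - 1 - L : ℕ) : ℝ) := by
    have h1 : n ≤ 2 * (a - 1 - L) := by omega
    have h2 : (n:ℝ) ≤ 2 * ((a - 1 - L : ℕ) : ℝ) := by exact_mod_cast h1
    linarith
  have hk1' : (0:ℝ) < ((a - 1 - L : ℕ) : ℝ) := by linarith
  have hcL : Real.log (c E (a - 1 - L)) - ((a - 1 - L : ℕ) : ℝ) * Real.log lam ≤ H := by
    have h1 := hup (a - 1 - L) (by omega)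
    have h2 : 0 < (c E (a - 1 - L) : ℝ) := lt_of_lt_of_le (pow_pos hl0 _) (hlow _)
    have h3 := Real.log_le_log h2 h1
    rw [Real.log_mul (pow_pos hl0 _).ne' (Real.exp_pos _).ne', Real.log_exp, Real.log_pow] at h3
    linarith
  have hslope : (L:ℝ) / ((a - 1 - L : ℕ) : ℝ) *
      (Real.log (c E (a - 1 - L)) - ((a - 1 - L : ℕ) : ℝ) * Real.log lam) ≤ 2 * L * H / n := by
    have h1 : (L:ℝ) / ((a - 1 - L : ℕ) : ℝ) ≤ 2 * L / n := by
      rw [div_le_div_iff₀ hk1' (by linarith)]
      nlinarith
    calc _ ≤ (L:ℝ) / ((a - 1 - L : ℕ) : ℝ) * H := mul_le_mul_of_nonneg_left hcL (by positivity)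
      _ ≤ 2 * L / n * H := mul_le_mul_of_nonneg_right h1 hH
      _ = 2 * L * H / n := by ring
  have hlZ : Real.log S - Real.log Z ≤ Real.log n := by
    have h1 := Real.log_le_log (lt_of_lt_of_le one_pos hS1) hlarge
    rw [Real.log_mul (by linarith) hZ.ne'] at h1
    linarith
  have hx : Z / (E.card * S) ≤ 1 := by
    rw [div_le_one (by positivity)]
    nlinarith
  have h8 : (L:ℝ) * (Z / (E.card * S)) ≤
      Real.log n + Real.log lam + 1 + 2 * L * H / n := by
    have : (L:ℝ) * (Z / (E.card * S)) = ((L:ℝ) - 1) * (Z / (E.card * S)) + Z / (E.card * S) := by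
      ring
    rw [this]
    linarith
  have h9 : Real.log n + Real.log lam + 1 + 2 * L * H / n ≤
      (8 + (3 + Real.log lam) / Real.log 2) * (Real.log n + L * (H / n)) := by
    have h10 : Real.log lam + 3 ≤ (3 + Real.log lam) / Real.log 2 * (Real.log n) := by
      calc Real.log lam + 3 = (3 + Real.log lam) / Real.log 2 * Real.log 2 := by
            field_simp; ring
        _ ≤ (3 + Real.log lam) / Real.log 2 * (Real.log n) := by
            apply mul_le_mul_of_nonneg_left _ (by positivity)
            linarith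
    have h11 : 0 ≤ L * (H / n) := by positivity
    have h12 : 0 ≤ (3 + Real.log lam) / Real.log 2 * (L * (H / n)) := by positivity
    have h13 : 2 * L * H / n = 2 * (L * (H / n)) := by ring
    rw [h13]
    nlinarith
  have h11 : (L:ℝ) * Z ≤ E.card * S *
      ((8 + (3 + Real.log lam) / Real.log 2) * (Real.log n + L * (H / n))) := by
    have h12 := h8.trans h9
    rw [← mul_div_assoc, div_le_iff₀ (by positivity)] at h12
    linarith
  have h13 : Cv E lam * (Real.log n / L + H / n) * S =
      ((E.card + 1) * S * ((8 + (3 + Real.log lam) / Real.log 2) *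
        (Real.log n + L * (H / n)))) / L := by
    unfold Cv
    field_simp
  rw [h13, le_div_iff₀ (by linarith)]
  have h14 : 0 ≤ S * ((8 + (3 + Real.log lam) / Real.log 2) * (Real.log n + L * (H / n))) := by
    positivity
  nlinarith

/-- **Nested windows.** -/
theorem nested' {E : Finset G} (hE : ∀ e ∈ E, -e ∈ E) {lam : ℝ} (hl : 1 ≤ lam)
    (hlow : ∀ n, lam ^ n ≤ c E n) : ∃ C : ℝ, 0 < C ∧ ∀ n : ℕ, 2 ≤ n → ∀ H : ℝ, 0 ≤ H →
    (∀ N, N ≤ 4 * n → (c E N : ℝ) ≤ lam ^ N * Real.exp H) →
    ∃ N, n ≤ N ∧ N ≤ 2 * n ∧ Odd N ∧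
      (κ E N : ℝ) ≤ C * ((H + Real.log n) * Real.log n / n) * c E N := by
  have hl0 : 0 < lam := by linarith
  have hCw := Cv_pos E hl
  have hlog2 : 0.69 < Real.log 2 := by have := Real.log_two_gt_d9; linarith
  refine ⟨100 + Cv E lam * 150 * (1 + E.card / lam), by positivity, ?_⟩
  intro n hn H hH hup
  set C0 : ℝ := 100 + Cv E lam * 150 * (1 + E.card / lam) with hC0
  have hC0' : 100 ≤ C0 := by
    have : 0 ≤ Cv E lam * 150 * (1 + E.card / lam) := by positivity
    linarith
  have hnr : (2:ℝ) ≤ n := by exact_mod_cast hn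
  have hlogn : Real.log 2 ≤ Real.log n := Real.log_le_log (by norm_num) hnr
  set X := H + Real.log n with hX
  have hX0 : 0.69 ≤ X := by linarith
  have hln : 0.69 < Real.log n := by linarith
  set J := ⌈H + Real.log (n + 1)⌉₊ + 1 with hJ
  have hJlow : H + Real.log (n + 1) + 1 ≤ J := by
    have := Nat.le_ceil (H + Real.log (n + 1))
    rw [hJ]; push_cast; linarith
  have hlogn1 : Real.log (n + 1) ≤ Real.log n + 1 := by
    have h1 : ((n:ℝ) + 1) ≤ 2 * n := by linarith
    have h2 := Real.log_le_log (by positivity) h1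
    rw [Real.log_mul (by norm_num) (by positivity)] at h2
    have := Real.log_two_lt_d9
    linarith
  have hJup : (J:ℝ) ≤ 6 * X := by
    have h1 : 0 ≤ H + Real.log (n + 1) := by
      have := Real.log_nonneg (show (1:ℝ) ≤ (n:ℝ) + 1 by linarith)
      linarith
    have := Nat.ceil_lt_add_one h1
    rw [hJ]; push_cast; linarith
  have hJ1 : 1 ≤ J := by omega
  rcases le_or_gt n (8 * J) with hsmall | hlarge
  · -- trivial
    obtain ⟨N, hN1, hN2, hN3⟩ : ∃ N, n ≤ N ∧ N ≤ 2 * n ∧ Odd N := by
      rcases Nat.even_or_odd n with h | h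
      · exact ⟨n + 1, by omega, by omega, h.add_one⟩
      · exact ⟨n, le_rfl, by omega, h⟩
    refine ⟨N, hN1, hN2, hN3, ?_⟩
    have h1 : (κ E N : ℝ) ≤ c E N := by exact_mod_cast κ_le E N
    refine h1.trans (le_mul_of_one_le_left (by positivity) ?_)
    have h2 : (n:ℝ) ≤ 8 * J := by exact_mod_cast hsmall
    have h3 : (n:ℝ) ≤ 48 * X := by linarith
    rw [← mul_div_assoc, le_div_iff₀ (by linarith)]
    have h4 : 0.69 * X ≤ X * Real.log n := by nlinarith
    have h5 : 100 * (X * Real.log n) ≤ C0 * (X * Real.log n) :=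
      mul_le_mul_of_nonneg_right hC0' (by positivity)
    linarith
  · set l := n / (8 * J) with hldef
    have hl1 : 1 ≤ l := by
      rw [hldef, Nat.one_le_div_iff (by omega)]; omega
    set L := 2 * l with hL
    have h8 : 8 * J * l ≤ n := by rw [hldef]; exact Nat.mul_div_le _ _
    have hJL : 4 * (J * L) ≤ n := by
      calc 4 * (J * L) = 8 * J * l := by rw [hL]; ring
        _ ≤ n := h8
    have hLlow : n ≤ 8 * (J * L) := by
      have h9 : n < 8 * J * (l + 1) := by
        rw [hldef]; exact Nat.lt_mul_div_succ n (by omega)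
      have h10 : 8 * J * (l + 1) ≤ 8 * (J * L) := by
        rw [hL]
        calc 8 * J * (l + 1) ≤ 8 * J * (2 * l) := Nat.mul_le_mul_left _ (by omega)
          _ = 8 * (J * (2 * l)) := by ring
      omega
    obtain ⟨n0, hn0, hn0', hn0o⟩ : ∃ n0, n ≤ n0 ∧ n0 ≤ n + 1 ∧ Odd n0 := by
      rcases Nat.even_or_odd n with h | h
      · exact ⟨n + 1, by omega, by omega, h.add_one⟩
      · exact ⟨n, le_rfl, by omega, h⟩
    set a0 := n0 + J * L with ha0
    set b0 := 2 * n - J * L with hb0
    set S := fun i : ℕ => Sw E lam (Icc (a0 - i * L) (b0 + i * L)) with hS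
    have hSmem : ∀ i, i ≤ J → a0 - i * L ≤ b0 + i * L := by
      intro i hi
      omega
    have hS1 : ∀ i, i ≤ J → 1 ≤ S i := by
      intro i hi
      exact one_le_Sw hl0 hlow (n := a0 - i * L) (Finset.mem_Icc.mpr ⟨le_rfl, hSmem i hi⟩)
    have hexi : ∃ i, i < J ∧ S (i + 1) ≤ Real.exp 1 * S i := by
      by_contra hcon
      push Not at hcon
      have h1 : ∀ i, i ≤ J → Real.exp i ≤ S i := by
        intro i
        induction i with
        | zero => intro _; simpa using hS1 0 (by omega)
        | succ i ih =>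
          intro hi
          have h2 := ih (by omega)
          have h3 := hcon i (by omega)
          have h4 : Real.exp ((i + 1 : ℕ) : ℝ) = Real.exp 1 * Real.exp i := by
            rw [← Real.exp_add]; congr 1; push_cast; ring
          rw [h4]
          refine le_trans ?_ h3.le
          exact mul_le_mul_of_nonneg_left h2 (Real.exp_pos _).le
      have h2 := h1 J le_rfl
      have h3 : S J ≤ (n + 1) * Real.exp H := by
        simp only [hS]
        unfold Sw
        have h4 : ∀ N ∈ Icc (a0 - J * L) (b0 + J * L), (c E N : ℝ) / lam ^ N ≤ Real.exp H := by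
          intro N hN
          have hN' := Finset.mem_Icc.mp hN
          rw [div_le_iff₀ (pow_pos hl0 _), mul_comm]
          exact hup N (by omega)
        refine (Finset.sum_le_sum h4).trans ?_
        rw [Finset.sum_const, nsmul_eq_mul, Nat.card_Icc]
        apply mul_le_mul_of_nonneg_right _ (Real.exp_pos _).le
        exact_mod_cast (by omega : b0 + J * L + 1 - (a0 - J * L) ≤ n + 1)
      have h4 : Real.exp (H + Real.log (n + 1) + 1) ≤ Real.exp J := Real.exp_le_exp.mpr hJlow
      have h5 : Real.exp (H + Real.log (n + 1) + 1) = (n + 1) * Real.exp H * Real.exp 1 := by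
        rw [Real.exp_add, Real.exp_add, Real.exp_log (by positivity)]; ring
      rw [h5] at h4
      have h6 : 1 < Real.exp 1 := by
        have := Real.add_one_lt_exp (show (1:ℝ) ≠ 0 by norm_num); linarith
      have h7 : 0 < ((n:ℝ) + 1) * Real.exp H := by positivity
      nlinarith
    obtain ⟨i, hi, hSi⟩ := hexi
    have hiL : i * L + L ≤ J * L := by
      calc i * L + L = (i + 1) * L := by ring
        _ ≤ J * L := Nat.mul_le_mul_right L hi
    have hwin := window' hE hl hlow hn hH hup (a := a0 - i * L) (b := b0 + i * L) (L := L)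
      (by omega) (by omega) (by omega)
    have e1 : a0 - i * L - L = a0 - (i + 1) * L := by
      have : (i + 1) * L = i * L + L := by ring
      omega
    have e2 : b0 + i * L + L = b0 + (i + 1) * L := by ring
    rw [e1, e2] at hwin
    have hLr : (0:ℝ) < L := by
      have : 0 < L := by omega
      exact_mod_cast this
    have hnJL : (n:ℝ) ≤ 8 * (J * L) := by exact_mod_cast hLlow
    set Y := X * Real.log n / n with hY
    have hY0 : 0 ≤ Y := by positivity
    have hLinv : Real.log n / L + H / n ≤ 50 * Y := by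
      have h1 : Real.log n / L ≤ 48 * Y := by
        rw [hY, ← mul_div_assoc, div_le_div_iff₀ hLr (by linarith)]
        have h1 : (n:ℝ) ≤ 48 * X * L := by
          calc (n:ℝ) ≤ 8 * (J * L) := hnJL
            _ ≤ 8 * (6 * X * L) := by
              apply mul_le_mul_of_nonneg_left _ (by norm_num)
              exact mul_le_mul_of_nonneg_right hJup hLr.le
            _ = 48 * X * L := by ring
        calc Real.log n * n ≤ Real.log n * (48 * X * L) :=
              mul_le_mul_of_nonneg_left h1 (by linarith)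
          _ = 48 * (X * Real.log n) * L := by ring
      have h2 : H / n ≤ 2 * Y := by
        rw [hY, ← mul_div_assoc]
        apply div_le_div_of_nonneg_right _ (by linarith)
        nlinarith
      linarith
    have hwin2 : Zw E lam (Icc (a0 - i * L) (b0 + i * L)) ≤
        Cv E lam * (50 * Y) * (Real.exp 1 * S i) := by
      refine hwin.trans ?_
      apply mul_le_mul _ hSi (Sw_nonneg hl0 _) (by positivity)
      exact mul_le_mul_of_nonneg_left hLinv hCw.le
    have haodd : Odd (a0 - i * L) := by
      have h1 : a0 - i * L = n0 + 2 * ((J - i) * l) := by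
        have h2 : J * L = i * L + (J - i) * L := by
          rw [← add_mul]; congr 1; omega
        have h3 : (J - i) * L = 2 * ((J - i) * l) := by rw [hL]; ring
        omega
      rw [h1]
      exact hn0o.add_even (even_two_mul _)
    have hodd := Sw_odd (E := E) hl0 (b := b0 + i * L) haodd
    by_contra hcon
    push Not at hcon
    set F := (Icc (a0 - i * L) (b0 + i * L)).filter (fun N => Odd N) with hF
    have hmemF : a0 - i * L ∈ F := by
      rw [hF, Finset.mem_filter, Finset.mem_Icc]
      exact ⟨⟨le_rfl, hSmem i hi.le⟩, haodd⟩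
    have hgt : C0 * Y * Sw E lam F < Zw E lam F := by
      unfold Sw Zw
      rw [Finset.mul_sum]
      refine Finset.sum_lt_sum_of_nonempty ⟨_, hmemF⟩ ?_
      intro N hN
      rw [hF, Finset.mem_filter, Finset.mem_Icc] at hN
      have h1 := hcon N (by omega) (by omega) hN.2
      rw [← mul_div_assoc]
      exact div_lt_div_of_pos_right h1 (pow_pos hl0 _)
    have hZF : Zw E lam F ≤ Zw E lam (Icc (a0 - i * L) (b0 + i * L)) := by
      unfold Zw
      exact Finset.sum_le_sum_of_subset_of_nonneg (Finset.filter_subset _ _)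
        (fun _ _ _ => by positivity)
    have hSF0 : 0 ≤ Sw E lam F := Sw_nonneg hl0 _
    have hexp1 : Real.exp 1 ≤ 3 := by have := Real.exp_one_lt_d9; linarith
    have hchain : Zw E lam F ≤ Cv E lam * 150 * (1 + E.card / lam) * Y * Sw E lam F := by
      calc Zw E lam F ≤ Cv E lam * (50 * Y) * (Real.exp 1 * S i) := hZF.trans hwin2
        _ ≤ Cv E lam * (50 * Y) * (3 * ((1 + E.card / lam) * Sw E lam F)) := by
            apply mul_le_mul_of_nonneg_left _ (by positivity)
            exact mul_le_mul hexp1 hodd (Sw_nonneg hl0 _) (by norm_num)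
        _ = Cv E lam * 150 * (1 + E.card / lam) * Y * Sw E lam F := by ring
    have hfin : Cv E lam * 150 * (1 + E.card / lam) * Y * Sw E lam F ≤
        C0 * Y * Sw E lam F := by
      apply mul_le_mul_of_nonneg_right _ hSF0
      apply mul_le_mul_of_nonneg_right _ hY0
      rw [hC0]; linarith
    linarith

end H982.CL
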