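import Pool.Agent.H982.CL3

/-!
# Closing probability of self-avoiding walks: pointwise bound
-/

set_option autoImplicit false
set_option linter.unusedSectionVars false

namespace H982.CL

open Finset Q294.Close

variable {G : Type*} [AddCommGroup G]

/-- **Pointwise bound.** -/
theorem pointwise' {E : Finset G} (hE : ∀ e ∈ E, -e ∈ E) {lam : ℝ} (hl : 1 ≤ lam)
    (hlow : ∀ n, lam ^ n ≤ c E n) : ∃ C : ℝ, 0 < C ∧ ∀ n : ℕ, 5 ≤ n → ∀ H : ℝ, 0 ≤ H →
    (∀ N, N ≤ 2 * n → (c E N : ℝ) ≤ lam ^ N * Real.exp H) →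
    ∀ l : ℕ, 1 ≤ l → 32 * l ≤ n →
    (∀ N, n ≤ N + (4 * l + 2) → N ≤ n + 4 * l → N % 2 = n % 2 →
      (c E N : ℝ) / lam ^ N ≤ 81 * ((c E n : ℝ) / lam ^ n)) →
    (∀ i, i ≤ l → (κ E n : ℝ) / lam ^ n ≤ 81 * ((κ E (n - 2 * i) : ℝ) / lam ^ (n - 2 * i)) +
      81 / n * ((c E n : ℝ) / lam ^ n)) →
    (κ E n : ℝ) ≤ C * (Real.log n / l + H / n) * c E n := by
  have hl0 : 0 < lam := by linarith
  have hCv := Cv_pos E hl
  refine ⟨Cv E lam * 200000 * (1 + E.card / lam) + 81, by positivity, ?_⟩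
  intro n hn H hH hup l hl1 hln hsame hz
  have hnr : (5:ℝ) ≤ n := by exact_mod_cast hn
  have hlr : (1:ℝ) ≤ l := by exact_mod_cast hl1
  set s := fun N : ℕ => (c E N : ℝ) / lam ^ N with hs
  set z := fun N : ℕ => (κ E N : ℝ) / lam ^ N with hzdef
  have hs0 : ∀ m, 0 ≤ s m := fun m => by positivity
  have hz0 : ∀ m, 0 ≤ z m := fun m => by positivity
  set q : ℝ := 1 + E.card / lam with hq
  have hq1 : 1 ≤ q := by
    have : 0 ≤ (E.card : ℝ) / lam := div_nonneg (Nat.cast_nonneg _) hl0.le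
    rw [hq]; linarith
  have hall : ∀ N, n ≤ N + (4 * l + 1) → N ≤ n + 4 * l → s N ≤ 81 * q * s n := by
    intro N h1 h2
    have hsn := hs0 n
    by_cases h3 : N % 2 = n % 2
    · have h4 : s N ≤ 81 * s n := hsame N (by omega) (by omega) h3
      nlinarith
    · obtain ⟨M, rfl⟩ : ∃ M, N = M + 1 := ⟨N - 1, by omega⟩
      have h4 : s M ≤ 81 * s n := hsame M (by omega) (by omega) (by omega)
      have h5 : s (M + 1) ≤ E.card / lam * s M := by
        simp only [hs]
        rw [div_mul_div_comm, ← pow_succ']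
        exact div_le_div_of_nonneg_right (c_succ_le E M) (pow_pos hl0 _).le
      have hq0 : 0 ≤ (E.card : ℝ) / lam := div_nonneg (Nat.cast_nonneg _) hl0.le
      calc s (M + 1) ≤ E.card / lam * s M := h5
        _ ≤ E.card / lam * (81 * s n) := mul_le_mul_of_nonneg_left h4 hq0
        _ ≤ 81 * q * s n := by rw [hq]; nlinarith
  have hwin := window' hE hl hlow (n := n / 2) (by omega) hH
    (fun N hN => hup N (by omega)) (a := n - 2 * l) (b := n) (L := 2 * l) (by omega)
    (by omega) (by omega)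
  have hZ : ((l:ℝ) + 1) * z n ≤ 81 * Zw E lam (Icc (n - 2 * l) n) + ((l:ℝ) + 1) * (81 / n * s n) := by
    have h1 : ∑ N ∈ (range (l + 1)).image (fun i => n - 2 * i), z N ≤
        ∑ N ∈ Icc (n - 2 * l) n, (κ E N : ℝ) / lam ^ N := by
      refine Finset.sum_le_sum_of_subset_of_nonneg ?_ (fun i _ _ => hz0 i)
      intro N hN
      simp only [Finset.mem_image, Finset.mem_range, Finset.mem_Icc] at hN ⊢
      omega
    rw [Finset.sum_image] at h1
    · have h2 : ∀ i ∈ range (l + 1), z n ≤ 81 * z (n - 2 * i) + 81 / n * s n := by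
        intro i hi
        exact hz i (by have := Finset.mem_range.mp hi; omega)
      have h3 := Finset.sum_le_sum h2
      rw [Finset.sum_add_distrib, ← Finset.mul_sum, Finset.sum_const, Finset.sum_const,
        Finset.card_range, nsmul_eq_mul, nsmul_eq_mul] at h3
      push_cast at h3
      refine h3.trans ?_
      have h4 : 81 * ∑ i ∈ range (l + 1), z (n - 2 * i) ≤ 81 * Zw E lam (Icc (n - 2 * l) n) :=
        mul_le_mul_of_nonneg_left h1 (by norm_num)
      linarith
    · intro i hi j hj h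
      simp only [Finset.coe_range, Set.mem_Iio] at hi hj h
      omega
  have hS : Sw E lam (Icc (n - 2 * l - 2 * l) (n + 2 * l)) ≤ (7 * l) * (81 * q * s n) := by
    unfold Sw
    have h1 : ∀ N ∈ Icc (n - 2 * l - 2 * l) (n + 2 * l), (c E N : ℝ) / lam ^ N ≤ 81 * q * s n := by
      intro N hN
      have hN' := Finset.mem_Icc.mp hN
      exact hall N (by omega) (by omega)
    refine (Finset.sum_le_sum h1).trans ?_
    rw [Finset.sum_const, nsmul_eq_mul, Nat.card_Icc]
    apply mul_le_mul_of_nonneg_right _ (mul_nonneg (by linarith) (hs0 n))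
    exact_mod_cast (by omega : n + 2 * l + 1 - (n - 2 * l - 2 * l) ≤ 7 * l)
  have hlogn2 : Real.log ((n / 2 : ℕ) : ℝ) ≤ Real.log n := by
    apply Real.log_le_log
    · exact_mod_cast (by omega : 0 < n / 2)
    · exact_mod_cast (by omega : n / 2 ≤ n)
  have hlogn0 : 0 ≤ Real.log ((n / 2 : ℕ) : ℝ) := Real.log_natCast_nonneg _
  have hn2 : (n:ℝ) ≤ 3 * ((n / 2 : ℕ) : ℝ) := by exact_mod_cast (by omega : n ≤ 3 * (n / 2))
  have hn2' : (0:ℝ) < ((n / 2 : ℕ) : ℝ) := by linarith
  have hHn : H / ((n / 2 : ℕ) : ℝ) ≤ 3 * (H / n) := by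
    rw [← mul_div_assoc, div_le_div_iff₀ hn2' (by linarith)]
    nlinarith
  set Y := Real.log n / l + H / n with hY
  have hlogn : 0 ≤ Real.log n := by linarith
  have hY0 : 0 ≤ Y := by positivity
  have hfac : Real.log ((n / 2 : ℕ) : ℝ) / ((2 * l : ℕ) : ℝ) + H / ((n / 2 : ℕ) : ℝ) ≤ 3 * Y := by
    have h1 : Real.log ((n / 2 : ℕ) : ℝ) / ((2 * l : ℕ) : ℝ) ≤ Real.log n / l := by
      push_cast
      rw [div_le_div_iff₀ (by positivity) (by positivity)]
      nlinarith
    have h2 : 0 ≤ Real.log n / l := by positivity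
    rw [hY]
    linarith
  have hmain : Zw E lam (Icc (n - 2 * l) n) ≤
      Cv E lam * (3 * Y) * ((7 * l) * (81 * q * s n)) := by
    refine hwin.trans ?_
    apply mul_le_mul _ hS (Sw_nonneg hl0 _) (by positivity)
    exact mul_le_mul_of_nonneg_left hfac hCv.le
  have hsmall : 81 / (n:ℝ) ≤ 81 * Y := by
    have h1 : 1 / (n:ℝ) ≤ Real.log n / l := by
      rw [div_le_div_iff₀ (by linarith) (by linarith)]
      have h2 : (32 * l : ℝ) ≤ n := by exact_mod_cast hln
      have h3 : (1:ℝ) ≤ Real.log n := by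
        rw [Real.le_log_iff_exp_le (by linarith)]
        have := Real.exp_one_lt_d9
        linarith
      nlinarith
    have h2 : 0 ≤ H / n := by positivity
    have h3 : 81 / (n:ℝ) = 81 * (1 / n) := by ring
    rw [h3, hY]
    linarith
  have hfin : z n ≤ (Cv E lam * 200000 * q + 81) * Y * s n := by
    have hP : 0 ≤ Cv E lam * Y * q * s n :=
      mul_nonneg (mul_nonneg (mul_nonneg hCv.le hY0) (by linarith)) (hs0 n)
    have h1 : ((l:ℝ) + 1) * z n ≤ ((l:ℝ) + 1) * ((Cv E lam * 200000 * q + 81) * Y * s n) := by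
      calc ((l:ℝ) + 1) * z n ≤ 81 * Zw E lam (Icc (n - 2 * l) n) +
            ((l:ℝ) + 1) * (81 / n * s n) := hZ
        _ ≤ 81 * (Cv E lam * (3 * Y) * ((7 * l) * (81 * q * s n))) +
            ((l:ℝ) + 1) * (81 * Y * s n) := by
            have h2 := mul_le_mul_of_nonneg_right hsmall (hs0 n)
            have h3 : (0:ℝ) ≤ (l:ℝ) + 1 := by linarith
            have h4 := mul_le_mul_of_nonneg_left h2 h3
            linarith
        _ = 137781 * (l * (Cv E lam * Y * q * s n)) + ((l:ℝ) + 1) * (81 * Y * s n) := by ring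
        _ ≤ 200000 * (((l:ℝ) + 1) * (Cv E lam * Y * q * s n)) +
            ((l:ℝ) + 1) * (81 * Y * s n) := by
            have h5 : 0 ≤ (l:ℝ) * (Cv E lam * Y * q * s n) := by positivity
            nlinarith
        _ = _ := by ring
    exact le_of_mul_le_mul_left h1 (by linarith)
  have hpn : 0 < lam ^ n := pow_pos hl0 n
  simp only [hzdef, hs] at hfin
  rw [← mul_div_assoc, div_le_div_iff_of_pos_right hpn] at hfin
  exact hfin

end H982.CL
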