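import Pool.Agent.H982.CL4

/-!
# Closing probability of self-avoiding walks: the lattice `ℤ^d`
-/

set_option autoImplicit false
set_option linter.unusedSectionVars false

namespace H982.CL

open Finset Q294.Close

/-- the `2 d` unit steps of `ℤ^d` -/
def Ed (d : ℕ) : Finset (Fin d → ℤ) :=
  (univ : Finset (Fin d × Bool)).image (fun p => Pi.single p.1 (if p.2 then 1 else -1))

lemma mem_Ed {d : ℕ} (v : Fin d → ℤ) : v ∈ Ed d ↔ ∑ j, |v j| = 1 := by
  classical
  unfold Ed
  simp only [Finset.mem_image, Finset.mem_univ, true_and, Prod.exists]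
  constructor
  · rintro ⟨j, b, rfl⟩
    rw [Finset.sum_eq_single j]
    · rw [Pi.single_eq_same]
      cases b <;> simp
    · intro i _ hij
      rw [Pi.single_eq_of_ne hij, abs_zero]
    · intro h
      exact absurd (Finset.mem_univ j) h
  · intro h
    obtain ⟨j, hj⟩ : ∃ j, v j ≠ 0 := by
      by_contra hcon
      push Not at hcon
      simp [hcon] at h
    have h1 : |v j| + ∑ i ∈ univ.erase j, |v i| = 1 := by
      rw [Finset.add_sum_erase _ (fun j => |v j|) (Finset.mem_univ j)]; exact h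
    have h2 : 0 ≤ ∑ i ∈ univ.erase j, |v i| := Finset.sum_nonneg (fun _ _ => abs_nonneg _)
    have h3 : 1 ≤ |v j| := Int.one_le_abs hj
    have h4 : ∑ i ∈ univ.erase j, |v i| = 0 := by omega
    have h5 : |v j| = 1 := by omega
    have h6 : ∀ i, i ≠ j → v i = 0 := by
      intro i hi
      have := (Finset.sum_eq_zero_iff_of_nonneg (fun _ _ => abs_nonneg _)).mp h4 i
        (Finset.mem_erase.mpr ⟨hi, Finset.mem_univ i⟩)
      exact abs_eq_zero.mp this
    refine ⟨j, decide (0 < v j), ?_⟩
    funext i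
    by_cases hi : i = j
    · subst hi
      rw [Pi.single_eq_same]
      rcases abs_cases (v i) with h7 | h7
      · have : v i = 1 := by omega
        simp [this]
      · have : v i = -1 := by omega
        simp [this]
    · rw [Pi.single_eq_of_ne hi, h6 i hi]

lemma Ed_neg {d : ℕ} : ∀ e ∈ Ed d, -e ∈ Ed d := by
  intro e he
  rw [mem_Ed] at he ⊢
  simpa using he

/-- `ω` is an `n`-step self-avoiding walk on `ℤ^d` started at the origin. -/
def IsSAW (d n : ℕ) (ω : Fin (n + 1) → Fin d → ℤ) : Prop :=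
  ω 0 = 0 ∧ (∀ i : Fin n, ∑ j, |ω i.succ j - ω i.castSucc j| = 1) ∧ Function.Injective ω

lemma W_bij (d n : ℕ) (P : (Fin d → ℤ) → Prop) :
    {f : ℕ → Fin d → ℤ | f ∈ W (Ed d) n ∧ P (f n)}.ncard =
      {ω : Fin (n + 1) → Fin d → ℤ | IsSAW d n ω ∧ P (ω (Fin.last n))}.ncard := by
  refine Set.ncard_congr (fun f _ => fun i : Fin (n + 1) => f i) ?_ ?_ ?_
  · rintro f ⟨⟨h0, h1, h2, h3⟩, hP⟩
    refine ⟨⟨?_, ?_, ?_⟩, ?_⟩
    · exact h0
    · intro i
      have := h1 i i.2
      rw [mem_Ed] at this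
      simpa using this
    · intro i j h
      exact Fin.ext (h2 i j (by have := i.2; omega) (by have := j.2; omega) h)
    · simpa using hP
  · rintro f g ⟨hf, -⟩ ⟨hg, -⟩ h
    refine W_ext hf hg (fun i hi => ?_)
    have := congrFun h ⟨i, by omega⟩
    simpa using this
  · rintro ω ⟨⟨h0, h1, h2⟩, hP⟩
    refine ⟨fun i => ω ⟨min i n, by omega⟩, ⟨⟨?_, ?_, ?_, ?_⟩, ?_⟩, ?_⟩
    · exact h0
    · intro i hi
      rw [mem_Ed]
      have := h1 ⟨i, hi⟩
      have e1 : (⟨min (i + 1) n, by omega⟩ : Fin (n + 1)) = (⟨i, hi⟩ : Fin n).succ := by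
        apply Fin.ext; simp; omega
      have e2 : (⟨min i n, by omega⟩ : Fin (n + 1)) = (⟨i, hi⟩ : Fin n).castSucc := by
        apply Fin.ext; simp; omega
      show ∑ j, |(ω ⟨min (i + 1) n, _⟩ - ω ⟨min i n, _⟩) j| = 1
      rw [e1, e2]
      simpa using this
    · intro i j hi hj h
      have := congrArg Fin.val (h2 h)
      simp only at this
      omega
    · intro i hi
      simp only
      congr 1
      apply Fin.ext
      simp only
      omega
    · simp only [min_self]
      exact hP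
    · funext i
      simp only
      congr 1
      apply Fin.ext
      simp only
      have := i.2
      omega

lemma c_Ed (d n : ℕ) : c (Ed d) n = {ω : Fin (n + 1) → Fin d → ℤ | IsSAW d n ω}.ncard := by
  have h := W_bij d n (fun _ => True)
  simp only [and_true] at h
  exact h

lemma κ_Ed (d n : ℕ) : κ (Ed d) n = {ω : Fin (n + 1) → Fin d → ℤ | IsSAW d n ω ∧
    ∑ j, |ω (Fin.last n) j| = 1}.ncard := by
  have h := W_bij d n (fun v => ∑ j, |v j| = 1)
  rw [← h]
  unfold κ Cl
  congr 1
  ext f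
  simp only [Set.mem_ofPred_eq]
  rw [mem_Ed]

lemma parity {d n : ℕ} {f : ℕ → Fin d → ℤ} (hf : f ∈ W (Ed d) n) :
    ∀ i, i ≤ n → (∑ j, f i j) % 2 = (i : ℤ) % 2 := by
  have key : ∀ v : Fin d → ℤ, ∑ j, |v j| = 1 → (∑ j, v j) % 2 = 1 := by
    intro v hv
    have h1 : (∑ j, (|v j| - v j)) % 2 = 0 := by
      apply Int.emod_eq_zero_of_dvd
      apply Finset.dvd_sum
      intro j _
      rcases abs_cases (v j) with h | h
      · rw [h.1, sub_self]; exact dvd_zero _
      · rw [h.1]; exact ⟨-v j, by ring⟩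
    rw [Finset.sum_sub_distrib, hv] at h1
    omega
  intro i
  induction i with
  | zero => intro _; rw [hf.1]; simp
  | succ i ih =>
    intro hi
    have h1 := ih (by omega)
    have h2 := hf.2.1 i (by omega)
    rw [mem_Ed] at h2
    have h3 := key _ h2
    simp only [Pi.sub_apply, Finset.sum_sub_distrib] at h3
    push_cast
    omega

lemma κ_even {d n : ℕ} (hn : n % 2 = 0) : κ (Ed d) n = 0 := by
  unfold κ
  rw [Set.ncard_eq_zero (Cl_finite (Ed d) n)]
  ext f
  simp only [Set.mem_empty_iff_false, iff_false]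
  rintro ⟨hf, h⟩
  have h1 := parity hf n le_rfl
  rw [mem_Ed] at h
  have h2 : (∑ j, (|f n j| - f n j)) % 2 = 0 := by
    apply Int.emod_eq_zero_of_dvd
    apply Finset.dvd_sum
    intro j _
    rcases abs_cases (f n j) with h | h
    · rw [h.1, sub_self]; exact dvd_zero _
    · rw [h.1]; exact ⟨-f n j, by ring⟩
  rw [Finset.sum_sub_distrib, h] at h2
  omega

end H982.CL
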