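import Pool.Agent.H982.CL5

/-!
# Closing walks of every odd length on `ℤ^d`, `d ≥ 2`
-/

set_option autoImplicit false
set_option linter.unusedSectionVars false

namespace H982.CL

open Finset Q294.Close Filter Topology

/-- the point `(x, y, 0, …, 0)` of `ℤ^(d+2)` -/
def pt (d : ℕ) (x y : ℤ) : Fin (d + 2) → ℤ := Pi.single 0 x + Pi.single 1 y

lemma pt_inj {d : ℕ} {x y x' y' : ℤ} (h : pt d x y = pt d x' y') : x = x' ∧ y = y' := by
  have h01 : (0 : Fin (d + 2)) ≠ 1 := by simp
  constructor
  · have := congrFun h 0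
    simpa [pt, Pi.single_eq_of_ne h01] using this
  · have := congrFun h 1
    simpa [pt, Pi.single_eq_of_ne h01.symm] using this

lemma pt_sum {d : ℕ} (x y : ℤ) : ∑ j, |pt d x y j| = |x| + |y| := by
  have h01 : (0 : Fin (d + 2)) ≠ 1 := by simp
  rw [Fin.sum_univ_succ, Fin.sum_univ_succ]
  have h1 : ∀ j : Fin d, |pt d x y j.succ.succ| = 0 := by
    intro j
    have e0 : (j.succ.succ : Fin (d + 2)) ≠ 0 := Fin.succ_ne_zero _
    have e1 : (j.succ.succ : Fin (d + 2)) ≠ 1 := by
      intro h
      have := congrArg Fin.val h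
      simp at this
    simp [pt, Pi.single_eq_of_ne e0, Pi.single_eq_of_ne e1]
  rw [Finset.sum_eq_zero (fun j _ => h1 j)]
  have h2 : (Fin.succ (0 : Fin (d + 1))) = (1 : Fin (d + 2)) := rfl
  rw [h2]
  simp [pt, Pi.single_eq_of_ne h01, Pi.single_eq_of_ne h01.symm]

lemma pt_sub {d : ℕ} (x y x' y' : ℤ) : pt d x y - pt d x' y' = pt d (x - x') (y - y') := by
  unfold pt
  rw [Pi.single_sub, Pi.single_sub]
  abel

lemma pt_zero (d : ℕ) : pt d 0 0 = 0 := by
  unfold pt; simp

/-- the boundary of a `1 × k` rectangle -/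
def loop (d k : ℕ) : ℕ → Fin (d + 2) → ℤ := fun i =>
  if i = 0 then pt d 0 0 else if i ≤ k + 1 then pt d 1 ((i : ℤ) - 1)
    else pt d 0 (2 * (k : ℤ) + 2 - (min i (2 * k + 1) : ℕ))

lemma loop_mem (d : ℕ) {k : ℕ} (hk : 1 ≤ k) : loop d k ∈ Cl (Ed (d + 2)) (2 * k + 1) := by
  have step : ∀ i, i < 2 * k + 1 → loop d k (i + 1) - loop d k i ∈ Ed (d + 2) := by
    intro i hi
    rw [mem_Ed]
    unfold loop
    rcases Nat.eq_zero_or_pos i with h0 | h0
    · subst h0
      rw [if_neg (by omega), if_pos (by omega), if_pos rfl, pt_sub, pt_sum]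
      simp
    · rw [if_neg (by omega), if_neg (show ¬ i = 0 by omega)]
      rcases Nat.lt_or_ge k i with h1 | h1
      · rw [if_neg (by omega)]
        rcases Nat.lt_or_ge (k + 1) i with h2 | h2
        · rw [if_neg (by omega), pt_sub, pt_sum, min_eq_left (by omega), min_eq_left (by omega)]
          push_cast
          have : 2 * (k:ℤ) + 2 - ((i:ℤ) + 1) - (2 * (k:ℤ) + 2 - (i:ℤ)) = -1 := by ring
          rw [this]; simp
        · have h3 : i = k + 1 := by omega
          subst h3
          rw [if_pos le_rfl, pt_sub, pt_sum, min_eq_left (by omega)]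
          push_cast
          have : 2 * (k:ℤ) + 2 - ((k:ℤ) + 1 + 1) - ((k:ℤ) + 1 - 1) = 0 := by ring
          rw [this]; simp
      · rw [if_pos (by omega), if_pos (by omega), pt_sub, pt_sum]
        push_cast
        have : (i:ℤ) + 1 - 1 - ((i:ℤ) - 1) = 1 := by ring
        rw [this]; simp
  refine ⟨⟨?_, step, ?_, ?_⟩, ?_⟩
  · unfold loop
    rw [if_pos rfl, pt_zero]
  · intro i j hi hj h
    unfold loop at h
    rcases Nat.eq_zero_or_pos i with h0 | h0 <;> rcases Nat.eq_zero_or_pos j with h1 | h1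
    · omega
    · subst h0
      rw [if_pos rfl, if_neg (show ¬ j = 0 by omega)] at h
      split_ifs at h with h2
      · have := (pt_inj h).1; omega
      · have := (pt_inj h).2
        rw [min_eq_left hj] at this
        omega
    · subst h1
      rw [if_neg (show ¬ i = 0 by omega), if_pos rfl] at h
      split_ifs at h with h2
      · have := (pt_inj h).1; omega
      · have := (pt_inj h).2
        rw [min_eq_left hi] at this
        omega
    · rw [if_neg (show ¬ i = 0 by omega), if_neg (show ¬ j = 0 by omega)] at h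
      split_ifs at h with h2 h3 h3
      · have := (pt_inj h).2; omega
      · have := (pt_inj h).1; omega
      · have := (pt_inj h).1; omega
      · have := (pt_inj h).2
        rw [min_eq_left hi, min_eq_left hj] at this
        omega
  · intro i hi
    unfold loop
    rw [if_neg (show ¬ i = 0 by omega), if_neg (show ¬ 2 * k + 1 = 0 by omega)]
    rw [if_neg (by omega), if_neg (by omega), min_eq_right hi, min_self]
  · rw [mem_Ed]
    unfold loop
    rw [if_neg (show ¬ 2 * k + 1 = 0 by omega)]
    rw [if_neg (by omega), pt_sum, min_self]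
    push_cast
    have : 2 * (k:ℤ) + 2 - (2 * (k:ℤ) + 1) = 1 := by ring
    rw [this]; simp

lemma κ_pos (d : ℕ) {k : ℕ} (hk : 1 ≤ k) : 0 < κ (Ed (d + 2)) (2 * k + 1) := by
  unfold κ
  rw [Set.ncard_pos (Cl_finite _ _)]
  exact ⟨_, loop_mem d hk⟩

end H982.CL
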