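import Pool.Graph.R_pool_sql_team_seeded_3997aac3.Q234.HS.Main

/-!
# Words of bridges: cones, unique factorisation
-/

set_option autoImplicit false
set_option linter.unusedSectionVars false

namespace H982.DN

open Pool.Agent.Q234.HS

/-- a lattice with a height `l`, a horizontal coordinate `k`, a symmetry which exchanges them and a
mirror symmetry -/
structure Lat (V : Type) [AddCommGroup V] where
  S : Set V
  fin : S.Finite
  neg : ∀ a ∈ S, -a ∈ S
  l : V →+ ℤ
  k : V →+ ℤ
  one : ∀ a ∈ S, 0 < l a → l a = 1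
  e : V
  he : e ∈ S
  le : l e = 1
  ke : k e = 0
  sw : V ≃+ V
  swS : ∀ a ∈ S, sw a ∈ S
  sw_l : ∀ v, l (sw v) = k v
  sw_k : ∀ v, k (sw v) = l v
  mi : V ≃+ V
  miS : ∀ a ∈ S, mi a ∈ S
  mi_mi : ∀ v, mi (mi v) = v
  mi_l : ∀ v, l (mi v) = l v
  mi_k : ∀ v, k (mi v) = -k v

variable {V : Type} [AddCommGroup V] (L : Lat V)

/-- the displacement -/
def la (w : List V) : ℤ × ℤ := (L.l w.sum, L.k w.sum)

lemma la_append (u v : List V) : la L (u ++ v) = la L u + la L v := by
  unfold la
  rw [List.sum_append, map_add, map_add]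
  rfl

/-- irreducible bridges -/
structure Blk (β : List V) : Prop where
  st : ∀ a ∈ β, a ∈ L.S
  br : Br L.l β
  ne : β ≠ []
  irr : ∀ u v, u ++ v = β → Cut L.l u v → u = [] ∨ v = []

variable {L}

lemma half_nonneg {w u : List V} (h : Half L.l w) (hu : u <+: w) : 0 ≤ L.l u.sum := by
  by_cases h0 : u = []
  · rw [h0]
    simp
  · exact (h.2 u h0 hu).le

lemma Blk.pos {β : List V} (h : Blk L β) : 0 < L.l β.sum := h.br.1.2 β h.ne (List.prefix_refl β)

lemma br_nil : Br L.l ([] : List V) := by
  refine ⟨⟨fun u hu hn => absurd (eq_nil_of_ifx hn) hu, fun u hu hn => ?_⟩, fun u hn => ?_⟩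
  · exact absurd (List.prefix_nil.1 hn) hu
  · rw [List.suffix_nil.1 hn]
    simp

lemma br_append {u v : List V} (hu : Br L.l u) (hv : Br L.l v) : Br L.l (u ++ v) := by
  refine ⟨half_append hu hv.1, fun x hx => ?_⟩
  rcases suffix_append_cases hx with h | ⟨y, rfl, hy⟩
  · exact hv.2 x h
  · rw [List.sum_append, map_add]
    have h1 := hu.2 y hy
    have h2 := hv.2 v (List.suffix_refl v)
    omega

lemma flat_br {bs : List (List V)} (h : ∀ β ∈ bs, Blk L β) : Br L.l bs.flatten := by
  induction bs with
  | nil => exact br_nil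
  | cons β bs ih =>
    rw [List.flatten_cons]
    exact br_append (h β List.mem_cons_self).br (ih fun b hb => h b (List.mem_cons_of_mem _ hb))

lemma flat_st {bs : List (List V)} (h : ∀ β ∈ bs, Blk L β) : ∀ a ∈ bs.flatten, a ∈ L.S := by
  intro a ha
  rw [List.mem_flatten] at ha
  obtain ⟨β, hβ, ha⟩ := ha
  exact (h β hβ).st a ha

variable (L) in
/-- the displacement of a sequence of blocks -/
def sm (bs : List (List V)) : ℤ × ℤ := (bs.map (la L)).sum

lemma sm_append (a b : List (List V)) : sm L (a ++ b) = sm L a + sm L b := by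
  unfold sm
  rw [List.map_append, List.sum_append]

lemma sm_cons (β : List V) (b : List (List V)) : sm L (β :: b) = la L β + sm L b := by
  unfold sm
  rw [List.map_cons, List.sum_cons]

lemma la_flat (bs : List (List V)) : la L bs.flatten = sm L bs := by
  induction bs with
  | nil =>
    unfold la sm
    simp
  | cons β bs ih =>
    rw [List.flatten_cons, la_append, sm_cons, ih]

open Classical in
variable (L) in
/-- the horizontal extent -/
noncomputable def wd (β : List V) : ℕ := β.inits.toFinset.sup (fun u => (L.k u.sum).natAbs)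

lemma le_wd {β u : List V} (h : u <+: β) : |L.k u.sum| ≤ (wd L β : ℤ) := by
  classical
  have := Finset.le_sup (f := fun u : List V => (L.k u.sum).natAbs)
    (List.mem_toFinset.2 ((List.mem_inits _ _).2 h))
  rw [← Int.natCast_natAbs]
  unfold wd
  exact_mod_cast this

lemma le_wd' {β u : List V} (h : u <:+ β) : |L.k u.sum| ≤ 2 * (wd L β : ℤ) := by
  obtain ⟨p, rfl⟩ := h
  have h1 := le_wd (L := L) (List.prefix_append p u)
  have h2 := le_wd (L := L) (List.prefix_refl (p ++ u))
  rw [List.sum_append, map_add] at h2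
  rw [abs_le] at h1 h2 ⊢
  omega

lemma pre_flat {bs : List (List V)} {u : List V} (hu : u <+: bs.flatten) :
    (bs = [] ∧ u = []) ∨ ∃ l b r q, bs = l ++ b :: r ∧ q <+: b ∧ u = l.flatten ++ q := by
  induction bs generalizing u with
  | nil => exact Or.inl ⟨rfl, List.prefix_nil.1 hu⟩
  | cons β bs ih =>
    right
    rw [List.flatten_cons] at hu
    rcases prefix_append_cases hu with h | ⟨y, rfl, hy0, hy⟩
    · exact ⟨[], β, bs, u, rfl, h, rfl⟩
    · rcases ih hy with ⟨-, rfl⟩ | ⟨l, b, r, q, rfl, hq, rfl⟩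
      · exact absurd rfl hy0
      · exact ⟨β :: l, b, r, q, rfl, hq, by rw [List.flatten_cons, List.append_assoc]⟩

lemma suf_flat {bs : List (List V)} {u : List V} (hu : u <:+ bs.flatten) :
    (bs = [] ∧ u = []) ∨ ∃ l b r q, bs = l ++ b :: r ∧ q <:+ b ∧ u = q ++ r.flatten := by
  induction bs generalizing u with
  | nil => exact Or.inl ⟨rfl, List.suffix_nil.1 hu⟩
  | cons β bs ih =>
    right
    rw [List.flatten_cons] at hu
    rcases suffix_append_cases hu with h | ⟨y, rfl, hy⟩
    · rcases ih h with ⟨rfl, rfl⟩ | ⟨l, b, r, q, rfl, hq, rfl⟩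
      · exact ⟨[], β, [], [], rfl, List.nil_suffix, by simp⟩
      · exact ⟨β :: l, b, r, q, rfl, hq, rfl⟩
    · exact ⟨[], β, bs, y, rfl, hy, rfl⟩

variable (L) in
/-- the walk is in the upper cone of its start -/
def fwd (bs : List (List V)) : Prop :=
  ∀ l b r, bs = l ++ b :: r → 2 * |(sm L l).2| + 4 * (wd L b : ℤ) ≤ (sm L l).1

variable (L) in
/-- the walk is in the lower cone of its end -/
def bwd (bs : List (List V)) : Prop :=
  ∀ l b r, bs = l ++ b :: r → 2 * |(sm L r).2| + 4 * (wd L b : ℤ) ≤ (sm L r).1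

variable (L) in
/-- the walk is in a narrow strip -/
def ext (E : ℤ) (bs : List (List V)) : Prop :=
  ∀ l b r, bs = l ++ b :: r → |(sm L l).2| + (wd L b : ℤ) ≤ E

lemma c2 {x y : ℤ} (h : 2 * |x| ≤ y) : 2 * x ≤ y ∧ -(2 * x) ≤ y := by
  have h1 := le_abs_self x
  have h2 := neg_le_abs x
  omega

lemma fwd_cone {bs : List (List V)} (h : ∀ β ∈ bs, Blk L β) (hf : fwd L bs) {u : List V}
    (hu : u <+: bs.flatten) : 2 * |L.k u.sum| ≤ L.l u.sum := by
  rcases pre_flat hu with ⟨-, rfl⟩ | ⟨l, b, r, q, rfl, hq, rfl⟩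
  · simp
  · have h1 := hf l b r rfl
    have h2 := le_wd (L := L) hq
    have h3 := half_nonneg (h b (by simp)).br.1 hq
    have e := la_flat (L := L) l
    have e1 : L.l l.flatten.sum = (sm L l).1 := congrArg Prod.fst e
    have e2 : L.k l.flatten.sum = (sm L l).2 := congrArg Prod.snd e
    rw [List.sum_append, map_add, map_add, e1, e2]
    have h4 := abs_add_le (sm L l).2 (L.k q.sum)
    omega

lemma bwd_cone {bs : List (List V)} (h : ∀ β ∈ bs, Blk L β) (hf : bwd L bs) {u : List V}
    (hu : u <:+ bs.flatten) : 2 * |L.k u.sum| ≤ L.l u.sum := by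
  rcases suf_flat hu with ⟨-, rfl⟩ | ⟨l, b, r, q, rfl, hq, rfl⟩
  · simp
  · have h1 := hf l b r rfl
    have h2 := le_wd' (L := L) hq
    have h3 := (h b (by simp)).br.2 q hq
    have e := la_flat (L := L) r
    have e1 : L.l r.flatten.sum = (sm L r).1 := congrArg Prod.fst e
    have e2 : L.k r.flatten.sum = (sm L r).2 := congrArg Prod.snd e
    rw [List.sum_append, map_add, map_add, e1, e2]
    have h4 := abs_add_le (L.k q.sum) (sm L r).2
    omega

lemma ext_strip {E : ℤ} (hE : 0 ≤ E) {bs : List (List V)} (hf : ext L E bs) :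
    |(sm L bs).2| ≤ E := by
  have e := la_flat (L := L) bs
  have e2 : L.k bs.flatten.sum = (sm L bs).2 := congrArg Prod.snd e
  rw [← e2]
  rcases pre_flat (List.prefix_refl bs.flatten) with ⟨rfl, -⟩ | ⟨l, b, r, q, h1, hq, h2⟩
  · simpa using hE
  · rw [h2]
    have h3 := hf l b r h1
    have h4 := le_wd (L := L) hq
    have e3 : L.k l.flatten.sum = (sm L l).2 := congrArg Prod.snd (la_flat (L := L) l)
    rw [List.sum_append, map_add, e3]
    have h5 := abs_add_le (sm L l).2 (L.k q.sum)
    omega

lemma lev_eq {G G' s s' : List V} (h : G ++ s = G' ++ s') (hl : L.l G.sum = L.l G'.sum)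
    (hs : Half L.l s) (hs' : Half L.l s') : G = G' := by
  have key : ∀ {G G' s s' : List V}, G ++ s = G' ++ s' → L.l G.sum = L.l G'.sum →
      Half L.l s → G <+: G' → G = G' := by
    rintro G _ s s' h hl hs ⟨t, rfl⟩
    by_cases ht : t = []
    · rw [ht, List.append_nil]
    · exfalso
      rw [List.append_assoc, List.append_cancel_left_eq] at h
      have h1 := hs.2 t ht (h ▸ List.prefix_append t s')
      rw [List.sum_append, map_add] at hl
      omega
  rcases List.prefix_or_prefix_of_prefix (List.prefix_append G s)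
    (h ▸ List.prefix_append G' s') with h1 | h1
  · exact key h hl hs h1
  · exact (key h.symm hl.symm hs' h1).symm

lemma blk_eq {β β' s s' : List V} (hβ : Blk L β) (hβ' : Blk L β') (h : β ++ s = β' ++ s')
    (hs : Half L.l s) (hs' : Half L.l s') : β = β' := by
  have key : ∀ {G G' s s' : List V}, Blk L G → Blk L G' → G ++ s = G' ++ s' →
      Half L.l s → G <+: G' → G = G' := by
    rintro G _ s s' hG hG' h hs ⟨t, rfl⟩
    by_cases ht : t = []
    · rw [ht, List.append_nil]
    · exfalso
      rw [List.append_assoc, List.append_cancel_left_eq] at h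
      rcases hG'.irr G t rfl ⟨hG.br.2, fun x hx hxt => hs.2 x hx
        (hxt.trans (h ▸ List.prefix_append t s'))⟩ with h1 | h1
      · exact hG.ne h1
      · exact ht h1
  rcases List.prefix_or_prefix_of_prefix (List.prefix_append β s)
    (h ▸ List.prefix_append β' s') with h1 | h1
  · exact key hβ hβ' h hs h1
  · exact (key hβ' hβ h.symm hs' h1).symm

lemma flat_inj {bs bs' : List (List V)} (h : ∀ β ∈ bs, Blk L β) (h' : ∀ β ∈ bs', Blk L β)
    (e : bs.flatten = bs'.flatten) : bs = bs' := by
  induction bs generalizing bs' with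
  | nil =>
    cases bs' with
    | nil => rfl
    | cons β' bs' =>
      exfalso
      rw [List.flatten_nil, List.flatten_cons] at e
      exact (h' β' List.mem_cons_self).ne (List.append_eq_nil_iff.1 e.symm).1
  | cons β bs ih =>
    cases bs' with
    | nil =>
      exfalso
      rw [List.flatten_nil, List.flatten_cons] at e
      exact (h β List.mem_cons_self).ne (List.append_eq_nil_iff.1 e).1
    | cons β' bs' =>
      have k : ∀ b ∈ bs, Blk L b := fun b hb => h b (List.mem_cons_of_mem _ hb)
      have k' : ∀ b ∈ bs', Blk L b := fun b hb => h' b (List.mem_cons_of_mem _ hb)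
      rw [List.flatten_cons, List.flatten_cons] at e
      have e1 := blk_eq (h β List.mem_cons_self) (h' β' List.mem_cons_self) e (flat_br k).1
        (flat_br k').1
      subst e1
      rw [List.append_cancel_left_eq] at e
      rw [ih k k' e]

end H982.DN
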