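import Pool.Agent.H982.DN9

/-!
# The mass of the cone bridges with a height in `[K, ρ K]` is at most one
-/

set_option autoImplicit false
set_option linter.unusedSectionVars false

namespace H982.DN

open Pool.Agent.Q234.HS (Saw Br Half Cut N half_append suffix_append_cases prefix_append_cases
  finite_W mkDat eq_nil_of_ifx)
open scoped ENNReal

variable {V : Type} [AddCommGroup V]

lemma gbr_nil {l : V →+ ℤ} : Br l ([] : List V) := by
  refine ⟨⟨fun u hu hn => absurd (eq_nil_of_ifx hn) hu, fun u hu hn => ?_⟩, fun u hn => ?_⟩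
  · exact absurd (List.prefix_nil.1 hn) hu
  · rw [List.suffix_nil.1 hn]
    simp

lemma gbr_append {l : V →+ ℤ} {u v : List V} (hu : Br l u) (hv : Br l v) : Br l (u ++ v) := by
  refine ⟨half_append hu hv.1, fun x hx => ?_⟩
  rcases suffix_append_cases hx with h | ⟨y, rfl, hy⟩
  · exact hv.2 x h
  · rw [List.sum_append, map_add]
    have h1 := hu.2 y hy
    have h2 := hv.2 v (List.suffix_refl v)
    omega

/-- powers of a finite family, with tails in a class `P` -/
lemma powers2 {μ : ℝ} {P : List V → Prop} (h0 : P []) (G : Finset (List V))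
    (hG : ∀ w ∈ G, ∀ s, P s → P (w ++ s))
    (hinj : ∀ w ∈ G, ∀ w' ∈ G, ∀ s s', P s → P s' → w ++ s = w' ++ s' → w = w') (k : ℕ) :
    ∃ H : Finset (List V), (∀ w ∈ H, P w ∧ w.length ≤ k * G.sup List.length) ∧
      ∑ w ∈ H, (μ ^ w.length)⁻¹ = (∑ w ∈ G, (μ ^ w.length)⁻¹) ^ k := by
  classical
  induction k with
  | zero =>
    refine ⟨{[]}, ?_, ?_⟩
    · intro w hw
      rw [Finset.mem_singleton] at hw
      subst hw
      exact ⟨h0, by simp⟩
    · rw [Finset.sum_singleton]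
      simp
  | succ k ih =>
    obtain ⟨H, h1, h2⟩ := ih
    refine ⟨(G ×ˢ H).image (fun p => p.1 ++ p.2), ?_, ?_⟩
    · intro w hw
      rw [Finset.mem_image] at hw
      obtain ⟨⟨u, v⟩, hp, rfl⟩ := hw
      rw [Finset.mem_product] at hp
      obtain ⟨b1, b3⟩ := h1 v hp.2
      refine ⟨hG u hp.1 v b1, ?_⟩
      have h3 : u.length ≤ G.sup List.length := Finset.le_sup (f := List.length) hp.1
      rw [List.length_append, Nat.succ_mul]
      simp only at b3 ⊢
      omega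
    · rw [Finset.sum_image]
      · rw [Finset.sum_product, pow_succ, ← h2, mul_comm, Finset.sum_mul_sum]
        refine Finset.sum_congr rfl fun u _ => Finset.sum_congr rfl fun v _ => ?_
        rw [List.length_append, pow_add, mul_inv]
      · rintro ⟨u, v⟩ hp ⟨u', v'⟩ hp' he
        simp only [Finset.coe_product, Set.mem_prod, Finset.mem_coe] at hp hp' he
        have e1 := hinj u hp.1 u' hp'.1 v v' (h1 v hp.2).1 (h1 v' hp'.2).1 he
        subst e1
        rw [List.append_cancel_left_eq] at he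
        rw [he]

lemma sum_len_le2 {S : Set V} (hS : S.Finite) {μ : ℝ} (hμ : 0 < μ) {l : V →+ ℤ}
    (hb : ∀ n, (N S (Br l) n : ℝ) / μ ^ n ≤ 1) (H : Finset (List V)) (m : ℕ)
    (h : ∀ w ∈ H, ((∀ a ∈ w, a ∈ S) ∧ Br l w) ∧ w.length ≤ m) :
    ∑ w ∈ H, (μ ^ w.length)⁻¹ ≤ (m : ℝ) + 1 := by
  classical
  rw [← Finset.sum_fiberwise_of_maps_to (s := H) (t := Finset.range (m + 1))
    (g := List.length) (fun w hw => Finset.mem_range.2 (by have := (h w hw).2; omega))]
  calc ∑ n ∈ Finset.range (m + 1), ∑ w ∈ H with w.length = n, (μ ^ w.length)⁻¹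
      ≤ ∑ n ∈ Finset.range (m + 1), (1 : ℝ) := by
        refine Finset.sum_le_sum fun n _ => ?_
        have e1 : ∑ w ∈ H with w.length = n, (μ ^ w.length)⁻¹ =
            ((H.filter fun w => w.length = n).card : ℝ) * (μ ^ n)⁻¹ := by
          rw [Finset.sum_congr rfl fun w hw => by rw [(Finset.mem_filter.1 hw).2],
            Finset.sum_const, nsmul_eq_mul]
        rw [e1]
        refine le_trans ?_ (hb n)
        rw [div_eq_mul_inv]
        refine mul_le_mul_of_nonneg_right ?_ (by positivity)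
        have h2 : (H.filter fun w => w.length = n).card ≤ N S (Br l) n := by
          unfold N
          rw [← Set.ncard_coe_finset]
          refine Set.ncard_le_ncard ?_ (finite_W hS _ n)
          intro w hw
          rw [Finset.mem_coe, Finset.mem_filter] at hw
          obtain ⟨⟨a1, a2⟩, -⟩ := h w hw.1
          exact ⟨hw.2, a1, a2⟩
        exact_mod_cast h2
    _ = (m : ℝ) + 1 := by simp

theorem pow_trick2 {S : Set V} (hS : S.Finite) {μ : ℝ} (hμ : 0 < μ) {l : V →+ ℤ}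
    (hb : ∀ n, (N S (Br l) n : ℝ) / μ ^ n ≤ 1) {P : List V → Prop} (h0 : P [])
    (hP : ∀ w, P w → (∀ a ∈ w, a ∈ S) ∧ Br l w) (G : Finset (List V))
    (hG : ∀ w ∈ G, ∀ s, P s → P (w ++ s))
    (hinj : ∀ w ∈ G, ∀ w' ∈ G, ∀ s s', P s → P s' → w ++ s = w' ++ s' → w = w') :
    ∑ w ∈ G, (μ ^ w.length)⁻¹ ≤ 1 := by
  refine le_one_of_pow (m := G.sup List.length) fun k => ?_
  obtain ⟨H, h1, h2⟩ := powers2 (μ := μ) h0 G hG hinj k
  rw [← h2]
  exact sum_len_le2 hS hμ hb H _ fun w hw => ⟨hP w (h1 w hw).1, (h1 w hw).2⟩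

/-- the diagonal height -/
def dg (L : Lat V) : V →+ ℤ := L.l + L.k

variable {L : Lat V} {α ρ K : ℝ}

lemma dg_apply (v : V) : dg L v = L.l v + L.k v := rfl

variable (L α) in
/-- cone bridges of slope `α` -/
structure CB (w : List V) : Prop where
  st : ∀ a ∈ w, a ∈ L.S
  br : Br L.l w
  pre : ∀ u, u <+: w → |(L.k u.sum : ℝ)| ≤ α * L.l u.sum
  suf : ∀ u, u <:+ w → |(L.k u.sum : ℝ)| ≤ α * L.l u.sum

lemma CB.diag {w : List V} (h : CB L α w) (hα1 : α < 1) : Br (dg L) w := by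
  refine ⟨⟨h.br.1.1, fun u hu hp => ?_⟩, fun u hs => ?_⟩
  · have h1 := h.br.1.2 u hu hp
    have h2 := abs_le.1 (h.pre u hp)
    have h3 : (0 : ℝ) < L.l u.sum := by exact_mod_cast h1
    have h4 : (0 : ℝ) < (L.l u.sum : ℝ) + L.k u.sum := by nlinarith
    rw [dg_apply]
    exact_mod_cast h4
  · have h1 := h.br.2 u hs
    have h2 := abs_le.1 (h.suf u hs)
    have h3 : (0 : ℝ) ≤ L.l u.sum := by exact_mod_cast h1
    have h4 : (0 : ℝ) ≤ (L.l u.sum : ℝ) + L.k u.sum := by nlinarith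
    rw [dg_apply]
    exact_mod_cast h4

lemma dg_sw (v : V) : dg L (L.sw v) = dg L v := by
  rw [dg_apply, dg_apply, L.sw_l, L.sw_k, add_comm]

lemma gbr_map {w : List V} (h : Br (dg L) w) : Br (dg L) (w.map L.sw) := by
  refine ⟨⟨saw_map L.sw h.1.1, fun u hu hn => ?_⟩, fun u hn => ?_⟩
  · rw [List.prefix_map_iff] at hn
    obtain ⟨u', h1, rfl⟩ := hn
    rw [map_sum, dg_sw]
    exact h.1.2 u' (by rintro rfl; exact hu rfl) h1
  · rw [List.suffix_map_iff] at hn
    obtain ⟨u', h1, rfl⟩ := hn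
    rw [map_sum, dg_sw]
    exact h.2 u' h1

/-- a prefix of the horizontal piece -/
lemma CB.pre_sw {w z : List V} (h : CB L α w) (hz : z <+: w.map L.sw) :
    |(L.l z.sum : ℝ)| ≤ α * L.k z.sum ∧ (z ≠ [] → 0 < L.k z.sum) ∧ L.k z.sum ≤ L.l w.sum := by
  rw [List.prefix_map_iff] at hz
  obtain ⟨z', h1, rfl⟩ := hz
  rw [map_sum, L.sw_l, L.sw_k]
  refine ⟨h.pre z' h1, fun h0 => h.br.1.2 z' (by rintro rfl; exact h0 rfl) h1, ?_⟩
  obtain ⟨s, hs⟩ := h1
  have h2 := h.br.2 s ⟨z', hs⟩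
  rw [← hs, List.sum_append, map_add]
  omega

lemma CB.suf_sw {w z : List V} (h : CB L α w) (hz : z <:+ w.map L.sw) :
    |(L.l z.sum : ℝ)| ≤ α * L.k z.sum := by
  rw [List.suffix_map_iff] at hz
  obtain ⟨z', h1, rfl⟩ := hz
  rw [map_sum, L.sw_l, L.sw_k]
  exact h.suf z' h1

lemma CB.k_sw {w : List V} : L.k (w.map L.sw).sum = L.l w.sum := by
  rw [map_sum, L.sw_k]

lemma CB.le {w u : List V} (h : CB L α w) (hu : u <+: w) : L.l u.sum ≤ L.l w.sum := by
  obtain ⟨s, hs⟩ := hu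
  have h2 := h.br.2 s ⟨u, hs⟩
  rw [← hs, List.sum_append, map_add]
  omega

variable (L α ρ K) in
/-- the tails -/
structure Tl (s : List V) : Prop where
  st : ∀ a ∈ s, a ∈ L.S
  br : Br (dg L) s
  k1 : ∀ u, u <+: s → -(α * ρ * K) ≤ L.k u.sum
  l1 : ∀ u, u <+: s → u ≠ [] →
    (|(L.k u.sum : ℝ)| ≤ α * L.l u.sum ∧ 0 < L.l u.sum) ∨ α * (ρ - 1) * K < L.l u.sum

/-- parameters -/
structure Pm (α ρ K : ℝ) : Prop where
  a0 : 0 ≤ α
  a1 : α < 1
  r1 : 1 ≤ ρ
  ar : α * (2 * ρ - 1) < 1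
  K0 : 0 < K

lemma Pm.key (p : Pm α ρ K) : α * (ρ - 1) * K < K - α * ρ * K := by
  have := mul_lt_mul_of_pos_right p.ar p.K0
  linarith [this, mul_comm (α * (2 * ρ - 1)) K]

lemma Pm.arK (p : Pm α ρ K) : 0 ≤ α * ρ * K :=
  mul_nonneg (mul_nonneg p.a0 (by linarith [p.r1])) p.K0.le

lemma Pm.ar1K (p : Pm α ρ K) : 0 ≤ α * (ρ - 1) * K :=
  mul_nonneg (mul_nonneg p.a0 (by linarith [p.r1])) p.K0.le

variable (L α ρ K) in
/-- the pieces -/
structure Pc (w : List V) : Prop where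
  cb : CB L α w
  lo : K ≤ L.l w.sum
  hi : (L.l w.sum : ℝ) ≤ ρ * K

lemma tl_nil (p : Pm α ρ K) : Tl L α ρ K [] := by
  refine ⟨by simp, gbr_nil, fun u hu => ?_, fun u hu h0 => absurd (List.prefix_nil.1 hu) h0⟩
  rw [List.prefix_nil.1 hu]
  have := p.arK
  simpa using this

lemma Pc.k_ge (p : Pm α ρ K) {a u : List V} (ha : Pc L α ρ K a) (hu : u <+: a) :
    |(L.k u.sum : ℝ)| ≤ α * ρ * K := by
  have h1 := ha.cb.pre u hu
  have h2 : (L.l u.sum : ℝ) ≤ L.l a.sum := by exact_mod_cast ha.cb.le hu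
  have h3 := mul_le_mul_of_nonneg_left (h2.trans ha.hi) p.a0
  linarith [mul_assoc α ρ K]

lemma Pc.l_sw (p : Pm α ρ K) {h z : List V} (hh : Pc L α ρ K h) (hz : z <+: h.map L.sw) :
    |(L.l z.sum : ℝ)| ≤ α * ρ * K := by
  obtain ⟨h1, -, h3⟩ := hh.cb.pre_sw hz
  have h2 : (L.k z.sum : ℝ) ≤ L.l h.sum := by exact_mod_cast h3
  have h4 := mul_le_mul_of_nonneg_left (h2.trans hh.hi) p.a0
  linarith [mul_assoc α ρ K]

lemma tl_step (p : Pm α ρ K) {a h s : List V} (ha : Pc L α ρ K a) (hh : Pc L α ρ K h)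
    (hs : Tl L α ρ K s) : Tl L α ρ K ((a ++ h.map L.sw) ++ s) := by
  have key := p.key
  have k1 := p.arK
  have k2 := p.ar1K
  have k3 := p.K0
  have q1 := abs_le.1 (ha.k_ge p (List.prefix_refl a))
  have q2 := abs_le.1 (hh.l_sw p (List.prefix_refl _))
  have q3 : (L.k (h.map L.sw).sum : ℝ) = L.l h.sum := by exact_mod_cast CB.k_sw
  have q4 := hh.lo
  have q5 := ha.lo
  refine ⟨?_, gbr_append (gbr_append (ha.cb.diag p.a1) (gbr_map (hh.cb.diag p.a1))) hs.br, ?_, ?_⟩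
  · intro c hc
    rw [List.mem_append, List.mem_append] at hc
    rcases hc with (hc | hc) | hc
    · exact ha.cb.st c hc
    · rw [List.mem_map] at hc
      obtain ⟨c', h1, rfl⟩ := hc
      exact L.swS c' (hh.cb.st c' h1)
    · exact hs.st c hc
  · intro u hu
    rcases prefix_append_cases hu with hu | ⟨y, rfl, hy0, hy⟩
    · rcases prefix_append_cases hu with hu | ⟨z, rfl, hz0, hz⟩
      · exact (abs_le.1 (ha.k_ge p hu)).1
      · have h1 : (0 : ℝ) < L.k z.sum := by exact_mod_cast (hh.cb.pre_sw hz).2.1 hz0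
        rw [List.sum_append, map_add]
        push_cast
        linarith
    · have h1 := hs.k1 y hy
      rw [List.sum_append, List.sum_append, map_add, map_add]
      push_cast
      linarith
  · intro u hu hu0
    rcases prefix_append_cases hu with hu | ⟨y, rfl, hy0, hy⟩
    · rcases prefix_append_cases hu with hu | ⟨z, rfl, hz0, hz⟩
      · exact Or.inl ⟨ha.cb.pre u hu, ha.cb.br.1.2 u hu0 hu⟩
      · right
        have h1 := abs_le.1 (hh.l_sw p hz)
        rw [List.sum_append, map_add]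
        push_cast
        linarith
    · right
      have h1 : (0 : ℝ) ≤ L.l y.sum := by
        rcases hs.l1 y hy hy0 with h | h
        · exact_mod_cast h.2.le
        · linarith
      rw [List.sum_append, List.sum_append, map_add, map_add]
      push_cast
      linarith

lemma both_cones {α : ℝ} (a0 : 0 ≤ α) (a1 : α < 1) {x y : ℝ} (h1 : |x| ≤ α * y) (h2 : |y| ≤ α * x) :
    x = 0 := by
  have h3 := le_abs_self y
  have h4 : |x| ≤ α * (α * x) := h1.trans (mul_le_mul_of_nonneg_left (h3.trans h2) a0)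
  have h5 := le_abs_self x
  have h6 := abs_nonneg x
  have h7 : α * (α * x) ≤ α * (α * |x|) :=
    mul_le_mul_of_nonneg_left (mul_le_mul_of_nonneg_left h5 a0) a0
  have h8 : |x| ≤ α * α * |x| := by linarith [mul_assoc α α |x|]
  have h9 : α * α < 1 := by nlinarith
  have h10 : |x| = 0 := by nlinarith
  exact abs_eq_zero.1 h10

lemma dec1 (p : Pm α ρ K) {a h s a' h' s' : List V} (ha : Pc L α ρ K a) (hh : Pc L α ρ K h)
    (hs : Tl L α ρ K s) (ha' : Pc L α ρ K a')
    (e : a ++ (h.map L.sw ++ s) = a' ++ (h'.map L.sw ++ s')) (hp : a <+: a') : a = a' := by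
  obtain ⟨t, rfl⟩ := hp
  by_cases ht : t = []
  · rw [ht, List.append_nil]
  exfalso
  rw [List.append_assoc, List.append_cancel_left_eq] at e
  have h1 := ha'.cb.suf t ⟨a, rfl⟩
  have h2 := ha'.hi
  have h3 := ha.lo
  rw [List.sum_append, map_add] at h2
  push_cast at h2
  have h4 : (L.l t.sum : ℝ) ≤ (ρ - 1) * K := by linarith
  have h5 := mul_le_mul_of_nonneg_left h4 p.a0
  have h6 : t <+: h.map L.sw ++ s := ⟨h'.map L.sw ++ s', e.symm⟩
  rcases prefix_append_cases h6 with h7 | ⟨y, rfl, hy0, hy⟩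
  · obtain ⟨h8, h9, -⟩ := hh.cb.pre_sw h7
    have h10 := both_cones p.a0 p.a1 h1 h8
    have h11 : (0 : ℝ) < L.k t.sum := by exact_mod_cast h9 ht
    linarith
  · have h8 := hs.k1 y hy
    have h9 : (L.k (h.map L.sw).sum : ℝ) = L.l h.sum := by exact_mod_cast CB.k_sw
    have h10 := hh.lo
    have h11 := le_abs_self (L.k (h.map L.sw ++ y).sum : ℝ)
    have h12 : (L.k (h.map L.sw ++ y).sum : ℝ) = L.l h.sum + L.k y.sum := by
      rw [List.sum_append, map_add]
      push_cast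
      rw [h9]
    have key := p.key
    linarith [mul_assoc α (ρ - 1) K]

lemma dec2 (p : Pm α ρ K) {h s h' s' : List V} (hh : Pc L α ρ K h) (hs : Tl L α ρ K s)
    (hh' : Pc L α ρ K h') (e : h.map L.sw ++ s = h'.map L.sw ++ s')
    (hp : h.map L.sw <+: h'.map L.sw) : h.map L.sw = h'.map L.sw := by
  obtain ⟨t, ht'⟩ := hp
  by_cases ht : t = []
  · rw [← ht', ht, List.append_nil]
  exfalso
  rw [← ht', List.append_assoc, List.append_cancel_left_eq] at e
  have h1 := hh'.cb.suf_sw (z := t) ⟨_, ht'⟩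
  have h2 := hh'.hi
  have h3 := hh.lo
  have h4 : L.k (h'.map L.sw).sum = L.l h'.sum := CB.k_sw
  have h5 : L.k (h.map L.sw).sum = L.l h.sum := CB.k_sw
  rw [← ht', List.sum_append, map_add, h5] at h4
  have h6 : (L.l h.sum : ℝ) + L.k t.sum = L.l h'.sum := by exact_mod_cast h4
  have h7 : (L.k t.sum : ℝ) ≤ (ρ - 1) * K := by linarith
  have h8 := mul_le_mul_of_nonneg_left h7 p.a0
  have h9 := le_abs_self (L.l t.sum : ℝ)
  rcases hs.l1 t ⟨s', e.symm⟩ ht with ⟨h10, h11⟩ | h10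
  · have h12 := both_cones p.a0 p.a1 h1 h10
    have h13 : (0 : ℝ) < L.l t.sum := by exact_mod_cast h11
    linarith
  · linarith [mul_assoc α (ρ - 1) K]

lemma dec (p : Pm α ρ K) {a h s a' h' s' : List V} (ha : Pc L α ρ K a) (hh : Pc L α ρ K h)
    (hs : Tl L α ρ K s) (ha' : Pc L α ρ K a') (hh' : Pc L α ρ K h') (hs' : Tl L α ρ K s')
    (e : (a ++ h.map L.sw) ++ s = (a' ++ h'.map L.sw) ++ s') : a = a' ∧ h = h' := by
  rw [List.append_assoc, List.append_assoc] at e
  have ea : a = a' := by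
    rcases List.prefix_or_prefix_of_prefix (List.prefix_append a (h.map L.sw ++ s))
      (e ▸ List.prefix_append a' (h'.map L.sw ++ s')) with h1 | h1
    · exact dec1 p ha hh hs ha' e h1
    · exact (dec1 p ha' hh' hs' ha e.symm h1).symm
  subst ea
  rw [List.append_cancel_left_eq] at e
  refine ⟨rfl, ?_⟩
  have eh : h.map L.sw = h'.map L.sw := by
    rcases List.prefix_or_prefix_of_prefix (List.prefix_append (h.map L.sw) s)
      (e ▸ List.prefix_append (h'.map L.sw) s') with h1 | h1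
    · exact dec2 p hh hs hh' e h1
    · exact (dec2 p hh' hs' hh e.symm h1).symm
  exact (List.map_injective_iff.2 L.sw.injective) eh

/-- **The mass of the cone bridges with a height in `[K, ρ K]` is at most one.** -/
theorem cone_mass {μ : ℝ} (hμ : 0 < μ) (hb : ∀ n, (N L.S (Br (dg L)) n : ℝ) / μ ^ n ≤ 1)
    (p : Pm α ρ K) (A : Finset (List V)) (hA : ∀ w ∈ A, Pc L α ρ K w) :
    ∑ w ∈ A, (μ ^ w.length)⁻¹ ≤ 1 := by
  classical
  have h1 := pow_trick2 L.fin hμ hb (P := Tl L α ρ K) (tl_nil p) (fun w hw => ⟨hw.st, hw.br⟩)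
    ((A ×ˢ A).image fun q => q.1 ++ q.2.map L.sw) (by
      intro w hw s hs
      rw [Finset.mem_image] at hw
      obtain ⟨⟨a, h⟩, hq, rfl⟩ := hw
      rw [Finset.mem_product] at hq
      exact tl_step p (hA _ hq.1) (hA _ hq.2) hs) (by
      intro w hw w' hw' s s' hs hs' e
      rw [Finset.mem_image] at hw hw'
      obtain ⟨⟨a, h⟩, hq, rfl⟩ := hw
      obtain ⟨⟨a', h'⟩, hq', rfl⟩ := hw'
      rw [Finset.mem_product] at hq hq'
      obtain ⟨e1, e2⟩ := dec p (hA _ hq.1) (hA _ hq.2) hs (hA _ hq'.1) (hA _ hq'.2) hs' e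
      simp only at e1 e2
      rw [e1, e2])
  rw [Finset.sum_image] at h1
  · have h2 : ∑ q ∈ A ×ˢ A, (μ ^ (q.1 ++ q.2.map L.sw).length)⁻¹ =
        (∑ w ∈ A, (μ ^ w.length)⁻¹) * ∑ w ∈ A, (μ ^ w.length)⁻¹ := by
      rw [Finset.sum_product, Finset.sum_mul_sum]
      refine Finset.sum_congr rfl fun u _ => Finset.sum_congr rfl fun v _ => ?_
      rw [List.length_append, List.length_map, pow_add, mul_inv]
    rw [h2] at h1
    by_contra h3
    rw [not_le] at h3
    nlinarith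
  · rintro ⟨a, h⟩ hq ⟨a', h'⟩ hq' e
    simp only [Finset.coe_product, Set.mem_prod, Finset.mem_coe] at hq hq' e
    obtain ⟨e1, e2⟩ := dec p (hA _ hq.1) (hA _ hq.2) (tl_nil p) (hA _ hq'.1) (hA _ hq'.2)
      (tl_nil p) (by rw [e])
    rw [e1, e2]

/-- the number of diagonal bridges -/
theorem diag_le (L : Lat V) (hd : ∀ a ∈ L.S, 0 < dg L a → dg L a = 1) {μ : ℝ} (F : Fct L μ) :
    ∀ n, (N L.S (Br (dg L)) n : ℝ) / μ ^ n ≤ 1 := by
  obtain ⟨μ', h1, h2, h3, D⟩ := mkDat L.fin L.neg (dg L) hd L.he (by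
    rw [dg_apply, L.le, L.ke]
    omega)
  have e : μ' = μ := tendsto_nhds_unique h2 F.lim
  subst e
  exact D.b_le

end H982.DN
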