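import Pool.Agent.H982.DN10

/-!
# Confinement: one block
-/

set_option autoImplicit false
set_option linter.unusedSectionVars false

namespace H982.DN

open MeasureTheory ProbabilityTheory Filter Topology
open scoped ENNReal

variable {V : Type} [AddCommGroup V] [Countable V] {L : Lat V} {μ : ℝ}

/-- the horizontal displacement of a block -/
def xb (b : B L) : ℤ := (la L (bl b)).2

/-- the size of a block -/
noncomputable def sz (b : B L) : ℕ := ra L (bl b)

lemma xb_le (b : B L) : |(xb b : ℝ)| ≤ sz b := by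
  have := (le_ra (L := L) (List.prefix_refl (bl b))).2
  unfold xb sz
  rw [← Int.cast_abs, ← Int.natCast_natAbs]
  exact_mod_cast this

lemma xb_le' (b : B L) : |xb b| ≤ (sz b : ℤ) := by
  exact_mod_cast xb_le b

lemma one_le_sz (b : B L) : 1 ≤ sz b := by
  have h1 := (le_ra (L := L) (List.prefix_refl (bl b))).1
  have h2 := one_le_H b
  have h3 : (la L (bl b)).1 = L.l (bl b).sum := rfl
  unfold sz
  omega

lemma xb_mB (b : B L) : xb (mB b) = -xb b := by
  unfold xb la
  rw [bl_mB, map_sum, L.mi_k]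

lemma sz_mB_le (b : B L) : sz (mB b) ≤ sz b := by
  unfold sz
  refine ra_le_of fun u hu => ?_
  rw [bl_mB, List.prefix_map_iff] at hu
  obtain ⟨u', h1, rfl⟩ := hu
  rw [map_sum, L.mi_l, L.mi_k, Int.natAbs_neg]
  have := le_ra (L := L) h1
  exact max_le this.1 this.2

lemma sz_mB (b : B L) : sz (mB b) = sz b := by
  refine le_antisymm (sz_mB_le b) ?_
  have := sz_mB_le (mB b)
  rwa [mB_mB] at this

lemma sz_e1 : sz (e1 L) = 1 := by
  refine le_antisymm ?_ (one_le_sz _)
  unfold sz
  refine ra_le_of fun u hu => ?_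
  have hu' : u <+: [L.e] := hu
  have h2 : u = [] ∨ u = [L.e] := by
    rcases List.prefix_cons_iff.1 hu' with h | ⟨t, rfl, ht⟩
    · exact Or.inl h
    · rw [List.prefix_nil] at ht
      rw [ht]
      exact Or.inr rfl
  rcases h2 with rfl | rfl
  · simp
  · rw [List.sum_singleton, L.le, L.ke]
    simp

lemma xb_e1 : xb (e1 L) = 0 := by
  unfold xb
  rw [la_e1]

lemma int_bdd (F : Fct L μ) {f : B L → ℝ} (C : ℝ) (h : ∀ b, |f b| ≤ C) : Integrable f (nu F) :=
  Integrable.of_bound (Measurable.of_discrete).aestronglyMeasurable C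
    (ae_of_all _ fun b => by rw [Real.norm_eq_abs]; exact h b)

/-- frequency -/
noncomputable def lam (n : ℕ) : ℝ := 8 * Real.pi / (n + 32)

lemma lam_pos (n : ℕ) : 0 < lam n := by
  unfold lam
  have := Real.pi_pos
  positivity

/-- error of one step -/
noncomputable def en (n D : ℕ) : ℝ := if 32 * D ≤ n + 32 then 320 * (D : ℝ) ^ 2 / (n + 32) ^ 2 else 1

lemma en_nonneg (n D : ℕ) : 0 ≤ en n D := by
  unfold en
  split_ifs <;> positivity

lemma en_le (n D : ℕ) : en n D ≤ 1 := by
  unfold en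
  split_ifs with h
  · have h1 : (32 : ℝ) * D ≤ n + 32 := by exact_mod_cast h
    have h2 : (0 : ℝ) ≤ D := by positivity
    rw [div_le_one (by positivity)]
    have h3 : (32 * (D : ℝ)) ^ 2 ≤ ((n : ℝ) + 32) ^ 2 := by
      exact pow_le_pow_left₀ (by positivity) h1 2
    nlinarith
  · exact le_rfl

/-- the error of a step -/
noncomputable def err (F : Fct L μ) (n : ℕ) : ℝ := ∫ b, en n (sz b) ∂(nu F)

lemma en_abs (n D : ℕ) : |en n D| ≤ 1 := by
  rw [abs_of_nonneg (en_nonneg n D)]
  exact en_le n D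

lemma err_nonneg (F : Fct L μ) (n : ℕ) : 0 ≤ err F n := integral_nonneg fun b => en_nonneg n _

lemma pi_sq : Real.pi ^ 2 ≤ 10 := by
  have h1 := Real.pi_lt_d2
  have h2 := Real.pi_pos
  nlinarith

lemma cos_ge (n : ℕ) (b : B L) (h : 32 * sz b ≤ n + 32) :
    1 - en n (sz b) ≤ Real.cos (lam (n + 1) * xb b) := by
  refine le_trans ?_ (Real.one_sub_sq_div_two_le_cos)
  unfold en
  rw [if_pos h]
  have h1 : (xb b : ℝ) ^ 2 ≤ (sz b : ℝ) ^ 2 := sq_le_sq' (by linarith [(abs_le.1 (xb_le b)).1])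
    (abs_le.1 (xb_le b)).2
  have h2 : lam (n + 1) ^ 2 / 2 ≤ 320 / ((n : ℝ) + 32) ^ 2 := by
    unfold lam
    rw [div_pow, mul_pow, div_div, div_le_div_iff₀ (by positivity) (by positivity)]
    push_cast
    have h3 := pi_sq
    have h4 : ((n : ℝ) + 32) ^ 2 ≤ ((n : ℝ) + 1 + 32) ^ 2 :=
      pow_le_pow_left₀ (by positivity) (by linarith) 2
    calc 8 ^ 2 * Real.pi ^ 2 * ((n : ℝ) + 32) ^ 2 ≤ 8 ^ 2 * 10 * ((n : ℝ) + 1 + 32) ^ 2 := by
          gcongr
      _ = 320 * (((n : ℝ) + 1 + 32) ^ 2 * 2) := by ring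
  have h5 : (lam (n + 1) * xb b) ^ 2 / 2 ≤ 320 * (sz b : ℝ) ^ 2 / ((n : ℝ) + 32) ^ 2 := by
    calc (lam (n + 1) * xb b) ^ 2 / 2 = lam (n + 1) ^ 2 / 2 * (xb b : ℝ) ^ 2 := by ring
      _ ≤ 320 / ((n : ℝ) + 32) ^ 2 * (sz b : ℝ) ^ 2 := by gcongr
      _ = _ := by ring
  linarith

lemma sin_zero (F : Fct L μ) (n : ℕ) (t : ℝ) :
    ∫ b : B L, (if 32 * sz b ≤ n + 32 then Real.sin (t * xb b) else 0) ∂(nu F) = 0 := by
  set f : B L → ℝ := fun b => if 32 * sz b ≤ n + 32 then Real.sin (t * xb b) else 0 with hf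
  have h1 : ∫ i, f (mB i) ∂(nu F) = ∫ i, f i ∂(nu F) := by
    conv_rhs => rw [← nu_map F]
    rw [integral_map (Measurable.of_discrete).aemeasurable
      (Measurable.of_discrete).aestronglyMeasurable]
  have h2 : ∀ i : B L, f (mB i) = -f i := by
    intro i
    simp only [hf, sz_mB, xb_mB]
    split_ifs
    · push_cast
      rw [mul_neg, Real.sin_neg]
    · simp
  simp only [h2] at h1
  rw [integral_neg] at h1
  linarith

lemma cos_mass (F : Fct L μ) (n : ℕ) : 1 - err F n ≤
    ∫ b : B L, (if 32 * sz b ≤ n + 32 then Real.cos (lam (n + 1) * xb b) else 0) ∂(nu F) := by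
  have h1 : 1 - err F n = ∫ b : B L, (1 - en n (sz b)) ∂(nu F) := by
    unfold err
    rw [integral_sub (integrable_const _) (int_bdd F 1 fun b => en_abs n _)]
    simp
  rw [h1]
  refine integral_mono ((integrable_const _).sub (int_bdd F 1 fun b => en_abs n _))
    (int_bdd F 1 fun b => ?_) fun b => ?_
  · split_ifs
    · exact Real.abs_cos_le_one _
    · simp
  · simp only
    split_ifs with h
    · exact cos_ge n b h
    · unfold en
      rw [if_neg h]
      simp

/-- the allowed next blocks -/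
def ok (n : ℕ) (X : ℤ) (b : B L) : Prop :=
  32 * sz b ≤ n + 32 ∧ 16 * |X + xb b| ≤ (n : ℤ) + 1 + 32

lemma lam_le {n : ℕ} {X : ℤ} (h : 16 * |X| ≤ (n : ℤ) + 32) : |lam n * X| ≤ Real.pi / 2 := by
  have h1 : (16 : ℝ) * |(X : ℝ)| ≤ n + 32 := by exact_mod_cast h
  rw [abs_mul, abs_of_pos (lam_pos n)]
  unfold lam
  rw [div_mul_eq_mul_div, div_le_div_iff₀ (by positivity) (by positivity)]
  have := Real.pi_pos
  nlinarith

lemma lam_anti (n : ℕ) : lam (n + 1) ≤ lam n := by
  unfold lam
  have := Real.pi_pos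
  push_cast
  gcongr
  linarith

lemma cos_step {n : ℕ} {X : ℤ} (h : 16 * |X| ≤ (n : ℤ) + 32) :
    0 ≤ Real.cos (lam n * X) ∧ Real.cos (lam n * X) ≤ Real.cos (lam (n + 1) * X) := by
  have h1 := abs_le.1 (lam_le h)
  refine ⟨Real.cos_nonneg_of_neg_pi_div_two_le_of_le h1.1 h1.2, ?_⟩
  rw [← Real.cos_abs (lam n * X), ← Real.cos_abs (lam (n + 1) * X)]
  refine Real.cos_le_cos_of_nonneg_of_le_pi (abs_nonneg _) ?_ ?_
  · have := lam_le h
    linarith [Real.pi_pos]
  · rw [abs_mul, abs_mul, abs_of_pos (lam_pos n), abs_of_pos (lam_pos (n + 1))]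
    exact mul_le_mul_of_nonneg_right (lam_anti n) (abs_nonneg _)

open Classical in
/-- the weighted sum over the allowed blocks -/
noncomputable def inn (μ : ℝ) (n : ℕ) (X : ℤ) (b : B L) : ℝ≥0∞ :=
  if ok n X b then wt μ b * ENNReal.ofReal (Real.cos (lam (n + 1) * (X + xb b : ℤ))) else 0

lemma inn_ge1 (F : Fct L μ) {n : ℕ} {X : ℤ} (h : 16 * |X| ≤ (n : ℤ) + 32) :
    ENNReal.ofReal (Real.cos (lam (n + 1) * X) * (1 - err F n)) ≤ ∑' b : B L, inn μ n X b := by
  classical
  have hc := cos_step h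
  set ψ : B L → ℝ := fun b =>
    if ok n X b then Real.cos (lam (n + 1) * (X + xb b : ℤ)) else 0 with hψ
  have hpos : ∀ b, 0 ≤ ψ b := by
    intro b
    simp only [hψ]
    split_ifs with hb
    · have h1 : 16 * |X + xb b| ≤ ((n + 1 : ℕ) : ℤ) + 32 := by
        push_cast
        exact hb.2
      exact (cos_step h1).1
    · exact le_rfl
  have hbd : ∀ b, |ψ b| ≤ 1 := by
    intro b
    simp only [hψ]
    split_ifs
    · exact Real.abs_cos_le_one _
    · simp
  have e1 : ∑' b : B L, inn μ n X b = ENNReal.ofReal (∫ b, ψ b ∂(nu F)) := by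
    rw [ofReal_integral_eq_lintegral_ofReal (int_bdd F 1 hbd) (ae_of_all _ hpos),
      lintegral_countable']
    refine tsum_congr fun b => ?_
    rw [nu_singleton]
    unfold inn
    simp only [hψ]
    split_ifs
    · rw [mul_comm]
    · simp
  rw [e1]
  refine ENNReal.ofReal_le_ofReal ?_
  set Ic : B L → ℝ := fun b => if 32 * sz b ≤ n + 32 then Real.cos (lam (n + 1) * xb b) else 0
    with hIc
  set Is : B L → ℝ := fun b => if 32 * sz b ≤ n + 32 then Real.sin (lam (n + 1) * xb b) else 0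
    with hIs
  have i1 : Integrable Ic (nu F) := int_bdd F 1 fun b => by
    simp only [hIc]
    split_ifs
    · exact Real.abs_cos_le_one _
    · simp
  have i2 : Integrable Is (nu F) := int_bdd F 1 fun b => by
    simp only [hIs]
    split_ifs
    · exact Real.abs_sin_le_one _
    · simp
  have h2 : ∫ b, (Real.cos (lam (n + 1) * X) * Ic b - Real.sin (lam (n + 1) * X) * Is b) ∂(nu F) ≤
      ∫ b, ψ b ∂(nu F) := by
    refine integral_mono ((i1.const_mul _).sub (i2.const_mul _)) (int_bdd F 1 hbd) fun b => ?_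
    simp only [hIc, hIs, hψ]
    by_cases hb : 32 * sz b ≤ n + 32
    · rw [if_pos hb, if_pos hb]
      have e : Real.cos (lam (n + 1) * X) * Real.cos (lam (n + 1) * xb b) -
          Real.sin (lam (n + 1) * X) * Real.sin (lam (n + 1) * xb b) =
          Real.cos (lam (n + 1) * (X + xb b : ℤ)) := by
        rw [← Real.cos_add]
        congr 1
        push_cast
        ring
      rw [e]
      by_cases hk : ok n X b
      · rw [if_pos hk]
      · rw [if_neg hk]
        have h3 : ¬ 16 * |X + xb b| ≤ (n : ℤ) + 1 + 32 := fun h4 => hk ⟨hb, h4⟩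
        rw [not_le] at h3
        have h4 : ((n : ℝ) + 1 + 32) < 16 * |((X + xb b : ℤ) : ℝ)| := by exact_mod_cast h3
        have h5 : |((X + xb b : ℤ) : ℝ)| ≤ (n + 32) / 16 + (n + 32) / 32 := by
          push_cast
          refine (abs_add_le _ _).trans (add_le_add ?_ ?_)
          · have : (16 : ℝ) * |(X : ℝ)| ≤ n + 32 := by exact_mod_cast h
            linarith
          · have h6 : (32 : ℝ) * sz b ≤ n + 32 := by exact_mod_cast hb
            have h7 := xb_le b
            linarith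
        rw [← Real.cos_abs, abs_mul, abs_of_pos (lam_pos _)]
        refine Real.cos_nonpos_of_pi_div_two_le_of_le ?_ ?_
        · unfold lam
          rw [div_mul_eq_mul_div, div_le_div_iff₀ (by positivity) (by positivity)]
          push_cast at h4 ⊢
          have := Real.pi_pos
          nlinarith
        · unfold lam
          rw [div_mul_eq_mul_div, div_le_iff₀ (by positivity)]
          push_cast at h5 ⊢
          have := Real.pi_pos
          nlinarith
    · rw [if_neg hb, if_neg hb, if_neg (fun hk : ok n X b => hb hk.1)]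
      simp
  refine le_trans ?_ h2
  rw [integral_sub (i1.const_mul _) (i2.const_mul _), integral_const_mul, integral_const_mul,
    sin_zero F n, mul_zero, sub_zero]
  exact mul_le_mul_of_nonneg_left (cos_mass F n) (hc.1.trans hc.2)

lemma inn_ge2 (F : Fct L μ) {n : ℕ} {X : ℤ} (h : 16 * |X| ≤ (n : ℤ) + 32) :
    ENNReal.ofReal (Real.cos (lam (n + 1) * X) * μ⁻¹) ≤ ∑' b : B L, inn μ n X b := by
  classical
  have hμ := F.pos
  have hc := cos_step h
  refine le_trans (le_of_eq ?_) (ENNReal.le_tsum (e1 L))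
  unfold inn
  have hk : ok n X (e1 L) := by
    unfold ok
    rw [sz_e1, xb_e1]
    constructor
    · omega
    · rw [add_zero]
      omega
  rw [if_pos hk, xb_e1, add_zero]
  unfold wt
  have e : (bl (e1 L)).length = 1 := rfl
  rw [e, pow_one, ← ENNReal.ofReal_mul (by positivity), mul_comm]

/-- the factor of a step -/
noncomputable def th (F : Fct L μ) (n : ℕ) : ℝ := Real.exp (-((2 + 2 * Real.log μ) * err F n))

lemma inn_ge (F : Fct L μ) {n : ℕ} {X : ℤ} (h : 16 * |X| ≤ (n : ℤ) + 32) :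
    ENNReal.ofReal (Real.cos (lam n * X)) * ENNReal.ofReal (th F n) ≤ ∑' b : B L, inn μ n X b := by
  have hc := cos_step h
  have hμ := F.pos
  have hl : 0 ≤ Real.log μ := Real.log_nonneg F.one
  have he := err_nonneg F n
  rw [← ENNReal.ofReal_mul hc.1]
  by_cases h1 : err F n ≤ 1 / 2
  · refine le_trans (ENNReal.ofReal_le_ofReal ?_) (inn_ge1 F h)
    refine mul_le_mul hc.2 ?_ (Real.exp_pos _).le (hc.1.trans hc.2)
    unfold th
    have h2 : Real.exp (-((2 + 2 * Real.log μ) * err F n)) ≤ Real.exp (-(2 * err F n)) := by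
      rw [Real.exp_le_exp]
      nlinarith
    refine h2.trans ?_
    rw [Real.exp_neg, inv_le_comm₀ (Real.exp_pos _) (by linarith)]
    have h3 := Real.add_one_le_exp (2 * err F n)
    refine le_trans ?_ h3
    rw [inv_le_comm₀ (by linarith) (by linarith), inv_le_comm₀ (by linarith) (by linarith)]
    rw [inv_eq_one_div, div_le_iff₀ (by linarith)]
    nlinarith
  · rw [not_le] at h1
    refine le_trans (ENNReal.ofReal_le_ofReal ?_) (inn_ge2 F h)
    refine mul_le_mul hc.2 ?_ (Real.exp_pos _).le (hc.1.trans hc.2)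
    unfold th
    have h2 : μ⁻¹ = Real.exp (-Real.log μ) := by
      rw [Real.exp_neg, Real.exp_log hμ]
    rw [h2, Real.exp_le_exp]
    nlinarith

end H982.DN
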