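import Pool.Agent.H982.DN11

/-!
# Confinement: sequences of blocks
-/

set_option autoImplicit false
set_option linter.unusedSectionVars false

namespace H982.DN

open MeasureTheory ProbabilityTheory Filter Topology
open scoped ENNReal

variable {V : Type} [AddCommGroup V] [Countable V] {L : Lat V} {μ : ℝ}

variable (L) in
/-- confined sequences of blocks -/
def Cf : ℕ → Set (List (B L))
  | 0 => {[]}
  | n + 1 => {bs | ∃ l b, bs = l ++ [b] ∧ l ∈ Cf n ∧ ok n (sb l).2 b}

lemma Cf_end {n : ℕ} {bs : List (B L)} (h : bs ∈ Cf L n) : 16 * |(sb bs).2| ≤ (n : ℤ) + 32 := by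
  cases n with
  | zero =>
    have : bs = [] := h
    rw [this, sb_nil]
    simp
  | succ n =>
    obtain ⟨l, b, rfl, -, h2⟩ := h
    have e : (sb (l ++ [b])).2 = (sb l).2 + xb b := by
      rw [sb_append, sb_single]
      rfl
    rw [e]
    push_cast
    exact h2.2

lemma Cf_len {n : ℕ} {bs : List (B L)} (h : bs ∈ Cf L n) : bs.length = n := by
  induction n generalizing bs with
  | zero =>
    have : bs = [] := h
    rw [this]
    rfl
  | succ n ih =>
    obtain ⟨l, b, rfl, h1, -⟩ := h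
    rw [List.length_append, ih h1]
    rfl

variable (L μ) in
/-- the weighted mass of the confined sequences -/
noncomputable def Ph (n : ℕ) : ℝ≥0∞ :=
  ∑' l : Cf L n, ws μ l.1 * ENNReal.ofReal (Real.cos (lam n * ((sb l.1).2 : ℤ)))

lemma Ph_zero : Ph L μ 0 = 1 := by
  unfold Ph
  have e : ∀ l : Cf L 0, l.1 = [] := fun l => l.2
  have : Unique (Cf L 0) := ⟨⟨⟨[], rfl⟩⟩, fun l => Subtype.ext (e l)⟩
  rw [tsum_eq_single default (fun l hl => absurd (Unique.eq_default l) hl)]
  rw [e default, sb_nil]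
  simp [ws]

lemma Ph_step (F : Fct L μ) (n : ℕ) : Ph L μ n * ENNReal.ofReal (th F n) ≤ Ph L μ (n + 1) := by
  classical
  let f : (Σ l : Cf L n, {b : B L // ok n (sb l.1).2 b}) → Cf L (n + 1) := fun p =>
    ⟨p.1.1 ++ [p.2.1], p.1.1, p.2.1, rfl, p.1.2, p.2.2⟩
  have hf : Function.Injective f := by
    rintro ⟨⟨l, hl⟩, ⟨b, hb⟩⟩ ⟨⟨l', hl'⟩, ⟨b', hb'⟩⟩ h
    have h1 : l ++ [b] = l' ++ [b'] := congrArg Subtype.val h
    have h2 := List.append_inj' h1 rfl
    obtain ⟨rfl, h3⟩ := h2
    have h4 : b = b' := by simpa using h3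
    subst h4
    rfl
  have h1 := ENNReal.tsum_comp_le_tsum_of_injective hf fun l : Cf L (n + 1) =>
    ws μ l.1 * ENNReal.ofReal (Real.cos (lam (n + 1) * ((sb l.1).2 : ℤ)))
  refine le_trans ?_ h1
  rw [ENNReal.tsum_sigma']
  unfold Ph
  rw [← ENNReal.tsum_mul_right]
  refine ENNReal.tsum_le_tsum fun l => ?_
  rw [mul_assoc]
  have h2 : ∀ b : {b : B L // ok n (sb l.1).2 b},
      ws μ (f ⟨l, b⟩).1 * ENNReal.ofReal (Real.cos (lam (n + 1) * ((sb (f ⟨l, b⟩).1).2 : ℤ))) =
      ws μ l.1 * inn μ n (sb l.1).2 b.1 := by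
    intro b
    have e : (sb (l.1 ++ [b.1])).2 = (sb l.1).2 + xb b.1 := by
      rw [sb_append, sb_single]
      rfl
    show ws μ (l.1 ++ [b.1]) * ENNReal.ofReal (Real.cos (lam (n + 1) * ((sb (l.1 ++ [b.1])).2 : ℤ)))
      = _
    rw [e, ws_append, ws_single, mul_assoc]
    unfold inn
    rw [if_pos b.2]
  simp only [h2]
  rw [ENNReal.tsum_mul_left]
  refine mul_le_mul' le_rfl ?_
  refine (inn_ge F (Cf_end l.2)).trans ?_
  rw [← tsum_subtype_eq_of_support_subset (s := {b : B L | ok n (sb l.1).2 b})]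
  · exact le_rfl
  · intro b hb
    rw [Function.mem_support] at hb
    by_contra h3
    apply hb
    unfold inn
    exact if_neg h3

lemma Ph_ge (F : Fct L μ) (n : ℕ) : ENNReal.ofReal
    (Real.exp (-((2 + 2 * Real.log μ) * ∑ i ∈ Finset.range n, err F i))) ≤ Ph L μ n := by
  induction n with
  | zero =>
    rw [Ph_zero]
    simp
  | succ n ih =>
    refine le_trans (le_of_eq ?_) ((mul_le_mul' ih le_rfl).trans (Ph_step F n))
    unfold th
    rw [← ENNReal.ofReal_mul (Real.exp_pos _).le, ← Real.exp_add, Finset.sum_range_succ]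
    congr 2
    ring

/-- the mass of the confined sequences -/
lemma Wt_Cf (F : Fct L μ) (n : ℕ) : ENNReal.ofReal
    (Real.exp (-((2 + 2 * Real.log μ) * ∑ i ∈ Finset.range n, err F i))) ≤ Wt μ (Cf L n) := by
  refine (Ph_ge F n).trans ?_
  unfold Ph Wt
  refine ENNReal.tsum_le_tsum fun l => ?_
  calc ws μ l.1 * ENNReal.ofReal (Real.cos (lam n * ((sb l.1).2 : ℤ))) ≤ ws μ l.1 * 1 := by
        refine mul_le_mul' le_rfl ?_
        rw [ENNReal.ofReal_le_one]
        exact Real.cos_le_one _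
    _ = ws μ l.1 := mul_one _

lemma en_sum1 {D N : ℕ} (h : N ≤ 32 * D - 32) : ∑ n ∈ Finset.range N, en n D ≤ N := by
  calc ∑ n ∈ Finset.range N, en n D ≤ ∑ _n ∈ Finset.range N, (1 : ℝ) :=
        Finset.sum_le_sum fun n _ => en_le n D
    _ = N := by simp

lemma en_sum2 {D : ℕ} (hD : 1 ≤ D) (k : ℕ) : ∑ n ∈ Finset.range (32 * D - 32 + k), en n D ≤
    (32 * D - 32 : ℝ) + 320 * (D : ℝ) ^ 2 * (1 / (32 * D - 1) - 1 / (32 * D - 1 + k)) := by
  have hD' : (1 : ℝ) ≤ D := by exact_mod_cast hD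
  induction k with
  | zero =>
    have h1 := en_sum1 (D := D) (N := 32 * D - 32) le_rfl
    rw [Nat.cast_sub (by omega)] at h1
    push_cast at h1 ⊢
    simp only [add_zero, sub_self, mul_zero]
    simpa using h1
  | succ k ih =>
    rw [← add_assoc, Finset.sum_range_succ]
    have h1 : en (32 * D - 32 + k) D ≤ 320 * (D : ℝ) ^ 2 *
        (1 / (32 * D - 1 + k) - 1 / (32 * D - 1 + (k + 1 : ℕ))) := by
      unfold en
      rw [if_pos (by omega)]
      have e : ((32 * D - 32 + k : ℕ) : ℝ) + 32 = 32 * D + k := by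
        rw [Nat.cast_add, Nat.cast_sub (by omega)]
        push_cast
        ring
      have e2 : 320 * (D : ℝ) ^ 2 / (32 * D + k) ^ 2 =
          320 * (D : ℝ) ^ 2 * (1 / (32 * D + k) ^ 2) := by ring
      rw [e, e2]
      refine mul_le_mul_of_nonneg_left ?_ (by positivity)
      have h2 : (0 : ℝ) ≤ k := Nat.cast_nonneg k
      have h3 : (0 : ℝ) < 32 * D - 1 + k := by linarith
      have h4 : (0 : ℝ) < 32 * D - 1 + ((k + 1 : ℕ) : ℝ) := by
        push_cast
        linarith
      have h5 : (0 : ℝ) < (32 * (D : ℝ) + k) ^ 2 := by positivity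
      rw [div_sub_div _ _ h3.ne' h4.ne', div_le_div_iff₀ h5 (mul_pos h3 h4)]
      push_cast
      nlinarith
    have h2 := add_le_add ih h1
    refine h2.trans (le_of_eq ?_)
    push_cast
    ring

lemma en_sum {D N : ℕ} (hD : 1 ≤ D) : ∑ n ∈ Finset.range N, en n D ≤ 52 * (min D N : ℕ) := by
  have hD' : (1 : ℝ) ≤ D := by exact_mod_cast hD
  by_cases h : N ≤ 32 * D - 32
  · have h1 := en_sum1 h
    have h2 : N ≤ 52 * min D N := by
      rcases le_total D N with h3 | h3
      · rw [min_eq_left h3]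
        omega
      · rw [min_eq_right h3]
        omega
    refine h1.trans ?_
    exact_mod_cast h2
  · obtain ⟨k, rfl⟩ := Nat.exists_eq_add_of_le (show 32 * D - 32 ≤ N by omega)
    have h1 := en_sum2 hD k
    have h2 : min D (32 * D - 32 + k) = D := min_eq_left (by omega)
    rw [h2]
    refine h1.trans ?_
    have h3 : (0 : ℝ) ≤ 1 / (32 * D - 1 + k) := by
      have : (0 : ℝ) < 32 * D - 1 + k := by
        have : (0 : ℝ) ≤ k := Nat.cast_nonneg k
        linarith
      positivity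
    have h4 : 320 * (D : ℝ) ^ 2 * (1 / (32 * D - 1)) ≤ 11 * D := by
      rw [mul_one_div, div_le_iff₀ (by linarith)]
      nlinarith
    have h5 : 320 * (D : ℝ) ^ 2 * (1 / (32 * D - 1) - 1 / (32 * D - 1 + k)) ≤
        320 * (D : ℝ) ^ 2 * (1 / (32 * D - 1)) :=
      mul_le_mul_of_nonneg_left (by linarith) (by positivity)
    linarith

/-- the truncated mean of the size -/
noncomputable def mt (F : Fct L μ) (N : ℕ) : ℝ := ∫ b, ((min (sz b) N : ℕ) : ℝ) ∂(nu F)

lemma mt_int (F : Fct L μ) (N : ℕ) : Integrable (fun b => ((min (sz b) N : ℕ) : ℝ)) (nu F) :=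
  int_bdd F N fun b => by
    rw [abs_of_nonneg (by positivity)]
    exact_mod_cast min_le_right _ _

lemma err_sum (F : Fct L μ) (N : ℕ) : ∑ i ∈ Finset.range N, err F i ≤ 52 * mt F N := by
  unfold err mt
  rw [← integral_finsetSum _ fun i _ => int_bdd F 1 fun b => en_abs i _, ← integral_const_mul]
  refine integral_mono (integrable_finsetSum _ fun i _ => int_bdd F 1 fun b => en_abs i _)
    ((mt_int F N).const_mul 52) fun b => ?_
  exact en_sum (one_le_sz b)

/-- **The mass of the confined sequences of `n` blocks.** -/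
theorem Cf_mass (F : Fct L μ) (n : ℕ) : ENNReal.ofReal
    (Real.exp (-(104 * (1 + Real.log μ) * mt F n))) ≤ Wt μ (Cf L n) := by
  refine le_trans (ENNReal.ofReal_le_ofReal ?_) (Wt_Cf F n)
  rw [Real.exp_le_exp]
  have h1 := err_sum F n
  have hl : 0 ≤ Real.log μ := Real.log_nonneg F.one
  nlinarith

end H982.DN
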