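import Pool.Agent.H982.DN12

/-!
# The truncated mean of the size of an irreducible bridge is at least logarithmic
-/

set_option autoImplicit false
set_option linter.unusedSectionVars false

namespace H982.DN

open MeasureTheory ProbabilityTheory Filter Topology
open Pool.Agent.Q234.HS (Saw Br Half Cut N)
open scoped ENNReal

variable {V : Type} [AddCommGroup V] [Countable V] {L : Lat V} {μ : ℝ}

lemma Cf_split {n : ℕ} {bs l r : List (B L)} {b : B L} (h : bs ∈ Cf L n) (e : bs = l ++ b :: r) :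
    16 * |(sb l).2| ≤ (l.length : ℤ) + 32 ∧ 32 * sz b ≤ l.length + 32 := by
  induction n generalizing bs l r b with
  | zero =>
    have h1 : bs = [] := h
    rw [h1] at e
    have := congrArg List.length e
    simp at this
  | succ n ih =>
    obtain ⟨l0, b0, rfl, h1, h2⟩ := h
    rcases app_case e with ⟨r', h3, -⟩ | ⟨l', rfl, h3⟩
    · exact ih h1 h3
    · cases l' with
      | nil =>
        rw [List.nil_append] at h3
        obtain ⟨rfl, -⟩ := List.cons.inj h3
        rw [List.append_nil, Cf_len h1]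
        exact ⟨Cf_end h1, h2.1⟩
      | cons z t =>
        exfalso
        have := congrArg List.length h3
        simp at this

lemma Cf_height {n : ℕ} {bs : List (B L)} (h : bs ∈ Cf L n) :
    32 * (sb bs).1 ≤ (n : ℤ) * (n + 32) := by
  induction n generalizing bs with
  | zero =>
    have h1 : bs = [] := h
    rw [h1, sb_nil]
    simp
  | succ n ih =>
    obtain ⟨l, b, rfl, h1, h2⟩ := h
    have h3 := ih h1
    have h4 : (la L (bl b)).1 ≤ sz b := by
      have := (le_ra (L := L) (List.prefix_refl (bl b))).1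
      have h5 : (la L (bl b)).1 = L.l (bl b).sum := rfl
      unfold sz
      omega
    rw [sb_append, sb_single, Prod.fst_add]
    have h5 := h2.1
    have h6 : (32 : ℤ) * sz b ≤ n + 32 := by exact_mod_cast h5
    push_cast
    nlinarith

lemma wd_le_sz (b : B L) : wd L (bl b) ≤ sz b := wd_le_ra (bl b)

lemma fK_two {n : ℕ} {bs bs' : List (B L)} (h : bs ∈ Cf L n) (h' : bs' ∈ Cf L n) :
    fK (2 * ((16 : ℕ) : ℤ)) (bs ++ bs'.reverse) := by
  intro l b r e
  have hw := wd_le_sz b
  rcases app_case e with ⟨r', h1, -⟩ | ⟨l', rfl, h1⟩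
  · obtain ⟨h2, h3⟩ := Cf_split h h1
    have h4 := sb_len l
    push_cast
    omega
  · have h2 : bs' = r.reverse ++ b :: l'.reverse := by
      rw [← List.reverse_reverse bs', h1]
      simp
    obtain ⟨h3, h4⟩ := Cf_split h' h2
    have h5 := Cf_end h
    have h6 := Cf_end h'
    have h7 : (sb bs').2 = (sb r).2 + ((la L (bl b)).2 + (sb l').2) := by
      rw [h2, sb_append, sb_cons, sb_rev, sb_rev]
      rfl
    have h8 := sb_len (bs ++ l')
    have h9 := congrArg List.length h2
    rw [Cf_len h', List.length_append, List.length_cons, List.length_reverse,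
      List.length_reverse] at h9
    rw [List.length_append, Cf_len h] at h8
    rw [List.length_reverse] at h3 h4
    rw [sb_rev] at h3
    have h10 := abs_le.1 (xb_le' b)
    have h11 : xb b = (la L (bl b)).2 := rfl
    rw [sb_append] at h8 ⊢
    simp only [Prod.fst_add, Prod.snd_add] at h8 ⊢
    rw [h11] at h10
    have k1 := abs_le.1 (show |(sb bs).2| ≤ |(sb bs).2| from le_rfl)
    have k2 := abs_le.1 (show |(sb bs').2| ≤ |(sb bs').2| from le_rfl)
    have k3 := abs_le.1 (show |(sb r).2| ≤ |(sb r).2| from le_rfl)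
    have k4 : |(sb bs).2 + (sb l').2| ≤
        |(sb bs).2| + |(sb bs').2| + |(sb r).2| + sz b := by
      rw [abs_le]
      constructor <;> omega
    push_cast at h8 ⊢
    omega

/-- the word of two confined sequences -/
def wo (bs bs' : List (B L)) : List V :=
  ((ex (2 * 16) (bs ++ bs'.reverse)).map bl).flatten

lemma wo_cb {n : ℕ} {bs bs' : List (B L)} (h : bs ∈ Cf L n) (h' : bs' ∈ Cf L n) :
    CB L (1 / 2) (wo bs bs') := by
  have hf : fwd L ((ex (2 * 16) (bs ++ bs'.reverse)).map bl) := ex_fwd (fK_two h h')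
  have hb : bwd L ((ex (2 * 16) (bs ++ bs'.reverse)).map bl) := by
    refine ex_bwd (bK_rev.2 ?_)
    rw [List.reverse_append, List.reverse_reverse]
    exact fK_two h' h
  refine ⟨flat_st (all_blk _), flat_br (all_blk _), fun u hu => ?_, fun u hu => ?_⟩
  · have h1 := fwd_cone (all_blk _) hf hu
    have h2 : (2 : ℝ) * |(L.k u.sum : ℝ)| ≤ L.l u.sum := by exact_mod_cast h1
    linarith
  · have h1 := bwd_cone (all_blk _) hb hu
    have h2 : (2 : ℝ) * |(L.k u.sum : ℝ)| ≤ L.l u.sum := by exact_mod_cast h1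
    linarith

lemma wo_height {bs bs' : List (B L)} :
    L.l (wo bs bs').sum = 64 + (sb bs).1 + (sb bs').1 := by
  have h1 : L.l (wo bs bs').sum = (sb (ex (2 * 16) (bs ++ bs'.reverse))).1 :=
    congrArg Prod.fst (la_flat (L := L) ((ex (2 * 16) (bs ++ bs'.reverse)).map bl))
  rw [h1]
  unfold ex
  rw [sb_append, sb_append, sb_append, sb_rep, sb_rev]
  simp only [Prod.fst_add]
  push_cast
  ring

lemma wo_weight (F : Fct L μ) (bs bs' : List (B L)) :
    ENNReal.ofReal ((μ ^ (wo bs bs').length)⁻¹) = wt μ (e1 L) ^ 64 * (ws μ bs * ws μ bs') := by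
  unfold wo
  rw [← ws_eq F]
  unfold ex
  rw [ws_append, ws_append, ws_append, ws_rep, ws_rev]
  ring

lemma wo_inj {n n' : ℕ} {bs bs' cs cs' : List (B L)} (h1 : bs ∈ Cf L n) (h2 : bs' ∈ Cf L n)
    (h3 : cs ∈ Cf L n') (h4 : cs' ∈ Cf L n') (e : wo bs bs' = wo cs cs') :
    n = n' ∧ bs = cs ∧ bs' = cs' := by
  have e1 := flat_inj (all_blk _) (all_blk _) e
  have e2 := ex_inj _ (map_bl_inj e1)
  have e3 := congrArg List.length e2
  rw [List.length_append, List.length_append, List.length_reverse, List.length_reverse, Cf_len h1,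
    Cf_len h2, Cf_len h3, Cf_len h4] at e3
  have e4 : n = n' := by omega
  subst e4
  have e5 := List.append_inj e2 (by rw [Cf_len h1, Cf_len h3])
  exact ⟨rfl, e5.1, List.reverse_injective e5.2⟩

/-- the mass of the cone bridges with a height below `(4/3)^j` -/
lemma cone_total (F : Fct L μ) (hd : ∀ a ∈ L.S, 0 < dg L a → dg L a = 1) (j : ℕ)
    (A : Finset (List V)) (hA : ∀ w ∈ A, CB L (1 / 2) w ∧ 1 ≤ L.l w.sum ∧
      (L.l w.sum : ℝ) < (4 / 3) ^ j) : ∑ w ∈ A, (μ ^ w.length)⁻¹ ≤ j := by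
  classical
  induction j generalizing A with
  | zero =>
    have : A = ∅ := by
      rw [Finset.eq_empty_iff_forall_notMem]
      intro w hw
      obtain ⟨-, h1, h2⟩ := hA w hw
      have h3 : (1 : ℝ) ≤ L.l w.sum := by exact_mod_cast h1
      rw [pow_zero] at h2
      linarith
    rw [this]
    simp
  | succ j ih =>
    rw [← Finset.sum_filter_add_sum_filter_not A (fun w => (L.l w.sum : ℝ) < (4 / 3) ^ j)]
    have h1 := ih (A.filter fun w => (L.l w.sum : ℝ) < (4 / 3) ^ j) (by
      intro w hw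
      rw [Finset.mem_filter] at hw
      exact ⟨(hA w hw.1).1, (hA w hw.1).2.1, hw.2⟩)
    have h2 := cone_mass F.pos (diag_le L hd F) (α := 1 / 2) (ρ := 4 / 3) (K := (4 / 3) ^ j)
      ⟨by norm_num, by norm_num, by norm_num, by norm_num, by positivity⟩
      (A.filter fun w => ¬ (L.l w.sum : ℝ) < (4 / 3) ^ j) (by
        intro w hw
        rw [Finset.mem_filter, not_lt] at hw
        refine ⟨(hA w hw.1).1, hw.2, ?_⟩
        have := (hA w hw.1).2.2
        rw [pow_succ] at this
        linarith)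
    push_cast
    linarith

lemma mt_mono (F : Fct L μ) {N N' : ℕ} (h : N ≤ N') : mt F N ≤ mt F N' := by
  unfold mt
  refine integral_mono (mt_int F N) (mt_int F N') fun b => ?_
  have : min (sz b) N ≤ min (sz b) N' := min_le_min le_rfl h
  exact Nat.cast_le.2 this

lemma one_le_mt (F : Fct L μ) {N : ℕ} (h : 1 ≤ N) : 1 ≤ mt F N := by
  have h1 : (1 : ℝ) = ∫ _b : B L, (1 : ℝ) ∂(nu F) := by simp
  rw [h1]
  unfold mt
  refine integral_mono (integrable_const _) (mt_int F N) fun b => ?_
  have : 1 ≤ min (sz b) N := le_min (one_le_sz b) h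
  exact Nat.one_le_cast.2 this

/-- the main inequality -/
lemma main_ineq (F : Fct L μ) (hd : ∀ a ∈ L.S, 0 < dg L a → dg L a = 1) {R j : ℕ} (hR : 1 ≤ R)
    (hj : 69 * (R : ℝ) ^ 2 < (4 / 3) ^ j) :
    R * (μ⁻¹ ^ 64 * Real.exp (-(208 * (1 + Real.log μ) * mt F (2 * R)))) ≤ j := by
  classical
  have hμ := F.pos
  have hl : 0 ≤ Real.log μ := Real.log_nonneg F.one
  let f : (Σ n : Finset.Ico R (2 * R), Cf L n × Cf L n) → List V := fun p => wo p.2.1.1 p.2.2.1
  have hf : Function.Injective f := by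
    rintro ⟨⟨n, hn⟩, ⟨⟨a, ha⟩, ⟨b, hb⟩⟩⟩ ⟨⟨n', hn'⟩, ⟨⟨a', ha'⟩, ⟨b', hb'⟩⟩⟩ e
    obtain ⟨rfl, rfl, rfl⟩ := wo_inj ha hb ha' hb' e
    rfl
  have hup : ∑' p, ENNReal.ofReal ((μ ^ (f p).length)⁻¹) ≤ (j : ℝ≥0∞) := by
    rw [ENNReal.tsum_eq_iSup_sum]
    refine iSup_le fun s => ?_
    rw [← ENNReal.ofReal_sum_of_nonneg fun x _ => by positivity]
    have h1 := cone_total F hd j (s.image f) (by
      intro w hw
      rw [Finset.mem_image] at hw
      obtain ⟨⟨⟨n, hn⟩, ⟨⟨a, ha⟩, ⟨b, hb⟩⟩⟩, -, rfl⟩ := hw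
      rw [Finset.mem_Ico] at hn
      have h1 := Cf_height ha
      have h2 := Cf_height hb
      have h3 := sb_len a
      have h4 := sb_len b
      have h5 : L.l (wo a b).sum = 64 + (sb a).1 + (sb b).1 := wo_height
      refine ⟨wo_cb ha hb, ?_, ?_⟩
      · show 1 ≤ L.l (wo a b).sum
        omega
      · show (L.l (wo a b).sum : ℝ) < _
        refine lt_of_le_of_lt ?_ hj
        have h6 : (n : ℤ) * (n + 32) ≤ (2 * R) * (2 * R + 32) := by
          have : (n : ℤ) ≤ 2 * R := by omega
          have : (0 : ℤ) ≤ n := by omega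
          nlinarith
        have h7 : 32 * L.l (wo a b).sum ≤ 32 * 64 + 2 * ((2 * R) * (2 * R + 32)) := by
          rw [h5]
          linarith
        have h8 : (32 : ℝ) * L.l (wo a b).sum ≤ 32 * 64 + 2 * ((2 * R) * (2 * R + 32)) := by
          exact_mod_cast h7
        have h9 : (1 : ℝ) ≤ R := by exact_mod_cast hR
        nlinarith)
    rw [Finset.sum_image fun x _ y _ hxy => hf hxy] at h1
    calc ENNReal.ofReal (∑ i ∈ s, (μ ^ (f i).length)⁻¹) ≤ ENNReal.ofReal (j : ℝ) :=
          ENNReal.ofReal_le_ofReal h1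
      _ = j := ENNReal.ofReal_natCast j
  have hlow : (R : ℝ≥0∞) * (wt μ (e1 L) ^ 64 *
      (ENNReal.ofReal (Real.exp (-(104 * (1 + Real.log μ) * mt F (2 * R)))) *
        ENNReal.ofReal (Real.exp (-(104 * (1 + Real.log μ) * mt F (2 * R)))))) ≤
      ∑' p, ENNReal.ofReal ((μ ^ (f p).length)⁻¹) := by
    rw [ENNReal.tsum_sigma', tsum_fintype]
    have hs : (R : ℝ≥0∞) * (wt μ (e1 L) ^ 64 *
      (ENNReal.ofReal (Real.exp (-(104 * (1 + Real.log μ) * mt F (2 * R)))) *
        ENNReal.ofReal (Real.exp (-(104 * (1 + Real.log μ) * mt F (2 * R)))))) =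
        ∑ _n : Finset.Ico R (2 * R), (wt μ (e1 L) ^ 64 *
      (ENNReal.ofReal (Real.exp (-(104 * (1 + Real.log μ) * mt F (2 * R)))) *
        ENNReal.ofReal (Real.exp (-(104 * (1 + Real.log μ) * mt F (2 * R)))))) := by
      rw [Finset.sum_const, nsmul_eq_mul, Finset.card_univ, Fintype.card_coe, Nat.card_Ico]
      congr 2
      omega
    rw [hs]
    refine Finset.sum_le_sum fun n _ => ?_
    obtain ⟨n, hn⟩ := n
    rw [Finset.mem_Ico] at hn
    have hm : ENNReal.ofReal (Real.exp (-(104 * (1 + Real.log μ) * mt F (2 * R)))) ≤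
        Wt μ (Cf L n) := by
      refine le_trans (ENNReal.ofReal_le_ofReal ?_) (Cf_mass F n)
      rw [Real.exp_le_exp]
      have := mt_mono F (show n ≤ 2 * R by omega)
      have h1 : 0 ≤ 104 * (1 + Real.log μ) := by positivity
      have h2 := mul_le_mul_of_nonneg_left this h1
      linarith
    rw [ENNReal.tsum_prod']
    have e1 : ∀ a b : Cf L n, ENNReal.ofReal ((μ ^ (f ⟨⟨n, Finset.mem_Ico.2 hn⟩, (a, b)⟩).length)⁻¹) =
        wt μ (e1 L) ^ 64 * (ws μ a.1 * ws μ b.1) := fun a b => wo_weight F a.1 b.1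
    simp only [e1]
    simp only [ENNReal.tsum_mul_left, ENNReal.tsum_mul_right]
    exact mul_le_mul' le_rfl (mul_le_mul' hm hm)
  have h1 := hlow.trans hup
  have h2 : wt μ (e1 L) = ENNReal.ofReal μ⁻¹ := by
    unfold wt
    have e : (bl (e1 L)).length = 1 := rfl
    rw [e, pow_one]
  rw [h2, ← ENNReal.ofReal_pow (by positivity), ← ENNReal.ofReal_mul (Real.exp_pos _).le,
    ← ENNReal.ofReal_mul (by positivity), ← ENNReal.ofReal_natCast R,
    ← ENNReal.ofReal_mul (by positivity), ← ENNReal.ofReal_natCast j,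
    ENNReal.ofReal_le_ofReal_iff (by positivity), ← Real.exp_add] at h1
  refine le_trans (le_of_eq ?_) h1
  congr 4
  ring

end H982.DN
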