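import Pool.Agent.H982.DN13

/-!
# The truncated mean of the size is at least `c log R`
-/

set_option autoImplicit false
set_option linter.unusedSectionVars false

namespace H982.DN

open MeasureTheory ProbabilityTheory Filter Topology
open scoped ENNReal

variable {V : Type} [AddCommGroup V] [Countable V] {L : Lat V} {μ : ℝ}

lemma exp_five : (69 : ℝ) < Real.exp 5 := by
  have h1 := Real.exp_one_gt_d9
  have h2 : Real.exp 5 = Real.exp 1 ^ 5 := by
    rw [← Real.exp_nat_mul]
    norm_num
  rw [h2]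
  calc (69 : ℝ) < 2.7 ^ 5 := by norm_num
    _ ≤ Real.exp 1 ^ 5 := pow_le_pow_left₀ (by norm_num) (by linarith) 5

lemma quarter : (1 : ℝ) / 4 ≤ Real.log (4 / 3) := by
  have := Real.one_sub_inv_le_log_of_pos (show (0 : ℝ) < 4 / 3 by norm_num)
  norm_num at this ⊢
  linarith

lemma choose_j {R : ℕ} (hR : 1 ≤ R) : ∃ j : ℕ, 69 * (R : ℝ) ^ 2 < (4 / 3) ^ j ∧
    (j : ℝ) ≤ 21 * √R := by
  have hR' : (1 : ℝ) ≤ R := by exact_mod_cast hR
  have hR0 : (0 : ℝ) < R := by linarith
  have hl : 0 ≤ Real.log R := Real.log_nonneg hR'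
  refine ⟨⌈8 * Real.log R + 20⌉₊, ?_, ?_⟩
  · have h1 := Nat.le_ceil (8 * Real.log R + 20)
    set j := ⌈8 * Real.log R + 20⌉₊
    have h2 : Real.exp (2 * Real.log R + 5) ≤ (4 / 3) ^ j := by
      rw [← Real.exp_log (show (0 : ℝ) < (4 / 3) ^ j by positivity), Real.exp_le_exp, Real.log_pow]
      have h3 := quarter
      have h4 : (j : ℝ) * (1 / 4) ≤ j * Real.log (4 / 3) :=
        mul_le_mul_of_nonneg_left h3 (Nat.cast_nonneg j)
      linarith
    refine lt_of_lt_of_le ?_ h2
    have h3 : Real.exp (2 * Real.log R) = (R : ℝ) ^ 2 := by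
      rw [two_mul, Real.exp_add, Real.exp_log hR0]
      ring
    rw [Real.exp_add, h3, mul_comm]
    exact mul_lt_mul_of_pos_left exp_five (by positivity)
  · have h1 := (Nat.ceil_lt_add_one (show 0 ≤ 8 * Real.log R + 20 by positivity)).le
    have hs : 1 ≤ √(R : ℝ) := by
      rw [Real.one_le_sqrt]
      exact hR'
    have h2 : Real.log R ≤ 2 * (√R - 1) := by
      have h3 := Real.log_le_sub_one_of_pos (show 0 < √(R : ℝ) by linarith)
      have h4 : Real.log R = 2 * Real.log (√R) := by
        rw [Real.log_sqrt hR0.le]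
        ring
      linarith
    linarith

theorem mt_log (F : Fct L μ) (hd : ∀ a ∈ L.S, 0 < dg L a → dg L a = 1) :
    ∃ c : ℝ, 0 < c ∧ ∀ N : ℕ, 1 ≤ N → c * Real.log N ≤ mt F N := by
  have hμ := F.pos
  have hl : 0 ≤ Real.log μ := Real.log_nonneg F.one
  set a := 208 * (1 + Real.log μ) with ha
  have ha0 : 0 < a := by positivity
  have key : ∀ R : ℕ, 1 ≤ R →
      1 / 2 * Real.log R - (64 * Real.log μ + Real.log 21) ≤ a * mt F (2 * R) := by
    intro R hR
    have hR' : (1 : ℝ) ≤ R := by exact_mod_cast hR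
    have hR0 : (0 : ℝ) < R := by linarith
    obtain ⟨j, h1, h2⟩ := choose_j hR
    have h3 := (main_ineq F hd hR h1).trans h2
    have hs : 0 < √(R : ℝ) := Real.sqrt_pos.2 hR0
    have h4 := Real.log_le_log (by positivity) h3
    rw [Real.log_mul hR0.ne' (by positivity), Real.log_mul (by positivity) (by positivity),
      Real.log_exp, Real.log_pow, Real.log_inv, Real.log_mul (by norm_num) hs.ne',
      Real.log_sqrt hR0.le] at h4
    push_cast at h4
    linarith
  set b := 64 * Real.log μ + Real.log 21 + Real.log 3 with hb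
  have hb0 : 0 ≤ b := by
    have h1 := Real.log_nonneg (show (1 : ℝ) ≤ 21 by norm_num)
    have h2 := Real.log_nonneg (show (1 : ℝ) ≤ 3 by norm_num)
    positivity
  refine ⟨1 / (2 * (a + b)), by positivity, fun N hN => ?_⟩
  have hm := one_le_mt F hN
  have h1 : 1 / 2 * Real.log N ≤ a * mt F N + b := by
    by_cases h : N = 1
    · rw [h]
      have h2 : (0 : ℝ) ≤ a * mt F 1 := by
        have := one_le_mt F (le_refl 1)
        positivity
      simp
      linarith
    · have hR : 1 ≤ N / 2 := by omega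
      have h2 := key (N / 2) hR
      have h3 := mt_mono F (show 2 * (N / 2) ≤ N by omega)
      have h4 : (N : ℝ) ≤ 3 * (N / 2 : ℕ) := by
        have : N ≤ 3 * (N / 2) := by omega
        exact_mod_cast this
      have hN0 : (0 : ℝ) < N := by
        have : 0 < N := by omega
        exact_mod_cast this
      have hR0 : (0 : ℝ) < (N / 2 : ℕ) := by exact_mod_cast hR
      have h5 := Real.log_le_log hN0 h4
      rw [Real.log_mul (by norm_num) hR0.ne'] at h5
      have h6 := mul_le_mul_of_nonneg_left h3 ha0.le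
      have h7 := Real.log_nonneg (show (1 : ℝ) ≤ 3 by norm_num)
      linarith
  rw [div_mul_eq_mul_div, one_mul, div_le_iff₀ (by positivity)]
  nlinarith

lemma mt_tsum (F : Fct L μ) (N : ℕ) :
    ENNReal.ofReal (mt F N) = ∑' b : B L, wt μ b * ((min (sz b) N : ℕ) : ℝ≥0∞) := by
  unfold mt
  rw [ofReal_integral_eq_lintegral_ofReal (mt_int F N) (ae_of_all _ fun b => by positivity),
    lintegral_countable']
  refine tsum_congr fun b => ?_
  rw [nu_singleton, ENNReal.ofReal_natCast, mul_comm]

end H982.DN
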