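import Pool.Agent.H982.DN14

/-!
# The number of bridges
-/

set_option autoImplicit false
set_option linter.unusedSectionVars false

namespace H982.DN

open MeasureTheory ProbabilityTheory Filter Topology
open Pool.Agent.Q234.HS (Saw Br Half Cut N finite_W)
open scoped ENNReal

variable {V : Type} [AddCommGroup V] [Countable V] {L : Lat V} {μ : ℝ}

/-- the number of steps of a sequence of blocks -/
def ln (bs : List (B L)) : ℕ := (bs.map bl).flatten.length

lemma ln_nil : ln ([] : List (B L)) = 0 := rfl

lemma ln_append (a b : List (B L)) : ln (a ++ b) = ln a + ln b := by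
  unfold ln
  rw [List.map_append, List.flatten_append, List.length_append]

lemma ln_single (i : B L) : ln [i] = (bl i).length := by
  unfold ln
  simp

/-- existence of the factorisation of a bridge into irreducible bridges -/
lemma exists_fac (n : ℕ) : ∀ w : List V, w.length ≤ n → (∀ a ∈ w, a ∈ L.S) → Br L.l w →
    ∃ bs : List (B L), (bs.map bl).flatten = w := by
  induction n with
  | zero =>
    intro w hw _ _
    refine ⟨[], ?_⟩
    rw [List.length_eq_zero_iff.1 (Nat.le_zero.1 hw)]
    rfl
  | succ n ih =>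
    intro w hw hst hbr
    by_cases h0 : w = []
    · exact ⟨[], by rw [h0]; rfl⟩
    · obtain ⟨u, v, rfl, hu, hv⟩ := first_cut hst hbr h0
      have hul := List.length_pos_iff.2 hu.ne
      rw [List.length_append] at hw
      obtain ⟨bs, hbs⟩ := ih v (by omega) (fun a ha => hst a (List.mem_append_right _ ha)) hv
      refine ⟨(⟨u, hu⟩ : B L) :: bs, ?_⟩
      show u ++ (List.map bl bs).flatten = u ++ v
      rw [hbs]

variable (L μ) in
/-- the mass of the sequences of blocks with at most `m` steps -/
noncomputable def Um (m : ℕ) : ℝ≥0∞ := Wt μ {bs : List (B L) | ln bs ≤ m}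

lemma sum_br_le (F : Fct L μ) (m : ℕ) :
    ENNReal.ofReal (∑ k ∈ Finset.range (m + 1), (N L.S (Br L.l) k : ℝ) / μ ^ k) ≤ Um L μ m := by
  classical
  have hμ := F.pos
  have hfin : ∀ n, (Pool.Agent.Q234.HS.W L.S (Br L.l) n).Finite := fun n => finite_W L.fin _ n
  let G : Finset (List V) := (Finset.range (m + 1)).biUnion fun n => (hfin n).toFinset
  have hG : ∀ w ∈ G, w.length ≤ m ∧ (∀ a ∈ w, a ∈ L.S) ∧ Br L.l w := by
    intro w hw
    rw [Finset.mem_biUnion] at hw
    obtain ⟨n, hn, h⟩ := hw
    rw [Set.Finite.mem_toFinset] at h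
    rw [Finset.mem_range] at hn
    refine ⟨?_, h.2.1, h.2.2⟩
    have := h.1
    omega
  have e1 : ∑ k ∈ Finset.range (m + 1), (N L.S (Br L.l) k : ℝ) / μ ^ k =
      ∑ w ∈ G, (μ ^ w.length)⁻¹ := by
    rw [Finset.sum_biUnion]
    · refine Finset.sum_congr rfl fun n _ => ?_
      have e2 : ∑ w ∈ (hfin n).toFinset, (μ ^ w.length)⁻¹ =
          ∑ _w ∈ (hfin n).toFinset, (μ ^ n)⁻¹ := by
        refine Finset.sum_congr rfl fun w hw => ?_
        rw [Set.Finite.mem_toFinset] at hw
        rw [hw.1]
      rw [e2, Finset.sum_const, nsmul_eq_mul, ← Set.ncard_eq_toFinset_card _ (hfin n),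
        ← div_eq_mul_inv]
      rfl
    · intro n _ k _ hnk
      rw [Function.onFun, Finset.disjoint_left]
      intro w hw hw'
      rw [Set.Finite.mem_toFinset] at hw hw'
      exact hnk (hw.1.symm.trans hw'.1)
  rw [e1, ENNReal.ofReal_sum_of_nonneg fun x _ => by positivity]
  have hex : ∀ w : {w // w ∈ G}, ∃ bs : List (B L), (bs.map bl).flatten = w.1 := fun w =>
    exists_fac m w.1 (hG w.1 w.2).1 (hG w.1 w.2).2.1 (hG w.1 w.2).2.2
  choose g hg using hex
  let g' : {w // w ∈ G} → {bs : List (B L) | ln bs ≤ m} := fun w => ⟨g w, by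
    show ((g w).map bl).flatten.length ≤ m
    rw [hg]
    exact (hG w.1 w.2).1⟩
  have hi : Function.Injective g' := by
    intro a b hab
    have h1 : g a = g b := congrArg Subtype.val hab
    apply Subtype.ext
    rw [← hg a, ← hg b, h1]
  have e3 : ∑ w ∈ G, ENNReal.ofReal ((μ ^ w.length)⁻¹) =
      ∑' w : {w // w ∈ G}, ws μ (g' w).1 := by
    rw [tsum_fintype, ← Finset.sum_attach]
    refine Finset.sum_congr rfl fun w _ => ?_
    show _ = ws μ (g w)
    rw [ws_eq F, hg]
  rw [e3]
  unfold Um Wt
  exact ENNReal.tsum_comp_le_tsum_of_injective hi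
    fun bs : {bs : List (B L) | ln bs ≤ m} => ws μ bs.1

variable (L μ) in
/-- the tail of the number of steps of a block -/
noncomputable def tl (j : ℕ) : ℝ≥0∞ := ∑' i : B L, if j < (bl i).length then wt μ i else 0

lemma pf_ln {ω : ℕ → B L} {i j : ℕ} (h : i < j) :
    ln (pf ω i) + (bl (ω i)).length ≤ ln (pf ω j) := by
  induction j with
  | zero => omega
  | succ j ih =>
    rw [pf_succ, ln_append, ln_single]
    rcases Nat.lt_succ_iff_lt_or_eq.1 h with h1 | rfl
    · have := ih h1
      omega
    · omega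

/-- first passage above `m` -/
lemma passage (F : Fct L μ) (m : ℕ) :
    ∑' bs : {bs : List (B L) | ln bs ≤ m}, ws μ bs.1 * tl L μ (m - ln bs.1) ≤ 1 := by
  classical
  let I : Type := Σ bs : {bs : List (B L) | ln bs ≤ m}, {i : B L // m - ln bs.1 < (bl i).length}
  have h1 : ∑' p : I, PP F (cyl (p.1.1 ++ [p.2.1])) ≤ 1 := by
    rw [← measure_iUnion]
    · exact prob_le_one
    · rintro ⟨⟨bs, hbs⟩, ⟨i, hi⟩⟩ ⟨⟨cs, hcs⟩, ⟨k, hk⟩⟩ hne
      rw [Function.onFun, Set.disjoint_left]
      intro ω ha hb
      apply hne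
      rw [mem_cyl] at ha hb
      simp only [List.length_append, List.length_singleton] at ha hb
      rw [pf_succ] at ha hb
      obtain ⟨a1, a2⟩ := List.append_inj' ha rfl
      obtain ⟨b1, b2⟩ := List.append_inj' hb rfl
      have a3 : ω bs.length = i := by simpa using a2
      have b3 : ω cs.length = k := by simpa using b2
      have hbs' : ln bs ≤ m := hbs
      have hcs' : ln cs ≤ m := hcs
      have hlen : bs.length = cs.length := by
        rcases lt_trichotomy bs.length cs.length with hl | hl | hl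
        · exfalso
          have h2 := pf_ln (ω := ω) hl
          rw [a1, b1, a3] at h2
          simp only at hi
          omega
        · exact hl
        · exfalso
          have h2 := pf_ln (ω := ω) hl
          rw [a1, b1, b3] at h2
          simp only at hk
          omega
      have e1 : bs = cs := by rw [← a1, ← b1, hlen]
      subst e1
      have e2 : i = k := by rw [← a3, ← b3]
      subst e2
      rfl
    · intro p
      exact cyl_meas _
  refine le_trans (le_of_eq ?_) h1
  rw [ENNReal.tsum_sigma']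
  refine tsum_congr fun bs => ?_
  have h2 : ∀ i : {i : B L // m - ln bs.1 < (bl i).length},
      PP F (cyl (bs.1 ++ [i.1])) = ws μ bs.1 * wt μ i.1 := by
    intro i
    rw [cyl_mass, ws_append, ws_single]
  simp only [h2]
  rw [ENNReal.tsum_mul_left]
  congr 1
  unfold tl
  rw [← tsum_subtype_eq_of_support_subset (s := {i : B L | m - ln bs.1 < (bl i).length})]
  · refine tsum_congr fun i => ?_
    exact if_pos i.2
  · intro i hi
    rw [Function.mem_support] at hi
    by_contra h3
    exact hi (if_neg h3)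

lemma sum_tl (q : ℕ) : ∑ j ∈ Finset.range q, tl L μ j =
    ∑' i : B L, wt μ i * ((min (bl i).length q : ℕ) : ℝ≥0∞) := by
  unfold tl
  rw [← Summable.tsum_finsetSum fun _ _ => ENNReal.summable]
  refine tsum_congr fun i => ?_
  rw [← Finset.sum_filter, Finset.sum_const, nsmul_eq_mul, mul_comm]
  congr 2
  have e : (Finset.range q).filter (fun j => j < (bl i).length) =
      Finset.range (min (bl i).length q) := by
    ext j
    rw [Finset.mem_filter, Finset.mem_range, Finset.mem_range]
    omega
  rw [e, Finset.card_range]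

lemma Um_le (F : Fct L μ) (q : ℕ) :
    Um L μ q * ∑' i : B L, wt μ i * ((min (bl i).length q : ℕ) : ℝ≥0∞) ≤ (2 * q : ℕ) := by
  rw [← sum_tl]
  have h1 : ∑ m ∈ Finset.range (2 * q), ∑' bs : {bs : List (B L) | ln bs ≤ m},
      ws μ bs.1 * tl L μ (m - ln bs.1) ≤ ((2 * q : ℕ) : ℝ≥0∞) := by
    refine (Finset.sum_le_sum fun m _ => passage F m).trans ?_
    simp
  refine le_trans ?_ h1
  have h2 : ∀ m : ℕ, ∑' bs : {bs : List (B L) | ln bs ≤ m}, ws μ bs.1 * tl L μ (m - ln bs.1) =
      ∑' bs : List (B L), if ln bs ≤ m then ws μ bs * tl L μ (m - ln bs) else 0 := by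
    intro m
    rw [← tsum_subtype_eq_of_support_subset (s := {bs : List (B L) | ln bs ≤ m})]
    · refine tsum_congr fun bs => ?_
      exact (if_pos bs.2).symm
    · intro bs hbs
      rw [Function.mem_support] at hbs
      by_contra h3
      exact hbs (if_neg h3)
  simp only [h2]
  rw [← Summable.tsum_finsetSum fun _ _ => ENNReal.summable]
  have h3 : Um L μ q = ∑' bs : List (B L), if ln bs ≤ q then ws μ bs else 0 := by
    unfold Um Wt
    rw [← tsum_subtype_eq_of_support_subset (s := {bs : List (B L) | ln bs ≤ q})]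
    · refine tsum_congr fun bs => ?_
      exact (if_pos bs.2).symm
    · intro bs hbs
      rw [Function.mem_support] at hbs
      by_contra h3
      exact hbs (if_neg h3)
  rw [h3, ← ENNReal.tsum_mul_right]
  refine ENNReal.tsum_le_tsum fun bs => ?_
  by_cases hb : ln bs ≤ q
  · rw [if_pos hb, Finset.mul_sum]
    have h4 : ∑ j ∈ Finset.range q, ws μ bs * tl L μ j =
        ∑ m ∈ (Finset.range q).image (fun j => ln bs + j),
          (if ln bs ≤ m then ws μ bs * tl L μ (m - ln bs) else 0) := by
      rw [Finset.sum_image fun x _ y _ hxy => Nat.add_left_cancel hxy]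
      refine Finset.sum_congr rfl fun j _ => ?_
      rw [if_pos (Nat.le_add_right _ _), Nat.add_sub_cancel_left]
    rw [h4]
    refine Finset.sum_le_sum_of_subset ?_
    intro m hm
    rw [Finset.mem_image] at hm
    obtain ⟨j, hj, rfl⟩ := hm
    rw [Finset.mem_range] at hj ⊢
    omega
  · rw [if_neg hb, zero_mul]
    exact bot_le

lemma abs_l_le {a : V} (ha : a ∈ L.S) : |L.l a| ≤ 1 := by
  have h1 := L.one a ha
  have h2 := L.one (-a) (L.neg a ha)
  rw [map_neg] at h2
  rw [abs_le]
  constructor
  · by_contra h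
    rw [not_le] at h
    have := h2 (by omega)
    omega
  · by_contra h
    rw [not_le] at h
    have := h1 (by omega)
    omega

lemma abs_k_le {a : V} (ha : a ∈ L.S) : |L.k a| ≤ 1 := by
  rw [← L.sw_l]
  exact abs_l_le (L.swS a ha)

lemma sum_le_len {w : List V} (h : ∀ a ∈ w, a ∈ L.S) :
    |L.l w.sum| ≤ w.length ∧ |L.k w.sum| ≤ w.length := by
  induction w with
  | nil => simp
  | cons a w ih =>
    have h1 := ih fun b hb => h b (List.mem_cons_of_mem _ hb)
    have h2 := abs_l_le (h a List.mem_cons_self)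
    have h3 := abs_k_le (h a List.mem_cons_self)
    rw [List.sum_cons, map_add, map_add, List.length_cons]
    push_cast
    have h4 := abs_add_le (L.l a) (L.l w.sum)
    have h5 := abs_add_le (L.k a) (L.k w.sum)
    constructor <;> omega

lemma sz_le_len (b : B L) : sz b ≤ (bl b).length := by
  unfold sz
  refine ra_le_of fun u hu => ?_
  have h1 := sum_le_len (L := L) (w := u) fun a ha =>
    (bl_blk b).st a (hu.subset ha)
  have h2 := hu.length_le
  have h3 := abs_le.1 h1.1
  have h4 := abs_le.1 h1.2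
  clear h1
  refine max_le ?_ ?_ <;> omega

/-- **The number of bridges.** -/
theorem br_avg (F : Fct L μ) (hd : ∀ a ∈ L.S, 0 < dg L a → dg L a = 1) :
    ∃ C : ℝ, 0 < C ∧ ∀ n : ℕ, 2 ≤ n →
      ∑ k ∈ Finset.range (n + 1), (N L.S (Br L.l) k : ℝ) / μ ^ k ≤ C * n / Real.log n := by
  have hμ := F.pos
  obtain ⟨c, hc, h⟩ := mt_log F hd
  refine ⟨2 / c, by positivity, fun n hn => ?_⟩
  have hlog : 0 < Real.log n := Real.log_pos (by exact_mod_cast (by omega : 1 < n))
  have h1 := h n (by omega)
  set U := ∑ k ∈ Finset.range (n + 1), (N L.S (Br L.l) k : ℝ) / μ ^ k with hU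
  have hU0 : 0 ≤ U := Finset.sum_nonneg fun k _ => by positivity
  have h2 : ENNReal.ofReal (U * (c * Real.log n)) ≤ ((2 * n : ℕ) : ℝ≥0∞) := by
    rw [ENNReal.ofReal_mul hU0]
    refine le_trans (mul_le_mul' (sum_br_le F n) ?_) (Um_le F n)
    refine (ENNReal.ofReal_le_ofReal h1).trans ?_
    rw [mt_tsum]
    refine ENNReal.tsum_le_tsum fun b => mul_le_mul' le_rfl ?_
    exact Nat.cast_le.2 (min_le_min (sz_le_len b) le_rfl)
  rw [← ENNReal.ofReal_natCast, ENNReal.ofReal_le_ofReal_iff (by positivity)] at h2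
  push_cast at h2
  rw [le_div_iff₀ hlog, div_mul_eq_mul_div, le_div_iff₀ hc]
  linarith

end H982.DN
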