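import Pool.Agent.H982.DN15

/-!
# The lower bound of the number of walks
-/

set_option autoImplicit false
set_option linter.unusedSectionVars false

namespace H982.DN

open Filter Topology
open Pool.Agent.Q234.HS (Saw Br Half Cut N mkDat)

variable {V : Type} [AddCommGroup V] {L : Lat V} {μ : ℝ}

theorem saw_ge (F : Fct L μ) : ∀ n, μ ^ n ≤ (N L.S Saw n : ℝ) := by
  obtain ⟨μ', h1, h2, h3, D⟩ := mkDat L.fin L.neg L.l L.one L.he (by rw [L.le]; exact one_pos)
  have e : μ' = μ := tendsto_nhds_unique h2 F.lim
  subst e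
  exact h3

end H982.DN
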