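import Pool.Agent.H982.DN1

/-!
# Two turns
-/

set_option autoImplicit false
set_option linter.unusedSectionVars false

namespace H982.DN

open Pool.Agent.Q234.HS

variable {V : Type} [AddCommGroup V] {L : Lat V}

lemma map_sum (f : V ≃+ V) (w : List V) : (w.map f).sum = f w.sum := by
  induction w with
  | nil => simp
  | cons a w ih => rw [List.map_cons, List.sum_cons, List.sum_cons, ih, map_add]

lemma saw_map (f : V ≃+ V) {w : List V} (h : Saw w) : Saw (w.map f) := by
  intro u hu hn
  rw [List.infix_map_iff] at hn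
  obtain ⟨u', h1, rfl⟩ := hn
  rw [map_sum]
  have h2 : u' ≠ [] := by
    rintro rfl
    exact hu rfl
  intro h3
  exact h u' h2 h1 (by simpa using h3)

/-- a good triple of walks -/
structure Tri (L : Lat V) (M : ℤ) (a h b : List (List V)) : Prop where
  ba : ∀ β ∈ a, Blk L β
  bh : ∀ β ∈ h, Blk L β
  bb : ∀ β ∈ b, Blk L β
  ca : bwd L a
  fh : fwd L h
  ch : bwd L h
  fb : fwd L b
  ha : (sm L a).1 = M
  hw : 0 < (sm L h).1
  hw' : (sm L h).1 ≤ M
  hb : (sm L b).1 = 2 * M - (sm L h).2

variable (L) in
/-- the horizontal piece -/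
def hz (h : List (List V)) : List V := h.flatten.map L.sw

variable (L) in
/-- the walk with two turns -/
def W (a h b : List (List V)) : List V := (a.flatten ++ hz L h) ++ b.flatten

variable {M : ℤ} {a h b : List (List V)}

lemma Tri.la_a (T : Tri L M a h b) : L.l a.flatten.sum = M := by
  have := congrArg Prod.fst (la_flat (L := L) a)
  exact this.trans T.ha

lemma Tri.l_h (T : Tri L M a h b) : L.l (hz L h).sum = (sm L h).2 := by
  have := congrArg Prod.snd (la_flat (L := L) h)
  unfold hz
  rw [map_sum, L.sw_l]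
  exact this

lemma Tri.k_h (T : Tri L M a h b) : L.k (hz L h).sum = (sm L h).1 := by
  have := congrArg Prod.fst (la_flat (L := L) h)
  unfold hz
  rw [map_sum, L.sw_k]
  exact this

lemma Tri.l_b (T : Tri L M a h b) : L.l b.flatten.sum = 2 * M - (sm L h).2 := by
  have := congrArg Prod.fst (la_flat (L := L) b)
  exact this.trans T.hb

/-- prefixes of the horizontal piece -/
lemma Tri.pre_h (T : Tri L M a h b) {z : List V} (hz' : z <+: hz L h) :
    2 * |L.l z.sum| ≤ L.k z.sum ∧ L.k z.sum ≤ (sm L h).1 ∧ (z ≠ [] → 0 < L.k z.sum) := by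
  unfold hz at hz'
  rw [List.prefix_map_iff] at hz'
  obtain ⟨z', h1, rfl⟩ := hz'
  rw [map_sum, L.sw_l, L.sw_k]
  have hbr := flat_br T.bh
  refine ⟨fwd_cone T.bh T.fh h1, ?_, fun h0 => ?_⟩
  · obtain ⟨s, hs⟩ := h1
    have h2 := hbr.2 s ⟨z', hs⟩
    have h3 : L.l h.flatten.sum = (sm L h).1 := congrArg Prod.fst (la_flat (L := L) h)
    rw [← hs, List.sum_append, map_add] at h3
    omega
  · refine hbr.1.2 z' ?_ h1
    rintro rfl
    exact h0 rfl

lemma Tri.suf_h (T : Tri L M a h b) {z : List V} (hz' : z <:+ hz L h) :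
    2 * |L.l z.sum| ≤ L.k z.sum := by
  unfold hz at hz'
  rw [List.suffix_map_iff] at hz'
  obtain ⟨z', h1, rfl⟩ := hz'
  rw [map_sum, L.sw_l, L.sw_k]
  exact bwd_cone T.bh T.ch h1

lemma Tri.jw (T : Tri L M a h b) : 2 * |(sm L h).2| ≤ (sm L h).1 := by
  have h1 := (T.pre_h (List.prefix_refl _)).1
  rwa [T.l_h, T.k_h] at h1

lemma Tri.s1 (T : Tri L M a h b) : Saw (a.flatten ++ hz L h) := by
  intro x hx hxw
  rcases ifx_append_cases hxw with h1 | h1 | ⟨y, z, rfl, hy0, hz0, hy, hz1⟩
  · exact (flat_br T.ba).1.1 x hx h1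
  · exact saw_map L.sw (flat_br T.bh).1.1 x hx h1
  · intro h0
    have h2 := c2 (bwd_cone T.ba T.ca hy)
    have h3 := T.pre_h hz1
    have h4 := c2 h3.1
    have h5 := h3.2.2 hz0
    have e1 : L.l (y ++ z).sum = 0 := by rw [h0, map_zero]
    have e2 : L.k (y ++ z).sum = 0 := by rw [h0, map_zero]
    rw [List.sum_append, map_add] at e1 e2
    omega

lemma Tri.s2 (T : Tri L M a h b) : Saw (W L a h b) := by
  intro x hx hxw
  unfold W at hxw
  have j1 := c2 T.jw
  have j2 := T.hw
  rcases ifx_append_cases hxw with h1 | h1 | ⟨y, z, rfl, hy0, hz0, hy, hz1⟩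
  · exact T.s1 x hx h1
  · exact (flat_br T.bb).1.1 x hx h1
  · intro h0
    have h2 := c2 (fwd_cone T.bb T.fb hz1)
    have h3 := (flat_br T.bb).1.2 z hz0 hz1
    have e1 : L.l (y ++ z).sum = 0 := by rw [h0, map_zero]
    have e2 : L.k (y ++ z).sum = 0 := by rw [h0, map_zero]
    rw [List.sum_append, map_add] at e1 e2
    rcases suffix_append_cases hy with h4 | ⟨y', rfl, hy'⟩
    · have h5 := c2 (T.suf_h h4)
      omega
    · have h5 := c2 (bwd_cone T.ba T.ca hy')
      rw [List.sum_append, map_add] at e1 e2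
      rw [T.l_h] at e1
      rw [T.k_h] at e2
      omega

lemma Tri.ht (T : Tri L M a h b) : L.l (W L a h b).sum = 3 * M := by
  unfold W
  rw [List.sum_append, List.sum_append, map_add, map_add, T.la_a, T.l_h, T.l_b]
  ring

lemma Tri.br (T : Tri L M a h b) : Br L.l (W L a h b) := by
  have j1 := c2 T.jw
  have j2 := T.hw
  have j3 := T.hw'
  refine ⟨⟨T.s2, fun x hx hxw => ?_⟩, fun x hxw => ?_⟩
  · unfold W at hxw
    rcases prefix_append_cases hxw with h1 | ⟨z, rfl, hz0, hz1⟩
    · rcases prefix_append_cases h1 with h1 | ⟨z, rfl, hz0, hz1⟩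
      · exact (flat_br T.ba).1.2 x hx h1
      · have h2 := T.pre_h hz1
        have h3 := c2 h2.1
        rw [List.sum_append, map_add, T.la_a]
        omega
    · have h2 := (flat_br T.bb).1.2 z hz0 hz1
      rw [List.sum_append, List.sum_append, map_add, map_add, T.la_a, T.l_h]
      omega
  · unfold W at hxw
    rcases suffix_append_cases hxw with h1 | ⟨y, rfl, hy⟩
    · exact (flat_br T.bb).2 x h1
    · rw [List.sum_append, map_add, T.l_b]
      rcases suffix_append_cases hy with h4 | ⟨y', rfl, hy'⟩
      · have h5 := c2 (T.suf_h h4)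
        have h6 : L.k y.sum ≤ (sm L h).1 := by
          obtain ⟨s, hs⟩ := h4
          have h7 := (T.pre_h (z := s) ⟨y, hs⟩).1
          have h8 := abs_nonneg (L.l s.sum)
          have h9 := T.k_h
          rw [← hs, List.sum_append, map_add] at h9
          omega
        omega
      · have h5 := (flat_br T.ba).2 y' hy'
        rw [List.sum_append, map_add, T.l_h]
        omega

lemma Tri.st (T : Tri L M a h b) : ∀ c ∈ W L a h b, c ∈ L.S := by
  intro c hc
  unfold W at hc
  rw [List.mem_append, List.mem_append] at hc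
  rcases hc with (hc | hc) | hc
  · exact flat_st T.ba c hc
  · unfold hz at hc
    rw [List.mem_map] at hc
    obtain ⟨c', h1, rfl⟩ := hc
    exact L.swS c' (flat_st T.bh c' h1)
  · exact flat_st T.bb c hc

lemma Tri.len (T : Tri L M a h b) :
    (W L a h b).length = a.flatten.length + h.flatten.length + b.flatten.length := by
  unfold W hz
  rw [List.length_append, List.length_append, List.length_map]

theorem tri_inj {a' h' b' : List (List V)} (T : Tri L M a h b) (T' : Tri L M a' h' b')
    (hj : (sm L h).2 = (sm L h').2) (e : W L a h b = W L a' h' b') : a = a' ∧ h = h' ∧ b = b' := by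
  have eG : a.flatten ++ hz L h = a'.flatten ++ hz L h' := by
    refine lev_eq (L := L) e ?_ (flat_br T.bb).1 (flat_br T'.bb).1
    rw [List.sum_append, List.sum_append, map_add, map_add, T.la_a, T'.la_a, T.l_h, T'.l_h, hj]
  have eA : a.flatten = a'.flatten := by
    have key : ∀ {a h b a' h' b' : List (List V)}, Tri L M a h b → Tri L M a' h' b' →
        a.flatten ++ hz L h = a'.flatten ++ hz L h' → a.flatten <+: a'.flatten →
        a.flatten = a'.flatten := by
      intro a h b a' h' b' T T' eG hp
      obtain ⟨t, ht⟩ := hp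
      by_cases ht0 : t = []
      · rw [← ht, ht0, List.append_nil]
      · exfalso
        have h1 := c2 (bwd_cone T'.ba T'.ca (u := t) ⟨_, ht⟩)
        have h2 := T'.la_a
        rw [← ht, List.sum_append, map_add, T.la_a] at h2
        rw [← ht, List.append_assoc, List.append_cancel_left_eq] at eG
        have h3 := (T.pre_h (z := t) ⟨hz L h', eG.symm⟩).2.2 ht0
        omega
    have q1 : a.flatten <+: a.flatten ++ hz L h := List.prefix_append _ _
    have q2 : a'.flatten <+: a.flatten ++ hz L h := by
      rw [eG]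
      exact List.prefix_append _ _
    rcases List.prefix_or_prefix_of_prefix q1 q2 with h1 | h1
    · exact key T T' eG h1
    · exact (key T' T eG.symm h1).symm
  have ea : a = a' := flat_inj T.ba T'.ba eA
  subst ea
  rw [List.append_cancel_left_eq] at eG
  have eh : h = h' := by
    refine flat_inj T.bh T'.bh ?_
    unfold hz at eG
    exact (List.map_injective_iff.2 L.sw.injective) eG
  subst eh
  unfold W at e
  rw [List.append_cancel_left_eq] at e
  exact ⟨rfl, rfl, flat_inj T.bb T'.bb e⟩

end H982.DN
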