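import Pool.Agent.H982.DN2

/-!
# Masses of bridges at the critical point
-/

set_option autoImplicit false
set_option linter.unusedSectionVars false

namespace H982.DN

open Pool.Agent.Q234.HS Filter Topology
open scoped ENNReal

variable {V : Type} [AddCommGroup V] {L : Lat V}

/-- what is known of the connective constant -/
structure Fct (L : Lat V) (μ : ℝ) : Prop where
  one : 1 ≤ μ
  lim : Tendsto (fun n : ℕ => (N L.S Saw n : ℝ) ^ (1 / (n : ℝ))) atTop (𝓝 μ)
  b_le : ∀ n, (N L.S (Br L.l) n : ℝ) / μ ^ n ≤ 1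
  b_div : Tendsto (ps fun n => (N L.S (Br L.l) n : ℝ) / μ ^ n) atTop atTop

theorem exists_fct (L : Lat V) : ∃ μ : ℝ, Fct L μ := by
  obtain ⟨μ, h1, h2, h3, D⟩ := mkDat L.fin L.neg L.l L.one L.he (by rw [L.le]; exact one_pos)
  exact ⟨μ, h1, h2, D.b_le, D.B_tendsto⟩

variable {μ : ℝ}

lemma Fct.pos (F : Fct L μ) : 0 < μ := lt_of_lt_of_le one_pos F.one

/-- powers of a finite family -/
lemma powers (F : Fct L μ) (G : Finset (List V))
    (hG : ∀ w ∈ G, (∀ a ∈ w, a ∈ L.S) ∧ Br L.l w)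
    (hinj : ∀ w ∈ G, ∀ w' ∈ G, ∀ s s', Br L.l s → Br L.l s' → w ++ s = w' ++ s' → w = w') (k : ℕ) :
    ∃ H : Finset (List V), (∀ w ∈ H, (∀ a ∈ w, a ∈ L.S) ∧ Br L.l w ∧
      w.length ≤ k * G.sup List.length) ∧
      ∑ w ∈ H, (μ ^ w.length)⁻¹ = (∑ w ∈ G, (μ ^ w.length)⁻¹) ^ k := by
  classical
  induction k with
  | zero =>
    refine ⟨{[]}, ?_, ?_⟩
    · intro w hw
      rw [Finset.mem_singleton] at hw
      subst hw
      exact ⟨by simp, br_nil, by simp⟩
    · rw [Finset.sum_singleton]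
      simp
  | succ k ih =>
    obtain ⟨H, h1, h2⟩ := ih
    refine ⟨(G ×ˢ H).image (fun p => p.1 ++ p.2), ?_, ?_⟩
    · intro w hw
      rw [Finset.mem_image] at hw
      obtain ⟨⟨u, v⟩, hp, rfl⟩ := hw
      rw [Finset.mem_product] at hp
      obtain ⟨a1, a2⟩ := hG u hp.1
      obtain ⟨b1, b2, b3⟩ := h1 v hp.2
      refine ⟨?_, br_append a2 b2, ?_⟩
      · intro c hc
        rcases List.mem_append.1 hc with h | h
        · exact a1 c h
        · exact b1 c h
      · have h3 : u.length ≤ G.sup List.length := Finset.le_sup (f := List.length) hp.1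
        rw [List.length_append, Nat.succ_mul]
        simp only at b3 ⊢
        omega
    · rw [Finset.sum_image]
      · rw [Finset.sum_product, pow_succ, ← h2, mul_comm, Finset.sum_mul_sum]
        refine Finset.sum_congr rfl fun u _ => Finset.sum_congr rfl fun v _ => ?_
        rw [List.length_append, pow_add, mul_inv]
      · rintro ⟨u, v⟩ hp ⟨u', v'⟩ hp' he
        simp only [Finset.coe_product, Set.mem_prod, Finset.mem_coe] at hp hp' he
        have e1 := hinj u hp.1 u' hp'.1 v v' (h1 v hp.2).2.1 (h1 v' hp'.2).2.1 he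
        subst e1
        rw [List.append_cancel_left_eq] at he
        rw [he]

lemma sum_len_le (F : Fct L μ) (H : Finset (List V)) (m : ℕ)
    (h : ∀ w ∈ H, (∀ a ∈ w, a ∈ L.S) ∧ Br L.l w ∧ w.length ≤ m) :
    ∑ w ∈ H, (μ ^ w.length)⁻¹ ≤ (m : ℝ) + 1 := by
  classical
  have hμ := F.pos
  rw [← Finset.sum_fiberwise_of_maps_to (s := H) (t := Finset.range (m + 1))
    (g := List.length) (fun w hw => Finset.mem_range.2 (by have := (h w hw).2.2; omega))]
  calc ∑ n ∈ Finset.range (m + 1), ∑ w ∈ H with w.length = n, (μ ^ w.length)⁻¹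
      ≤ ∑ n ∈ Finset.range (m + 1), (1 : ℝ) := by
        refine Finset.sum_le_sum fun n _ => ?_
        have e1 : ∑ w ∈ H with w.length = n, (μ ^ w.length)⁻¹ =
            ((H.filter fun w => w.length = n).card : ℝ) * (μ ^ n)⁻¹ := by
          rw [Finset.sum_congr rfl fun w hw => by rw [(Finset.mem_filter.1 hw).2],
            Finset.sum_const, nsmul_eq_mul]
        rw [e1]
        refine le_trans ?_ (F.b_le n)
        rw [div_eq_mul_inv]
        refine mul_le_mul_of_nonneg_right ?_ (by positivity)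
        have h2 : (H.filter fun w => w.length = n).card ≤ N L.S (Br L.l) n := by
          unfold N
          rw [← Set.ncard_coe_finset]
          refine Set.ncard_le_ncard ?_ (finite_W L.fin _ n)
          intro w hw
          rw [Finset.mem_coe, Finset.mem_filter] at hw
          obtain ⟨a1, a2, -⟩ := h w hw.1
          exact ⟨hw.2, a1, a2⟩
        exact_mod_cast h2
    _ = (m : ℝ) + 1 := by simp

lemma le_one_of_pow {s : ℝ} {m : ℕ} (h : ∀ k : ℕ, s ^ k ≤ (k * m : ℕ) + 1) : s ≤ 1 := by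
  by_contra hs
  rw [not_le] at hs
  have h1 := (tendsto_pow_const_div_const_pow_of_one_lt 1 hs).const_mul (m : ℝ)
  have h2 := tendsto_pow_const_div_const_pow_of_one_lt 0 hs
  have h3 := h1.add h2
  rw [mul_zero, add_zero] at h3
  have h4 : ∀ k : ℕ, (1 : ℝ) ≤ (m : ℝ) * ((k : ℝ) ^ 1 / s ^ k) + (k : ℝ) ^ 0 / s ^ k := by
    intro k
    have h5 := h k
    have h6 : 0 < s ^ k := pow_pos (by linarith) k
    rw [pow_one, pow_zero, mul_div_assoc', ← add_div, le_div_iff₀ h6]
    push_cast at h5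
    linarith
  have h5 := ge_of_tendsto' h3 h4
  linarith

theorem pow_trick (F : Fct L μ) (G : Finset (List V))
    (hG : ∀ w ∈ G, (∀ a ∈ w, a ∈ L.S) ∧ Br L.l w)
    (hinj : ∀ w ∈ G, ∀ w' ∈ G, ∀ s s', Br L.l s → Br L.l s' → w ++ s = w' ++ s' → w = w') :
    ∑ w ∈ G, (μ ^ w.length)⁻¹ ≤ 1 := by
  refine le_one_of_pow (m := G.sup List.length) fun k => ?_
  obtain ⟨H, h1, h2⟩ := powers F G hG hinj k
  rw [← h2]
  exact sum_len_le F H _ h1

/-- the mass of the bridges with a given height is at most one -/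
theorem V_mass (F : Fct L μ) (T : ℤ) (G : Finset (List V))
    (hG : ∀ w ∈ G, (∀ a ∈ w, a ∈ L.S) ∧ Br L.l w ∧ L.l w.sum = T) :
    ∑ w ∈ G, (μ ^ w.length)⁻¹ ≤ 1 :=
  pow_trick F G (fun w hw => ⟨(hG w hw).1, (hG w hw).2.1⟩) fun w hw w' hw' s s' hs hs' e =>
    lev_eq e (by rw [(hG w hw).2.2, (hG w' hw').2.2]) hs.1 hs'.1

theorem blk_mass (F : Fct L μ) (G : Finset (List V)) (hG : ∀ w ∈ G, Blk L w) :
    ∑ w ∈ G, (μ ^ w.length)⁻¹ ≤ 1 :=
  pow_trick F G (fun w hw => ⟨(hG w hw).st, (hG w hw).br⟩) fun w hw w' hw' s s' hs hs' e =>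
    blk_eq (hG w hw) (hG w' hw') e hs.1 hs'.1

lemma first_cut {w : List V} (hst : ∀ a ∈ w, a ∈ L.S) (hw : Br L.l w) (hne : w ≠ []) :
    ∃ u v, u ++ v = w ∧ Blk L u ∧ Br L.l v := by
  classical
  have hex : ∃ k, ∃ u v, u ++ v = w ∧ Cut L.l u v ∧ u ≠ [] ∧ u.length = k :=
    ⟨w.length, w, [], List.append_nil w,
      ⟨hw.2, fun x hx hn => absurd (List.prefix_nil.1 hn) hx⟩, hne, rfl⟩
  obtain ⟨u, v, huv, hc, hu, hk⟩ := Nat.find_spec hex
  have hmin := fun m hm => Nat.find_min (m := m) hex hm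
  refine ⟨u, v, huv, ⟨?_, ⟨⟨hw.1.1.sub ⟨[], v, by simpa using huv⟩, ?_⟩, hc.1⟩, hu, ?_⟩,
    ⟨hw.1.1.sub ⟨u, [], by simpa using huv⟩, hc.2⟩, ?_⟩
  · intro a ha
    exact hst a (huv ▸ List.mem_append_left _ ha)
  · intro x hx hxu
    exact hw.1.2 x hx (hxu.trans ⟨v, huv⟩)
  · intro p q hpq hcut
    by_contra hne2
    push Not at hne2
    obtain ⟨hp, hq⟩ := hne2
    have hlt : p.length < Nat.find hex := by
      rw [← hk, ← hpq, List.length_append]
      have := List.length_pos_iff.2 hq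
      omega
    refine hmin _ hlt ⟨p, q ++ v, ?_, ⟨hcut.1, ?_⟩, hp, rfl⟩
    · rw [← List.append_assoc, hpq, huv]
    · intro x hx hxq
      rcases prefix_append_cases hxq with h | ⟨y, rfl, hy0, hy⟩
      · exact hcut.2 x hx h
      · rw [List.sum_append, map_add]
        have h1 := hcut.2 q hq (List.prefix_refl q)
        have h2 := hc.2 y hy0 hy
        omega
  · intro x hx
    exact hw.2 x (hx.trans ⟨u, huv⟩)

lemma renewal (L : Lat V) {n : ℕ} (hn : n ≠ 0) :
    N L.S (Br L.l) n ≤ ∑ p ∈ Finset.HasAntidiagonal.antidiagonal n, N L.S (Blk L) p.1 * N L.S (Br L.l) p.2 := by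
  rw [← ncard_WW L.fin]
  have hf := finite_WW L.fin (Blk L) (Br L.l) n
  have h1 : Pool.Agent.Q234.HS.W L.S (Br L.l) n ⊆
      (fun p : List V × List V => p.1 ++ p.2) '' WW L.S (Blk L) (Br L.l) n := by
    rintro w ⟨h1, h2, h3⟩
    obtain ⟨u, v, rfl, h4, h5⟩ := first_cut h2 h3 (by rintro rfl; exact hn h1.symm)
    refine ⟨(u, v), ⟨?_, h4.st, ?_, h4, h5⟩, rfl⟩
    · rw [← h1, List.length_append]
    · intro a ha
      exact h2 a (List.mem_append_right _ ha)
  exact (Set.ncard_le_ncard h1 (hf.image _)).trans (Set.ncard_image_le hf)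

end H982.DN
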