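import Pool.Agent.H982.DN3

/-!
# Independent irreducible bridges
-/

set_option autoImplicit false
set_option linter.unusedSectionVars false

namespace H982.DN

open MeasureTheory ProbabilityTheory Filter Topology
open Pool.Agent.Q234.HS
open scoped ENNReal

variable {V : Type} [AddCommGroup V] [Countable V] {L : Lat V} {μ : ℝ}

variable (L) in
/-- the blocks -/
def B : Type := {β : List V // Blk L β}

instance : Countable (B L) := inferInstanceAs (Countable {β : List V // Blk L β})

instance : MeasurableSpace (B L) := ⊤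

instance : DiscreteMeasurableSpace (B L) := ⟨fun _ => trivial⟩

/-- the walk of a block -/
def bl (i : B L) : List V := i.1

lemma bl_blk (i : B L) : Blk L (bl i) := i.2

lemma bl_inj : Function.Injective (bl : B L → List V) := Subtype.val_injective

/-- the weight -/
noncomputable def wt (μ : ℝ) (i : B L) : ℝ≥0∞ := ENNReal.ofReal ((μ ^ (bl i).length)⁻¹)

lemma wt_le (F : Fct L μ) : ∑' i : B L, wt μ i ≤ 1 := by
  classical
  have hμ := F.pos
  rw [ENNReal.tsum_eq_iSup_sum]
  refine iSup_le fun s => ?_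
  unfold wt
  rw [← ENNReal.ofReal_sum_of_nonneg fun x _ => by positivity, ENNReal.ofReal_le_one]
  have h := blk_mass F (s.image bl) (by
    intro w hw
    rw [Finset.mem_image] at hw
    obtain ⟨i, -, rfl⟩ := hw
    exact bl_blk i)
  rwa [Finset.sum_image fun x _ y _ hxy => bl_inj hxy] at h

lemma ps_irr (F : Fct L μ) (M : ℕ) :
    ENNReal.ofReal (ps (fun n => (N L.S (Blk L) n : ℝ) / μ ^ n) M) ≤ ∑' i : B L, wt μ i := by
  classical
  have hμ := F.pos
  have hfin : ∀ n, (Pool.Agent.Q234.HS.W L.S (Blk L) n).Finite := fun n => finite_W L.fin _ n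
  let G : Finset (List V) := (Finset.range (M + 1)).biUnion fun n => (hfin n).toFinset
  have hG : ∀ w ∈ G, Blk L w := by
    intro w hw
    rw [Finset.mem_biUnion] at hw
    obtain ⟨n, -, h⟩ := hw
    rw [Set.Finite.mem_toFinset] at h
    exact h.2.2
  have e1 : ps (fun n => (N L.S (Blk L) n : ℝ) / μ ^ n) M = ∑ w ∈ G, (μ ^ w.length)⁻¹ := by
    unfold ps
    rw [Finset.sum_biUnion]
    · refine Finset.sum_congr rfl fun n _ => ?_
      have e2 : ∑ w ∈ (hfin n).toFinset, (μ ^ w.length)⁻¹ =
          ∑ _w ∈ (hfin n).toFinset, (μ ^ n)⁻¹ := by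
        refine Finset.sum_congr rfl fun w hw => ?_
        rw [Set.Finite.mem_toFinset] at hw
        rw [hw.1]
      rw [e2, Finset.sum_const, nsmul_eq_mul, ← Set.ncard_eq_toFinset_card _ (hfin n),
        ← div_eq_mul_inv]
      rfl
    · intro n _ m _ hnm
      rw [Function.onFun, Finset.disjoint_left]
      intro w hw hw'
      rw [Set.Finite.mem_toFinset] at hw hw'
      exact hnm (hw.1.symm.trans hw'.1)
  rw [e1, ENNReal.ofReal_sum_of_nonneg fun x _ => by positivity]
  let toB : {w // w ∈ G} → B L := fun w => ⟨w.1, hG w.1 w.2⟩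
  have hi : Function.Injective toB := by
    intro x y hxy
    exact Subtype.ext (congrArg bl hxy)
  have e3 : ∑ w ∈ G, ENNReal.ofReal ((μ ^ w.length)⁻¹) =
      ∑ i ∈ G.attach.map ⟨toB, hi⟩, wt μ i := by
    rw [Finset.sum_map, ← Finset.sum_attach]
    rfl
  rw [e3]
  exact ENNReal.sum_le_tsum _

lemma ps_renewal (F : Fct L μ) (M : ℕ) :
    ps (fun n => (N L.S (Br L.l) n : ℝ) / μ ^ n) M ≤
      1 + ps (fun n => (N L.S (Blk L) n : ℝ) / μ ^ n) M *
        ps (fun n => (N L.S (Br L.l) n : ℝ) / μ ^ n) M := by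
  have hμ := F.pos
  have h1 := conv_le_mul (f := fun n => (N L.S (Blk L) n : ℝ) / μ ^ n)
    (g := fun n => (N L.S (Br L.l) n : ℝ) / μ ^ n) (fun n => by positivity)
    (fun n => by positivity) M
  have h2 : ∀ n ∈ Finset.range (M + 1), (N L.S (Br L.l) n : ℝ) / μ ^ n ≤
      (if n = 0 then 1 else 0) + ∑ p ∈ Finset.HasAntidiagonal.antidiagonal n,
        ((N L.S (Blk L) p.1 : ℝ) / μ ^ p.1) * ((N L.S (Br L.l) p.2 : ℝ) / μ ^ p.2) := by
    intro n _
    by_cases hn : n = 0
    · subst hn
      rw [if_pos rfl, N_zero _ _ br_nil]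
      have : (0 : ℝ) ≤ ∑ p ∈ Finset.HasAntidiagonal.antidiagonal 0,
        ((N L.S (Blk L) p.1 : ℝ) / μ ^ p.1) * ((N L.S (Br L.l) p.2 : ℝ) / μ ^ p.2) :=
        Finset.sum_nonneg fun p _ => by positivity
      simp only [Nat.cast_one, pow_zero, div_one]
      linarith
    · rw [if_neg hn, zero_add, div_le_iff₀ (pow_pos hμ n), Finset.sum_mul]
      have h3 : (N L.S (Br L.l) n : ℝ) ≤ ∑ p ∈ Finset.HasAntidiagonal.antidiagonal n,
          (N L.S (Blk L) p.1 : ℝ) * (N L.S (Br L.l) p.2 : ℝ) := by
        exact_mod_cast renewal L hn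
      refine h3.trans (le_of_eq (Finset.sum_congr rfl fun p hp => ?_))
      rw [Finset.HasAntidiagonal.mem_antidiagonal] at hp
      rw [← hp, pow_add]
      field_simp
  have h3 := Finset.sum_le_sum h2
  rw [Finset.sum_add_distrib, Finset.sum_ite_eq' (Finset.range (M + 1)) 0 (fun _ => (1 : ℝ)),
    if_pos (Finset.mem_range.2 (Nat.succ_pos M))] at h3
  unfold ps
  linarith

theorem wt_sum (F : Fct L μ) : ∑' i : B L, wt μ i = 1 := by
  refine le_antisymm (wt_le F) ?_
  by_contra hlt
  rw [not_le] at hlt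
  set s := ∑' i : B L, wt μ i with hs
  have hst : s ≠ ⊤ := ne_top_of_lt hlt
  have h1 : ∀ M, ps (fun n => (N L.S (Blk L) n : ℝ) / μ ^ n) M ≤ s.toReal := by
    intro M
    rw [← ENNReal.ofReal_le_iff_le_toReal hst]
    exact ps_irr F M
  have h2 : s.toReal < 1 := by
    rw [← ENNReal.toReal_one]
    exact (ENNReal.toReal_lt_toReal hst (by simp)).2 hlt
  have hμ := F.pos
  have h3 : ∀ M, ps (fun n => (N L.S (Br L.l) n : ℝ) / μ ^ n) M ≤ 1 / (1 - s.toReal) := by
    intro M
    rw [le_div_iff₀ (by linarith)]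
    have h4 := ps_renewal F M
    have h5 : 0 ≤ ps (fun n => (N L.S (Br L.l) n : ℝ) / μ ^ n) M :=
      Finset.sum_nonneg fun n _ => by positivity
    have h6 := mul_le_mul_of_nonneg_right (h1 M) h5
    linarith
  have h4 := F.b_div.eventually (eventually_gt_atTop (1 / (1 - s.toReal)))
  obtain ⟨M, hM⟩ := h4.exists
  exact absurd (h3 M) (not_le.2 hM)

/-- the law of a block -/
noncomputable def pm (F : Fct L μ) : PMF (B L) := ⟨wt μ, (wt_sum F) ▸ ENNReal.summable.hasSum⟩

/-- the law of a block -/
noncomputable def nu (F : Fct L μ) : Measure (B L) := (pm F).toMeasure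

instance (F : Fct L μ) : IsProbabilityMeasure (nu F) := by
  unfold nu
  infer_instance

lemma nu_singleton (F : Fct L μ) (i : B L) : nu F {i} = wt μ i := by
  unfold nu
  rw [PMF.toMeasure_apply_singleton _ _ (MeasurableSet.singleton i)]
  rfl

/-- independent blocks -/
noncomputable def PP (F : Fct L μ) : Measure (ℕ → B L) := Measure.infinitePi (fun _ => nu F)

instance (F : Fct L μ) : IsProbabilityMeasure (PP F) := by
  unfold PP
  infer_instance

/-- the sequences which start with the given blocks -/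
def cyl (bs : List (B L)) : Set (ℕ → B L) := {ω | ∀ i (h : i < bs.length), ω i = bs[i]}

variable (μ) in
/-- the weight of a sequence of blocks -/
noncomputable def ws (bs : List (B L)) : ℝ≥0∞ := (bs.map (wt μ)).prod

lemma cyl_meas (bs : List (B L)) : MeasurableSet (cyl bs) := by
  unfold cyl
  have e : {ω : ℕ → B L | ∀ i (h : i < bs.length), ω i = bs[i]} =
      ⋂ i : Fin bs.length, {ω | ω i.1 = bs[i.1]} := by
    ext ω
    simp only [Set.mem_ofPred_eq, Set.mem_iInter]
    exact ⟨fun h i => h i.1 i.2, fun h i hi => h ⟨i, hi⟩⟩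
  rw [e]
  exact MeasurableSet.iInter fun i => measurable_pi_apply i.1 (MeasurableSet.singleton _)

lemma prod_getD (bs : List (B L)) (d : B L) :
    ∏ i ∈ Finset.range bs.length, wt μ (bs.getD i d) = ws μ bs := by
  induction bs with
  | nil => simp [ws]
  | cons b bs ih =>
    rw [List.length_cons, Finset.prod_range_succ']
    have e : ws μ (b :: bs) = wt μ b * ws μ bs := by
      unfold ws
      rw [List.map_cons, List.prod_cons]
    rw [e, ← ih, mul_comm]
    rfl

lemma cyl_mass (F : Fct L μ) (bs : List (B L)) : PP F (cyl bs) = ws μ bs := by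
  cases bs with
  | nil =>
    have e : cyl ([] : List (B L)) = Set.univ := by
      ext ω
      simp [cyl]
    rw [e, measure_univ]
    rfl
  | cons b bs =>
    rw [← prod_getD (b :: bs) b]
    have e : cyl (b :: bs) =
        Set.pi (Finset.range (b :: bs).length : Finset ℕ) (fun i => {(b :: bs).getD i b}) := by
      ext ω
      unfold cyl
      simp only [Set.mem_ofPred_eq, Set.mem_pi, Finset.coe_range, Set.mem_Iio,
        Set.mem_singleton_iff]
      refine forall_congr' fun i => forall_congr' fun hi => ?_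
      rw [List.getD_eq_getElem _ _ hi]
    rw [e]
    unfold PP
    rw [Measure.infinitePi_pi _ (fun i _ => MeasurableSet.singleton _)]
    refine Finset.prod_congr rfl fun i _ => ?_
    rw [nu_singleton]

lemma br_map {w : List V} (h : Br L.l w) : Br L.l (w.map L.mi) := by
  refine ⟨⟨saw_map L.mi h.1.1, fun u hu hn => ?_⟩, fun u hn => ?_⟩
  · rw [List.prefix_map_iff] at hn
    obtain ⟨u', h1, rfl⟩ := hn
    rw [map_sum, L.mi_l]
    exact h.1.2 u' (by rintro rfl; exact hu rfl) h1
  · rw [List.suffix_map_iff] at hn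
    obtain ⟨u', h1, rfl⟩ := hn
    rw [map_sum, L.mi_l]
    exact h.2 u' h1

lemma mi_map (w : List V) : (w.map L.mi).map L.mi = w := by
  rw [List.map_map]
  conv_rhs => rw [← List.map_id w]
  refine List.map_congr_left fun p _ => ?_
  simp [L.mi_mi]

lemma blk_map {w : List V} (h : Blk L w) : Blk L (w.map L.mi) := by
  refine ⟨?_, br_map h.br, ?_, ?_⟩
  · intro a ha
    rw [List.mem_map] at ha
    obtain ⟨a', h1, rfl⟩ := ha
    exact L.miS a' (h.st a' h1)
  · intro h0
    exact h.ne (List.map_eq_nil_iff.1 h0)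
  · intro u v e hc
    have e2 : u.map L.mi ++ v.map L.mi = w := by
      rw [← List.map_append, e, mi_map]
    have h1 := h.irr (u.map L.mi) (v.map L.mi) e2 ⟨?_, ?_⟩
    · rcases h1 with h1 | h1
      · exact Or.inl (List.map_eq_nil_iff.1 h1)
      · exact Or.inr (List.map_eq_nil_iff.1 h1)
    · intro x hx
      rw [List.suffix_map_iff] at hx
      obtain ⟨x', hx', rfl⟩ := hx
      rw [map_sum, L.mi_l]
      exact hc.1 x' hx'
    · intro x hx0 hx
      rw [List.prefix_map_iff] at hx
      obtain ⟨x', hx', rfl⟩ := hx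
      rw [map_sum, L.mi_l]
      exact hc.2 x' (by rintro rfl; exact hx0 rfl) hx'

/-- the mirror image of a block -/
def mB (i : B L) : B L := ⟨i.1.map L.mi, blk_map i.2⟩

lemma bl_mB (i : B L) : bl (mB i) = (bl i).map L.mi := rfl

lemma mB_mB (i : B L) : mB (mB i) = i := by
  apply bl_inj
  rw [bl_mB, bl_mB, mi_map]

lemma wt_mB (i : B L) : wt μ (mB i) = wt μ i := by
  unfold wt
  rw [bl_mB, List.length_map]

lemma nu_map (F : Fct L μ) : (nu F).map mB = nu F := by
  refine Measure.ext_of_singleton fun i => ?_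
  rw [Measure.map_apply (Measurable.of_discrete) (MeasurableSet.singleton i)]
  have e : mB ⁻¹' {i} = {mB i} := by
    ext k
    simp only [Set.mem_preimage, Set.mem_singleton_iff]
    constructor
    · intro h
      rw [← h, mB_mB]
    · intro h
      rw [h, mB_mB]
  rw [e, nu_singleton, nu_singleton, wt_mB]

open Classical in
variable (L) in
/-- the size of a block: the maximum of the two coordinates -/
noncomputable def ra (β : List V) : ℕ :=
  β.inits.toFinset.sup (fun u => max (L.l u.sum).natAbs (L.k u.sum).natAbs)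

lemma le_ra {β u : List V} (h : u <+: β) :
    (L.l u.sum).natAbs ≤ ra L β ∧ (L.k u.sum).natAbs ≤ ra L β := by
  classical
  have := Finset.le_sup (f := fun u : List V => max (L.l u.sum).natAbs (L.k u.sum).natAbs)
    (List.mem_toFinset.2 ((List.mem_inits _ _).2 h))
  unfold ra
  exact ⟨(le_max_left _ _).trans this, (le_max_right _ _).trans this⟩

lemma wd_le_ra (β : List V) : wd L β ≤ ra L β := by
  classical
  unfold wd
  refine Finset.sup_le fun u hu => ?_
  exact (le_ra ((List.mem_inits _ _).1 (List.mem_toFinset.1 hu))).2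

variable (L μ) in
/-- the assumption to be refuted: the mean size of a block is finite -/
def Fin1 : Prop := ∑' i : B L, wt μ i * (ra L (bl i) : ℝ≥0∞) ≠ ⊤

lemma integrable_of (F : Fct L μ) (hf : Fin1 L μ) {f : B L → ℝ}
    (h : ∀ i, |f i| ≤ ra L (bl i)) : Integrable f (nu F) := by
  refine ⟨(Measurable.of_discrete).aestronglyMeasurable, ?_⟩
  unfold HasFiniteIntegral
  rw [lintegral_countable']
  refine lt_of_le_of_lt (ENNReal.tsum_le_tsum fun i => ?_) (lt_top_iff_ne_top.2 hf)
  rw [nu_singleton, mul_comm]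
  gcongr
  rw [← ofReal_norm, Real.norm_eq_abs]
  calc ENNReal.ofReal |f i| ≤ ENNReal.ofReal (ra L (bl i)) := ENNReal.ofReal_le_ofReal (h i)
    _ = _ := ENNReal.ofReal_natCast _

/-- the horizontal displacement -/
noncomputable def Xf (i : B L) : ℝ := ((la L (bl i)).2 : ℝ)

lemma abs_Xf (i : B L) : |Xf i| ≤ ra L (bl i) := by
  unfold Xf
  have := (le_ra (L := L) (List.prefix_refl (bl i))).2
  rw [← Int.cast_abs, ← Int.natCast_natAbs]
  exact_mod_cast this

lemma Xf_mean (F : Fct L μ) : ∫ i, Xf i ∂(nu F) = 0 := by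
  have h1 : ∫ i, Xf (mB i) ∂(nu F) = ∫ i, Xf i ∂(nu F) := by
    conv_rhs => rw [← nu_map F]
    rw [integral_map (Measurable.of_discrete).aemeasurable
      (Measurable.of_discrete).aestronglyMeasurable]
  have h2 : ∀ i : B L, Xf (mB i) = -Xf i := by
    intro i
    unfold Xf la
    rw [bl_mB, map_sum, L.mi_k]
    push_cast
    rfl
  simp only [h2] at h1
  rw [integral_neg] at h1
  linarith

lemma slln (F : Fct L μ) (hf : Fin1 L μ) {f : B L → ℝ} (h : ∀ i, |f i| ≤ ra L (bl i)) :
    ∀ᵐ ω ∂(PP F), Tendsto (fun n : ℕ => (∑ i ∈ Finset.range n, f (ω i)) / n) atTop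
      (𝓝 (∫ i, f i ∂(nu F))) := by
  have hmp : ∀ i : ℕ, MeasurePreserving (Function.eval i) (PP F) (nu F) := fun i =>
    measurePreserving_eval_infinitePi (fun _ : ℕ => nu F) i
  have hi := integrable_of F hf h
  have h1 := strong_law_ae_real (μ := PP F) (fun i ω => f (ω i))
    ((hmp 0).integrable_comp_of_integrable hi) ?_ ?_
  · have e : ∫ ω, f (ω 0) ∂(PP F) = ∫ i, f i ∂(nu F) := by
      have := (hmp 0).map_eq
      rw [← this, integral_map (hmp 0).measurable.aemeasurable
        (Measurable.of_discrete).aestronglyMeasurable]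
    rw [e] at h1
    exact h1
  · have := iIndepFun_infinitePi (P := fun _ : ℕ => nu F) (X := fun _ : ℕ => f)
      (fun _ => Measurable.of_discrete)
    intro i j hij
    exact this.indepFun hij
  · intro i
    refine ⟨(Measurable.of_discrete.comp (measurable_pi_apply i)).aemeasurable,
      (Measurable.of_discrete.comp (measurable_pi_apply 0)).aemeasurable, ?_⟩
    have e : ∀ k : ℕ, (PP F).map (fun ω => f (ω k)) = (nu F).map f := by
      intro k
      rw [← (hmp k).map_eq, Measure.map_map Measurable.of_discrete (hmp k).measurable]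
      rfl
    rw [e, e]

end H982.DN
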