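import Pool.Agent.H982.DN4

/-!
# The walk with independent blocks of finite mean size stays in a cone
-/

set_option autoImplicit false
set_option linter.unusedSectionVars false

namespace H982.DN

open MeasureTheory ProbabilityTheory Filter Topology
open Pool.Agent.Q234.HS
open scoped ENNReal

variable {V : Type} [AddCommGroup V] [Countable V] {L : Lat V} {μ : ℝ}

/-- the horizontal extent of a block -/
noncomputable def wf (i : B L) : ℝ := (wd L (bl i) : ℝ)

lemma wf_nonneg (i : B L) : 0 ≤ wf i := Nat.cast_nonneg _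

lemma abs_wf (i : B L) : |wf i| ≤ ra L (bl i) := by
  rw [abs_of_nonneg (wf_nonneg i)]
  unfold wf
  exact_mod_cast wd_le_ra (bl i)

/-- the position and the size of the next block -/
noncomputable def gg (ω : ℕ → B L) (n : ℕ) : ℝ :=
  |∑ i ∈ Finset.range n, Xf (ω i)| + 2 * wf (ω n)

lemma gg_nonneg (ω : ℕ → B L) (n : ℕ) : 0 ≤ gg ω n := by
  unfold gg
  have := wf_nonneg (ω n)
  positivity

lemma gg_small (F : Fct L μ) (hf : Fin1 L μ) : ∀ᵐ ω ∂(PP F), Tendsto (fun n : ℕ => gg ω n / n) atTop (𝓝 0) := by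
  have h1 := slln F hf abs_Xf
  have h2 := slln F hf abs_wf
  rw [Xf_mean F] at h1
  filter_upwards [h1, h2] with ω a1 a2
  set c := ∫ i, wf i ∂(nu F)
  have b1 : Tendsto (fun n : ℕ => |(∑ i ∈ Finset.range n, Xf (ω i)) / n|) atTop (𝓝 0) := by
    simpa using a1.abs
  have b2 : Tendsto (fun n : ℕ => wf (ω n) / n) atTop (𝓝 0) := by
    have c1 : Tendsto (fun n : ℕ => (∑ i ∈ Finset.range (n + 1), wf (ω i)) / ((n + 1 : ℕ) : ℝ))
        atTop (𝓝 c) := a2.comp (tendsto_add_atTop_nat 1)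
    have c2 : Tendsto (fun n : ℕ => ((n + 1 : ℕ) : ℝ) / n) atTop (𝓝 1) := by
      have h3 : Tendsto (fun n : ℕ => 1 + 1 / (n : ℝ)) atTop (𝓝 (1 + 0)) :=
        tendsto_const_nhds.add tendsto_one_div_atTop_nhds_zero_nat
      rw [add_zero] at h3
      refine h3.congr' ?_
      filter_upwards [eventually_ge_atTop 1] with n hn
      have : (n : ℝ) ≠ 0 := by positivity
      push_cast
      field_simp
    have c3 := (c1.mul c2).sub a2
    rw [mul_one, sub_self] at c3
    refine c3.congr' ?_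
    filter_upwards [eventually_ge_atTop 1] with n hn
    have h4 : (n : ℝ) ≠ 0 := by positivity
    have h5 : ((n + 1 : ℕ) : ℝ) ≠ 0 := by positivity
    rw [Finset.sum_range_succ]
    field_simp
    ring
  have b3 := b1.add (b2.const_mul 2)
  rw [mul_zero, add_zero] at b3
  refine b3.congr fun n => ?_
  unfold gg
  rw [abs_div, Nat.abs_cast]
  ring

lemma gg_meas (n : ℕ) : Measurable fun ω : ℕ → B L => gg ω n := by
  unfold gg
  have h : ∀ (f : B L → ℝ) (k : ℕ), Measurable fun ω : ℕ → B L => f (ω k) := fun f k =>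
    (Measurable.of_discrete (f := f)).comp (measurable_pi_apply k)
  have h1 : Measurable fun ω : ℕ → B L => ∑ i ∈ Finset.range n, Xf (ω i) :=
    Finset.measurable_sum _ fun i _ => h Xf i
  exact h1.abs.add ((h wf n).const_mul 2)

variable (L) in
/-- the walk leaves the cone -/
def VV (δ : ℝ) (K : ℕ) : Set (ℕ → B L) := {ω | ∃ n : ℕ, δ * n + K < gg ω n}

lemma VV_meas (δ : ℝ) (K : ℕ) : MeasurableSet (VV L δ K) := by
  have e : VV L δ K = ⋃ n : ℕ, {ω | δ * n + K < gg ω n} := by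
    ext ω
    simp [VV]
  rw [e]
  exact MeasurableSet.iUnion fun n => measurableSet_lt measurable_const (gg_meas n)

theorem VV_small (F : Fct L μ) (hf : Fin1 L μ) {δ : ℝ} (hδ : 0 < δ) {η : ℝ≥0∞} (hη : η ≠ 0) :
    ∃ K : ℕ, PP F (VV L δ K) ≤ η := by
  have h1 : Tendsto (fun K => PP F (VV L δ K)) atTop (𝓝 (PP F (⋂ K, VV L δ K))) := by
    refine tendsto_measure_iInter_atTop (fun K => (VV_meas δ K).nullMeasurableSet) ?_
      ⟨0, measure_ne_top _ _⟩
    rintro K K' h ω ⟨n, hn⟩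
    refine ⟨n, lt_of_le_of_lt ?_ hn⟩
    have : (K : ℝ) ≤ K' := by exact_mod_cast h
    linarith
  have h2 : PP F (⋂ K, VV L δ K) = 0 := by
    rw [← nonpos_iff_eq_zero, ← compl_compl (⋂ K, VV L δ K)]
    refine le_of_eq ?_
    rw [← mem_ae_iff]
    filter_upwards [gg_small F hf] with ω hω
    rw [Set.mem_compl_iff, Set.mem_iInter]
    push Not
    have h3 : ∀ᶠ n : ℕ in atTop, gg ω n / n < δ := hω.eventually (gt_mem_nhds hδ)
    obtain ⟨N, hN⟩ := eventually_atTop.1 h3
    refine ⟨∑ n ∈ Finset.range (N + 1), ⌈gg ω n⌉₊, ?_⟩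
    rintro ⟨n, hn⟩
    by_cases h : n < N + 1
    · have h4 : ⌈gg ω n⌉₊ ≤ ∑ n ∈ Finset.range (N + 1), ⌈gg ω n⌉₊ :=
        Finset.single_le_sum (f := fun n => ⌈gg ω n⌉₊) (fun _ _ => Nat.zero_le _)
          (Finset.mem_range.2 h)
      have h5 := Nat.le_ceil (gg ω n)
      have h6 : ((⌈gg ω n⌉₊ : ℕ) : ℝ) ≤ ((∑ n ∈ Finset.range (N + 1), ⌈gg ω n⌉₊ : ℕ) : ℝ) := by
        exact_mod_cast h4
      have h7 : 0 ≤ δ * n := by positivity
      linarith
    · have h4 := hN n (by omega)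
      have h5 : (0 : ℝ) < n := by
        have : 0 < n := by omega
        exact_mod_cast this
      rw [div_lt_iff₀ h5] at h4
      have h6 : (0 : ℝ) ≤ ((∑ n ∈ Finset.range (N + 1), ⌈gg ω n⌉₊ : ℕ) : ℝ) := by positivity
      linarith
  rw [h2] at h1
  obtain ⟨K, hK⟩ := (h1.eventually (ge_mem_nhds (pos_iff_ne_zero.2 hη))).exists
  exact ⟨K, hK⟩

end H982.DN
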