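import Pool.Agent.H982.DN5

/-!
# Sequences of blocks with a given total height
-/

set_option autoImplicit false
set_option linter.unusedSectionVars false

namespace H982.DN

open MeasureTheory ProbabilityTheory Filter Topology
open Pool.Agent.Q234.HS
open scoped ENNReal

variable {V : Type} [AddCommGroup V] [Countable V] {L : Lat V} {μ : ℝ}

/-- the displacement of a sequence of blocks -/
def sb (bs : List (B L)) : ℤ × ℤ := sm L (bs.map bl)

lemma sb_nil : sb ([] : List (B L)) = 0 := rfl

lemma sb_append (a b : List (B L)) : sb (a ++ b) = sb a + sb b := by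
  unfold sb
  rw [List.map_append, sm_append]

lemma sb_cons (i : B L) (b : List (B L)) : sb (i :: b) = la L (bl i) + sb b := by
  unfold sb
  rw [List.map_cons, sm_cons]

lemma sb_single (i : B L) : sb [i] = la L (bl i) := by
  rw [sb_cons, sb_nil, add_zero]

lemma one_le_H (i : B L) : 1 ≤ (la L (bl i)).1 := (bl_blk i).pos

lemma sb_len (bs : List (B L)) : (bs.length : ℤ) ≤ (sb bs).1 := by
  induction bs with
  | nil => simp [sb_nil]
  | cons i bs ih =>
    rw [sb_cons, Prod.fst_add, List.length_cons]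
    have := one_le_H i
    push_cast
    omega

/-- the first blocks -/
def pf (ω : ℕ → B L) (n : ℕ) : List (B L) := (List.range n).map ω

lemma pf_succ (ω : ℕ → B L) (n : ℕ) : pf ω (n + 1) = pf ω n ++ [ω n] := by
  unfold pf
  rw [List.range_succ, List.map_append, List.map_singleton]

lemma pf_len (ω : ℕ → B L) (n : ℕ) : (pf ω n).length = n := by
  unfold pf
  rw [List.length_map, List.length_range]

lemma pf_get (ω : ℕ → B L) (n i : ℕ) (h : i < (pf ω n).length) : (pf ω n)[i] = ω i := by
  simp [pf]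

lemma mem_cyl {ω : ℕ → B L} {bs : List (B L)} : ω ∈ cyl bs ↔ pf ω bs.length = bs := by
  unfold cyl
  constructor
  · intro h
    refine List.ext_getElem (pf_len ω _) fun i h1 h2 => ?_
    rw [pf_get]
    exact h i h2
  · intro h i hi
    have h1 : i < (pf ω bs.length).length := by rw [pf_len]; exact hi
    have h2 : (pf ω bs.length)[i] = ω i := pf_get ω _ i h1
    rw [← h2]
    simp only [h]

lemma pf_lt {ω : ℕ → B L} {m n : ℕ} (h : m < n) : (sb (pf ω m)).1 < (sb (pf ω n)).1 := by
  induction n with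
  | zero => omega
  | succ n ih =>
    rw [pf_succ, sb_append, Prod.fst_add, sb_single]
    have := one_le_H (ω n)
    rcases Nat.lt_succ_iff_lt_or_eq.1 h with h1 | rfl
    · have := ih h1
      omega
    · omega

lemma cyl_disj {bs bs' : List (B L)} (h : (sb bs).1 = (sb bs').1) (hne : bs ≠ bs') :
    Disjoint (cyl bs) (cyl bs') := by
  rw [Set.disjoint_left]
  intro ω h1 h2
  rw [mem_cyl] at h1 h2
  apply hne
  rcases lt_trichotomy bs.length bs'.length with hl | hl | hl
  · have := pf_lt (ω := ω) hl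
    rw [h1, h2] at this
    omega
  · rw [← h1, ← h2, hl]
  · have := pf_lt (ω := ω) hl
    rw [h1, h2] at this
    omega

variable (μ) in
/-- the mass of a set of sequences of blocks -/
noncomputable def Wt (S : Set (List (B L))) : ℝ≥0∞ := ∑' bs : S, ws μ bs.1

variable (L) in
/-- the sequences of blocks with total height `T` -/
def Ht (T : ℤ) : Set (List (B L)) := {bs | (sb bs).1 = T}

lemma Wt_eq (F : Fct L μ) {T : ℤ} {S : Set (List (B L))} (h : S ⊆ Ht L T) : Wt μ S = PP F (⋃ bs ∈ S, cyl bs) := by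
  rw [measure_biUnion (Set.to_countable S) ?_ fun bs _ => cyl_meas bs]
  · unfold Wt
    exact tsum_congr fun bs => (cyl_mass F bs).symm
  · intro bs hbs bs' hbs' hne
    have h1 : (sb bs).1 = T := h hbs
    have h2 : (sb bs').1 = T := h hbs'
    exact cyl_disj (by rw [h1, h2]) hne

lemma Wt_mono {S S' : Set (List (B L))} (h : S ⊆ S') : Wt μ S ≤ Wt μ S' :=
  ENNReal.tsum_mono_subtype (ws μ) h

lemma Wt_union (S S' : Set (List (B L))) : Wt μ (S ∪ S') ≤ Wt μ S + Wt μ S' :=
  ENNReal.tsum_union_le (ws μ) S S'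

lemma Wt_inj {S S' : Set (List (B L))} (f : List (B L) → List (B L)) (hf : Function.Injective f)
    (h : ∀ bs ∈ S, f bs ∈ S') : ∑' bs : S, ws μ (f bs) ≤ Wt μ S' := by
  unfold Wt
  exact ENNReal.tsum_comp_le_tsum_of_injective (f := fun bs : S => (⟨f bs.1, h bs.1 bs.2⟩ : S'))
    (fun a b hab => Subtype.ext (hf (Subtype.mk.inj hab))) (fun bs : S' => ws μ bs.1)

lemma ws_append (a b : List (B L)) : ws μ (a ++ b) = ws μ a * ws μ b := by
  unfold ws
  rw [List.map_append, List.prod_append]

lemma ws_single (i : B L) : ws μ [i] = wt μ i := by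
  unfold ws
  simp

variable (L μ) in
/-- the mass of the sequences of blocks with total height `T` -/
noncomputable def uu (T : ℤ) : ℝ≥0∞ := Wt μ (Ht L T)

lemma uu_le_one (F : Fct L μ) (T : ℤ) : uu L μ T ≤ 1 := by
  unfold uu
  rw [Wt_eq F (le_refl (Ht L T))]
  exact prob_le_one

variable (L μ) in
/-- the tail of the height of a block -/
noncomputable def rr (k : ℕ) : ℝ≥0∞ := ∑' i : B L, if (k : ℤ) < (la L (bl i)).1 then wt μ i else 0

lemma rr_le_one (F : Fct L μ) (k : ℕ) : rr L μ k ≤ 1 := by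
  rw [← wt_sum F]
  refine ENNReal.tsum_le_tsum fun i => ?_
  split_ifs
  · exact le_rfl
  · exact bot_le

lemma rr_sum (hf : Fin1 L μ) : ∑' k, rr L μ k ≠ ⊤ := by
  unfold rr
  rw [ENNReal.tsum_comm]
  refine ne_top_of_le_ne_top hf (ENNReal.tsum_le_tsum fun i => ?_)
  have h1 : ∀ k : ℕ, k ∉ Finset.range (ra L (bl i)) →
      (if (k : ℤ) < (la L (bl i)).1 then wt μ i else 0) = 0 := by
    intro k hk
    rw [Finset.mem_range, not_lt] at hk
    have h2 := (le_ra (L := L) (List.prefix_refl (bl i))).1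
    have h3 : (la L (bl i)).1 = L.l (bl i).sum := rfl
    rw [if_neg]
    omega
  rw [tsum_eq_sum h1]
  calc ∑ k ∈ Finset.range (ra L (bl i)), (if (k : ℤ) < (la L (bl i)).1 then wt μ i else 0)
      ≤ ∑ _k ∈ Finset.range (ra L (bl i)), wt μ i := Finset.sum_le_sum fun k _ => by
        split_ifs
        · exact le_rfl
        · exact bot_le
    _ = wt μ i * ra L (bl i) := by
        rw [Finset.sum_const, Finset.card_range, nsmul_eq_mul, mul_comm]

lemma cover (F : Fct L μ) (T : ℕ) : (1 : ℝ≥0∞) ≤ ∑ k ∈ Finset.range (T + 1), uu L μ (T - k) * rr L μ k := by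
  have h1 : (Set.univ : Set (ℕ → B L)) ⊆ ⋃ k ∈ Finset.range (T + 1), ⋃ bs ∈ Ht L ((T : ℤ) - k),
      ⋃ i : B L, if (k : ℤ) < (la L (bl i)).1 then cyl (bs ++ [i]) else ∅ := by
    intro ω _
    have hex : ∃ n, (T : ℤ) < (sb (pf ω n)).1 := by
      refine ⟨T + 1, ?_⟩
      have := sb_len (pf ω (T + 1))
      rw [pf_len] at this
      push_cast at this
      omega
    classical
    obtain ⟨m, hm⟩ : ∃ m, Nat.find hex = m + 1 := by
      refine Nat.exists_eq_succ_of_ne_zero fun h0 => ?_
      have := Nat.find_spec hex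
      rw [h0] at this
      have e : (sb (pf ω 0)).1 = 0 := rfl
      rw [e] at this
      omega
    have h2 := Nat.find_spec hex
    have h3 := Nat.find_min hex (m := m) (by omega)
    rw [hm] at h2
    rw [not_lt] at h3
    have h4 := sb_len (pf ω m)
    have h5 : 0 ≤ (sb (pf ω m)).1 := by omega
    obtain ⟨k, hk⟩ := Int.eq_ofNat_of_zero_le (show 0 ≤ (T : ℤ) - (sb (pf ω m)).1 by omega)
    rw [Set.mem_iUnion₂]
    refine ⟨k, Finset.mem_range.2 (by omega), ?_⟩
    rw [Set.mem_iUnion₂]
    refine ⟨pf ω m, ?_, ?_⟩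
    · show (sb (pf ω m)).1 = (T : ℤ) - k
      omega
    rw [Set.mem_iUnion]
    refine ⟨ω m, ?_⟩
    rw [pf_succ, sb_append, Prod.fst_add, sb_single] at h2
    rw [if_pos (by omega), mem_cyl, List.length_append, pf_len, List.length_singleton, pf_succ]
  calc (1 : ℝ≥0∞) = PP F Set.univ := measure_univ.symm
    _ ≤ PP F (⋃ k ∈ Finset.range (T + 1), ⋃ bs ∈ Ht L ((T : ℤ) - k),
      ⋃ i : B L, if (k : ℤ) < (la L (bl i)).1 then cyl (bs ++ [i]) else ∅) := measure_mono h1
    _ ≤ ∑ k ∈ Finset.range (T + 1), PP F (⋃ bs ∈ Ht L ((T : ℤ) - k),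
      ⋃ i : B L, if (k : ℤ) < (la L (bl i)).1 then cyl (bs ++ [i]) else ∅) :=
        measure_biUnion_finset_le _ _
    _ ≤ ∑ k ∈ Finset.range (T + 1), uu L μ (T - k) * rr L μ k := by
        refine Finset.sum_le_sum fun k _ => ?_
        refine (measure_biUnion_le _ (Set.to_countable _) _).trans ?_
        unfold uu Wt
        rw [← ENNReal.tsum_mul_right]
        refine ENNReal.tsum_le_tsum fun bs => ?_
        refine (measure_iUnion_le _).trans ?_
        unfold rr
        rw [← ENNReal.tsum_mul_left]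
        refine ENNReal.tsum_le_tsum fun i => ?_
        split_ifs
        · rw [cyl_mass F, ws_append, ws_single]
        · simp

lemma e1_blk : Blk L [L.e] := by
  have h0 : ∀ u : List V, u <:+: [L.e] → u = [] ∨ u = [L.e] := by
    rintro u ⟨p, q, h⟩
    have h1 := congrArg List.length h
    simp only [List.length_append, List.length_singleton] at h1
    by_cases hu : u = []
    · exact Or.inl hu
    · have h2 := List.length_pos_iff.2 hu
      have hp : p = [] := List.length_eq_zero_iff.1 (by omega)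
      have hq : q = [] := List.length_eq_zero_iff.1 (by omega)
      subst hp
      subst hq
      right
      simpa using h
  have h1 : L.l ([L.e] : List V).sum = 1 := by
    rw [List.sum_singleton, L.le]
  refine ⟨?_, ⟨⟨?_, ?_⟩, ?_⟩, by simp, ?_⟩
  · intro a ha
    rw [List.mem_singleton] at ha
    rw [ha]
    exact L.he
  · intro u hu hn h2
    rcases h0 u hn with h3 | h3
    · exact hu h3
    · rw [h3] at h2
      rw [h2, map_zero] at h1
      omega
  · intro u hu hn
    rcases h0 u hn.isInfix with h3 | h3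
    · exact absurd h3 hu
    · rw [h3, h1]
      omega
  · intro u hn
    rcases h0 u hn.isInfix with h3 | h3
    · rw [h3]
      simp
    · rw [h3, h1]
      omega
  · intro u v h _
    have h2 := congrArg List.length h
    simp only [List.length_append, List.length_singleton] at h2
    by_cases hu : u = []
    · exact Or.inl hu
    · right
      have h3 := List.length_pos_iff.2 hu
      exact List.length_eq_zero_iff.1 (by omega)

variable (L) in
/-- the straight step -/
def e1 : B L := ⟨[L.e], e1_blk⟩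

lemma la_e1 : la L (bl (e1 L)) = (1, 0) := by
  show (L.l ([L.e] : List V).sum, L.k ([L.e] : List V).sum) = (1, 0)
  rw [List.sum_singleton, L.le, L.ke]

lemma wd_e1 : wd L (bl (e1 L)) = 0 := by
  classical
  unfold wd
  rw [← Nat.le_zero]
  refine Finset.sup_le fun u hu => ?_
  rw [List.mem_toFinset, List.mem_inits] at hu
  have hu' : u <+: [L.e] := hu
  have h2 : u = [] ∨ u = [L.e] := by
    rcases List.prefix_cons_iff.1 hu' with h | ⟨t, rfl, ht⟩
    · exact Or.inl h
    · rw [List.prefix_nil] at ht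
      rw [ht]
      exact Or.inr rfl
  rcases h2 with rfl | rfl
  · simp
  · rw [List.sum_singleton, L.ke]
    simp

lemma wt_e1 (F : Fct L μ) : wt μ (e1 L) ≠ 0 := by
  unfold wt
  rw [Ne, ENNReal.ofReal_eq_zero, not_le]
  have := F.pos
  positivity

lemma sb_rep (k : ℕ) : sb (List.replicate k (e1 L)) = ((k : ℤ), 0) := by
  induction k with
  | zero => rfl
  | succ k ih =>
    rw [List.replicate_succ, sb_cons, ih, la_e1]
    exact Prod.ext (by simp only [Prod.fst_add]; push_cast; ring) (by simp)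

lemma ws_rep (k : ℕ) : ws μ (List.replicate k (e1 L)) = wt μ (e1 L) ^ k := by
  unfold ws
  rw [List.map_replicate, List.prod_replicate]

lemma uu_add (T : ℤ) (k : ℕ) : wt μ (e1 L) ^ k * uu L μ T ≤ uu L μ (T + k) := by
  have h := Wt_inj (μ := μ) (S := Ht L T) (S' := Ht L (T + k)) (fun bs => bs ++ List.replicate k (e1 L))
    (fun a b hab => List.append_cancel_right hab) (fun bs hbs => by
      show (sb (bs ++ List.replicate k (e1 L))).1 = T + k
      rw [sb_append, Prod.fst_add, sb_rep]
      have : (sb bs).1 = T := hbs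
      omega)
  refine le_trans (le_of_eq ?_) h
  unfold uu Wt
  rw [← ENNReal.tsum_mul_left]
  refine tsum_congr fun bs => ?_
  rw [ws_append, ws_rep, mul_comm]

/-- **Every height is the height of a cut line with a probability bounded below.** -/
theorem uu_lower (F : Fct L μ) (hf : Fin1 L μ) : ∃ c : ℝ≥0∞, c ≠ 0 ∧ ∀ T : ℕ, c ≤ uu L μ T := by
  have h1 := ENNReal.tendsto_sum_nat_add (rr L μ) (rr_sum hf)
  obtain ⟨J, hJ⟩ := (h1.eventually (ge_mem_nhds (show (0 : ℝ≥0∞) < 2⁻¹ by simp))).exists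
  have hle1 : wt μ (e1 L) ≤ 1 := by
    rw [← wt_sum F]
    exact ENNReal.le_tsum (e1 L)
  refine ⟨wt μ (e1 L) ^ J * (2 * ((J : ℝ≥0∞) + 1))⁻¹, ?_, fun T => ?_⟩
  · refine mul_ne_zero (pow_ne_zero _ (wt_e1 F)) ?_
    rw [Ne, ENNReal.inv_eq_zero]
    exact ENNReal.mul_ne_top (by simp) (by simp)
  by_contra hlt
  rw [not_le] at hlt
  have h2 : ∀ k < J, k ≤ T → uu L μ ((T : ℤ) - k) ≤ (2 * ((J : ℝ≥0∞) + 1))⁻¹ := by
    intro k hk hkT
    by_contra h3
    rw [not_le] at h3
    have h4 := uu_add (L := L) (μ := μ) ((T : ℤ) - k) k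
    rw [sub_add_cancel] at h4
    have h5 : wt μ (e1 L) ^ J * (2 * ((J : ℝ≥0∞) + 1))⁻¹ ≤ uu L μ T := by
      refine le_trans ?_ h4
      gcongr ?_ * ?_
      exact pow_le_pow_right_of_le_one' hle1 hk.le
    exact absurd hlt (not_lt.2 h5)
  have h3 := cover F T
  have h4 : ∑ k ∈ Finset.range (T + 1), uu L μ (T - k) * rr L μ k ≤
      ∑ k ∈ Finset.range J, (2 * ((J : ℝ≥0∞) + 1))⁻¹ + ∑' k, rr L μ (k + J) := by
    have h5 : ∀ k ∈ Finset.range (T + 1), uu L μ (T - k) * rr L μ k ≤
        (if k < J then (2 * ((J : ℝ≥0∞) + 1))⁻¹ else 0) + (if k < J then 0 else rr L μ k) := by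
      intro k hk
      rw [Finset.mem_range] at hk
      by_cases hkJ : k < J
      · rw [if_pos hkJ, if_pos hkJ, add_zero]
        calc uu L μ (T - k) * rr L μ k ≤ (2 * ((J : ℝ≥0∞) + 1))⁻¹ * 1 :=
              mul_le_mul' (h2 k hkJ (by omega)) (rr_le_one F k)
          _ = _ := mul_one _
      · rw [if_neg hkJ, if_neg hkJ, zero_add]
        calc uu L μ (T - k) * rr L μ k ≤ 1 * rr L μ k := mul_le_mul' (uu_le_one F _) le_rfl
          _ = _ := one_mul _
    refine (Finset.sum_le_sum h5).trans ?_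
    rw [Finset.sum_add_distrib]
    refine add_le_add ?_ ?_
    · rw [← Finset.sum_filter]
      refine Finset.sum_le_sum_of_subset ?_
      intro k hk
      rw [Finset.mem_filter] at hk
      exact Finset.mem_range.2 hk.2
    · calc ∑ k ∈ Finset.range (T + 1), (if k < J then 0 else rr L μ k)
          ≤ ∑' k, (if k < J then 0 else rr L μ k) := ENNReal.sum_le_tsum _
        _ = ∑' k, rr L μ (k + J) := by
          rw [← ENNReal.summable.sum_add_tsum_nat_add' (f := fun k => if k < J then 0 else rr L μ k)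
            (k := J)]
          have e0 : ∑ k ∈ Finset.range J, (if k < J then 0 else rr L μ k) = 0 :=
            Finset.sum_eq_zero fun k hk => if_pos (Finset.mem_range.1 hk)
          rw [e0, zero_add]
          refine tsum_congr fun k => ?_
          rw [if_neg (by omega)]
  have h5 : ∑ k ∈ Finset.range J, (2 * ((J : ℝ≥0∞) + 1))⁻¹ < 2⁻¹ := by
    rw [Finset.sum_const, Finset.card_range, nsmul_eq_mul]
    rw [ENNReal.mul_inv (by simp) (by simp)]
    have h6 : (J : ℝ≥0∞) * ((J : ℝ≥0∞) + 1)⁻¹ < 1 := by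
      rw [← div_eq_mul_inv, ENNReal.div_lt_iff (by simp) (by simp), one_mul]
      exact_mod_cast Nat.lt_succ_self J
    calc (J : ℝ≥0∞) * (2⁻¹ * ((J : ℝ≥0∞) + 1)⁻¹) = 2⁻¹ * ((J : ℝ≥0∞) * ((J : ℝ≥0∞) + 1)⁻¹) := by
          ring
      _ < 2⁻¹ * 1 := by
          rw [ENNReal.mul_lt_mul_iff_right (by simp) (by simp)]
          exact h6
      _ = 2⁻¹ := mul_one _
  have h6 : (1 : ℝ≥0∞) < 1 := by
    calc (1 : ℝ≥0∞) ≤ _ := h3
      _ ≤ _ := h4
      _ < 2⁻¹ + 2⁻¹ := ENNReal.add_lt_add_of_lt_of_le (ne_top_of_le_ne_top (by simp) hJ) h5 hJ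
      _ = 1 := ENNReal.inv_two_add_inv_two
  exact lt_irrefl _ h6

end H982.DN
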