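import Pool.Agent.H982.DN6

/-!
# Good sequences of blocks have a mass bounded below
-/

set_option autoImplicit false
set_option linter.unusedSectionVars false

namespace H982.DN

open MeasureTheory ProbabilityTheory Filter Topology
open Pool.Agent.Q234.HS
open scoped ENNReal

variable {V : Type} [AddCommGroup V] [Countable V] {L : Lat V} {μ : ℝ}

/-- shifted cone conditions -/
def fK (K : ℤ) (bs : List (B L)) : Prop :=
  ∀ l b r, bs = l ++ b :: r → 2 * |(sb l).2| + 4 * (wd L (bl b) : ℤ) ≤ (sb l).1 + K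

def bK (K : ℤ) (bs : List (B L)) : Prop :=
  ∀ l b r, bs = l ++ b :: r → 2 * |(sb r).2| + 4 * (wd L (bl b) : ℤ) ≤ (sb r).1 + K

def eK (E : ℤ) (bs : List (B L)) : Prop :=
  ∀ l b r, bs = l ++ b :: r → |(sb l).2| + (wd L (bl b) : ℤ) ≤ E

lemma sb_rev (bs : List (B L)) : sb bs.reverse = sb bs := by
  unfold sb sm
  rw [List.map_reverse, List.map_reverse, List.sum_reverse]

lemma ws_rev (bs : List (B L)) : ws μ bs.reverse = ws μ bs := by
  unfold ws
  rw [List.map_reverse, List.prod_reverse]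

lemma bK_rev {K : ℤ} {bs : List (B L)} : bK K bs ↔ fK K bs.reverse := by
  constructor
  · intro h l b r e
    have e2 : bs = r.reverse ++ b :: l.reverse := by
      rw [← List.reverse_reverse bs, e]
      simp
    have := h _ _ _ e2
    rwa [sb_rev] at this
  · intro h l b r e
    have e2 : bs.reverse = r.reverse ++ b :: l.reverse := by
      rw [e]
      simp
    have := h _ _ _ e2
    rwa [sb_rev] at this

lemma cyl_app {l r : List (B L)} {b : B L} {ω : ℕ → B L} (h : ω ∈ cyl (l ++ b :: r)) :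
    pf ω l.length = l ∧ ω l.length = b := by
  unfold cyl at h
  rw [Set.mem_ofPred_eq] at h
  constructor
  · refine List.ext_getElem (pf_len ω _) fun i h1 h2 => ?_
    rw [pf_get, h i (by rw [List.length_append]; omega), List.getElem_append_left h2]
  · rw [h l.length (by rw [List.length_append, List.length_cons]; omega),
      List.getElem_append_right le_rfl]
    simp

lemma sum_Xf (ω : ℕ → B L) (n : ℕ) :
    ∑ i ∈ Finset.range n, Xf (ω i) = ((sb (pf ω n)).2 : ℝ) := by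
  induction n with
  | zero =>
    have e : (sb (pf ω 0)).2 = 0 := rfl
    rw [e]
    simp
  | succ n ih =>
    rw [Finset.sum_range_succ, ih, pf_succ, sb_append, sb_single, Prod.snd_add]
    unfold Xf
    push_cast
    rfl

lemma gg_cyl {l r : List (B L)} {b : B L} {ω : ℕ → B L} (h : ω ∈ cyl (l ++ b :: r)) :
    gg ω l.length = (|(sb l).2| : ℤ) + 2 * (wd L (bl b) : ℝ) := by
  obtain ⟨h1, h2⟩ := cyl_app h
  unfold gg wf
  rw [sum_Xf, h1, h2, Int.cast_abs]

lemma bad_f (F : Fct L μ) {T : ℤ} (K : ℕ) :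
    Wt μ (Ht L T ∩ {bs | ¬ fK (2 * K) bs}) ≤ PP F (VV L (1 / 2) K) := by
  rw [Wt_eq F (T := T) Set.inter_subset_left]
  refine measure_mono ?_
  intro ω hω
  rw [Set.mem_iUnion₂] at hω
  obtain ⟨bs, ⟨-, hbs⟩, hc⟩ := hω
  rw [Set.mem_ofPred_eq] at hbs
  unfold fK at hbs
  push Not at hbs
  obtain ⟨l, b, r, rfl, hlt⟩ := hbs
  refine ⟨l.length, ?_⟩
  rw [gg_cyl hc]
  have h1 := sb_len l
  have h2 : (l.length : ℤ) + 2 * K < 2 * |(sb l).2| + 4 * (wd L (bl b) : ℤ) := by omega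
  have h3 : ((l.length : ℤ) + 2 * K : ℝ) < 2 * (|(sb l).2| : ℤ) + 4 * (wd L (bl b) : ℤ) := by
    exact_mod_cast h2
  push_cast at h3 ⊢
  linarith

lemma bad_b (F : Fct L μ) {T : ℤ} (K : ℕ) :
    Wt μ (Ht L T ∩ {bs | ¬ bK (2 * K) bs}) ≤ PP F (VV L (1 / 2) K) := by
  refine le_trans ?_ (bad_f F (T := T) K)
  refine le_trans (le_of_eq ?_) (Wt_inj (S := Ht L T ∩ {bs | ¬ bK (2 * K) bs}) List.reverse
    List.reverse_injective ?_)
  · unfold Wt
    exact tsum_congr fun bs => (ws_rev _).symm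
  · rintro bs ⟨h1, h2⟩
    refine ⟨?_, ?_⟩
    · show (sb bs.reverse).1 = T
      rw [sb_rev]
      exact h1
    · rw [Set.mem_ofPred_eq, bK_rev] at h2
      exact h2

lemma bad_e (F : Fct L μ) {T E : ℤ} {δ : ℝ} (hδ : 0 ≤ δ) (K : ℕ) (hE : δ * T + K ≤ E) :
    Wt μ (Ht L T ∩ {bs | ¬ eK E bs}) ≤ PP F (VV L δ K) := by
  rw [Wt_eq F (T := T) Set.inter_subset_left]
  refine measure_mono ?_
  intro ω hω
  rw [Set.mem_iUnion₂] at hω
  obtain ⟨bs, ⟨hT, hbs⟩, hc⟩ := hω
  rw [Set.mem_ofPred_eq] at hbs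
  unfold eK at hbs
  push Not at hbs
  obtain ⟨l, b, r, rfl, hlt⟩ := hbs
  refine ⟨l.length, ?_⟩
  rw [gg_cyl hc]
  have h1 := sb_len l
  have h2 := sb_len (b :: r)
  have h3 : (sb (l ++ b :: r)).1 = T := hT
  rw [sb_append, Prod.fst_add] at h3
  have h4 : (l.length : ℤ) ≤ T := by omega
  have h5 : ((l.length : ℤ) : ℝ) ≤ (T : ℝ) := by exact_mod_cast h4
  have h6 : (E : ℝ) < (|(sb l).2| : ℤ) + ((wd L (bl b) : ℤ) : ℝ) := by exact_mod_cast hlt
  have h7 : (0 : ℝ) ≤ (wd L (bl b) : ℝ) := Nat.cast_nonneg _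
  push_cast at h5 h6 ⊢
  have h8 : δ * (l.length : ℝ) ≤ δ * T := mul_le_mul_of_nonneg_left h5 hδ
  linarith

variable (L) in
/-- the good sequences -/
def GK (K : ℕ) (E T : ℤ) : Set (List (B L)) :=
  {bs | (sb bs).1 = T ∧ fK (2 * K) bs ∧ bK (2 * K) bs ∧ eK E bs}

lemma GK_lower (F : Fct L μ) {K : ℕ} {E T : ℤ} {c : ℝ≥0∞} (hc : c ≠ ⊤) (hu : c ≤ uu L μ T)
    (h1 : PP F (VV L (1 / 2) K) ≤ c / 6) {δ : ℝ} (hδ : 0 ≤ δ) {K' : ℕ} (hE : δ * T + K' ≤ E)
    (h2 : PP F (VV L δ K') ≤ c / 6) : c / 2 ≤ Wt μ (GK L K E T) := by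
  have h3 : Ht L T ⊆ GK L K E T ∪ (Ht L T ∩ {bs | ¬ fK (2 * K) bs} ∪
      (Ht L T ∩ {bs | ¬ bK (2 * K) bs} ∪ Ht L T ∩ {bs | ¬ eK E bs})) := by
    intro bs hbs
    by_cases k1 : fK (2 * K) bs
    · by_cases k2 : bK (2 * K) bs
      · by_cases k3 : eK E bs
        · exact Or.inl ⟨hbs, k1, k2, k3⟩
        · exact Or.inr (Or.inr (Or.inr ⟨hbs, k3⟩))
      · exact Or.inr (Or.inr (Or.inl ⟨hbs, k2⟩))
    · exact Or.inr (Or.inl ⟨hbs, k1⟩)
  have h4 : c ≤ Wt μ (GK L K E T) + (c / 6 + (c / 6 + c / 6)) := by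
    refine hu.trans ((Wt_mono h3).trans ?_)
    refine (Wt_union _ _).trans (add_le_add le_rfl ?_)
    refine (Wt_union _ _).trans (add_le_add ((bad_f F K).trans h1) ?_)
    exact (Wt_union _ _).trans (add_le_add ((bad_b F K).trans h1) ((bad_e F hδ K' hE).trans h2))
  have h5 : c / 6 + (c / 6 + c / 6) = c / 2 := by
    have : c / 6 + (c / 6 + c / 6) = 3 * (c / 6) := by ring
    rw [this, div_eq_mul_inv, div_eq_mul_inv, mul_left_comm]
    congr 1
    have h6 : (6 : ℝ≥0∞) = 3 * 2 := by norm_num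
    rw [h6, ENNReal.mul_inv (by simp) (by simp), ← mul_assoc,
      ENNReal.mul_inv_cancel (by simp) (by simp), one_mul]
  rw [h5] at h4
  have h7 : c / 2 ≠ ⊤ := ENNReal.div_ne_top hc (by simp)
  have h8 : c / 2 + c / 2 ≤ Wt μ (GK L K E T) + c / 2 := by
    rw [ENNReal.add_halves]
    exact h4
  exact (ENNReal.add_le_add_iff_right h7).1 h8

variable (L) in
/-- the good walks -/
def GG (E T : ℤ) : Set (List (B L)) :=
  {bs | (sb bs).1 = T ∧ fwd L (bs.map bl) ∧ bwd L (bs.map bl) ∧ ext L E (bs.map bl)}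

lemma app_case {α : Type} {x y l r : List α} {b : α} (h : x ++ y = l ++ b :: r) :
    (∃ r', x = l ++ b :: r' ∧ r = r' ++ y) ∨ ∃ l', l = x ++ l' ∧ y = l' ++ b :: r := by
  rw [List.append_eq_append_iff] at h
  rcases h with ⟨a, h1, h2⟩ | ⟨a, h1, h2⟩
  · exact Or.inr ⟨a, h1, h2⟩
  · cases a with
    | nil =>
      right
      refine ⟨[], ?_, ?_⟩
      · rw [List.append_nil] at h1 ⊢
        exact h1.symm
      · rw [List.nil_append] at h2 ⊢
        exact h2.symm
    | cons z t =>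
      left
      rw [List.cons_append] at h2
      obtain ⟨rfl, rfl⟩ := List.cons.inj h2
      exact ⟨t, h1, rfl⟩

lemma rep_case {K : ℕ} {l r : List (B L)} {b : B L} (h : List.replicate K (e1 L) = l ++ b :: r) :
    l = List.replicate l.length (e1 L) ∧ b = e1 L := by
  have h1 : ∀ z ∈ l ++ b :: r, z = e1 L := by
    rw [← h]
    exact fun z hz => List.eq_of_mem_replicate hz
  exact ⟨List.eq_replicate_iff.2 ⟨rfl, fun z hz => h1 z (List.mem_append_left _ hz)⟩,
    h1 b (by simp)⟩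

/-- straight pieces at both ends -/
def ex (K : ℕ) (bs : List (B L)) : List (B L) := List.replicate K (e1 L) ++ (bs ++ List.replicate K (e1 L))

lemma map_split {bs : List (B L)} {l r : List (List V)} {b : List V} (h : bs.map bl = l ++ b :: r) :
    ∃ l' b' r', bs = l' ++ b' :: r' ∧ l'.map bl = l ∧ bl b' = b ∧ r'.map bl = r := by
  rw [List.map_eq_append_iff] at h
  obtain ⟨l', s, rfl, h1, h2⟩ := h
  rw [List.map_eq_cons_iff] at h2
  obtain ⟨b', r', rfl, h3, h4⟩ := h2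
  exact ⟨l', b', r', rfl, h1, h3, h4⟩

lemma abs_X_le (b : B L) : |(la L (bl b)).2| ≤ (wd L (bl b) : ℤ) :=
  le_wd (List.prefix_refl (bl b))

lemma fK_end {K : ℤ} (hK : 0 ≤ K) {bs : List (B L)} (h : fK K bs) : 2 * |(sb bs).2| ≤ (sb bs).1 + K := by
  rcases List.eq_nil_or_concat bs with rfl | ⟨l, b, rfl⟩
  · simpa [sb_nil] using hK
  · rw [List.concat_eq_append] at h ⊢
    have h1 := h l b [] rfl
    rw [sb_append, sb_single, Prod.snd_add, Prod.fst_add]
    have h2 := abs_add_le (sb l).2 (la L (bl b)).2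
    have h3 := abs_X_le b
    have h4 := one_le_H b
    omega

lemma eK_end {E : ℤ} (hE : 0 ≤ E) {bs : List (B L)} (h : eK E bs) : |(sb bs).2| ≤ E := by
  rcases List.eq_nil_or_concat bs with rfl | ⟨l, b, rfl⟩
  · simpa [sb_nil] using hE
  · rw [List.concat_eq_append] at h ⊢
    have h1 := h l b [] rfl
    rw [sb_append, sb_single, Prod.snd_add]
    have h2 := abs_add_le (sb l).2 (la L (bl b)).2
    have h3 := abs_X_le b
    omega

lemma ex_fwd {K : ℕ} {bs : List (B L)} (h : fK (2 * K) bs) : fwd L ((ex (2 * K) bs).map bl) := by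
  intro l b r e
  obtain ⟨l', b', r', e', rfl, rfl, rfl⟩ := map_split e
  show 2 * |(sb l').2| + 4 * (wd L (bl b') : ℤ) ≤ (sb l').1
  unfold ex at e'
  rcases app_case e' with ⟨r2, e2, -⟩ | ⟨l2, rfl, e2⟩
  · obtain ⟨h1, rfl⟩ := rep_case e2
    rw [h1, sb_rep, wd_e1]
    simp
  · rw [sb_append, sb_rep]
    rcases app_case e2 with ⟨r3, e3, -⟩ | ⟨l3, rfl, e3⟩
    · have := h _ _ _ e3
      simp only [Prod.fst_add, Prod.snd_add]
      push_cast
      rw [zero_add]
      omega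
    · obtain ⟨h1, rfl⟩ := rep_case e3
      rw [h1, sb_append, sb_rep, wd_e1]
      have := fK_end (by positivity) h
      simp only [Prod.fst_add, Prod.snd_add]
      push_cast
      simp only [zero_add, add_zero]
      omega

lemma ex_ext {K : ℕ} {E : ℤ} (hE : 0 ≤ E) {bs : List (B L)} (h : eK E bs) :
    ext L E ((ex K bs).map bl) := by
  intro l b r e
  obtain ⟨l', b', r', e', rfl, rfl, rfl⟩ := map_split e
  show |(sb l').2| + (wd L (bl b') : ℤ) ≤ E
  unfold ex at e'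
  rcases app_case e' with ⟨r2, e2, -⟩ | ⟨l2, rfl, e2⟩
  · obtain ⟨h1, rfl⟩ := rep_case e2
    rw [h1, sb_rep, wd_e1]
    simpa using hE
  · rw [sb_append, sb_rep]
    rcases app_case e2 with ⟨r3, e3, -⟩ | ⟨l3, rfl, e3⟩
    · have := h _ _ _ e3
      simp only [Prod.snd_add]
      rw [zero_add]
      omega
    · obtain ⟨h1, rfl⟩ := rep_case e3
      rw [h1, sb_append, sb_rep, wd_e1]
      have := eK_end hE h
      simp only [Prod.snd_add]
      push_cast
      simp only [zero_add, add_zero]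
      omega

lemma ex_rev (K : ℕ) (bs : List (B L)) : (ex K bs).reverse = ex K bs.reverse := by
  unfold ex
  rw [List.reverse_append, List.reverse_append, List.reverse_replicate, List.append_assoc]

lemma bwd_rev {W : List (List V)} (h : fwd L W.reverse) : bwd L W := by
  intro l b r e
  have e2 : W.reverse = r.reverse ++ b :: l.reverse := by
    rw [e]
    simp
  have := h _ _ _ e2
  have e3 : sm L r.reverse = sm L r := by
    unfold sm
    rw [List.map_reverse, List.sum_reverse]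
  rwa [e3] at this

lemma ex_bwd {K : ℕ} {bs : List (B L)} (h : bK (2 * K) bs) : bwd L ((ex (2 * K) bs).map bl) := by
  refine bwd_rev ?_
  rw [← List.map_reverse, ex_rev]
  exact ex_fwd (bK_rev.1 h)

lemma ex_inj (K : ℕ) : Function.Injective (ex (L := L) K) := by
  intro a b h
  unfold ex at h
  exact List.append_cancel_right (List.append_cancel_left h)

lemma GG_lower {K : ℕ} {E T : ℤ} (hE : 0 ≤ E) :
    wt μ (e1 L) ^ (4 * K) * Wt μ (GK L K E (T - 4 * K)) ≤ Wt μ (GG L E T) := by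
  have h := Wt_inj (μ := μ) (S := GK L K E (T - 4 * K)) (S' := GG L E T) (ex (2 * K)) (ex_inj _) ?_
  · refine le_trans (le_of_eq ?_) h
    unfold Wt
    rw [← ENNReal.tsum_mul_left]
    refine tsum_congr fun bs => ?_
    unfold ex
    rw [ws_append, ws_append, ws_rep, show 4 * K = 2 * K + 2 * K by ring, pow_add]
    ring
  · rintro bs ⟨h1, h2, h3, h4⟩
    refine ⟨?_, ex_fwd h2, ex_bwd h3, ex_ext hE h4⟩
    unfold ex
    rw [sb_append, sb_append, sb_rep]
    simp only [Prod.fst_add]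
    push_cast
    omega

end H982.DN
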