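import Pool.Agent.H982.DN7

/-!
# The mean size of an irreducible bridge is infinite
-/

set_option autoImplicit false
set_option linter.unusedSectionVars false

namespace H982.DN

open MeasureTheory ProbabilityTheory Filter Topology
open Pool.Agent.Q234.HS (Saw Br Half Cut N ps)
open scoped ENNReal

variable {V : Type} [AddCommGroup V] [Countable V] {L : Lat V} {μ : ℝ}

lemma ws_eq (F : Fct L μ) (bs : List (B L)) :
    ws μ bs = ENNReal.ofReal ((μ ^ (bs.map bl).flatten.length)⁻¹) := by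
  induction bs with
  | nil => simp [ws]
  | cons i bs ih =>
    have e : ws μ (i :: bs) = wt μ i * ws μ bs := by
      unfold ws
      rw [List.map_cons, List.prod_cons]
    have := F.pos
    rw [e, ih, List.map_cons, List.flatten_cons, List.length_append]
    unfold wt
    rw [← ENNReal.ofReal_mul (by positivity), pow_add, mul_inv]

lemma all_blk (a : List (B L)) : ∀ β ∈ a.map bl, Blk L β := by
  intro β hβ
  rw [List.mem_map] at hβ
  obtain ⟨i, -, rfl⟩ := hβ
  exact bl_blk i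

lemma map_bl_inj : Function.Injective (List.map (bl : B L → List V)) := List.map_injective_iff.2 bl_inj

variable (L) in
/-- three sequences of blocks -/
abbrev T3 : Type := List (B L) × List (B L) × List (B L)

variable (μ) in
/-- the weight -/
noncomputable def w3 (x : T3 L) : ℝ≥0∞ := ws μ x.1 * (ws μ x.2.1 * ws μ x.2.2)

variable (L) in
/-- the good triples with a given height of the horizontal piece -/
def TT (M j : ℤ) : Set (T3 L) :=
  {x | Tri L M (x.1.map bl) (x.2.1.map bl) (x.2.2.map bl) ∧ (sb x.2.1).2 = j}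

lemma TT_le (F : Fct L μ) (M j : ℤ) : ∑' x : TT L M j, w3 μ x.1 ≤ 1 := by
  classical
  rw [ENNReal.tsum_eq_iSup_sum]
  refine iSup_le fun s => ?_
  have hμ := F.pos
  let f : TT L M j → List V := fun x => W L (x.1.1.map bl) (x.1.2.1.map bl) (x.1.2.2.map bl)
  have hf : Function.Injective f := by
    rintro ⟨⟨a, h, b⟩, hx, hj⟩ ⟨⟨a', h', b'⟩, hx', hj'⟩ e
    obtain ⟨e1, e2, e3⟩ := tri_inj hx hx' (by
      have h1 : (sm L (h.map bl)).2 = j := hj
      have h2 : (sm L (h'.map bl)).2 = j := hj'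
      simp only
      rw [h1, h2]) e
    have g1 := map_bl_inj e1
    have g2 := map_bl_inj e2
    have g3 := map_bl_inj e3
    subst g1
    subst g2
    subst g3
    rfl
  have h1 : ∀ x : TT L M j, w3 μ x.1 = ENNReal.ofReal ((μ ^ (f x).length)⁻¹) := by
    rintro ⟨⟨a, h, b⟩, hx, hj⟩
    unfold w3
    simp only [f]
    rw [hx.len, ws_eq F, ws_eq F, ws_eq F, ← ENNReal.ofReal_mul (by positivity),
      ← ENNReal.ofReal_mul (by positivity)]
    congr 1
    rw [pow_add, pow_add, mul_inv, mul_inv]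
    ring
  simp only [h1]
  rw [← ENNReal.ofReal_sum_of_nonneg fun x _ => by positivity]
  rw [ENNReal.ofReal_le_one]
  have h2 := V_mass F (3 * M) (s.image f) (by
    intro ω hω
    rw [Finset.mem_image] at hω
    obtain ⟨x, -, rfl⟩ := hω
    exact ⟨x.2.1.st, x.2.1.br, x.2.1.ht⟩)
  rwa [Finset.sum_image fun x _ y _ hxy => hf hxy] at h2

variable (L) in
/-- all good triples -/
def TA (M E : ℤ) : Set (T3 L) :=
  {x | Tri L M (x.1.map bl) (x.2.1.map bl) (x.2.2.map bl) ∧ |(sb x.2.1).2| ≤ E}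

lemma TA_le (F : Fct L μ) (M E : ℤ) : ∑' x : TA L M E, w3 μ x.1 ≤ ((Finset.Icc (-E) E).card : ℝ≥0∞) := by
  have h1 : TA L M E ⊆ ⋃ j ∈ Finset.Icc (-E) E, TT L M j := by
    rintro x ⟨h1, h2⟩
    rw [Set.mem_iUnion₂]
    exact ⟨(sb x.2.1).2, Finset.mem_Icc.2 (abs_le.1 h2), h1, rfl⟩
  refine (ENNReal.tsum_mono_subtype (w3 μ) h1).trans ?_
  refine (ENNReal.tsum_biUnion_le (w3 μ) _ _).trans ?_
  refine (Finset.sum_le_sum fun j _ => TT_le F M j).trans ?_
  rw [Finset.sum_const, nsmul_eq_mul, mul_one]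

variable (L) in
/-- triples, by the width of the horizontal piece -/
abbrev Y (K : ℕ) (M E : ℤ) : Type :=
  GG L E M × ((w : Finset.Icc (4 * (K : ℤ) + 1) M) × (h : GG L E w.1) × GG L E (2 * M - (sb h.1).2))

lemma Y_mem {K : ℕ} {M E : ℤ} (hE : 0 ≤ E) (y : Y L K M E) :
    ((y.1.1, y.2.2.1.1, y.2.2.2.1) : T3 L) ∈ TA L M E := by
  obtain ⟨⟨a, ha⟩, ⟨w, hw⟩, ⟨h, hh⟩, ⟨b, hb⟩⟩ := y
  rw [Finset.mem_Icc] at hw
  obtain ⟨a1, a2, a3, a4⟩ := ha
  obtain ⟨h1, h2, h3, h4⟩ := hh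
  obtain ⟨b1, b2, b3, b4⟩ := hb
  refine ⟨⟨all_blk a, all_blk h, all_blk b, a3, h2, h3, b2, a1, ?_, ?_, b1⟩, ?_⟩
  · show 0 < (sb h).1
    simp only at h1
    omega
  · show (sb h).1 ≤ M
    simp only at h1
    omega
  · exact ext_strip hE h4

lemma TA_ge {K : ℕ} {M E : ℤ} (hE : 0 ≤ E) (hM : 4 * (K : ℤ) ≤ M) {κ : ℝ≥0∞}
    (hκ : ∀ T : ℤ, 4 * (K : ℤ) ≤ T → T ≤ 3 * M → κ ≤ Wt μ (GG L E T)) :
    κ * ((Finset.Icc (4 * (K : ℤ) + 1) M).card * (κ * κ)) ≤ ∑' x : TA L M E, w3 μ x.1 := by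
  have hinj : Function.Injective (fun y : Y L K M E =>
      (⟨(y.1.1, y.2.2.1.1, y.2.2.2.1), Y_mem hE y⟩ : TA L M E)) := by
    rintro ⟨⟨a, ha⟩, ⟨w, hw⟩, ⟨h, hh⟩, ⟨b, hb⟩⟩ ⟨⟨a', ha'⟩, ⟨w', hw'⟩, ⟨h', hh'⟩, ⟨b', hb'⟩⟩ e
    simp only [Subtype.mk.injEq, Prod.mk.injEq] at e
    obtain ⟨rfl, rfl, rfl⟩ := e
    have h1 : (sb h).1 = w := hh.1
    have h2 : (sb h).1 = w' := hh'.1
    have h3 : w = w' := h1.symm.trans h2
    subst h3
    rfl
  refine le_trans ?_ (ENNReal.tsum_comp_le_tsum_of_injective hinj fun x : TA L M E => w3 μ x.1)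
  unfold w3
  simp only
  rw [ENNReal.tsum_prod']
  have hM' : κ ≤ Wt μ (GG L E M) := hκ M hM (by omega)
  calc κ * ((Finset.Icc (4 * (K : ℤ) + 1) M).card * (κ * κ))
      ≤ Wt μ (GG L E M) * ((Finset.Icc (4 * (K : ℤ) + 1) M).card * (κ * κ)) := mul_le_mul' hM' le_rfl
    _ = ∑' a : GG L E M, ws μ a.1 * ((Finset.Icc (4 * (K : ℤ) + 1) M).card * (κ * κ)) := by
        unfold Wt
        rw [ENNReal.tsum_mul_right]
    _ ≤ _ := by
        refine ENNReal.tsum_le_tsum fun a => ?_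
        dsimp only
        rw [ENNReal.tsum_mul_left]
        refine mul_le_mul' le_rfl ?_
        rw [ENNReal.tsum_sigma', tsum_fintype]
        have hs : ((Finset.Icc (4 * (K : ℤ) + 1) M).card : ℝ≥0∞) * (κ * κ) =
            ∑ _w : Finset.Icc (4 * (K : ℤ) + 1) M, κ * κ := by
          rw [Finset.sum_const, nsmul_eq_mul, Finset.card_univ, Fintype.card_coe]
        rw [hs]
        refine Finset.sum_le_sum fun w _ => ?_
        obtain ⟨w, hw⟩ := w
        rw [Finset.mem_Icc] at hw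
        rw [ENNReal.tsum_sigma']
        have hw' : κ ≤ Wt μ (GG L E w) := hκ w (by omega) (by omega)
        calc κ * κ ≤ Wt μ (GG L E w) * κ := mul_le_mul' hw' le_rfl
          _ = ∑' h : GG L E w, ws μ h.1 * κ := by
              unfold Wt
              rw [ENNReal.tsum_mul_right]
          _ ≤ _ := by
              refine ENNReal.tsum_le_tsum fun h => ?_
              dsimp only
              rw [ENNReal.tsum_mul_left]
              refine mul_le_mul' le_rfl ?_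
              obtain ⟨h, h1, h2, h3, h4⟩ := h
              have h5 := fwd_cone (all_blk h) h2 (List.prefix_refl _)
              have g1 : L.l (h.map bl).flatten.sum = (sb h).1 := congrArg Prod.fst (la_flat (L := L) (h.map bl))
              have g2 : L.k (h.map bl).flatten.sum = (sb h).2 := congrArg Prod.snd (la_flat (L := L) (h.map bl))
              have h6 : 2 * |(sb h).2| ≤ (sb h).1 := by
                rw [g1, g2] at h5
                exact h5
              have h7 := c2 h6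
              exact hκ _ (by simp only; omega) (by simp only; omega)

theorem main (F : Fct L μ) (hf : Fin1 L μ) : False := by
  obtain ⟨c, hc0, hc⟩ := uu_lower F hf
  have hc1 : c ≤ 1 := (hc 0).trans (uu_le_one F _)
  have hct : c ≠ ⊤ := ne_top_of_le_ne_top (by simp) hc1
  have hc6 : c / 6 ≠ 0 := by
    rw [Ne, ENNReal.div_eq_zero_iff]
    push Not
    exact ⟨hc0, by simp⟩
  obtain ⟨K, hK⟩ := VV_small F hf (δ := 1 / 2) (by norm_num) hc6
  set κ : ℝ≥0∞ := wt μ (e1 L) ^ (4 * K) * (c / 2) with hκ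
  have hwt : wt μ (e1 L) ≤ 1 := by
    rw [← wt_sum F]
    exact ENNReal.le_tsum (e1 L)
  have hκ1 : κ ≤ 1 := by
    refine mul_le_one' (pow_le_one' hwt _) ?_
    exact ENNReal.half_le_self.trans hc1
  have hκt : κ ≠ ⊤ := ne_top_of_le_ne_top (by simp) hκ1
  have hκ0 : κ ≠ 0 := by
    refine mul_ne_zero (pow_ne_zero _ (wt_e1 F)) ?_
    rw [Ne, ENNReal.div_eq_zero_iff]
    push Not
    exact ⟨hc0, by simp⟩
  have hr : 0 < κ.toReal := ENNReal.toReal_pos hκ0 hκt
  set r := κ.toReal with hr'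
  obtain ⟨K', hK'⟩ := VV_small F hf (δ := r ^ 3 / 12) (by positivity) hc6
  obtain ⟨M, hM⟩ := exists_nat_gt ((2 / r ^ 3) * (4 * K * r ^ 3 + 2 * K' + 3) + 4 * K)
  set E : ℤ := ⌈r ^ 3 / 12 * (3 * (M : ℝ)) + K'⌉ with hE
  have hE1 : r ^ 3 / 12 * (3 * (M : ℝ)) + K' ≤ E := Int.le_ceil _
  have hE2 : (E : ℝ) < r ^ 3 / 12 * (3 * (M : ℝ)) + K' + 1 := Int.ceil_lt_add_one _
  have hE0 : 0 ≤ E := by
    have h1 : (0 : ℝ) ≤ E := le_trans (by positivity) hE1
    exact_mod_cast h1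
  have hM4 : (4 * K : ℝ) < M := by
    have : (0 : ℝ) ≤ (2 / r ^ 3) * (4 * K * r ^ 3 + 2 * K' + 3) := by positivity
    linarith
  have hM4' : 4 * (K : ℤ) < M := by exact_mod_cast hM4
  have hlow : ∀ T : ℤ, 4 * (K : ℤ) ≤ T → T ≤ 3 * (M : ℤ) → κ ≤ Wt μ (GG L E T) := by
    intro T h1 h2
    refine le_trans ?_ (GG_lower (K := K) hE0)
    refine mul_le_mul' le_rfl ?_
    obtain ⟨t, ht⟩ := Int.eq_ofNat_of_zero_le (show 0 ≤ T - 4 * (K : ℤ) by omega)
    refine GK_lower F hct ?_ hK (δ := r ^ 3 / 12) (by positivity) (K' := K') ?_ hK'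
    · rw [ht]
      exact hc t
    · refine le_trans ?_ hE1
      have h3 : ((T - 4 * (K : ℤ) : ℤ) : ℝ) ≤ 3 * (M : ℝ) := by
        have : T - 4 * (K : ℤ) ≤ 3 * (M : ℤ) := by omega
        exact_mod_cast this
      have h4 : 0 ≤ r ^ 3 / 12 := by positivity
      have h5 := mul_le_mul_of_nonneg_left h3 h4
      linarith
  have h1 := (TA_ge (L := L) (μ := μ) (K := K) (M := (M : ℤ)) hE0 (by omega) hlow).trans (TA_le F (M : ℤ) E)
  clear_value κ
  have h2 : (Finset.Icc (4 * (K : ℤ) + 1) (M : ℤ)).card = M - 4 * K := by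
    rw [Int.card_Icc]
    omega
  have h3 : (Finset.Icc (-E) E).card = (2 * E + 1).toNat := by
    rw [Int.card_Icc]
    congr 1
    ring
  rw [h2, h3] at h1
  have h4 := ENNReal.toReal_mono (by simp) h1
  rw [ENNReal.toReal_mul, ENNReal.toReal_mul, ENNReal.toReal_mul, ENNReal.toReal_natCast,
    ENNReal.toReal_natCast] at h4
  have h5 : (((2 * E + 1).toNat : ℕ) : ℝ) = 2 * E + 1 := by
    have : (((2 * E + 1).toNat : ℕ) : ℤ) = 2 * E + 1 := Int.toNat_of_nonneg (by omega)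
    exact_mod_cast this
  have h6 : ((M - 4 * K : ℕ) : ℝ) = (M : ℝ) - 4 * K := by
    rw [Nat.cast_sub (by omega)]
    push_cast
    ring
  rw [h5, h6] at h4
  have h7 : r * (((M : ℝ) - 4 * K) * (r * r)) = r ^ 3 * M - 4 * K * r ^ 3 := by ring
  rw [h7] at h4
  have h8 : r ^ 3 * M / 2 < 4 * K * r ^ 3 + 2 * K' + 3 := by
    have : r ^ 3 * M ≤ 4 * K * r ^ 3 + 2 * (r ^ 3 / 12 * (3 * (M : ℝ)) + K' + 1) + 1 := by linarith
    linarith
  have h9 : (M : ℝ) < (2 / r ^ 3) * (4 * K * r ^ 3 + 2 * K' + 3) := by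
    have h10 : 0 < r ^ 3 := by positivity
    rw [div_mul_eq_mul_div, lt_div_iff₀ h10]
    linarith
  have h10 : (0 : ℝ) ≤ 4 * K := by positivity
  linarith

end H982.DN
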