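import Pool.Agent.H982.DN8
import Pool.Graph.R_pool_sql_team_seeded_3997aac3.Q234.HS.Zd

/-!
# The lattice `Z^d`, `d ≥ 2`, and walks given by their positions
-/

set_option autoImplicit false
set_option linter.unusedSectionVars false

namespace H982.DN

open Pool.Agent.Q234.HS (Saw Br Half Cut N ps)
open scoped ENNReal

variable {d : ℕ}

/-- the exchange of two coordinates -/
def swp (x y : Fin d) : (Fin d → ℤ) ≃+ (Fin d → ℤ) where
  toFun v := fun i => v (Equiv.swap x y i)
  invFun v := fun i => v (Equiv.swap x y i)
  left_inv v := by
    funext i
    simp
  right_inv v := by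
    funext i
    simp
  map_add' u v := rfl

/-- the reflection of one coordinate -/
def mir (y : Fin d) : (Fin d → ℤ) ≃+ (Fin d → ℤ) where
  toFun v := fun i => if i = y then -v i else v i
  invFun v := fun i => if i = y then -v i else v i
  left_inv v := by
    funext i
    by_cases h : i = y <;> simp [h]
  right_inv v := by
    funext i
    by_cases h : i = y <;> simp [h]
  map_add' u v := by
    funext i
    by_cases h : i = y <;> simp [h]
    ring

/-- the hypercubic lattice -/
def cub (x y : Fin d) (hxy : x ≠ y) : Lat (Fin d → ℤ) where
  S := Pool.Agent.Q234.HS.Zd.St d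
  fin := Pool.Agent.Q234.HS.Zd.St_finite d
  neg := Pool.Agent.Q234.HS.Zd.St_neg d
  l := Pi.evalAddMonoidHom (fun _ : Fin d => ℤ) x
  k := Pi.evalAddMonoidHom (fun _ : Fin d => ℤ) y
  one a ha h := by
    have h1 := Pool.Agent.Q234.HS.Zd.St_le ha x
    rw [abs_le] at h1
    change 0 < a x at h
    change a x = 1
    omega
  e := Pi.single x 1
  he := by
    show ∑ k, |(Pi.single x 1 : Fin d → ℤ) k| = 1
    rw [Finset.sum_eq_single x]
    · simp
    · intro k _ hk
      rw [Pi.single_eq_of_ne hk]
      simp
    · intro h
      exact absurd (Finset.mem_univ _) h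
  le := by
    show (Pi.single x 1 : Fin d → ℤ) x = 1
    simp
  ke := by
    show (Pi.single x 1 : Fin d → ℤ) y = 0
    rw [Pi.single_eq_of_ne hxy.symm]
  sw := swp x y
  swS a ha := by
    show ∑ k, |a (Equiv.swap x y k)| = 1
    rw [Equiv.sum_comp (Equiv.swap x y) (fun k => |a k|)]
    exact ha
  sw_l v := by
    show v (Equiv.swap x y x) = v y
    rw [Equiv.swap_apply_left]
  sw_k v := by
    show v (Equiv.swap x y y) = v x
    rw [Equiv.swap_apply_right]
  mi := mir y
  miS a ha := by
    show ∑ k, |if k = y then -a k else a k| = 1
    have : ∀ k, |if k = y then -a k else a k| = |a k| := by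
      intro k
      split_ifs
      · rw [abs_neg]
      · rfl
    simp only [this]
    exact ha
  mi_mi v := by
    show (mir y) ((mir y) v) = v
    exact (mir y).left_inv v
  mi_l v := by
    show (if x = y then -v x else v x) = v x
    rw [if_neg hxy]
  mi_k v := by
    show (if y = y then -v y else v y) = -v y
    rw [if_pos rfl]

section pos

variable {V : Type} [AddCommGroup V] (w : List V)

lemma take_sub {i j : ℕ} (hij : i ≤ j) (hj : j ≤ w.length) :
    (w.take j).sum = (w.take i).sum + ((w.drop i).take (j - i)).sum := by
  rw [← List.sum_append]
  congr 1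
  conv_lhs => rw [show j = i + (j - i) by omega]
  rw [List.take_add]

lemma saw_iff : Saw w ↔ ∀ i j, i < j → j ≤ w.length → (w.take i).sum ≠ (w.take j).sum := by
  constructor
  · intro h i j hij hj e
    rw [take_sub w hij.le hj] at e
    refine h ((w.drop i).take (j - i)) ?_ ?_ (left_eq_add.1 e)
    · intro h0
      have := congrArg List.length h0
      rw [List.length_take, List.length_drop, List.length_nil] at this
      omega
    · exact (List.take_prefix _ _).isInfix.trans (List.drop_suffix _ _).isInfix
  · rintro h u hu ⟨p, s, rfl⟩ h0
    have hl := List.length_pos_iff.2 hu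
    refine h p.length (p.length + u.length) (by omega) (by simp) ?_
    have e1 : (p ++ u ++ s).take p.length = p := by
      rw [List.append_assoc, List.take_left]
    have e2 : (p ++ u ++ s).take (p.length + u.length) = p ++ u := by
      rw [← List.length_append, List.take_left]
    rw [e1, e2, List.sum_append, h0, add_zero]

lemma br_iff (l : V →+ ℤ) : Br l w ↔ Saw w ∧ ∀ i, 0 < i → i ≤ w.length →
    0 < l (w.take i).sum ∧ l (w.take i).sum ≤ l w.sum := by
  have hs : ∀ i, w.sum = (w.take i).sum + (w.drop i).sum := fun i => by
    rw [← List.sum_append, List.take_append_drop]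
  constructor
  · rintro ⟨⟨h1, h2⟩, h3⟩
    refine ⟨h1, fun i hi hi' => ⟨h2 _ ?_ (List.take_prefix _ _), ?_⟩⟩
    · intro h0
      have := congrArg List.length h0
      rw [List.length_take, List.length_nil] at this
      omega
    · have := h3 _ (List.drop_suffix i w)
      rw [hs i, map_add]
      omega
  · rintro ⟨h1, h2⟩
    refine ⟨⟨h1, fun u hu hp => ?_⟩, fun u hu => ?_⟩
    · have e : u = w.take u.length := (List.prefix_iff_eq_take.1 hp)
      rw [e]
      exact (h2 u.length (List.length_pos_iff.2 hu) hp.length_le).1
    · obtain ⟨p, rfl⟩ := hu
      rw [List.sum_append, map_add] at h2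
      by_cases hp : p = []
      · subst hp
        by_cases hu : u = []
        · subst hu
          simp
        · have := (h2 u.length (List.length_pos_iff.2 hu) (by simp)).1
          rw [List.nil_append, List.take_length] at this
          exact this.le
      · have := (h2 p.length (List.length_pos_iff.2 hp) (by simp)).2
        rw [List.take_left] at this
        omega

lemma cut_iff (l : V →+ ℤ) {m : ℕ} (hm : m ≤ w.length) :
    Cut l (w.take m) (w.drop m) ↔ (∀ i, i ≤ m → l (w.take i).sum ≤ l (w.take m).sum) ∧
      ∀ i, m < i → i ≤ w.length → l (w.take m).sum < l (w.take i).sum := by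
  constructor
  · rintro ⟨h1, h2⟩
    refine ⟨fun i hi => ?_, fun i hi hi' => ?_⟩
    · rw [take_sub w hi hm, map_add]
      have e : (w.drop i).take (m - i) = (w.take m).drop i := by
        rw [List.drop_take]
      have := h1 _ (List.drop_suffix i (w.take m))
      rw [e]
      omega
    · rw [take_sub w hi.le hi', map_add]
      have := h2 ((w.drop m).take (i - m)) (by
        intro h0
        have := congrArg List.length h0
        rw [List.length_take, List.length_drop, List.length_nil] at this
        omega) (List.take_prefix _ _)
      omega
  · rintro ⟨h1, h2⟩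
    refine ⟨fun u hu => ?_, fun u hu hp => ?_⟩
    · obtain ⟨p, hp⟩ := hu
      have hpl : p.length ≤ m := by
        have := congrArg List.length hp
        rw [List.length_append, List.length_take] at this
        omega
      have e : w.take p.length = p := by
        have e1 : (w.take m).take p.length = p := by
          rw [← hp, List.take_left]
        rw [List.take_take, min_eq_left hpl] at e1
        exact e1
      have := h1 p.length hpl
      rw [e, ← hp, List.sum_append, map_add] at this
      omega
    · obtain ⟨s, hs⟩ := hp
      have hul := List.length_pos_iff.2 hu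
      have hle : m + u.length ≤ w.length := by
        have := congrArg List.length hs
        rw [List.length_append, List.length_drop] at this
        omega
      have h3 := h2 (m + u.length) (by omega) hle
      rw [take_sub w (show m ≤ m + u.length by omega) hle, map_add] at h3
      have e : (w.drop m).take (m + u.length - m) = u := by
        rw [show m + u.length - m = u.length by omega, ← hs, List.take_left]
      rw [e] at h3
      omega

end pos

lemma ra_le_of {V : Type} [AddCommGroup V] [Countable V] {L : Lat V} {β : List V} {m : ℕ}
    (h : ∀ u, u <+: β → max (L.l u.sum).natAbs (L.k u.sum).natAbs ≤ m) : ra L β ≤ m := by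
  classical
  unfold ra
  exact Finset.sup_le fun u hu => h u ((List.mem_inits _ _).1 (List.mem_toFinset.1 hu))

end H982.DN
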