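import Mathlib

/-!
# Towers hanging from a self-avoiding walk

Self-avoiding walks on `ℤ^d` as lists of sites.  Some horizontal edges of the walk are replaced by
towers (excursions which go straight down, make one horizontal step and go straight up again).
-/

set_option autoImplicit false
set_option linter.unusedSectionVars false

namespace H982.EX

open Finset

/-- the lattice `ℤ^d` -/
abbrev V (d : ℕ) := Fin d → ℤ

variable {d : ℕ}

/-- nearest neighbours -/
def Adj (x y : V d) : Prop := ∑ i, |y i - x i| = 1

/-- the unit vector in the direction `k` -/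
def ev (k : Fin d) : V d := Pi.single k 1

@[simp] lemma ev_self (k : Fin d) : ev k k = 1 := by simp [ev]

lemma ev_ne {k i : Fin d} (h : i ≠ k) : ev k i = 0 := by simp [ev, h]

/-- the sites `v - e, v - 2 e, ..., v - j e` -/
def down (k : Fin d) (v : V d) (j : ℕ) : List (V d) :=
  (List.range j).map (fun i : ℕ => v - ((i : ℤ) + 1) • ev k)

/-- the tower of height `j` between the neighbours `v` and `w` -/
def tower (k : Fin d) (v w : V d) (j : ℕ) : List (V d) := down k v j ++ (down k w j).reverse

/-- insertion of towers at the marked edges; the edges number `0, 2, 4, ...` can be marked -/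
def ins (k : Fin d) (h : V d → ℕ) : List (V d) → List Bool → List (V d)
  | v :: w :: L, b :: bs => v :: ((if b then tower k v w (h v) else []) ++ (w :: ins k h L bs))
  | L, _ => L

/-- the inserted sites -/
def tw (k : Fin d) (h : V d → ℕ) : List (V d) → List Bool → List (V d)
  | v :: w :: L, b :: bs => (if b then tower k v w (h v) else []) ++ tw k h L bs
  | _, _ => []

/-- the heights of the towers -/
def hs (h : V d → ℕ) : List (V d) → List Bool → List ℕ
  | v :: _ :: L, b :: bs => (if b then [h v] else []) ++ hs h L bs
  | _, _ => []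

open Classical in
/-- the admissible marks: only edges with `P` are marked -/
noncomputable def sub (P : V d → V d → Prop) : List (V d) → Finset (List Bool)
  | v :: w :: L => (if P v w then ({true, false} : Finset Bool) else {false}).biUnion
      (fun b => (sub P L).image (fun bs => b :: bs))
  | _ => {[]}

open Classical in
/-- the number of edges number `0, 2, 4, ...` with `P` -/
noncomputable def nE (P : V d → V d → Prop) : List (V d) → ℕ
  | v :: w :: L => (if P v w then 1 else 0) + nE P L
  | _ => 0

lemma sub_cons (P : V d → V d → Prop) (v w : V d) (L : List (V d)) (bs : List Bool) :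
    bs ∈ sub P (v :: w :: L) ↔ ∃ b bs', bs = b :: bs' ∧ (b = true → P v w) ∧ bs' ∈ sub P L := by
  classical
  rw [sub]
  simp only [mem_biUnion, mem_image]
  constructor
  · rintro ⟨b, hb, bs', h1, rfl⟩
    refine ⟨b, bs', rfl, ?_, h1⟩
    intro h2
    by_contra h3
    rw [if_neg h3, mem_singleton] at hb
    rw [hb] at h2
    exact absurd h2 (by decide)
  · rintro ⟨b, bs', rfl, h1, h2⟩
    refine ⟨b, ?_, bs', h2, rfl⟩
    by_cases h3 : P v w
    · rw [if_pos h3]; cases b <;> simp
    · rw [if_neg h3]
      cases b
      · simp
      · exact absurd (h1 rfl) h3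

lemma sum_sub (P : V d → V d → Prop) (h : V d → ℕ) (t : ℝ) (L : List (V d)) :
    ∑ bs ∈ sub P L, t ^ (hs h L bs).length = (1 + t) ^ nE P L := by
  classical
  induction L using nE.induct with
  | case1 v w L ih =>
    rw [sub, nE, sum_biUnion]
    · have key : ∀ b : Bool, ∑ bs ∈ (sub P L).image (fun bs => b :: bs),
          t ^ (hs h (v :: w :: L) bs).length = (if b then t else 1) * (1 + t) ^ nE P L := by
        intro b
        rw [sum_image (by intro x _ y _ h; simpa using h), ← ih, mul_sum]
        refine sum_congr rfl (fun bs _ => ?_)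
        rw [hs, List.length_append]
        cases b
        · simp
        · simp [pow_add]
      simp only [key]
      by_cases hP : P v w
      · rw [if_pos hP, if_pos hP, pow_add]
        simp
        ring
      · rw [if_neg hP, if_neg hP]
        simp
    · intro a _ b _ hab
      rw [Function.onFun, disjoint_left]
      intro x hx hy
      rw [mem_image] at hx hy
      obtain ⟨x1, _, rfl⟩ := hx
      obtain ⟨x2, _, h2⟩ := hy
      exact hab (List.cons.inj h2).1.symm
  | case2 L hL =>
    match L, hL with
    | [], _ => simp [sub, nE, hs]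
    | [v], _ => simp [sub, nE, hs]
    | v :: w :: L, hL => exact absurd rfl (hL v w L)

lemma mem_down {k : Fin d} {v x : V d} {j : ℕ} :
    x ∈ down k v j ↔ ∃ i : ℕ, i < j ∧ x = v - ((i : ℤ) + 1) • ev k := by
  unfold down
  simp only [List.mem_map, List.mem_range]
  constructor
  · rintro ⟨i, h1, h2⟩; exact ⟨i, h1, h2.symm⟩
  · rintro ⟨i, h1, h2⟩; exact ⟨i, h1, h2.symm⟩

lemma lev_sub (k : Fin d) (v : V d) (c : ℤ) : (v - c • ev k) k = v k - c := by
  simp

lemma off_sub {k i : Fin d} (hi : i ≠ k) (v : V d) (c : ℤ) : (v - c • ev k) i = v i := by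
  simp [ev_ne hi]

/-- same column -/
def Col (k : Fin d) (x y : V d) : Prop := ∀ i, i ≠ k → x i = y i

lemma Col.symm {k : Fin d} {x y : V d} (h : Col k x y) : Col k y x := fun i hi => (h i hi).symm

lemma Col.trans {k : Fin d} {x y z : V d} (h : Col k x y) (h' : Col k y z) : Col k x z :=
  fun i hi => (h i hi).trans (h' i hi)

lemma Col.eq {k : Fin d} {x y : V d} (h : Col k x y) (hl : x k = y k) : x = y := by
  ext i
  by_cases hi : i = k
  · subst hi; exact hl
  · exact h i hi

lemma mem_down_iff {k : Fin d} {v x : V d} {j : ℕ} :
    x ∈ down k v j ↔ Col k x v ∧ x k < v k ∧ v k - j ≤ x k := by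
  rw [mem_down]
  constructor
  · rintro ⟨i, h1, rfl⟩
    refine ⟨fun l hl => off_sub hl _ _, ?_, ?_⟩
    · rw [lev_sub]; omega
    · rw [lev_sub]; omega
  · rintro ⟨h1, h2, h3⟩
    refine ⟨(v k - x k - 1).toNat, by omega, ?_⟩
    refine Col.eq (k := k) ?_ ?_
    · intro l hl
      rw [off_sub hl]; exact h1 l hl
    · rw [lev_sub]; omega

lemma nodup_down (k : Fin d) (v : V d) (j : ℕ) : (down k v j).Nodup := by
  unfold down
  refine List.Nodup.map ?_ List.nodup_range
  intro a b hab
  have := congrFun hab k
  simp only [lev_sub] at this
  omega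

lemma mem_tower_iff {k : Fin d} {v w x : V d} {j : ℕ} :
    x ∈ tower k v w j ↔ (Col k x v ∧ x k < v k ∧ v k - j ≤ x k) ∨
      (Col k x w ∧ x k < w k ∧ w k - j ≤ x k) := by
  unfold tower
  rw [List.mem_append, List.mem_reverse, mem_down_iff, mem_down_iff]

lemma length_down (k : Fin d) (v : V d) (j : ℕ) : (down k v j).length = j := by
  simp [down]

lemma length_tower (k : Fin d) (v w : V d) (j : ℕ) : (tower k v w j).length = 2 * j := by
  simp [tower, length_down]; omega

lemma ins_perm (k : Fin d) (h : V d → ℕ) (L : List (V d)) (bs : List Bool) :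
    (ins k h L bs).Perm (L ++ tw k h L bs) := by
  induction L, bs using ins.induct with
  | case1 v w L b bs ih =>
    rw [ins, tw]
    refine (List.perm_append_comm.cons v).trans ?_
    rw [List.cons_append, List.cons_append]
    refine List.Perm.cons v ?_
    rw [List.cons_append]
    refine List.Perm.cons w ?_
    refine (ih.append_right _).trans ?_
    rw [List.append_assoc]
    exact List.Perm.append_left _ List.perm_append_comm
  | case2 L bs hL =>
    have h1 : tw k h L bs = [] := by
      match L, bs, hL with
      | [], _, _ => simp [tw]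
      | [v], _, _ => simp [tw]
      | v :: w :: L, [], _ => simp [tw]
      | v :: w :: L, b :: bs, hL => exact absurd rfl (hL v w L b bs rfl)
    have h2 : ins k h L bs = L := by
      match L, bs, hL with
      | [], _, _ => simp [ins]
      | [v], _, _ => simp [ins]
      | v :: w :: L, [], _ => simp [ins]
      | v :: w :: L, b :: bs, hL => exact absurd rfl (hL v w L b bs rfl)
    rw [h1, h2, List.append_nil]

lemma length_ins (k : Fin d) (h : V d → ℕ) (L : List (V d)) (bs : List Bool) :
    (ins k h L bs).length = L.length + 2 * (hs h L bs).sum := by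
  induction L, bs using ins.induct with
  | case1 v w L b bs ih =>
    rw [ins, hs]
    cases b
    · simp [ih]; ring
    · simp [ih, length_tower]; ring
  | case2 L bs hL =>
    match L, bs, hL with
    | [], _, _ => simp [ins, hs]
    | [v], _, _ => simp [ins, hs]
    | v :: w :: L, [], _ => simp [ins, hs]
    | v :: w :: L, b :: bs, hL => exact absurd rfl (hL v w L b bs rfl)

end H982.EX
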