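import Pool.Agent.H982.EX1

/-!
# Towers hanging from a self-avoiding walk: the new walk is self-avoiding and can be decoded
-/

set_option autoImplicit false
set_option linter.unusedSectionVars false

namespace H982.EX

open Finset

variable {d : ℕ}

lemma Adj.symm {x y : V d} (h : Adj x y) : Adj y x := by
  unfold Adj at *
  rw [← h]
  exact sum_congr rfl (fun i _ => abs_sub_comm _ _)

lemma Adj.ne {x y : V d} (h : Adj x y) : x ≠ y := by
  rintro rfl
  unfold Adj at h
  simp at h

lemma Adj.shift {x y : V d} (h : Adj x y) (z : V d) : Adj (x - z) (y - z) := by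
  unfold Adj at *
  rw [← h]
  refine sum_congr rfl (fun i _ => ?_)
  simp

lemma adj_down (k : Fin d) (v : V d) (c : ℤ) : Adj (v - c • ev k) (v - (c + 1) • ev k) := by
  unfold Adj
  have : ∀ i, |(v - (c + 1) • ev k) i - (v - c • ev k) i| = ev k i := by
    intro i
    by_cases hi : i = k
    · subst hi; simp
    · rw [off_sub hi, off_sub hi, ev_ne hi]; simp
  simp only [this]
  simp [ev]

/-- the sites `v, v - e, ..., v - j e` -/
def line (k : Fin d) (v : V d) (j : ℕ) : List (V d) :=
  (List.range (j + 1)).map (fun i : ℕ => v - (i : ℤ) • ev k)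

lemma line_eq (k : Fin d) (v : V d) (j : ℕ) : line k v j = v :: down k v j := by
  unfold line down
  rw [List.range_succ_eq_map]
  simp

lemma chain_line (k : Fin d) (v : V d) (j : ℕ) : List.IsChain Adj (line k v j) := by
  unfold line
  rw [List.isChain_map, List.isChain_range]
  intro m _
  have := adj_down k v (m : ℤ)
  simpa using this

lemma line_last (k : Fin d) (v : V d) (j : ℕ) :
    (line k v j).getLast? = some (v - (j : ℤ) • ev k) := by
  unfold line
  rw [List.range_succ]
  simp

lemma chain_tower (k : Fin d) {v w : V d} (hvw : Adj v w) (j : ℕ) {R : List (V d)}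
    (hR : List.IsChain Adj (w :: R)) : List.IsChain Adj (v :: (tower k v w j ++ (w :: R))) := by
  have e : v :: (tower k v w j ++ (w :: R)) = line k v j ++ ((line k w j).reverse ++ R) := by
    rw [line_eq, line_eq, tower]
    simp
  rw [e, List.isChain_append]
  refine ⟨chain_line k v j, ?_, ?_⟩
  · rw [List.isChain_append]
    refine ⟨?_, hR.tail, ?_⟩
    · rw [List.isChain_reverse]
      exact (chain_line k w j).imp (fun _ _ h => h.symm)
    · intro x hx y hy
      rw [List.getLast?_reverse, line_eq] at hx
      simp only [List.head?_cons, Option.mem_def, Option.some.injEq] at hx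
      subst hx
      match R, hy with
      | z :: R', hy =>
        simp only [List.head?_cons, Option.mem_def, Option.some.injEq] at hy
        subst hy
        exact (List.isChain_cons_cons.mp hR).1
  · intro x hx y hy
    rw [line_last] at hx
    rw [List.head?_append, List.head?_reverse, line_last] at hy
    simp only [Option.mem_def, Option.some.injEq, Option.some_or] at hx hy
    rw [← hx, ← hy]
    exact hvw.shift _

lemma chain_ins (k : Fin d) (h : V d → ℕ) (L : List (V d)) (bs : List Bool) :
    ∀ u, List.IsChain Adj (u :: L) → List.IsChain Adj (u :: ins k h L bs) := by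
  induction L, bs using ins.induct with
  | case1 v w L b bs ih =>
    intro u hu
    rw [List.isChain_cons_cons, List.isChain_cons_cons] at hu
    rw [ins, List.isChain_cons_cons]
    refine ⟨hu.1, ?_⟩
    have h1 := ih w hu.2.2
    cases b
    · simp only [Bool.false_eq_true, if_false, List.nil_append]
      rw [List.isChain_cons_cons]
      exact ⟨hu.2.1, h1⟩
    · simp only [if_true]
      exact chain_tower k hu.2.1 _ h1
  | case2 L bs hL =>
    intro u hu
    have h2 : ins k h L bs = L := by
      match L, bs, hL with
      | [], _, _ => simp [ins]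
      | [v], _, _ => simp [ins]
      | v :: w :: L, [], _ => simp [ins]
      | v :: w :: L, b :: bs, hL => exact absurd rfl (hL v w L b bs rfl)
    rw [h2]
    exact hu

lemma head_ins (k : Fin d) (h : V d → ℕ) (L : List (V d)) (bs : List Bool) :
    (ins k h L bs).head? = L.head? := by
  match L, bs with
  | [], _ => simp [ins]
  | [v], _ => simp [ins]
  | v :: w :: L, [] => simp [ins]
  | v :: w :: L, b :: bs => simp [ins]

/-- `v` is the lowest site of `G` in its column -/
def Bot (k : Fin d) (G : List (V d)) (v : V d) : Prop := ∀ x ∈ G, Col k x v → v k ≤ x k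

/-- the exposed edges -/
def Ex (k : Fin d) (G : List (V d)) (m : ℤ) (r : ℕ) (v w : V d) : Prop :=
  Bot k G v ∧ Bot k G w ∧ v k = w k ∧ v k ≤ m + r

/-- the heights of the towers -/
def ht (k : Fin d) (m : ℤ) (v : V d) : ℕ := (v k - m + 1).toNat

lemma tw_prop {k : Fin d} {G : List (V d)} {m : ℤ} {r : ℕ} (L : List (V d)) (bs : List Bool)
    (hb : bs ∈ sub (Ex k G m r) L) (hm : ∀ x ∈ L, m ≤ x k) :
    ∀ x ∈ tw k (ht k m) L bs, ∃ u ∈ L, Bot k G u ∧ Col k x u ∧ m - 1 ≤ x k ∧ x k < u k := by
  induction L, bs using tw.induct with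
  | case1 v w L b bs ih =>
    intro x hx
    rw [sub_cons] at hb
    obtain ⟨b', bs', h1, h2, h3⟩ := hb
    obtain ⟨rfl, rfl⟩ := List.cons.inj h1
    rw [tw, List.mem_append] at hx
    have hv := hm v (by simp)
    have hw := hm w (by simp)
    rcases hx with hx | hx
    · cases b
      · simp at hx
      · simp only [if_true] at hx
        obtain ⟨h4, h5, h6, h7⟩ := h2 rfl
        rw [mem_tower_iff] at hx
        unfold ht at hx
        rcases hx with ⟨g1, g2, g3⟩ | ⟨g1, g2, g3⟩
        · exact ⟨v, by simp, h4, g1, by omega, g2⟩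
        · exact ⟨w, by simp, h5, g1, by omega, g2⟩
    · obtain ⟨u, h4, h5⟩ := ih h3 (fun x hx => hm x (by simp [hx])) x hx
      exact ⟨u, by simp [h4], h5⟩
  | case2 L bs hL =>
    intro x hx
    have h1 : tw k (ht k m) L bs = [] := by
      match L, bs, hL with
      | [], _, _ => simp [tw]
      | [v], _, _ => simp [tw]
      | v :: w :: L, [], _ => simp [tw]
      | v :: w :: L, b :: bs, hL => exact absurd rfl (hL v w L b bs rfl)
    rw [h1] at hx
    simp at hx

lemma Bot.eq {k : Fin d} {G : List (V d)} {u v : V d} (hu : Bot k G u) (hv : Bot k G v)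
    (hu' : u ∈ G) (hv' : v ∈ G) (h : Col k u v) : u = v :=
  h.eq (le_antisymm (hu v hv' h.symm) (hv u hu' h))

lemma tw_nodup {k : Fin d} {G : List (V d)} {m : ℤ} {r : ℕ} (L : List (V d)) (bs : List Bool)
    (hb : bs ∈ sub (Ex k G m r) L) (hm : ∀ x ∈ L, m ≤ x k) (hG : ∀ x ∈ L, x ∈ G)
    (hn : L.Nodup) : (tw k (ht k m) L bs).Nodup := by
  induction L, bs using tw.induct with
  | case1 v w L b bs ih =>
    rw [sub_cons] at hb
    obtain ⟨b', bs', h1, h2, h3⟩ := hb
    obtain ⟨rfl, rfl⟩ := List.cons.inj h1
    have hm' : ∀ x ∈ L, m ≤ x k := fun x hx => hm x (by simp [hx])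
    have hG' : ∀ x ∈ L, x ∈ G := fun x hx => hG x (by simp [hx])
    have hvw : v ≠ w := by
      intro e
      rw [List.nodup_cons] at hn
      exact hn.1 (by simp [e])
    have hn' : L.Nodup := by
      rw [List.nodup_cons, List.nodup_cons] at hn
      exact hn.2.2
    have i1 := ih h3 hm' hG' hn'
    rw [tw, List.nodup_append]
    refine ⟨?_, i1, ?_⟩
    · cases b
      · simp
      · simp only [if_true]
        obtain ⟨h4, h5, h6, h7⟩ := h2 rfl
        unfold tower
        rw [List.nodup_append]
        refine ⟨nodup_down _ _ _, List.nodup_reverse.mpr (nodup_down _ _ _), ?_⟩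
        intro x hx y hy hxy
        subst hxy
        rw [List.mem_reverse] at hy
        rw [mem_down_iff] at hx hy
        exact hvw ((hx.1.symm.trans hy.1).eq h6)
    · intro x hx y hy hxy
      subst hxy
      cases b
      · simp at hx
      · simp only [if_true] at hx
        obtain ⟨h4, h5, h6, h7⟩ := h2 rfl
        obtain ⟨u, g1, g2, g3, g4, g5⟩ := tw_prop L bs h3 hm' x hy
        rw [mem_tower_iff] at hx
        rw [List.nodup_cons, List.nodup_cons] at hn
        rcases hx with ⟨f1, -⟩ | ⟨f1, -⟩
        · have := Bot.eq g2 h4 (hG' u g1) (hG v (by simp)) (g3.symm.trans f1)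
          subst this
          exact hn.1 (by simp [g1])
        · have := Bot.eq g2 h5 (hG' u g1) (hG w (by simp)) (g3.symm.trans f1)
          subst this
          exact hn.2.1 g1
  | case2 L bs hL =>
    have h1 : tw k (ht k m) L bs = [] := by
      match L, bs, hL with
      | [], _, _ => simp [tw]
      | [v], _, _ => simp [tw]
      | v :: w :: L, [], _ => simp [tw]
      | v :: w :: L, b :: bs, hL => exact absurd rfl (hL v w L b bs rfl)
    rw [h1]
    simp

/-- the new walk is self-avoiding; `A` is the unchanged beginning -/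
lemma nodup_ins {k : Fin d} {m : ℤ} {r : ℕ} (A L : List (V d)) (bs : List Bool)
    (hb : bs ∈ sub (Ex k (A ++ L) m r) L) (hm : ∀ x ∈ L, m ≤ x k) (hn : (A ++ L).Nodup) :
    (A ++ ins k (ht k m) L bs).Nodup := by
  have h1 : (A ++ ins k (ht k m) L bs).Perm ((A ++ L) ++ tw k (ht k m) L bs) := by
    rw [List.append_assoc]
    exact List.Perm.append_left _ (ins_perm _ _ _ _)
  rw [h1.nodup_iff, List.nodup_append]
  refine ⟨hn, tw_nodup L bs hb hm (fun x hx => by simp [hx]) ?_, ?_⟩
  · rw [List.nodup_append] at hn
    exact hn.2.1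
  · intro x hx y hy hxy
    subst hxy
    obtain ⟨u, g1, g2, g3, g4, g5⟩ := tw_prop L bs hb hm x hy
    have := g2 x hx g3
    omega

lemma ge_ins {k : Fin d} {G : List (V d)} {m : ℤ} {r : ℕ} (L : List (V d)) (bs : List Bool)
    (hb : bs ∈ sub (Ex k G m r) L) (hm : ∀ x ∈ L, m ≤ x k) :
    ∀ x ∈ ins k (ht k m) L bs, m - 1 ≤ x k := by
  intro x hx
  rw [(ins_perm k (ht k m) L bs).mem_iff, List.mem_append] at hx
  rcases hx with hx | hx
  · have := hm x hx; omega
  · obtain ⟨u, g1, g2, g3, g4, g5⟩ := tw_prop L bs hb hm x hx
    exact g4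

lemma exists_ins {k : Fin d} {m : ℤ} (L : List (V d)) (bs : List Bool)
    (hm : ∀ x ∈ L, m ≤ x k) (hh : hs (ht k m) L bs ≠ []) :
    ∃ x ∈ ins k (ht k m) L bs, x k = m - 1 := by
  suffices h : ∃ x ∈ tw k (ht k m) L bs, x k = m - 1 by
    obtain ⟨x, h1, h2⟩ := h
    refine ⟨x, ?_, h2⟩
    rw [(ins_perm k (ht k m) L bs).mem_iff, List.mem_append]
    exact Or.inr h1
  induction L, bs using tw.induct with
  | case1 v w L b bs ih =>
    rw [hs] at hh
    rw [tw]
    have hv := hm v (by simp)
    cases b
    · simp only [Bool.false_eq_true, if_false, List.nil_append] at hh ⊢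
      exact ih (fun x hx => hm x (by simp [hx])) hh
    · refine ⟨v - (v k - m + 1) • ev k, ?_, ?_⟩
      · rw [List.mem_append]
        left
        simp only [if_true]
        rw [mem_tower_iff]
        left
        refine ⟨fun l hl => off_sub hl _ _, ?_, ?_⟩
        · rw [lev_sub]; omega
        · rw [lev_sub]; unfold ht; omega
      · rw [lev_sub]; ring
  | case2 L bs hL =>
    have h1 : hs (ht k m) L bs = [] := by
      match L, bs, hL with
      | [], _, _ => simp [hs]
      | [v], _, _ => simp [hs]
      | v :: w :: L, [], _ => simp [hs]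
      | v :: w :: L, b :: bs, hL => exact absurd rfl (hL v w L b bs rfl)
    exact absurd h1 hh

/-- the number of sites before the first one below `m` -/
noncomputable def tk (k : Fin d) (m : ℤ) (M : List (V d)) : ℕ :=
  (M.takeWhile (fun x => decide (m ≤ x k))).length

lemma tk_cons {k : Fin d} {m : ℤ} {x : V d} {M : List (V d)} (hx : m ≤ x k) :
    tk k m (x :: M) = tk k m M + 1 := by
  simp [tk, hx]

lemma tk_append {k : Fin d} {m : ℤ} {A M : List (V d)} (hA : ∀ x ∈ A, m ≤ x k) :
    tk k m (A ++ M) = A.length + tk k m M := by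
  induction A with
  | nil => simp
  | cons x A ih =>
    rw [List.cons_append, tk_cons (hA x (by simp)), ih (fun y hy => hA y (by simp [hy]))]
    simp; ring

lemma tk_tower {k : Fin d} {m : ℤ} {v w : V d} (hv : m ≤ v k) (R : List (V d)) :
    tk k m (tower k v w (ht k m v) ++ R) + 1 = ht k m v := by
  obtain ⟨j, hj⟩ : ∃ j, ht k m v = j + 1 := ⟨(v k - m).toNat, by unfold ht; omega⟩
  have hj' : (j : ℤ) = v k - m := by unfold ht at hj; omega
  have e : tower k v w (ht k m v) ++ R =
      down k v j ++ ((v - ((j : ℤ) + 1) • ev k) :: ((down k w (j + 1)).reverse ++ R)) := by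
    rw [hj, tower, down, List.range_succ, List.map_append]
    simp [down]
  rw [e, tk_append, length_down, hj]
  · have : tk k m ((v - ((j : ℤ) + 1) • ev k) :: ((down k w (j + 1)).reverse ++ R)) = 0 := by
      have h1 : ¬ m ≤ (v - ((j : ℤ) + 1) • ev k) k := by rw [lev_sub]; omega
      simp only [tk, List.takeWhile_cons]
      rw [if_neg (by simpa using h1)]
      rfl
    omega
  · intro x hx
    rw [mem_down_iff] at hx
    omega

lemma tk_ins {k : Fin d} {m : ℤ} (L : List (V d)) (bs : List Bool)
    (hm : ∀ x ∈ L, m ≤ x k) {h1 : ℕ} {H : List ℕ} (hh : hs (ht k m) L bs = h1 :: H) :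
    h1 ≤ tk k m (ins k (ht k m) L bs) := by
  induction L, bs using ins.induct with
  | case1 v w L b bs ih =>
    have hv := hm v (by simp)
    have hw := hm w (by simp)
    rw [ins, tk_cons hv]
    rw [hs] at hh
    cases b
    · simp only [Bool.false_eq_true, if_false, List.nil_append] at hh ⊢
      rw [tk_cons hw]
      have := ih (fun x hx => hm x (by simp [hx])) hh
      omega
    · simp only [if_true] at hh ⊢
      have h2 : ht k m v = h1 := (List.cons.inj hh).1
      rw [tk_tower hv]
      omega
  | case2 L bs hL =>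
    exfalso
    have h2 : hs (ht k m) L bs = [] := by
      match L, bs, hL with
      | [], _, _ => simp [hs]
      | [v], _, _ => simp [hs]
      | v :: w :: L, [], _ => simp [hs]
      | v :: w :: L, b :: bs, hL => exact absurd rfl (hL v w L b bs rfl)
    rw [h2] at hh
    simp at hh

/-- decoding -/
theorem decode {k : Fin d} {m : ℤ} {P P' : V d → V d → Prop} (L : List (V d)) (bs : List Bool) :
    ∀ (L' : List (V d)) (bs' : List Bool), bs ∈ sub P L → bs' ∈ sub P' L' →
    (∀ x ∈ L, m ≤ x k) → (∀ x ∈ L', m ≤ x k) →
    ins k (ht k m) L bs = ins k (ht k m) L' bs' → hs (ht k m) L bs = hs (ht k m) L' bs' →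
    L = L' ∧ bs = bs' := by
  induction L, bs using ins.induct with
  | case1 v w L b bs ih =>
    intro L' bs' hb hb' hm hm' he hh
    have hlen : (v :: w :: L).length = L'.length := by
      have h1 := length_ins k (ht k m) (v :: w :: L) (b :: bs)
      have h2 := length_ins k (ht k m) L' bs'
      rw [he, hh] at h1
      omega
    match L', bs', hb', hm', he, hh, hlen with
    | v' :: w' :: L', [], hb', _, _, _, _ =>
      rw [sub_cons] at hb'
      obtain ⟨_, _, h1, _⟩ := hb'
      simp at h1
    | v' :: w' :: L', b' :: bs', hb', hm', he, hh, _ =>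
      rw [sub_cons] at hb hb'
      obtain ⟨_, _, h1, h2, h3⟩ := hb
      obtain ⟨rfl, rfl⟩ := List.cons.inj h1
      obtain ⟨_, _, h1', h2', h3'⟩ := hb'
      obtain ⟨rfl, rfl⟩ := List.cons.inj h1'
      rw [ins, ins] at he
      obtain ⟨rfl, he⟩ := List.cons.inj he
      have hv := hm v (by simp)
      have hw := hm w (by simp)
      have hw' := hm' w' (by simp)
      have g1 : ∀ x ∈ L, m ≤ x k := fun x hx => hm x (by simp [hx])
      have g2 : ∀ x ∈ L', m ≤ x k := fun x hx => hm' x (by simp [hx])
      cases b <;> cases b'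
      · simp only [Bool.false_eq_true, if_false, List.nil_append] at he
        obtain ⟨e1, he1⟩ := List.cons.inj he
        subst e1
        rw [hs, hs] at hh
        simp only [Bool.false_eq_true, if_false, List.nil_append] at hh
        obtain ⟨rfl, rfl⟩ := ih L' bs' h3 h3' g1 g2 he1 hh
        exact ⟨rfl, rfl⟩
      · exfalso
        simp only [Bool.false_eq_true, if_false, List.nil_append, if_true] at he
        rw [hs, hs] at hh
        simp only [Bool.false_eq_true, if_false, List.nil_append, if_true,
          List.singleton_append] at hh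
        have h4 := tk_ins L bs g1 hh
        have h5 := tk_tower (k := k) (m := m) (v := v) (w := w') hv (w' :: ins k (ht k m) L' bs')
        rw [← he, tk_cons hw] at h5
        omega
      · exfalso
        simp only [Bool.false_eq_true, if_false, List.nil_append, if_true] at he
        rw [hs, hs] at hh
        simp only [Bool.false_eq_true, if_false, List.nil_append, if_true,
          List.singleton_append] at hh
        have h4 := tk_ins L' bs' g2 hh.symm
        have h5 := tk_tower (k := k) (m := m) (v := v) (w := w) hv (w :: ins k (ht k m) L bs)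
        rw [he, tk_cons hw'] at h5
        omega
      · simp only [if_true] at he
        rw [hs, hs] at hh
        simp only [if_true, List.singleton_append] at hh
        obtain ⟨-, hh⟩ := List.cons.inj hh
        obtain ⟨-, he1⟩ := List.append_inj he (by rw [length_tower, length_tower])
        obtain ⟨e1, he2⟩ := List.cons.inj he1
        subst e1
        obtain ⟨rfl, rfl⟩ := ih L' bs' h3 h3' g1 g2 he2 hh
        exact ⟨rfl, rfl⟩
  | case2 L bs hL =>
    intro L' bs' hb hb' hm hm' he hh
    have hlen : L.length = L'.length := by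
      have h1 := length_ins k (ht k m) L bs
      have h2 := length_ins k (ht k m) L' bs'
      rw [he, hh] at h1
      omega
    match L, bs, hL, hb, he, hh, hlen with
    | [], bs, _, hb, he, _, hlen =>
      match L', hb', he, hlen with
      | [], hb', _, _ =>
        simp only [sub, mem_singleton] at hb hb'
        exact ⟨rfl, by rw [hb, hb']⟩
    | [v], bs, _, hb, he, _, hlen =>
      match L', hb', he, hlen with
      | [v'], hb', he, _ =>
        simp only [sub, mem_singleton] at hb hb'
        simp only [ins] at he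
        exact ⟨he, by rw [hb, hb']⟩
    | v :: w :: L, [], _, hb, _, _, _ =>
      rw [sub_cons] at hb
      obtain ⟨_, _, h1, _⟩ := hb
      simp at h1
    | v :: w :: L, b :: bs, hL, _, _, _, _ => exact absurd rfl (hL v w L b bs rfl)

end H982.EX
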