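import Pool.Agent.H982.EX2

/-!
# Finite sets of self-avoiding walks, and the main inequality for inserted towers
-/

set_option autoImplicit false
set_option linter.unusedSectionVars false

namespace H982.EX

open Finset

variable {d : ℕ}

/-- the `2 d` unit steps of `ℤ^d` -/
def Ed (d : ℕ) : Finset (V d) :=
  (univ : Finset (Fin d × Bool)).image (fun p => Pi.single p.1 (if p.2 then 1 else -1))

lemma card_Ed (d : ℕ) : (Ed d).card ≤ 2 * d := by
  unfold Ed
  refine card_image_le.trans ?_
  rw [card_univ, Fintype.card_prod, Fintype.card_fin, Fintype.card_bool]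
  omega

lemma mem_Ed (v : V d) : v ∈ Ed d ↔ ∑ j, |v j| = 1 := by
  classical
  unfold Ed
  simp only [Finset.mem_image, Finset.mem_univ, true_and, Prod.exists]
  constructor
  · rintro ⟨j, b, rfl⟩
    rw [Finset.sum_eq_single j]
    · rw [Pi.single_eq_same]
      cases b <;> simp
    · intro i _ hij
      rw [Pi.single_eq_of_ne hij, abs_zero]
    · intro h
      exact absurd (Finset.mem_univ j) h
  · intro h
    obtain ⟨j, hj⟩ : ∃ j, v j ≠ 0 := by
      by_contra hcon
      push Not at hcon
      simp [hcon] at h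
    have h1 : |v j| + ∑ i ∈ univ.erase j, |v i| = 1 := by
      rw [Finset.add_sum_erase _ (fun j => |v j|) (Finset.mem_univ j)]; exact h
    have h2 : 0 ≤ ∑ i ∈ univ.erase j, |v i| := Finset.sum_nonneg (fun _ _ => abs_nonneg _)
    have h3 : 1 ≤ |v j| := Int.one_le_abs hj
    have h4 : ∑ i ∈ univ.erase j, |v i| = 0 := by omega
    have h5 : |v j| = 1 := by omega
    have h6 : ∀ i, i ≠ j → v i = 0 := by
      intro i hi
      have := (Finset.sum_eq_zero_iff_of_nonneg (fun _ _ => abs_nonneg _)).mp h4 i
        (Finset.mem_erase.mpr ⟨hi, Finset.mem_univ i⟩)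
      exact abs_eq_zero.mp this
    refine ⟨j, decide (0 < v j), ?_⟩
    funext i
    by_cases hi : i = j
    · subst hi
      rw [Pi.single_eq_same]
      rcases abs_cases (v i) with h7 | h7
      · have : v i = 1 := by omega
        simp [this]
      · have : v i = -1 := by omega
        simp [this]
    · rw [Pi.single_eq_of_ne hi, h6 i hi]

lemma adj_iff {x y : V d} : Adj x y ↔ y - x ∈ Ed d := by
  rw [mem_Ed]; rfl

/-- all nearest neighbour paths with `n` steps which start at `x` -/
def Pt : V d → ℕ → Finset (List (V d))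
  | x, 0 => {[x]}
  | x, n + 1 => (Ed d).biUnion (fun s => (Pt (x + s) n).image (fun L => x :: L))

lemma mem_Pt {x : V d} {n : ℕ} {L : List (V d)} :
    L ∈ Pt x n ↔ L.length = n + 1 ∧ L.head? = some x ∧ List.IsChain Adj L := by
  induction n generalizing x L with
  | zero =>
    rw [Pt, mem_singleton]
    constructor
    · rintro rfl; simp
    · rintro ⟨h1, h2, -⟩
      match L, h1, h2 with
      | [y], _, h2 => simp at h2; rw [h2]
  | succ n ih =>
    rw [Pt]
    simp only [mem_biUnion, mem_image]
    constructor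
    · rintro ⟨s, hs, L', h1, rfl⟩
      rw [ih] at h1
      obtain ⟨h1, h2, h3⟩ := h1
      refine ⟨by simp [h1], by simp, ?_⟩
      match L', h2, h3 with
      | y :: L'', h2, h3 =>
        simp at h2
        rw [List.isChain_cons_cons]
        refine ⟨?_, h3⟩
        rw [h2, adj_iff]
        simpa using hs
    · rintro ⟨h1, h2, h3⟩
      match L, h1, h2, h3 with
      | [y], h1, _, _ => simp at h1
      | y :: z :: L'', h1, h2, h3 =>
        simp at h2
        subst h2
        rw [List.isChain_cons_cons] at h3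
        refine ⟨z - y, adj_iff.mp h3.1, z :: L'', ?_, rfl⟩
        rw [ih]
        refine ⟨by simpa using h1, by simp, h3.2⟩

/-- the self-avoiding walks with `n` steps which start at the origin, as lists of `n + 1` sites -/
noncomputable def S (d n : ℕ) : Finset (List (V d)) := by
  classical
  exact (Pt (0 : V d) n).filter (fun L => L.Nodup)

lemma mem_S {n : ℕ} {L : List (V d)} :
    L ∈ S d n ↔ L.length = n + 1 ∧ L.head? = some 0 ∧ List.IsChain Adj L ∧ L.Nodup := by
  classical
  unfold S
  rw [mem_filter, mem_Pt]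
  tauto

lemma dropLast_mem {n : ℕ} {L : List (V d)} (h : L ∈ S d (n + 1)) : L.dropLast ∈ S d n := by
  rw [mem_S] at h ⊢
  obtain ⟨h1, h2, h3, h4⟩ := h
  refine ⟨by simp [h1], ?_, ?_, h4.sublist (List.dropLast_sublist L)⟩
  · match L, h1, h2 with
    | y :: z :: L', _, h2 => simpa using h2
  · have e : L = L.dropLast ++ [L.getLast (by rintro rfl; simp at h1)] :=
      (List.dropLast_append_getLast _).symm
    rw [e] at h3
    exact h3.left_of_append

lemma card_succ_le (n : ℕ) (Q : List (V d) → Prop) [DecidablePred Q]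
    (hQ : ∀ L, Q L → Q L.dropLast) :
    ((S d (n + 1)).filter Q).card ≤ 2 * d * ((S d n).filter Q).card := by
  classical
  have h1 : ((S d (n + 1)).filter Q).card ≤ ((Ed d) ×ˢ ((S d n).filter Q)).card := by
    refine card_le_card_of_injOn
      (fun L => (L.getLast?.getD 0 - L.dropLast.getLast?.getD 0, L.dropLast)) ?_ ?_
    · intro L hL
      rw [mem_coe, mem_filter] at hL
      rw [mem_coe, mem_product, mem_filter]
      refine ⟨?_, dropLast_mem hL.1, hQ L hL.2⟩
      obtain ⟨h1, h2, h3, h4⟩ := mem_S.mp hL.1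
      obtain ⟨A, x, y, rfl⟩ : ∃ A x y, L = A ++ [x, y] := by
        have hne : L ≠ [] := by rintro rfl; simp at h1
        have e := (List.dropLast_append_getLast hne).symm
        have hne' : L.dropLast ≠ [] := by
          intro h
          have : L.dropLast.length = n + 1 := by simp [h1]
          rw [h] at this
          simp at this
        have e' := (List.dropLast_append_getLast hne').symm
        refine ⟨L.dropLast.dropLast, L.dropLast.getLast hne', L.getLast hne, ?_⟩
        conv_lhs => rw [e, e']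
        simp
      have h5 : List.IsChain Adj [x, y] := h3.right_of_append
      rw [List.isChain_cons_cons] at h5
      have e1 : (A ++ [x, y]).dropLast = A ++ [x] := by
        rw [show A ++ [x, y] = (A ++ [x]) ++ [y] by simp, List.dropLast_concat]
      simp only [e1]
      simp only [List.getLast?_append, List.getLast?_cons_cons, List.getLast?_singleton,
        Option.some_or, Option.getD_some]
      exact adj_iff.mp h5.1
    · intro L hL L' hL' he
      rw [mem_coe, mem_filter] at hL hL'
      obtain ⟨h1, -, -, -⟩ := mem_S.mp hL.1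
      obtain ⟨h1', -, -, -⟩ := mem_S.mp hL'.1
      have hne : L ≠ [] := by rintro rfl; simp at h1
      have hne' : L' ≠ [] := by rintro rfl; simp at h1'
      simp only [Prod.mk.injEq] at he
      obtain ⟨g1, g2⟩ := he
      rw [g2] at g1
      have g3 : L.getLast?.getD 0 = L'.getLast?.getD 0 := by
        have := congrArg (· + L'.dropLast.getLast?.getD 0) g1
        simpa using this
      rw [List.getLast?_eq_some_getLast hne, List.getLast?_eq_some_getLast hne'] at g3
      simp only [Option.getD_some] at g3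
      rw [← List.dropLast_append_getLast hne, ← List.dropLast_append_getLast hne', g2, g3]
  rw [card_product] at h1
  exact h1.trans (Nat.mul_le_mul_right _ (card_Ed d))

lemma card_add_le (n m : ℕ) (Q : List (V d) → Prop) [DecidablePred Q]
    (hQ : ∀ L, Q L → Q L.dropLast) :
    ((S d (n + m)).filter Q).card ≤ (2 * d) ^ m * ((S d n).filter Q).card := by
  induction m with
  | zero => simp
  | succ m ih =>
    have := card_succ_le (n + m) Q hQ
    rw [← add_assoc]
    calc _ ≤ 2 * d * ((S d (n + m)).filter Q).card := this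
      _ ≤ 2 * d * ((2 * d) ^ m * ((S d n).filter Q).card) := Nat.mul_le_mul_left _ ih
      _ = _ := by ring

/-- lists of `s` numbers between `1` and `R` -/
def HL (R : ℕ) : ℕ → Finset (List ℕ)
  | 0 => {[]}
  | s + 1 => (Icc 1 R).biUnion (fun h => (HL R s).image (fun H => h :: H))

lemma mem_HL {R s : ℕ} {H : List ℕ} :
    H ∈ HL R s ↔ H.length = s ∧ ∀ h ∈ H, 1 ≤ h ∧ h ≤ R := by
  induction s generalizing H with
  | zero =>
    rw [HL, mem_singleton]
    constructor
    · rintro rfl; simp
    · rintro ⟨h, -⟩; exact List.length_eq_zero_iff.mp h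
  | succ s ih =>
    rw [HL]
    simp only [mem_biUnion, mem_image, mem_Icc]
    constructor
    · rintro ⟨h, hh, H', h1, rfl⟩
      rw [ih] at h1
      refine ⟨by simp [h1.1], ?_⟩
      intro x hx
      rw [List.mem_cons] at hx
      rcases hx with rfl | hx
      · exact hh
      · exact h1.2 x hx
    · rintro ⟨h1, h2⟩
      match H, h1, h2 with
      | h :: H', h1, h2 =>
        refine ⟨h, h2 h (by simp), H', ?_, rfl⟩
        rw [ih]
        exact ⟨by simpa using h1, fun x hx => h2 x (by simp [hx])⟩

lemma sum_HL (R : ℕ) (q : ℝ) (s : ℕ) :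
    ∑ H ∈ HL R s, q ^ H.sum = (∑ h ∈ Icc 1 R, q ^ h) ^ s := by
  classical
  induction s with
  | zero => simp [HL]
  | succ s ih =>
    rw [HL, sum_biUnion]
    · have key : ∀ h, ∑ H ∈ (HL R s).image (fun H => h :: H), q ^ H.sum =
          q ^ h * (∑ h ∈ Icc 1 R, q ^ h) ^ s := by
        intro h
        rw [sum_image (by intro x _ y _ h; simpa using h), ← ih, mul_sum]
        refine sum_congr rfl (fun H _ => ?_)
        rw [List.sum_cons, pow_add]
      simp only [key]
      rw [← sum_mul, pow_succ]
      ring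
    · intro a _ b _ hab
      rw [Function.onFun, disjoint_left]
      intro x hx hy
      rw [mem_image] at hx hy
      obtain ⟨x1, _, rfl⟩ := hx
      obtain ⟨x2, _, h2⟩ := hy
      exact hab (List.cons.inj h2).1.symm

lemma hs_mem {k : Fin d} {G : List (V d)} {m : ℤ} {r : ℕ} (L : List (V d)) (bs : List Bool)
    (hb : bs ∈ sub (Ex k G m r) L) (hm : ∀ x ∈ L, m ≤ x k) :
    (hs (ht k m) L bs).length ≤ L.length ∧ ∀ h ∈ hs (ht k m) L bs, 1 ≤ h ∧ h ≤ r + 1 := by
  induction L, bs using hs.induct with
  | case1 v w L b bs ih =>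
    rw [sub_cons] at hb
    obtain ⟨b', bs', h1, h2, h3⟩ := hb
    obtain ⟨rfl, rfl⟩ := List.cons.inj h1
    obtain ⟨i1, i2⟩ := ih h3 (fun x hx => hm x (by simp [hx]))
    have hv := hm v (by simp)
    rw [hs]
    cases b
    · simp only [Bool.false_eq_true, if_false, List.nil_append, List.length_cons]
      exact ⟨by omega, i2⟩
    · simp only [if_true, List.singleton_append, List.length_cons]
      refine ⟨by omega, ?_⟩
      intro h hh
      rw [List.mem_cons] at hh
      rcases hh with rfl | hh
      · obtain ⟨-, -, -, h7⟩ := h2 rfl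
        unfold ht
        omega
      · exact i2 h hh
  | case2 L bs hL =>
    have h1 : hs (ht k m) L bs = [] := by
      match L, bs, hL with
      | [], _, _ => simp [hs]
      | [v], _, _ => simp [hs]
      | v :: w :: L, [], _ => simp [hs]
      | v :: w :: L, b :: bs, hL => exact absurd rfl (hL v w L b bs rfl)
    rw [h1]
    simp

open Classical in
/-- **Main inequality.**  `A` is a set of walks, `m L` a level below the walk `L`, the image walks
with `N + 1` sites are in `T N`, and `m` can be read off from the image. -/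
theorem main_ineq (k : Fin d) (r p n : ℕ) (A : Finset (List (V d)))
    (m : List (V d) → ℤ) (T : ℕ → Finset (List (V d))) (t q C : ℝ) (ht0 : 0 ≤ t)
    (hA : ∀ L ∈ A, L.length = n + 1) (hm : ∀ L ∈ A, ∀ x ∈ L, m L ≤ x k)
    (hT : ∀ L ∈ A, ∀ bs ∈ sub (Ex k L (m L) r) (L.drop p),
      L.take p ++ ins k (ht k (m L)) (L.drop p) bs ∈
        T (n + 2 * (hs (ht k (m L)) (L.drop p) bs).sum))
    (hmm : ∀ L ∈ A, ∀ L' ∈ A, ∀ bs ∈ sub (Ex k L (m L) r) (L.drop p),
      ∀ bs' ∈ sub (Ex k L' (m L') r) (L'.drop p),
      L.take p ++ ins k (ht k (m L)) (L.drop p) bs =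
        L'.take p ++ ins k (ht k (m L')) (L'.drop p) bs' →
      hs (ht k (m L)) (L.drop p) bs = hs (ht k (m L')) (L'.drop p) bs' → m L = m L')
    (hC : ∀ j, ((T (n + 2 * j)).card : ℝ) ≤ C * q ^ j * A.card)
    (hC0 : 0 ≤ C) (hq : t * ∑ h ∈ Icc 1 (r + 1), q ^ h ≤ 1 / 2) (hq0 : 0 ≤ q) :
    ∑ L ∈ A, (1 + t) ^ nE (Ex k L (m L) r) (L.drop p) ≤ 2 * C * A.card := by
  set D : Finset (Σ _ : List (V d), List Bool) :=
    A.sigma (fun L => sub (Ex k L (m L) r) (L.drop p)) with hD
  set hh : (Σ _ : List (V d), List Bool) → List ℕ :=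
    fun x => hs (ht k (m x.1)) (x.1.drop p) x.2 with hhh
  set im : (Σ _ : List (V d), List Bool) → List (V d) :=
    fun x => x.1.take p ++ ins k (ht k (m x.1)) (x.1.drop p) x.2 with him
  set HH : Finset (List ℕ) := (range (n + 2)).biUnion (HL (r + 1)) with hHH
  have e1 : ∑ L ∈ A, (1 + t) ^ nE (Ex k L (m L) r) (L.drop p) =
      ∑ x ∈ D, t ^ (hh x).length := by
    rw [hD, sum_sigma]
    refine sum_congr rfl (fun L _ => ?_)
    rw [← sum_sub _ (ht k (m L))]
  have maps : ∀ x ∈ D, hh x ∈ HH := by
    intro x hx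
    rw [hD, mem_sigma] at hx
    obtain ⟨h1, h2⟩ := hs_mem (x.1.drop p) x.2 hx.2
      (fun y hy => hm x.1 hx.1 y (List.mem_of_mem_drop hy))
    rw [hHH, mem_biUnion]
    refine ⟨(hh x).length, ?_, ?_⟩
    · rw [mem_range]
      have := hA x.1 hx.1
      have h3 : (x.1.drop p).length ≤ x.1.length := by simp
      simp only [hhh]
      omega
    · rw [mem_HL]
      exact ⟨rfl, h2⟩
  have e2 : ∑ x ∈ D, t ^ (hh x).length =
      ∑ H ∈ HH, ∑ x ∈ D.filter (fun x => hh x = H), t ^ (hh x).length :=
    (sum_fiberwise_of_maps_to maps _).symm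
  have e3 : ∀ H ∈ HH, ∑ x ∈ D.filter (fun x => hh x = H), t ^ (hh x).length ≤
      t ^ H.length * (C * q ^ H.sum * A.card) := by
    intro H _
    have h1 : ∑ x ∈ D.filter (fun x => hh x = H), t ^ (hh x).length =
        (D.filter (fun x => hh x = H)).card * t ^ H.length := by
      rw [← nsmul_eq_mul, ← sum_const]
      refine sum_congr rfl (fun x hx => ?_)
      rw [(mem_filter.mp hx).2]
    have h2 : (D.filter (fun x => hh x = H)).card ≤ (T (n + 2 * H.sum)).card := by
      refine card_le_card_of_injOn im ?_ ?_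
      · intro x hx
        rw [mem_coe, mem_filter, hD, mem_sigma] at hx
        have := hT x.1 hx.1.1 x.2 hx.1.2
        rw [mem_coe, ← hx.2]
        exact this
      · intro x hx y hy hxy
        rw [mem_coe, mem_filter, hD, mem_sigma] at hx hy
        obtain ⟨⟨hx1, hx2⟩, hx3⟩ := hx
        obtain ⟨⟨hy1, hy2⟩, hy3⟩ := hy
        obtain ⟨L, bs⟩ := x
        obtain ⟨L', bs'⟩ := y
        simp only [hhh] at hx1 hx2 hx3 hy1 hy2 hy3
        simp only [him] at hxy
        have hmL := hmm L hx1 L' hy1 bs hx2 bs' hy2 hxy (hx3.trans hy3.symm)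
        have l1 := hA L hx1
        have l2 := hA L' hy1
        obtain ⟨g1, g2⟩ := List.append_inj hxy (by simp [l1, l2])
        rw [← hmL] at g2 hy2 hy3
        have g3 := decode (k := k) (m := m L) (L.drop p) bs (L'.drop p) bs' hx2 hy2
          (fun y hy => hm L hx1 y (List.mem_of_mem_drop hy))
          (fun y hy => by rw [hmL]; exact hm L' hy1 y (List.mem_of_mem_drop hy))
          g2 (hx3.trans hy3.symm)
        have g4 : L = L' := by
          rw [← List.take_append_drop p L, ← List.take_append_drop p L', g1, g3.1]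
        subst g4
        rw [g3.2]
    rw [h1, mul_comm]
    refine mul_le_mul_of_nonneg_left ?_ (by positivity)
    exact (by exact_mod_cast h2 : ((D.filter (fun x => hh x = H)).card : ℝ) ≤
      (T (n + 2 * H.sum)).card).trans (hC _)
  have e4 : ∑ H ∈ HH, t ^ H.length * (C * q ^ H.sum * A.card) =
      C * A.card * ∑ s ∈ range (n + 2), (t * ∑ h ∈ Icc 1 (r + 1), q ^ h) ^ s := by
    rw [hHH, sum_biUnion]
    · rw [mul_sum]
      refine sum_congr rfl (fun s _ => ?_)
      rw [mul_pow, ← sum_HL, mul_sum, mul_sum]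
      refine sum_congr rfl (fun H hH => ?_)
      rw [(mem_HL.mp hH).1]
      ring
    · intro a _ b _ hab
      rw [Function.onFun, disjoint_left]
      intro x hx hy
      exact hab ((mem_HL.mp hx).1.symm.trans (mem_HL.mp hy).1)
  have e5 : ∑ s ∈ range (n + 2), (t * ∑ h ∈ Icc 1 (r + 1), q ^ h) ^ s ≤ 2 := by
    have h0 : 0 ≤ t * ∑ h ∈ Icc 1 (r + 1), q ^ h := by positivity
    calc ∑ s ∈ range (n + 2), (t * ∑ h ∈ Icc 1 (r + 1), q ^ h) ^ s
        ≤ ∑ s ∈ range (n + 2), (1 / 2 : ℝ) ^ s :=
          sum_le_sum (fun s _ => pow_le_pow_left₀ h0 hq s)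
      _ ≤ ∑' s : ℕ, (1 / 2 : ℝ) ^ s :=
          Summable.sum_le_tsum _ (fun _ _ => by positivity)
            (summable_geometric_of_lt_one (by norm_num) (by norm_num))
      _ = 2 := tsum_geometric_two
  rw [e1, e2]
  refine (sum_le_sum e3).trans ?_
  rw [e4]
  have : 0 ≤ C * (A.card : ℝ) := by positivity
  nlinarith [mul_le_mul_of_nonneg_left e5 this]

end H982.EX
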