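import Pool.Agent.H982.EX3

/-!
# Exposed edges: exponential moments for all walks and for half-space walks
-/

set_option autoImplicit false
set_option linter.unusedSectionVars false

namespace H982.EX

open Finset

variable {d : ℕ}

/-- the lowest level of a walk -/
noncomputable def mn (k : Fin d) (L : List (V d)) : ℤ := by
  classical
  exact if h : L.toFinset.Nonempty then L.toFinset.inf' h (fun x => x k) else 0

lemma mn_le {k : Fin d} {L : List (V d)} {x : V d} (hx : x ∈ L) : mn k L ≤ x k := by
  classical
  have h : L.toFinset.Nonempty := ⟨x, by simpa using hx⟩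
  unfold mn
  rw [dif_pos h]
  exact Finset.inf'_le _ (by simpa using hx)

lemma mn_mem {k : Fin d} {L : List (V d)} (hL : L ≠ []) : ∃ x ∈ L, x k = mn k L := by
  classical
  have h : L.toFinset.Nonempty := by
    rw [List.toFinset_nonempty_iff]; exact hL
  unfold mn
  rw [dif_pos h]
  obtain ⟨x, h1, h2⟩ := Finset.exists_mem_eq_inf' h (fun x : V d => x k)
  exact ⟨x, by simpa using h1, h2.symm⟩

lemma mn_eq {k : Fin d} {L : List (V d)} {m : ℤ} (h1 : ∀ x ∈ L, m ≤ x k)
    (h2 : ∃ x ∈ L, x k = m) : mn k L = m := by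
  obtain ⟨x, hx, hxm⟩ := h2
  obtain ⟨y, hy, hym⟩ := mn_mem (k := k) (L := L) (by rintro rfl; simp at hx)
  have := mn_le (k := k) hx
  have := h1 y hy
  omega

lemma ins_of_nil (k : Fin d) (h : V d → ℕ) (L : List (V d)) (bs : List Bool)
    (hh : hs h L bs = []) : ins k h L bs = L := by
  induction L, bs using ins.induct with
  | case1 v w L b bs ih =>
    rw [hs] at hh
    cases b
    · simp only [Bool.false_eq_true, if_false, List.nil_append] at hh
      rw [ins]
      simp only [Bool.false_eq_true, if_false, List.nil_append]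
      rw [ih hh]
    · simp at hh
  | case2 L bs hL =>
    match L, bs, hL with
    | [], _, _ => simp [ins]
    | [v], _, _ => simp [ins]
    | v :: w :: L, [], _ => simp [ins]
    | v :: w :: L, b :: bs, hL => exact absurd rfl (hL v w L b bs rfl)

lemma adj_sub_ev (k : Fin d) (v : V d) : Adj (v - ev k) v := by
  rw [adj_iff, mem_Ed]
  have : ∀ j, |(v - (v - ev k)) j| = ev k j := by
    intro j
    by_cases hj : j = k
    · subst hj; simp
    · simp [ev_ne hj]
  simp only [this]
  simp [ev]

lemma chain_ins' (k : Fin d) (h : V d → ℕ) (L : List (V d)) (bs : List Bool)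
    (hc : List.IsChain Adj L) : List.IsChain Adj (ins k h L bs) := by
  match L, hc with
  | [], _ => simp [ins]
  | v :: L, hc =>
    have := chain_ins k h (v :: L) bs (v - ev k) (by
      rw [List.isChain_cons_cons]; exact ⟨adj_sub_ev k v, hc⟩)
    exact this.tail

/-- the image walk -/
lemma image_walk (k : Fin d) (r p n : ℕ) (hp : p ≤ 1) (m : ℤ) {L : List (V d)} (hL : L ∈ S d n)
    (hm : ∀ x ∈ L, m ≤ x k) {bs : List Bool} (hb : bs ∈ sub (Ex k L m r) (L.drop p)) :
    L.take p ++ ins k (ht k m) (L.drop p) bs ∈ S d (n + 2 * (hs (ht k m) (L.drop p) bs).sum) ∧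
    (∀ x ∈ L.take p ++ ins k (ht k m) (L.drop p) bs, m - 1 ≤ x k) ∧
    (hs (ht k m) (L.drop p) bs ≠ [] →
      ∃ x ∈ L.take p ++ ins k (ht k m) (L.drop p) bs, x k = m - 1) := by
  rw [mem_S] at hL
  obtain ⟨h1, h2, h3, h4⟩ := hL
  have hm' : ∀ x ∈ L.drop p, m ≤ x k := fun x hx => hm x (List.mem_of_mem_drop hx)
  refine ⟨?_, ?_, ?_⟩
  · rw [mem_S]
    refine ⟨?_, ?_, ?_, ?_⟩
    · rw [List.length_append, length_ins]
      simp only [List.length_take, List.length_drop]
      omega
    · rw [List.head?_append, head_ins, ← List.head?_append, List.take_append_drop]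
      exact h2
    · interval_cases p
      · simp only [List.take_zero, List.drop_zero, List.nil_append]
        exact chain_ins' k _ L bs h3
      · match L, h3 with
        | [], _ => simp [ins]
        | u :: L', h3 =>
          simp only [List.take_succ_cons, List.take_zero, List.drop_succ_cons, List.drop_zero,
            List.singleton_append]
          exact chain_ins k _ L' bs u h3
    · exact nodup_ins (L.take p) (L.drop p) bs (by rw [List.take_append_drop]; exact hb) hm'
        (by rw [List.take_append_drop]; exact h4)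
  · intro x hx
    rw [List.mem_append] at hx
    rcases hx with hx | hx
    · have := hm x (List.mem_of_mem_take hx); omega
    · exact ge_ins _ bs hb hm' x hx
  · intro hh
    obtain ⟨x, h5, h6⟩ := exists_ins (L.drop p) bs hm' hh
    exact ⟨x, by simp [h5], h6⟩

/-- the fugacity of the exposed edges -/
noncomputable def tt (d r : ℕ) : ℝ := 1 / (2 * (∑ h ∈ Icc 1 (r + 1), ((2 * d : ℝ) ^ 2) ^ h + 1))

lemma tt_pos (d r : ℕ) : 0 < tt d r := by
  unfold tt; positivity

lemma tt_le (d r : ℕ) : tt d r * ∑ h ∈ Icc 1 (r + 1), ((2 * d : ℝ) ^ 2) ^ h ≤ 1 / 2 := by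
  unfold tt
  have h : 0 ≤ ∑ h ∈ Icc 1 (r + 1), ((2 * d : ℝ) ^ 2) ^ h := by positivity
  rw [div_mul_eq_mul_div, one_mul, div_le_iff₀ (by positivity)]
  linarith

/-- all walks -/
theorem free_moment (k : Fin d) (r p n : ℕ) (hp : p ≤ 1) :
    ∑ L ∈ S d n, (1 + tt d r) ^ nE (Ex k L (mn k L) r) (L.drop p) ≤ 2 * (S d n).card := by
  have h := main_ineq k r p n (S d n) (mn k) (S d) (tt d r) ((2 * d : ℝ) ^ 2) 1 (tt_pos d r).le
    (fun L hL => (mem_S.mp hL).1) (fun L _ x hx => mn_le hx) ?_ ?_ ?_ zero_le_one (tt_le d r)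
    (by positivity)
  · simpa using h
  · intro L hL bs hb
    exact (image_walk k r p n hp (mn k L) hL (fun x hx => mn_le hx) hb).1
  · intro L hL L' hL' bs hb bs' hb' he hh
    have i1 := image_walk k r p n hp (mn k L) hL (fun x hx => mn_le hx) hb
    have i2 := image_walk k r p n hp (mn k L') hL' (fun x hx => mn_le hx) hb'
    by_cases h0 : hs (ht k (mn k L)) (L.drop p) bs = []
    · have h0' := h0
      rw [hh] at h0'
      rw [ins_of_nil k _ _ _ h0, ins_of_nil k _ _ _ h0', List.take_append_drop,
        List.take_append_drop] at he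
      rw [he]
    · have h0' := h0
      rw [hh] at h0'
      have e1 := mn_eq i1.2.1 (i1.2.2 h0)
      have e2 := mn_eq i2.2.1 (i2.2.2 h0')
      rw [he] at e1
      omega
  · intro j
    have := card_add_le (d := d) n (2 * j) (fun _ => True) (fun _ _ => trivial)
    simp only [filter_true] at this
    rw [one_mul, ← pow_mul]
    exact_mod_cast this

/-! ### half-space walks -/

/-- all sites have level at least `c` -/
def Ab (k : Fin d) (c : ℤ) (L : List (V d)) : Prop := ∀ x ∈ L, c ≤ x k

lemma Ab.dropLast {k : Fin d} {c : ℤ} {L : List (V d)} (h : Ab k c L) : Ab k c L.dropLast :=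
  fun x hx => h x (List.dropLast_subset L hx)

open Classical in
/-- the half-space walks -/
noncomputable def Hf (k : Fin d) (c : ℤ) (n : ℕ) : Finset (List (V d)) :=
  (S d n).filter (Ab k c)

lemma mem_Hf {k : Fin d} {c : ℤ} {n : ℕ} {L : List (V d)} :
    L ∈ Hf k c n ↔ L ∈ S d n ∧ Ab k c L := by
  classical
  unfold Hf
  rw [mem_filter]

lemma shift_mem {n : ℕ} {x : V d} {L : List (V d)} (h1 : L.length = n + 1)
    (h2 : L.head? = some x) (h3 : List.IsChain Adj L) (h4 : L.Nodup) :
    L.map (fun y => y - x) ∈ S d n := by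
  rw [mem_S]
  refine ⟨by simpa using h1, by simp [h2], ?_, h4.map (fun a b h => by simpa using h)⟩
  rw [List.isChain_map]
  exact h3.imp (fun a b h => h.shift x)

lemma map_shift_inj (x : V d) : Function.Injective (fun L : List (V d) => L.map (fun y => y - x)) :=
  List.map_injective_iff.mpr (fun a b h => by simpa using h)

open Classical in
/-- the backbite move at `z` -/
noncomputable def bb (z : V d) (L : List (V d)) : List (V d) :=
  (L.takeWhile (fun x => decide (x ≠ z))).reverse ++ L.dropWhile (fun x => decide (x ≠ z))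

lemma bb_bb (z : V d) (L : List (V d)) : bb z (bb z L) = L := by
  classical
  have key : ∀ B C : List (V d), (∀ x ∈ B, x ≠ z) → (C = [] ∨ ∃ R, C = z :: R) →
      bb z (B ++ C) = B.reverse ++ C := by
    intro B C hB hC
    have h1 : (B ++ C).takeWhile (fun x => decide (x ≠ z)) = B := by
      rw [List.takeWhile_append_of_pos (by simpa using hB)]
      rcases hC with rfl | ⟨R, rfl⟩
      · simp
      · simp
    have h2 : (B ++ C).dropWhile (fun x => decide (x ≠ z)) = C := by
      rw [List.dropWhile_append_of_pos (by simpa using hB)]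
      rcases hC with rfl | ⟨R, rfl⟩
      · simp
      · simp
    unfold bb
    rw [h1, h2]
  have hB : ∀ x ∈ L.takeWhile (fun x => decide (x ≠ z)), x ≠ z := by
    intro x hx
    simpa using List.mem_takeWhile_imp hx
  have hC : L.dropWhile (fun x => decide (x ≠ z)) = [] ∨
      ∃ R, L.dropWhile (fun x => decide (x ≠ z)) = z :: R := by
    rcases h : L.dropWhile (fun x => decide (x ≠ z)) with _ | ⟨y, R⟩
    · left; rfl
    · right
      have h1 := List.head?_dropWhile_not (fun x => decide (x ≠ z)) L
      rw [h] at h1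
      simp at h1
      exact ⟨R, by rw [h1]⟩
  have h1 : bb z L = (L.takeWhile (fun x => decide (x ≠ z))).reverse ++
      L.dropWhile (fun x => decide (x ≠ z)) := rfl
  rw [h1, key _ _ (fun x hx => hB x (List.mem_reverse.mp hx)) hC, List.reverse_reverse,
    List.takeWhile_append_dropWhile]

lemma bb_spec {z : V d} {B R : List (V d)} (hB : ∀ x ∈ B, x ≠ z) :
    bb z (B ++ z :: R) = B.reverse ++ z :: R := by
  classical
  have h1 : (B ++ z :: R).takeWhile (fun x => decide (x ≠ z)) = B := by
    rw [List.takeWhile_append_of_pos (by simpa using hB)]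
    simp
  have h2 : (B ++ z :: R).dropWhile (fun x => decide (x ≠ z)) = z :: R := by
    rw [List.dropWhile_append_of_pos (by simpa using hB)]
    simp
  unfold bb
  rw [h1, h2]

end H982.EX
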