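import Pool.Agent.H982.EX4

/-!
# Half-space walks: the backbite move at the beginning, and the exponential moment
-/

set_option autoImplicit false
set_option linter.unusedSectionVars false

namespace H982.EX

open Finset

variable {d : ℕ}

lemma neg_ev_self (k : Fin d) : (-ev k) k = -1 := by simp

lemma adj_neg_ev (k : Fin d) : Adj (-ev k) 0 := by
  have := adj_sub_ev k (0 : V d)
  rwa [zero_sub] at this

/-- prepend the site `- e` -/
def pre (k : Fin d) (L : List (V d)) : List (V d) := (-ev k :: L).map (fun y => y - (-ev k))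

lemma pre_inj (k : Fin d) : Function.Injective (pre k) := by
  intro L L' h
  have := map_shift_inj (-ev k) h
  exact (List.cons.inj this).2

lemma pre_mem {k : Fin d} {n : ℕ} {L : List (V d)} (h : L ∈ Hf k (-1) n) (hz : -ev k ∉ L) :
    pre k L ∈ Hf k 0 (n + 1) := by
  rw [mem_Hf] at h ⊢
  obtain ⟨h1, h2⟩ := h
  obtain ⟨g1, g2, g3, g4⟩ := mem_S.mp h1
  refine ⟨shift_mem (by simp [g1]) (by simp) ?_ (List.nodup_cons.mpr ⟨hz, g4⟩), ?_⟩
  · match L, g2, g3 with
    | y :: L', g2, g3 =>
      simp at g2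
      subst g2
      rw [List.isChain_cons_cons]
      exact ⟨adj_neg_ev k, g3⟩
  · intro x hx
    unfold pre at hx
    rw [List.mem_map] at hx
    obtain ⟨y, hy, rfl⟩ := hx
    rw [List.mem_cons] at hy
    rcases hy with rfl | hy
    · simp
    · have := h2 y hy
      simp
      omega

lemma Hf_mono {k : Fin d} {n : ℕ} {c c' : ℤ} (h : c' ≤ c) {L : List (V d)} (hL : L ∈ Hf k c n) :
    L ∈ Hf k c' n := by
  rw [mem_Hf] at hL ⊢
  exact ⟨hL.1, fun x hx => h.trans (hL.2 x hx)⟩

lemma neg_notMem {k : Fin d} {n : ℕ} {L : List (V d)} (hL : L ∈ Hf k 0 n) : -ev k ∉ L := by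
  intro h
  have := (mem_Hf.mp hL).2 _ h
  rw [neg_ev_self] at this
  omega

lemma split_at {k : Fin d} {n : ℕ} {L : List (V d)} (hL : L ∈ Hf k (-1) n) (hz : -ev k ∈ L) :
    ∃ B y R, L = (B ++ [y]) ++ (-ev k) :: R ∧ (∀ x ∈ B ++ [y], x ≠ -ev k) ∧ Adj y (-ev k) ∧
      (B = [] → y = 0) ∧ (B ≠ [] → y k = -1) := by
  obtain ⟨h1, h2⟩ := mem_Hf.mp hL
  obtain ⟨g1, g2, g3, g4⟩ := mem_S.mp h1
  obtain ⟨B0, R, rfl⟩ := List.append_of_mem hz
  have hne : ∀ x ∈ B0, x ≠ -ev k := by
    intro x hx hxz
    subst hxz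
    rw [List.nodup_append] at g4
    exact g4.2.2 _ hx _ (by simp) rfl
  have hB0 : B0 ≠ [] := by
    rintro rfl
    simp only [List.nil_append, List.head?_cons, Option.some.injEq] at g2
    have := congrFun g2 k
    rw [neg_ev_self] at this
    simp at this
  obtain ⟨B, y, rfl⟩ : ∃ B y, B0 = B ++ [y] :=
    ⟨B0.dropLast, B0.getLast hB0, (List.dropLast_append_getLast hB0).symm⟩
  have hadj : Adj y (-ev k) := by
    rw [List.append_assoc, List.singleton_append, List.isChain_append_cons_cons] at g3
    exact g3.2.1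
  refine ⟨B, y, R, rfl, hne, hadj, ?_, ?_⟩
  · rintro rfl
    simpa using g2
  · intro hB
    obtain ⟨x, B', rfl⟩ := List.exists_cons_of_ne_nil hB
    simp only [List.cons_append, List.head?_cons, Option.some.injEq] at g2
    subst g2
    have hy0 : y ≠ 0 := by
      rintro rfl
      rw [List.cons_append, List.cons_append, List.nodup_cons] at g4
      exact g4.1 (by simp)
    have hyk := h2 y (by simp)
    by_contra hne1
    apply hy0
    unfold Adj at hadj
    have e1 := Finset.add_sum_erase univ (fun i => |(-ev k) i - y i|) (Finset.mem_univ k)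
    rw [hadj, neg_ev_self] at e1
    have e2 : 0 ≤ ∑ i ∈ univ.erase k, |(-ev k) i - y i| := sum_nonneg (fun _ _ => abs_nonneg _)
    have e3 : |(-1 : ℤ) - y k| = y k + 1 := by
      rw [abs_sub_comm, abs_of_nonneg (by omega)]; ring
    have e4 : y k = 0 := by omega
    have e5 : ∑ i ∈ univ.erase k, |(-ev k) i - y i| = 0 := by omega
    ext i
    by_cases hi : i = k
    · rw [hi, e4]; rfl
    · have := (Finset.sum_eq_zero_iff_of_nonneg (fun _ _ => abs_nonneg _)).mp e5 i
        (Finset.mem_erase.mpr ⟨hi, Finset.mem_univ i⟩)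
      rw [abs_eq_zero, Pi.neg_apply, ev_ne hi] at this
      simp only [Pi.zero_apply]
      omega

lemma bb_mem {k : Fin d} {n : ℕ} {L : List (V d)} (hL : L ∈ Hf k (-1) n) {B R : List (V d)}
    {y : V d} (he : L = (B ++ [y]) ++ (-ev k) :: R) (hne : ∀ x ∈ B ++ [y], x ≠ -ev k)
    (hyk : y k = -1) :
    (bb (-ev k) L).head? = some y ∧ (bb (-ev k) L).map (fun x => x - y) ∈ Hf k 0 n := by
  obtain ⟨h1, h2⟩ := mem_Hf.mp hL
  obtain ⟨g1, g2, g3, g4⟩ := mem_S.mp h1
  have e : bb (-ev k) L = (B ++ [y]).reverse ++ (-ev k) :: R := by rw [he, bb_spec hne]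
  have hhead : (bb (-ev k) L).head? = some y := by rw [e]; simp
  have hperm : (bb (-ev k) L).Perm L := by
    rw [e, he]
    exact (List.reverse_perm _).append_right _
  refine ⟨hhead, ?_⟩
  rw [mem_Hf]
  refine ⟨shift_mem ?_ hhead ?_ (hperm.nodup_iff.mpr g4), ?_⟩
  · rw [hperm.length_eq, g1]
  · rw [e, List.isChain_append]
    rw [he] at g3
    refine ⟨?_, g3.right_of_append, ?_⟩
    · rw [List.isChain_reverse]
      exact g3.left_of_append.imp (fun _ _ h => h.symm)
    · intro a ha b hb
      rw [List.getLast?_reverse] at ha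
      simp only [List.head?_cons, Option.mem_def, Option.some.injEq] at hb
      subst hb
      rw [he, List.head?_append] at g2
      have hne0 : (B ++ [y]).head? = some a := ha
      rw [hne0, Option.some_or, Option.some.injEq] at g2
      rw [g2]
      exact (adj_neg_ev k).symm
  · intro x hx
    rw [List.mem_map] at hx
    obtain ⟨z, hz, rfl⟩ := hx
    have := h2 z (hperm.mem_iff.mp hz)
    simp only [Pi.sub_apply]
    omega

open Classical in
/-- walks which may go one level below the starting level -/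
theorem card_Hf_neg (k : Fin d) (n : ℕ) :
    (Hf k (-1) n).card ≤ (4 * d + 1) * (Hf k 0 n).card := by
  set T1 := (Hf k (-1) n).filter (fun L => -ev k ∉ L) with hT1
  set T2 := (Hf k (-1) n).filter (fun L => L.tail.head? = some (-ev k)) with hT2
  set T3 := (Hf k (-1) n).filter (fun L => -ev k ∈ L ∧ L.tail.head? ≠ some (-ev k)) with hT3
  have hcov : Hf k (-1) n ⊆ (T1 ∪ T2) ∪ T3 := by
    intro L hL
    simp only [hT1, hT2, hT3, mem_union, mem_filter]
    tauto
  have c1 : T1.card ≤ 2 * d * (Hf k 0 n).card := by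
    have h1 : T1.card ≤ (Hf k 0 (n + 1)).card := by
      refine card_le_card_of_injOn (pre k) ?_ ((pre_inj k).injOn)
      intro L hL
      rw [hT1, mem_coe, mem_filter] at hL
      exact pre_mem hL.1 hL.2
    exact h1.trans (card_succ_le n (Ab k 0) (fun _ h => h.dropLast))
  have c2 : T2.card ≤ (Hf k 0 n).card := by
    refine card_le_card_of_injOn (fun L => pre k (L.tail.map (fun y => y - (-ev k)))) ?_ ?_
    · intro L hL
      rw [hT2, mem_coe, mem_filter] at hL
      obtain ⟨hL, hL2⟩ := hL
      obtain ⟨h1, h2⟩ := mem_Hf.mp hL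
      obtain ⟨g1, g2, g3, g4⟩ := mem_S.mp h1
      match L, hL2, g1, g2, g3, g4, h2 with
      | x :: y :: R, hL2, g1, g2, g3, g4, h2 =>
        simp only [List.tail_cons, List.head?_cons, Option.some.injEq] at hL2
        subst hL2
        obtain ⟨n, rfl⟩ : ∃ n', n = n' + 1 := ⟨R.length, by simpa using g1.symm⟩
        have h3 : (-ev k :: R).map (fun y => y - (-ev k)) ∈ Hf k 0 n := by
          rw [mem_Hf]
          refine ⟨shift_mem (by simpa using g1) (by simp) (List.isChain_cons_cons.mp g3).2
            (List.nodup_cons.mp g4).2, ?_⟩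
          intro z hz
          rw [List.mem_map] at hz
          obtain ⟨w, hw, rfl⟩ := hz
          have := h2 w (List.mem_cons_of_mem _ hw)
          simp
          omega
        exact pre_mem (Hf_mono (by norm_num) h3) (neg_notMem h3)
      | [x], hL2, _, _, _, _, _ => simp at hL2
      | [], hL2, _, _, _, _, _ => simp at hL2
    · intro L hL L' hL' he
      rw [hT2, mem_coe, mem_filter] at hL hL'
      have h1 := map_shift_inj _ (pre_inj k he)
      have g := (mem_S.mp (mem_Hf.mp hL.1).1).2.1
      have g' := (mem_S.mp (mem_Hf.mp hL'.1).1).2.1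
      match L, L', h1, g, g' with
      | x :: A, x' :: A', h1, g, g' =>
        simp only [List.head?_cons, Option.some.injEq] at g g'
        simp only [List.tail_cons] at h1
        rw [g, g', h1]
  have c3 : T3.card ≤ 2 * d * (Hf k 0 n).card := by
    have h1 : T3.card ≤ (Ed d ×ˢ Hf k 0 n).card := by
      refine card_le_card_of_injOn (fun L => ((bb (-ev k) L).head?.getD 0 - (-ev k),
        (bb (-ev k) L).map (fun x => x - (bb (-ev k) L).head?.getD 0))) ?_ ?_
      · intro L hL
        rw [hT3, mem_coe, mem_filter] at hL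
        obtain ⟨hL, hz, hL2⟩ := hL
        obtain ⟨B, y, R, he, hne, hadj, hB0, hB1⟩ := split_at hL hz
        have hB : B ≠ [] := by
          rintro rfl
          apply hL2
          rw [he]; simp
        obtain ⟨i1, i2⟩ := bb_mem hL he hne (hB1 hB)
        rw [mem_coe, mem_product]
        simp only [i1, Option.getD_some]
        refine ⟨?_, i2⟩
        have := adj_iff.mp hadj.symm
        exact this
      · intro L hL L' hL' he
        simp only [Prod.mk.injEq] at he
        obtain ⟨e1, e2⟩ := he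
        have e3 : (bb (-ev k) L).head?.getD 0 = (bb (-ev k) L').head?.getD 0 := by
          simpa using e1
        rw [e3] at e2
        have e4 := map_shift_inj _ e2
        have e5 := congrArg (bb (-ev k)) e4
        rwa [bb_bb, bb_bb] at e5
    rw [card_product] at h1
    exact h1.trans (Nat.mul_le_mul_right _ (card_Ed d))
  calc (Hf k (-1) n).card ≤ ((T1 ∪ T2) ∪ T3).card := card_le_card hcov
    _ ≤ (T1 ∪ T2).card + T3.card := card_union_le _ _
    _ ≤ T1.card + T2.card + T3.card := by
        have := card_union_le T1 T2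
        omega
    _ ≤ 2 * d * (Hf k 0 n).card + (Hf k 0 n).card + 2 * d * (Hf k 0 n).card := by omega
    _ = (4 * d + 1) * (Hf k 0 n).card := by ring

open Classical in
/-- half-space walks -/
theorem half_moment (k : Fin d) (r p n : ℕ) (hp : p ≤ 1) :
    ∑ L ∈ Hf k 0 n, (1 + tt d r) ^ nE (Ex k L 0 r) (L.drop p) ≤
      2 * (4 * d + 1) * (Hf k 0 n).card := by
  have h := main_ineq k r p n (Hf k 0 n) (fun _ => 0) (Hf k (-1)) (tt d r) ((2 * d : ℝ) ^ 2)
    (4 * d + 1) (tt_pos d r).le
    (fun L hL => (mem_S.mp (mem_Hf.mp hL).1).1) (fun L hL x hx => (mem_Hf.mp hL).2 x hx) ?_ ?_ ?_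
    (by positivity) (tt_le d r) (by positivity)
  · exact h
  · intro L hL bs hb
    obtain ⟨h1, h2⟩ := mem_Hf.mp hL
    obtain ⟨i1, i2, -⟩ := image_walk k r p n hp 0 h1 h2 hb
    rw [mem_Hf]
    exact ⟨i1, fun x hx => by have := i2 x hx; omega⟩
  · intro L _ L' _ bs _ bs' _ _ _
    rfl
  · intro j
    have h1 := card_Hf_neg k (n + 2 * j)
    have h2 : (Hf k 0 (n + 2 * j)).card ≤ (2 * d) ^ (2 * j) * (Hf k 0 n).card :=
      card_add_le n (2 * j) (Ab k 0) (fun _ h => h.dropLast)
    have h3 : (Hf k (-1) (n + 2 * j)).card ≤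
        (4 * d + 1) * ((2 * d) ^ (2 * j) * (Hf k 0 n).card) :=
      h1.trans (Nat.mul_le_mul_left _ h2)
    have h4 : ((Hf k (-1) (n + 2 * j)).card : ℝ) ≤
        (4 * d + 1) * ((2 * d) ^ (2 * j) * (Hf k 0 n).card) := by exact_mod_cast h3
    rw [← pow_mul, mul_assoc]
    exact h4

end H982.EX
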