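import Pool.Agent.H982.EX5

/-!
# Many sites near the lowest level force many exposed edges; exponential tails
-/

set_option autoImplicit false
set_option linter.unusedSectionVars false

namespace H982.EX

open Finset

variable {d : ℕ}

open Classical in
/-- the number of edges with `P` -/
noncomputable def cE (P : V d → V d → Prop) : List (V d) → ℕ
  | v :: w :: L => (if P v w then 1 else 0) + cE P (w :: L)
  | _ => 0

lemma cE_eq (P : V d → V d → Prop) (L : List (V d)) : cE P L = nE P L + nE P (L.drop 1) := by
  classical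
  induction L with
  | nil => simp [cE, nE]
  | cons v L ih =>
    match L, ih with
    | [], _ => simp [cE, nE]
    | w :: L, ih =>
      rw [cE, ih, nE]
      simp only [List.drop_succ_cons, List.drop_zero]
      ring

open Classical in
/-- the sites of the edges with `P` -/
noncomputable def exS (P : V d → V d → Prop) : List (V d) → Finset (V d)
  | v :: w :: L => (if P v w then {v, w} else ∅) ∪ exS P (w :: L)
  | _ => ∅

lemma card_exS (P : V d → V d → Prop) (L : List (V d)) : (exS P L).card ≤ 2 * cE P L := by
  classical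
  induction L with
  | nil => simp [cE, exS]
  | cons v L ih =>
    match L, ih with
    | [], _ => simp [cE, exS]
    | w :: L, ih =>
      rw [cE, exS]
      refine (card_union_le _ _).trans ?_
      split_ifs
      · have := card_le_two (a := v) (b := w)
        omega
      · simp only [card_empty]
        omega

lemma mem_exS (P : V d → V d → Prop) {u v : V d} (hP : P u v) (A R : List (V d)) :
    u ∈ exS P (A ++ u :: v :: R) ∧ v ∈ exS P (A ++ u :: v :: R) := by
  classical
  induction A with
  | nil =>
    rw [List.nil_append, exS, if_pos hP]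
    constructor <;> simp
  | cons x A ih =>
    match A, ih with
    | [], ih =>
      simp only [List.nil_append] at ih
      rw [List.cons_append, List.nil_append, exS]
      exact ⟨mem_union_right _ ih.1, mem_union_right _ ih.2⟩
    | y :: A, ih =>
      rw [List.cons_append] at ih
      rw [List.cons_append, List.cons_append, exS]
      exact ⟨mem_union_right _ ih.1, mem_union_right _ ih.2⟩

lemma adj_cases (k : Fin d) {x y : V d} (h : Adj x y) :
    y = x + ev k ∨ y = x - ev k ∨ y k = x k := by
  by_cases hk : y k = x k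
  · exact Or.inr (Or.inr hk)
  unfold Adj at h
  have e1 := Finset.add_sum_erase univ (fun i => |y i - x i|) (Finset.mem_univ k)
  rw [h] at e1
  have e2 : 0 ≤ ∑ i ∈ univ.erase k, |y i - x i| := sum_nonneg (fun _ _ => abs_nonneg _)
  have e3 : 1 ≤ |y k - x k| := Int.one_le_abs (sub_ne_zero.mpr hk)
  have e4 : |y k - x k| = 1 := by omega
  have e5 : ∑ i ∈ univ.erase k, |y i - x i| = 0 := by omega
  have e6 : ∀ i, i ≠ k → y i = x i := by
    intro i hi
    have := (Finset.sum_eq_zero_iff_of_nonneg (fun _ _ => abs_nonneg _)).mp e5 i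
      (Finset.mem_erase.mpr ⟨hi, Finset.mem_univ i⟩)
    rw [abs_eq_zero] at this
    omega
  rcases (abs_eq (by norm_num)).mp e4 with h7 | h7
  · left
    ext i
    by_cases hi : i = k
    · subst hi; simp; omega
    · rw [Pi.add_apply, ev_ne hi, e6 i hi, add_zero]
  · right; left
    ext i
    by_cases hi : i = k
    · subst hi; simp; omega
    · rw [Pi.sub_apply, ev_ne hi, e6 i hi, sub_zero]

lemma exists_bot (k : Fin d) {L : List (V d)} {y : V d} (hy : y ∈ L) :
    ∃ b ∈ L, Bot k L b ∧ Col k b y ∧ b k ≤ y k := by
  classical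
  have hne : (L.toFinset.filter (fun x => Col k x y)).Nonempty :=
    ⟨y, by rw [mem_filter, List.mem_toFinset]; exact ⟨hy, fun _ _ => rfl⟩⟩
  obtain ⟨b, hb, hmin⟩ := exists_min_image _ (fun x : V d => x k) hne
  rw [mem_filter, List.mem_toFinset] at hb
  refine ⟨b, hb.1, ?_, hb.2, ?_⟩
  · intro x hx hxb
    exact hmin x (by rw [mem_filter, List.mem_toFinset]; exact ⟨hx, hxb.trans hb.2⟩)
  · exact hmin y (by rw [mem_filter, List.mem_toFinset]; exact ⟨hy, fun _ _ => rfl⟩)

open Classical in
/-- the lowest sites of their columns which have level less than `m + j` -/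
noncomputable def BB (k : Fin d) (L : List (V d)) (m : ℤ) (j : ℕ) : Finset (V d) :=
  L.toFinset.filter (fun v => Bot k L v ∧ v k < m + j)

lemma mem_BB {k : Fin d} {L : List (V d)} {m : ℤ} {j : ℕ} {v : V d} :
    v ∈ BB k L m j ↔ v ∈ L ∧ Bot k L v ∧ v k < m + j := by
  classical
  unfold BB
  rw [mem_filter, List.mem_toFinset]

/-- a site on the level `m + j` which is the lowest in its column -/
lemma bot_cases {k : Fin d} {L : List (V d)} {m : ℤ} {r j : ℕ} (hj : j ≤ r)
    (hc : List.IsChain Adj L) (hn : L.Nodup) {v : V d} (hv : v ∈ L)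
    (hb : Bot k L v) (hvj : v k = m + j) :
    v ∈ exS (Ex k L m r) L ∨ L.head? = some v ∨ L.getLast? = some v ∨
      ∃ b ∈ BB k L m j, ∃ s ∈ Ed d, Col k v (b + s) := by
  classical
  obtain ⟨A, R, hL⟩ := List.append_of_mem hv
  rcases List.eq_nil_or_concat A with rfl | ⟨A, u, rfl⟩
  · right; left; rw [hL]; simp
  match R, hL with
  | [], hL => right; right; left; rw [hL]; simp
  | w :: R, hL =>
    rw [List.concat_eq_append] at hL
    have hL1 : L = A ++ u :: v :: (w :: R) := by rw [hL]; simp
    have hL2 : L = (A ++ [u]) ++ v :: w :: R := hL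
    have hu : u ∈ L := by rw [hL1]; simp
    have hw : w ∈ L := by rw [hL1]; simp
    have huv : Adj u v := by
      have := hc
      rw [hL1, List.isChain_append_cons_cons] at this
      exact this.2.1
    have hvw : Adj v w := by
      have := hc
      rw [hL2, List.isChain_append_cons_cons] at this
      exact this.2.1
    have huw : u ≠ w := by
      have := hn
      rw [hL1, List.nodup_append] at this
      have h2 := this.2.1
      rw [List.nodup_cons] at h2
      intro e
      exact h2.1 (by simp [e])
    have hdown : ∀ y ∈ L, y ≠ v - ev k := by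
      intro y hy e
      have := hb y hy (by rw [e]; intro i hi; simp [ev_ne hi])
      rw [e] at this
      simp at this
    have key : ∀ y ∈ L, Adj v y → y k = v k →
        (Bot k L y) ∨ ∃ b ∈ BB k L m j, ∃ s ∈ Ed d, Col k v (b + s) := by
      intro y hy hvy hyk
      by_cases hyb : Bot k L y
      · exact Or.inl hyb
      right
      unfold Bot at hyb
      push Not at hyb
      obtain ⟨x, hx, hxy, hlt⟩ := hyb
      obtain ⟨b, h1, h2, h3, h4⟩ := exists_bot k hx
      refine ⟨b, mem_BB.mpr ⟨h1, h2, by omega⟩, v - y, adj_iff.mp hvy.symm, ?_⟩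
      intro i hi
      have := (h3.trans hxy) i hi
      simp only [Pi.add_apply, Pi.sub_apply]
      omega
    by_cases hue : u = v + ev k
    · have hwk : w k = v k := by
        rcases adj_cases k hvw with h | h | h
        · exact absurd (hue.trans h.symm) huw
        · exact absurd h (hdown w hw)
        · exact h
      rcases key w hw hvw hwk with h | h
      · left
        have hP : Ex k L m r v w := ⟨hb, h, hwk.symm, by omega⟩
        have := (mem_exS _ hP (A ++ [u]) R).1
        rwa [← hL2] at this
      · exact Or.inr (Or.inr (Or.inr h))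
    · have huk : u k = v k := by
        rcases adj_cases k huv.symm with h | h | h
        · exact absurd h hue
        · exact absurd h (hdown u hu)
        · exact h
      rcases key u hu huv.symm huk with h | h
      · left
        have hP : Ex k L m r u v := ⟨h, hb, huk, by omega⟩
        have := (mem_exS _ hP A (w :: R)).2
        rwa [← hL1] at this
      · exact Or.inr (Or.inr (Or.inr h))

lemma BB_step {k : Fin d} {L : List (V d)} {m : ℤ} {r j : ℕ} (hj : j ≤ r)
    (hc : List.IsChain Adj L) (hn : L.Nodup) (hm : ∀ x ∈ L, m ≤ x k) :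
    (BB k L m (j + 1)).card ≤
      (2 * d + 1) * (BB k L m j).card + 2 * (cE (Ex k L m r) L + 1) := by
  classical
  set A2 : Finset (V d) := (BB k L m j).biUnion (fun b => (Ed d).biUnion (fun s =>
    L.toFinset.filter (fun v => Bot k L v ∧ Col k v (b + s)))) with hA2
  have hcov : BB k L m (j + 1) ⊆ ((BB k L m j ∪ exS (Ex k L m r) L) ∪
      (L.head?.toFinset ∪ L.getLast?.toFinset)) ∪ A2 := by
    intro v hv
    rw [mem_BB] at hv
    obtain ⟨h1, h2, h3⟩ := hv
    have h0 := hm v h1
    simp only [mem_union, Option.mem_toFinset, Option.mem_def]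
    by_cases h4 : v k < m + j
    · left; left; left; exact mem_BB.mpr ⟨h1, h2, h4⟩
    · have h5 : v k = m + j := by push_cast at h3; omega
      rcases bot_cases hj hc hn h1 h2 h5 with h | h | h | ⟨b, hb, s, hs, h⟩
      · left; left; right; exact h
      · left; right; left; exact h
      · left; right; right; exact h
      · right
        rw [hA2]
        simp only [mem_biUnion, mem_filter, List.mem_toFinset]
        exact ⟨b, hb, s, hs, h1, h2, h⟩
  have c2 : A2.card ≤ (BB k L m j).card * (2 * d) := by
    rw [hA2]
    refine card_biUnion_le_card_mul _ _ _ (fun b _ => ?_)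
    refine (card_biUnion_le_card_mul _ _ 1 (fun s _ => ?_)).trans ?_
    · rw [card_le_one]
      intro a ha b' hb'
      rw [mem_filter, List.mem_toFinset] at ha hb'
      exact Bot.eq ha.2.1 hb'.2.1 ha.1 hb'.1 (ha.2.2.trans hb'.2.2.symm)
    · rw [mul_one]; exact card_Ed d
  have c3 := card_exS (Ex k L m r) L
  have c4 : (L.head?.toFinset).card ≤ 1 := by
    rcases L.head? with _ | x <;> simp
  have c5 : (L.getLast?.toFinset).card ≤ 1 := by
    rcases L.getLast? with _ | x <;> simp
  have c6 := card_le_card hcov
  have c7 := card_union_le ((BB k L m j ∪ exS (Ex k L m r) L) ∪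
      (L.head?.toFinset ∪ L.getLast?.toFinset)) A2
  have c8 := card_union_le (BB k L m j ∪ exS (Ex k L m r) L)
      (L.head?.toFinset ∪ L.getLast?.toFinset)
  have c9 := card_union_le (BB k L m j) (exS (Ex k L m r) L)
  have c10 := card_union_le (L.head?.toFinset) (L.getLast?.toFinset)
  nlinarith

lemma BB_le {k : Fin d} {L : List (V d)} {m : ℤ} {r : ℕ}
    (hc : List.IsChain Adj L) (hn : L.Nodup) (hm : ∀ x ∈ L, m ≤ x k) (j : ℕ) (hj : j ≤ r + 1) :
    (BB k L m j).card + (cE (Ex k L m r) L + 1) ≤
      (2 * d + 1) ^ j * (cE (Ex k L m r) L + 1) := by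
  classical
  induction j with
  | zero =>
    have : BB k L m 0 = ∅ := by
      rw [eq_empty_iff_forall_notMem]
      intro v hv
      rw [mem_BB] at hv
      have := hm v hv.1
      have := hv.2.2
      push_cast at this
      omega
    rw [this]
    simp
  | succ j ih =>
    have h1 := ih (by omega)
    have h2 := BB_step (r := r) (j := j) (by omega) hc hn hm
    have hd : 1 ≤ d := by have := k.2; omega
    rw [pow_succ]
    nlinarith

open Classical in
/-- the number of sites with level at most `m + r` -/
noncomputable def near (k : Fin d) (m : ℤ) (r : ℕ) (L : List (V d)) : ℕ :=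
  (L.toFinset.filter (fun x => x k ≤ m + r)).card

theorem near_le (k : Fin d) (m : ℤ) (r : ℕ) {L : List (V d)}
    (hc : List.IsChain Adj L) (hn : L.Nodup) (hm : ∀ x ∈ L, m ≤ x k) :
    near k m r L ≤ (r + 1) * (2 * d + 1) ^ (r + 1) * (cE (Ex k L m r) L + 1) := by
  classical
  unfold near
  have hcov : L.toFinset.filter (fun x => x k ≤ m + r) ⊆
      (BB k L m (r + 1)).biUnion (fun b => (range (r + 1)).biUnion (fun j =>
        L.toFinset.filter (fun x => Col k x b ∧ x k = m + j))) := by
    intro x hx
    rw [mem_filter, List.mem_toFinset] at hx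
    obtain ⟨b, h1, h2, h3, h4⟩ := exists_bot k hx.1
    have h0 := hm x hx.1
    simp only [mem_biUnion, mem_filter, List.mem_toFinset, mem_range]
    refine ⟨b, mem_BB.mpr ⟨h1, h2, by push_cast; omega⟩, (x k - m).toNat, by omega, hx.1,
      h3.symm, by omega⟩
  have h1 : ((BB k L m (r + 1)).biUnion (fun b => (range (r + 1)).biUnion (fun j =>
        L.toFinset.filter (fun x => Col k x b ∧ x k = m + j)))).card ≤
      (BB k L m (r + 1)).card * (r + 1) := by
    refine card_biUnion_le_card_mul _ _ _ (fun b _ => ?_)
    refine (card_biUnion_le_card_mul _ _ 1 (fun j _ => ?_)).trans ?_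
    · rw [card_le_one]
      intro a ha b' hb'
      rw [mem_filter] at ha hb'
      exact (ha.2.1.trans hb'.2.1.symm).eq (ha.2.2.trans hb'.2.2.symm)
    · simp
  have h2 := BB_le (r := r) hc hn hm (r + 1) le_rfl
  refine (card_le_card hcov).trans (h1.trans ?_)
  calc (BB k L m (r + 1)).card * (r + 1) ≤
      ((2 * d + 1) ^ (r + 1) * (cE (Ex k L m r) L + 1)) * (r + 1) :=
        Nat.mul_le_mul_right _ (by omega)
    _ = _ := by ring

/-- the geometric constant -/
def KK (d r : ℕ) : ℕ := (r + 1) * (2 * d + 1) ^ (r + 1)

lemma KK_pos (d r : ℕ) : 0 < KK d r := by unfold KK; positivity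

/-- the fugacity of the sites near the lowest level -/
noncomputable def la (d r : ℕ) : ℝ := (1 + tt d r) ^ (1 / (2 * KK d r : ℝ))

lemma one_lt_la (d r : ℕ) : 1 < la d r := by
  unfold la
  have h1 := tt_pos d r
  have h2 := KK_pos d r
  have h3 : (0 : ℝ) < KK d r := by exact_mod_cast h2
  exact Real.one_lt_rpow (by linarith) (by positivity)

lemma la_pow (d r : ℕ) : la d r ^ (2 * KK d r) = 1 + tt d r := by
  unfold la
  have h1 := tt_pos d r
  have h3 : (0 : ℝ) < KK d r := by exact_mod_cast KK_pos d r
  rw [← Real.rpow_natCast, ← Real.rpow_mul (by linarith)]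
  push_cast
  rw [one_div, inv_mul_cancel₀ (by positivity), Real.rpow_one]

open Classical in
/-- exponential moment of the number of sites near the lowest level, from the two moments of the
numbers of exposed edges -/
theorem moment_of (k : Fin d) (r : ℕ) (A : Finset (List (V d))) (m : List (V d) → ℤ) (C : ℝ)
    (hA : ∀ L ∈ A, List.IsChain Adj L ∧ L.Nodup ∧ ∀ x ∈ L, m L ≤ x k)
    (h : ∀ p ≤ 1, ∑ L ∈ A, (1 + tt d r) ^ nE (Ex k L (m L) r) (L.drop p) ≤ C * A.card) :
    ∑ L ∈ A, la d r ^ near k (m L) r L ≤ la d r ^ KK d r * C * A.card := by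
  have hl := one_lt_la d r
  have hl0 : 0 < la d r := by linarith
  have key : ∀ L ∈ A, la d r ^ near k (m L) r L ≤ la d r ^ KK d r *
      (((1 + tt d r) ^ nE (Ex k L (m L) r) (L.drop 0) +
        (1 + tt d r) ^ nE (Ex k L (m L) r) (L.drop 1)) / 2) := by
    intro L hL
    obtain ⟨h1, h2, h3⟩ := hA L hL
    have h4 := near_le k (m L) r h1 h2 h3
    rw [cE_eq] at h4
    rw [List.drop_zero]
    set a := nE (Ex k L (m L) r) L
    set b := nE (Ex k L (m L) r) (L.drop 1)
    have h5 : near k (m L) r L ≤ KK d r + (KK d r * a + KK d r * b) := by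
      refine h4.trans (le_of_eq ?_)
      unfold KK
      ring
    refine (pow_le_pow_right₀ hl.le h5).trans ?_
    rw [pow_add]
    refine mul_le_mul_of_nonneg_left ?_ (by positivity)
    rw [← la_pow d r, ← pow_mul, ← pow_mul, pow_add]
    have e1 : la d r ^ (2 * KK d r * a) = (la d r ^ (KK d r * a)) ^ 2 := by
      rw [← pow_mul]; congr 1; ring
    have e2 : la d r ^ (2 * KK d r * b) = (la d r ^ (KK d r * b)) ^ 2 := by
      rw [← pow_mul]; congr 1; ring
    rw [e1, e2]
    nlinarith [sq_nonneg (la d r ^ (KK d r * a) - la d r ^ (KK d r * b))]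
  refine (sum_le_sum key).trans ?_
  rw [← mul_sum, ← sum_div, sum_add_distrib, mul_assoc]
  refine mul_le_mul_of_nonneg_left ?_ (by positivity)
  have h0 := h 0 (by norm_num)
  have h1 := h 1 le_rfl
  linarith

end H982.EX
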