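import Pool.Agent.H982.EX6

/-!
# Walks as functions on `Fin (n + 1)`
-/

set_option autoImplicit false
set_option linter.unusedSectionVars false

namespace H982.EX

open Finset

variable {d : ℕ}

/-- `w` is an `n`-step self-avoiding walk on `ℤ^d` started at the origin. -/
def IsSAW (d n : ℕ) (w : Fin (n + 1) → Fin d → ℤ) : Prop :=
  w 0 = 0 ∧ (∀ i : Fin n, ∑ k, |w i.succ k - w i.castSucc k| = 1) ∧ Function.Injective w

lemma ofFn_mem {n : ℕ} (w : Fin (n + 1) → V d) : List.ofFn w ∈ S d n ↔ IsSAW d n w := by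
  rw [mem_S, IsSAW, List.isChain_ofFn, List.nodup_ofFn]
  simp only [List.length_ofFn, true_and]
  refine and_congr ?_ (and_congr ?_ Iff.rfl)
  · rw [List.ofFn_succ]
    simp
  · constructor
    · intro h i
      exact h i (by have := i.2; omega)
    · intro h i hi
      exact h ⟨i, by omega⟩

lemma exists_ofFn {n : ℕ} {L : List (V d)} (hL : L.length = n + 1) :
    ∃ w : Fin (n + 1) → V d, List.ofFn w = L :=
  ⟨fun i => L[i.1]'(by rw [hL]; exact i.2), by
    refine List.ext_getElem (by rw [List.length_ofFn, hL]) (fun i h1 h2 => ?_)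
    rw [List.getElem_ofFn]⟩

open Classical in
/-- counting functions and counting lists -/
lemma card_fun {n : ℕ} (P : (Fin (n + 1) → V d) → Prop) (Q : List (V d) → Prop)
    (h : ∀ w, IsSAW d n w → (P w ↔ Q (List.ofFn w))) :
    Nat.card {w : Fin (n + 1) → V d // IsSAW d n w ∧ P w} = ((S d n).filter Q).card := by
  have h1 : Nat.card {w : Fin (n + 1) → V d // IsSAW d n w ∧ P w} =
      {w : Fin (n + 1) → V d | IsSAW d n w ∧ P w}.ncard := rfl
  rw [h1, ← Set.ncard_image_of_injective _ (List.ofFn_injective (n := n + 1) (α := V d)),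
    ← Set.ncard_coe_finset]
  congr 1
  ext L
  simp only [Set.mem_image, Set.mem_ofPred_eq, mem_coe, mem_filter]
  constructor
  · rintro ⟨w, ⟨h2, h3⟩, rfl⟩
    exact ⟨(ofFn_mem w).mpr h2, (h w h2).mp h3⟩
  · rintro ⟨h2, h3⟩
    obtain ⟨w, rfl⟩ := exists_ofFn (mem_S.mp h2).1
    have h4 := (ofFn_mem w).mp h2
    exact ⟨w, ⟨h4, (h w h4).mpr h3⟩, rfl⟩

instance finite_saw (n : ℕ) (P : (Fin (n + 1) → V d) → Prop) :
    Finite {w : Fin (n + 1) → V d // IsSAW d n w ∧ P w} := by
  classical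
  refine Finite.of_injective (β := {L // L ∈ S d n}) (fun w => ⟨List.ofFn w.1, (ofFn_mem w.1).mpr w.2.1⟩) ?_
  intro w w' h
  have := congrArg Subtype.val h
  exact Subtype.ext (List.ofFn_injective this)

open Classical in
/-- sums over functions and sums over lists -/
lemma sum_fun {n : ℕ} (P : (Fin (n + 1) → V d) → Prop) (Q : List (V d) → Prop)
    (h : ∀ w, IsSAW d n w → (P w ↔ Q (List.ofFn w))) (F : (Fin (n + 1) → V d) → ℝ)
    (G : List (V d) → ℝ) (hFG : ∀ w, IsSAW d n w → F w = G (List.ofFn w)) :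
    ∑' w : {w : Fin (n + 1) → V d // IsSAW d n w ∧ P w}, F w.1 =
      ∑ L ∈ (S d n).filter Q, G L := by
  have := Fintype.ofFinite {w : Fin (n + 1) → V d // IsSAW d n w ∧ P w}
  rw [tsum_fintype]
  refine Finset.sum_bij (fun w _ => List.ofFn w.1) ?_ ?_ ?_ ?_
  · intro w _
    rw [mem_filter]
    exact ⟨(ofFn_mem w.1).mpr w.2.1, (h w.1 w.2.1).mp w.2.2⟩
  · intro w _ w' _ he
    exact Subtype.ext (List.ofFn_injective he)
  · intro L hL
    rw [mem_filter] at hL
    obtain ⟨w, rfl⟩ := exists_ofFn (mem_S.mp hL.1).1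
    have h4 := (ofFn_mem w).mp hL.1
    exact ⟨⟨w, h4, (h w h4).mpr hL.2⟩, mem_univ _, rfl⟩
  · intro w _
    exact hFG w.1 w.2.1

open Classical in
/-- the number of sites of a list and the number of times of a function -/
lemma card_times {n : ℕ} {w : Fin (n + 1) → V d} (hw : Function.Injective w) (R : V d → Prop) :
    Nat.card {i : Fin (n + 1) // R (w i)} = ((List.ofFn w).toFinset.filter R).card := by
  have h1 : Nat.card {i : Fin (n + 1) // R (w i)} = {i : Fin (n + 1) | R (w i)}.ncard := rfl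
  rw [h1, ← Set.ncard_image_of_injective _ hw, ← Set.ncard_coe_finset]
  congr 1
  ext x
  simp only [Set.mem_image, Set.mem_ofPred_eq, mem_coe, mem_filter, List.mem_toFinset,
    List.mem_ofFn]
  constructor
  · rintro ⟨i, h2, rfl⟩
    exact ⟨⟨i, rfl⟩, h2⟩
  · rintro ⟨⟨i, rfl⟩, h2⟩
    exact ⟨i, h2, rfl⟩

/-- the number of sites at distance at most `r` of the lowest level -/
noncomputable def low (k : Fin d) (r : ℕ) {n : ℕ} (w : Fin (n + 1) → Fin d → ℤ) : ℕ :=
  Nat.card {i : Fin (n + 1) // ∀ j, w i k ≤ w j k + r}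

/-- the number of sites at height at most `r` -/
noncomputable def vis (k : Fin d) (r : ℕ) {n : ℕ} (w : Fin (n + 1) → Fin d → ℤ) : ℕ :=
  Nat.card {i : Fin (n + 1) // w i k ≤ r}

lemma low_eq (k : Fin d) (r : ℕ) {n : ℕ} {w : Fin (n + 1) → V d} (hw : IsSAW d n w) :
    low k r w = near k (mn k (List.ofFn w)) r (List.ofFn w) := by
  classical
  have hne : List.ofFn w ≠ [] := by
    intro h
    have := congrArg List.length h
    simp at this
  have key : ∀ i, (∀ j, w i k ≤ w j k + r) ↔ w i k ≤ mn k (List.ofFn w) + r := by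
    intro i
    constructor
    · intro h
      obtain ⟨x, hx, hxm⟩ := mn_mem (k := k) hne
      obtain ⟨j, rfl⟩ := List.mem_ofFn.mp hx
      rw [← hxm]
      exact h j
    · intro h j
      have := mn_le (k := k) (L := List.ofFn w) (x := w j) (List.mem_ofFn.mpr ⟨j, rfl⟩)
      omega
  unfold low near
  simp only [key]
  rw [card_times hw.2.2 (fun x => x k ≤ mn k (List.ofFn w) + r)]
  refine congrArg Finset.card (Finset.filter_congr_decidable _ _ _)

lemma vis_eq (k : Fin d) (r : ℕ) {n : ℕ} {w : Fin (n + 1) → V d} (hw : IsSAW d n w) :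
    vis k r w = near k 0 r (List.ofFn w) := by
  classical
  unfold vis near
  simp only [zero_add]
  rw [card_times hw.2.2 (fun x => x k ≤ (r : ℤ))]
  refine congrArg Finset.card (Finset.filter_congr_decidable _ _ _)

/-- `w` stays in the half-space `x k ≥ 0` -/
def IsHalf (k : Fin d) {n : ℕ} (w : Fin (n + 1) → Fin d → ℤ) : Prop := ∀ i, 0 ≤ w i k

lemma half_iff (k : Fin d) {n : ℕ} (w : Fin (n + 1) → V d) :
    IsHalf k w ↔ Ab k 0 (List.ofFn w) := by
  unfold IsHalf Ab
  constructor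
  · intro h x hx
    obtain ⟨i, rfl⟩ := List.mem_ofFn.mp hx
    exact h i
  · intro h i
    exact h _ (List.mem_ofFn.mpr ⟨i, rfl⟩)

/-- number of `n`-step walks with `P` -/
noncomputable def cnt (d n : ℕ) (P : (Fin (n + 1) → Fin d → ℤ) → Prop) : ℕ :=
  Nat.card {w : Fin (n + 1) → Fin d → ℤ // IsSAW d n w ∧ P w}

lemma cnt_true (d n : ℕ) : cnt d n (fun _ => True) = (S d n).card := by
  classical
  unfold cnt
  rw [card_fun (fun _ => True) (fun _ => True) (fun _ _ => Iff.rfl), filter_true]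

lemma cnt_half (k : Fin d) (n : ℕ) : cnt d n (fun w => IsHalf k w) = (Hf k 0 n).card := by
  classical
  unfold cnt
  rw [card_fun _ (Ab k 0) (fun w _ => half_iff k w)]
  rfl

/-- the exponential moment near the lowest level -/
theorem free_sum (k : Fin d) (r n : ℕ) :
    ∑' w : {w : Fin (n + 1) → Fin d → ℤ // IsSAW d n w ∧ True}, la d r ^ low k r w.1 ≤
      la d r ^ KK d r * 2 * cnt d n (fun _ => True) := by
  classical
  rw [cnt_true, sum_fun (fun _ => True) (fun _ => True) (fun _ _ => Iff.rfl)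
    (fun w => la d r ^ low k r w) (fun L => la d r ^ near k (mn k L) r L)
    (fun w hw => by rw [low_eq k r hw]), filter_true]
  exact moment_of k r (S d n) (mn k) 2
    (fun L hL => ⟨(mem_S.mp hL).2.2.1, (mem_S.mp hL).2.2.2, fun x hx => mn_le hx⟩)
    (fun p hp => free_moment k r p n hp)

/-- the exponential moment of the half-space walks -/
theorem half_sum (k : Fin d) (r n : ℕ) :
    ∑' w : {w : Fin (n + 1) → Fin d → ℤ // IsSAW d n w ∧ IsHalf k w}, la d r ^ vis k r w.1 ≤
      la d r ^ KK d r * (2 * (4 * d + 1)) * cnt d n (fun w => IsHalf k w) := by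
  classical
  rw [cnt_half, sum_fun (fun w => IsHalf k w) (Ab k 0) (fun w _ => half_iff k w)
    (fun w => la d r ^ vis k r w) (fun L => la d r ^ near k 0 r L)
    (fun w hw => by rw [vis_eq k r hw])]
  exact moment_of k r (Hf k 0 n) (fun _ => 0) (2 * (4 * d + 1))
    (fun L hL => ⟨(mem_S.mp (mem_Hf.mp hL).1).2.2.1, (mem_S.mp (mem_Hf.mp hL).1).2.2.2,
      (mem_Hf.mp hL).2⟩)
    (fun p hp => half_moment k r p n hp)

/-- Markov's inequality -/
lemma markov {n : ℕ} (P : (Fin (n + 1) → V d) → Prop) (F : (Fin (n + 1) → V d) → ℕ) {a C N : ℝ}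
    (ha : 1 < a) (h : ∑' w : {w : Fin (n + 1) → V d // IsSAW d n w ∧ P w}, a ^ F w.1 ≤ C * N)
    (x : ℕ) : (cnt d n (fun w => P w ∧ x ≤ F w) : ℝ) ≤ C * N / a ^ x := by
  classical
  have ha0 : 0 < a := by linarith
  rw [le_div_iff₀ (by positivity)]
  refine le_trans ?_ h
  have := Fintype.ofFinite {w : Fin (n + 1) → V d // IsSAW d n w ∧ P w}
  rw [tsum_fintype]
  have e1 : (cnt d n (fun w => P w ∧ x ≤ F w) : ℝ) =
      ((univ : Finset {w : Fin (n + 1) → V d // IsSAW d n w ∧ P w}).filter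
        (fun w => x ≤ F w.1)).card := by
    unfold cnt
    norm_cast
    rw [← Fintype.card_subtype, ← Nat.card_eq_fintype_card]
    refine Nat.card_congr ⟨fun w => ⟨⟨w.1, w.2.1, w.2.2.1⟩, w.2.2.2⟩,
      fun w => ⟨w.1.1, w.1.2.1, w.1.2.2, w.2⟩, fun _ => rfl, fun _ => rfl⟩
  rw [e1, ← nsmul_eq_mul, ← sum_const]
  calc ∑ w ∈ (univ : Finset {w : Fin (n + 1) → V d // IsSAW d n w ∧ P w}).filter
        (fun w => x ≤ F w.1), a ^ x
      ≤ ∑ w ∈ (univ : Finset {w : Fin (n + 1) → V d // IsSAW d n w ∧ P w}).filter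
        (fun w => x ≤ F w.1), a ^ F w.1 :=
        sum_le_sum (fun w hw => pow_le_pow_right₀ ha.le (mem_filter.mp hw).2)
    _ ≤ _ := sum_le_sum_of_subset_of_nonneg (filter_subset _ _) (fun _ _ _ => by positivity)

end H982.EX
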