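import Pool.Graph.R_pool_sql_team_seeded_63374d34.N941.HS.Inf

/-!
# Half-plane walks on the square lattice: the first block
-/

set_option autoImplicit false
set_option linter.unusedSectionVars false

namespace H982.HP

open Finset Filter Topology MeasureTheory
open TH966.AK (P Kw lst)
open Pool.Agent.H976R3 Pool.Agent.R965.HP
open Pool.Agent.N941.SP (ps ps_re ps_im ps_inj Z2)

/-- sequences of points of the plane -/
abbrev X : Type := ℕ → ℂ

/-- the closed half-plane walks (lists of sites) -/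
noncomputable abbrev Kc (n : ℕ) : Finset (List P) := Kw (AD Sq.A Hc) n

/-- the irreducible blocks with `j` steps -/
noncomputable abbrev Bk (j : ℕ) : Finset (List P) := HPL.Irr sqS j 0

/-- the number of walks -/
noncomputable def hC (n : ℕ) : ℝ := ((Kc n).card : ℝ)

/-- the walk in the plane -/
noncomputable def PS (w : List P) : X := fun i => ps (pth w i)

/-- the mean -/
noncomputable def Mn (n : ℕ) (g : X → ℝ) : ℝ := (∑ w ∈ Kc n, g (PS w)) / hC n

/-- a block in front of a walk -/
noncomputable def pre (β : List P) (γ : X) : X := fun t =>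
  if t + 1 < β.length then ps (β.getD (t + 1) 0 - ee) else
    ps (β.getLastD 0) + γ (t + 1 - β.length)

/-- a block in front of a list -/
def Gl (β w : List P) : List P := tr (-ee) β.tail ++ tr (β.getLastD 0) w

lemma ps_add (p q : P) : ps (p + q) = ps p + ps q := by
  unfold ps
  simp only [Prod.fst_add, Prod.snd_add]
  push_cast
  ring

lemma Gl_HW (β w : List P) (hβ : β ≠ []) (h0 : β.head? = some 0) :
    0 :: tr ee (Gl β w) = β ++ (tr (β.getLastD 0) (0 :: tr ee w)).tail := by
  cases β with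
  | nil => exact absurd rfl hβ
  | cons x t =>
    simp only [List.head?_cons, Option.some.injEq] at h0
    subst h0
    unfold Gl tr
    simp only [List.tail_cons, List.map_append, List.map_map, List.cons_append, List.map_cons,
      List.cons.injEq, true_and]
    congr 1
    · conv_rhs => rw [← List.map_id t]
      refine List.map_congr_left fun a _ => ?_
      simp
    · refine List.map_congr_left fun a _ => ?_
      simp only [Function.comp_apply]
      abel

lemma Gl_mem {j m : ℕ} {β w : List P} (hβ : β ∈ Bk j) (hw : w ∈ Kc m) : Gl β w ∈ Kc (j + m) := by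
  obtain ⟨b1, b2, b3⟩ := irr_facts hβ
  have bne : β ≠ [] := by rintro rfl; simp at b1
  have h1 : (0 : P) :: tr ee w ∈ HPL.HW sqS (m + 1) 0 := by
    rw [HW_succ]
    exact mem_image_of_mem _ hw
  have h2 : tr (β.getLastD 0) (0 :: tr ee w) ∈ HPL.HW sqS (m + 1) (β.getLastD 0) := by
    have := tr_HW (c := β.getLastD 0) (v := 0) |>.1 h1
    rwa [zero_add] at this
  have h3 := HPL.HW_append (HPL.Irr_sub hβ) h2
  rw [← Gl_HW β w bne b2, show j + (m + 1) = (j + m) + 1 by ring, HW_succ, mem_image] at h3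
  obtain ⟨w', hw', he⟩ := h3
  have := tr_inj ee (List.cons.inj he).2
  rwa [← this]

lemma Gl_inj {j j' m m' : ℕ} {β β' w w' : List P} (hβ : β ∈ Bk j) (hβ' : β' ∈ Bk j')
    (hw : w ∈ Kc m) (hw' : w' ∈ Kc m') (h : Gl β w = Gl β' w') : j = j' ∧ β = β' ∧ w = w' := by
  obtain ⟨b1, b2, b3⟩ := irr_facts hβ
  have bne : β ≠ [] := by rintro rfl; simp at b1
  obtain ⟨b1', b2', b3'⟩ := irr_facts hβ'
  have bne' : β' ≠ [] := by rintro rfl; simp at b1'
  have key : ∀ {j m : ℕ} {β w : List P}, β ∈ Bk j → w ∈ Kc m →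
      tr (β.getLastD 0) (0 :: tr ee w) ∈ HPL.HW sqS (m + 1) (β.getLastD 0) := by
    intro j m β w hβ hw
    have h1 : (0 : P) :: tr ee w ∈ HPL.HW sqS (m + 1) 0 := by
      rw [HW_succ]
      exact mem_image_of_mem _ hw
    have := tr_HW (c := β.getLastD 0) (v := 0) |>.1 h1
    rwa [zero_add] at this
  have he : β ++ (tr (β.getLastD 0) (0 :: tr ee w)).tail =
      β' ++ (tr (β'.getLastD 0) (0 :: tr ee w')).tail := by
    rw [← Gl_HW β w bne b2, ← Gl_HW β' w' bne' b2', h]
  obtain ⟨e1, e2, e3⟩ := HPL.D2_inj hβ hβ' (key hβ hw) (key hβ' hw') he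
  subst e1
  subst e2
  exact ⟨rfl, rfl, tr_inj ee (List.cons.inj (tr_inj _ e3)).2⟩

lemma Kc_ne {n : ℕ} {w : List P} (hw : w ∈ Kc n) : w ≠ [] := by
  rw [mem_Kc] at hw
  rintro rfl
  simp at hw

lemma PS_Gl {j m : ℕ} {β w : List P} (hβ : β ∈ Bk j) (hw : w ∈ Kc m) :
    PS (Gl β w) = pre β (PS w) := by
  obtain ⟨b1, b2, b3⟩ := irr_facts hβ
  have bne : β ≠ [] := by rintro rfl; simp at b1
  have wne := Kc_ne hw
  have hlen : (tr (-ee) β.tail).length = β.length - 1 := by
    unfold tr
    simp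
  have twne : tr (β.getLastD 0) w ≠ [] := by unfold tr; simpa using wne
  funext t
  unfold PS pre
  by_cases ht : t + 1 < β.length
  · rw [if_pos ht]
    congr 1
    unfold Gl
    have h1 : t < (tr (-ee) β.tail ++ tr (β.getLastD 0) w).length := by
      rw [List.length_append, hlen]
      omega
    rw [pth_lt h1, List.getElem_append_left (by rw [hlen]; omega)]
    unfold tr
    rw [List.getElem_map, List.getElem_tail, List.getD_eq_getElem _ _ ht, sub_eq_add_neg]
  · rw [if_neg ht, ← ps_add]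
    congr 1
    have h2 : pth (tr (β.getLastD 0) w) (t + 1 - β.length) = pth w (t + 1 - β.length) +
        β.getLastD 0 := pth_tr _ wne _
    rw [add_comm, ← h2]
    have hl : lst (Gl β w) = lst (tr (β.getLastD 0) w) := by
      unfold Gl
      rw [lst_eq (List.append_ne_nil_of_right_ne_nil _ twne), lst_eq twne,
        List.getLast_append_of_ne_nil _ twne]
    unfold pth
    rw [hl]
    unfold Gl
    rw [List.getD_append_right _ _ _ _ (by rw [hlen]; omega), hlen]
    congr 1
    have : 0 < β.length := List.length_pos_of_ne_nil bne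
    omega

/-- the walks whose first block has at most `J` steps -/
noncomputable def BB (n J : ℕ) : Finset (List P) :=
  ((range (J + 1)).sigma (fun j => (Bk j).sigma fun _ => Kc (n - j))).image
    (fun x : (_ : ℕ) × (_ : List P) × List P => Gl x.2.1 x.2.2)

lemma BB_inj (n J : ℕ) : Set.InjOn (fun x : (_ : ℕ) × (_ : List P) × List P => Gl x.2.1 x.2.2)
    ((range (J + 1)).sigma (fun j => (Bk j).sigma fun _ => Kc (n - j)) :
      Finset ((_ : ℕ) × (_ : List P) × List P)) := by
  rintro ⟨j, β, l⟩ h ⟨j', β', l'⟩ h' he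
  simp only [Finset.coe_sigma, Set.mem_sigma_iff, Finset.mem_coe, Finset.mem_range] at h h' he
  obtain ⟨e1, e2, e3⟩ := Gl_inj h.2.1 h'.2.1 h.2.2 h'.2.2 he
  subst e1
  subst e2
  subst e3
  rfl

lemma BB_sub {n J : ℕ} (hJ : J ≤ n) : BB n J ⊆ Kc n := by
  intro w hw
  unfold BB at hw
  rw [Finset.mem_image] at hw
  obtain ⟨⟨j, β, l⟩, h, rfl⟩ := hw
  simp only [Finset.mem_sigma, Finset.mem_range] at h
  have := Gl_mem h.2.1 h.2.2
  rwa [show j + (n - j) = n by omega] at this

/-- the sum over the first blocks -/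
lemma BB_sum (n J : ℕ) (g : X → ℝ) : ∑ w ∈ BB n J, g (PS w) =
    ∑ j ∈ range (J + 1), ∑ β ∈ Bk j, ∑ w ∈ Kc (n - j), g (pre β (PS w)) := by
  unfold BB
  rw [Finset.sum_image (BB_inj n J), Finset.sum_sigma]
  refine Finset.sum_congr rfl fun j _ => ?_
  rw [Finset.sum_sigma]
  refine Finset.sum_congr rfl fun β hβ => ?_
  refine Finset.sum_congr rfl fun w hw => ?_
  rw [PS_Gl hβ hw]

lemma hC_pos (n : ℕ) : 0 < hC n := by
  have h := a_eq n
  have h2 : hC n = N (ruleD Sq.rule Hc).sys n := rfl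
  rw [h2, ← h]
  exact_mod_cast HPL.a_pos (G := sqS) 0 (n + 1)

lemma hC_eq (n : ℕ) : hC n = HPL.a sqS 0 (n + 1) := (a_eq n).symm

/-- the ratio limit -/
theorem hC_ratio : Tendsto (fun n => hC (n + 1) / hC n) atTop (𝓝 muS) ∧
    HasSum (fun j : ℕ => ((Bk j).card : ℝ) / muS ^ j) 1 := by
  obtain ⟨f, hf0, hfpos, hsum, hlim⟩ := HPL.ratio_fun facts_sq 0
  have hμ : 0 < muS := Pool.Agent.N941.SP.muS_pos
  have hlim' : ∀ j : ℕ, Tendsto (fun n => (HPL.a sqS 0 (n - j) : ℝ) / HPL.a sqS 0 n) atTop
      (𝓝 (f j / muS ^ j)) := by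
    intro j
    refine (hlim j).congr fun n => ?_
    have := HPL.a_add (G := sqS) (c := ((j : ℤ), 0)) trivial 0 (n - j)
    rw [this]
  have hpos : ∀ n, (0 : ℝ) < HPL.a sqS 0 n := fun n => by
    exact_mod_cast HPL.a_pos (G := sqS) 0 n
  have h1 := hlim' 1
  have hstep : ∀ j, f (j + 1) = f j * f 1 := by
    intro j
    have h2 := (hlim' j)
    have h3 : Tendsto (fun n => (HPL.a sqS 0 (n - j - 1) : ℝ) / HPL.a sqS 0 (n - j)) atTop
        (𝓝 (f 1 / muS ^ 1)) := h1.comp (tendsto_sub_atTop_nat j)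
    have h4 := h2.mul h3
    have h5 := hlim' (j + 1)
    have h6 : f (j + 1) / muS ^ (j + 1) = f j / muS ^ j * (f 1 / muS ^ 1) := by
      refine tendsto_nhds_unique h5 (h4.congr fun n => ?_)
      have := (hpos (n - j)).ne'
      rw [show n - (j + 1) = n - j - 1 by omega]
      field_simp
    have hne : muS ≠ 0 := hμ.ne'
    field_simp at h6
    have h7 : (muS ^ j * muS) * f (j + 1) = (muS ^ j * muS) * (f j * f 1) := by
      rw [pow_succ] at h6
      linarith
    exact mul_left_cancel₀ (mul_ne_zero (pow_ne_zero j hne) hne) h7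
  have hpow : ∀ j, f j = f 1 ^ j := by
    intro j
    induction j with
    | zero => rw [hf0, pow_zero]
    | succ j ih => rw [hstep, ih, pow_succ]
  have hinv : ∀ j : ℕ, Tendsto (fun n => (HPL.a sqS 0 (n + j) : ℝ) / HPL.a sqS 0 n) atTop
      (𝓝 ((f j / muS ^ j)⁻¹)) := by
    intro j
    have h2 := ((hlim' j).comp (tendsto_add_atTop_nat j)).inv₀
      (div_pos (hfpos j) (pow_pos hμ j)).ne'
    refine h2.congr fun n => ?_
    simp only [Function.comp_apply]
    rw [inv_div, Nat.add_sub_cancel]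
  have h4 : f 1 = 1 := by
    have h5 := facts_sq.ratio 0
    have h6 := tendsto_nhds_unique h5 (hinv 4)
    rw [hpow 4, inv_div] at h6
    have h7 : f 1 ^ 4 = 1 := by
      have : 0 < f 1 ^ 4 := pow_pos (hfpos 1) 4
      have h8 : 0 < muS ^ 4 := pow_pos hμ 4
      field_simp at h6
      rw [eq_comm, div_eq_one_iff_eq this.ne'] at h6
      exact h6.symm
    have h8 := hfpos 1
    nlinarith [sq_nonneg (f 1 ^ 2 - 1), sq_nonneg (f 1 - 1), sq_nonneg (f 1 + 1)]
  constructor
  · have h5 := (hinv 1).comp (tendsto_add_atTop_nat 1)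
    rw [h4, inv_div, div_one, pow_one] at h5
    refine h5.congr fun n => ?_
    simp only [Function.comp_apply]
    rw [hC_eq, hC_eq]
  · have e : (fun j : ℕ => ((Bk j).card : ℝ) / muS ^ j) =
        fun j : ℕ => (HPL.ir sqS 0 j : ℝ) / muS ^ j * f j := by
      funext j
      rw [hpow j, h4, one_pow, mul_one]
      rfl
    rw [e]
    exact hsum

theorem hC_sub (j : ℕ) : Tendsto (fun n => hC (n - j) / hC n) atTop (𝓝 ((muS ^ j)⁻¹)) := by
  have hμ : 0 < muS := Pool.Agent.N941.SP.muS_pos
  rw [← tendsto_add_atTop_iff_nat j]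
  have key : Tendsto (fun n => hC (n + j) / hC n) atTop (𝓝 (muS ^ j)) := by
    induction j with
    | zero =>
      refine tendsto_const_nhds.congr fun n => ?_
      rw [add_zero, pow_zero, div_self (hC_pos n).ne']
    | succ j ih =>
      have h1 := (hC_ratio.1.comp (tendsto_add_atTop_nat j)).mul ih
      rw [pow_succ, mul_comm]
      refine h1.congr fun n => ?_
      simp only [Function.comp_apply]
      have := (hC_pos (n + j)).ne'
      rw [show n + (j + 1) = n + j + 1 by ring]
      field_simp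
  refine (key.inv₀ (pow_pos hμ j).ne').congr fun n => ?_
  rw [Nat.add_sub_cancel, inv_div]

end H982.HP
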