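import Pool.Agent.H982.HP1

/-!
# The infinite half-plane walk: the law of the first block
-/

set_option autoImplicit false
set_option linter.unusedSectionVars false

namespace H982.HP

open Finset Filter Topology MeasureTheory
open TH966.AK (P Kw lst)
open Pool.Agent.H976R3 Pool.Agent.R965.HP
open Pool.Agent.N941.SP (ps ps_re ps_im ps_inj Z2)

/-- the half-plane sequences -/
def Hs : Set X := {γ | ∀ i, 0 ≤ (γ i).im}

lemma PS_Hs {n : ℕ} {w : List P} (hw : w ∈ Kc n) : PS w ∈ Hs := by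
  intro i
  unfold PS
  rw [ps_im]
  have h1 := pth_mem (Kc_ne hw) i
  rw [mem_Kc] at hw
  exact_mod_cast hw.2 _ h1

lemma pre_lt {β : List P} {j : ℕ} (hβ : β ∈ Bk j) {t : ℕ} (ht : t + 1 < β.length) :
    0 < (β.getD (t + 1) 0).1 := by
  have h := HPL.mem_HW.1 (HPL.mem_Br.1 (HPL.Irr_sub hβ)).1
  have h5 := h.2.2.2.2
  have : β.getD (t + 1) 0 ∈ β.tail := by
    rw [List.getD_eq_getElem _ _ ht]
    have h6 : t < β.tail.length := by simp; omega
    have h7 : β.tail[t] = β[t + 1] := List.getElem_tail _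
    rw [← h7]
    exact List.getElem_mem h6
  exact h5 _ this

lemma last_pos {β : List P} {j : ℕ} (hβ : β ∈ Bk j) : 0 < (β.getLastD 0).1 := by
  have h1 := HPL.Irr_pos hβ
  obtain ⟨b1, b2, b3⟩ := irr_facts hβ
  have := pre_lt hβ (t := j - 1) (by omega)
  rw [show j - 1 + 1 = j by omega] at this
  have e : β.getLastD 0 = β.getD j 0 := by
    rw [List.getLastD_eq_getLast?, List.getLast?_eq_getElem?, b1, List.getD_eq_getElem?_getD]
    rfl
  rw [e]
  exact this

lemma pre_Hs {β : List P} {j : ℕ} (hβ : β ∈ Bk j) {γ : X} (hγ : γ ∈ Hs) : pre β γ ∈ Hs := by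
  intro t
  unfold pre
  split_ifs with ht
  · rw [ps_im]
    have := pre_lt hβ ht
    simp only [Prod.fst_sub, ee]
    exact_mod_cast (by omega : (0 : ℤ) ≤ (β.getD (t + 1) 0).1 - 1)
  · rw [Complex.add_im, ps_im]
    have h1 := last_pos hβ
    have h2 := hγ (t + 1 - β.length)
    have h3 : (0 : ℝ) < ((β.getLastD 0).1 : ℝ) := by exact_mod_cast h1
    linarith

lemma pre_cont (β : List P) : Continuous (pre β) := by
  refine continuous_pi fun t => ?_
  unfold pre
  by_cases ht : t + 1 < β.length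
  · simp only [if_pos ht]
    exact continuous_const
  · simp only [if_neg ht]
    exact continuous_const.add (continuous_apply _)

/-- the weak limit -/
def Lim (μ : Measure X) : Prop :=
  IsProbabilityMeasure μ ∧ ∀ F : BoundedContinuousFunction X ℝ,
    Tendsto (fun n => Mn n (fun γ => F γ)) atTop (𝓝 (∫ γ, F γ ∂μ))

/-- the mass of the short blocks -/
noncomputable def sJ (J : ℕ) : ℝ := ∑ j ∈ range (J + 1), ((Bk j).card : ℝ) / muS ^ j

lemma sJ_tendsto : Tendsto sJ atTop (𝓝 1) :=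
  (hC_ratio.2.tendsto_sum_nat).comp (tendsto_add_atTop_nat 1)

lemma muS_pos' : 0 < muS := Pool.Agent.N941.SP.muS_pos

lemma sJ_le (J : ℕ) : sJ J ≤ 1 := by
  refine sum_le_hasSum _ (fun i _ => ?_) hC_ratio.2
  have := muS_pos'
  positivity

lemma Mn_split {n J : ℕ} (g : X → ℝ) :
    (∑ w ∈ BB n J, g (PS w)) / hC n = ∑ j ∈ range (J + 1), ∑ β ∈ Bk j,
      hC (n - j) / hC n * Mn (n - j) (fun γ => g (pre β γ)) := by
  rw [BB_sum, Finset.sum_div]
  refine Finset.sum_congr rfl fun j _ => ?_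
  rw [Finset.sum_div]
  refine Finset.sum_congr rfl fun β _ => ?_
  unfold Mn
  have h1 := (hC_pos (n - j)).ne'
  field_simp

/-- the limit of the mean over the short blocks -/
lemma block_tendsto {J : ℕ} (g : X → ℝ) (L : List P → ℝ)
    (h : ∀ j ≤ J, ∀ β ∈ Bk j, Tendsto (fun n => Mn n (fun γ => g (pre β γ))) atTop (𝓝 (L β))) :
    Tendsto (fun n => (∑ w ∈ BB n J, g (PS w)) / hC n) atTop
      (𝓝 (∑ j ∈ range (J + 1), ∑ β ∈ Bk j, (muS ^ j)⁻¹ * L β)) := by
  simp only [Mn_split]
  refine tendsto_finsetSum _ fun j hj => tendsto_finsetSum _ fun β hβ => ?_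
  have h1 := (h j (by have := Finset.mem_range.1 hj; omega) β hβ).comp (tendsto_sub_atTop_nat j)
  exact (hC_sub j).mul h1

lemma count_tendsto (J : ℕ) : Tendsto (fun n => ((BB n J).card : ℝ) / hC n) atTop (𝓝 (sJ J)) := by
  have h1 := block_tendsto (J := J) (fun _ => 1) (fun _ => 1) (fun j _ β _ => by
    refine tendsto_const_nhds.congr fun n => ?_
    unfold Mn
    rw [Finset.sum_const, nsmul_one]
    exact (div_self (hC_pos n).ne').symm)
  have e : ∑ j ∈ range (J + 1), ∑ β ∈ Bk j, (muS ^ j)⁻¹ * (1 : ℝ) = sJ J := by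
    unfold sJ
    refine Finset.sum_congr rfl fun j _ => ?_
    rw [Finset.sum_const, nsmul_eq_mul, mul_one, div_eq_mul_inv]
  rw [e] at h1
  refine h1.congr fun n => ?_
  rw [Finset.sum_const, nsmul_one]

/-- the walks with long first blocks -/
lemma long_le {n J : ℕ} (hJ : J ≤ n) (g : X → ℝ) {B : ℝ} (hB : ∀ γ, |g γ| ≤ B) :
    |Mn n g - (∑ w ∈ BB n J, g (PS w)) / hC n| ≤ B * (1 - ((BB n J).card : ℝ) / hC n) := by
  classical
  have hpos := hC_pos n
  have h1 : ∑ w ∈ Kc n, g (PS w) = ∑ w ∈ BB n J, g (PS w) + ∑ w ∈ Kc n \ BB n J, g (PS w) := by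
    rw [add_comm, Finset.sum_sdiff (BB_sub hJ)]
  unfold Mn
  rw [h1, add_div, add_sub_cancel_left, abs_div, abs_of_pos hpos, div_le_iff₀ hpos]
  have h2 : ((Kc n \ BB n J).card : ℝ) = hC n - (BB n J).card := by
    have := Finset.card_sdiff_add_card_eq_card (BB_sub hJ)
    have h3 : ((Kc n \ BB n J).card : ℝ) + (BB n J).card = (Kc n).card := by exact_mod_cast this
    have h4 : hC n = (Kc n).card := rfl
    rw [h4]
    linarith
  have h3 : B * (1 - ((BB n J).card : ℝ) / hC n) * hC n = B * (Kc n \ BB n J).card := by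
    rw [h2]
    field_simp
  rw [h3]
  refine (Finset.abs_sum_le_sum_abs _ _).trans ?_
  refine (Finset.sum_le_sum fun w _ => hB (PS w)).trans ?_
  rw [Finset.sum_const, nsmul_eq_mul, mul_comm]

/-- the part of the law of the walk with short first blocks -/
noncomputable def nuJ (μ : Measure X) (J : ℕ) : Measure X :=
  ∑ j ∈ range (J + 1), ∑ β ∈ Bk j, ENNReal.ofReal ((muS ^ j)⁻¹) • μ.map (pre β)

variable {μ : Measure X}

lemma isFinite_nuJ (hμ : Lim μ) (J : ℕ) : IsFiniteMeasure (nuJ μ J) := by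
  have := hμ.1
  unfold nuJ
  refine ⟨?_⟩
  simp only [Measure.coe_finsetSum, Finset.sum_apply, Measure.smul_apply, smul_eq_mul]
  refine ENNReal.sum_lt_top.2 fun j _ => ENNReal.sum_lt_top.2 fun β _ => ?_
  rw [Measure.map_apply (pre_cont β).measurable MeasurableSet.univ]
  exact ENNReal.mul_lt_top ENNReal.ofReal_lt_top (measure_lt_top _ _)

lemma int_nuJ (hμ : Lim μ) (J : ℕ) {f : X → ℝ} (hf : Measurable f) {B : ℝ} (hB : ∀ γ, |f γ| ≤ B) :
    ∫ γ, f γ ∂(nuJ μ J) = ∑ j ∈ range (J + 1), ∑ β ∈ Bk j, (muS ^ j)⁻¹ * ∫ γ, f (pre β γ) ∂μ := by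
  have := hμ.1
  have hint : ∀ β : List P, Integrable f (μ.map (pre β)) := fun β => by
    have : IsFiniteMeasure (μ.map (pre β)) := by infer_instance
    exact Integrable.of_bound hf.aestronglyMeasurable B (ae_of_all _ hB)
  unfold nuJ
  rw [integral_finsetSum_measure]
  · refine Finset.sum_congr rfl fun j _ => ?_
    rw [integral_finsetSum_measure]
    · refine Finset.sum_congr rfl fun β _ => ?_
      rw [integral_smul_measure, integral_map (pre_cont β).measurable.aemeasurable
        hf.aestronglyMeasurable, ENNReal.toReal_ofReal (by have := muS_pos'; positivity),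
        smul_eq_mul]
    · intro β _
      exact (hint β).smul_measure ENNReal.ofReal_ne_top
  · intro j _
    refine integrable_finsetSum_measure.2 fun β _ => ?_
    exact (hint β).smul_measure ENNReal.ofReal_ne_top

/-- the short blocks are a part of the law of the walk -/
lemma nuJ_le_int (hμ : Lim μ) (J : ℕ) (F : BoundedContinuousFunction X ℝ) (hF : ∀ γ, 0 ≤ F γ) :
    ∫ γ, F γ ∂(nuJ μ J) ≤ ∫ γ, F γ ∂μ := by
  have hB : ∀ γ, |F γ| ≤ ‖F‖ := fun γ => F.norm_coe_le_norm γ
  rw [int_nuJ hμ J F.continuous.measurable hB]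
  have h1 := block_tendsto (J := J) (fun γ => F γ) (fun β => ∫ γ, F (pre β γ) ∂μ)
    (fun j _ β _ => by
      have := hμ.2 (F.compContinuous ⟨pre β, pre_cont β⟩)
      exact this)
  refine le_of_tendsto_of_tendsto h1 (hμ.2 F) ?_
  filter_upwards [eventually_ge_atTop J] with n hn
  unfold Mn
  refine div_le_div_of_nonneg_right ?_ (hC_pos n).le
  exact Finset.sum_le_sum_of_subset_of_nonneg (BB_sub hn) fun w _ _ => hF _

end H982.HP
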