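import Pool.Agent.H982.HP2

/-!
# The law of the infinite half-plane walk is invariant under adding a random block
-/

set_option autoImplicit false
set_option linter.unusedSectionVars false

namespace H982.HP

open Finset Filter Topology MeasureTheory
open TH966.AK (P Kw lst)
open Pool.Agent.H976R3 Pool.Agent.R965.HP
open Pool.Agent.N941.SP (ps ps_re ps_im ps_inj Z2)

variable {μ : Measure X}

lemma sJ_eq (hμ : Lim μ) (J : ℕ) : (nuJ μ J).real Set.univ = sJ J := by
  have := hμ.1
  have hf := isFinite_nuJ hμ J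
  have h1 := int_nuJ hμ J (f := fun _ => (1 : ℝ)) measurable_const (B := 1) (fun _ => by simp)
  rw [integral_const, smul_eq_mul, mul_one] at h1
  rw [h1]
  unfold sJ
  refine Finset.sum_congr rfl fun j _ => ?_
  rw [Finset.sum_const, nsmul_eq_mul, integral_const, div_eq_mul_inv]
  simp

lemma nuJ_close (hμ : Lim μ) (J : ℕ) (F : BoundedContinuousFunction X ℝ) :
    |∫ γ, F γ ∂μ - ∫ γ, F γ ∂(nuJ μ J)| ≤ ‖F‖ * (1 - sJ J) := by
  have := hμ.1
  have hf := isFinite_nuJ hμ J
  have hB : ∀ γ, |F γ| ≤ ‖F‖ := fun γ => F.norm_coe_le_norm γ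
  have i1 : Integrable (fun γ => F γ) μ := F.integrable μ
  have i2 : Integrable (fun γ => F γ) (nuJ μ J) := F.integrable _
  have h1 := nuJ_le_int hμ J (BoundedContinuousFunction.const X ‖F‖ - F) (fun γ => by
    simp only [BoundedContinuousFunction.coe_sub, Pi.sub_apply,
      BoundedContinuousFunction.const_apply, sub_nonneg]
    exact (le_abs_self _).trans (hB γ))
  have h2 := nuJ_le_int hμ J (BoundedContinuousFunction.const X ‖F‖ + F) (fun γ => by
    simp only [BoundedContinuousFunction.coe_add, Pi.add_apply,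
      BoundedContinuousFunction.const_apply]
    have := neg_abs_le (F γ)
    linarith [hB γ])
  simp only [BoundedContinuousFunction.coe_sub, Pi.sub_apply,
    BoundedContinuousFunction.coe_add, Pi.add_apply,
    BoundedContinuousFunction.const_apply] at h1 h2
  rw [integral_sub (integrable_const _) i2, integral_sub (integrable_const _) i1,
    integral_const, integral_const, sJ_eq hμ] at h1
  rw [integral_add (integrable_const _) i2, integral_add (integrable_const _) i1,
    integral_const, integral_const, sJ_eq hμ] at h2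
  simp only [probReal_univ, smul_eq_mul, one_mul] at h1 h2
  rw [abs_le]
  constructor <;> nlinarith

/-- the law of a walk with an additional random block -/
noncomputable def nuI (μ : Measure X) : Measure X :=
  Measure.sum fun j : ℕ => ∑ β ∈ Bk j, ENNReal.ofReal ((muS ^ j)⁻¹) • μ.map (pre β)

lemma nuJ_le_nuI (μ : Measure X) (J : ℕ) : nuJ μ J ≤ nuI μ := by
  rw [Measure.le_iff]
  intro s hs
  unfold nuJ nuI
  rw [Measure.sum_apply _ hs]
  simp only [Measure.coe_finsetSum, Finset.sum_apply]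
  exact ENNReal.sum_le_tsum _

lemma nuI_univ (hμ : Lim μ) : nuI μ Set.univ = 1 := by
  have := hμ.1
  unfold nuI
  rw [Measure.sum_apply _ MeasurableSet.univ]
  have e : ∀ j : ℕ, (∑ β ∈ Bk j, ENNReal.ofReal ((muS ^ j)⁻¹) • μ.map (pre β)) Set.univ =
      ENNReal.ofReal (((Bk j).card : ℝ) / muS ^ j) := by
    intro j
    simp only [Measure.coe_finsetSum, Finset.sum_apply, Measure.smul_apply, smul_eq_mul]
    rw [Finset.sum_congr rfl (g := fun _ => ENNReal.ofReal ((muS ^ j)⁻¹)) (fun β _ => by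
      rw [Measure.map_apply (pre_cont β).measurable MeasurableSet.univ, Set.preimage_univ,
        measure_univ, mul_one])]
    rw [Finset.sum_const, nsmul_eq_mul, div_eq_mul_inv, ENNReal.ofReal_mul (Nat.cast_nonneg _),
      ENNReal.ofReal_natCast]
  simp only [e]
  rw [← ENNReal.ofReal_tsum_of_nonneg (fun j => by have := muS_pos'; positivity)
    hC_ratio.2.summable, hC_ratio.2.tsum_eq, ENNReal.ofReal_one]

theorem nuI_eq (hμ : Lim μ) : nuI μ = μ := by
  have := hμ.1
  have hfin : IsFiniteMeasure (nuI μ) := ⟨by rw [nuI_univ hμ]; exact ENNReal.one_lt_top⟩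
  refine ext_of_forall_integral_eq_of_IsFiniteMeasure fun F => ?_
  have h1 : HasSum (fun j : ℕ => ∫ γ, F γ ∂(∑ β ∈ Bk j, ENNReal.ofReal ((muS ^ j)⁻¹) •
      μ.map (pre β))) (∫ γ, F γ ∂(nuI μ)) := by
    have hi : Integrable (fun γ => F γ) (nuI μ) := F.integrable _
    exact hasSum_integral_measure hi
  have h2 := (h1.tendsto_sum_nat).comp (tendsto_add_atTop_nat 1)
  have h3 : ∀ J : ℕ, ∑ j ∈ range (J + 1), ∫ γ, F γ ∂(∑ β ∈ Bk j, ENNReal.ofReal ((muS ^ j)⁻¹) •
      μ.map (pre β)) = ∫ γ, F γ ∂(nuJ μ J) := by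
    intro J
    unfold nuJ
    rw [integral_finsetSum_measure]
    intro j _
    refine integrable_finsetSum_measure.2 fun β _ => ?_
    have : IsFiniteMeasure (μ.map (pre β)) := by infer_instance
    exact (F.integrable (μ.map (pre β))).smul_measure ENNReal.ofReal_ne_top
  have h4 : Tendsto (fun J => ∫ γ, F γ ∂(nuJ μ J)) atTop (𝓝 (∫ γ, F γ ∂μ)) := by
    rw [tendsto_iff_norm_sub_tendsto_zero]
    have h5 : Tendsto (fun J => ‖F‖ * (1 - sJ J)) atTop (𝓝 0) := by
      have := (tendsto_const_nhds (x := (1 : ℝ))).sub sJ_tendsto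
      rw [sub_self] at this
      have := this.const_mul ‖F‖
      rwa [mul_zero] at this
    refine squeeze_zero (fun J => norm_nonneg _) (fun J => ?_) h5
    rw [Real.norm_eq_abs, abs_sub_comm]
    exact nuJ_close hμ J F
  refine tendsto_nhds_unique ?_ h4
  refine h2.congr fun J => ?_
  simp only [Function.comp_apply]
  exact h3 J

/-- bounded measurable functions -/
theorem nuJ_bound (hμ : Lim μ) (J : ℕ) {f : X → ℝ} (hf : Measurable f) {B : ℝ}
    (hB : ∀ γ, |f γ| ≤ B) :
    |∫ γ, f γ ∂μ - ∑ j ∈ range (J + 1), ∑ β ∈ Bk j, (muS ^ j)⁻¹ * ∫ γ, f (pre β γ) ∂μ| ≤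
      B * (1 - sJ J) := by
  have := hμ.1
  have hfin := isFinite_nuJ hμ J
  rw [← int_nuJ hμ J hf hB]
  have hle : nuJ μ J ≤ μ := (nuJ_le_nuI μ J).trans_eq (nuI_eq hμ)
  have hsub : μ - nuJ μ J + nuJ μ J = μ := Measure.sub_add_cancel_of_le hle
  have hfin2 : IsFiniteMeasure (μ - nuJ μ J) := by
    have : μ - nuJ μ J ≤ μ := Measure.sub_le
    exact isFiniteMeasure_of_le μ this
  have i1 : Integrable f (μ - nuJ μ J) := Integrable.of_bound hf.aestronglyMeasurable B
    (ae_of_all _ hB)
  have i2 : Integrable f (nuJ μ J) := Integrable.of_bound hf.aestronglyMeasurable B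
    (ae_of_all _ hB)
  have h1 : ∫ γ, f γ ∂μ = ∫ γ, f γ ∂(μ - nuJ μ J) + ∫ γ, f γ ∂(nuJ μ J) := by
    rw [← integral_add_measure i1 i2, hsub]
  rw [h1, add_sub_cancel_right]
  have h2 : (μ - nuJ μ J).real Set.univ = 1 - sJ J := by
    have h3 : (μ - nuJ μ J).real Set.univ + (nuJ μ J).real Set.univ = μ.real Set.univ := by
      rw [← measureReal_add_apply, hsub]
    rw [sJ_eq hμ, probReal_univ (μ := μ)] at h3
    linarith
  calc |∫ γ, f γ ∂(μ - nuJ μ J)| ≤ B * (μ - nuJ μ J).real Set.univ := by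
        have := norm_integral_le_of_norm_le_const (μ := μ - nuJ μ J) (f := f) (C := B)
          (ae_of_all _ hB)
        simpa [Real.norm_eq_abs] using this
    _ = B * (1 - sJ J) := by rw [h2]

end H982.HP
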