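import Pool.Agent.H982.HP3

/-!
# Mixing: absolutely continuous changes of the law do not change the scaled walk
-/

set_option autoImplicit false
set_option linter.unusedSectionVars false

namespace H982.HP

open Finset Filter Topology MeasureTheory
open TH966.AK (P Kw lst)
open Pool.Agent.H976R3 Pool.Agent.R965.HP
open Pool.Agent.N941.SP (ps ps_re ps_im ps_inj Z2)

variable {μ : Measure X}

/-- sequences from the origin with steps of length at most one -/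
def W1 : Set X := {γ | γ 0 = 0 ∧ ∀ i, ‖γ (i + 1) - γ i‖ ≤ 1}

lemma W1_lip {γ : X} (h : γ ∈ W1) (i k : ℕ) : ‖γ (i + k) - γ i‖ ≤ k := by
  induction k with
  | zero => simp
  | succ k ih =>
    have h1 := h.2 (i + k)
    have e : γ (i + (k + 1)) - γ i = (γ (i + k + 1) - γ (i + k)) + (γ (i + k) - γ i) := by
      rw [show i + (k + 1) = i + k + 1 by ring]
      ring
    rw [e]
    refine (norm_add_le _ _).trans ?_
    push_cast
    linarith

/-- the size of a block -/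
noncomputable def szB (β : List P) : ℝ :=
  ∑ i ∈ range β.length, ‖ps (β.getD i 0 - ee)‖ + ‖ps (β.getLastD 0)‖ + β.length + 1

lemma pre_near (β : List P) {γ : X} (h : γ ∈ W1) (t : ℕ) : ‖pre β γ t - γ t‖ ≤ szB β := by
  have n0 : 0 ≤ ∑ i ∈ range β.length, ‖ps (β.getD i 0 - ee)‖ :=
    Finset.sum_nonneg fun _ _ => norm_nonneg _
  have n1 := norm_nonneg (ps (β.getLastD 0))
  unfold pre szB
  split_ifs with ht
  · have h1 : ‖ps (β.getD (t + 1) 0 - ee)‖ ≤ ∑ i ∈ range β.length, ‖ps (β.getD i 0 - ee)‖ :=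
      Finset.single_le_sum (f := fun i => ‖ps (β.getD i 0 - ee)‖) (fun _ _ => norm_nonneg _)
        (Finset.mem_range.2 ht)
    have h2 := W1_lip h 0 t
    rw [zero_add, h.1, sub_zero] at h2
    have h3 : (t : ℝ) ≤ β.length := by exact_mod_cast (by omega : t ≤ β.length)
    refine (norm_sub_le _ _).trans ?_
    linarith
  · by_cases h0 : β.length = 0
    · have h2 := W1_lip h t 1
      have e : ps (β.getLastD 0) + γ (t + 1 - β.length) - γ t =
          ps (β.getLastD 0) + (γ (t + 1) - γ t) := by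
        rw [h0, Nat.sub_zero]
        ring
      rw [e]
      refine (norm_add_le _ _).trans ?_
      rw [Nat.cast_one] at h2
      have h3 : (0 : ℝ) ≤ β.length := Nat.cast_nonneg _
      linarith
    · have h2 := W1_lip h (t + 1 - β.length) (β.length - 1)
      rw [show t + 1 - β.length + (β.length - 1) = t by omega] at h2
      have e : ps (β.getLastD 0) + γ (t + 1 - β.length) - γ t =
          ps (β.getLastD 0) - (γ t - γ (t + 1 - β.length)) := by ring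
      rw [e]
      refine (norm_sub_le _ _).trans ?_
      have h3 : ((β.length - 1 : ℕ) : ℝ) ≤ β.length := by exact_mod_cast Nat.sub_le _ _
      linarith

/-- families of bounded measurable functionals which are equicontinuous for the supremum
distance -/
structure Nice (Φ : ℝ → X → ℝ) : Prop where
  meas : ∀ s, Measurable (Φ s)
  bdd : ∀ s x, |Φ s x| ≤ 1
  uc : ∀ ε : ℝ, 0 < ε → ∃ δ : ℝ, 0 < δ ∧ ∀ (s : ℝ) (x y : X), (∀ i, ‖x i - y i‖ ≤ δ) →
    |Φ s x - Φ s y| ≤ ε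

/-- the functional of the scaled walk -/
noncomputable def Sc (Φ : ℝ → X → ℝ) (s : ℝ) (γ : X) : ℝ := Φ s (fun i => (s : ℂ) * γ i)

lemma Sc_meas {Φ : ℝ → X → ℝ} (h : Nice Φ) (s : ℝ) : Measurable (Sc Φ s) := by
  unfold Sc
  exact (h.meas s).comp (measurable_pi_lambda _ fun i => (measurable_pi_apply i).const_mul _)

lemma Sc_bdd {Φ : ℝ → X → ℝ} (h : Nice Φ) (s : ℝ) (γ : X) : |Sc Φ s γ| ≤ 1 := h.bdd _ _

lemma Sc_pre {Φ : ℝ → X → ℝ} (h : Nice Φ) (β : List P) {ε : ℝ} (hε : 0 < ε) :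
    ∀ᶠ s : ℝ in 𝓝[>] 0, ∀ γ ∈ W1, |Sc Φ s (pre β γ) - Sc Φ s γ| ≤ ε := by
  obtain ⟨δ, hδ, hu⟩ := h.uc ε hε
  have h0 : 0 ≤ szB β := by
    unfold szB
    have n0 : 0 ≤ ∑ i ∈ range β.length, ‖ps (β.getD i 0 - ee)‖ :=
      Finset.sum_nonneg fun _ _ => norm_nonneg _
    have n1 := norm_nonneg (ps (β.getLastD 0))
    positivity
  have h1 : ∀ᶠ s : ℝ in 𝓝[>] 0, s < δ / (szB β + 1) :=
    nhdsWithin_le_nhds (eventually_lt_nhds (by positivity))
  filter_upwards [h1, self_mem_nhdsWithin] with s hs hs0 γ hγ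
  refine hu _ _ _ fun i => ?_
  rw [← mul_sub, norm_mul, Complex.norm_real, Real.norm_eq_abs, abs_of_pos hs0]
  have h2 := pre_near β hγ i
  rw [lt_div_iff₀ (by positivity)] at hs
  calc s * ‖pre β γ i - γ i‖ ≤ s * (szB β + 1) :=
        mul_le_mul_of_nonneg_left (by linarith) (le_of_lt hs0)
    _ ≤ δ := hs.le

/-- `g` depends only on the first `K` sites -/
def Dep (K : ℕ) (g : X → ℝ) : Prop := ∀ γ γ' : X, (∀ i < K, γ i = γ' i) → g γ = g γ'

lemma Dep.pre {K : ℕ} {g : X → ℝ} (h : Dep (K + 1) g) {j : ℕ} {β : List P} (hβ : β ∈ Bk j) :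
    Dep K (fun γ => g (pre β γ)) := by
  intro γ γ' hγ
  refine h _ _ fun i hi => ?_
  have h1 := HPL.Irr_pos hβ
  obtain ⟨b1, b2, b3⟩ := irr_facts hβ
  unfold H982.HP.pre
  split_ifs with ht
  · rfl
  · rw [hγ _ (by omega)]

theorem mix_dep (hμ : Lim μ) (hW : ∀ᵐ γ ∂μ, γ ∈ W1) {Φ : ℝ → X → ℝ} (hΦ : Nice Φ) (K : ℕ) :
    ∀ (g : X → ℝ), Measurable g → (∀ γ, |g γ| ≤ 1) → Dep K g →
    Tendsto (fun s : ℝ => ∫ γ, g γ * Sc Φ s γ ∂μ - (∫ γ, g γ ∂μ) * ∫ γ, Sc Φ s γ ∂μ)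
      (𝓝[>] 0) (𝓝 0) := by
  have := hμ.1
  induction K with
  | zero =>
    intro g _ _ hd
    have hc : ∀ γ, g γ = g 0 := fun γ => hd _ _ fun i hi => absurd hi (Nat.not_lt_zero _)
    refine tendsto_const_nhds.congr fun s => ?_
    simp only [hc]
    rw [integral_const_mul, integral_const]
    simp
  | succ K ih =>
    intro g hg hg1 hd
    rw [Metric.tendsto_nhds]
    intro ε hε
    obtain ⟨J, hJ⟩ : ∃ J, 1 - sJ J < ε / 4 := by
      have h1 := (sJ_tendsto.eventually (lt_mem_nhds (show 1 - ε / 4 < 1 by linarith))).exists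
      obtain ⟨J, hJ⟩ := h1
      exact ⟨J, by linarith⟩
    -- every block
    have hb : ∀ j ∈ range (J + 1), ∀ β ∈ Bk j, Tendsto (fun s : ℝ =>
        ∫ γ, g (pre β γ) * Sc Φ s (pre β γ) ∂μ -
          (∫ γ, g (pre β γ) ∂μ) * ∫ γ, Sc Φ s γ ∂μ) (𝓝[>] 0) (𝓝 0) := by
      intro j _ β hβ
      have hm : Measurable (fun γ => g (pre β γ)) := hg.comp (pre_cont β).measurable
      have h1 := ih (fun γ => g (pre β γ)) hm (fun γ => hg1 _) (hd.pre hβ)
      have h2 : Tendsto (fun s : ℝ => ∫ γ, g (pre β γ) * (Sc Φ s (pre β γ) - Sc Φ s γ) ∂μ)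
          (𝓝[>] 0) (𝓝 0) := by
        rw [Metric.tendsto_nhds]
        intro η hη
        filter_upwards [Sc_pre hΦ β (show 0 < η / 2 by linarith)] with s hs
        rw [Real.dist_eq, sub_zero]
        have h3 : ‖∫ γ, g (pre β γ) * (Sc Φ s (pre β γ) - Sc Φ s γ) ∂μ‖ ≤
            η / 2 * μ.real Set.univ := by
          refine norm_integral_le_of_norm_le_const ?_
          filter_upwards [hW] with γ hγ
          rw [norm_mul, Real.norm_eq_abs, Real.norm_eq_abs]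
          calc |g (pre β γ)| * |Sc Φ s (pre β γ) - Sc Φ s γ| ≤ 1 * (η / 2) :=
                mul_le_mul (hg1 _) (hs γ hγ) (abs_nonneg _) zero_le_one
            _ = η / 2 := one_mul _
        rw [probReal_univ, mul_one, Real.norm_eq_abs] at h3
        linarith
      have h4 := h2.add h1
      rw [add_zero] at h4
      refine h4.congr fun s => ?_
      have i1 : Integrable (fun γ => g (pre β γ) * (Sc Φ s (pre β γ) - Sc Φ s γ)) μ := by
        refine Integrable.of_bound (hm.mul (((Sc_meas hΦ s).comp (pre_cont β).measurable).sub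
          (Sc_meas hΦ s))).aestronglyMeasurable 2 (ae_of_all _ fun γ => ?_)
        rw [norm_mul, Real.norm_eq_abs, Real.norm_eq_abs]
        have a1 := hg1 (pre β γ)
        have a2 := Sc_bdd hΦ s (pre β γ)
        have a3 := Sc_bdd hΦ s γ
        have a4 : |Sc Φ s (pre β γ) - Sc Φ s γ| ≤ 2 := (abs_sub _ _).trans (by linarith)
        calc |g (pre β γ)| * |Sc Φ s (pre β γ) - Sc Φ s γ| ≤ 1 * 2 :=
              mul_le_mul a1 a4 (abs_nonneg _) zero_le_one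
          _ = 2 := one_mul _
      have i2 : Integrable (fun γ => g (pre β γ) * Sc Φ s γ) μ := by
        refine Integrable.of_bound (hm.mul (Sc_meas hΦ s)).aestronglyMeasurable 1
          (ae_of_all _ fun γ => ?_)
        rw [norm_mul, Real.norm_eq_abs, Real.norm_eq_abs]
        exact mul_le_one₀ (hg1 _) (abs_nonneg _) (Sc_bdd hΦ s γ)
      rw [← add_sub_assoc, ← integral_add i1 i2]
      congr 1
      refine integral_congr_ae (ae_of_all _ fun γ => ?_)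
      simp only
      ring
    have hs : Tendsto (fun s : ℝ => ∑ j ∈ range (J + 1), ∑ β ∈ Bk j, (muS ^ j)⁻¹ *
        (∫ γ, g (pre β γ) * Sc Φ s (pre β γ) ∂μ -
          (∫ γ, g (pre β γ) ∂μ) * ∫ γ, Sc Φ s γ ∂μ)) (𝓝[>] 0) (𝓝 0) := by
      have : Tendsto (fun s : ℝ => ∑ j ∈ range (J + 1), ∑ β ∈ Bk j, (muS ^ j)⁻¹ *
        (∫ γ, g (pre β γ) * Sc Φ s (pre β γ) ∂μ -
          (∫ γ, g (pre β γ) ∂μ) * ∫ γ, Sc Φ s γ ∂μ)) (𝓝[>] 0)
          (𝓝 (∑ j ∈ range (J + 1), ∑ β ∈ Bk j, (muS ^ j)⁻¹ * 0)) :=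
        tendsto_finsetSum _ fun j hj => tendsto_finsetSum _ fun β hβ =>
          (hb j hj β hβ).const_mul _
      simpa using this
    filter_upwards [(Metric.tendsto_nhds.1 hs) (ε / 2) (by linarith)] with s hs2
    rw [Real.dist_eq, sub_zero] at hs2 ⊢
    have c1 := nuJ_bound hμ J (f := fun γ => g γ * Sc Φ s γ) (hg.mul (Sc_meas hΦ s)) (B := 1)
      (fun γ => by rw [abs_mul]; exact mul_le_one₀ (hg1 _) (abs_nonneg _) (Sc_bdd hΦ s γ))
    have c2 := nuJ_bound hμ J (f := g) hg (B := 1) hg1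
    rw [one_mul] at c1 c2
    obtain ⟨Q, hQ⟩ : ∃ Q, Q = ∫ γ, Sc Φ s γ ∂μ := ⟨_, rfl⟩
    have hQ1 : |Q| ≤ 1 := by
      rw [hQ]
      have := norm_integral_le_of_norm_le_const (μ := μ) (f := Sc Φ s) (C := 1)
        (ae_of_all _ fun γ => Sc_bdd hΦ s γ)
      simpa [Real.norm_eq_abs] using this
    rw [← hQ] at hs2 ⊢
    have e : ∑ j ∈ range (J + 1), ∑ β ∈ Bk j, (muS ^ j)⁻¹ *
        (∫ γ, g (pre β γ) * Sc Φ s (pre β γ) ∂μ - (∫ γ, g (pre β γ) ∂μ) * Q) =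
        ∑ j ∈ range (J + 1), ∑ β ∈ Bk j, (muS ^ j)⁻¹ *
          ∫ γ, g (pre β γ) * Sc Φ s (pre β γ) ∂μ -
        (∑ j ∈ range (J + 1), ∑ β ∈ Bk j, (muS ^ j)⁻¹ * ∫ γ, g (pre β γ) ∂μ) * Q := by
      rw [Finset.sum_mul, ← Finset.sum_sub_distrib]
      refine Finset.sum_congr rfl fun j _ => ?_
      rw [Finset.sum_mul, ← Finset.sum_sub_distrib]
      refine Finset.sum_congr rfl fun β _ => ?_
      ring
    rw [e] at hs2
    obtain ⟨A1, hA1⟩ : ∃ A1, A1 = ∑ j ∈ range (J + 1), ∑ β ∈ Bk j, (muS ^ j)⁻¹ *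
          ∫ γ, g (pre β γ) * Sc Φ s (pre β γ) ∂μ := ⟨_, rfl⟩
    obtain ⟨A2, hA2⟩ : ∃ A2, A2 = ∑ j ∈ range (J + 1), ∑ β ∈ Bk j, (muS ^ j)⁻¹ *
          ∫ γ, g (pre β γ) ∂μ := ⟨_, rfl⟩
    rw [← hA1] at c1 hs2
    rw [← hA2] at c2 hs2
    have e2 : ∫ γ, g γ * Sc Φ s γ ∂μ - (∫ γ, g γ ∂μ) * Q =
        (∫ γ, g γ * Sc Φ s γ ∂μ - A1) + (A1 - A2 * Q) - (∫ γ, g γ ∂μ - A2) * Q := by ring
    rw [e2]
    have c3 : |(∫ γ, g γ ∂μ - A2) * Q| ≤ 1 - sJ J := by
      rw [abs_mul]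
      calc |∫ γ, g γ ∂μ - A2| * |Q| ≤ (1 - sJ J) * 1 :=
            mul_le_mul c2 hQ1 (abs_nonneg _) (by linarith [sJ_le J])
        _ = _ := mul_one _
    have := abs_sub ((∫ γ, g γ * Sc Φ s γ ∂μ - A1) + (A1 - A2 * Q)) ((∫ γ, g γ ∂μ - A2) * Q)
    have := abs_add_le (∫ γ, g γ * Sc Φ s γ ∂μ - A1) (A1 - A2 * Q)
    linarith

end H982.HP
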