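import Pool.Agent.H982.HP4

/-!
# Mixing for all absolutely continuous changes of the law
-/

set_option autoImplicit false
set_option linter.unusedSectionVars false

namespace H982.HP

open Finset Filter Topology MeasureTheory
open TH966.AK (P Kw lst)
open Pool.Agent.H976R3 Pool.Agent.R965.HP
open Pool.Agent.N941.SP (ps ps_re ps_im ps_inj Z2)

variable {μ : Measure X}

/-- the discrepancy between the scaled walk under `g μ` and under `μ` -/
noncomputable def DD (μ : Measure X) (Φ : ℝ → X → ℝ) (g : X → ℝ) (s : ℝ) : ℝ :=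
  ∫ γ, g γ * Sc Φ s γ ∂μ - (∫ γ, g γ ∂μ) * ∫ γ, Sc Φ s γ ∂μ

lemma int_Sc_le [IsProbabilityMeasure μ] {Φ : ℝ → X → ℝ} (h : Nice Φ) (s : ℝ) :
    |∫ γ, Sc Φ s γ ∂μ| ≤ 1 := by
  have := norm_integral_le_of_norm_le_const (μ := μ) (f := Sc Φ s) (C := 1)
    (ae_of_all _ fun γ => Sc_bdd h s γ)
  simpa [Real.norm_eq_abs] using this

lemma int_mul_Sc {Φ : ℝ → X → ℝ} (h : Nice Φ) {g : X → ℝ} (hg : Integrable g μ) (s : ℝ) :
    Integrable (fun γ => g γ * Sc Φ s γ) μ := by
  refine hg.norm.mono' (hg.aestronglyMeasurable.mul (Sc_meas h s).aestronglyMeasurable)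
    (ae_of_all _ fun γ => ?_)
  rw [norm_mul]
  calc ‖g γ‖ * ‖Sc Φ s γ‖ ≤ ‖g γ‖ * 1 :=
        mul_le_mul_of_nonneg_left (Sc_bdd h s γ) (norm_nonneg _)
    _ = _ := mul_one _

lemma DD_le [IsProbabilityMeasure μ] {Φ : ℝ → X → ℝ} (h : Nice Φ) {g : X → ℝ} (hg : Integrable g μ)
    (s : ℝ) : |DD μ Φ g s| ≤ 2 * ∫ γ, ‖g γ‖ ∂μ := by
  have h1 : |∫ γ, g γ * Sc Φ s γ ∂μ| ≤ ∫ γ, ‖g γ‖ ∂μ := by
    refine (abs_integral_le_integral_abs).trans ?_
    refine integral_mono (int_mul_Sc h hg s).norm hg.norm fun γ => ?_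
    simp only
    rw [abs_mul]
    calc |g γ| * |Sc Φ s γ| ≤ |g γ| * 1 :=
          mul_le_mul_of_nonneg_left (Sc_bdd h s γ) (abs_nonneg _)
      _ = _ := mul_one _
  have h2 : |∫ γ, g γ ∂μ| ≤ ∫ γ, ‖g γ‖ ∂μ := abs_integral_le_integral_abs
  have h3 := int_Sc_le (μ := μ) h s
  have h4 : |(∫ γ, g γ ∂μ) * ∫ γ, Sc Φ s γ ∂μ| ≤ ∫ γ, ‖g γ‖ ∂μ := by
    rw [abs_mul]
    calc |∫ γ, g γ ∂μ| * |∫ γ, Sc Φ s γ ∂μ| ≤ (∫ γ, ‖g γ‖ ∂μ) * 1 :=
          mul_le_mul h2 h3 (abs_nonneg _) ((abs_nonneg _).trans h2)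
      _ = _ := mul_one _
  unfold DD
  refine (abs_sub _ _).trans ?_
  linarith

lemma DD_add {Φ : ℝ → X → ℝ} (h : Nice Φ) {g g' : X → ℝ} (hg : Integrable g μ)
    (hg' : Integrable g' μ) (s : ℝ) : DD μ Φ (g + g') s = DD μ Φ g s + DD μ Φ g' s := by
  unfold DD
  have e1 : ∫ γ, (g + g') γ * Sc Φ s γ ∂μ =
      ∫ γ, g γ * Sc Φ s γ ∂μ + ∫ γ, g' γ * Sc Φ s γ ∂μ := by
    rw [← integral_add (int_mul_Sc h hg s) (int_mul_Sc h hg' s)]
    refine integral_congr_ae (ae_of_all _ fun γ => ?_)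
    simp only [Pi.add_apply]
    ring
  have e2 : ∫ γ, (g + g') γ ∂μ = ∫ γ, g γ ∂μ + ∫ γ, g' γ ∂μ := by
    rw [← integral_add hg hg']
    rfl
  rw [e1, e2]
  ring

lemma DD_smul {Φ : ℝ → X → ℝ} {g : X → ℝ} (c s : ℝ) :
    DD μ Φ (fun γ => c * g γ) s = c * DD μ Φ g s := by
  unfold DD
  have e1 : ∫ γ, (c * g γ) * Sc Φ s γ ∂μ = c * ∫ γ, g γ * Sc Φ s γ ∂μ := by
    rw [← integral_const_mul]
    refine integral_congr_ae (ae_of_all _ fun γ => ?_)
    simp only
    ring
  rw [e1, integral_const_mul]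
  ring

lemma DD_congr {Φ : ℝ → X → ℝ} {g g' : X → ℝ} (hg : g =ᵐ[μ] g') (s : ℝ) :
    DD μ Φ g s = DD μ Φ g' s := by
  unfold DD
  rw [integral_congr_ae hg]
  congr 1
  refine integral_congr_ae ?_
  filter_upwards [hg] with γ hγ
  rw [hγ]

/-- measurable sets -/
lemma DD_set (hμ : Lim μ) (hW : ∀ᵐ γ ∂μ, γ ∈ W1) {Φ : ℝ → X → ℝ} (hΦ : Nice Φ) :
    ∀ (A : Set X), MeasurableSet A →
      Tendsto (DD μ Φ (A.indicator fun _ => (1 : ℝ))) (𝓝[>] 0) (𝓝 0) := by
  have := hμ.1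
  have hint : ∀ A : Set X, MeasurableSet A → Integrable (A.indicator fun _ => (1 : ℝ)) μ :=
    fun A hA => (integrable_const (1 : ℝ)).indicator hA
  refine MeasurableSpace.induction_on_inter (C := fun A _ =>
    Tendsto (DD μ Φ (A.indicator fun _ => (1 : ℝ))) (𝓝[>] 0) (𝓝 0))
    (generateFrom_measurableCylinders (α := fun _ : ℕ => ℂ)).symm isPiSystem_measurableCylinders
    ?_ ?_ ?_ ?_
  · refine tendsto_const_nhds.congr fun s => ?_
    unfold DD
    simp
  · intro A hA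
    obtain ⟨S, T, hT, rfl⟩ := (mem_measurableCylinders A).1 hA
    refine mix_dep hμ hW hΦ (S.sup id + 1) _ ?_ ?_ ?_
    · exact measurable_const.indicator hT.cylinder
    · intro γ
      by_cases h : γ ∈ cylinder S T
      · rw [Set.indicator_of_mem h]; simp
      · rw [Set.indicator_of_notMem h]; simp
    · intro γ γ' h
      have e : S.restrict γ = S.restrict γ' := by
        funext i
        exact h i.1 (Nat.lt_succ_of_le (Finset.le_sup (f := id) i.2))
      have e2 : γ ∈ cylinder S T ↔ γ' ∈ cylinder S T := by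
        rw [mem_cylinder, mem_cylinder, e]
      by_cases h1 : γ ∈ cylinder S T
      · rw [Set.indicator_of_mem h1, Set.indicator_of_mem (e2.1 h1)]
      · rw [Set.indicator_of_notMem h1, Set.indicator_of_notMem (fun h2 => h1 (e2.2 h2))]
  · intro A hA h
    have h1 : Tendsto (fun s => DD μ Φ (fun _ => (1 : ℝ)) s + (-1) *
        DD μ Φ (A.indicator fun _ => (1 : ℝ)) s) (𝓝[>] 0) (𝓝 0) := by
      have h0 : ∀ s, DD μ Φ (fun _ => (1 : ℝ)) s = 0 := fun s => by
        unfold DD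
        simp
      simp only [h0]
      simpa using h.neg
    refine h1.congr fun s => ?_
    rw [← DD_smul, ← DD_add hΦ (integrable_const 1) ((hint A hA).const_mul _)]
    congr 1
    funext γ
    rw [Pi.add_apply]
    by_cases h : γ ∈ A
    · rw [Set.indicator_of_mem h, Set.indicator_of_notMem (fun h2 : γ ∈ Aᶜ => h2 h)]; norm_num
    · rw [Set.indicator_of_notMem h, Set.indicator_of_mem (show γ ∈ Aᶜ from h)]; norm_num
  · intro f hd hm hf
    -- countable disjoint unions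
    have hms : ∀ A : Set X, MeasurableSet A → ∀ s, DD μ Φ (A.indicator fun _ => (1 : ℝ)) s =
        ∫ γ in A, Sc Φ s γ ∂μ - μ.real A * ∫ γ, Sc Φ s γ ∂μ := by
      intro A hA s
      unfold DD
      congr 1
      · rw [← integral_indicator hA]
        refine integral_congr_ae (ae_of_all _ fun γ => ?_)
        by_cases h : γ ∈ A
        · simp [h]
        · simp [h]
      · rw [integral_indicator hA]
        simp [Measure.real]
    have hSi : ∀ s, Integrable (Sc Φ s) μ := fun s =>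
      Integrable.of_bound (Sc_meas hΦ s).aestronglyMeasurable 1 (ae_of_all _ fun γ =>
        Sc_bdd hΦ s γ)
    have hsum : HasSum (fun i => μ.real (f i)) (μ.real (⋃ i, f i)) := by
      have h1 := hasSum_integral_iUnion (μ := μ) (f := fun _ => (1 : ℝ)) hm hd
        (integrable_const 1).integrableOn
      simpa [Measure.real] using h1
    have h1 : ∀ s, DD μ Φ ((⋃ i, f i).indicator fun _ => (1 : ℝ)) s =
        ∑' i, DD μ Φ ((f i).indicator fun _ => (1 : ℝ)) s := by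
      intro s
      rw [hms _ (MeasurableSet.iUnion hm)]
      have a1 := hasSum_integral_iUnion (μ := μ) (f := Sc Φ s) hm hd (hSi s).integrableOn
      have a2 := hsum.mul_right (∫ γ, Sc Φ s γ ∂μ)
      have a3 := (a1.sub a2).tsum_eq
      rw [← a3]
      refine tsum_congr fun i => ?_
      rw [hms _ (hm i)]
    have h2 : Tendsto (fun s => ∑' i, DD μ Φ ((f i).indicator fun _ => (1 : ℝ)) s) (𝓝[>] 0)
        (𝓝 (∑' _ : ℕ, (0 : ℝ))) := by
      refine tendsto_tsum_of_dominated_convergence (bound := fun i => 2 * μ.real (f i))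
        (hsum.summable.mul_left 2) (fun i => hf i) ?_
      refine Eventually.of_forall fun s i => ?_
      rw [Real.norm_eq_abs]
      refine (DD_le hΦ (hint _ (hm i)) s).trans (le_of_eq ?_)
      congr 1
      rw [show (fun γ => ‖(f i).indicator (fun _ => (1 : ℝ)) γ‖) =
        (f i).indicator (fun _ => (1 : ℝ)) from ?_]
      · rw [integral_indicator (hm i)]
        simp [Measure.real]
      · funext γ
        by_cases h : γ ∈ f i
        · simp [h]
        · simp [h]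
    rw [tsum_zero] at h2
    exact h2.congr fun s => (h1 s).symm

/-- integrable densities -/
theorem DD_tendsto (hμ : Lim μ) (hW : ∀ᵐ γ ∂μ, γ ∈ W1) {Φ : ℝ → X → ℝ} (hΦ : Nice Φ) {g : X → ℝ}
    (hg : Integrable g μ) : Tendsto (DD μ Φ g) (𝓝[>] 0) (𝓝 0) := by
  have := hμ.1
  refine Integrable.induction (P := fun g => Tendsto (DD μ Φ g) (𝓝[>] 0) (𝓝 0)) ?_ ?_ ?_ ?_ hg
  · intro c A hA _
    have h1 := (DD_set hμ hW hΦ A hA).const_mul c
    rw [mul_zero] at h1
    refine h1.congr fun s => ?_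
    rw [← DD_smul]
    congr 1
    funext γ
    by_cases h : γ ∈ A
    · simp [h]
    · simp [h]
  · intro f g _ hf hg h1 h2
    have h3 := h1.add h2
    rw [add_zero] at h3
    exact h3.congr fun s => (DD_add hΦ hf hg s).symm
  · refine isClosed_of_closure_subset fun f hf => ?_
    simp only [Set.mem_ofPred_eq]
    rw [Metric.tendsto_nhds]
    intro ε hε
    obtain ⟨f', hf', hd⟩ := Metric.mem_closure_iff.1 hf (ε / 4) (by linarith)
    simp only [Set.mem_ofPred_eq] at hf'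
    rw [L1.dist_eq_integral_dist] at hd
    filter_upwards [(Metric.tendsto_nhds.1 hf') (ε / 2) (by linarith)] with s hs
    rw [Real.dist_eq, sub_zero] at hs ⊢
    have hi := L1.integrable_coeFn f
    have hi' := L1.integrable_coeFn f'
    have e : DD μ Φ f s = DD μ Φ f' s + DD μ Φ ((f : X → ℝ) - f') s := by
      rw [← DD_add hΦ hi' (hi.sub hi')]
      congr 1
      funext γ
      simp
    have h1 := DD_le hΦ (hi.sub hi') s
    have h2 : ∫ γ, ‖(f - f' : X → ℝ) γ‖ ∂μ = ∫ γ, dist (f γ) (f' γ) ∂μ :=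
      integral_congr_ae (ae_of_all _ fun γ => by simp [Real.dist_eq])
    rw [h2] at h1
    rw [e]
    refine (abs_add_le _ _).trans_lt ?_
    linarith
  · intro f g hfg _ h
    exact h.congr fun s => DD_congr hfg s

/-- **Mixing.** -/
theorem mix (hμ : Lim μ) (hW : ∀ᵐ γ ∂μ, γ ∈ W1) {Φ : ℝ → X → ℝ} (hΦ : Nice Φ) (ν : Measure X)
    [IsProbabilityMeasure ν] (hν : ν ≪ μ) :
    Tendsto (fun s : ℝ => ∫ γ, Sc Φ s γ ∂ν - ∫ γ, Sc Φ s γ ∂μ) (𝓝[>] 0) (𝓝 0) := by
  have := hμ.1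
  have h1 := DD_tendsto hμ hW hΦ (Measure.integrable_toReal_rnDeriv (μ := ν) (ν := μ))
  refine h1.congr fun s => ?_
  unfold DD
  rw [integral_toReal_rnDeriv_mul hν, Measure.integral_toReal_rnDeriv hν, probReal_univ, one_mul]

end H982.HP
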