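import Pool.Agent.H982.HP5

/-!
# Functions of the part of the walk up to the last visit to a strip
-/

set_option autoImplicit false
set_option linter.unusedSectionVars false

namespace H982.HP

open Finset Filter Topology MeasureTheory
open TH966.AK (P Kw lst)
open Pool.Agent.H976R3 Pool.Agent.R965.HP
open Pool.Agent.N941.SP (ps ps_re ps_im ps_inj Z2)

variable {μ : Measure X}

/-- `W` depends only on the part of the walk up to the time `r` and up to the last visit of a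
height less than `r` -/
def Loc (r : ℕ) (W : X → ℝ) : Prop :=
  ∀ (γ γ' : X) (L : ℕ), r ≤ L → (∀ i < L, γ i = γ' i) →
    (∀ i, L ≤ i → (r : ℝ) ≤ (γ i).im ∧ (r : ℝ) ≤ (γ' i).im) → W γ = W γ'

lemma Bk_len {j : ℕ} {β : List P} (hβ : β ∈ Bk j) : β.length = j + 1 ∧ 0 < j := by
  exact ⟨(irr_facts hβ).1, HPL.Irr_pos hβ⟩

lemma pre_inj {j : ℕ} {β : List P} (hβ : β ∈ Bk j) : Function.Injective (pre β) := by
  obtain ⟨h1, h2⟩ := Bk_len hβ
  intro γ γ' h
  funext s
  have h3 := congrFun h (s + j)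
  unfold pre at h3
  rw [if_neg (by omega), if_neg (by omega), add_right_inj] at h3
  rwa [show s + j + 1 - β.length = s by omega] at h3

lemma Loc.pre {r : ℕ} {W : X → ℝ} (h : Loc (r + 1) W) {j : ℕ} {β : List P} (hβ : β ∈ Bk j) :
    Loc r (fun γ => W (pre β γ)) := by
  obtain ⟨h1, h2⟩ := Bk_len hβ
  have hl := last_pos hβ
  intro γ γ' L hr hL hh
  refine h _ _ (L + j) (by omega) ?_ ?_
  · intro i hi
    unfold H982.HP.pre
    split_ifs with ht
    · rfl
    · rw [hL _ (by omega)]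
  · intro i hi
    have e : ∀ γ : X, (r : ℝ) ≤ (γ (i + 1 - β.length)).im →
        ((r + 1 : ℕ) : ℝ) ≤ (H982.HP.pre β γ i).im := by
      intro γ hγ
      unfold H982.HP.pre
      rw [if_neg (by omega), Complex.add_im, ps_im]
      have h3 : (1 : ℝ) ≤ ((β.getLastD 0).1 : ℝ) := by exact_mod_cast hl
      push_cast
      linarith
    have h4 := hh (i + 1 - β.length) (by omega)
    exact ⟨e γ h4.1, e γ' h4.2⟩

lemma map_ac (hμ : Lim μ) {j : ℕ} {β : List P} (hβ : β ∈ Bk j) : μ.map (pre β) ≪ μ := by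
  have hpos := muS_pos'
  refine Measure.AbsolutelyContinuous.mk fun s hs h0 => ?_
  rw [← nuI_eq hμ] at h0
  unfold nuI at h0
  rw [Measure.sum_apply _ hs, ENNReal.tsum_eq_zero] at h0
  have h1 := h0 j
  simp only [Measure.coe_finsetSum, Finset.sum_apply, Measure.smul_apply, smul_eq_mul] at h1
  rw [Finset.sum_eq_zero_iff] at h1
  have h2 := h1 β hβ
  rcases mul_eq_zero.1 h2 with h3 | h3
  · exfalso
    rw [ENNReal.ofReal_eq_zero] at h3
    have : 0 < (muS ^ j)⁻¹ := by positivity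
    linarith
  · exact h3

lemma aesm_of_pre (hμ : Lim μ) {f : X → ℝ}
    (h : ∀ j, ∀ β ∈ Bk j, AEStronglyMeasurable (fun γ => f (pre β γ)) μ) :
    AEStronglyMeasurable f μ := by
  have e : AEStronglyMeasurable f (nuI μ) := by
    unfold nuI
    refine AEStronglyMeasurable.sum_measure fun j => ?_
    rw [← Measure.sum_coe_finset]
    refine AEStronglyMeasurable.sum_measure fun β => ?_
    have h1 : MeasurableEmbedding (pre β.1) := (pre_cont β.1).measurableEmbedding (pre_inj β.2)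
    exact ((h1.aestronglyMeasurable_map_iff).2 (h j β.1 β.2)).smul_measure _
  rwa [nuI_eq hμ] at e

/-- bounded almost everywhere measurable functions -/
lemma nuJ_bound' (hμ : Lim μ) (J : ℕ) {f : X → ℝ} (hf : AEStronglyMeasurable f μ) {B : ℝ}
    (hB : ∀ γ, |f γ| ≤ B) :
    |∫ γ, f γ ∂μ - ∑ j ∈ range (J + 1), ∑ β ∈ Bk j, (muS ^ j)⁻¹ * ∫ γ, f (pre β γ) ∂μ| ≤
      B * (1 - sJ J) := by
  have hB0 : 0 ≤ B := (abs_nonneg _).trans (hB 0)
  obtain ⟨f', hf'⟩ : ∃ f' : X → ℝ, f' = fun γ => max (-B) (min B (hf.mk f γ)) := ⟨_, rfl⟩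
  have hm : Measurable f' := by
    rw [hf']
    exact measurable_const.max (measurable_const.min hf.stronglyMeasurable_mk.measurable)
  have hb : ∀ γ, |f' γ| ≤ B := fun γ => by
    rw [hf', abs_le]
    exact ⟨le_max_left _ _, max_le (by linarith) (min_le_left _ _)⟩
  have he : f =ᵐ[μ] f' := by
    filter_upwards [hf.ae_eq_mk] with γ hγ
    rw [hf']
    simp only
    rw [← hγ]
    have := abs_le.1 (hB γ)
    rw [min_eq_right this.2, max_eq_right this.1]
  have h1 := nuJ_bound hμ J hm hb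
  have e1 : ∫ γ, f γ ∂μ = ∫ γ, f' γ ∂μ := integral_congr_ae he
  have e2 : ∑ j ∈ range (J + 1), ∑ β ∈ Bk j, (muS ^ j)⁻¹ * ∫ γ, f (pre β γ) ∂μ =
      ∑ j ∈ range (J + 1), ∑ β ∈ Bk j, (muS ^ j)⁻¹ * ∫ γ, f' (pre β γ) ∂μ := by
    refine Finset.sum_congr rfl fun j _ => Finset.sum_congr rfl fun β hβ => ?_
    congr 1
    refine integral_congr_ae ?_
    exact ae_of_ae_map (pre_cont β).measurable.aemeasurable ((map_ac hμ hβ).ae_le he)
  rw [e1, e2]
  exact h1

/-- if all the blocks converge then the mean converges -/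
lemma tendsto_of_pre (hμ : Lim μ) {g : X → ℝ} (hg : AEStronglyMeasurable g μ) {B : ℝ}
    (hB : ∀ γ, |g γ| ≤ B)
    (h : ∀ j, ∀ β ∈ Bk j, Tendsto (fun n => Mn n (fun γ => g (pre β γ))) atTop
      (𝓝 (∫ γ, g (pre β γ) ∂μ))) :
    Tendsto (fun n => Mn n g) atTop (𝓝 (∫ γ, g γ ∂μ)) := by
  have hB0 : 0 ≤ B := (abs_nonneg _).trans (hB 0)
  rw [Metric.tendsto_atTop']
  intro ε hε
  obtain ⟨J, hJ⟩ : ∃ J, B * (1 - sJ J) < ε / 4 := by
    have h1 : Tendsto (fun J => B * (1 - sJ J)) atTop (𝓝 0) := by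
      have := (tendsto_const_nhds (x := (1 : ℝ))).sub sJ_tendsto
      rw [sub_self] at this
      have := this.const_mul B
      rwa [mul_zero] at this
    exact (h1.eventually (gt_mem_nhds (show (0 : ℝ) < ε / 4 by linarith))).exists
  have h1 := block_tendsto (J := J) g (fun β => ∫ γ, g (pre β γ) ∂μ) (fun j _ β hβ => h j β hβ)
  have h2 := nuJ_bound' hμ J hg hB
  have h3 : Tendsto (fun n => B * (1 - ((BB n J).card : ℝ) / hC n)) atTop
      (𝓝 (B * (1 - sJ J))) := ((tendsto_const_nhds).sub (count_tendsto J)).const_mul B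
  have h4 := (Metric.tendsto_atTop.1 h1) (ε / 4) (by linarith)
  have h5 := h3.eventually (gt_mem_nhds hJ)
  obtain ⟨N, hN⟩ := h4
  rw [eventually_atTop] at h5
  obtain ⟨N', hN'⟩ := h5
  refine ⟨N + N' + J, fun n hn => ?_⟩
  have h6 := hN n (by omega)
  have h7 := hN' n (by omega)
  have h8 := long_le (n := n) (J := J) (by omega) g hB
  rw [Real.dist_eq] at h6 ⊢
  rw [abs_lt] at h6 ⊢
  rw [abs_le] at h2 h8
  constructor <;> linarith [h2.1, h2.2, h8.1, h8.2, h6.1, h6.2]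

lemma Mn_congr {n : ℕ} {g g' : X → ℝ} (h : ∀ γ ∈ Hs, g γ = g' γ) : Mn n g = Mn n g' := by
  unfold Mn
  congr 1
  exact Finset.sum_congr rfl fun w hw => h _ (PS_Hs hw)

lemma Mn_const_mul (n : ℕ) (c : ℝ) (g : X → ℝ) : Mn n (fun γ => c * g γ) = c * Mn n g := by
  unfold Mn
  rw [← Finset.mul_sum, mul_div_assoc]

theorem loc_bdd (hμ : Lim μ) (hH : ∀ᵐ γ ∂μ, γ ∈ Hs) (r : ℕ) :
    ∀ (W : X → ℝ), Loc r W → ∀ B : ℝ, (∀ γ, |W γ| ≤ B) →
    AEStronglyMeasurable W μ ∧ ∀ F : BoundedContinuousFunction X ℝ,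
      Tendsto (fun n => Mn n (fun γ => W γ * F γ)) atTop (𝓝 (∫ γ, W γ * F γ ∂μ)) := by
  induction r with
  | zero =>
    intro W hW B hB
    have hc : ∀ γ ∈ Hs, W γ = W 0 := by
      intro γ hγ
      refine hW _ _ 0 le_rfl (fun i hi => absurd hi (Nat.not_lt_zero _)) fun i _ => ⟨?_, ?_⟩
      · simpa using hγ i
      · simp
    have hae : W =ᵐ[μ] fun _ => W 0 := by
      filter_upwards [hH] with γ hγ
      exact hc γ hγ
    refine ⟨aestronglyMeasurable_const.congr hae.symm, fun F => ?_⟩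
    have e1 : ∫ γ, W γ * F γ ∂μ = W 0 * ∫ γ, F γ ∂μ := by
      rw [← integral_const_mul]
      refine integral_congr_ae ?_
      filter_upwards [hae] with γ hγ
      rw [hγ]
    rw [e1]
    refine ((hμ.2 F).const_mul (W 0)).congr fun n => ?_
    rw [← Mn_const_mul]
    exact Mn_congr fun γ hγ => by rw [hc γ hγ]
  | succ r ih =>
    intro W hW B hB
    have hB0 : 0 ≤ B := (abs_nonneg _).trans (hB 0)
    have key : ∀ j, ∀ β ∈ Bk j, AEStronglyMeasurable (fun γ => W (pre β γ)) μ ∧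
        ∀ F : BoundedContinuousFunction X ℝ,
        Tendsto (fun n => Mn n (fun γ => W (pre β γ) * F γ)) atTop
          (𝓝 (∫ γ, W (pre β γ) * F γ ∂μ)) := by
      intro j β hβ
      exact ih _ (hW.pre hβ) B fun γ => hB _
    have hm : AEStronglyMeasurable W μ := aesm_of_pre hμ fun j β hβ => (key j β hβ).1
    refine ⟨hm, fun F => ?_⟩
    refine tendsto_of_pre hμ (hm.mul F.continuous.aestronglyMeasurable) (B := B * ‖F‖)
      (fun γ => ?_) fun j β hβ => ?_
    · rw [abs_mul]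
      exact mul_le_mul (hB γ) (F.norm_coe_le_norm γ) (abs_nonneg _) hB0
    · exact (key j β hβ).2 (F.compContinuous ⟨pre β, pre_cont β⟩)

end H982.HP
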