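import Pool.Agent.H982.HP6

/-!
# Uniformly square integrable functionals
-/

set_option autoImplicit false
set_option linter.unusedSectionVars false

namespace H982.HP

open Finset Filter Topology MeasureTheory
open TH966.AK (P Kw lst)
open Pool.Agent.H976R3 Pool.Agent.R965.HP
open Pool.Agent.N941.SP (ps ps_re ps_im ps_inj Z2)

variable {μ : Measure X}

/-- truncation -/
noncomputable def cut (B : ℝ) (W : X → ℝ) (γ : X) : ℝ := max (-B) (min B (W γ))

lemma cut_abs {B : ℝ} (hB : 0 ≤ B) (W : X → ℝ) (γ : X) : |cut B W γ| ≤ B := by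
  unfold cut
  rw [abs_le]
  exact ⟨le_max_left _ _, max_le (by linarith) (min_le_left _ _)⟩

lemma cut_eq {B : ℝ} {W : X → ℝ} {γ : X} (h : |W γ| ≤ B) : cut B W γ = W γ := by
  unfold cut
  have := abs_le.1 h
  rw [min_eq_right this.2, max_eq_right this.1]

lemma cut_sub {B : ℝ} (hB : 0 < B) (W : X → ℝ) (γ : X) : |W γ - cut B W γ| ≤ (W γ) ^ 2 / B := by
  by_cases h : |W γ| ≤ B
  · rw [cut_eq h, sub_self, abs_zero]
    positivity
  · have h : B < |W γ| := not_le.1 h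
    have h1 : |W γ - cut B W γ| ≤ |W γ| := by
      unfold cut
      rcases le_or_gt 0 (W γ) with h0 | h0
      · rw [abs_of_nonneg h0] at h ⊢
        rw [min_eq_left h.le, max_eq_right (by linarith), abs_of_nonneg (by linarith)]
        linarith
      · rw [abs_of_neg h0] at h ⊢
        rw [min_eq_right (by linarith), max_eq_left (by linarith), abs_of_nonpos (by linarith)]
        linarith
    refine h1.trans ?_
    rw [le_div_iff₀ hB, ← sq_abs (W γ), sq]
    exact mul_le_mul_of_nonneg_left h.le (abs_nonneg _)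

lemma Loc.comp {r : ℕ} {W : X → ℝ} (h : Loc r W) (f : ℝ → ℝ) : Loc r (fun γ => f (W γ)) :=
  fun γ γ' L h0 h1 h2 => congrArg f (h γ γ' L h0 h1 h2)

lemma Mn_mono {n : ℕ} {g g' : X → ℝ} (h : ∀ γ, g γ ≤ g' γ) : Mn n g ≤ Mn n g' := by
  unfold Mn
  exact div_le_div_of_nonneg_right (Finset.sum_le_sum fun w _ => h _) (hC_pos n).le

lemma Mn_sub (n : ℕ) (g g' : X → ℝ) : Mn n (fun γ => g γ - g' γ) = Mn n g - Mn n g' := by
  unfold Mn
  rw [Finset.sum_sub_distrib, sub_div]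

lemma abs_Mn (n : ℕ) (g : X → ℝ) : |Mn n g| ≤ Mn n (fun γ => |g γ|) := by
  unfold Mn
  rw [abs_div, abs_of_pos (hC_pos n)]
  exact div_le_div_of_nonneg_right (Finset.abs_sum_le_sum_abs _ _) (hC_pos n).le

lemma sq_int (hμ : Lim μ) (hH : ∀ᵐ γ ∂μ, γ ∈ Hs) {r : ℕ} {W : X → ℝ} (hW : Loc r W) {C : ℝ}
    (hC : ∀ n, Mn n (fun γ => (W γ) ^ 2) ≤ C) :
    AEStronglyMeasurable W μ ∧ Integrable (fun γ => (W γ) ^ 2) μ ∧ ∫ γ, (W γ) ^ 2 ∂μ ≤ C := by
  have := hμ.1
  have hC0 : 0 ≤ C := by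
    refine le_trans ?_ (hC 0)
    unfold Mn
    exact div_nonneg (Finset.sum_nonneg fun _ _ => sq_nonneg _) (hC_pos 0).le
  have hm : AEStronglyMeasurable W μ := by
    refine aestronglyMeasurable_of_tendsto_ae (u := atTop) (f := fun k : ℕ => cut k W)
      (fun k => ?_) (ae_of_all _ fun γ => ?_)
    · exact (loc_bdd hμ hH r (cut k W) (hW.comp fun x => max (-(k : ℝ)) (min (k : ℝ) x)) k
        (cut_abs (Nat.cast_nonneg _) W)).1
    · refine tendsto_const_nhds.congr' ?_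
      filter_upwards [eventually_ge_atTop (Nat.ceil |W γ|)] with k hk
      exact (cut_eq (Nat.ceil_le.1 hk)).symm
  have hV : ∀ k : ℕ, ∫ γ, min (k : ℝ) ((W γ) ^ 2) ∂μ ≤ C := by
    intro k
    have hl : Loc r (fun γ => min (k : ℝ) ((W γ) ^ 2)) := hW.comp fun x => min (k : ℝ) (x ^ 2)
    have h1 := (loc_bdd hμ hH r _ hl k (fun γ => by
      rw [abs_of_nonneg (le_min (Nat.cast_nonneg _) (sq_nonneg _))]
      exact min_le_left _ _)).2 (BoundedContinuousFunction.const X 1)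
    simp only [BoundedContinuousFunction.const_apply, mul_one] at h1
    refine le_of_tendsto h1 (Eventually.of_forall fun n => ?_)
    exact (Mn_mono fun γ => min_le_right _ _).trans (hC n)
  have hlin : ∫⁻ γ, ENNReal.ofReal ((W γ) ^ 2) ∂μ ≤ ENNReal.ofReal C := by
    have h1 : ∀ γ, ENNReal.ofReal ((W γ) ^ 2) =
        liminf (fun k : ℕ => ENNReal.ofReal (min (k : ℝ) ((W γ) ^ 2))) atTop := by
      intro γ
      symm
      refine Tendsto.liminf_eq ?_
      refine tendsto_const_nhds.congr' ?_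
      filter_upwards [eventually_ge_atTop (Nat.ceil ((W γ) ^ 2))] with k hk
      rw [min_eq_right (Nat.ceil_le.1 hk)]
    calc ∫⁻ γ, ENNReal.ofReal ((W γ) ^ 2) ∂μ =
          ∫⁻ γ, liminf (fun k : ℕ => ENNReal.ofReal (min (k : ℝ) ((W γ) ^ 2))) atTop ∂μ :=
          lintegral_congr h1
      _ ≤ liminf (fun k : ℕ => ∫⁻ γ, ENNReal.ofReal (min (k : ℝ) ((W γ) ^ 2)) ∂μ) atTop := by
          refine lintegral_liminf_le' fun k => ?_
          exact (((aestronglyMeasurable_const.inf (hm.pow 2))).aemeasurable).ennreal_ofReal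
      _ ≤ ENNReal.ofReal C := by
          refine liminf_le_of_le (by isBoundedDefault) fun b hb => ?_
          obtain ⟨k, hk⟩ := hb.exists
          refine hk.trans ?_
          rw [← ofReal_integral_eq_lintegral_ofReal]
          · exact ENNReal.ofReal_le_ofReal (hV k)
          · refine Integrable.of_bound (aestronglyMeasurable_const.inf (hm.pow 2)) k
              (ae_of_all _ fun γ => ?_)
            rw [Real.norm_eq_abs, abs_of_nonneg (le_min (Nat.cast_nonneg _) (sq_nonneg _))]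
            exact min_le_left _ _
          · exact ae_of_all _ fun γ => le_min (Nat.cast_nonneg _) (sq_nonneg _)
  have hi : Integrable (fun γ => (W γ) ^ 2) μ := by
    refine ⟨hm.pow 2, ?_⟩
    rw [hasFiniteIntegral_iff_ofReal (ae_of_all _ fun γ => sq_nonneg _)]
    exact hlin.trans_lt ENNReal.ofReal_lt_top
  refine ⟨hm, hi, ?_⟩
  rw [← ofReal_integral_eq_lintegral_ofReal hi (ae_of_all _ fun γ => sq_nonneg _)] at hlin
  exact (ENNReal.ofReal_le_ofReal_iff hC0).1 hlin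

/-- uniformly square integrable functionals -/
theorem loc_unif (hμ : Lim μ) (hH : ∀ᵐ γ ∂μ, γ ∈ Hs) {r : ℕ} {W : X → ℝ} (hW : Loc r W) {C : ℝ}
    (hC : ∀ n, Mn n (fun γ => (W γ) ^ 2) ≤ C) :
    Integrable W μ ∧ ∀ F : BoundedContinuousFunction X ℝ,
      Tendsto (fun n => Mn n (fun γ => W γ * F γ)) atTop (𝓝 (∫ γ, W γ * F γ ∂μ)) := by
  have := hμ.1
  obtain ⟨hm, hi2, hI⟩ := sq_int hμ hH hW hC
  have hC0 : 0 ≤ C := (integral_nonneg fun γ => sq_nonneg _).trans hI
  have hi : Integrable W μ := by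
    refine ((integrable_const (1 : ℝ)).add hi2).mono' hm (ae_of_all _ fun γ => ?_)
    rw [Real.norm_eq_abs]
    simp only [Pi.add_apply]
    nlinarith [sq_abs (W γ), sq_nonneg (|W γ| - 1), abs_nonneg (W γ)]
  refine ⟨hi, fun F => ?_⟩
  have hF0 : 0 ≤ ‖F‖ := norm_nonneg _
  rw [Metric.tendsto_atTop]
  intro ε hε
  obtain ⟨B, hB, hBe⟩ : ∃ B : ℝ, 0 < B ∧ ‖F‖ * C / B < ε / 4 := by
    refine ⟨4 * (‖F‖ * C + 1) / ε + 1, by positivity, ?_⟩
    rw [div_lt_iff₀ (by positivity)]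
    have : ε / 4 * (4 * (‖F‖ * C + 1) / ε + 1) = ‖F‖ * C + 1 + ε / 4 := by
      field_simp
    rw [this]
    linarith
  have hl := (loc_bdd hμ hH r (cut B W) (hW.comp fun x => max (-B) (min B x)) B
    (cut_abs hB.le W)).2 F
  have hmc : AEStronglyMeasurable (cut B W) μ := (loc_bdd hμ hH r (cut B W)
    (hW.comp fun x => max (-B) (min B x)) B (cut_abs hB.le W)).1
  obtain ⟨N, hN⟩ := (Metric.tendsto_atTop.1 hl) (ε / 4) (by linarith)
  have hpt : ∀ γ, |W γ * F γ - cut B W γ * F γ| ≤ ‖F‖ / B * (W γ) ^ 2 := by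
    intro γ
    rw [← sub_mul, abs_mul]
    calc |W γ - cut B W γ| * |F γ| ≤ ((W γ) ^ 2 / B) * ‖F‖ :=
          mul_le_mul (cut_sub hB W γ) (F.norm_coe_le_norm γ) (abs_nonneg _) (by positivity)
      _ = ‖F‖ / B * (W γ) ^ 2 := by ring
  have h1 : ∀ n, |Mn n (fun γ => W γ * F γ) - Mn n (fun γ => cut B W γ * F γ)| ≤
      ‖F‖ * C / B := by
    intro n
    rw [← Mn_sub]
    refine (abs_Mn _ _).trans ((Mn_mono hpt).trans ?_)
    rw [Mn_const_mul]
    calc ‖F‖ / B * Mn n (fun γ => (W γ) ^ 2) ≤ ‖F‖ / B * C :=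
          mul_le_mul_of_nonneg_left (hC n) (by positivity)
      _ = ‖F‖ * C / B := by ring
  have iF : Integrable (fun γ => W γ * F γ) μ := by
    refine (hi.norm.const_mul ‖F‖).mono' (hm.mul F.continuous.aestronglyMeasurable)
      (ae_of_all _ fun γ => ?_)
    rw [norm_mul, mul_comm]
    exact mul_le_mul_of_nonneg_right (F.norm_coe_le_norm γ) (norm_nonneg _)
  have iG : Integrable (fun γ => cut B W γ * F γ) μ := by
    refine Integrable.of_bound (hmc.mul F.continuous.aestronglyMeasurable) (B * ‖F‖)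
      (ae_of_all _ fun γ => ?_)
    rw [norm_mul]
    exact mul_le_mul (cut_abs hB.le W γ) (F.norm_coe_le_norm γ) (norm_nonneg _) hB.le
  have h2 : |∫ γ, W γ * F γ ∂μ - ∫ γ, cut B W γ * F γ ∂μ| ≤ ‖F‖ * C / B := by
    rw [← integral_sub iF iG]
    refine (abs_integral_le_integral_abs).trans ?_
    calc ∫ γ, |W γ * F γ - cut B W γ * F γ| ∂μ ≤ ∫ γ, ‖F‖ / B * (W γ) ^ 2 ∂μ :=
          integral_mono (iF.sub iG).abs (hi2.const_mul _) hpt
      _ = ‖F‖ / B * ∫ γ, (W γ) ^ 2 ∂μ := integral_const_mul _ _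
      _ ≤ ‖F‖ / B * C := mul_le_mul_of_nonneg_left hI (by positivity)
      _ = ‖F‖ * C / B := by ring
  refine ⟨N, fun n hn => ?_⟩
  have h3 := hN n hn
  rw [Real.dist_eq] at h3 ⊢
  have h4 := h1 n
  rw [abs_lt] at h3 ⊢
  rw [abs_le] at h2 h4
  constructor <;> linarith [h2.1, h2.2, h3.1, h3.2, h4.1, h4.2]

end H982.HP
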