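import Pool.Agent.H982.HP7
import Pool.Agent.H982.EX7

/-!
# The exponential moment of the number of visits, positivity and the sets of walks
-/

set_option autoImplicit false
set_option linter.unusedSectionVars false

namespace H982.HP

open Finset Filter Topology MeasureTheory
open TH966.AK (P Kw lst)
open Pool.Agent.H976R3 Pool.Agent.R965.HP
open Pool.Agent.N941.SP (ps ps_re ps_im ps_inj Z2)
open H982.EX (V Hf mem_Hf mem_S near la)

variable {μ : Measure X}

/-- the sites as functions -/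
def vv (p : P) : V 2 := ![p.1, p.2]

/-- the sites as pairs -/
def uu (v : V 2) : P := (v 0, v 1)

lemma uu_vv (p : P) : uu (vv p) = p := by simp [uu, vv]

lemma vv_uu (v : V 2) : vv (uu v) = v := by
  funext i
  fin_cases i <;> simp [uu, vv]

lemma adj_iff2 (x y : V 2) : H982.EX.Adj x y ↔ Sq.A (uu x) (uu y) := by
  rw [Sq.A_iff]
  unfold H982.EX.Adj uu
  rw [Fin.sum_univ_two]
  constructor
  · intro h
    rcases abs_cases (y 0 - x 0) with h1 | h1 <;> rcases abs_cases (y 1 - x 1) with h2 | h2 <;>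
      omega
  · intro h
    rcases abs_cases (y 0 - x 0) with h1 | h1 <;> rcases abs_cases (y 1 - x 1) with h2 | h2 <;>
      omega

lemma map_mem {n : ℕ} {w : List P} : w.map vv ∈ Hf (d := 2) 0 0 n ↔ w ∈ Kc n := by
  rw [mem_Hf, mem_S, mem_Kc, List.length_map, List.isChain_map]
  have hinj : Function.Injective vv := fun p q h => by rw [← uu_vv p, h, uu_vv]
  have e1 : (w.map vv).head? = some 0 ↔ w.head? = some 0 := by
    rw [List.head?_map]
    cases w.head? with
    | none => simp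
    | some p =>
      simp only [Option.map_some, Option.some.injEq]
      constructor
      · intro h
        rw [← uu_vv p, h]
        rfl
      · intro h
        rw [h]
        funext i
        fin_cases i <;> rfl
  have e2 : w.IsChain (fun a b => H982.EX.Adj (vv a) (vv b)) ↔ w.IsChain Sq.A := by
    constructor
    · intro h
      refine h.imp fun a b hab => ?_
      rw [adj_iff2, uu_vv, uu_vv] at hab
      exact hab
    · intro h
      refine h.imp fun a b hab => ?_
      rw [adj_iff2, uu_vv, uu_vv]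
      exact hab
  have e3 : (w.map vv).Nodup ↔ w.Nodup := List.nodup_map_iff hinj
  have e4 : H982.EX.Ab (d := 2) 0 0 (w.map vv) ↔ ∀ x ∈ w, 0 ≤ x.1 := by
    unfold H982.EX.Ab
    constructor
    · intro h x hx
      exact h (vv x) (List.mem_map_of_mem hx)
    · intro h x hx
      obtain ⟨y, hy, rfl⟩ := List.mem_map.1 hx
      exact h y hy
  rw [e1, e2, e3, e4]
  tauto

lemma map_image (n : ℕ) : (Kc n).image (fun w => w.map vv) = Hf (d := 2) 0 0 n := by
  classical
  ext L
  rw [Finset.mem_image]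
  constructor
  · rintro ⟨w, hw, rfl⟩
    exact map_mem.2 hw
  · intro h
    refine ⟨L.map uu, ?_, ?_⟩
    · rw [← map_mem, List.map_map]
      have : vv ∘ uu = id := funext vv_uu
      rw [this, List.map_id]
      exact h
    · rw [List.map_map]
      have : vv ∘ uu = id := funext vv_uu
      rw [this, List.map_id]

lemma map_injOn : Function.Injective (fun w : List P => w.map vv) :=
  List.map_injective_iff.2 fun p q h => by rw [← uu_vv p, h, uu_vv]

/-- the exponential moment -/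
theorem moment_Kc (r n : ℕ) : ∑ w ∈ Kc n, la 2 r ^ near (d := 2) 0 0 r (w.map vv) ≤
    (la 2 r ^ H982.EX.KK 2 r * (2 * (4 * 2 + 1))) * hC n := by
  classical
  have h := H982.EX.moment_of (d := 2) 0 r (Hf (d := 2) 0 0 n) (fun _ => 0) (2 * (4 * 2 + 1))
    (fun L hL => ⟨(mem_S.mp (mem_Hf.mp hL).1).2.2.1, (mem_S.mp (mem_Hf.mp hL).1).2.2.2,
      (mem_Hf.mp hL).2⟩)
    (fun p hp => by
      have := H982.EX.half_moment (d := 2) 0 r p n hp
      exact_mod_cast this)
  rw [← map_image, Finset.sum_image (map_injOn.injOn),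
    Finset.card_image_of_injective _ map_injOn] at h
  exact h

open Pool.Agent.H976R3.HPL (PW)

lemma range_PS {n : ℕ} {w : List P} (hw : w ∈ Kc n) : Set.range (PS w) = ps '' {x | x ∈ w} := by
  have hne := Kc_ne hw
  ext z
  constructor
  · rintro ⟨i, rfl⟩
    exact ⟨pth w i, pth_mem hne i, rfl⟩
  · rintro ⟨x, hx, rfl⟩
    obtain ⟨i, hi, rfl⟩ := List.getElem_of_mem hx
    refine ⟨i, ?_⟩
    unfold PS
    rw [pth_lt hi]

/-- the number of visited sites with height at most `r` -/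
noncomputable def vis (r : ℕ) (γ : ℕ → ℂ) : ℕ := (Set.range γ ∩ {z : ℂ | z.im ≤ r}).ncard

lemma vis_PS (r : ℕ) {n : ℕ} {w : List P} (hw : w ∈ Kc n) :
    vis r (PS w) = near (d := 2) 0 0 r (w.map vv) := by
  classical
  unfold vis near
  rw [range_PS hw]
  have e1 : ps '' {x | x ∈ w} ∩ {z : ℂ | z.im ≤ r} =
      ps '' ((w.toFinset.filter (fun x : P => x.1 ≤ r) : Finset P) : Set P) := by
    ext z
    constructor
    · rintro ⟨⟨x, hx, rfl⟩, hz⟩
      refine ⟨x, ?_, rfl⟩
      rw [Finset.mem_coe, Finset.mem_filter, List.mem_toFinset]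
      refine ⟨hx, ?_⟩
      have hz : (ps x).im ≤ r := hz
      rw [ps_im] at hz
      exact_mod_cast hz
    · rintro ⟨x, hx, rfl⟩
      rw [Finset.mem_coe, Finset.mem_filter, List.mem_toFinset] at hx
      refine ⟨⟨x, hx.1, rfl⟩, ?_⟩
      show (ps x).im ≤ r
      rw [ps_im]
      exact_mod_cast hx.2
  rw [e1, Set.ncard_image_of_injective _ ps_inj, Set.ncard_coe_finset]
  have e2 : (w.map vv).toFinset.filter (fun x => x 0 ≤ 0 + (r : ℤ)) =
      (w.toFinset.filter (fun x : P => x.1 ≤ r)).image vv := by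
    ext v
    simp only [Finset.mem_filter, List.mem_toFinset, List.mem_map, Finset.mem_image, zero_add]
    constructor
    · rintro ⟨⟨x, hx, rfl⟩, h⟩
      exact ⟨x, ⟨hx, h⟩, rfl⟩
    · rintro ⟨x, ⟨hx, h⟩, rfl⟩
      exact ⟨⟨x, hx, rfl⟩, h⟩
  rw [e2, Finset.card_image_of_injective _ (fun p q h => by rw [← uu_vv p, h, uu_vv])]

lemma PW_PS (n : ℕ) : PW Z2 1 n = PS '' (Kc n : Set (List P)) := by
  rw [Pool.Agent.N941.SP.PW_eq, ← pth_image Sq.rule (show Hc 0 from le_rfl), Set.image_image]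
  rfl

lemma PS_injOn (n : ℕ) : Set.InjOn PS (Kc n : Set (List P)) := by
  intro w hw w' hw' h
  refine pth_injOn Sq.rule n hw hw' ?_
  funext i
  exact ps_inj (congrFun h i)

lemma PW_ncard (n : ℕ) : ((PW Z2 1 n).ncard : ℝ) = hC n := by
  rw [PW_PS, (PS_injOn n).ncard_image, Set.ncard_coe_finset]
  rfl

lemma PW_sum (n : ℕ) (F : X → ℝ) : ∑ᶠ γ ∈ PW Z2 1 n, F γ = ∑ w ∈ Kc n, F (PS w) := by
  rw [PW_PS, finsum_mem_image (PS_injOn n), finsum_mem_coe_finset]

lemma Mn_eq (n : ℕ) (F : X → ℝ) : (∑ᶠ γ ∈ PW Z2 1 n, F γ) / ((PW Z2 1 n).ncard : ℝ) = Mn n F := by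
  rw [PW_sum, PW_ncard]
  rfl

/-- second moments -/
lemma moment_W {r : ℕ} {W : X → ℝ} {C : ℝ} (hC0 : 0 ≤ C)
    (h : ∀ n, ∀ γ ∈ PW Z2 1 n, (W γ) ^ 2 ≤ C * la 2 r ^ vis r γ) (n : ℕ) :
    Mn n (fun γ => (W γ) ^ 2) ≤ C * (la 2 r ^ H982.EX.KK 2 r * (2 * (4 * 2 + 1))) := by
  have hpos := hC_pos n
  unfold Mn
  rw [div_le_iff₀ hpos]
  have h1 : ∑ w ∈ Kc n, (W (PS w)) ^ 2 ≤
      ∑ w ∈ Kc n, C * la 2 r ^ near (d := 2) 0 0 r (w.map vv) := by
    refine Finset.sum_le_sum fun w hw => ?_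
    rw [← vis_PS r hw]
    exact h n _ (by rw [PW_PS]; exact ⟨w, hw, rfl⟩)
  refine h1.trans ?_
  rw [← Finset.mul_sum, mul_assoc]
  exact mul_le_mul_of_nonneg_left (moment_Kc r n) hC0

end H982.HP
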