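import Pool.Graph.R_pool_sql_team_seeded_3997aac3.Q294.Ni4

set_option autoImplicit false

/-! Two disjoint walks on the honeycomb lattice which climb keep their order (parity argument). -/

namespace Pool.Agent.H982.TW

open H978R2.Hex (V Adj adj_iff)

/-- the level -/
def lev (v : V) : ℤ := v.1 - v.2

/-- edge above the level of `v`, to the right of `v` -/
def eu (v p q : V) : ZMod 2 :=
  if (lev p = lev v ∧ lev q = lev v + 1 ∧ v.2 < p.2) ∨
    (lev q = lev v ∧ lev p = lev v + 1 ∧ v.2 < q.2) then 1 else 0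

/-- edge below the level of `v`, to the right of `v` -/
def ed (v p q : V) : ZMod 2 :=
  if (lev p = lev v ∧ lev q = lev v - 1 ∧ v.2 < p.2) ∨
    (lev q = lev v ∧ lev p = lev v - 1 ∧ v.2 < q.2) then 1 else 0

/-- vertex at the level of `v`, to the right of `v` -/
def sv (v p : V) : ZMod 2 := if lev p = lev v ∧ v.2 < p.2 then 1 else 0

def up (v : V) : List V → ZMod 2
  | p :: q :: t => eu v p q + up v (q :: t)
  | _ => 0

def dn (v : V) : List V → ZMod 2
  | p :: q :: t => ed v p q + dn v (q :: t)
  | _ => 0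

theorem e_sum {v p q : V} (h : Adj p q) : eu v p q + ed v p q = sv v p + sv v q := by
  rw [adj_iff] at h
  unfold eu ed sv lev
  split_ifs <;> first | rfl | decide | (exfalso; omega)

theorem updn (v : V) : ∀ (P : List V) (h : P ≠ []), P.IsChain Adj →
    up v P + dn v P = sv v (P.head h) + sv v (P.getLast h)
  | [], h, _ => absurd rfl h
  | [a], _, _ => by
    simp only [up, dn, List.head_cons, List.getLast_singleton]
    have : ∀ x : ZMod 2, 0 + 0 = x + x := by decide
    exact this _
  | p :: q :: t, h, hc => by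
    have h1 := List.isChain_cons_cons.1 hc
    have ih := updn v (q :: t) (by simp) h1.2
    have h2 := e_sum (v := v) h1.1
    simp only [up, dn, List.head_cons] at ih ⊢
    rw [List.getLast_cons (by simp)]
    have key : ∀ a b c d x y z : ZMod 2, a + c = x + y → b + d = y + z →
        a + b + (c + d) = x + z := by decide
    exact key _ _ _ _ _ _ _ h2 ih

theorem step_edge {v v' p q : V} (hv : Adj v v') (hl : lev v' = lev v + 1) (h : Adj p q)
    (h1 : p ≠ v) (h2 : q ≠ v) (h3 : p ≠ v') (h4 : q ≠ v') : eu v p q = ed v' p q := by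
  obtain ⟨v1, v2⟩ := v
  obtain ⟨w1, w2⟩ := v'
  obtain ⟨p1, p2⟩ := p
  obtain ⟨q1, q2⟩ := q
  rw [adj_iff] at hv h
  simp only [ne_eq, Prod.mk.injEq] at h1 h2 h3 h4
  unfold eu ed
  unfold lev at *
  simp only at *
  split_ifs <;> first | rfl | decide | (exfalso; omega)

theorem up_eq_dn {v v' : V} (hv : Adj v v') (hl : lev v' = lev v + 1) : ∀ {P : List V},
    P.IsChain Adj → v ∉ P → v' ∉ P → up v P = dn v' P
  | [], _, _, _ => rfl
  | [a], _, _, _ => rfl
  | p :: q :: t, hc, h1, h2 => by
    have h3 := List.isChain_cons_cons.1 hc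
    simp only [List.mem_cons, not_or] at h1 h2
    simp only [up, dn]
    rw [up_eq_dn hv hl h3.2 (by simp only [List.mem_cons, not_or]; exact h1.2)
      (by simp only [List.mem_cons, not_or]; exact h2.2),
      step_edge hv hl h3.1 (Ne.symm h1.1) (Ne.symm h1.2.1) (Ne.symm h2.1) (Ne.symm h2.2.1)]

theorem step_edge' {p q : V} (h : Adj p q) (h3 : p ≠ (2, 0)) (h4 : q ≠ (2, 0)) :
    eu (1, 0) p q = ed (2, 0) p q := by
  obtain ⟨p1, p2⟩ := p
  obtain ⟨q1, q2⟩ := q
  rw [adj_iff] at h
  simp only [ne_eq, Prod.mk.injEq] at h3 h4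
  unfold eu ed
  unfold lev at *
  simp only at *
  split_ifs <;> first | rfl | decide | (exfalso; omega)

theorem up_eq_dn' : ∀ {P : List V}, P.IsChain Adj → ((2, 0) : V) ∉ P →
    up (1, 0) P = dn (2, 0) P
  | [], _, _ => rfl
  | [a], _, _ => rfl
  | p :: q :: t, hc, h2 => by
    have h3 := List.isChain_cons_cons.1 hc
    simp only [List.mem_cons, not_or] at h2
    simp only [up, dn]
    rw [up_eq_dn' h3.2 (by simp only [List.mem_cons, not_or]; exact h2.2),
      step_edge' h3.1 (Ne.symm h2.1) (Ne.symm h2.2.1)]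

theorem up_zero {v : V} : ∀ {P : List V}, (∀ w ∈ P, lev w ≤ lev v) → up v P = 0
  | [], _ => rfl
  | [a], _ => rfl
  | p :: q :: t, h => by
    simp only [up]
    rw [up_zero (P := q :: t) (fun w hw => h w (List.mem_cons_of_mem _ hw)), add_zero]
    have h1 := h p (by simp)
    have h2 := h q (by simp)
    unfold eu
    rw [if_neg (by omega)]

theorem dn_zero {v : V} : ∀ {P : List V}, (∀ w ∈ P, lev v ≤ lev w) → dn v P = 0
  | [], _ => rfl
  | [a], _ => rfl
  | p :: q :: t, h => by
    simp only [dn]
    rw [dn_zero (P := q :: t) (fun w hw => h w (List.mem_cons_of_mem _ hw)), add_zero]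
    have h1 := h p (by simp)
    have h2 := h q (by simp)
    unfold ed
    rw [if_neg (by omega)]

theorem sv_zero {v p : V} (h : lev p ≠ lev v) : sv v p = 0 := by
  unfold sv
  rw [if_neg (fun h1 => h h1.1)]

/-- the parity along the second walk -/
theorem along {N : ℤ} {P : List V} (hP : P.IsChain Adj) (hne : P ≠ [])
    (h1 : lev (P.head hne) = 1) (hN : lev (P.getLast hne) = N) (hle : ∀ w ∈ P, lev w ≤ N) :
    ∀ {Q : List V} (hQ : Q ≠ []), Q.IsChain Adj → (∀ w ∈ Q, 1 ≤ lev w) →
      (∀ w ∈ Q.dropLast, lev w < N) → lev (Q.getLast hQ) = N → 2 ≤ N → Q.length ≠ 1 →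
      (∀ w ∈ Q, w ∉ P) → up (Q.head hQ) P = sv (Q.getLast hQ) (P.getLast hne)
  | [], hQ, _, _, _, _, _, _, _ => absurd rfl hQ
  | [a], _, _, _, _, _, _, h, _ => absurd rfl h
  | [v, w], hQ, hc, hlow, hlt, hlast, hN2, _, hdis => by
    have h3 := List.isChain_cons_cons.1 hc
    have hv : v ∉ P := hdis v (by simp)
    have hw : w ∉ P := hdis w (by simp)
    have hvN : lev v < N := hlt v (by simp)
    have hadj := h3.1
    have hlev : lev w = lev v + 1 ∨ lev w = lev v - 1 := by
      rw [adj_iff] at hadj
      unfold lev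
      omega
    simp only [List.getLast_cons_cons, List.getLast_singleton] at hlast
    simp only [List.head_cons, List.getLast_cons_cons, List.getLast_singleton]
    have hl : lev w = lev v + 1 := by omega
    have e1 := up_eq_dn hadj hl hP hv hw
    have e2 := updn w P hne hP
    rw [up_zero (v := w) (P := P) (fun x hx => by have := hle x hx; omega), zero_add,
      sv_zero (p := P.head hne) (by omega), zero_add] at e2
    rw [e1, e2]
  | v :: w :: x :: s, hQ, hc, hlow, hlt, hlast, hN2, _, hdis => by
    have h3 := List.isChain_cons_cons.1 hc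
    have hv : v ∉ P := hdis v (by simp)
    have hw : w ∉ P := hdis w (by simp)
    have hvlow := hlow v (by simp)
    have hwlow := hlow w (by simp)
    have hvN : lev v < N := hlt v (by simp)
    have hadj := h3.1
    have hlev : lev w = lev v + 1 ∨ lev w = lev v - 1 := by
      rw [adj_iff] at hadj
      unfold lev
      omega
    have ih := along hP hne h1 hN hle (Q := w :: x :: s) (by simp) h3.2
      (fun y hy => hlow y (List.mem_cons_of_mem _ hy))
      (fun y hy => hlt y (by
        rw [List.dropLast_cons_of_ne_nil (by simp)]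
        exact List.mem_cons_of_mem _ hy)) (by simpa using hlast) hN2 (by simp)
      (fun y hy => hdis y (List.mem_cons_of_mem _ hy))
    have hwN : lev w < N := hlt w (by
      rw [List.dropLast_cons_of_ne_nil (by simp), List.dropLast_cons_of_ne_nil (by simp)]
      simp)
    simp only [List.head_cons] at ih ⊢
    rw [List.getLast_cons (by simp)]
    rw [← ih]
    rcases hlev with hl | hl
    · have e1 := up_eq_dn hadj hl hP hv hw
      have e2 := updn w P hne hP
      rw [sv_zero (p := P.head hne) (by omega), sv_zero (p := P.getLast hne) (by omega),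
        add_zero] at e2
      have key : ∀ a b : ZMod 2, a + b = 0 → b = a := by decide
      rw [e1, key _ _ e2]
    · have hadj' : Adj w v := by
        rw [adj_iff] at hadj ⊢
        omega
      have e1 := up_eq_dn hadj' (by omega) hP hw hv
      have e2 := updn v P hne hP
      rw [sv_zero (p := P.head hne) (by omega), sv_zero (p := P.getLast hne) (by omega),
        add_zero] at e2
      have key : ∀ a b : ZMod 2, a + b = 0 → a = b := by decide
      rw [e1, key _ _ e2]

/-- **order lemma** -/
theorem order {N : ℤ} {P Q : List V} (hN2 : 2 ≤ N) (hP : P.IsChain Adj) (hne : P ≠ [])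
    (h1 : lev (P.head hne) = 1) (hN : lev (P.getLast hne) = N) (hle : ∀ w ∈ P, lev w ≤ N)
    (hQ : Q ≠ []) (hc : Q.IsChain Adj) (hlow : ∀ w ∈ Q, 1 ≤ lev w)
    (hlt : ∀ w ∈ Q.dropLast, lev w < N) (hlast : lev (Q.getLast hQ) = N) (hlen : Q.length ≠ 1)
    (hdis : ∀ w ∈ Q, w ∉ P) (hup : up (Q.head hQ) P = 0) :
    (P.getLast hne).2 < (Q.getLast hQ).2 := by
  have h := along hP hne h1 hN hle hQ hc hlow hlt hlast hN2 hlen hdis
  rw [hup] at h
  have h2 : ¬ ((Q.getLast hQ).2 < (P.getLast hne).2) := by
    intro h3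
    unfold sv at h
    rw [if_pos ⟨by omega, h3⟩] at h
    exact absurd h (by decide)
  have h3 : (P.getLast hne).2 ≠ (Q.getLast hQ).2 := by
    intro h4
    apply hdis (Q.getLast hQ) (List.getLast_mem hQ)
    have : Q.getLast hQ = P.getLast hne := by
      unfold lev at hN hlast
      apply Prod.ext <;> omega
    rw [this]
    exact List.getLast_mem hne
  omega

/-- parity at the start, walks from the same vertex -/
theorem up_start {N : ℤ} {P : List V} (hN2 : 3 ≤ N) (hP : P.IsChain Adj) (hne : P ≠ [])
    (h1 : P.head hne = (1, 0)) (hN : lev (P.getLast hne) = N) (hlow : ∀ w ∈ P, 1 ≤ lev w)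
    (h2 : ((2, 0) : V) ∉ P) : up (2, 0) P = 0 := by
  have e1 := updn (2, 0) P hne hP
  have e2 := updn (1, 0) P hne hP
  have e3 := up_eq_dn' hP h2
  have l1 : lev (1, 0) = 1 := rfl
  have l2 : lev (2, 0) = 2 := rfl
  rw [sv_zero (p := P.head hne) (by rw [h1, l1, l2]; norm_num),
    sv_zero (p := P.getLast hne) (by rw [hN, l2]; omega), add_zero] at e1
  rw [dn_zero (v := (1, 0)) (P := P) (fun w hw => by rw [l1]; exact hlow w hw), add_zero,
    sv_zero (p := P.getLast hne) (by rw [hN, l1]; omega), add_zero] at e2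
  have e4 : sv (1, 0) (P.head hne) = 0 := by
    rw [h1]
    unfold sv
    simp
  rw [e4] at e2
  rw [← e3, e2] at e1
  have key : ∀ a : ZMod 2, a + 0 = 0 → a = 0 := by decide
  exact key _ e1

/-- parity at the start, second walk from a boundary vertex to the right -/
theorem up_start' {N j : ℤ} {P : List V} (hN2 : 2 ≤ N) (hj : 0 ≤ j) (hP : P.IsChain Adj)
    (hne : P ≠ []) (h1 : P.head hne = (1, 0)) (hN : lev (P.getLast hne) = N)
    (hlow : ∀ w ∈ P, 1 ≤ lev w) : up (1 + j, j) P = 0 := by
  have e2 := updn (1 + j, j) P hne hP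
  have l1 : lev (1 + j, j) = 1 := by unfold lev; simp
  rw [dn_zero (v := (1 + j, j)) (P := P) (fun w hw => by rw [l1]; exact hlow w hw), add_zero,
    sv_zero (p := P.getLast hne) (by rw [hN, l1]; omega), add_zero] at e2
  have e4 : sv (1 + j, j) (P.head hne) = 0 := by
    rw [h1]
    unfold sv
    rw [if_neg]
    rintro ⟨-, h⟩
    simp only at h
    omega
  rw [e4] at e2
  exact e2

end Pool.Agent.H982.TW
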