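import Pool.Agent.H982.TW9

set_option autoImplicit false

/-! Infinite half-plane walks and uniform half-plane walks. -/

namespace Pool.Agent.H982.TW

open H978R2.Hex (V Adj adj_iff)
open Pool.Agent.W818.TD
open Pool.Agent.H976R3.HPL (CW hexA mem_CW cc)
open Q294.Sl (A p vv1 A_eq p_nonneg p_lim CW_pos take_mem prefix_eq long_prefix A_ne_top)
open Filter Topology
open scoped ENNReal

/-- a relation of paths which implies one of two relations of bridges -/
structure Imp (Q R1 R2 : List V → List V → Prop) : Prop where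
  imp : ∀ β β' ζ ζ' : List V, EBr β → EBr β' → 2 ≤ hl β → 2 ≤ hl β' → β.tail <+: ζ →
    β'.tail <+: ζ' → Q ζ ζ' → R1 β β' ∨ R2 β' β

theorem M_A_eq (k : ℕ) (η : List V) : M (A k η) = E (2 * (k : ℤ)) (fun β => ind (η <+: β.tail)) := by
  unfold E
  rw [M_ind]
  refine tsum_congr fun β => ?_
  by_cases h : Fst (2 * (k : ℤ)) β
  · by_cases h2 : η <+: β.tail
    · simp only
      rw [Set.indicator_of_mem (show β ∈ A k η from ⟨h, h2⟩), w_pos h, ind_pos h2, mul_one]
    · simp only
      rw [Set.indicator_of_notMem (show β ∉ A k η from fun h3 => h2 h3.2), ind_neg h2, mul_zero]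
  · rw [Set.indicator_of_notMem (show β ∉ A k η from fun h3 => h h3.1), w_neg h, zero_mul]

theorem ofReal_p {k : ℕ} {η : List V} (hη : η ∈ CW hexA k (vv 1)) :
    ENNReal.ofReal (p η) = E (2 * (k : ℤ)) (fun β => ind (η <+: β.tail)) := by
  rw [← A_eq hη, ENNReal.ofReal_toReal (A_ne_top η subset_rfl), M_A_eq]

/-- the sum over the pairs with the relation -/
noncomputable def PP (Q : List V → List V → Prop) (k : ℕ) : ℝ≥0∞ :=
  ∑ η ∈ CW hexA k (vv 1), ∑ η' ∈ CW hexA k (vv 1), ENNReal.ofReal (p η) * ENNReal.ofReal (p η') * ind (Q η η')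

theorem PP_le (Q : List V → List V → Prop) {k : ℕ} : PP Q k ≤
    E (2 * (k : ℤ)) (fun β' => E (2 * (k : ℤ)) (fun β =>
      ind (Q (β.tail.take (k + 1)) (β'.tail.take (k + 1))))) := by
  classical
  have h1 : PP Q k = ∑ η ∈ CW hexA k (vv 1), ∑ η' ∈ CW hexA k (vv 1), E (2 * (k : ℤ)) (fun β' => E (2 * (k : ℤ))
      (fun β => ind (η <+: β.tail) * ind (η' <+: β'.tail) * ind (Q η η'))) := by
    unfold PP
    refine Finset.sum_congr rfl fun η hη => Finset.sum_congr rfl fun η' hη' => ?_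
    rw [ofReal_p hη, ofReal_p hη']
    have e1 : ∀ β' : List V, E (2 * (k : ℤ)) (fun β => ind (η <+: β.tail) *
        ind (η' <+: β'.tail) * ind (Q η η')) = (ind (Q η η') *
          E (2 * (k : ℤ)) (fun β => ind (η <+: β.tail))) * ind (η' <+: β'.tail) := by
      intro β'
      have e2 : (fun β : List V => ind (η <+: β.tail) * ind (η' <+: β'.tail) * ind (Q η η')) =
          fun β => (ind (Q η η') * ind (η' <+: β'.tail)) * ind (η <+: β.tail) := by
        funext β
        ring
      rw [e2, E_mul]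
      ring
    simp only [e1]
    rw [E_mul]
    ring
  rw [h1]
  simp only [E_sum]
  refine E_mono fun β' hβ' => E_mono fun β hβ => ?_
  have hlp : ∀ γ : List V, Fst (2 * (k : ℤ)) γ → ∀ η ∈ CW hexA k (vv 1), η <+: γ.tail →
      η = γ.tail.take (k + 1) := by
    intro γ hγ η hη h2
    rw [List.prefix_iff_eq_take, (mem_CW.1 hη).1] at h2
    exact h2
  have h2 : ∀ η ∈ CW hexA k (vv 1), ∀ η' ∈ CW hexA k (vv 1), ind (η <+: β.tail) * ind (η' <+: β'.tail) * ind (Q η η') ≤
      (if η = β.tail.take (k + 1) then (if η' = β'.tail.take (k + 1) then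
        ind (Q (β.tail.take (k + 1)) (β'.tail.take (k + 1))) else 0) else 0) := by
    intro η hη η' hη'
    by_cases c1 : η <+: β.tail
    · by_cases c2 : η' <+: β'.tail
      · have e1 := hlp β hβ η hη c1
        have e2 := hlp β' hβ' η' hη' c2
        rw [if_pos e1, if_pos e2, ind_pos c1, ind_pos c2, one_mul, one_mul, ← e1, ← e2]
      · rw [ind_neg c2, mul_zero, zero_mul]
        exact zero_le
    · rw [ind_neg c1, zero_mul, zero_mul]
      exact zero_le
  refine (Finset.sum_le_sum fun η hη => Finset.sum_le_sum fun η' hη' => h2 η hη η' hη').trans ?_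
  refine (Finset.sum_le_sum (g := fun η => if η = β.tail.take (k + 1) then
    ind (Q (β.tail.take (k + 1)) (β'.tail.take (k + 1))) else 0) fun η _ => ?_).trans ?_
  · split_ifs with h3
    · rw [Finset.sum_ite_eq']
      split_ifs
      · exact le_rfl
      · exact zero_le
    · simp
  · rw [Finset.sum_ite_eq']
    split_ifs
    · exact le_rfl
    · exact zero_le

/-- **the limit for the infinite walks** -/
theorem PP_lim {Q R1 R2 : List V → List V → Prop} {c1 c2 : ℤ} (hQ : Imp Q R1 R2)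
    (h1 : Rel R1 c1) (h2 : Rel R2 c2) {ε : ℝ} (hε : 0 < ε) :
    ∃ K : ℕ, ∀ k, K ≤ k → PP Q k ≤ ENNReal.ofReal ε := by
  classical
  obtain ⟨δ, hδ, hδ4⟩ : ∃ δ : ℝ, 0 < δ ∧ 4 * δ = ε := ⟨ε / 4, by positivity, by ring⟩
  obtain ⟨n1, hn1⟩ := PR_lim h1 hδ
  obtain ⟨n2, hn2⟩ := PR_lim h2 hδ
  obtain ⟨h, hh1, hh2⟩ : ∃ h : ℕ, n1 ≤ h ∧ n2 ≤ h := ⟨n1 + n2, by omega, by omega⟩
  obtain ⟨s, hs⟩ := tail_small (H := 2 * (h : ℤ)) (by positivity) (ε := ENNReal.ofReal δ) (by
    rw [ENNReal.ofReal_ne_zero_iff]; exact hδ)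
  obtain ⟨K0, hK0⟩ : ∃ K0 : ℕ, ∀ β ∈ s, β.length ≤ K0 :=
    ⟨s.sup List.length, fun β hβ => Finset.le_sup (f := List.length) hβ⟩
  refine ⟨K0 + h, fun k hk => (PP_le Q).trans ?_⟩
  have hle : 2 * (h : ℤ) ≤ 2 * (k : ℤ) := by omega
  have hX : ∀ β1 β1' : List V, Fst (2 * (h : ℤ)) β1 → Fst (2 * (h : ℤ)) β1' →
      T (2 * (k : ℤ)) β1 (fun η => T (2 * (k : ℤ)) β1' (fun η' =>
        ind (Q ((cat β1 η).tail.take (k + 1)) ((cat β1' η').tail.take (k + 1))))) ≤
      ind (R1 β1 β1') + ind (R2 β1' β1) + (if β1 ∈ s then 0 else 1) +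
        (if β1' ∈ s then 0 else 1) := by
    intro β1 β1' a1 a1'
    by_cases d1 : β1 ∈ s
    swap
    · rw [if_neg d1]
      refine (T_le (c := 1) fun η => T_le fun η' => ind_le_one _).trans ?_
      rw [add_right_comm]
      exact le_add_self
    by_cases d2 : β1' ∈ s
    swap
    · rw [if_neg d2]
      exact (T_le (c := 1) fun η => T_le fun η' => ind_le_one _).trans le_add_self
    rw [if_pos d1, if_pos d2, add_zero, add_zero]
    refine T_le fun η => T_le fun η' => ?_
    have hpre : ∀ γ ∈ s, Fst (2 * (h : ℤ)) γ → ∀ η : List V,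
        γ.tail <+: (cat γ η).tail.take (k + 1) := by
      intro γ hγ hγ' η
      have h3 := Q294.Sl.tail_prefix (X := η) hγ'.1.ne
      have h4 := hK0 γ hγ
      rw [List.prefix_take_iff]
      refine ⟨h3, ?_⟩
      rw [List.length_tail]
      omega
    by_cases c : Q ((cat β1 η).tail.take (k + 1)) ((cat β1' η').tail.take (k + 1))
    · rw [ind_pos c]
      have p1 := a1.2.1
      have p1' := a1'.2.1
      have q1 := a1.1.ev
      have q1' := a1'.1.ev
      rcases hQ.imp β1 β1' _ _ a1.1 a1'.1 (by omega) (by omega) (hpre β1 d1 a1 η)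
        (hpre β1' d2 a1' η') c with h5 | h5
      · rw [ind_pos h5]
        exact le_self_add
      · rw [ind_pos h5]
        exact le_add_self
    · rw [ind_neg c]
      exact zero_le
  calc E (2 * (k : ℤ)) (fun β' => E (2 * (k : ℤ)) (fun β =>
      ind (Q (β.tail.take (k + 1)) (β'.tail.take (k + 1))))) ≤
      E (2 * (k : ℤ)) (fun β' => E (2 * (h : ℤ)) (fun β1 =>
        T (2 * (k : ℤ)) β1 (fun η => ind (Q ((cat β1 η).tail.take (k + 1))
          (β'.tail.take (k + 1)))))) := E_mono fun β' _ => renew hle _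
    _ = E (2 * (h : ℤ)) (fun β1 => E (2 * (k : ℤ)) (fun β' =>
        T (2 * (k : ℤ)) β1 (fun η => ind (Q ((cat β1 η).tail.take (k + 1))
          (β'.tail.take (k + 1)))))) := E_swap _ _ _
    _ ≤ E (2 * (h : ℤ)) (fun β1 => E (2 * (h : ℤ)) (fun β1' =>
        T (2 * (k : ℤ)) β1' (fun η' => T (2 * (k : ℤ)) β1 (fun η =>
          ind (Q ((cat β1 η).tail.take (k + 1)) ((cat β1' η').tail.take (k + 1))))))) :=
        E_mono fun β1 _ => renew hle _
    _ ≤ E (2 * (h : ℤ)) (fun β1 => E (2 * (h : ℤ)) (fun β1' =>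
        ind (R1 β1 β1') + ind (R2 β1' β1) + (if β1 ∈ s then 0 else 1) +
        (if β1' ∈ s then 0 else 1))) := by
        refine E_mono fun β1 a1 => E_mono fun β1' a1' => ?_
        refine le_trans (le_of_eq ?_) (hX β1 β1' a1 a1')
        simp only [T_eq, ← ENNReal.tsum_mul_left]
        rw [ENNReal.tsum_comm]
        refine tsum_congr fun _ => tsum_congr fun _ => ?_
        ring
    _ = PR R1 h + PR R2 h + E (2 * (h : ℤ)) (fun β1 => if β1 ∈ s then 0 else 1) +
        E (2 * (h : ℤ)) (fun β1 => if β1 ∈ s then 0 else 1) := by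
        have e1 : ∀ β1 : List V, E (2 * (h : ℤ)) (fun β1' =>
            ind (R1 β1 β1') + ind (R2 β1' β1) + (if β1 ∈ s then 0 else 1) +
            (if β1' ∈ s then 0 else 1)) =
            E (2 * (h : ℤ)) (fun β1' => ind (R1 β1 β1')) +
            E (2 * (h : ℤ)) (fun β1' => ind (R2 β1' β1)) + (if β1 ∈ s then 0 else 1) +
            E (2 * (h : ℤ)) (fun β1' => if β1' ∈ s then 0 else 1) := by
          intro β1
          rw [E_add, E_add, E_add, E_const (by positivity)]
        simp only [e1]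
        rw [E_add, E_add, E_add, E_const (by positivity)]
        unfold PR
        rw [E_swap _ _ (fun β1 β1' => ind (R2 β1' β1))]
    _ ≤ ENNReal.ofReal δ + ENNReal.ofReal δ + ENNReal.ofReal δ + ENNReal.ofReal δ := by
        gcongr
        · exact hn1 h hh1
        · exact hn2 h hh2
    _ = ENNReal.ofReal ε := by
        rw [← ENNReal.ofReal_add hδ.le hδ.le, ← ENNReal.ofReal_add (by positivity) hδ.le,
          ← ENNReal.ofReal_add (by positivity) hδ.le]
        congr 1
        linarith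

end Pool.Agent.H982.TW
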