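import Pool.Agent.H982.TW10

set_option autoImplicit false

/-! The relation of avoiding each other, and the uniform measures. -/

namespace Pool.Agent.H982.TW

open H978R2.Hex (V Adj adj_iff)
open Pool.Agent.W818.TD
open Pool.Agent.H976R3.HPL (CW hexA mem_CW cc)
open Q294.Sl (A p vv1 A_eq p_nonneg p_lim CW_pos take_mem)
open Filter Topology
open scoped ENNReal

/-- the walk `l'`, moved to the right by `j`, has no vertex in common with `l`, except for the
common first vertex if `j = 0` -/
def AVO (j : ℕ) (l l' : List V) : Prop :=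
  ∀ v ∈ l', v + ((j : ℤ), (j : ℤ)) ∈ l → j = 0 ∧ v = (1, 0)

theorem AVO_mono (j : ℕ) {l l' m m' : List V} (h1 : m <+: l) (h2 : m' <+: l') (h : AVO j l l') :
    AVO j m m' := fun v hv hv' => h v (h2.subset hv) (h1.subset hv')

theorem cases2 {c : V} (h : Adj (1, 0) c) (h1 : 1 ≤ c.1 - c.2) : c = (2, 0) ∨ c = (1, -1) := by
  obtain ⟨c1, c2⟩ := c
  rw [adj_iff] at h
  simp only [Prod.mk.injEq]
  simp only at h h1
  omega

theorem imp0 : Imp (AVO 0) R0 R0 := by
  refine ⟨?_⟩
  intro β β' ζ ζ' h1 h2 h3 h4 h5 h6 hQ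
  have hQ' := AVO_mono 0 h5 h6 hQ
  obtain ⟨c, t, a1, -⟩ := tail2_cat (η := []) h1 h3
  obtain ⟨c', t', a1', -⟩ := tail2_cat (η := []) h2 h4
  have hav : ∀ v ∈ β'.tail, v ∈ β.tail → v = (1, 0) := by
    intro v hv hv'
    refine (hQ' v hv ?_).2
    have : v + (((0 : ℕ) : ℤ), ((0 : ℕ) : ℤ)) = v := by
      ext <;> simp
    rw [this]
    exact hv'
  have e1 : β.tail = (1, 0) :: c :: t := by rw [a1]; rfl
  have e2 : β'.tail = (1, 0) :: c' :: t' := by rw [a1']; rfl
  have n1 : ((1, 0) : V) ∉ c :: t := by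
    have := h1.nd
    rw [a1] at this
    exact (List.nodup_cons.1 (List.nodup_cons.1 this).2).1
  have n2 : ((1, 0) : V) ∉ c' :: t' := by
    have := h2.nd
    rw [a1'] at this
    exact (List.nodup_cons.1 (List.nodup_cons.1 this).2).1
  have z1 : ((0, 0) : V) ∉ β.tail := by
    intro h
    have := h1.pos _ h
    simp at this
  have z2 : ((0, 0) : V) ∉ β'.tail := by
    intro h
    have := h2.pos _ h
    simp at this
  have hne : c ≠ c' := by
    intro e
    have h7 := hav c' (by rw [e2]; simp) (by rw [e1, e]; simp)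
    rw [h7] at n2
    simp at n2
  have g1 : c = (2, 0) ∨ c = (1, -1) := by
    apply cases2
    · have := h1.ch
      rw [a1] at this
      exact (List.isChain_cons_cons.1 (List.isChain_cons_cons.1 this).2).1
    · exact h1.pos c (by rw [e1]; simp)
  have g2 : c' = (2, 0) ∨ c' = (1, -1) := by
    apply cases2
    · have := h2.ch
      rw [a1'] at this
      exact (List.isChain_cons_cons.1 (List.isChain_cons_cons.1 this).2).1
    · exact h2.pos c' (by rw [e2]; simp)
  rcases g2 with hc | hc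
  · left
    refine ⟨by rw [e2]; simp [hc], ?_⟩
    intro v hv hv'
    rw [e2, List.tail_cons] at hv
    have hv2 : v ∈ β'.tail := by rw [e2]; exact List.mem_cons_of_mem _ hv
    rw [a1] at hv'
    rcases List.mem_cons.1 hv' with e | e
    · rw [e] at hv2
      exact z2 hv2
    · have h8 := hav v hv2 (by rw [e1]; exact e)
      rw [h8] at hv
      exact n2 hv
  · right
    have hc2 : c = (2, 0) := by
      rcases g1 with g | g
      · exact g
      · exact absurd (g.trans hc.symm) hne
    refine ⟨by rw [e1]; simp [hc2], ?_⟩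
    intro v hv hv'
    rw [e1, List.tail_cons] at hv
    have hv2 : v ∈ β.tail := by rw [e1]; exact List.mem_cons_of_mem _ hv
    rw [a1'] at hv'
    rcases List.mem_cons.1 hv' with e | e
    · rw [e] at hv2
      exact z1 hv2
    · have h8 := hav v (by rw [e2]; exact e) hv2
      rw [h8] at hv
      exact n1 hv

theorem impJ {j : ℕ} (hj : 1 ≤ j) : Imp (AVO j) (RJ j) (RJ j) := by
  refine ⟨?_⟩
  intro β β' ζ ζ' h1 h2 h3 h4 h5 h6 hQ
  have hQ' := AVO_mono j h5 h6 hQ
  left
  intro v hv hv'
  obtain ⟨t, ht⟩ := h1.cons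
  rw [ht] at hv'
  rcases List.mem_cons.1 hv' with e | e
  · have h7 := h2.pos v hv
    have e1 := congrArg Prod.fst e
    have e2 := congrArg Prod.snd e
    simp only [Prod.fst_add, Prod.snd_add] at e1 e2
    omega
  · have h7 := (hQ' v hv (by rw [ht]; exact e)).1
    omega

/-- **infinite walks avoid each other with probability zero** -/
theorem PP_avo (j : ℕ) {ε : ℝ} (hε : 0 < ε) :
    ∃ K : ℕ, ∀ k, K ≤ k → PP (AVO j) k ≤ ENNReal.ofReal ε := by
  rcases Nat.eq_zero_or_pos j with rfl | hj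
  · exact PP_lim imp0 R0_rel R0_rel hε
  · exact PP_lim (impJ hj) (RJ_rel (by positivity)) (RJ_rel (by positivity)) hε

open Classical in
/-- real form -/
noncomputable def PQ (Q : List V → List V → Prop) (k : ℕ) : ℝ :=
  ∑ η ∈ CW hexA k (vv 1), ∑ η' ∈ CW hexA k (vv 1), if Q η η' then p η * p η' else 0

theorem PQ_nonneg (Q : List V → List V → Prop) (k : ℕ) : 0 ≤ PQ Q k := by
  unfold PQ
  refine Finset.sum_nonneg fun η _ => Finset.sum_nonneg fun η' _ => ?_
  split_ifs
  · exact mul_nonneg (p_nonneg _) (p_nonneg _)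
  · exact le_rfl

theorem PQ_PP (Q : List V → List V → Prop) (k : ℕ) : ENNReal.ofReal (PQ Q k) = PP Q k := by
  classical
  unfold PQ PP
  rw [ENNReal.ofReal_sum_of_nonneg]
  · refine Finset.sum_congr rfl fun η _ => ?_
    rw [ENNReal.ofReal_sum_of_nonneg]
    · refine Finset.sum_congr rfl fun η' _ => ?_
      split_ifs with h
      · rw [ind_pos h, mul_one, ENNReal.ofReal_mul (p_nonneg _)]
      · rw [ind_neg h, mul_zero, ENNReal.ofReal_zero]
    · intro η' _
      split_ifs
      · exact mul_nonneg (p_nonneg _) (p_nonneg _)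
      · exact le_rfl
  · intro η _
    refine Finset.sum_nonneg fun η' _ => ?_
    split_ifs
    · exact mul_nonneg (p_nonneg _) (p_nonneg _)
    · exact le_rfl

theorem PQ_lim (j : ℕ) : Tendsto (PQ (AVO j)) atTop (𝓝 0) := by
  rw [Metric.tendsto_atTop]
  intro ε hε
  obtain ⟨K, hK⟩ := PP_avo j (ε := ε / 2) (by positivity)
  refine ⟨K, fun k hk => ?_⟩
  rw [Real.dist_0_eq_abs, abs_of_nonneg (PQ_nonneg _ _)]
  have h1 := hK k hk
  rw [← PQ_PP, ENNReal.ofReal_le_ofReal_iff (by positivity)] at h1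
  linarith

open Classical in
/-- the pairs of walks with `n` steps -/
noncomputable def NP (Q : List V → List V → Prop) (n : ℕ) : Finset (List V × List V) :=
  (CW hexA n (vv 1) ×ˢ CW hexA n (vv 1)).filter (fun q => Q q.1 q.2)

theorem NP_le {Q : List V → List V → Prop} (hQ : ∀ {l l' m m' : List V}, m <+: l → m' <+: l' →
    Q l l' → Q m m') {k n : ℕ} (hk : k ≤ n) : ((NP Q n).card : ℝ) /
      (((CW hexA n (vv 1)).card : ℝ) * ((CW hexA n (vv 1)).card : ℝ)) ≤
      ∑ η ∈ CW hexA k (vv 1), ∑ η' ∈ CW hexA k (vv 1), by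
        classical exact if Q η η' then ((cc hexA (vv 1) n η : ℝ) / ((CW hexA n (vv 1)).card : ℝ)) *
          ((cc hexA (vv 1) n η' : ℝ) / ((CW hexA n (vv 1)).card : ℝ)) else 0 := by
  classical
  have hc := CW_pos n
  rw [div_le_iff₀ (mul_pos hc hc), Finset.sum_mul]
  have h1 : (NP Q n).card = ∑ q ∈ CW hexA k (vv 1) ×ˢ CW hexA k (vv 1),
      ((NP Q n).filter (fun x => (x.1.take (k + 1), x.2.take (k + 1)) = q)).card := by
    apply Finset.card_eq_sum_card_fiberwise
    intro x hx
    unfold NP at hx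
    rw [Finset.mem_coe, Finset.mem_filter, Finset.mem_product] at hx
    rw [Finset.mem_coe, Finset.mem_product]
    exact ⟨take_mem hk hx.1.1, take_mem hk hx.1.2⟩
  rw [h1, Finset.sum_product]
  push_cast
  refine Finset.sum_le_sum fun η _ => ?_
  rw [Finset.sum_mul]
  refine Finset.sum_le_sum fun η' _ => ?_
  by_cases hR : Q η η'
  · simp only [hR, if_true]
    have h2 : ((NP Q n).filter (fun x => (x.1.take (k + 1), x.2.take (k + 1)) = (η, η'))).card ≤
        cc hexA (vv 1) n η * cc hexA (vv 1) n η' := by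
      unfold cc
      rw [← Finset.card_product]
      apply Finset.card_le_card
      intro x hx
      unfold NP at hx
      rw [Finset.mem_filter, Finset.mem_filter, Finset.mem_product, Prod.mk.injEq] at hx
      rw [Finset.mem_product, Finset.mem_filter, Finset.mem_filter]
      refine ⟨⟨hx.1.1.1, ?_⟩, ⟨hx.1.1.2, ?_⟩⟩
      · rw [← hx.2.1]
        exact List.take_prefix _ _
      · rw [← hx.2.2]
        exact List.take_prefix _ _
    calc (((NP Q n).filter (fun x => (x.1.take (k + 1), x.2.take (k + 1)) = (η, η'))).card : ℝ)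
        ≤ (cc hexA (vv 1) n η : ℝ) * (cc hexA (vv 1) n η' : ℝ) := by exact_mod_cast h2
      _ = _ := by field_simp
  · simp only [hR, if_false, zero_mul]
    have h2 : ((NP Q n).filter (fun x => (x.1.take (k + 1), x.2.take (k + 1)) = (η, η'))) = ∅ := by
      rw [Finset.eq_empty_iff_forall_notMem]
      intro x hx
      unfold NP at hx
      rw [Finset.mem_filter, Finset.mem_filter, Finset.mem_product, Prod.mk.injEq] at hx
      apply hR
      rw [← hx.2.1, ← hx.2.2]
      exact hQ (List.take_prefix _ _) (List.take_prefix _ _) hx.1.2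
    rw [h2]
    simp

/-- **uniform walks** -/
theorem NP_lim (j : ℕ) : Tendsto (fun n => ((NP (AVO j) n).card : ℝ) /
    (((CW hexA n (vv 1)).card : ℝ) * ((CW hexA n (vv 1)).card : ℝ))) atTop (𝓝 0) := by
  classical
  rw [Metric.tendsto_atTop]
  intro ε hε
  obtain ⟨k, hk⟩ := (Metric.tendsto_atTop.1 (PQ_lim j)) (ε / 2) (by positivity)
  have hk' := hk k le_rfl
  rw [Real.dist_0_eq_abs, abs_of_nonneg (PQ_nonneg _ _)] at hk'
  have h1 : Tendsto (fun n => ∑ η ∈ CW hexA k (vv 1), ∑ η' ∈ CW hexA k (vv 1),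
      if AVO j η η' then ((cc hexA (vv 1) n η : ℝ) / ((CW hexA n (vv 1)).card : ℝ)) *
          ((cc hexA (vv 1) n η' : ℝ) / ((CW hexA n (vv 1)).card : ℝ)) else 0) atTop
      (𝓝 (PQ (AVO j) k)) := by
    unfold PQ
    refine tendsto_finsetSum _ fun η _ => tendsto_finsetSum _ fun η' _ => ?_
    by_cases h : AVO j η η'
    · simp only [h, if_true]
      exact (p_lim η).mul (p_lim η')
    · simp only [h, if_false]
      exact tendsto_const_nhds
  have h2 : PQ (AVO j) k < ε := by linarith
  obtain ⟨N, hN⟩ := eventually_atTop.1 (h1.eventually (gt_mem_nhds h2))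
  refine ⟨N + k, fun n hn => ?_⟩
  have hc := CW_pos n
  rw [Real.dist_0_eq_abs, abs_of_nonneg (by positivity)]
  refine lt_of_le_of_lt ?_ (hN n (by omega))
  refine (NP_le (Q := AVO j) (fun h1 h2 h3 => AVO_mono j h1 h2 h3) (k := k) (by omega)).trans
    (le_of_eq ?_)
  refine Finset.sum_congr rfl fun η _ => Finset.sum_congr rfl fun η' _ => ?_
  congr

end Pool.Agent.H982.TW
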