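import Pool.Agent.H982.TW11

set_option autoImplicit false

/-! Pairs of crossing walks of a strip. -/

namespace Pool.Agent.H982.TW

open H978R2.Hex (V Adj adj_iff)
open Pool.Agent.W818.TD
open Pool.Agent.W832.HR (Traj HP Nbr nbr_iff xc xc_ne_zero xc_ne_top xc_eq)
open Pool.Agent.Y981.GP (bb bb_le_one)
open Q294.Sl (Cross mass)
open Q294.Ni (Up Apart mass2 prb)
open Filter Topology
open scoped ENNReal

/-- pairs of crossing walks with the relation -/
def Prs (Q : List V → List V → Prop) (T : ℕ) : Set (List V × List V) :=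
  {p | p.1 ∈ Cross T ∧ p.2 ∈ Cross T ∧ Q p.1 p.2}

theorem SR_swap (R : List V → List V → Prop) (T : ℕ) :
    SR R T = ∑' p : List V × List V, vd (2 * (T : ℤ)) p.1 *
      (vd (2 * (T : ℤ)) p.2 * ind (R p.1 p.2)) := by
  unfold SR ES
  rw [ENNReal.tsum_prod (f := fun a b => vd (2 * (T : ℤ)) a *
    (vd (2 * (T : ℤ)) b * ind (R a b)))]
  refine tsum_congr fun β => ?_
  rw [ENNReal.tsum_mul_left]

theorem SR_swap' (R : List V → List V → Prop) (T : ℕ) :
    SR R T = ∑' p : List V × List V, vd (2 * (T : ℤ)) p.1 *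
      (vd (2 * (T : ℤ)) p.2 * ind (R p.2 p.1)) := by
  rw [SR_swap, ← Equiv.tsum_eq (Equiv.prodComm (List V) (List V))]
  refine tsum_congr fun p => ?_
  simp only [Equiv.prodComm_apply, Prod.fst_swap, Prod.snd_swap]
  ring

theorem massQ_le {Q R1 R2 : List V → List V → Prop} (hQ : Imp Q R1 R2) {T : ℕ} (hT : 1 ≤ T) :
    xc * xc * mass2 (Prs Q T) ≤ SR R1 T + SR R2 T := by
  rw [SR_swap R1, SR_swap' R2, ← ENNReal.tsum_add]
  unfold mass2
  rw [← ENNReal.tsum_mul_left]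
  let g : Prs Q T → List V × List V := fun p => ((0, 0) :: p.1.1, (0, 0) :: p.1.2)
  have hinj : Function.Injective g := by
    intro p q h
    simp only [g, Prod.mk.injEq, List.cons.injEq, true_and] at h
    exact Subtype.ext (Prod.ext h.1 h.2)
  refine le_trans ?_ (ENNReal.tsum_comp_le_tsum_of_injective hinj
    (fun p : List V × List V => vd (2 * (T : ℤ)) p.1 *
      (vd (2 * (T : ℤ)) p.2 * ind (R1 p.1 p.2)) + vd (2 * (T : ℤ)) p.1 *
      (vd (2 * (T : ℤ)) p.2 * ind (R2 p.2 p.1))))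
  refine ENNReal.tsum_le_tsum fun p => ?_
  obtain ⟨q1, q2, q3⟩ := p.2
  obtain ⟨a1, a2, -, -⟩ := cross_shape hT q1
  obtain ⟨b1, b2, -, -⟩ := cross_shape hT q2
  have h1 : (1 : ℝ≥0∞) ≤ ind (R1 ((0, 0) :: p.1.1) ((0, 0) :: p.1.2)) +
      ind (R2 ((0, 0) :: p.1.2) ((0, 0) :: p.1.1)) := by
    rcases hQ.imp ((0, 0) :: p.1.1) ((0, 0) :: p.1.2) p.1.1 p.1.2 a1 b1 (by omega) (by omega)
      (by simp) (by simp) q3 with h | h
    · rw [ind_pos h]
      exact le_self_add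
    · rw [ind_pos h]
      exact le_add_self
  have h2 : Wt ((0, 0) :: p.1.1) = xc * xc ^ (p.1.1.length - 1) := by
    obtain ⟨x, hx⟩ := q1
    exact Q294.Bd.Wt_cons (0, 0) (Q294.Bd.traj_ne hx)
  have h3 : Wt ((0, 0) :: p.1.2) = xc * xc ^ (p.1.2.length - 1) := by
    obtain ⟨x, hx⟩ := q2
    exact Q294.Bd.Wt_cons (0, 0) (Q294.Bd.traj_ne hx)
  simp only [g]
  rw [vd_pos a1 a2, vd_pos b1 b2, h2, h3]
  calc xc * xc * (xc ^ (p.1.1.length - 1) * xc ^ (p.1.2.length - 1)) =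
      xc * xc ^ (p.1.1.length - 1) * (xc * xc ^ (p.1.2.length - 1) * 1) := by ring
    _ ≤ xc * xc ^ (p.1.1.length - 1) * (xc * xc ^ (p.1.2.length - 1) *
        (ind (R1 ((0, 0) :: p.1.1) ((0, 0) :: p.1.2)) +
          ind (R2 ((0, 0) :: p.1.2) ((0, 0) :: p.1.1)))) := by gcongr
    _ = _ := by ring

theorem massQ_lim {Q R1 R2 : List V → List V → Prop} {c1 c2 : ℤ} (hQ : Imp Q R1 R2)
    (h1 : Rel R1 c1) (h2 : Rel R2 c2) :
    Tendsto (fun T : ℕ => (mass2 (Prs Q T) / (mass (Cross T) * mass (Cross T))).toReal) atTop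
      (𝓝 0) := by
  rw [Metric.tendsto_atTop]
  intro ε hε
  obtain ⟨N, hN⟩ := SR_lim h1 (ε := ε / 4) (by positivity)
  obtain ⟨N', hN'⟩ := SR_lim h2 (ε := ε / 4) (by positivity)
  refine ⟨N + N' + 1, fun T hT => ?_⟩
  rw [Real.dist_0_eq_abs, abs_of_nonneg ENNReal.toReal_nonneg]
  have h3 := massQ_le hQ (T := T) (by omega)
  have h4 := hN T (by omega)
  have h5 := hN' T (by omega)
  obtain ⟨m, hm⟩ : ∃ m, m = mass (Cross T) := ⟨_, rfl⟩
  have h6 : bb T = xc * m := by rw [hm]; exact (Q294.Sl.mass_cross (by omega)).symm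
  have hx2 : xc * xc ≠ 0 := mul_ne_zero xc_ne_zero xc_ne_zero
  have hx3 : xc * xc ≠ ⊤ := ENNReal.mul_ne_top xc_ne_top xc_ne_top
  have h7 : mass2 (Prs Q T) ≤ ENNReal.ofReal (ε / 2) * (m * m) := by
    rw [← ENNReal.mul_le_mul_iff_right hx2 hx3]
    refine h3.trans ?_
    have h8 : ENNReal.ofReal (ε / 2) = ENNReal.ofReal (ε / 4) + ENNReal.ofReal (ε / 4) := by
      rw [← ENNReal.ofReal_add (by positivity) (by positivity)]
      congr 1
      ring
    calc SR R1 T + SR R2 T ≤ ENNReal.ofReal (ε / 4) * (bb T * bb T) +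
          ENNReal.ofReal (ε / 4) * (bb T * bb T) := by gcongr
      _ = _ := by rw [h6, h8]; ring
  have h8 : mass2 (Prs Q T) / (mass (Cross T) * mass (Cross T)) ≤ ENNReal.ofReal (ε / 2) := by
    rw [← hm]
    exact ENNReal.div_le_of_le_mul h7
  have h9 := ENNReal.toReal_le_of_le_ofReal (by positivity) h8
  linarith

/-- **two independent critical crossing walks** -/
theorem strip_lim (j : ℕ) :
    Tendsto (fun T : ℕ => (mass2 (Prs (AVO j) T) / (mass (Cross T) * mass (Cross T))).toReal) atTop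
      (𝓝 0) := by
  rcases Nat.eq_zero_or_pos j with rfl | hj
  · exact massQ_lim imp0 R0_rel R0_rel
  · exact massQ_lim (impJ hj) (RJ_rel (by positivity)) (RJ_rel (by positivity))

end Pool.Agent.H982.TW
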