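import Pool.Agent.H982.TW12

set_option autoImplicit false

/-! Pairs of uniform half-plane walks with different numbers of steps. -/

namespace Pool.Agent.H982.TW

open H978R2.Hex (V Adj adj_iff)
open Pool.Agent.W818.TD
open Pool.Agent.H976R3.HPL (CW hexA mem_CW cc)
open Q294.Sl (p p_nonneg p_lim CW_pos take_mem Walks walks_eq fin_walks)
open Filter Topology
open scoped ENNReal

open Classical in
/-- the pairs of walks with `n` and `n'` steps -/
noncomputable def NP2 (Q : List V → List V → Prop) (n n' : ℕ) : Finset (List V × List V) :=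
  (CW hexA n (vv 1) ×ˢ CW hexA n' (vv 1)).filter (fun q => Q q.1 q.2)

theorem NP2_le {Q : List V → List V → Prop} (hQ : ∀ {l l' m m' : List V}, m <+: l → m' <+: l' →
    Q l l' → Q m m') {k n n' : ℕ} (hk : k ≤ n) (hk' : k ≤ n') : ((NP2 Q n n').card : ℝ) /
      (((CW hexA n (vv 1)).card : ℝ) * ((CW hexA n' (vv 1)).card : ℝ)) ≤
      ∑ η ∈ CW hexA k (vv 1), ∑ η' ∈ CW hexA k (vv 1), by
        classical exact if Q η η' then ((cc hexA (vv 1) n η : ℝ) / ((CW hexA n (vv 1)).card : ℝ)) *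
          ((cc hexA (vv 1) n' η' : ℝ) / ((CW hexA n' (vv 1)).card : ℝ)) else 0 := by
  classical
  have hc := CW_pos n
  have hc' := CW_pos n'
  rw [div_le_iff₀ (mul_pos hc hc'), Finset.sum_mul]
  have h1 : (NP2 Q n n').card = ∑ q ∈ CW hexA k (vv 1) ×ˢ CW hexA k (vv 1),
      ((NP2 Q n n').filter (fun x => (x.1.take (k + 1), x.2.take (k + 1)) = q)).card := by
    apply Finset.card_eq_sum_card_fiberwise
    intro x hx
    unfold NP2 at hx
    rw [Finset.mem_coe, Finset.mem_filter, Finset.mem_product] at hx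
    rw [Finset.mem_coe, Finset.mem_product]
    exact ⟨take_mem hk hx.1.1, take_mem hk' hx.1.2⟩
  rw [h1, Finset.sum_product]
  push_cast
  refine Finset.sum_le_sum fun η _ => ?_
  rw [Finset.sum_mul]
  refine Finset.sum_le_sum fun η' _ => ?_
  by_cases hR : Q η η'
  · simp only [hR, if_true]
    have h2 : ((NP2 Q n n').filter (fun x => (x.1.take (k + 1), x.2.take (k + 1)) = (η, η'))).card ≤
        cc hexA (vv 1) n η * cc hexA (vv 1) n' η' := by
      unfold cc
      rw [← Finset.card_product]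
      apply Finset.card_le_card
      intro x hx
      unfold NP2 at hx
      rw [Finset.mem_filter, Finset.mem_filter, Finset.mem_product, Prod.mk.injEq] at hx
      rw [Finset.mem_product, Finset.mem_filter, Finset.mem_filter]
      refine ⟨⟨hx.1.1.1, ?_⟩, ⟨hx.1.1.2, ?_⟩⟩
      · rw [← hx.2.1]
        exact List.take_prefix _ _
      · rw [← hx.2.2]
        exact List.take_prefix _ _
    calc (((NP2 Q n n').filter (fun x => (x.1.take (k + 1), x.2.take (k + 1)) = (η, η'))).card : ℝ)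
        ≤ (cc hexA (vv 1) n η : ℝ) * (cc hexA (vv 1) n' η' : ℝ) := by exact_mod_cast h2
      _ = _ := by field_simp
  · simp only [hR, if_false, zero_mul]
    have h2 : ((NP2 Q n n').filter
        (fun x => (x.1.take (k + 1), x.2.take (k + 1)) = (η, η'))) = ∅ := by
      rw [Finset.eq_empty_iff_forall_notMem]
      intro x hx
      unfold NP2 at hx
      rw [Finset.mem_filter, Finset.mem_filter, Finset.mem_product, Prod.mk.injEq] at hx
      apply hR
      rw [← hx.2.1, ← hx.2.2]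
      exact hQ (List.take_prefix _ _) (List.take_prefix _ _) hx.1.2
    rw [h2]
    simp

/-- **uniform walks** -/
theorem NP2_lim (j : ℕ) : Tendsto (fun x : ℕ × ℕ => ((NP2 (AVO j) x.1 x.2).card : ℝ) /
    (((CW hexA x.1 (vv 1)).card : ℝ) * ((CW hexA x.2 (vv 1)).card : ℝ))) atTop (𝓝 0) := by
  classical
  rw [Metric.tendsto_atTop]
  intro ε hε
  obtain ⟨k, hk⟩ := (Metric.tendsto_atTop.1 (PQ_lim j)) (ε / 2) (by positivity)
  have hk' := hk k le_rfl
  rw [Real.dist_0_eq_abs, abs_of_nonneg (PQ_nonneg _ _)] at hk'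
  have h1 : Tendsto (fun x : ℕ × ℕ => ∑ η ∈ CW hexA k (vv 1), ∑ η' ∈ CW hexA k (vv 1),
      if AVO j η η' then ((cc hexA (vv 1) x.1 η : ℝ) / ((CW hexA x.1 (vv 1)).card : ℝ)) *
          ((cc hexA (vv 1) x.2 η' : ℝ) / ((CW hexA x.2 (vv 1)).card : ℝ)) else 0)
        (atTop ×ˢ atTop) (𝓝 (PQ (AVO j) k)) := by
    unfold PQ
    refine tendsto_finsetSum _ fun η _ => tendsto_finsetSum _ fun η' _ => ?_
    by_cases h : AVO j η η'
    · simp only [h, if_true]
      exact ((p_lim η).comp tendsto_fst).mul ((p_lim η').comp tendsto_snd)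
    · simp only [h, if_false]
      exact tendsto_const_nhds
  have h2 : PQ (AVO j) k < ε := by linarith
  rw [prod_atTop_atTop_eq] at h1
  obtain ⟨⟨N1, N2⟩, hN⟩ := eventually_atTop.1 (h1.eventually (gt_mem_nhds h2))
  refine ⟨(N1 + k, N2 + k), fun x hx => ?_⟩
  have hx1 : N1 + k ≤ x.1 := hx.1
  have hx2 : N2 + k ≤ x.2 := hx.2
  have hc := CW_pos x.1
  have hc' := CW_pos x.2
  rw [Real.dist_0_eq_abs, abs_of_nonneg (by positivity)]
  refine lt_of_le_of_lt ?_ (hN x ⟨by omega, by omega⟩)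
  refine (NP2_le (Q := AVO j) (fun h1 h2 h3 => AVO_mono j h1 h2 h3) (k := k) (by omega)
    (by omega)).trans (le_of_eq ?_)
  refine Finset.sum_congr rfl fun η _ => Finset.sum_congr rfl fun η' _ => ?_
  split_ifs <;> rfl

/-- **uniform walks, as sets** -/
theorem walks_lim (j : ℕ) : Tendsto (fun x : ℕ × ℕ =>
    (({y | y ∈ Walks x.1 ×ˢ Walks x.2 ∧ AVO j y.1 y.2} : Set (List V × List V)).ncard : ℝ) /
      (((Walks x.1).ncard : ℝ) * ((Walks x.2).ncard : ℝ))) atTop (𝓝 0) := by
  classical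
  refine (NP2_lim j).congr fun x => ?_
  have h1 : ∀ n, (Walks n).ncard = (CW hexA n (vv 1)).card := by
    intro n
    rw [walks_eq, Set.ncard_coe_finset]
  have h2 : ({y | y ∈ Walks x.1 ×ˢ Walks x.2 ∧ AVO j y.1 y.2} : Set (List V × List V)).ncard =
      (NP2 (AVO j) x.1 x.2).card := by
    rw [← Set.ncard_coe_finset]
    congr 1
    ext y
    unfold NP2
    rw [Finset.mem_coe, Finset.mem_filter, Finset.mem_product]
    change (y.1 ∈ Walks x.1 ∧ y.2 ∈ Walks x.2) ∧ AVO j y.1 y.2 ↔ _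
    rw [walks_eq, walks_eq, Finset.mem_coe, Finset.mem_coe]
  rw [h1, h1, h2]

end Pool.Agent.H982.TW
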