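import Pool.Agent.H982.TW1

set_option autoImplicit false

/-! First visits of a level, mirror images. -/

namespace Pool.Agent.H982.TW

open H978R2.Hex (V Adj adj_iff)
open Pool.Agent.W818.TD
open scoped ENNReal

/-- twice the lateral position -/
def lat (v : V) : ℤ := 2 * v.2 + (v.1 - v.2) / 2

/-- lateral position of the first visit of the level `N` -/
def fv (N : ℤ) (β : List V) : ℤ := lat ((β.find? (fun v => decide (N ≤ lev v))).getD (0, 0))

theorem split_fv {β : List V} {N : ℤ} (h : EBr β) (h1 : 1 ≤ N) (h2 : N ≤ hl β) :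
    ∃ A v B, β = (0, 0) :: (A ++ v :: B) ∧ lev v = N ∧ (∀ a ∈ A, lev a < N) ∧
      fv N β = lat v := by
  have hex : ∃ w ∈ β, decide (N ≤ lev w) = true := ⟨la β, la_mem h.ne, by
    rw [decide_eq_true_eq]; exact h2⟩
  obtain ⟨v, hv⟩ : ∃ v, β.find? (fun v => decide (N ≤ lev v)) = some v := by
    rw [← Option.isSome_iff_exists, List.find?_isSome]
    exact hex
  obtain ⟨hvN, as, bs, hab, has⟩ := List.find?_eq_some_iff_append.1 hv
  rw [decide_eq_true_eq] at hvN
  obtain ⟨t, ht⟩ := h.cons
  match as, hab, has with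
  | [], hab, _ =>
    exfalso
    rw [List.nil_append, ht, List.cons.injEq] at hab
    rw [← hab.1] at hvN
    simp only [lev] at hvN
    omega
  | a :: A, hab, has =>
    have hhead : a = (0, 0) := by
      rw [ht, List.cons_append, List.cons.injEq] at hab
      exact hab.1.symm
    have hA : ∀ x ∈ a :: A, lev x < N := by
      intro x hx
      have := has x hx
      simpa using this
    refine ⟨A, v, bs, by rw [hab, hhead, List.cons_append], ?_,
      fun x hx => hA x (List.mem_cons_of_mem _ hx), by unfold fv; rw [hv]; rfl⟩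
    have hch := h.ch
    rw [hab, List.isChain_append] at hch
    have h5 := hch.2.2 ((a :: A).getLast (by simp)) (by
      rw [List.getLast?_eq_getLast_of_ne_nil (by simp)]; exact rfl) v (by simp)
    have h6 := hA _ (List.getLast_mem (l := a :: A) (by simp))
    rw [adj_iff] at h5
    unfold lev at h6 hvN ⊢
    omega

theorem lat_add {a c : V} (hc : (c.1 - c.2) % 2 = 0) : lat (a + c) = lat a + lat c := by
  unfold lat
  simp only [Prod.fst_add, Prod.snd_add]
  omega

theorem fv_cat {β η : List V} {N : ℤ} (hβ : EBr β) (hη : EBr η) (h : hl β < N)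
    (h2 : N - hl β ≤ hl η) : fv N (cat β η) = lat (la β) + fv (N - hl β) η := by
  obtain ⟨t, ht⟩ := hη.cons
  have h3 : β.find? (fun v => decide (N ≤ lev v)) = none := by
    rw [List.find?_eq_none]
    intro x hx
    have := hβ.top x hx
    simp only [decide_eq_true_eq, not_le]
    unfold lev
    omega
  have h4 : η.find? (fun v => decide (N - hl β ≤ lev v)) =
      t.find? (fun v => decide (N - hl β ≤ lev v)) := by
    have h0 : decide (N - hl β ≤ lev ((0, 0) : V)) = false := by
      rw [decide_eq_false_iff_not]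
      simp only [lev]
      omega
    rw [ht, List.find?_cons, h0]
  have h5 : (fun v : V => decide (N ≤ lev v)) ∘ (fun w => w + la β) =
      fun v => decide (N - hl β ≤ lev v) := by
    funext w
    simp only [Function.comp_apply]
    congr 1
    unfold lev hl
    simp only [Prod.fst_add, Prod.snd_add]
    apply propext
    constructor <;> intro _ <;> omega
  have hs : ∃ v, t.find? (fun v => decide (N - hl β ≤ lev v)) = some v := by
    rw [← h4, ← Option.isSome_iff_exists, List.find?_isSome]
    exact ⟨la η, la_mem hη.ne, by rw [decide_eq_true_eq]; exact h2⟩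
  obtain ⟨v, hv⟩ := hs
  unfold fv
  rw [h4]
  unfold cat
  rw [List.find?_append, h3, Option.none_or, ht, List.tail_cons]
  unfold tr
  rw [List.find?_map, h5, hv]
  simp only [Option.map_some, Option.getD_some]
  rw [lat_add (by have := hβ.ev; unfold hl at this; exact this)]
  ring

/-! ### mirror image -/

/-- mirror image of a vertex -/
def mi (v : V) : V := (lev v - v.2 - lev v / 2, -v.2 - lev v / 2)

theorem lev_mi (v : V) : lev (mi v) = lev v := by
  unfold mi lev
  simp only
  ring

theorem mi_mi (v : V) : mi (mi v) = v := by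
  have h := lev_mi v
  obtain ⟨a, b⟩ := v
  unfold mi at h ⊢
  rw [h]
  unfold lev
  simp only
  apply Prod.ext <;> simp only <;> ring

theorem mi_inj : Function.Injective mi := fun a b h => by rw [← mi_mi a, h, mi_mi]

theorem lat_mi (v : V) : lat (mi v) = - lat v := by
  have h := lev_mi v
  unfold lat
  have e : (mi v).1 - (mi v).2 = v.1 - v.2 := h
  rw [e]
  unfold mi lev
  simp only
  ring

theorem mi_zero : mi (0, 0) = (0, 0) := by
  unfold mi lev
  simp

theorem adj_mi {p q : V} (h : Adj p q) : Adj (mi p) (mi q) := by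
  obtain ⟨a, b⟩ := p
  obtain ⟨c, d⟩ := q
  rw [adj_iff] at h ⊢
  unfold mi lev
  simp only at h ⊢
  omega

theorem mi_add {a c : V} (hc : (c.1 - c.2) % 2 = 0) : mi (a + c) = mi a + mi c := by
  obtain ⟨a1, a2⟩ := a
  obtain ⟨c1, c2⟩ := c
  unfold mi lev
  simp only at hc
  apply Prod.ext <;> simp only [Prod.fst_add, Prod.snd_add] <;> omega

/-- mirror image of a walk -/
def mr (β : List V) : List V := β.map mi

theorem mr_mr (β : List V) : mr (mr β) = β := by
  unfold mr
  rw [List.map_map]
  conv_rhs => rw [← List.map_id β]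
  apply List.map_congr_left
  intro v _
  simp [mi_mi]

theorem mr_length (β : List V) : (mr β).length = β.length := by
  unfold mr
  simp

theorem Wt_mr (β : List V) : Wt (mr β) = Wt β := by
  unfold Wt
  rw [mr_length]

theorem la_mr {β : List V} (h : β ≠ []) : la (mr β) = mi (la β) := by
  unfold mr
  rw [la_eq h, la_eq (by simpa using h), List.getLast_map]

theorem hl_mr {β : List V} (h : β ≠ []) : hl (mr β) = hl β := by
  have h1 : hl (mr β) = lev (la (mr β)) := rfl
  rw [h1, la_mr h, lev_mi]
  rfl

theorem EBr_mr {β : List V} (h : EBr β) : EBr (mr β) := by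
  obtain ⟨t, ht⟩ := h.cons
  have hhl := hl_mr h.ne
  refine ⟨?_, ?_, ?_, ?_, ?_, ?_⟩
  · rw [ht]
    unfold mr
    rw [List.map_cons, mi_zero]
    rfl
  · unfold mr
    rw [List.isChain_map]
    exact h.ch.imp fun {a b} hab => adj_mi hab
  · exact h.nd.map mi_inj
  · intro w hw
    unfold mr at hw
    rw [← List.map_tail, List.mem_map] at hw
    obtain ⟨v, hv, rfl⟩ := hw
    have := h.pos v hv
    have h2 := lev_mi v
    unfold lev at h2
    omega
  · intro w hw
    rw [hhl]
    unfold mr at hw
    rw [List.mem_map] at hw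
    obtain ⟨v, hv, rfl⟩ := hw
    have := h.top v hv
    have h2 := lev_mi v
    unfold lev at h2
    omega
  · rw [hhl]
    exact h.ev

theorem mr_cat {β η : List V} (hβ : EBr β) (hη : EBr η) : mr (cat β η) = cat (mr β) (mr η) := by
  obtain ⟨t, ht⟩ := hη.cons
  unfold cat
  rw [la_mr hβ.ne]
  unfold mr tr
  rw [List.map_append, ht, List.tail_cons, List.map_cons, List.tail_cons, List.map_map,
    List.map_map]
  congr 1
  apply List.map_congr_left
  intro v _
  simp only [Function.comp_apply]
  exact mi_add hβ.ev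

theorem Fst_mr {H : ℤ} {β : List V} (h : Fst H β) : Fst H (mr β) := by
  refine ⟨EBr_mr h.1, by rw [hl_mr h.1.ne]; exact h.2.1, ?_⟩
  intro β1 η h1 h2 h3 h4
  have h5 : β = cat (mr β1) (mr η) := by
    rw [← mr_cat h1 h2, ← h4, mr_mr]
  have h6 := h.2.2 (mr β1) (mr η) (EBr_mr h1) (EBr_mr h2) (by rw [hl_mr h1.ne]; exact h3) h5
  rw [← mr_mr η, h6]
  unfold mr
  rw [List.map_cons, mi_zero, List.map_nil]

theorem Fst_mr_iff {H : ℤ} {β : List V} : Fst H (mr β) ↔ Fst H β := by
  constructor
  · intro h
    rw [← mr_mr β]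
    exact Fst_mr h
  · exact Fst_mr

theorem fv_mr (N : ℤ) (β : List V) : fv N (mr β) = - fv N β := by
  unfold fv mr
  rw [List.find?_map]
  have h5 : (fun v : V => decide (N ≤ lev v)) ∘ mi = fun v => decide (N ≤ lev v) := by
    funext w
    simp only [Function.comp_apply, lev_mi]
  rw [h5]
  rcases β.find? (fun v => decide (N ≤ lev v)) with _ | v
  · simp [lat]
  · simp only [Option.map_some, Option.getD_some]
    exact lat_mi v

end Pool.Agent.H982.TW
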