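import Pool.Agent.H982.TW2

set_option autoImplicit false

/-! The law of the walk up to its first cut above a level, and its renewal inequality. -/

namespace Pool.Agent.H982.TW

open H978R2.Hex (V Adj adj_iff)
open Pool.Agent.W818.TD
open Filter Topology
open scoped ENNReal

/-- weight of the first cuts above `H` -/
noncomputable def w (H : ℤ) (β : List V) : ℝ≥0∞ := {β | Fst H β}.indicator Wt β

/-- mean -/
noncomputable def E (H : ℤ) (f : List V → ℝ≥0∞) : ℝ≥0∞ := ∑' β, w H β * f β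

theorem w_pos {H : ℤ} {β : List V} (h : Fst H β) : w H β = Wt β :=
  Set.indicator_of_mem (show β ∈ {β | Fst H β} from h) _

theorem w_neg {H : ℤ} {β : List V} (h : ¬ Fst H β) : w H β = 0 :=
  Set.indicator_of_notMem (show β ∉ {β | Fst H β} from h) _

theorem w_sum {H : ℤ} (hH : 0 ≤ H) : ∑' β, w H β = 1 := by
  have h1 : ∑' β, w H β = M {β | Fst H β} := (M_ind _).symm
  rw [h1]
  exact le_antisymm (Pool.Agent.Y67.GP.one H hH) (M_fst_ge H)

theorem E_mono {H : ℤ} {f g : List V → ℝ≥0∞} (h : ∀ β, Fst H β → f β ≤ g β) : E H f ≤ E H g := by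
  unfold E
  refine ENNReal.tsum_le_tsum fun β => ?_
  by_cases hβ : Fst H β
  · exact mul_le_mul_right (h β hβ) _
  · rw [w_neg hβ, zero_mul, zero_mul]

theorem E_const {H : ℤ} (hH : 0 ≤ H) (c : ℝ≥0∞) : E H (fun _ => c) = c := by
  unfold E
  rw [ENNReal.tsum_mul_right, w_sum hH, one_mul]

theorem E_le {H : ℤ} (hH : 0 ≤ H) {f : List V → ℝ≥0∞} {c : ℝ≥0∞} (h : ∀ β, Fst H β → f β ≤ c) :
    E H f ≤ c := (E_mono h).trans (E_const hH c).le

theorem E_add (H : ℤ) (f g : List V → ℝ≥0∞) : E H (fun β => f β + g β) = E H f + E H g := by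
  unfold E
  rw [← ENNReal.tsum_add]
  refine tsum_congr fun β => ?_
  rw [mul_add]

theorem E_mul (H : ℤ) (c : ℝ≥0∞) (f : List V → ℝ≥0∞) : E H (fun β => c * f β) = c * E H f := by
  unfold E
  rw [← ENNReal.tsum_mul_left]
  refine tsum_congr fun β => ?_
  ring

theorem E_swap (H H' : ℤ) (f : List V → List V → ℝ≥0∞) :
    E H (fun β => E H' (fun β' => f β β')) = E H' (fun β' => E H (fun β => f β β')) := by
  unfold E
  simp only [← ENNReal.tsum_mul_left]
  rw [ENNReal.tsum_comm]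
  refine tsum_congr fun β' => tsum_congr fun β => ?_
  ring

theorem E_sum {ι : Type*} (H : ℤ) (I : Finset ι) (f : ι → List V → ℝ≥0∞) :
    ∑ i ∈ I, E H (f i) = E H (fun β => ∑ i ∈ I, f i β) := by
  unfold E
  rw [← Summable.tsum_finsetSum (fun _ _ => ENNReal.summable)]
  refine tsum_congr fun β => ?_
  rw [Finset.mul_sum]

/-- the mirror -/
def mrE : List V ≃ List V := ⟨mr, mr, mr_mr, mr_mr⟩

theorem E_mr (H : ℤ) (f : List V → ℝ≥0∞) : E H (fun β => f (mr β)) = E H f := by
  unfold E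
  rw [← Equiv.tsum_eq mrE (fun β => w H β * f β)]
  refine tsum_congr fun β => ?_
  have e : w H (mrE β) = w H β := by
    change w H (mr β) = w H β
    by_cases h : Fst H β
    · rw [w_pos h, w_pos (Fst_mr h), Wt_mr]
    · rw [w_neg h, w_neg (fun h' => h (Fst_mr_iff.1 h'))]
  rw [e]
  rfl

/-- the mean over the second part -/
noncomputable def T (H : ℤ) (β : List V) (g : List V → ℝ≥0∞) : ℝ≥0∞ :=
  if hl β ≤ H then E (H - hl β) g else g [(0, 0)]

/-- the kernel -/
noncomputable def K (H : ℤ) (β η : List V) : ℝ≥0∞ :=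
  if hl β ≤ H then w (H - hl β) η else if η = [(0, 0)] then 1 else 0

theorem T_eq (H : ℤ) (β : List V) (g : List V → ℝ≥0∞) : T H β g = ∑' η, K H β η * g η := by
  unfold T K
  split_ifs with h
  · rfl
  · rw [tsum_eq_single [(0, 0)]]
    · simp
    · intro η hη
      rw [if_neg hη, zero_mul]

theorem T_le {H : ℤ} {β : List V} {g : List V → ℝ≥0∞} {c : ℝ≥0∞} (h : ∀ η, g η ≤ c) :
    T H β g ≤ c := by
  unfold T
  split_ifs with h1
  · exact E_le (by omega) fun η _ => h η
  · exact h _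

theorem Wt_triv : Wt [(0, 0)] = 1 := by
  unfold Wt
  simp

/-- the second part of a first cut -/
theorem fst_second {H H' : ℤ} {β β1 η : List V} (h : Fst H β) (h1 : Fst H' β1) (h2 : EBr η)
    (he : β = cat β1 η) : (hl β1 ≤ H → Fst (H - hl β1) η) ∧ (H < hl β1 → η = [(0, 0)]) := by
  refine ⟨fun hle => ⟨h2, ?_, ?_⟩, fun hlt => h.2.2 β1 η h1.1 h2 hlt he⟩
  · have := hl_cat (β := β1) h2
    rw [← he] at this
    have := h.2.1
    omega
  · intro η1 η2 a1 a2 a3 a4
    have h5 : β = cat (cat β1 η1) η2 := by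
      rw [cat_assoc h1.1 a1, ← a4, he]
    exact h.2.2 _ η2 (cat_EBr h1.1 a1) a2 (by rw [hl_cat a1]; omega) h5

theorem K_eq {H H' : ℤ} {β β1 η : List V} (h : Fst H β) (h1 : Fst H' β1) (h2 : EBr η)
    (he : β = cat β1 η) : K H β1 η = Wt η := by
  obtain ⟨a1, a2⟩ := fst_second h h1 h2 he
  unfold K
  split_ifs with h3 h4
  · exact w_pos (a1 h3)
  · rw [h4, Wt_triv]
  · exact absurd (a2 (not_le.1 h3)) h4

/-- **renewal inequality** -/
theorem renew {H H' : ℤ} (hH : H' ≤ H) (f : List V → ℝ≥0∞) :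
    E H f ≤ E H' (fun β1 => T H β1 (fun η => f (cat β1 η))) := by
  have e1 : E H f = ∑' β : {β | Fst H β}, Wt β * f β := by
    unfold E
    rw [tsum_subtype {β | Fst H β} (fun β => Wt β * f β)]
    refine tsum_congr fun β => ?_
    by_cases h : Fst H β
    · rw [w_pos h, Set.indicator_of_mem (show β ∈ {β | Fst H β} from h)]
    · rw [w_neg h, zero_mul, Set.indicator_of_notMem (show β ∉ {β | Fst H β} from h)]
  have e2 : E H' (fun β1 => T H β1 (fun η => f (cat β1 η))) =
      ∑' p : List V × List V, w H' p.1 * (K H p.1 p.2 * f (cat p.1 p.2)) := by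
    unfold E
    rw [ENNReal.tsum_prod (f := fun a b => w H' a * (K H a b * f (cat a b)))]
    refine tsum_congr fun β1 => ?_
    simp only
    rw [T_eq, ENNReal.tsum_mul_left]
  rw [e1, e2]
  have hex : ∀ β : {β | Fst H β}, ∃ p : List V × List V, Fst H' p.1 ∧ EBr p.2 ∧
      (β : List V) = cat p.1 p.2 := by
    rintro ⟨β, hβ⟩
    have hβ' : Fst H β := hβ
    obtain ⟨β1, η, a1, a2, a3⟩ := exists_fst (H := H') β.length β le_rfl hβ'.1
      (lt_of_le_of_lt hH hβ'.2.1)
    exact ⟨(β1, η), a1, a2, a3⟩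
  choose g hg1 hg2 hg3 using hex
  have hinj : Function.Injective g := by
    intro β β' h
    apply Subtype.ext
    rw [hg3 β, hg3 β', h]
  refine le_trans (le_of_eq ?_) (ENNReal.tsum_comp_le_tsum_of_injective hinj
    (fun p => w H' p.1 * (K H p.1 p.2 * f (cat p.1 p.2))))
  refine tsum_congr fun β => ?_
  have hβ : Fst H (β : List V) := β.2
  rw [w_pos (hg1 β), K_eq hβ (hg1 β) (hg2 β) (hg3 β), ← hg3 β, ← mul_assoc,
    ← Wt_cat (hg1 β).1.ne (hg2 β).ne, ← hg3 β]

open Classical in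
/-- the tail -/
theorem tail_small {H : ℤ} (hH : 0 ≤ H) {ε : ℝ≥0∞} (hε : ε ≠ 0) :
    ∃ s : Finset (List V), E H (fun β => if β ∈ s then 0 else 1) ≤ ε := by
  have h1 : ∑' β, w H β ≠ ⊤ := by rw [w_sum hH]; exact ENNReal.one_ne_top
  have h2 := ENNReal.tendsto_tsum_compl_atTop_zero h1
  have h3 := (h2.eventually (gt_mem_nhds (pos_iff_ne_zero.2 hε))).exists
  obtain ⟨s, hs⟩ := h3
  refine ⟨s, le_trans (le_of_eq ?_) hs.le⟩
  unfold E
  have e := tsum_subtype {x | x ∉ s} (w H)
  refine Eq.trans ?_ e.symm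
  refine tsum_congr fun β => ?_
  by_cases h : β ∈ s
  · simp only
    rw [if_pos h, mul_zero, Set.indicator_of_notMem (by simpa using h)]
  · simp only
    rw [if_neg h, mul_one, Set.indicator_of_mem (show β ∈ {x | x ∉ s} from h)]

end Pool.Agent.H982.TW
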