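import Pool.Agent.H982.TW3

set_option autoImplicit false

/-! The position of the first visit of a high level is spread out. -/

namespace Pool.Agent.H982.TW

open H978R2.Hex (V Adj adj_iff)
open Pool.Agent.W818.TD
open Filter Topology
open scoped ENNReal

/-- law of the position of the first visit of the level `2 n` -/
noncomputable def u (n : ℕ) (a : ℤ) : ℝ≥0∞ :=
  E (2 * (n : ℤ)) (fun β => if fv (2 * (n : ℤ)) β = a then 1 else 0)

theorem u_le_one (n : ℕ) (a : ℤ) : u n a ≤ 1 :=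
  E_le (by positivity) fun β _ => by split_ifs <;> simp

theorem u_symm (n : ℕ) (a : ℤ) : u n (-a) = u n a := by
  unfold u
  rw [← E_mr]
  congr 1
  funext β
  simp only [fv_mr]
  congr 1
  exact propext neg_inj

/-- the sum over several positions -/
theorem u_sum_le (n : ℕ) {ι : Type*} (I : Finset ι) (f : ι → ℤ)
    (hf : ∀ i ∈ I, ∀ j ∈ I, f i = f j → i = j) : ∑ i ∈ I, u n (f i) ≤ 1 := by
  classical
  unfold u
  rw [E_sum]
  refine E_le (by positivity) fun β _ => ?_
  by_cases h : ∃ i ∈ I, fv (2 * (n : ℤ)) β = f i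
  · obtain ⟨i, hi, hβ⟩ := h
    rw [Finset.sum_eq_single_of_mem i hi]
    · rw [if_pos hβ]
    · intro j hj hne
      rw [if_neg]
      intro h
      exact hne (hf j hj i hi (h.symm.trans hβ))
  · push Not at h
    rw [Finset.sum_eq_zero (fun i hi => if_neg (h i hi))]
    exact zero_le

/-- the simplest irreducible bridge -/
def b0 : List V := [(0, 0), (1, 0), (2, 0)]

theorem la_b0 : la b0 = (2, 0) := rfl

theorem hl_b0 : hl b0 = 2 := rfl

theorem lat_b0 : lat (la b0) = 1 := by
  rw [la_b0]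
  unfold lat
  norm_num

theorem EBr_b0 : EBr b0 := by
  refine ⟨rfl, ?_, ?_, ?_, ?_, ?_⟩
  · unfold b0
    simp only [List.isChain_cons_cons, List.isChain_singleton, and_true, adj_iff]
    omega
  · unfold b0
    decide
  · unfold b0
    simp
  · rw [hl_b0]
    unfold b0
    simp
  · rw [hl_b0]
    norm_num

theorem Fst_b0 : Fst 0 b0 := by
  refine ⟨EBr_b0, by rw [hl_b0]; norm_num, ?_⟩
  intro β1 η h1 h2 h3 h4
  have h5 := hl_cat (β := β1) h2
  rw [← h4, hl_b0] at h5
  have h6 := h1.ev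
  exact h2.trivial_of (by omega)

noncomputable def w0 : ℝ≥0∞ := Wt b0

open Classical in
noncomputable def w0c : ℝ≥0∞ := E 0 (fun β => if β = b0 then 0 else 1)

theorem w0_add : w0 + w0c = 1 := by
  classical
  have h1 : E 0 (fun β => if β = b0 then 1 else 0) = w0 := by
    unfold E
    rw [tsum_eq_single b0]
    · simp only
      rw [if_pos trivial, mul_one, w_pos Fst_b0]
      rfl
    · intro β hβ
      simp only
      rw [if_neg hβ, mul_zero]
  have h2 : (fun β : List V => (if β = b0 then (1 : ℝ≥0∞) else 0) + (if β = b0 then 0 else 1)) =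
      fun _ => 1 := by
    funext β
    split_ifs <;> simp
  unfold w0c
  rw [← h1, ← E_add, h2, E_const (H := 0) le_rfl 1]

theorem w0_pos : w0 ≠ 0 := by
  unfold w0 Wt
  have := mu0_pos'
  rw [ENNReal.ofReal_ne_zero_iff]
  positivity

/-- **the renewal inequality for `u`** -/
theorem star {ε : ℝ≥0∞} (hε : ε ≠ 0) : ∃ k : ℕ, 1 ≤ k ∧ ∀ n : ℕ, k < n → ∀ (a : ℤ) (b : ℝ≥0∞),
    (∀ m : ℕ, n ≤ m + k → m < n → ∀ a', u m a' ≤ b) →
      u n a ≤ w0 * u (n - 1) (a - 1) + w0c * b + ε := by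
  classical
  obtain ⟨s, hs⟩ := tail_small (H := 0) le_rfl hε
  obtain ⟨k, hk1, hk⟩ : ∃ k : ℕ, 1 ≤ k ∧ ∀ β ∈ s, hl β ≤ k := by
    refine ⟨s.sup (fun β => (hl β).toNat) + 1, by omega, fun β hβ => ?_⟩
    have := Finset.le_sup (f := fun β => (hl β).toNat) hβ
    omega
  refine ⟨k, hk1, fun n hn a b hb => ?_⟩
  have hn1 : 1 ≤ n := by omega
  have hgen : ∀ β1 : List V, ∀ j : ℕ, Fst 0 β1 → hl β1 = 2 * (j : ℤ) → j < n →
      T (2 * (n : ℤ)) β1 (fun η => if fv (2 * (n : ℤ)) (cat β1 η) = a then 1 else 0) =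
        u (n - j) (a - lat (la β1)) := by
    intro β1 j h1 h2 h3
    unfold T
    rw [if_pos (by omega)]
    unfold u
    have e : 2 * (n : ℤ) - hl β1 = 2 * ((n - j : ℕ) : ℤ) := by
      rw [h2, Nat.cast_sub h3.le]
      ring
    rw [e]
    apply le_antisymm <;>
    · refine E_mono fun η hη => ?_
      have h4 := fv_cat (N := 2 * (n : ℤ)) h1.1 hη.1 (by omega) (by
        have := hη.2.1
        omega)
      rw [e] at h4
      rw [h4]
      have h5 : (lat (la β1) + fv (2 * ((n - j : ℕ) : ℤ)) η = a) ↔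
          (fv (2 * ((n - j : ℕ) : ℤ)) η = a - lat (la β1)) := by
        constructor <;> intro _ <;> omega
      simp only [h5]
      exact le_rfl
  calc u n a ≤ E 0 (fun β1 => T (2 * (n : ℤ)) β1
        (fun η => if fv (2 * (n : ℤ)) (cat β1 η) = a then 1 else 0)) :=
        renew (by positivity) _
    _ ≤ E 0 (fun β1 => ((if β1 = b0 then u (n - 1) (a - 1) else 0) +
          b * (if β1 = b0 then 0 else 1)) + (if β1 ∈ s then 0 else 1)) := by
        refine E_mono fun β1 h1 => ?_
        by_cases c1 : β1 = b0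
        · rw [if_pos c1]
          have h2 := hgen β1 1 h1 (by rw [c1, hl_b0]; norm_num) (by omega)
          rw [c1, lat_b0] at h2
          rw [c1, h2, add_assoc]
          exact le_self_add
        · by_cases c2 : β1 ∈ s
          · obtain ⟨j, hj⟩ : ∃ j : ℕ, hl β1 = 2 * (j : ℤ) := by
              have h2 := h1.1.hl_nonneg
              have h3 := h1.1.ev
              exact ⟨(hl β1 / 2).toNat, by omega⟩
            have h4 := hk β1 c2
            have h5 := h1.2.1
            rw [hgen β1 j h1 hj (by omega), if_neg c1, if_neg c1, if_pos c2]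
            rw [mul_one, zero_add, add_zero]
            exact hb _ (by omega) (by omega) _
          · rw [if_neg c2]
            refine (T_le (c := 1) fun η => ?_).trans le_add_self
            split_ifs <;> simp
    _ = w0 * u (n - 1) (a - 1) + w0c * b + E 0 (fun β => if β ∈ s then 0 else 1) := by
        rw [E_add, E_add, E_mul]
        have h1 : E 0 (fun β => if β = b0 then u (n - 1) (a - 1) else 0) =
            w0 * u (n - 1) (a - 1) := by
          unfold E
          rw [tsum_eq_single b0]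
          · simp only
            rw [if_pos trivial, w_pos Fst_b0]
            rfl
          · intro β hβ
            simp only
            rw [if_neg hβ, mul_zero]
        rw [h1]
        unfold w0c
        rw [mul_comm b]
    _ ≤ _ := by gcongr

/-- real form -/
noncomputable def v (n : ℕ) (a : ℤ) : ℝ := (u n a).toReal

theorem u_ne_top (n : ℕ) (a : ℤ) : u n a ≠ ⊤ := ne_top_of_le_ne_top ENNReal.one_ne_top (u_le_one n a)

theorem v_nonneg (n : ℕ) (a : ℤ) : 0 ≤ v n a := ENNReal.toReal_nonneg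

theorem v_le_one (n : ℕ) (a : ℤ) : v n a ≤ 1 := by
  unfold v
  exact ENNReal.toReal_le_of_le_ofReal zero_le_one (by rw [ENNReal.ofReal_one]; exact u_le_one n a)

theorem v_symm (n : ℕ) (a : ℤ) : v n (-a) = v n a := by
  unfold v
  rw [u_symm]

theorem v_sum_le (n : ℕ) {ι : Type*} (I : Finset ι) (f : ι → ℤ)
    (hf : ∀ i ∈ I, ∀ j ∈ I, f i = f j → i = j) : ∑ i ∈ I, v n (f i) ≤ 1 := by
  unfold v
  rw [← ENNReal.toReal_sum (fun i _ => u_ne_top n _)]
  exact ENNReal.toReal_le_of_le_ofReal zero_le_one (by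
    rw [ENNReal.ofReal_one]; exact u_sum_le n I f hf)

noncomputable def x0 : ℝ := w0.toReal

theorem w0_ne_top : w0 ≠ ⊤ := ENNReal.ofReal_ne_top

theorem w0c_ne_top : w0c ≠ ⊤ := by
  intro h
  have := w0_add
  rw [h] at this
  simp at this

theorem x0_pos : 0 < x0 := ENNReal.toReal_pos w0_pos w0_ne_top

theorem x0_c : w0c.toReal = 1 - x0 := by
  have := congrArg ENNReal.toReal w0_add
  rw [ENNReal.toReal_add w0_ne_top w0c_ne_top, ENNReal.toReal_one] at this
  unfold x0
  linarith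

theorem x0_le : x0 ≤ 1 := by
  have h1 := x0_c
  have h2 : 0 ≤ w0c.toReal := ENNReal.toReal_nonneg
  linarith

theorem starR {ε : ℝ} (hε : 0 < ε) : ∃ k : ℕ, 1 ≤ k ∧ ∀ n : ℕ, k < n → ∀ (a : ℤ) (b : ℝ), 0 ≤ b →
    (∀ m : ℕ, n ≤ m + k → m < n → ∀ a', v m a' ≤ b) →
      v n a ≤ x0 * v (n - 1) (a - 1) + (1 - x0) * b + ε ∧
      v n a ≤ x0 * v (n - 1) (a + 1) + (1 - x0) * b + ε := by
  obtain ⟨k, hk1, hk⟩ := star (ε := ENNReal.ofReal ε) (by
    rw [ENNReal.ofReal_ne_zero_iff]; exact hε)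
  have main : ∀ n : ℕ, k < n → ∀ (a : ℤ) (b : ℝ), 0 ≤ b →
      (∀ m : ℕ, n ≤ m + k → m < n → ∀ a', v m a' ≤ b) →
        v n a ≤ x0 * v (n - 1) (a - 1) + (1 - x0) * b + ε := by
    intro n hn a b hb h
    have h1 := hk n hn a (ENNReal.ofReal b) (fun m h1 h2 a' =>
      (ENNReal.le_ofReal_iff_toReal_le (u_ne_top m a') hb).2 (h m h1 h2 a'))
    have h2 := ENNReal.toReal_mono (by
      refine ENNReal.add_ne_top.2 ⟨ENNReal.add_ne_top.2 ⟨?_, ?_⟩, ENNReal.ofReal_ne_top⟩
      · exact ENNReal.mul_ne_top w0_ne_top (u_ne_top _ _)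
      · exact ENNReal.mul_ne_top w0c_ne_top ENNReal.ofReal_ne_top) h1
    rw [ENNReal.toReal_add (ENNReal.add_ne_top.2 ⟨ENNReal.mul_ne_top w0_ne_top (u_ne_top _ _),
      ENNReal.mul_ne_top w0c_ne_top ENNReal.ofReal_ne_top⟩) ENNReal.ofReal_ne_top,
      ENNReal.toReal_add (ENNReal.mul_ne_top w0_ne_top (u_ne_top _ _))
      (ENNReal.mul_ne_top w0c_ne_top ENNReal.ofReal_ne_top), ENNReal.toReal_mul,
      ENNReal.toReal_mul, ENNReal.toReal_ofReal hb, ENNReal.toReal_ofReal hε.le, x0_c] at h2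
    exact h2
  refine ⟨k, hk1, fun n hn a b hb h => ⟨main n hn a b hb h, ?_⟩⟩
  have h1 := main n hn (-a) b hb h
  rw [v_symm] at h1
  have e : -a - 1 = -(a + 1) := by ring
  rw [e, v_symm] at h1
  exact h1

end Pool.Agent.H982.TW
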