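import Pool.Agent.H982.TW4

set_option autoImplicit false

/-! Anti-concentration. -/

namespace Pool.Agent.H982.TW

open Filter Topology
open scoped ENNReal

/-- eventual upper bounds of `v` -/
def UB : Set ℝ := {b | ∃ N : ℕ, ∀ n, N ≤ n → ∀ a, v n a ≤ b}

theorem one_UB : (1 : ℝ) ∈ UB := ⟨0, fun n _ a => v_le_one n a⟩

theorem UB_nonneg {b : ℝ} (h : b ∈ UB) : 0 ≤ b := by
  obtain ⟨N, h⟩ := h
  exact (v_nonneg N 0).trans (h N le_rfl 0)

noncomputable def GG : ℝ := sInf UB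

theorem GG_nonneg : 0 ≤ GG := le_csInf ⟨1, one_UB⟩ fun _ h => UB_nonneg h

theorem GG_above {ε : ℝ} (hε : 0 < ε) : ∃ N : ℕ, ∀ n, N ≤ n → ∀ a, v n a ≤ GG + ε := by
  obtain ⟨b, ⟨N, hb⟩, hlt⟩ := exists_lt_of_csInf_lt ⟨1, one_UB⟩ (show sInf UB < GG + ε by
    unfold GG; linarith)
  exact ⟨N, fun n hn a => (hb n hn a).trans hlt.le⟩

theorem GG_below {ε : ℝ} (hε : 0 < ε) (N : ℕ) : ∃ n, N ≤ n ∧ ∃ a, GG - ε ≤ v n a := by
  by_contra h
  push Not at h
  have h1 : GG - ε ∈ UB := ⟨N, fun n hn a => (h n hn a).le⟩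
  have h2 : GG ≤ GG - ε := csInf_le ⟨0, fun b hb => UB_nonneg hb⟩ h1
  linarith

theorem spread (j : ℕ) : ∀ δ : ℝ, 0 < δ → ∃ ε : ℝ, 0 < ε ∧ ∃ N : ℕ, ∀ n, N ≤ n → ∀ a : ℤ,
    GG - ε ≤ v n a → ∀ i : ℕ, i ≤ j → GG - δ ≤ v (n - j) (a - j + 2 * i) := by
  induction j with
  | zero =>
    intro δ hδ
    refine ⟨δ, hδ, 0, fun n _ a h i hi => ?_⟩
    have : i = 0 := by omega
    subst this
    simpa using h
  | succ j ih =>
    intro δ hδ
    have hx := x0_pos
    have hx1 := x0_le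
    obtain ⟨ε, hε, N1, h1⟩ := ih (x0 * δ / 2) (by positivity)
    have he : 0 < x0 * δ / 4 := by positivity
    obtain ⟨k, hk1, hk⟩ := starR he
    obtain ⟨N2, h2⟩ := GG_above he
    refine ⟨ε, hε, N1 + N2 + k + j + 2, fun n hn a ha i hi => ?_⟩
    have key : ∀ i' : ℕ, i' ≤ j →
        GG - δ ≤ v (n - j - 1) (a - j + 2 * i' - 1) ∧
        GG - δ ≤ v (n - j - 1) (a - j + 2 * i' + 1) := by
      intro i' hi'
      have h3 := h1 n (by omega) a ha i' hi'
      obtain ⟨h4, h5⟩ := hk (n - j) (by omega) (a - j + 2 * i') (GG + x0 * δ / 4)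
        (by have := GG_nonneg; positivity) (fun m hm1 hm2 a' => h2 m (by omega) a')
      have h6 : 0 ≤ (1 - x0) * (x0 * δ / 4) := mul_nonneg (by linarith) he.le
      have h7 : (1 - x0) * (x0 * δ / 4) ≤ x0 * δ / 4 := by nlinarith
      constructor
      · have : x0 * (GG - δ) ≤ x0 * v (n - j - 1) (a - j + 2 * i' - 1) := by nlinarith
        exact le_of_mul_le_mul_left this hx
      · have : x0 * (GG - δ) ≤ x0 * v (n - j - 1) (a - j + 2 * i' + 1) := by nlinarith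
        exact le_of_mul_le_mul_left this hx
    have e : n - (j + 1) = n - j - 1 := by omega
    rw [e]
    rcases Nat.lt_or_ge i (j + 1) with h | h
    · have h3 := (key i (by omega)).1
      have e2 : a - ((j + 1 : ℕ) : ℤ) + 2 * i = a - j + 2 * i - 1 := by push_cast; ring
      rw [e2]
      exact h3
    · have hi' : i = j + 1 := by omega
      subst hi'
      have h3 := (key j le_rfl).2
      have e2 : a - ((j + 1 : ℕ) : ℤ) + 2 * ((j + 1 : ℕ) : ℤ) = a - j + 2 * j + 1 := by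
        push_cast; ring
      rw [e2]
      exact h3

theorem GG_zero : GG = 0 := by
  by_contra h
  have hG : 0 < GG := lt_of_le_of_ne GG_nonneg (Ne.symm h)
  obtain ⟨j, hj⟩ := exists_nat_gt (2 / GG)
  obtain ⟨ε, hε, N, h1⟩ := spread j (GG / 2) (by positivity)
  obtain ⟨n, hn, a, ha⟩ := GG_below hε N
  have h2 := v_sum_le (n - j) (Finset.range (j + 1)) (fun i : ℕ => a - j + 2 * (i : ℤ))
    (fun i _ i' _ h => by
      have h' : a - (j : ℤ) + 2 * (i : ℤ) = a - j + 2 * (i' : ℤ) := h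
      omega)
  have h3 : ∑ i ∈ Finset.range (j + 1), GG / 2 ≤
      ∑ i ∈ Finset.range (j + 1), v (n - j) (a - j + 2 * (i : ℤ)) :=
    Finset.sum_le_sum fun i hi => by
      have := h1 n hn a ha i (by rw [Finset.mem_range] at hi; omega)
      linarith
  rw [Finset.sum_const, Finset.card_range, nsmul_eq_mul] at h3
  have h4 : ((j + 1 : ℕ) : ℝ) * (GG / 2) ≤ 1 := h3.trans h2
  have h5 : 2 < j * GG := by
    rw [div_lt_iff₀ hG] at hj
    exact hj
  push_cast at h4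
  nlinarith

/-- **anti-concentration** -/
theorem anti {ε : ℝ≥0∞} (hε : ε ≠ 0) : ∃ N : ℕ, ∀ n, N ≤ n → ∀ a, u n a ≤ ε := by
  by_cases ht : ε = ⊤
  · exact ⟨0, fun n _ a => by rw [ht]; exact le_top⟩
  · have h1 : 0 < ε.toReal := ENNReal.toReal_pos hε ht
    obtain ⟨N, hN⟩ := GG_above h1
    refine ⟨N, fun n hn a => ?_⟩
    have h2 := hN n hn a
    rw [GG_zero, zero_add] at h2
    exact (ENNReal.toReal_le_toReal (u_ne_top n a) ht).1 h2

end Pool.Agent.H982.TW
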