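import Pool.Agent.H982.TW5

set_option autoImplicit false

/-! Two independent infinite walks meet. -/

namespace Pool.Agent.H982.TW

open H978R2.Hex (V Adj adj_iff)
open Pool.Agent.W818.TD
open Filter Topology
open scoped ENNReal

/-- indicator -/
noncomputable def ind (P : Prop) : ℝ≥0∞ := by
  classical exact if P then 1 else 0

theorem ind_pos {P : Prop} (h : P) : ind P = 1 := by
  unfold ind
  rw [if_pos h]

theorem ind_neg {P : Prop} (h : ¬ P) : ind P = 0 := by
  unfold ind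
  rw [if_neg h]

theorem ind_le_one (P : Prop) : ind P ≤ 1 := by
  by_cases h : P
  · rw [ind_pos h]
  · rw [ind_neg h]
    exact zero_le

theorem ind_mono {P Q : Prop} (h : P → Q) : ind P ≤ ind Q := by
  by_cases hP : P
  · rw [ind_pos hP, ind_pos (h hP)]
  · rw [ind_neg hP]
    exact zero_le

/-- the comparison of two first visits -/
theorem compare0 (m m' : ℕ) :
    E (2 * (m : ℤ)) (fun η => E (2 * (m' : ℤ)) (fun η' =>
      ind (fv (2 * (m : ℤ)) η < fv (2 * (m' : ℤ)) η'))) ≤ 1 / 2 := by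
  obtain ⟨A, hA⟩ : ∃ A, A = E (2 * (m : ℤ)) (fun η => E (2 * (m' : ℤ)) (fun η' =>
      ind (fv (2 * (m : ℤ)) η < fv (2 * (m' : ℤ)) η'))) := ⟨_, rfl⟩
  obtain ⟨B, hB⟩ : ∃ B, B = E (2 * (m : ℤ)) (fun η => E (2 * (m' : ℤ)) (fun η' =>
      ind (fv (2 * (m' : ℤ)) η' < fv (2 * (m : ℤ)) η))) := ⟨_, rfl⟩
  have hAB : A = B := by
    rw [hA, hB, ← E_mr]
    congr 1
    funext η
    rw [← E_mr]
    congr 1
    funext η'
    rw [fv_mr, fv_mr]
    congr 1
    exact propext neg_lt_neg_iff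
  have e : B + A ≤ 1 := by
    rw [hA, hB, ← E_add]
    refine E_le (by positivity) fun η _ => ?_
    rw [← E_add]
    refine E_le (by positivity) fun η' _ => ?_
    rcases lt_trichotomy (fv (2 * (m : ℤ)) η) (fv (2 * (m' : ℤ)) η') with h | h | h
    · rw [ind_neg (not_lt.2 h.le), ind_pos h, zero_add]
    · rw [ind_neg (not_lt.2 h.le), ind_neg (not_lt.2 h.ge), zero_add]
      exact zero_le
    · rw [ind_pos h, ind_neg (not_lt.2 h.le), add_zero]
  rw [← hAB] at e
  rw [← hA, ENNReal.le_div_iff_mul_le (Or.inl (by norm_num)) (Or.inl (by norm_num)), mul_two]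
  exact e

theorem compare (m m' : ℕ) (k : ℤ) {ε : ℝ≥0∞} (h : ∀ a, u m a ≤ ε) :
    E (2 * (m : ℤ)) (fun η => E (2 * (m' : ℤ)) (fun η' =>
      ind (fv (2 * (m : ℤ)) η < fv (2 * (m' : ℤ)) η' + k))) ≤ 1 / 2 + (k.toNat : ℝ≥0∞) * ε := by
  classical
  have h1 : E (2 * (m : ℤ)) (fun η => E (2 * (m' : ℤ)) (fun η' =>
      ind (fv (2 * (m : ℤ)) η < fv (2 * (m' : ℤ)) η' + k))) ≤
      E (2 * (m : ℤ)) (fun η => E (2 * (m' : ℤ)) (fun η' =>
      ind (fv (2 * (m : ℤ)) η < fv (2 * (m' : ℤ)) η'))) +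
      E (2 * (m : ℤ)) (fun η => E (2 * (m' : ℤ)) (fun η' =>
      ∑ i ∈ Finset.range k.toNat, ind (fv (2 * (m : ℤ)) η = fv (2 * (m' : ℤ)) η' + i))) := by
    rw [← E_add]
    refine E_mono fun η _ => ?_
    rw [← E_add]
    refine E_mono fun η' _ => ?_
    by_cases h2 : fv (2 * (m : ℤ)) η < fv (2 * (m' : ℤ)) η' + k
    · rw [ind_pos h2]
      by_cases h3 : fv (2 * (m : ℤ)) η < fv (2 * (m' : ℤ)) η'
      · rw [ind_pos h3]
        exact le_self_add
      · have h4 : (1 : ℝ≥0∞) ≤ ∑ i ∈ Finset.range k.toNat,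
            ind (fv (2 * (m : ℤ)) η = fv (2 * (m' : ℤ)) η' + i) := by
          have h5 : (fv (2 * (m : ℤ)) η - fv (2 * (m' : ℤ)) η').toNat ∈
              Finset.range k.toNat := by
            rw [Finset.mem_range]
            omega
          refine le_trans (le_of_eq ?_) (Finset.single_le_sum (f := fun i : ℕ =>
            ind (fv (2 * (m : ℤ)) η = fv (2 * (m' : ℤ)) η' + i)) (fun _ _ => zero_le) h5)
          rw [ind_pos]
          omega
        exact h4.trans le_add_self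
    · rw [ind_neg h2]
      exact zero_le
  refine h1.trans (add_le_add (compare0 m m') ?_)
  rw [E_swap]
  refine E_le (by positivity) fun η' _ => ?_
  rw [← E_sum]
  refine (Finset.sum_le_sum (g := fun _ => ε) fun i _ => ?_).trans ?_
  · refine le_trans (le_of_eq ?_) (h (fv (2 * (m' : ℤ)) η' + i))
    unfold u
    congr 1
    funext η
    unfold ind
    congr
  · rw [Finset.sum_const, Finset.card_range, nsmul_eq_mul]

/-- a relation of pairs of walks which forces an order -/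
structure Rel (R : List V → List V → Prop) (c : ℤ) : Prop where
  mono : ∀ β β' η η' : List V, EBr β → EBr β' → EBr η → EBr η' → 2 ≤ hl β → 2 ≤ hl β' →
    R (cat β η) (cat β' η') → R β β'
  ord : ∀ (N : ℤ) (β β' : List V), 3 ≤ N → EBr β → EBr β' → N ≤ hl β → N ≤ hl β' → R β β' →
    fv N β < fv N β' + c

/-- probability of the relation for two independent walks up to the height `2 n` -/
noncomputable def PR (R : List V → List V → Prop) (n : ℕ) : ℝ≥0∞ :=
  E (2 * (n : ℤ)) (fun β => E (2 * (n : ℤ)) (fun β' => ind (R β β')))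

theorem PR_le_one (R : List V → List V → Prop) (n : ℕ) : PR R n ≤ 1 :=
  E_le (by positivity) fun _ _ => E_le (by positivity) fun _ _ => ind_le_one _

theorem main_step {R : List V → List V → Prop} {c : ℤ} (hR : Rel R c) (n' : ℕ) {ε : ℝ≥0∞}
    (hε : ε ≠ 0) : ∃ n0 : ℕ, ∀ n, n0 ≤ n → PR R n ≤ (1 / 2 + ε) * PR R n' + 2 * ε := by
  classical
  obtain ⟨s, hs⟩ := tail_small (H := 2 * (n' : ℤ)) (by positivity) hε
  obtain ⟨k, hk⟩ : ∃ k : ℕ, ∀ β ∈ s, hl β ≤ k ∧ |lat (la β)| ≤ k := by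
    refine ⟨s.sup (fun β => (hl β).toNat) + s.sup (fun β => (lat (la β)).natAbs),
      fun β hβ => ?_⟩
    have h1 := Finset.le_sup (f := fun β => (hl β).toNat) hβ
    have h2 := Finset.le_sup (f := fun β => (lat (la β)).natAbs) hβ
    constructor
    · omega
    · rw [Int.abs_eq_natAbs]
      omega
  obtain ⟨C, hC⟩ : ∃ C : ℕ, C = 2 * k + c.natAbs + 1 := ⟨_, rfl⟩
  have hε' : ε / (C : ℝ≥0∞) ≠ 0 := by
    rw [Ne, ENNReal.div_eq_zero_iff, not_or]
    exact ⟨hε, ENNReal.natCast_ne_top C⟩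
  obtain ⟨N, hN⟩ := anti hε'
  refine ⟨N + k + n' + 2, fun n hn => ?_⟩
  have hle : 2 * (n' : ℤ) ≤ 2 * (n : ℤ) := by omega
  have hX : ∀ β1 β1' : List V, Fst (2 * (n' : ℤ)) β1 → Fst (2 * (n' : ℤ)) β1' →
      T (2 * (n : ℤ)) β1 (fun η => T (2 * (n : ℤ)) β1' (fun η' =>
        ind (R (cat β1 η) (cat β1' η')))) ≤
      (1 / 2 + ε) * ind (R β1 β1') + (if β1 ∈ s then 0 else 1) + (if β1' ∈ s then 0 else 1) := by
    intro β1 β1' h1 h1'
    by_cases c1 : β1 ∈ s
    swap
    · rw [if_neg c1]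
      refine (T_le (c := 1) fun η => T_le fun η' => ind_le_one _).trans ?_
      rw [add_right_comm]
      exact le_add_self
    by_cases c2 : β1' ∈ s
    swap
    · rw [if_neg c2]
      exact (T_le (c := 1) fun η => T_le fun η' => ind_le_one _).trans le_add_self
    rw [if_pos c1, if_pos c2, add_zero, add_zero]
    obtain ⟨a1, a2⟩ := hk β1 c1
    obtain ⟨b1, b2⟩ := hk β1' c2
    obtain ⟨j, hj⟩ : ∃ j : ℕ, hl β1 = 2 * (j : ℤ) := by
      have h2 := h1.1.hl_nonneg
      have h3 := h1.1.ev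
      exact ⟨(hl β1 / 2).toNat, by omega⟩
    obtain ⟨j', hj'⟩ : ∃ j : ℕ, hl β1' = 2 * (j : ℤ) := by
      have h2 := h1'.1.hl_nonneg
      have h3 := h1'.1.ev
      exact ⟨(hl β1' / 2).toNat, by omega⟩
    have p1 := h1.2.1
    have p1' := h1'.2.1
    have e1 : 2 * (n : ℤ) - hl β1 = 2 * ((n - j : ℕ) : ℤ) := by
      rw [hj, Nat.cast_sub (by omega)]
      ring
    have e2 : 2 * (n : ℤ) - hl β1' = 2 * ((n - j' : ℕ) : ℤ) := by
      rw [hj', Nat.cast_sub (by omega)]
      ring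
    have hT : T (2 * (n : ℤ)) β1 (fun η => T (2 * (n : ℤ)) β1' (fun η' =>
        ind (R (cat β1 η) (cat β1' η')))) =
        E (2 * ((n - j : ℕ) : ℤ)) (fun η => E (2 * ((n - j' : ℕ) : ℤ)) (fun η' =>
        ind (R (cat β1 η) (cat β1' η')))) := by
      unfold T
      rw [if_pos (by omega), e1]
      congr 1
      funext η
      rw [if_pos (by omega), e2]
    rw [hT]
    by_cases c3 : R β1 β1'
    · rw [ind_pos c3, mul_one]
      refine le_trans ?_ ((compare (n - j) (n - j') (lat (la β1') - lat (la β1) + c)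
        (hN (n - j) (by omega))).trans ?_)
      · refine E_mono fun η hη => E_mono fun η' hη' => ind_mono fun hRc => ?_
        have q1 := hη.2.1
        have q2 := hη'.2.1
        have h4 := hR.ord (2 * (n : ℤ)) (cat β1 η) (cat β1' η') (by omega)
          (cat_EBr h1.1 hη.1) (cat_EBr h1'.1 hη'.1) (by rw [hl_cat hη.1]; omega)
          (by rw [hl_cat hη'.1]; omega) hRc
        rw [fv_cat h1.1 hη.1 (by omega) (by omega), fv_cat h1'.1 hη'.1 (by omega) (by omega),
          e1, e2] at h4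
        omega
      · gcongr
        have h5 : (lat (la β1') - lat (la β1) + c).toNat ≤ C := by
          rw [abs_le] at a2 b2
          omega
        calc ((lat (la β1') - lat (la β1) + c).toNat : ℝ≥0∞) * (ε / C) ≤ C * (ε / C) := by
              gcongr
          _ = ε := ENNReal.mul_div_cancel (by
                rw [hC]
                simp) (ENNReal.natCast_ne_top C)
    · rw [ind_neg c3, mul_zero]
      refine (E_le (c := 0) (by positivity) fun η hη => ?_)
      refine (E_le (c := 0) (by positivity) fun η' hη' => ?_)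
      rw [ind_neg]
      intro hRc
      exact c3 (hR.mono β1 β1' η η' h1.1 h1'.1 hη.1 hη'.1 (by omega) (by omega) hRc)
  calc PR R n ≤ E (2 * (n : ℤ)) (fun β => E (2 * (n' : ℤ)) (fun β1' =>
        T (2 * (n : ℤ)) β1' (fun η' => ind (R β (cat β1' η'))))) :=
        E_mono fun β _ => renew hle _
    _ = E (2 * (n' : ℤ)) (fun β1' => E (2 * (n : ℤ)) (fun β =>
        T (2 * (n : ℤ)) β1' (fun η' => ind (R β (cat β1' η'))))) := E_swap _ _ _
    _ ≤ E (2 * (n' : ℤ)) (fun β1' => E (2 * (n' : ℤ)) (fun β1 =>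
        T (2 * (n : ℤ)) β1 (fun η => T (2 * (n : ℤ)) β1' (fun η' =>
          ind (R (cat β1 η) (cat β1' η')))))) := E_mono fun β1' _ => renew hle _
    _ ≤ E (2 * (n' : ℤ)) (fun β1' => E (2 * (n' : ℤ)) (fun β1 =>
        (1 / 2 + ε) * ind (R β1 β1') + (if β1 ∈ s then 0 else 1) +
          (if β1' ∈ s then 0 else 1))) :=
        E_mono fun β1' h1' => E_mono fun β1 h1 => hX β1 β1' h1 h1'
    _ = E (2 * (n' : ℤ)) (fun β1' => (1 / 2 + ε) * E (2 * (n' : ℤ)) (fun β1 => ind (R β1 β1')) +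
          E (2 * (n' : ℤ)) (fun β1 => if β1 ∈ s then 0 else 1) +
          (if β1' ∈ s then 0 else 1)) := by
        congr 1
        funext β1'
        rw [E_add, E_add, E_mul, E_const (by positivity)]
    _ = (1 / 2 + ε) * PR R n' + E (2 * (n' : ℤ)) (fun β1 => if β1 ∈ s then 0 else 1) +
          E (2 * (n' : ℤ)) (fun β1' => if β1' ∈ s then 0 else 1) := by
        rw [E_add, E_add, E_mul, E_const (by positivity)]
        unfold PR
        rw [E_swap]
    _ ≤ (1 / 2 + ε) * PR R n' + ε + ε := by gcongr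
    _ = _ := by rw [two_mul, add_assoc]

end Pool.Agent.H982.TW
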