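import Pool.Agent.H982.TW6

set_option autoImplicit false

/-! The probability tends to zero; two relations. -/

namespace Pool.Agent.H982.TW

open H978R2.Hex (V Adj adj_iff)
open Pool.Agent.W818.TD
open Filter Topology
open scoped ENNReal

theorem PR_ne_top (R : List V → List V → Prop) (n : ℕ) : PR R n ≠ ⊤ :=
  ne_top_of_le_ne_top ENNReal.one_ne_top (PR_le_one R n)

/-- **the probability tends to zero** -/
theorem PR_lim {R : List V → List V → Prop} {c : ℤ} (hR : Rel R c) {ε : ℝ} (hε : 0 < ε) :
    ∃ N : ℕ, ∀ n, N ≤ n → PR R n ≤ ENNReal.ofReal ε := by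
  let q : ℕ → ℝ := fun n => (PR R n).toReal
  have hq0 : ∀ n, 0 ≤ q n := fun n => ENNReal.toReal_nonneg
  have hq1 : ∀ n, q n ≤ 1 := fun n => ENNReal.toReal_le_of_le_ofReal zero_le_one (by
    rw [ENNReal.ofReal_one]; exact PR_le_one R n)
  have step : ∀ n' : ℕ, ∀ δ : ℝ, 0 < δ → ∃ n0 : ℕ, ∀ n, n0 ≤ n → q n ≤ q n' / 2 + δ := by
    intro n' δ hδ
    have h3 : 0 < δ / 3 := by positivity
    obtain ⟨n0, hn0⟩ := main_step hR n' (ε := ENNReal.ofReal (δ / 3)) (by
      rw [ENNReal.ofReal_ne_zero_iff]; exact h3)
    refine ⟨n0, fun n hn => ?_⟩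
    have h4 := hn0 n hn
    have e : (1 / 2 + ENNReal.ofReal (δ / 3)) * PR R n' + 2 * ENNReal.ofReal (δ / 3) =
        ENNReal.ofReal ((1 / 2 + δ / 3) * q n' + 2 * (δ / 3)) := by
      rw [ENNReal.ofReal_add (mul_nonneg (by positivity) (hq0 n')) (by positivity),
        ENNReal.ofReal_mul (by positivity), ENNReal.ofReal_add (by norm_num) h3.le,
        ENNReal.ofReal_mul (by norm_num), ENNReal.ofReal_toReal (PR_ne_top R n')]
      congr 2
      · congr 1
        rw [ENNReal.ofReal_div_of_pos (by norm_num)]
        simp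
      · simp
    rw [e] at h4
    have h5 := ENNReal.toReal_le_of_le_ofReal (by
      have := hq0 n'
      positivity) h4
    have h6 := hq1 n'
    change q n ≤ _ at h5
    nlinarith
  let UB : Set ℝ := {b | ∃ N : ℕ, ∀ n, N ≤ n → q n ≤ b}
  have hne : UB.Nonempty := ⟨1, 0, fun n _ => hq1 n⟩
  have hbd : BddBelow UB := ⟨0, fun b ⟨N, hb⟩ => (hq0 N).trans (hb N le_rfl)⟩
  obtain ⟨g, hg⟩ : ∃ g, g = sInf UB := ⟨_, rfl⟩
  have hg0 : 0 ≤ g := by
    rw [hg]
    exact le_csInf hne fun b ⟨N, hb⟩ => (hq0 N).trans (hb N le_rfl)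
  have h1 : ∀ n', g ≤ q n' / 2 := by
    intro n'
    apply le_of_forall_pos_le_add
    intro δ hδ
    obtain ⟨n0, h⟩ := step n' δ hδ
    rw [hg]
    exact csInf_le hbd ⟨n0, h⟩
  have h2 : g = 0 := by
    by_contra hne0
    have hgp : 0 < g := lt_of_le_of_ne hg0 (Ne.symm hne0)
    obtain ⟨b, ⟨N, hb⟩, hlt⟩ := exists_lt_of_csInf_lt hne (show sInf UB < 3 / 2 * g by
      rw [← hg]; linarith)
    have h3 := hb N le_rfl
    have h4 := h1 N
    linarith
  obtain ⟨b, ⟨N, hb⟩, hlt⟩ := exists_lt_of_csInf_lt hne (show sInf UB < ε by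
    rw [← hg, h2]; exact hε)
  refine ⟨N, fun n hn => ?_⟩
  rw [← ENNReal.ofReal_toReal (PR_ne_top R n)]
  exact ENNReal.ofReal_le_ofReal ((hb n hn).trans hlt.le)

/-- the second walk starts to the right of the first one and avoids it -/
def R0 (β β' : List V) : Prop := β'.tail.tail.head? = some (2, 0) ∧ ∀ v ∈ β'.tail.tail, v ∉ β

theorem tail2_cat {β η : List V} (h : EBr β) (h1 : 2 ≤ hl β) :
    ∃ c t, β = (0, 0) :: (1, 0) :: c :: t ∧
      cat β η = (0, 0) :: (1, 0) :: c :: (t ++ tr (la β) η.tail) := by
  obtain ⟨t, ht⟩ := Q294.Sl.two_cons h (by omega)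
  match t, ht with
  | [], ht =>
    exfalso
    rw [ht] at h1
    unfold hl la at h1
    simp at h1
  | c :: t, ht =>
    refine ⟨c, t, ht, ?_⟩
    unfold cat
    conv_lhs => rw [ht]
    simp [ht]

theorem mem_cat_left {β η : List V} {v : V} (h : v ∈ β) : v ∈ cat β η := by
  unfold cat
  exact List.mem_append_left _ h

/-- data for the order lemma -/
theorem split2 {β : List V} {N : ℤ} (h : EBr β) (h1 : 3 ≤ N) (h2 : N ≤ hl β) :
    ∃ A v, (∃ B, β = (0, 0) :: (1, 0) :: (A ++ v :: B)) ∧ A ≠ [] ∧ lev v = N ∧
      fv N β = lat v ∧ ((1, 0) :: (A ++ [v])).IsChain Adj ∧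
      (∀ w ∈ (1, 0) :: (A ++ [v]), 1 ≤ lev w) ∧ (∀ w ∈ (1, 0) :: A, lev w < N) := by
  obtain ⟨A, v, B, e1, e2, e3, e4⟩ := split_fv h (by omega) h2
  obtain ⟨t, ht⟩ := Q294.Sl.two_cons h (by omega)
  rw [ht, List.cons.injEq] at e1
  match A, e1, e3 with
  | [], e1, _ =>
    exfalso
    have := e1.2
    rw [List.nil_append, List.cons.injEq] at this
    rw [← this.1] at e2
    unfold lev at e2
    simp only at e2
    omega
  | a :: A, e1, e3 =>
    have e5 := e1.2
    rw [List.cons_append, List.cons.injEq] at e5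
    have ha : a = (1, 0) := e5.1.symm
    have hβ : β = (0, 0) :: (1, 0) :: (A ++ v :: B) := by rw [ht, e5.2]
    have hch : ((1, 0) :: (A ++ [v])).IsChain Adj := by
      have hc := h.ch
      rw [hβ] at hc
      have e6 : (0, 0) :: (1, 0) :: (A ++ v :: B) = (0, 0) :: (((1, 0) :: (A ++ [v])) ++ B) := by
        simp
      rw [e6] at hc
      exact (List.isChain_append.1 hc.tail).1
    refine ⟨A, v, ⟨B, hβ⟩, ?_, e2, e4, hch, ?_, ?_⟩
    · rintro rfl
      have h7 : Adj (1, 0) v := by simpa using hch
      rw [adj_iff] at h7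
      unfold lev at e2
      simp only at h7
      omega
    · intro w hw
      have h8 := h.pos w (by
        rw [hβ, List.tail_cons]
        simp only [List.mem_cons, List.mem_append, List.mem_singleton, List.not_mem_nil,
          or_false] at hw ⊢
        tauto)
      exact h8
    · intro w hw
      exact e3 w (by rw [ha]; exact hw)

theorem R0_rel : Rel R0 0 := by
  refine ⟨?_, ?_⟩
  · intro β β' η η' h1 h2 h3 h4 h5 h6 hR
    obtain ⟨c, t, a1, a2⟩ := tail2_cat (η := η') h2 h6
    obtain ⟨r1, r2⟩ := hR
    rw [a2] at r1 r2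
    simp only [List.tail_cons, List.head?_cons, Option.some.injEq] at r1 r2
    refine ⟨?_, ?_⟩
    · rw [a1]
      simp only [List.tail_cons, List.head?_cons, Option.some.injEq]
      exact r1
    · intro v hv hv'
      rw [a1] at hv
      simp only [List.tail_cons] at hv
      refine r2 v ?_ (mem_cat_left hv')
      rcases List.mem_cons.1 hv with h | h
      · rw [h]; exact List.mem_cons_self
      · exact List.mem_cons_of_mem _ (List.mem_append_left _ h)
  · intro N β β' hN h1 h2 h3 h4 hR
    obtain ⟨A, v, ⟨B, hβ⟩, hA, hv, hf, hc, hlow, hlt⟩ := split2 h1 hN h3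
    obtain ⟨A', v', ⟨B', hβ'⟩, hA', hv', hf', hc', hlow', hlt'⟩ := split2 h2 hN h4
    obtain ⟨r1, r2⟩ := hR
    rw [hβ'] at r1 r2
    simp only [List.tail_cons] at r1 r2
    obtain ⟨c, A2, hA2⟩ := List.exists_cons_of_ne_nil hA'
    have hc2 : c = (2, 0) := by
      rw [hA2] at r1
      simpa using r1
    have hdis : ∀ w ∈ A' ++ [v'], w ∉ (1, 0) :: (A ++ [v]) := by
      intro w hw hw'
      refine r2 w ?_ ?_
      · simp only [List.mem_append, List.mem_singleton, List.mem_cons] at hw ⊢
        tauto
      · rw [hβ]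
        simp only [List.mem_append, List.mem_singleton, List.mem_cons, List.not_mem_nil,
          or_false] at hw' ⊢
        tauto
    have hup := up_start hN hc (by simp) (by simp) (by simpa using hv) hlow (by
      have := hdis c (by rw [hA2]; simp)
      rwa [hc2] at this)
    have ho := order (N := N) (P := (1, 0) :: (A ++ [v])) (Q := A' ++ [v']) (by omega) hc
      (by simp) (by simp [lev]) (by simpa using hv) (by
        intro w hw
        by_cases hwv : w = v
        · rw [hwv, hv]
        · refine (hlt w ?_).le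
          simp only [List.mem_append, List.mem_singleton, List.mem_cons, List.not_mem_nil,
            or_false] at hw ⊢
          tauto) (by simp) hc'.tail (fun w hw => hlow' w (List.mem_cons_of_mem _ hw)) (by
        intro w hw
        rw [List.dropLast_concat] at hw
        exact hlt' w (List.mem_cons_of_mem _ hw)) (by simpa using hv') (by
        rw [List.length_append, List.length_singleton, hA2, List.length_cons]
        omega) hdis (by
        have : (A' ++ [v']).head (by simp) = (2, 0) := by
          simp only [hA2, List.cons_append, List.head_cons, hc2]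
        rw [this]
        exact hup)
    rw [hf, hf', add_zero]
    simp only [List.getLast_cons (show A ++ [v] ≠ [] by simp), List.getLast_append_singleton]
      at ho
    unfold lat
    unfold lev at hv hv'
    omega

/-- the second walk, moved to the right by `j`, avoids the first one -/
def RJ (j : ℤ) (β β' : List V) : Prop := ∀ v ∈ β'.tail, v + (j, j) ∉ β

theorem RJ_rel {j : ℤ} (hj : 0 ≤ j) : Rel (RJ j) (2 * j) := by
  refine ⟨?_, ?_⟩
  · intro β β' η η' h1 h2 h3 h4 h5 h6 hR v hv hv'
    obtain ⟨c, t, a1, a2⟩ := tail2_cat (η := η') h2 h6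
    refine hR v ?_ (mem_cat_left hv')
    rw [a2]
    rw [a1] at hv
    simp only [List.tail_cons, List.mem_cons, List.mem_append] at hv ⊢
    tauto
  · intro N β β' hN h1 h2 h3 h4 hR
    obtain ⟨A, v, ⟨B, hβ⟩, hA, hv, hf, hc, hlow, hlt⟩ := split2 h1 hN h3
    obtain ⟨A', v', ⟨B', hβ'⟩, hA', hv', hf', hc', hlow', hlt'⟩ := split2 h2 hN h4
    have hlev : ∀ w : V, lev (w + (j, j)) = lev w := by
      intro w
      unfold lev
      simp only [Prod.fst_add, Prod.snd_add]
      ring
    obtain ⟨Q, hQ⟩ : ∃ Q, Q = tr (j, j) ((1, 0) :: (A' ++ [v'])) := ⟨_, rfl⟩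
    have hQe : Q = ((1 + j, j) :: tr (j, j) A') ++ [v' + (j, j)] := by
      rw [hQ]
      unfold tr
      simp
    have hQne : Q ≠ [] := by rw [hQe]; simp
    have hQc : Q.IsChain Adj := by
      rw [hQ]
      exact chain_tr (by simp only; omega) hc'
    have hQm : ∀ w ∈ Q, ∃ x ∈ (1, 0) :: (A' ++ [v']), w = x + (j, j) := by
      intro w hw
      rw [hQ, mem_tr] at hw
      exact ⟨_, hw, by simp⟩
    have hdis : ∀ w ∈ Q, w ∉ (1, 0) :: (A ++ [v]) := by
      intro w hw hw'
      obtain ⟨x, hx, rfl⟩ := hQm w hw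
      refine hR x ?_ ?_
      · rw [hβ', List.tail_cons]
        simp only [List.mem_append, List.mem_singleton, List.mem_cons, List.not_mem_nil,
          or_false] at hx ⊢
        tauto
      · rw [hβ]
        simp only [List.mem_append, List.mem_singleton, List.mem_cons, List.not_mem_nil,
          or_false] at hw' ⊢
        tauto
    have hup := up_start' (N := N) (j := j) (by omega) hj hc (by simp) (by simp)
      (by simpa using hv) hlow
    have ho := order (N := N) (P := (1, 0) :: (A ++ [v])) (Q := Q) (by omega) hc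
      (by simp) (by simp [lev]) (by simpa using hv) (by
        intro w hw
        by_cases hwv : w = v
        · rw [hwv, hv]
        · refine (hlt w ?_).le
          simp only [List.mem_append, List.mem_singleton, List.mem_cons, List.not_mem_nil,
            or_false] at hw ⊢
          tauto) hQne hQc (by
        intro w hw
        obtain ⟨x, hx, rfl⟩ := hQm w hw
        rw [hlev]
        exact hlow' x hx) (by
        intro w hw
        rw [hQe, List.dropLast_concat] at hw
        rcases List.mem_cons.1 hw with h | h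
        · rw [h]
          unfold lev
          simp only
          omega
        · rw [mem_tr] at h
          have h9 := hlt' _ (List.mem_cons_of_mem _ h)
          have h10 := hlev (w - (j, j))
          rw [sub_add_cancel] at h10
          omega) (by
        simp only [hQe, List.getLast_append_singleton, hlev]
        exact hv') (by
        rw [hQe]
        simp) hdis (by
        have : Q.head hQne = (1 + j, j) := by
          simp only [hQe, List.cons_append, List.head_cons]
        rw [this]
        exact hup)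
    rw [hf, hf']
    simp only [List.getLast_cons (show A ++ [v] ≠ [] by simp), List.getLast_append_singleton,
      hQe, Prod.snd_add] at ho
    unfold lat
    unfold lev at hv hv'
    omega

end Pool.Agent.H982.TW
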