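import Pool.Agent.H982.TW7

set_option autoImplicit false

/-! Walks which cross a strip. -/

namespace Pool.Agent.H982.TW

open H978R2.Hex (V Adj adj_iff)
open Pool.Agent.W818.TD
open Pool.Agent.Y981.GP (bb bb_le_one)
open Filter Topology
open scoped ENNReal

/-- weights of the bridges with height `d` -/
noncomputable def vd (d : ℤ) (β : List V) : ℝ≥0∞ := {β | EBr β ∧ hl β = d}.indicator Wt β

theorem vd_pos {d : ℤ} {β : List V} (h : EBr β) (h2 : hl β = d) : vd d β = Wt β :=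
  Set.indicator_of_mem (show β ∈ {β | EBr β ∧ hl β = d} from ⟨h, h2⟩) _

theorem vd_neg {d : ℤ} {β : List V} (h : ¬ (EBr β ∧ hl β = d)) : vd d β = 0 :=
  Set.indicator_of_notMem (show β ∉ {β | EBr β ∧ hl β = d} from h) _

noncomputable def ES (d : ℤ) (f : List V → ℝ≥0∞) : ℝ≥0∞ := ∑' β, vd d β * f β

theorem ES_mono {d : ℤ} {f g : List V → ℝ≥0∞} (h : ∀ β, EBr β → hl β = d → f β ≤ g β) :
    ES d f ≤ ES d g := by
  unfold ES
  refine ENNReal.tsum_le_tsum fun β => ?_
  by_cases hβ : EBr β ∧ hl β = d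
  · exact mul_le_mul_right (h β hβ.1 hβ.2) _
  · rw [vd_neg hβ, zero_mul, zero_mul]

theorem ES_mul (d : ℤ) (c : ℝ≥0∞) (f : List V → ℝ≥0∞) : ES d (fun β => c * f β) = c * ES d f := by
  unfold ES
  rw [← ENNReal.tsum_mul_left]
  refine tsum_congr fun β => ?_
  ring

theorem ES_const (d : ℤ) (c : ℝ≥0∞) : ES d (fun _ => c) = c * ES d (fun _ => 1) := by
  rw [← ES_mul]
  simp only [mul_one]

theorem ES_one (T : ℕ) : ES (2 * (T : ℤ)) (fun _ => 1) = bb T := by
  unfold ES bb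
  rw [M_ind]
  refine tsum_congr fun β => ?_
  rw [mul_one]
  rfl

theorem ES_swap (d H : ℤ) (f : List V → List V → ℝ≥0∞) :
    ES d (fun β => E H (fun β' => f β β')) = E H (fun β' => ES d (fun β => f β β')) := by
  unfold E ES
  simp only [← ENNReal.tsum_mul_left]
  rw [ENNReal.tsum_comm]
  refine tsum_congr fun β' => tsum_congr fun β => ?_
  ring

/-- renewal inequality for strips -/
theorem renewS {d H : ℤ} (hH : H < d) (f : List V → ℝ≥0∞) :
    ES d f ≤ E H (fun β1 => ES (d - hl β1) (fun η => f (cat β1 η))) := by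
  have e1 : ES d f = ∑' β : {β | EBr β ∧ hl β = d}, Wt β * f β := by
    unfold ES
    rw [tsum_subtype {β | EBr β ∧ hl β = d} (fun β => Wt β * f β)]
    refine tsum_congr fun β => ?_
    by_cases h : EBr β ∧ hl β = d
    · rw [vd_pos h.1 h.2, Set.indicator_of_mem (show β ∈ {β | EBr β ∧ hl β = d} from h)]
    · rw [vd_neg h, zero_mul,
        Set.indicator_of_notMem (show β ∉ {β | EBr β ∧ hl β = d} from h)]
  have e2 : E H (fun β1 => ES (d - hl β1) (fun η => f (cat β1 η))) =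
      ∑' p : List V × List V, w H p.1 * (vd (d - hl p.1) p.2 * f (cat p.1 p.2)) := by
    unfold E
    rw [ENNReal.tsum_prod (f := fun a b => w H a * (vd (d - hl a) b * f (cat a b)))]
    refine tsum_congr fun β1 => ?_
    simp only
    unfold ES
    rw [ENNReal.tsum_mul_left]
  rw [e1, e2]
  have hex : ∀ β : {β | EBr β ∧ hl β = d}, ∃ p : List V × List V, Fst H p.1 ∧ EBr p.2 ∧
      (β : List V) = cat p.1 p.2 := by
    rintro ⟨β, hβ⟩
    obtain ⟨β1, η, a1, a2, a3⟩ := exists_fst (H := H) β.length β le_rfl hβ.1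
      (by rw [hβ.2]; exact hH)
    exact ⟨(β1, η), a1, a2, a3⟩
  choose g hg1 hg2 hg3 using hex
  have hinj : Function.Injective g := by
    intro β β' h
    apply Subtype.ext
    rw [hg3 β, hg3 β', h]
  refine le_trans (le_of_eq ?_) (ENNReal.tsum_comp_le_tsum_of_injective hinj
    (fun p => w H p.1 * (vd (d - hl p.1) p.2 * f (cat p.1 p.2))))
  refine tsum_congr fun β => ?_
  have hβ : hl (β : List V) = d := β.2.2
  have h5 := hl_cat (β := (g β).1) (hg2 β)
  rw [← hg3 β, hβ] at h5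
  rw [w_pos (hg1 β), vd_pos (hg2 β) (by omega), ← hg3 β, ← mul_assoc,
    ← Wt_cat (hg1 β).1.ne (hg2 β).ne, ← hg3 β]

/-- conservation of mass -/
theorem conserve (d H : ℤ) : E H (fun β1 => ES (d - hl β1) (fun _ => 1)) ≤ ES d (fun _ => 1) := by
  have e2 : E H (fun β1 => ES (d - hl β1) (fun _ => 1)) =
      ∑' p : List V × List V, w H p.1 * vd (d - hl p.1) p.2 := by
    unfold E
    rw [ENNReal.tsum_prod (f := fun a b => w H a * vd (d - hl a) b)]
    refine tsum_congr fun β1 => ?_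
    simp only
    unfold ES
    rw [ENNReal.tsum_mul_left]
    simp only [mul_one]
  obtain ⟨S, hS⟩ : ∃ S : Set (List V × List V), S = {p | Fst H p.1 ∧ EBr p.2 ∧
    hl p.2 = d - hl p.1} := ⟨_, rfl⟩
  have e3 : ∑' p : List V × List V, w H p.1 * vd (d - hl p.1) p.2 =
      ∑' p : S, Wt (cat p.1.1 p.1.2) := by
    rw [tsum_subtype S (fun p : List V × List V => Wt (cat p.1 p.2))]
    refine tsum_congr fun p => ?_
    by_cases h : p ∈ S
    · rw [Set.indicator_of_mem h]
      rw [hS] at h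
      obtain ⟨h1, h2, h3⟩ := h
      rw [w_pos h1, vd_pos h2 h3, Wt_cat h1.1.ne h2.ne]
    · rw [Set.indicator_of_notMem h]
      rw [hS] at h
      by_cases h1 : Fst H p.1
      · rw [vd_neg (fun h2 => h ⟨h1, h2.1, h2.2⟩), mul_zero]
      · rw [w_neg h1, zero_mul]
  rw [e2, e3]
  have hmem : ∀ p : S, Fst H p.1.1 ∧ EBr p.1.2 ∧ hl p.1.2 = d - hl p.1.1 := by
    rintro ⟨p, hp⟩
    rw [hS] at hp
    exact hp
  have hinj : Function.Injective (fun p : S => cat p.1.1 p.1.2) := by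
    intro p q h
    obtain ⟨a1, a2, a3⟩ := hmem p
    obtain ⟨b1, b2, b3⟩ := hmem q
    have h2 := fst_unique a1 b1 a2 b2 h
    exact Subtype.ext (Prod.ext h2.1 h2.2)
  have h6 : ∑' p : S, Wt (cat p.1.1 p.1.2) = ∑' p : S, (vd d (cat p.1.1 p.1.2)) := by
    refine tsum_congr fun p => ?_
    obtain ⟨a1, a2, a3⟩ := hmem p
    rw [vd_pos (cat_EBr a1.1 a2) (by rw [hl_cat a2]; omega)]
  rw [h6]
  refine (ENNReal.tsum_comp_le_tsum_of_injective hinj (fun β => vd d β)).trans (le_of_eq ?_)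
  unfold ES
  simp only [mul_one]

/-- probability of the relation for two crossing walks, not normalised -/
noncomputable def SR (R : List V → List V → Prop) (T : ℕ) : ℝ≥0∞ :=
  ES (2 * (T : ℤ)) (fun β => ES (2 * (T : ℤ)) (fun β' => ind (R β β')))

theorem ratio (j : ℕ) : ∀ ε : ℝ, 0 < ε → ∃ N : ℕ, ∀ T : ℕ, N ≤ T →
    bb T ≤ ENNReal.ofReal (1 + ε) * bb (T + j) := by
  induction j with
  | zero =>
    intro ε hε
    refine ⟨0, fun T _ => ?_⟩
    rw [add_zero]
    calc bb T = 1 * bb T := (one_mul _).symm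
      _ ≤ _ := by
        gcongr
        rw [← ENNReal.ofReal_one]
        exact ENNReal.ofReal_le_ofReal (by linarith)
  | succ j ih =>
    intro ε hε
    obtain ⟨δ, hδ, hδ1, hδ2⟩ : ∃ δ : ℝ, 0 < δ ∧ δ ≤ 1 ∧ δ ≤ ε / 3 :=
      ⟨min 1 (ε / 3), by positivity, min_le_left _ _, min_le_right _ _⟩
    obtain ⟨N, hN⟩ := ih δ hδ
    have h1 : Tendsto (fun T : ℕ => 5 * (T : ℝ) ^ (-(23 / 200) : ℝ)) atTop (𝓝 0) := by
      have h2 := (tendsto_rpow_neg_atTop (y := (23 / 200 : ℝ)) (by norm_num)).comp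
        (tendsto_natCast_atTop_atTop (R := ℝ))
      have h3 := h2.const_mul 5
      rw [mul_zero] at h3
      exact h3
    obtain ⟨N2, hN2⟩ := eventually_atTop.1 (h1.eventually (gt_mem_nhds hδ))
    refine ⟨N + N2 + 1, fun T hT => ?_⟩
    have h4 := hN T (by omega)
    have h5 := (Q294.Sl.main_mass (T := T + j) (by omega)).2.2.2
    have h6 := hN2 (T + j) (by omega)
    have h7 : bb (T + j) ≤ ENNReal.ofReal (1 + δ) * bb (T + j + 1) := by
      rw [← Q294.Sl.mass_cross (T := T + j) (by omega),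
        ← Q294.Sl.mass_cross (T := T + j + 1) (by omega), mul_left_comm]
      gcongr
      refine h5.trans ?_
      gcongr
    refine h4.trans ?_
    rw [← add_assoc]
    calc ENNReal.ofReal (1 + δ) * bb (T + j) ≤
        ENNReal.ofReal (1 + δ) * (ENNReal.ofReal (1 + δ) * bb (T + j + 1)) := by gcongr
      _ = ENNReal.ofReal ((1 + δ) * (1 + δ)) * bb (T + j + 1) := by
        rw [ENNReal.ofReal_mul (by positivity), mul_assoc]
      _ ≤ _ := by
        gcongr
        nlinarith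

theorem SR_step {R : List V → List V → Prop} {c : ℤ} (hR : Rel R c) (h : ℕ) {ε : ℝ}
    (hε : 0 < ε) : ∃ N : ℕ, ∀ T, N ≤ T → SR R T ≤
      (ENNReal.ofReal (1 + ε) * ENNReal.ofReal (1 + ε) * PR R h + 2 * ENNReal.ofReal ε) *
        (bb T * bb T) := by
  classical
  obtain ⟨s, hs⟩ := tail_small (H := 2 * (h : ℤ)) (by positivity) (ε := ENNReal.ofReal ε) (by
    rw [ENNReal.ofReal_ne_zero_iff]; exact hε)
  obtain ⟨k, hk⟩ : ∃ k : ℕ, ∀ β ∈ s, hl β ≤ 2 * (k : ℤ) := by
    refine ⟨s.sup (fun β => (hl β).toNat), fun β hβ => ?_⟩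
    have h1 := Finset.le_sup (f := fun β => (hl β).toNat) hβ
    omega
  have hrat : ∃ N : ℕ, ∀ T : ℕ, N ≤ T → ∀ j : ℕ, j ≤ k →
      bb (T - j) ≤ ENNReal.ofReal (1 + ε) * bb T := by
    obtain ⟨N, hN⟩ := ratio k ε hε
    refine ⟨N + k, fun T hT j hj => ?_⟩
    have h1 := hN (T - k) (by omega)
    rw [Nat.sub_add_cancel (by omega)] at h1
    refine le_trans ?_ h1
    exact Q294.Sl.bb_anti (by omega)
  obtain ⟨N, hN⟩ := hrat
  refine ⟨N + k + h + 1, fun T hT => ?_⟩
  have hlt : 2 * (h : ℤ) < 2 * (T : ℤ) := by omega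
  obtain ⟨B, hB⟩ : ∃ B : List V → ℝ≥0∞, B = fun β1 => ES (2 * (T : ℤ) - hl β1) (fun _ => 1) :=
    ⟨_, rfl⟩
  have hEB : E (2 * (h : ℤ)) B ≤ bb T := by
    rw [hB, ← ES_one]
    exact conserve _ _
  have hBj : ∀ β1 ∈ s, Fst (2 * (h : ℤ)) β1 → ∃ j : ℕ, j ≤ k ∧ B β1 = bb (T - j) := by
    intro β1 h1 h2
    have h3 := hk β1 h1
    have h4 := h2.1.hl_nonneg
    have h5 := h2.1.ev
    refine ⟨(hl β1 / 2).toNat, by omega, ?_⟩
    rw [hB, ← ES_one]
    simp only
    congr 1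
    rw [Nat.cast_sub (by omega)]
    omega
  have hB1 : ∀ β1 ∈ s, Fst (2 * (h : ℤ)) β1 → B β1 ≤ ENNReal.ofReal (1 + ε) * bb T := by
    intro β1 h1 h2
    obtain ⟨j, hj, e⟩ := hBj β1 h1 h2
    rw [e]
    exact hN T (by omega) j hj
  have hB2 : ∀ β1 ∈ s, Fst (2 * (h : ℤ)) β1 → bb T ≤ B β1 := by
    intro β1 h1 h2
    obtain ⟨j, hj, e⟩ := hBj β1 h1 h2
    rw [e]
    exact Q294.Sl.bb_anti (by omega)
  -- mass outside of `s`
  have hout : E (2 * (h : ℤ)) (fun β1 => if β1 ∈ s then 0 else B β1) ≤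
      ENNReal.ofReal ε * bb T := by
    obtain ⟨X, hX⟩ : ∃ X, X = E (2 * (h : ℤ)) (fun β1 => if β1 ∈ s then bb T else 0) := ⟨_, rfl⟩
    obtain ⟨Y, hY⟩ : ∃ Y, Y = E (2 * (h : ℤ)) (fun β1 => if β1 ∈ s then 0 else B β1) := ⟨_, rfl⟩
    obtain ⟨Z, hZ⟩ : ∃ Z, Z = E (2 * (h : ℤ)) (fun β1 => if β1 ∈ s then 0 else 1) := ⟨_, rfl⟩
    have h1 : X + Y ≤ bb T := by
      rw [hX, hY, ← E_add]
      refine le_trans (E_mono fun β1 h2 => ?_) hEB
      split_ifs with h3
      · rw [add_zero]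
        exact hB2 β1 h3 h2
      · rw [zero_add]
    have h2 : bb T = X + bb T * Z := by
      rw [hX, hZ, ← E_mul, ← E_add]
      conv_lhs => rw [← E_const (H := 2 * (h : ℤ)) (by positivity) (bb T)]
      congr 1
      funext β1
      split_ifs <;> simp
    have h3 : X ≠ ⊤ := by
      refine ne_top_of_le_ne_top (Q294.Sl.bb_ne_top T) ?_
      exact le_trans le_self_add h1
    have h4 : Y ≤ bb T * Z := by
      rw [← ENNReal.add_le_add_iff_left h3, ← h2]
      exact h1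
    rw [← hY]
    refine h4.trans ?_
    rw [mul_comm, hZ]
    gcongr
  have hswap : SR R T ≤ E (2 * (h : ℤ)) (fun β1' => E (2 * (h : ℤ)) (fun β1 =>
      ind (R β1 β1') * (B β1 * B β1'))) := by
    calc SR R T ≤ ES (2 * (T : ℤ)) (fun β => E (2 * (h : ℤ)) (fun β1' =>
          ES (2 * (T : ℤ) - hl β1') (fun κ' => ind (R β (cat β1' κ'))))) :=
          ES_mono fun β _ _ => renewS hlt _
      _ = E (2 * (h : ℤ)) (fun β1' => ES (2 * (T : ℤ)) (fun β =>
          ES (2 * (T : ℤ) - hl β1') (fun κ' => ind (R β (cat β1' κ'))))) := ES_swap _ _ _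
      _ ≤ E (2 * (h : ℤ)) (fun β1' => E (2 * (h : ℤ)) (fun β1 => ES (2 * (T : ℤ) - hl β1)
          (fun κ => ES (2 * (T : ℤ) - hl β1') (fun κ' =>
            ind (R (cat β1 κ) (cat β1' κ')))))) := E_mono fun β1' _ => renewS hlt _
      _ ≤ _ := by
        refine E_mono fun β1' h1' => E_mono fun β1 h1 => ?_
        have p1 := h1.2.1
        have p1' := h1'.2.1
        have q1 := h1.1.ev
        have q1' := h1'.1.ev
        calc _ ≤ ES (2 * (T : ℤ) - hl β1) (fun κ => ES (2 * (T : ℤ) - hl β1') (fun κ' =>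
            ind (R β1 β1') * 1)) := by
              refine ES_mono fun κ a1 _ => ES_mono fun κ' a2 _ => ?_
              rw [mul_one]
              refine ind_mono fun hRc => hR.mono β1 β1' κ κ' h1.1 h1'.1 a1 a2 (by omega)
                (by omega) hRc
          _ = ind (R β1 β1') * (B β1 * B β1') := by
              rw [hB]
              simp only [ES_mul]
              rw [ES_const]
              ring
  refine hswap.trans ?_
  have hpt : ∀ β1' β1 : List V, Fst (2 * (h : ℤ)) β1' → Fst (2 * (h : ℤ)) β1 →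
      ind (R β1 β1') * (B β1 * B β1') ≤
      (ENNReal.ofReal (1 + ε) * ENNReal.ofReal (1 + ε) * (bb T * bb T)) * ind (R β1 β1') +
      B β1' * (if β1 ∈ s then 0 else B β1) + (if β1' ∈ s then 0 else B β1') * B β1 := by
    intro β1' β1 h1' h1
    have hi := ind_le_one (R β1 β1')
    by_cases c1 : β1 ∈ s
    swap
    · rw [if_neg c1]
      calc ind (R β1 β1') * (B β1 * B β1') ≤ 1 * (B β1 * B β1') := by gcongr
        _ = B β1' * B β1 := by ring
        _ ≤ _ := by
          rw [add_right_comm]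
          exact le_add_self
    by_cases c2 : β1' ∈ s
    swap
    · rw [if_neg c2]
      calc ind (R β1 β1') * (B β1 * B β1') ≤ 1 * (B β1 * B β1') := by gcongr
        _ = B β1' * B β1 := by ring
        _ ≤ _ := le_add_self
    rw [if_pos c1, if_pos c2, mul_zero, zero_mul, add_zero, add_zero]
    have g1 := hB1 β1 c1 h1
    have g2 := hB1 β1' c2 h1'
    calc ind (R β1 β1') * (B β1 * B β1') ≤ ind (R β1 β1') *
        ((ENNReal.ofReal (1 + ε) * bb T) * (ENNReal.ofReal (1 + ε) * bb T)) := by gcongr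
      _ = _ := by ring
  refine (E_mono fun β1' h1' => E_mono fun β1 h1 => hpt β1' β1 h1' h1).trans ?_
  have e1 : E (2 * (h : ℤ)) (fun β1' => E (2 * (h : ℤ)) (fun β1 =>
      (ENNReal.ofReal (1 + ε) * ENNReal.ofReal (1 + ε) * (bb T * bb T)) * ind (R β1 β1') +
      B β1' * (if β1 ∈ s then 0 else B β1) + (if β1' ∈ s then 0 else B β1') * B β1)) =
      (ENNReal.ofReal (1 + ε) * ENNReal.ofReal (1 + ε) * (bb T * bb T)) * PR R h +
      E (2 * (h : ℤ)) (fun β1 => if β1 ∈ s then 0 else B β1) * E (2 * (h : ℤ)) B +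
      E (2 * (h : ℤ)) B * E (2 * (h : ℤ)) (fun β1' => if β1' ∈ s then 0 else B β1') := by
    have e2 : ∀ β1' : List V, E (2 * (h : ℤ)) (fun β1 =>
        (ENNReal.ofReal (1 + ε) * ENNReal.ofReal (1 + ε) * (bb T * bb T)) * ind (R β1 β1') +
        B β1' * (if β1 ∈ s then 0 else B β1) + (if β1' ∈ s then 0 else B β1') * B β1) =
        (ENNReal.ofReal (1 + ε) * ENNReal.ofReal (1 + ε) * (bb T * bb T)) *
          E (2 * (h : ℤ)) (fun β1 => ind (R β1 β1')) +
        E (2 * (h : ℤ)) (fun β1 => if β1 ∈ s then 0 else B β1) * B β1' +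
        E (2 * (h : ℤ)) B * (if β1' ∈ s then 0 else B β1') := by
      intro β1'
      rw [E_add, E_add, E_mul, E_mul, E_mul, mul_comm (B β1'),
        mul_comm (if β1' ∈ s then 0 else B β1')]
    simp only [e2]
    rw [E_add, E_add, E_mul, E_mul, E_mul]
    unfold PR
    rw [E_swap]
  rw [e1]
  calc _ ≤ (ENNReal.ofReal (1 + ε) * ENNReal.ofReal (1 + ε) * (bb T * bb T)) * PR R h +
      (ENNReal.ofReal ε * bb T) * bb T + bb T * (ENNReal.ofReal ε * bb T) := by gcongr
    _ = _ := by ring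

end Pool.Agent.H982.TW
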