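import Pool.Agent.H982.TW8

set_option autoImplicit false

/-! The non-intersection probability in strips tends to zero, and the partition function. -/

namespace Pool.Agent.H982.TW

open H978R2.Hex (V Adj adj_iff)
open Pool.Agent.W818.TD
open Pool.Agent.W832.HR (Traj HP Nbr nbr_iff xc xc_ne_zero xc_ne_top xc_eq)
open Pool.Agent.Y981.GP (bb bb_le_one)
open Q294.Sl (Cross mass)
open Q294.Ni (Up Apart mass2 prb)
open Filter Topology
open scoped ENNReal

theorem SR_lim {R : List V → List V → Prop} {c : ℤ} (hR : Rel R c) {ε : ℝ} (hε : 0 < ε) :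
    ∃ N : ℕ, ∀ T, N ≤ T → SR R T ≤ ENNReal.ofReal ε * (bb T * bb T) := by
  obtain ⟨δ, hδ, hδ1, hδ2⟩ : ∃ δ : ℝ, 0 < δ ∧ δ ≤ 1 ∧ δ ≤ ε / 6 :=
    ⟨min 1 (ε / 6), by positivity, min_le_left _ _, min_le_right _ _⟩
  obtain ⟨h, hh⟩ := PR_lim hR hδ
  obtain ⟨N, hN⟩ := SR_step hR h hδ
  refine ⟨N, fun T hT => (hN T hT).trans ?_⟩
  gcongr
  have h1 := hh h le_rfl
  calc ENNReal.ofReal (1 + δ) * ENNReal.ofReal (1 + δ) * PR R h + 2 * ENNReal.ofReal δ
      ≤ ENNReal.ofReal (1 + δ) * ENNReal.ofReal (1 + δ) * ENNReal.ofReal δ +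
        2 * ENNReal.ofReal δ := by gcongr
    _ = ENNReal.ofReal ((1 + δ) * (1 + δ) * δ + 2 * δ) := by
      have h2 : (2 : ℝ≥0∞) = ENNReal.ofReal 2 := by simp
      rw [h2, ← ENNReal.ofReal_mul (by positivity), ← ENNReal.ofReal_mul (by positivity),
        ← ENNReal.ofReal_mul (by positivity), ← ENNReal.ofReal_add (by positivity) (by positivity)]
    _ ≤ ENNReal.ofReal ε := by
      apply ENNReal.ofReal_le_ofReal
      have h3 : (1 + δ) * (1 + δ) ≤ 4 := by nlinarith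
      have h4 := mul_le_mul_of_nonneg_right h3 hδ.le
      linarith

theorem cross_shape {T : ℕ} (hT : 1 ≤ T) {l : List V} (h : l ∈ Cross T) :
    EBr ((0, 0) :: l) ∧ hl ((0, 0) :: l) = 2 * (T : ℤ) ∧ (0, 0) ∉ l ∧
      ∃ c t, l = (1, 0) :: c :: t ∧ (c = (2, 0) ∨ c = (1, -1)) ∧ (1, 0) ∉ c :: t := by
  obtain ⟨x, hx⟩ := h
  obtain ⟨h1, h2⟩ := Q294.Bd.br_of hx
  obtain ⟨c, t, h3, -⟩ := tail2_cat (η := []) h1 (by omega)
  have h4 : l = (1, 0) :: c :: t := by simpa using h3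
  refine ⟨h1, h2, ?_, c, t, h4, ?_, ?_⟩
  · intro h5
    have := h1.pos _ h5
    simp at this
  · have h5 := h1.ch
    rw [h4] at h5
    have h6 := (List.isChain_cons_cons.1 (List.isChain_cons_cons.1 h5).2).1
    have h7 := h1.pos c (by rw [h4]; simp)
    rw [adj_iff] at h6
    obtain ⟨c1, c2⟩ := c
    simp only [Prod.mk.injEq]
    simp only at h6 h7
    omega
  · have h5 := h1.nd
    rw [h4] at h5
    exact (List.nodup_cons.1 (List.nodup_cons.1 h5).2).1

theorem apart_R0 {T : ℕ} (hT : 1 ≤ T) {l l' : List V} (h : l ∈ Cross T) (h' : l' ∈ Cross T)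
    (hd : ∀ v ∈ l.tail, v ∉ l') : R0 ((0, 0) :: l) ((0, 0) :: l') ∨
      R0 ((0, 0) :: l') ((0, 0) :: l) := by
  obtain ⟨-, -, h3, c, t, h4, h5, h6⟩ := cross_shape hT h
  obtain ⟨-, -, h3', c', t', h4', h5', h6'⟩ := cross_shape hT h'
  have hne : c ≠ c' := by
    intro e
    apply hd c (by rw [h4]; simp)
    rw [h4', e]
    simp
  rcases h5' with hc | hc
  · left
    refine ⟨by rw [h4']; simp [hc], ?_⟩
    intro v hv hv'
    have hv1 : v ∈ c' :: t' := by rw [h4'] at hv; simpa using hv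
    rcases List.mem_cons.1 hv' with e | e
    · rw [e] at hv1
      apply h3'
      rw [h4']
      exact List.mem_cons_of_mem _ hv1
    · rw [h4] at e
      rcases List.mem_cons.1 e with e | e
      · rw [e] at hv1
        exact h6' hv1
      · apply hd v (by rw [h4]; exact e)
        rw [h4']
        exact List.mem_cons_of_mem _ hv1
  · right
    have hc2 : c = (2, 0) := by
      rcases h5 with h5 | h5
      · exact h5
      · exact absurd (h5.trans hc.symm) hne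
    refine ⟨by rw [h4]; simp [hc2], ?_⟩
    intro v hv hv'
    have hv1 : v ∈ c :: t := by rw [h4] at hv; simpa using hv
    rcases List.mem_cons.1 hv' with e | e
    · rw [e] at hv1
      apply h3
      rw [h4]
      exact List.mem_cons_of_mem _ hv1
    · exact hd v (by rw [h4]; exact hv1) e

/-- the mass of the pairs which avoid each other -/
theorem mass2_le {T : ℕ} (hT : 1 ≤ T) : xc * xc * mass2 (Apart T) ≤ 2 * SR R0 T := by
  have e1 : 2 * SR R0 T = ∑' p : List V × List V, vd (2 * (T : ℤ)) p.1 *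
      (vd (2 * (T : ℤ)) p.2 * (ind (R0 p.1 p.2) + ind (R0 p.2 p.1))) := by
    have e2 : SR R0 T = ∑' p : List V × List V, vd (2 * (T : ℤ)) p.1 *
        (vd (2 * (T : ℤ)) p.2 * ind (R0 p.1 p.2)) := by
      unfold SR ES
      rw [ENNReal.tsum_prod (f := fun a b => vd (2 * (T : ℤ)) a *
        (vd (2 * (T : ℤ)) b * ind (R0 a b)))]
      refine tsum_congr fun β => ?_
      rw [ENNReal.tsum_mul_left]
    have e3 : SR R0 T = ∑' p : List V × List V, vd (2 * (T : ℤ)) p.1 *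
        (vd (2 * (T : ℤ)) p.2 * ind (R0 p.2 p.1)) := by
      rw [e2, ← Equiv.tsum_eq (Equiv.prodComm (List V) (List V))]
      refine tsum_congr fun p => ?_
      simp only [Equiv.prodComm_apply, Prod.fst_swap, Prod.snd_swap]
      ring
    rw [two_mul]
    nth_rewrite 1 [e2]
    rw [e3, ← ENNReal.tsum_add]
    refine tsum_congr fun p => ?_
    ring
  rw [e1]
  unfold mass2
  rw [← ENNReal.tsum_mul_left]
  let g : Apart T → List V × List V := fun p => ((0, 0) :: p.1.1, (0, 0) :: p.1.2)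
  have hinj : Function.Injective g := by
    intro p q h
    simp only [g, Prod.mk.injEq, List.cons.injEq, true_and] at h
    exact Subtype.ext (Prod.ext h.1 h.2)
  refine le_trans ?_ (ENNReal.tsum_comp_le_tsum_of_injective hinj
    (fun p : List V × List V => vd (2 * (T : ℤ)) p.1 *
      (vd (2 * (T : ℤ)) p.2 * (ind (R0 p.1 p.2) + ind (R0 p.2 p.1)))))
  refine ENNReal.tsum_le_tsum fun p => ?_
  obtain ⟨q1, q2, q3⟩ := p.2
  obtain ⟨a1, a2, -, -⟩ := cross_shape hT q1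
  obtain ⟨b1, b2, -, -⟩ := cross_shape hT q2.1
  have h1 : (1 : ℝ≥0∞) ≤ ind (R0 ((0, 0) :: p.1.1) ((0, 0) :: p.1.2)) +
      ind (R0 ((0, 0) :: p.1.2) ((0, 0) :: p.1.1)) := by
    rcases apart_R0 hT q1 q2.1 q3 with h | h
    · rw [ind_pos h]
      exact le_self_add
    · rw [ind_pos h]
      exact le_add_self
  have h2 : Wt ((0, 0) :: p.1.1) = xc * xc ^ (p.1.1.length - 1) := by
    obtain ⟨x, hx⟩ := q1
    exact Q294.Bd.Wt_cons (0, 0) (Q294.Bd.traj_ne hx)
  have h3 : Wt ((0, 0) :: p.1.2) = xc * xc ^ (p.1.2.length - 1) := by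
    obtain ⟨x, hx⟩ := q2.1
    exact Q294.Bd.Wt_cons (0, 0) (Q294.Bd.traj_ne hx)
  simp only [g]
  rw [vd_pos a1 a2, vd_pos b1 b2, h2, h3]
  calc xc * xc * (xc ^ (p.1.1.length - 1) * xc ^ (p.1.2.length - 1)) =
      xc * xc ^ (p.1.1.length - 1) * (xc * xc ^ (p.1.2.length - 1) * 1) := by ring
    _ ≤ _ := by gcongr

theorem xc_sq : (4 : ℝ≥0∞) * (xc * xc) ≥ 1 := by
  rw [xc_eq]
  have h1 := Pool.Agent.W832.HR.mu0_sq
  have h2 := H978R2.Hex.mu0_pos
  have h3 : Real.sqrt 2 ≤ 2 := by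
    rw [Real.sqrt_le_left (by norm_num)]
    norm_num
  have h4 : (4 : ℝ≥0∞) = ENNReal.ofReal 4 := by simp
  rw [h4, ← ENNReal.ofReal_mul (by positivity), ← ENNReal.ofReal_mul (by positivity), ge_iff_le,
    ← ENNReal.ofReal_one]
  apply ENNReal.ofReal_le_ofReal
  have h5 : H978R2.Hex.mu0 * H978R2.Hex.mu0 ≤ 4 := by nlinarith
  have h6 : H978R2.Hex.mu0⁻¹ * H978R2.Hex.mu0⁻¹ = (H978R2.Hex.mu0 * H978R2.Hex.mu0)⁻¹ := by
    rw [mul_inv]
  rw [h6]
  have h7 : 0 < H978R2.Hex.mu0 * H978R2.Hex.mu0 := by positivity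
  rw [← div_eq_mul_inv, le_div_iff₀ h7]
  linarith

/-- **the probability tends to zero** -/
theorem prb_lim : Tendsto prb atTop (𝓝 0) := by
  rw [Metric.tendsto_atTop]
  intro ε hε
  obtain ⟨N, hN⟩ := SR_lim R0_rel (ε := ε / 8) (by positivity)
  refine ⟨N + 2, fun n hn => ?_⟩
  obtain ⟨T, rfl⟩ : ∃ T, n = T + 1 := ⟨n - 1, by omega⟩
  rw [Real.dist_0_eq_abs, abs_of_nonneg (Q294.Ni.prb_nonneg _)]
  have h1 := mass2_le (T := T + 1) (by omega)
  have h2 := hN (T + 1) (by omega)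
  obtain ⟨m, hm⟩ : ∃ m, m = mass (Cross (T + 1)) := ⟨_, rfl⟩
  have h3 : bb (T + 1) = xc * m := by rw [hm]; exact (Q294.Sl.mass_cross (by omega)).symm
  have h4 : m ≤ mass (Cross T) := by rw [hm]; exact (Q294.Sl.main_mass (by omega)).2.1
  have hm0 : m ≠ 0 := by rw [hm]; exact (Q294.Ni.mass_gt (by omega)).ne'
  have hmt : m ≠ ⊤ := by rw [hm]; exact Q294.Ni.mass_ne_top (by omega)
  have hx2 : xc * xc ≠ 0 := mul_ne_zero xc_ne_zero xc_ne_zero
  have hx3 : xc * xc ≠ ⊤ := ENNReal.mul_ne_top xc_ne_top xc_ne_top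
  have h5 : mass2 (Apart (T + 1)) ≤ 2 * (ENNReal.ofReal (ε / 8) * (m * m)) := by
    rw [← ENNReal.mul_le_mul_iff_right hx2 hx3]
    refine h1.trans ?_
    calc 2 * SR R0 (T + 1) ≤ 2 * (ENNReal.ofReal (ε / 8) * (bb (T + 1) * bb (T + 1))) := by
          gcongr
      _ = _ := by rw [h3]; ring
  have h6 : mass2 (Apart (T + 1)) / (mass (Cross (T + 1)) * mass (Up (T + 1))) ≤
      ENNReal.ofReal (ε / 2) := by
    rw [Q294.Ni.mass_up (by omega), ← hm]
    apply ENNReal.div_le_of_le_mul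
    refine h5.trans ?_
    have h7 : ENNReal.ofReal (ε / 2) = 4 * ENNReal.ofReal (ε / 8) := by
      have : (4 : ℝ≥0∞) = ENNReal.ofReal 4 := by simp
      rw [this, ← ENNReal.ofReal_mul (by norm_num)]
      congr 1
      ring
    calc 2 * (ENNReal.ofReal (ε / 8) * (m * m)) = 1 * (2 * (ENNReal.ofReal (ε / 8) * (m * m))) :=
          (one_mul _).symm
      _ ≤ (4 * (xc * xc)) * (2 * (ENNReal.ofReal (ε / 8) * (m * m))) := by
          gcongr
          exact xc_sq
      _ = ENNReal.ofReal (ε / 2) * (m * (2 * xc ^ 2 * m)) := by rw [h7]; ring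
      _ ≤ _ := by gcongr
  have h8 : prb (T + 1) ≤ ε / 2 := ENNReal.toReal_le_of_le_ofReal (by positivity) h6
  linarith

/-- **the partition function of the crossing walks** -/
theorem TZ_lim : Tendsto (fun T : ℕ => (T : ℝ) * (mass (Cross T)).toReal) atTop atTop := by
  obtain ⟨a, ha⟩ : ∃ a : ℕ → ℝ, a = fun T => 1 / (mass (Cross T)).toReal := ⟨_, rfl⟩
  have h1 : Tendsto (fun T => a (T + 1) - a T) atTop (𝓝 0) := by
    have h2 : Tendsto (fun T => (Real.sqrt 2 - 1) * H978R2.Hex.mu0⁻¹ * prb (T + 1)) atTop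
        (𝓝 ((Real.sqrt 2 - 1) * H978R2.Hex.mu0⁻¹ * 0)) :=
      (prb_lim.comp (tendsto_add_atTop_nat 1)).const_mul _
    rw [mul_zero] at h2
    refine h2.congr' ?_
    filter_upwards [eventually_ge_atTop 1] with T hT
    rw [ha]
    exact (Q294.Ni.identity hT).symm
  have h2 := h1.cesaro
  simp only [Finset.sum_range_sub] at h2
  have h3 : Tendsto (fun n : ℕ => (n : ℝ)⁻¹ * a n) atTop (𝓝 0) := by
    have h4 : Tendsto (fun n : ℕ => (n : ℝ)⁻¹ * a 0) atTop (𝓝 (0 * a 0)) :=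
      tendsto_inv_atTop_nhds_zero_nat.mul_const _
    have h5 := h2.add h4
    rw [zero_mul, add_zero] at h5
    refine h5.congr fun n => ?_
    ring
  have h4 : Tendsto (fun n : ℕ => (n : ℝ)⁻¹ * a n) atTop (𝓝[>] 0) := by
    rw [tendsto_nhdsWithin_iff]
    refine ⟨h3, ?_⟩
    filter_upwards [eventually_ge_atTop 1] with n hn
    rw [Set.mem_Ioi, ha]
    have h5 := Q294.Ni.mass_pos hn
    have h6 : (0 : ℝ) < n := by exact_mod_cast hn
    positivity
  have h5 := h4.inv_tendsto_nhdsGT_zero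
  refine h5.congr' ?_
  filter_upwards [eventually_ge_atTop 1] with n hn
  rw [ha]
  simp [mul_comm]

end Pool.Agent.H982.TW
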