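import Pool.Agent.H982.HP3

set_option autoImplicit false

/-! Two walks on the square lattice which avoid each other from some time on keep their order
(parity argument). -/

namespace H982.TZ

open Finset

/-- sites: height and lateral position -/
abbrev Q : Type := ℤ × ℤ

/-- sequences of sites -/
abbrev Y : Type := ℕ → Q

/-- neighbours -/
def Nb (p q : Q) : Prop :=
  (p.1 = q.1 ∧ (q.2 = p.2 + 1 ∨ p.2 = q.2 + 1)) ∨ (p.2 = q.2 ∧ (q.1 = p.1 + 1 ∨ p.1 = q.1 + 1))

/-- edge above the level of `v`, to the right of `v` -/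
def eu (v p q : Q) : ZMod 2 :=
  if (p.1 = v.1 ∧ q.1 = v.1 + 1 ∧ v.2 < p.2) ∨ (q.1 = v.1 ∧ p.1 = v.1 + 1 ∧ v.2 < q.2)
    then 1 else 0

/-- edge below the level of `v`, to the right of `v` -/
def ed (v p q : Q) : ZMod 2 :=
  if (p.1 = v.1 ∧ q.1 = v.1 - 1 ∧ v.2 < p.2) ∨ (q.1 = v.1 ∧ p.1 = v.1 - 1 ∧ v.2 < q.2)
    then 1 else 0

/-- vertex at the level of `v`, to the right of `v` -/
def sv (v p : Q) : ZMod 2 := if p.1 = v.1 ∧ v.2 < p.2 then 1 else 0

def up (v : Q) (g : Y) (T : ℕ) : ZMod 2 := ∑ t ∈ range T, eu v (g t) (g (t + 1))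

def dn (v : Q) (g : Y) (T : ℕ) : ZMod 2 := ∑ t ∈ range T, ed v (g t) (g (t + 1))

theorem e_sum {v p q : Q} (h : Nb p q) (hp : p ≠ v) (hq : q ≠ v) :
    eu v p q + ed v p q = sv v p + sv v q := by
  obtain ⟨v1, v2⟩ := v
  obtain ⟨p1, p2⟩ := p
  obtain ⟨q1, q2⟩ := q
  unfold Nb at h
  simp only [ne_eq, Prod.mk.injEq] at hp hq
  unfold eu ed sv
  simp only at *
  split_ifs <;> first | rfl | decide | (exfalso; omega)

theorem e_up {v p q : Q} (h : Nb p q) : ed (v + (1, 0)) p q = eu v p q := by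
  obtain ⟨v1, v2⟩ := v
  obtain ⟨p1, p2⟩ := p
  obtain ⟨q1, q2⟩ := q
  unfold Nb at h
  unfold eu ed
  simp only [Prod.mk_add_mk] at *
  split_ifs <;> first | rfl | decide | (exfalso; omega)

theorem e_right {v p q : Q} (h : Nb p q) (hp : p ≠ v + (0, 1)) (hq : q ≠ v + (0, 1)) :
    eu (v + (0, 1)) p q = eu v p q := by
  obtain ⟨v1, v2⟩ := v
  obtain ⟨p1, p2⟩ := p
  obtain ⟨q1, q2⟩ := q
  unfold Nb at h
  simp only [ne_eq, Prod.mk.injEq, Prod.mk_add_mk] at hp hq
  unfold eu
  simp only [Prod.mk_add_mk] at *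
  split_ifs <;> first | rfl | decide | (exfalso; omega)

theorem updn (v : Q) (g : Y) : ∀ T : ℕ, (∀ t < T, Nb (g t) (g (t + 1))) → (∀ t ≤ T, g t ≠ v) →
    up v g T + dn v g T = sv v (g 0) + sv v (g T) := by
  intro T
  induction T with
  | zero =>
    intro _ _
    simp only [up, dn, range_zero, sum_empty]
    have : ∀ x : ZMod 2, 0 + 0 = x + x := by decide
    exact this _
  | succ T ih =>
    intro h1 h2
    have h3 := ih (fun t ht => h1 t (by omega)) (fun t ht => h2 t (by omega))
    have h4 := e_sum (v := v) (h1 T (by omega)) (h2 T (by omega)) (h2 (T + 1) le_rfl)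
    unfold up dn at h3 ⊢
    rw [sum_range_succ, sum_range_succ]
    have key : ∀ a b c d x y z : ZMod 2, a + c = x + y → b + d = y + z →
        a + b + (c + d) = x + z := by decide
    exact key _ _ _ _ _ _ _ h3 h4

theorem up_dn {v : Q} {g : Y} {T : ℕ} (h : ∀ t < T, Nb (g t) (g (t + 1))) :
    dn (v + (1, 0)) g T = up v g T := by
  unfold up dn
  exact sum_congr rfl fun t ht => e_up (h t (mem_range.1 ht))

theorem up_right {v : Q} {g : Y} {T : ℕ} (h : ∀ t < T, Nb (g t) (g (t + 1)))
    (h2 : ∀ t ≤ T, g t ≠ v + (0, 1)) : up (v + (0, 1)) g T = up v g T := by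
  unfold up
  refine sum_congr rfl fun t ht => ?_
  have ht' := mem_range.1 ht
  exact e_right (h t ht') (h2 t ht'.le) (h2 (t + 1) ht')

theorem sv_zero {v p : Q} (h : p.1 ≠ v.1) : sv v p = 0 := by
  unfold sv
  rw [if_neg (fun h1 => h h1.1)]

theorem up_zero {v : Q} {g : Y} {T : ℕ} (h : ∀ t ≤ T, (g t).1 ≤ v.1) : up v g T = 0 := by
  unfold up
  refine sum_eq_zero fun t ht => ?_
  have ht' := mem_range.1 ht
  have h1 := h t ht'.le
  have h2 := h (t + 1) ht'
  unfold eu
  rw [if_neg (by omega)]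

/-- only the first steps count -/
theorem up_stop {v : Q} {g : Y} {L T : ℕ} (hLT : L ≤ T) (h : ∀ t, L ≤ t → v.1 + 1 < (g t).1) :
    up v g T = up v g L := by
  unfold up
  symm
  refine sum_subset (range_subset_range.2 hLT) fun t _ ht => ?_
  have ht' : L ≤ t := by
    by_contra hc
    exact ht (mem_range.2 (by omega))
  have h1 := h t ht'
  unfold eu
  rw [if_neg (by omega)]

/-- vertical step -/
theorem vert {v : Q} {g : Y} {T : ℕ} (h : ∀ t < T, Nb (g t) (g (t + 1)))
    (h2 : ∀ t ≤ T, g t ≠ v + (1, 0)) (h0 : (g 0).1 ≠ v.1 + 1) :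
    up v g T = up (v + (1, 0)) g T + sv (v + (1, 0)) (g T) := by
  have h3 := updn (v + (1, 0)) g T h h2
  rw [up_dn h, sv_zero (p := g 0) (by simpa using h0), zero_add] at h3
  have key : ∀ a b c : ZMod 2, a + b = c → b = a + c := by decide
  exact key _ _ _ h3

/-- **the parity along the second walk** -/
theorem along {g w : Y} {N : ℤ} {T : ℕ} (hg : ∀ t < T, Nb (g t) (g (t + 1))) (h0 : (g 0).1 = 0)
    (hT : (g T).1 = N) (hle : ∀ t ≤ T, (g t).1 ≤ N) (s : ℕ) :
    ∀ d : ℕ, (∀ r, s ≤ r → r < s + d + 1 → Nb (w r) (w (r + 1))) →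
      (∀ r, s ≤ r → r ≤ s + d + 1 → 0 ≤ (w r).1) →
      (∀ r, s ≤ r → r < s + d + 1 → (w r).1 < N) → (w (s + d + 1)).1 = N →
      (∀ t ≤ T, ∀ r, s ≤ r → r ≤ s + d + 1 → g t ≠ w r) →
      up (w s) g T = sv (w (s + d + 1)) (g T) := by
  intro d
  induction d generalizing s with
  | zero =>
    intro a1 a2 a3 a4 a5
    have b1 := a1 s le_rfl (by omega)
    have b2 := a2 s le_rfl (by omega)
    have b3 := a3 s le_rfl (by omega)
    simp only [add_zero] at a4 ⊢
    have e : w (s + 1) = w s + (1, 0) := by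
      unfold Nb at b1
      apply Prod.ext
      · simp only [Prod.fst_add]
        omega
      · simp only [Prod.snd_add]
        omega
    rw [e] at a4 ⊢
    rw [vert hg (fun t ht => by rw [← e]; exact a5 t ht (s + 1) (by omega) (by omega)) (by
      rw [h0]
      omega), up_zero (v := w s + (1, 0)) (g := g) (T := T) (fun t ht => by
        rw [a4]
        exact hle t ht), zero_add]
  | succ d ih =>
    intro a1 a2 a3 a4 a5
    have e0 : s + 1 + d + 1 = s + (d + 1) + 1 := by ring
    have h1 := ih (s + 1) (fun r hr hr2 => a1 r (by omega) (by omega))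
      (fun r hr hr2 => a2 r (by omega) (by omega)) (fun r hr hr2 => a3 r (by omega) (by omega))
      (by rw [e0]; exact a4) (fun t ht r hr hr2 => a5 t ht r (by omega) (by omega))
    rw [e0] at h1
    rw [← h1]
    have b1 := a1 s le_rfl (by omega)
    have b2 := a2 s le_rfl (by omega)
    have b2' := a2 (s + 1) (by omega) (by omega)
    have b3 := a3 s le_rfl (by omega)
    have b3' := a3 (s + 1) (by omega) (by omega)
    have c1 : ∀ t ≤ T, g t ≠ w s := fun t ht => a5 t ht s le_rfl (by omega)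
    have c2 : ∀ t ≤ T, g t ≠ w (s + 1) := fun t ht => a5 t ht (s + 1) (by omega) (by omega)
    rcases b1 with ⟨k1, k2 | k2⟩ | ⟨k1, k2 | k2⟩
    · have e : w (s + 1) = w s + (0, 1) := by
        apply Prod.ext
        · simp only [Prod.fst_add]
          omega
        · simp only [Prod.snd_add]
          omega
      rw [e]
      exact (up_right hg (by rw [← e]; exact c2)).symm
    · have e : w s = w (s + 1) + (0, 1) := by
        apply Prod.ext
        · simp only [Prod.fst_add]
          omega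
        · simp only [Prod.snd_add]
          omega
      rw [e]
      exact up_right hg (by rw [← e]; exact c1)
    · have e : w (s + 1) = w s + (1, 0) := by
        apply Prod.ext
        · simp only [Prod.fst_add]
          omega
        · simp only [Prod.snd_add]
          omega
      have h2 := vert (v := w s) hg (by rw [← e]; exact c2) (by rw [h0]; omega)
      rw [← e] at h2
      rw [h2, sv_zero (by omega), add_zero]
    · have e : w s = w (s + 1) + (1, 0) := by
        apply Prod.ext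
        · simp only [Prod.fst_add]
          omega
        · simp only [Prod.snd_add]
          omega
      have h2 := vert (v := w (s + 1)) hg (by rw [← e]; exact c1) (by rw [h0]; omega)
      rw [← e] at h2
      rw [h2, sv_zero (by omega), add_zero]

/-- the first visit of level `N` is at the lateral position `a` -/
def FV (N : ℤ) (g : Y) (a : ℤ) : Prop := ∃ t, (∀ s < t, (g s).1 < N) ∧ N ≤ (g t).1 ∧ (g t).2 = a

theorem FV_unique {N : ℤ} {g : Y} {a b : ℤ} (h : FV N g a) (h' : FV N g b) : a = b := by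
  obtain ⟨t, h1, h2, h3⟩ := h
  obtain ⟨t', h1', h2', h3'⟩ := h'
  have : t = t' := by
    rcases lt_trichotomy t t' with h | h | h
    · have := h1' t h
      omega
    · exact h
    · have := h1 t' h
      omega
  subst this
  exact h3.symm.trans h3'

theorem FV_exists {N : ℤ} {g : Y} (h : ∃ t, N ≤ (g t).1) : ∃ a, FV N g a := by
  classical
  refine ⟨(g (Nat.find h)).2, Nat.find h, fun s hs => ?_, Nat.find_spec h, rfl⟩
  have := Nat.find_min h hs
  omega

/-- half-plane walks -/
structure Wk (g : Y) : Prop where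
  z : g 0 = 0
  nb : ∀ t, Nb (g t) (g (t + 1))
  pos : ∀ t, 0 ≤ (g t).1
  inj : Function.Injective g
  high : ∀ N : ℤ, ∃ t, N ≤ (g t).1

theorem Wk.le {g : Y} (h : Wk g) : ∀ t : ℕ, (g t).1 ≤ t := by
  intro t
  induction t with
  | zero => rw [h.z]; simp
  | succ t ih =>
    have := h.nb t
    unfold Nb at this
    push_cast
    omega

theorem FV_at {N : ℤ} {g : Y} (h : Wk g) (hN : 0 ≤ N) {a : ℤ} (hf : FV N g a) :
    ∃ t : ℕ, (∀ s < t, (g s).1 < N) ∧ g t = (N, a) ∧ N ≤ t := by
  obtain ⟨t, h1, h2, h3⟩ := hf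
  have h4 := h.le t
  refine ⟨t, h1, ?_, by omega⟩
  apply Prod.ext
  · simp only
    rcases Nat.eq_zero_or_pos t with rfl | ht
    · rw [h.z] at h2 ⊢
      simp only [Prod.fst_zero] at h2 ⊢
      omega
    · have h5 := h1 (t - 1) (by omega)
      have h6 := h.nb (t - 1)
      rw [Nat.sub_add_cancel (by omega)] at h6
      unfold Nb at h6
      omega
  · exact h3

/-- **order lemma** -/
theorem order {g g' : Y} (hg : Wk g) (hg' : Wk g') {j : ℤ} {m L : ℕ}
    (hF : ∀ i k, m < max i k → g i ≠ g' k + (0, j)) (hL : ∀ t, L ≤ t → (m : ℤ) + 2 < (g t).1)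
    {N : ℤ} (hN : (m : ℤ) + 3 + L ≤ N) {a b : ℤ} (ha : FV N g a) (hb : FV N g' b) :
    (b + j < a ↔ up (g' (m + 1) + (0, j)) g L = 1) ∧ a ≠ b + j := by
  obtain ⟨T, t1, t2, t3⟩ := FV_at hg (by omega) ha
  obtain ⟨T', s1, s2, s3⟩ := FV_at hg' (by omega) hb
  obtain ⟨w, hw⟩ : ∃ w : Y, w = fun k => g' k + (0, j) := ⟨_, rfl⟩
  have hw1 : ∀ k, (w k).1 = (g' k).1 := fun k => by rw [hw]; simp
  have hw2 : ∀ k, (w k).2 = (g' k).2 + j := fun k => by rw [hw]; simp
  have hle := hg'.le
  have hm1 := hle (m + 1)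
  push_cast at hm1
  have hT' : m + 1 < T' := by omega
  have h1 := along (g := g) (w := w) (N := N) (T := T) (fun t _ => hg.nb t) (by rw [hg.z]; rfl)
    (by rw [t2]) (fun t ht => by
      rcases Nat.lt_or_ge t T with h | h
      · exact (t1 t h).le
      · have : t = T := by omega
        rw [this, t2]) (m + 1) (T' - m - 2)
    (fun r _ _ => by
      have := hg'.nb r
      unfold Nb at this ⊢
      rw [hw1, hw1, hw2, hw2]
      omega)
    (fun r _ _ => by rw [hw1]; exact hg'.pos r)
    (fun r _ hr => by rw [hw1]; exact s1 r (by omega))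
    (by rw [hw1, show m + 1 + (T' - m - 2) + 1 = T' by omega, s2])
    (fun t _ r hr _ => by
      rw [hw]
      exact hF t r (by
        have := le_max_right t r
        omega))
  rw [show m + 1 + (T' - m - 2) + 1 = T' by omega] at h1
  have hne : a ≠ b + j := by
    intro h
    apply hF T T' (by
      have := le_max_right T T'
      omega)
    rw [t2, s2, h]
    simp
  have hwT : w T' = (N, b + j) := by
    apply Prod.ext
    · rw [hw1, s2]
    · rw [hw2, s2]
  have h2 : up (w (m + 1)) g T = up (w (m + 1)) g L := up_stop (by omega) (fun t ht => by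
    have := hL t ht
    rw [hw1]
    omega)
  rw [h2, hwT, t2] at h1
  have e : w (m + 1) = g' (m + 1) + (0, j) := by rw [hw]
  rw [e] at h1
  rw [h1]
  refine ⟨?_, hne⟩
  unfold sv
  constructor
  · intro h
    rw [if_pos ⟨rfl, h⟩]
  · intro h
    by_contra hc
    rw [if_neg (fun h3 => hc h3.2)] at h
    exact absurd h (by decide)

end H982.TZ
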