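import Pool.Agent.H982.TZ1

set_option autoImplicit false
set_option linter.unusedSectionVars false

/-! The law of the infinite half-plane walk on integer sequences, and its decomposition. -/

namespace H982.TZ

open Finset Filter Topology MeasureTheory H982.HP
open TH966.AK (P Kw lst)
open Pool.Agent.H976R3 Pool.Agent.R965.HP
open Pool.Agent.N941.SP (ps ps_re ps_im ps_inj Z2)
open scoped ENNReal

/-- integer parts -/
noncomputable def fl (z : ℂ) : Q := (⌊z.im⌋, ⌊z.re⌋)

theorem fl_ps (p : P) : fl (ps p) = p := by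
  unfold fl
  rw [ps_im, ps_re, Int.floor_intCast, Int.floor_intCast]

theorem fl_add (p : P) (z : ℂ) : fl (ps p + z) = p + fl z := by
  unfold fl
  rw [Complex.add_im, Complex.add_re, ps_im, ps_re, Int.floor_intCast_add, Int.floor_intCast_add]
  rfl

noncomputable def Φ (γ : X) : Y := fun t => fl (γ t)

theorem fl_meas : Measurable fl := by
  refine Measurable.prodMk ?_ ?_
  · exact Int.measurable_floor.comp Complex.measurable_im
  · exact Int.measurable_floor.comp Complex.measurable_re

theorem Φ_meas : Measurable Φ := measurable_pi_lambda _ fun t => fl_meas.comp (measurable_pi_apply t)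

/-- a finite path in front of a sequence -/
def pq (q : List Q) (c : Q) (g : Y) : Y := fun t =>
  if t < q.length then q.getD t 0 else c + g (t - q.length)

theorem pq_lt {q : List Q} {c : Q} {g : Y} {t : ℕ} (h : t < q.length) : pq q c g t = q.getD t 0 := by
  unfold pq
  rw [if_pos h]

theorem pq_ge {q : List Q} {c : Q} {g : Y} {t : ℕ} (h : q.length ≤ t) :
    pq q c g t = c + g (t - q.length) := by
  unfold pq
  rw [if_neg (by omega)]

theorem pq_meas (q : List Q) (c : Q) : Measurable (pq q c) := by
  refine measurable_pi_lambda _ fun t => ?_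
  unfold pq
  by_cases h : t < q.length
  · simp only [if_pos h]
    exact measurable_const
  · simp only [if_neg h]
    exact (measurable_of_countable (fun x : Q => c + x)).comp (measurable_pi_apply _)

/-- composition -/
theorem pq_pq (q q' : List Q) (c c' : Q) (g : Y) :
    pq q c (pq q' c' g) = pq (q ++ q'.map (fun x => c + x)) (c + c') g := by
  funext t
  by_cases h : t < q.length
  · rw [pq_lt h, pq_lt (by rw [List.length_append]; omega), List.getD_append _ _ _ _ h]
  · rw [pq_ge (by omega)]
    by_cases h2 : t - q.length < q'.length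
    · rw [pq_lt h2, pq_lt (by rw [List.length_append, List.length_map]; omega),
        List.getD_append_right _ _ _ _ (by omega),
        List.getD_eq_getElem _ _ h2, List.getD_eq_getElem _ _ (by rw [List.length_map]; exact h2),
        List.getElem_map]
    · rw [pq_ge (by omega), pq_ge (by rw [List.length_append, List.length_map]; omega),
        List.length_append, List.length_map, add_assoc]
      congr 3
      omega

/-- blocks -/
abbrev I : Type := (j : ℕ) × {β : List P // β ∈ Bk j}

def bq (i : I) : List Q := i.2.1.tail.map (fun x => x - ee)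

def bc (i : I) : Q := i.2.1.getLastD 0

noncomputable def bw (i : I) : ℝ≥0∞ := ENNReal.ofReal ((muS ^ i.1)⁻¹)

theorem Φ_pre (i : I) (γ : X) : Φ (pre i.2.1 γ) = pq (bq i) (bc i) (Φ γ) := by
  obtain ⟨j, β, hβ⟩ := i
  obtain ⟨b1, b2, b3⟩ := irr_facts hβ
  have hlen : (bq ⟨j, β, hβ⟩).length = j := by
    unfold bq
    rw [List.length_map, List.length_tail, b1]
    simp
  funext t
  unfold Φ pre
  simp only
  by_cases h : t + 1 < β.length
  · rw [if_pos h, fl_ps, pq_lt (by rw [hlen]; omega)]
    unfold bq
    simp only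
    rw [List.getD_eq_getElem _ _ h, List.getD_eq_getElem _ _ (by
      rw [List.length_map, List.length_tail]; omega), List.getElem_map, List.getElem_tail]
  · rw [if_neg h, fl_add, pq_ge (by rw [hlen]; omega)]
    unfold bc
    simp only
    congr 3
    rw [hlen]
    omega

variable {μ : Measure X}

/-- the law on integer sequences -/
noncomputable def nu (μ : Measure X) : Measure Y := μ.map Φ

theorem nu_prob (hμ : Lim μ) : IsProbabilityMeasure (nu μ) := by
  have := hμ.1
  exact Measure.isProbabilityMeasure_map Φ_meas.aemeasurable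

/-- the first block -/
theorem nu_block (hμ : Lim μ) {f : Y → ℝ≥0∞} (hf : Measurable f) :
    ∫⁻ g, f g ∂(nu μ) = ∑' i : I, bw i * ∫⁻ g, f (pq (bq i) (bc i) g) ∂(nu μ) := by
  unfold nu
  rw [lintegral_map hf Φ_meas]
  conv_lhs => rw [← nuI_eq hμ]
  unfold nuI
  rw [lintegral_sum_measure, ENNReal.tsum_sigma']
  refine tsum_congr fun j => ?_
  rw [lintegral_finsetSum_measure, ← Finset.tsum_subtype (Bk j) (fun β =>
    ∫⁻ a, f (Φ a) ∂(ENNReal.ofReal ((muS ^ j)⁻¹) • μ.map (pre β)))]
  refine tsum_congr fun β => ?_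
  have hm : Measurable fun a : X => f (Φ a) := hf.comp Φ_meas
  have hm2 : Measurable fun g : Y => f (pq (bq ⟨j, β⟩) (bc ⟨j, β⟩) g) := hf.comp (pq_meas _ _)
  rw [lintegral_smul_measure, lintegral_map hm (pre_cont _).measurable,
    lintegral_map hm2 Φ_meas, smul_eq_mul]
  have e : ∀ a : X, Φ (pre β.1 a) = pq (bq ⟨j, β⟩) (bc ⟨j, β⟩) (Φ a) := fun a => Φ_pre ⟨j, β⟩ a
  simp only [e]
  rfl

theorem bw_sum (hμ : Lim μ) : ∑' i : I, bw i = 1 := by
  have := nu_prob hμ
  have h := nu_block hμ (f := fun _ => 1) measurable_const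
  simpa using h.symm

theorem bq_len (i : I) : (bq i).length = i.1 := by
  obtain ⟨j, β, hβ⟩ := i
  obtain ⟨b1, b2, b3⟩ := irr_facts hβ
  unfold bq
  rw [List.length_map, List.length_tail, b1]
  simp

theorem bq_pos (i : I) : 1 ≤ (bq i).length := by
  rw [bq_len]
  exact HPL.Irr_pos i.2.2

theorem bc_pos (i : I) : 1 ≤ (bc i).1 := by
  have := last_pos i.2.2
  unfold bc
  omega

theorem bq_low (i : I) : ∀ p ∈ bq i, p.1 < (bc i).1 := by
  obtain ⟨j, β, hβ⟩ := i
  obtain ⟨b1, b2, b3⟩ := irr_facts hβ
  intro p hp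
  unfold bq at hp
  rw [List.mem_map] at hp
  obtain ⟨x, hx, rfl⟩ := hp
  unfold bc
  simp only at hx ⊢
  have h1 : x.1 ≤ (β.getLastD 0).1 := (HPL.mem_Br.1 (HPL.Irr_sub hβ)).2 x (List.mem_of_mem_tail hx)
  have h2 : (x - ee).1 = x.1 - 1 := rfl
  omega

end H982.TZ
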