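import Pool.Agent.H982.TZ2
import Pool.Agent.H982.HP8

set_option autoImplicit false
set_option linter.unusedSectionVars false

/-! The infinite half-plane walk: properties which hold almost surely, mirror symmetry. -/

namespace H982.TZ

open Finset Filter Topology MeasureTheory H982.HP
open TH966.AK (P Kw lst)
open Pool.Agent.H976R3 Pool.Agent.R965.HP
open Pool.Agent.H976R3.HPL (PW)
open Pool.Agent.N941.SP (ps ps_re ps_im ps_inj Z2)
open scoped ENNReal

/-- what is known of the law of the infinite walk -/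
structure Law (μ : Measure X) : Prop where
  lim : Lim μ
  ae : ∀ᵐ γ ∂μ, γ 0 = 0 ∧ (∀ i, γ i ∈ Z2 ∧ 0 ≤ (γ i).im) ∧ (∀ i, ‖γ (i + 1) - γ i‖ = 1) ∧
    Function.Injective γ
  cyl : ∀ (k : ℕ) (η : ℕ → ℂ), Tendsto (fun n =>
      (({γ ∈ PW Z2 1 n | ∀ i ≤ k, γ i = η i}.ncard : ℝ) / ((PW Z2 1 n).ncard : ℝ))) atTop
        (𝓝 (μ.real {γ | ∀ i ≤ k, γ i = η i}))

theorem exists_law : ∃ μ : Measure X, Law μ := by
  obtain ⟨μ, h1, h2, h3, h4⟩ := Pool.Agent.N941.SP.concl_sq
  refine ⟨μ, ⟨⟨h1, fun F => ?_⟩, h2, h3⟩⟩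
  have := h4 F
  simp only [Mn_eq] at this
  exact this

theorem ps_fl {z : ℂ} (h : z ∈ Z2) : ps (fl z) = z := by
  obtain ⟨a, b, rfl⟩ := h
  have : (a : ℂ) + b * Complex.I = ps (b, a) := rfl
  rw [this, fl_ps]

theorem Nb_of {z z' : ℂ} (h : z ∈ Z2) (h' : z' ∈ Z2) (hn : ‖z' - z‖ = 1) : Nb (fl z) (fl z') := by
  have h1 := (Pool.Agent.N941.SP.embSq.adj (fl z) (fl z')).2 (by
    show ‖ps (fl z') - ps (fl z)‖ = 1
    rw [ps_fl h, ps_fl h']
    exact hn)
  have h2 : |(fl z).1 - (fl z').1| + |(fl z).2 - (fl z').2| = 1 := h1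
  unfold Nb
  have a1 := abs_nonneg ((fl z).1 - (fl z').1)
  have a2 := abs_nonneg ((fl z).2 - (fl z').2)
  rcases abs_cases ((fl z).1 - (fl z').1) with h3 | h3 <;>
    rcases abs_cases ((fl z).2 - (fl z').2) with h4 | h4 <;> omega

/-! ### measurability -/

theorem ms1 {p : Q → Prop} (t : ℕ) : Measurable fun g : Y => p (g t) :=
  (measurable_of_countable p).comp (measurable_pi_apply t)

theorem ms2 {p : Q → Q → Prop} (s t : ℕ) : Measurable fun g : Y => p (g s) (g t) :=
  Measurable.comp (g := fun x : Q × Q => p x.1 x.2) (f := fun g : Y => (g s, g t))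
    (measurable_of_countable _) ((measurable_pi_apply s).prodMk (measurable_pi_apply t))

theorem ms_Wk : MeasurableSet {g : Y | Wk g} := by
  have e : {g : Y | Wk g} = {g | g 0 = 0 ∧ (∀ t, Nb (g t) (g (t + 1))) ∧ (∀ t, 0 ≤ (g t).1) ∧
      (∀ s t, g s = g t → s = t) ∧ ∀ N : ℤ, ∃ t, N ≤ (g t).1} := by
    ext g
    constructor
    · intro h
      exact ⟨h.z, h.nb, h.pos, fun s t hst => h.inj hst, h.high⟩
    · rintro ⟨h1, h2, h3, h4, h5⟩
      exact ⟨h1, h2, h3, fun s t hst => h4 s t hst, h5⟩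
  rw [e, measurableSet_setOfPred]
  refine (ms1 (p := fun x => x = 0) 0).and ((Measurable.forall fun t => ms2 t (t + 1)).and
    ((Measurable.forall fun t => ms1 (p := fun x => 0 ≤ x.1) t).and
    ((Measurable.forall fun s => Measurable.forall fun t =>
      ms2 (p := fun x y => x = y → s = t) s t).and
    (Measurable.forall fun N => Measurable.exists fun t => ms1 (p := fun x => N ≤ x.1) t))))

theorem ms_FV (N a : ℤ) : MeasurableSet {g : Y | FV N g a} := by
  rw [measurableSet_setOfPred]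
  unfold FV
  refine Measurable.exists fun t => ?_
  refine Measurable.and (Measurable.forall fun s => ?_) ((ms1 (p := fun x => N ≤ x.1) t).and
    (ms1 (p := fun x => x.2 = a) t))
  exact ms1 (p := fun x => s < t → x.1 < N) s

/-! ### mirror images -/

noncomputable def mX (γ : X) : X := fun i => -(starRingEnd ℂ (γ i))

theorem mX_mX (γ : X) : mX (mX γ) = γ := by
  funext i
  unfold mX
  simp

theorem mX_mem {n : ℕ} {γ : X} (h : γ ∈ PW Z2 1 n) : mX γ ∈ PW Z2 1 n := by
  obtain ⟨h0, h1, h2, h3, h4⟩ := h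
  have hne : ∀ z z' : ℂ, -(starRingEnd ℂ z) = -(starRingEnd ℂ z') → z = z' := by
    intro z z' h
    exact (starRingEnd ℂ).injective (neg_injective h)
  refine ⟨?_, ?_, ?_, ?_, ?_⟩
  · unfold mX
    rw [h0]
    simp
  · intro i
    refine ⟨?_, ?_⟩
    · obtain ⟨a, b, h⟩ := (h1 i).1
      refine ⟨-a, b, ?_⟩
      unfold mX
      rw [h]
      apply Complex.ext <;> simp
    · unfold mX
      simpa using (h1 i).2
  · intro i hi
    have := h2 i hi
    unfold mX
    rw [← neg_sub_neg, neg_neg, neg_neg, ← map_sub, Complex.norm_conj, norm_sub_rev]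
    exact this
  · intro i hi j hj hij
    exact h3 i hi j hj (hne _ _ hij)
  · intro i hi
    unfold mX
    rw [h4 i hi]

theorem mX_bij (n : ℕ) : Set.BijOn mX (PW Z2 1 n) (PW Z2 1 n) := by
  refine ⟨fun γ hγ => mX_mem hγ, ?_, fun γ hγ => ⟨mX γ, mX_mem hγ, mX_mX γ⟩⟩
  intro γ _ γ' _ h
  rw [← mX_mX γ, h, mX_mX]

theorem Mn_mX (n : ℕ) (F : X → ℝ) : Mn n (fun γ => F (mX γ)) = Mn n F := by
  rw [← Mn_eq, ← Mn_eq]
  congr 1
  exact finsum_mem_eq_of_bijOn mX (mX_bij n) (fun γ _ => rfl)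

theorem mX_cont : Continuous mX := by
  refine continuous_pi fun t => ?_
  unfold mX
  exact (Complex.continuous_conj.comp (continuous_apply t)).neg

variable {μ : Measure X}

theorem mu_mX (hμ : Lim μ) : μ.map mX = μ := by
  have := hμ.1
  have h0 : IsProbabilityMeasure (μ.map mX) :=
    Measure.isProbabilityMeasure_map mX_cont.measurable.aemeasurable
  refine ext_of_forall_integral_eq_of_IsFiniteMeasure fun F => ?_
  rw [integral_map mX_cont.measurable.aemeasurable F.continuous.measurable.aestronglyMeasurable]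
  have h1 := hμ.2 (F.compContinuous ⟨mX, mX_cont⟩)
  have h2 := hμ.2 F
  refine tendsto_nhds_unique h1 (h2.congr fun n => ?_)
  exact (Mn_mX n (fun γ => F γ)).symm

def mY (g : Y) : Y := fun t => ((g t).1, -(g t).2)

theorem mY_meas : Measurable mY :=
  measurable_pi_lambda _ fun t =>
    (measurable_of_countable (fun x : Q => ((x.1, -x.2) : Q))).comp (measurable_pi_apply t)

theorem nu_mY (h : Law μ) : (nu μ).map mY = nu μ := by
  have e1 : (nu μ).map mY = μ.map (fun γ => mY (Φ γ)) := Measure.map_map mY_meas Φ_meas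
  have e2 : μ.map (fun γ => mY (Φ γ)) = μ.map (fun γ => Φ (mX γ)) := by
    refine Measure.map_congr ?_
    filter_upwards [h.ae] with γ hγ
    funext t
    obtain ⟨a, b, hab⟩ := (hγ.2.1 t).1
    unfold mY Φ mX
    have e : γ t = ps (b, a) := hab
    have e' : -(starRingEnd ℂ (γ t)) = ps (b, -a) := by
      rw [hab]
      unfold ps
      apply Complex.ext <;> simp
    rw [e', e, fl_ps, fl_ps]
  have e3 : μ.map (fun γ => Φ (mX γ)) = (μ.map mX).map Φ :=
    (Measure.map_map Φ_meas mX_cont.measurable).symm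
  rw [e1, e2, e3, mu_mX h.lim]
  rfl

theorem FV_mY {N a : ℤ} {g : Y} : FV N (mY g) a ↔ FV N g (-a) := by
  unfold FV mY
  simp only
  refine exists_congr fun t => and_congr_right fun _ => and_congr_right fun _ => ?_
  constructor <;> intro h <;> omega

/-- law of the position of the first visit of the level `N` -/
noncomputable def u (μ : Measure X) (N a : ℤ) : ℝ≥0∞ := nu μ {g | FV N g a}

theorem u_symm (h : Law μ) (N a : ℤ) : u μ N (-a) = u μ N a := by
  unfold u
  conv_rhs => rw [← nu_mY h]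
  rw [Measure.map_apply mY_meas (ms_FV N a)]
  congr 1
  ext g
  exact FV_mY.symm

theorem u_le_one (h : Law μ) (N a : ℤ) : u μ N a ≤ 1 := by
  have := nu_prob h.lim
  exact prob_le_one

end H982.TZ
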