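import Pool.Agent.H982.TZ3

set_option autoImplicit false
set_option linter.unusedSectionVars false

/-! Decomposition of the infinite walk into many blocks. -/

namespace H982.TZ

open Finset Filter Topology MeasureTheory H982.HP
open TH966.AK (P Kw lst)
open Pool.Agent.H976R3 Pool.Agent.R965.HP
open Pool.Agent.H976R3.HPL (PW)
open Pool.Agent.N941.SP (ps ps_re ps_im ps_inj Z2)
open scoped ENNReal

variable {μ : Measure X}

/-- decomposition with a first part which is long and high -/
structure Dc (μ : Measure X) (n : ℕ) where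
  ι : Type
  ct : Countable ι
  ρ : ι → ℝ≥0∞
  q : ι → List Q
  c : ι → Q
  one : ∑' i, ρ i = 1
  len : ∀ i, n ≤ (q i).length
  ht : ∀ i, (n : ℤ) ≤ (c i).1
  low : ∀ i, ∀ p ∈ q i, p.1 < (c i).1
  int : ∀ f : Y → ℝ≥0∞, Measurable f →
    ∫⁻ g, f g ∂(nu μ) = ∑' i, ρ i * ∫⁻ g, f (pq (q i) (c i) g) ∂(nu μ)

theorem exists_Dc (hμ : Lim μ) (n : ℕ) : Nonempty (Dc μ n) := by
  induction n with
  | zero =>
    refine ⟨⟨Unit, inferInstance, fun _ => 1, fun _ => [], fun _ => 0, by simp, by simp, by simp,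
      by simp, fun f _ => ?_⟩⟩
    rw [tsum_fintype]
    simp only [Finset.univ_unique, Finset.sum_singleton, one_mul]
    congr 1
    funext g
    congr 1
    funext t
    rw [pq_ge (by simp)]
    simp
  | succ n ih =>
    obtain ⟨D⟩ := ih
    have hct := D.ct
    refine ⟨⟨D.ι × I, inferInstance, fun x => D.ρ x.1 * bw x.2,
      fun x => D.q x.1 ++ (bq x.2).map (fun y => D.c x.1 + y), fun x => D.c x.1 + bc x.2,
      ?_, ?_, ?_, ?_, ?_⟩⟩
    · rw [ENNReal.tsum_prod (f := fun a b => D.ρ a * bw b)]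
      simp only [ENNReal.tsum_mul_left, bw_sum hμ, mul_one]
      exact D.one
    · rintro ⟨i, k⟩
      have h1 := D.len i
      have h2 := bq_pos k
      simp only [List.length_append, List.length_map]
      omega
    · rintro ⟨i, k⟩
      have h1 := D.ht i
      have h2 := bc_pos k
      simp only [Prod.fst_add]
      push_cast
      omega
    · rintro ⟨i, k⟩ p hp
      have h2 := bc_pos k
      simp only [Prod.fst_add]
      rcases List.mem_append.1 hp with hp | hp
      · have := D.low i p hp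
        omega
      · obtain ⟨x, hx, rfl⟩ := List.mem_map.1 hp
        have := bq_low k x hx
        simp only [Prod.fst_add]
        omega
    · intro f hf
      rw [D.int f hf, ENNReal.tsum_prod (f := fun a b => D.ρ a * bw b *
        ∫⁻ g, f (pq (D.q a ++ (bq b).map (fun y => D.c a + y)) (D.c a + bc b) g) ∂(nu μ))]
      refine tsum_congr fun i => ?_
      rw [nu_block hμ (f := fun g => f (pq (D.q i) (D.c i) g)) (hf.comp (pq_meas _ _)),
        ← ENNReal.tsum_mul_left]
      refine tsum_congr fun k => ?_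
      rw [mul_assoc]
      simp only [pq_pq]

theorem Dc.meas {n : ℕ} (D : Dc μ n) {A : Set Y} (hA : MeasurableSet A) :
    nu μ A = ∑' i, D.ρ i * nu μ {g | pq (D.q i) (D.c i) g ∈ A} := by
  have h := D.int (A.indicator 1) (measurable_one.indicator hA)
  rw [lintegral_indicator_one hA] at h
  rw [h]
  refine tsum_congr fun i => ?_
  congr 1
  have hA' : MeasurableSet {g | pq (D.q i) (D.c i) g ∈ A} := pq_meas _ _ hA
  rw [← lintegral_indicator_one hA']
  rfl

theorem block_meas (hμ : Lim μ) {A : Set Y} (hA : MeasurableSet A) :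
    nu μ A = ∑' i : I, bw i * nu μ {g | pq (bq i) (bc i) g ∈ A} := by
  have h := nu_block hμ (f := A.indicator 1) (measurable_one.indicator hA)
  rw [lintegral_indicator_one hA] at h
  rw [h]
  refine tsum_congr fun i => ?_
  congr 1
  have hA' : MeasurableSet {g | pq (bq i) (bc i) g ∈ A} := pq_meas _ _ hA
  rw [← lintegral_indicator_one hA']
  rfl

theorem Dc.ae {n : ℕ} (D : Dc μ n) {p : Y → Prop} (hp : MeasurableSet {g | p g})
    (h : ∀ᵐ g ∂(nu μ), p g) {i : D.ι} (hi : D.ρ i ≠ 0) :
    ∀ᵐ g ∂(nu μ), p (pq (D.q i) (D.c i) g) := by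
  have h1 : nu μ {g | p g}ᶜ = 0 := h
  rw [D.meas hp.compl, ENNReal.tsum_eq_zero] at h1
  have h2 := h1 i
  rw [mul_eq_zero] at h2
  rcases h2 with h2 | h2
  · exact absurd h2 hi
  · exact h2

theorem nu_zero (h : Law μ) : ∀ᵐ g ∂(nu μ), g 0 = 0 := by
  unfold nu
  rw [ae_map_iff Φ_meas.aemeasurable (measurableSet_setOfPred.2 (ms1 (p := fun x => x = 0) 0))]
  filter_upwards [h.ae] with γ hγ
  unfold Φ
  rw [hγ.1]
  unfold fl
  simp

theorem nu_high (h : Law μ) : ∀ᵐ g ∂(nu μ), ∀ N : ℤ, ∃ t, N ≤ (g t).1 := by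
  rw [ae_all_iff]
  intro N
  obtain ⟨D⟩ := exists_Dc h.lim N.toNat
  have hm : MeasurableSet {g : Y | ∃ t, N ≤ (g t).1} := measurableSet_setOfPred.2
    (Measurable.exists fun t => ms1 (p := fun x => N ≤ x.1) t)
  change nu μ {g : Y | ∃ t, N ≤ (g t).1}ᶜ = 0
  rw [D.meas hm.compl, ENNReal.tsum_eq_zero]
  intro i
  rw [mul_eq_zero]
  right
  have h0 := nu_zero h
  refine measure_mono_null ?_ (show nu μ {g | g 0 = 0}ᶜ = 0 from h0)
  intro g hg hg0
  apply hg
  refine ⟨(D.q i).length, ?_⟩
  rw [pq_ge le_rfl, Nat.sub_self, hg0, add_zero]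
  have := D.ht i
  omega

theorem nu_Wk (h : Law μ) : ∀ᵐ g ∂(nu μ), Wk g := by
  have h1 : ∀ᵐ g ∂(nu μ), (∀ t, Nb (g t) (g (t + 1))) ∧ (∀ t, 0 ≤ (g t).1) ∧
      (∀ s t, g s = g t → s = t) := by
    unfold nu
    rw [ae_map_iff Φ_meas.aemeasurable]
    · filter_upwards [h.ae] with γ hγ
      obtain ⟨a1, a2, a3, a4⟩ := hγ
      refine ⟨fun t => Nb_of (a2 t).1 (a2 (t + 1)).1 (a3 t), fun t => ?_, fun s t hst => ?_⟩
      · have := (a2 t).2
        exact Int.floor_nonneg.2 this
      · apply a4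
        have e : fl (γ s) = fl (γ t) := hst
        rw [← ps_fl (a2 s).1, e, ps_fl (a2 t).1]
    · rw [measurableSet_setOfPred]
      exact (Measurable.forall fun t => ms2 t (t + 1)).and
        ((Measurable.forall fun t => ms1 (p := fun x => 0 ≤ x.1) t).and
        (Measurable.forall fun s => Measurable.forall fun t =>
          ms2 (p := fun x y => x = y → s = t) s t))
  filter_upwards [h1, nu_zero h, nu_high h] with g b1 b2 b3
  exact ⟨b2, b1.1, b1.2.1, fun s t hst => b1.2.2 s t hst, b3⟩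

/-! ### the position of the first visit -/

theorem FV_pq {q : List Q} {c : Q} {g : Y} {N a : ℤ} (hlow : ∀ p ∈ q, p.1 < c.1) (hN : c.1 ≤ N)
    : FV N (pq q c g) a ↔ FV (N - c.1) g (a - c.2) := by
  have hq : ∀ t < q.length, (pq q c g t).1 < N := by
    intro t ht
    rw [pq_lt ht, List.getD_eq_getElem _ _ ht]
    have := hlow _ (List.getElem_mem ht)
    omega
  constructor
  · rintro ⟨t, h1, h2, h3⟩
    have ht : q.length ≤ t := by
      by_contra hc
      have := hq t (by omega)
      omega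
    refine ⟨t - q.length, fun s hs => ?_, ?_, ?_⟩
    · have := h1 (s + q.length) (by omega)
      rw [pq_ge (by omega), Nat.add_sub_cancel, Prod.fst_add] at this
      omega
    · rw [pq_ge ht, Prod.fst_add] at h2
      omega
    · rw [pq_ge ht, Prod.snd_add] at h3
      omega
  · rintro ⟨t, h1, h2, h3⟩
    refine ⟨t + q.length, fun s hs => ?_, ?_, ?_⟩
    · by_cases hs2 : s < q.length
      · exact hq s hs2
      · have := h1 (s - q.length) (by omega)
        rw [pq_ge (by omega), Prod.fst_add]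
        omega
    · rw [pq_ge (by omega), Nat.add_sub_cancel, Prod.fst_add]
      omega
    · rw [pq_ge (by omega), Nat.add_sub_cancel, Prod.snd_add]
      omega

theorem u_sum_le (h : Law μ) (N : ℤ) {ι : Type*} (J : Finset ι) (f : ι → ℤ)
    (hf : ∀ i ∈ J, ∀ j ∈ J, f i = f j → i = j) : ∑ i ∈ J, u μ N (f i) ≤ 1 := by
  have := nu_prob h.lim
  unfold u
  rw [← measure_biUnion_finset]
  · exact prob_le_one
  · intro i hi j hj hne
    refine Set.disjoint_left.2 fun g h1 h2 => hne ?_
    exact hf i hi j hj (FV_unique h1 h2)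
  · intro i _
    exact ms_FV N _

theorem u_tsum (h : Law μ) (N : ℤ) : ∑' a, u μ N a = 1 := by
  have := nu_prob h.lim
  unfold u
  rw [← measure_iUnion]
  · rw [prob_compl_eq_zero_iff₀ (MeasurableSet.iUnion fun a => ms_FV N a).nullMeasurableSet |>.1]
    filter_upwards [nu_high h] with g hg
    obtain ⟨a, ha⟩ := FV_exists (hg N)
    exact Set.mem_iUnion.2 ⟨a, ha⟩
  · intro i j hne
    refine Set.disjoint_left.2 fun g h1 h2 => hne ?_
    exact FV_unique h1 h2
  · intro i
    exact ms_FV N _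

end H982.TZ
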