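import Pool.Agent.H982.TZ4

set_option autoImplicit false
set_option linter.unusedSectionVars false

/-! Anti-concentration of the position of the first visit of a level. -/

namespace H982.TZ

open Filter Topology MeasureTheory H982.HP
open TH966.AK (P Kw lst)
open Pool.Agent.H976R3 Pool.Agent.R965.HP
open scoped ENNReal

variable {μ : Measure X}

/-- a block with a lateral step -/
def b0 : List P := [(0, 0), (1, 0), (1, 1)]

theorem b0_mem : b0 ∈ Bk 2 := by
  classical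
  have h1 : b0 ∈ HPL.HW sqS 2 0 := by
    rw [mem_HWs]
    refine ⟨rfl, rfl, ?_, ?_, ?_⟩
    · unfold b0
      simp only [List.isChain_cons_cons, List.isChain_singleton, and_true]
      rw [Sq.A_iff, Sq.A_iff]
      omega
    · unfold b0
      decide
    · unfold b0
      simp
  have h2 : b0 ∈ HPL.Br sqS 2 0 := by
    rw [HPL.mem_Br]
    refine ⟨h1, ?_⟩
    intro w hw
    show w.1 ≤ 1
    unfold b0 at hw
    simp only [List.mem_cons, List.not_mem_nil, or_false] at hw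
    rcases hw with rfl | rfl | rfl <;> norm_num
  show b0 ∈ (HPL.Br sqS 2 0).filter _
  rw [Finset.mem_filter]
  refine ⟨h2, by norm_num, ?_⟩
  intro i h3 h4 h5
  have : i = 1 := by omega
  subst this
  have h6 := h5.2 (1, 1) (by unfold b0; simp)
  exact absurd h6 (by
    show ¬ (1 : ℤ) < 1
    norm_num)

noncomputable def i0 : I := ⟨2, b0, b0_mem⟩

theorem bc_i0 : bc i0 = (1, 1) := rfl

noncomputable def w0 : ℝ≥0∞ := bw i0

open Classical in
noncomputable def w0c : ℝ≥0∞ := ∑' i : I, if i = i0 then 0 else bw i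

theorem w0_add (h : Law μ) : w0 + w0c = 1 := by
  classical
  have h1 : ∑' i : I, (if i = i0 then bw i else 0) = w0 := by
    rw [tsum_eq_single i0]
    · rw [if_pos rfl]
      rfl
    · intro i hi
      rw [if_neg hi]
  unfold w0c
  rw [← h1, ← ENNReal.tsum_add, ← bw_sum h.lim]
  refine tsum_congr fun i => ?_
  split_ifs <;> simp

theorem w0_pos : w0 ≠ 0 := by
  unfold w0 bw
  have := muS_pos'
  rw [ENNReal.ofReal_ne_zero_iff]
  positivity

/-- **the renewal inequality for `u`** -/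
theorem star (h : Law μ) {ε : ℝ≥0∞} (hε : ε ≠ 0) : ∃ k : ℕ, 1 ≤ k ∧ ∀ n : ℕ, k < n →
    ∀ (a : ℤ) (b : ℝ≥0∞), (∀ m : ℕ, n ≤ m + k → m < n → ∀ a', u μ m a' ≤ b) →
      u μ n a ≤ w0 * u μ (n - 1 : ℕ) (a - 1) + w0c * b + ε := by
  classical
  have := nu_prob h.lim
  have h1 : ∑' i : I, bw i ≠ ⊤ := by rw [bw_sum h.lim]; exact ENNReal.one_ne_top
  have h2 := ENNReal.tendsto_tsum_compl_atTop_zero h1
  obtain ⟨s, hs⟩ := (h2.eventually (gt_mem_nhds (pos_iff_ne_zero.2 hε))).exists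
  have hs' : ∑' i : I, (if i ∈ s then 0 else bw i) ≤ ε := by
    refine le_trans (le_of_eq ?_) hs.le
    refine Eq.trans ?_ (tsum_subtype {x | x ∉ s} bw).symm
    refine tsum_congr fun i => ?_
    by_cases hi : i ∈ s
    · rw [if_pos hi, Set.indicator_of_notMem (by simpa using hi)]
    · rw [if_neg hi, Set.indicator_of_mem (show i ∈ {x | x ∉ s} from hi)]
  obtain ⟨k, hk1, hk⟩ : ∃ k : ℕ, 1 ≤ k ∧ ∀ i ∈ s, (bc i).1 ≤ k := by
    refine ⟨s.sup (fun i => (bc i).1.toNat) + 1, by omega, fun i hi => ?_⟩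
    have := Finset.le_sup (f := fun i => (bc i).1.toNat) hi
    omega
  refine ⟨k, hk1, fun n hn a b hb => ?_⟩
  have hterm : ∀ i : I, bw i * nu μ {g | pq (bq i) (bc i) g ∈ {g | FV (n : ℤ) g a}} ≤
      (if i = i0 then w0 * u μ (n - 1 : ℕ) (a - 1) else 0) +
        (if i = i0 then 0 else bw i) * b + (if i ∈ s then 0 else bw i) := by
    intro i
    by_cases c0 : (bc i).1 ≤ n
    · have e : nu μ {g | pq (bq i) (bc i) g ∈ {g | FV (n : ℤ) g a}} =
          u μ (n - (bc i).1) (a - (bc i).2) := by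
        unfold u
        congr 1
        ext g
        exact FV_pq (bq_low i) c0
      rw [e]
      by_cases c1 : i = i0
      · rw [if_pos c1, if_pos c1, zero_mul, add_zero, c1, bc_i0]
        have e2 : (n : ℤ) - ((1 : ℤ), (1 : ℤ)).1 = ((n - 1 : ℕ) : ℤ) := by
          simp only
          omega
        rw [e2]
        exact le_self_add
      · rw [if_neg c1, if_neg c1, zero_add]
        by_cases c2 : i ∈ s
        · rw [if_pos c2, add_zero]
          gcongr
          have h3 := hk i c2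
          have h4 := bc_pos i
          have h5 := hb (n - (bc i).1.toNat) (by omega) (by omega) (a - (bc i).2)
          have e2 : ((n - (bc i).1.toNat : ℕ) : ℤ) = n - (bc i).1 := by omega
          rw [e2] at h5
          exact h5
        · rw [if_neg c2]
          refine le_trans ?_ le_add_self
          exact (mul_le_mul_right (u_le_one h _ _) _).trans (mul_one _).le
    · have c2 : i ∉ s := fun hc => by
        have := hk i hc
        omega
      rw [if_neg c2]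
      refine le_trans ?_ le_add_self
      exact (mul_le_mul_right prob_le_one _).trans (mul_one _).le
  have hu : u μ n a = ∑' i : I, bw i * nu μ {g | pq (bq i) (bc i) g ∈ {g | FV (n : ℤ) g a}} :=
    block_meas h.lim (ms_FV _ _)
  rw [hu]
  refine (ENNReal.tsum_le_tsum hterm).trans ?_
  rw [ENNReal.tsum_add, ENNReal.tsum_add, ENNReal.tsum_mul_right, tsum_ite_eq]
  unfold w0c
  gcongr

/-- real form -/
noncomputable def v (μ : Measure X) (n : ℕ) (a : ℤ) : ℝ := (u μ n a).toReal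

theorem u_ne_top (h : Law μ) (n : ℕ) (a : ℤ) : u μ n a ≠ ⊤ :=
  ne_top_of_le_ne_top ENNReal.one_ne_top (u_le_one h n a)

theorem v_nonneg (n : ℕ) (a : ℤ) : 0 ≤ v μ n a := ENNReal.toReal_nonneg

theorem v_le_one (h : Law μ) (n : ℕ) (a : ℤ) : v μ n a ≤ 1 := by
  unfold v
  exact ENNReal.toReal_le_of_le_ofReal zero_le_one (by rw [ENNReal.ofReal_one]; exact u_le_one h n a)

theorem v_symm (h : Law μ) (n : ℕ) (a : ℤ) : v μ n (-a) = v μ n a := by
  unfold v
  rw [u_symm h]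

theorem v_sum_le (h : Law μ) (n : ℕ) {ι : Type*} (J : Finset ι) (f : ι → ℤ)
    (hf : ∀ i ∈ J, ∀ j ∈ J, f i = f j → i = j) : ∑ i ∈ J, v μ n (f i) ≤ 1 := by
  unfold v
  rw [← ENNReal.toReal_sum (fun i _ => u_ne_top h n _)]
  exact ENNReal.toReal_le_of_le_ofReal zero_le_one (by
    rw [ENNReal.ofReal_one]; exact u_sum_le h n J f hf)

noncomputable def x0 : ℝ := w0.toReal

theorem w0_ne_top : w0 ≠ ⊤ := ENNReal.ofReal_ne_top

theorem w0c_ne_top (h : Law μ) : w0c ≠ ⊤ := by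
  intro h1
  have := w0_add h
  rw [h1] at this
  simp at this

theorem x0_pos : 0 < x0 := ENNReal.toReal_pos w0_pos w0_ne_top

theorem x0_c (h : Law μ) : w0c.toReal = 1 - x0 := by
  have := congrArg ENNReal.toReal (w0_add h)
  rw [ENNReal.toReal_add w0_ne_top (w0c_ne_top h), ENNReal.toReal_one] at this
  unfold x0
  linarith

theorem x0_le (h : Law μ) : x0 ≤ 1 := by
  have h1 := x0_c h
  have h2 : 0 ≤ w0c.toReal := ENNReal.toReal_nonneg
  linarith

theorem starR (h : Law μ) {ε : ℝ} (hε : 0 < ε) : ∃ k : ℕ, 1 ≤ k ∧ ∀ n : ℕ, k < n →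
    ∀ (a : ℤ) (b : ℝ), 0 ≤ b → (∀ m : ℕ, n ≤ m + k → m < n → ∀ a', v μ m a' ≤ b) →
      v μ n a ≤ x0 * v μ (n - 1) (a - 1) + (1 - x0) * b + ε ∧
      v μ n a ≤ x0 * v μ (n - 1) (a + 1) + (1 - x0) * b + ε := by
  obtain ⟨k, hk1, hk⟩ := star h (ε := ENNReal.ofReal ε) (by
    rw [ENNReal.ofReal_ne_zero_iff]; exact hε)
  have main : ∀ n : ℕ, k < n → ∀ (a : ℤ) (b : ℝ), 0 ≤ b →
      (∀ m : ℕ, n ≤ m + k → m < n → ∀ a', v μ m a' ≤ b) →
        v μ n a ≤ x0 * v μ (n - 1) (a - 1) + (1 - x0) * b + ε := by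
    intro n hn a b hb h'
    have h1 := hk n hn a (ENNReal.ofReal b) (fun m h1 h2 a' =>
      (ENNReal.le_ofReal_iff_toReal_le (u_ne_top h m a') hb).2 (h' m h1 h2 a'))
    have h2 := ENNReal.toReal_mono (by
      refine ENNReal.add_ne_top.2 ⟨ENNReal.add_ne_top.2 ⟨?_, ?_⟩, ENNReal.ofReal_ne_top⟩
      · exact ENNReal.mul_ne_top w0_ne_top (u_ne_top h _ _)
      · exact ENNReal.mul_ne_top (w0c_ne_top h) ENNReal.ofReal_ne_top) h1
    rw [ENNReal.toReal_add (ENNReal.add_ne_top.2 ⟨ENNReal.mul_ne_top w0_ne_top (u_ne_top h _ _),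
      ENNReal.mul_ne_top (w0c_ne_top h) ENNReal.ofReal_ne_top⟩) ENNReal.ofReal_ne_top,
      ENNReal.toReal_add (ENNReal.mul_ne_top w0_ne_top (u_ne_top h _ _))
      (ENNReal.mul_ne_top (w0c_ne_top h) ENNReal.ofReal_ne_top), ENNReal.toReal_mul,
      ENNReal.toReal_mul, ENNReal.toReal_ofReal hb, ENNReal.toReal_ofReal hε.le, x0_c h] at h2
    exact h2
  refine ⟨k, hk1, fun n hn a b hb h' => ⟨main n hn a b hb h', ?_⟩⟩
  have h1 := main n hn (-a) b hb h'
  rw [v_symm h] at h1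
  have e : -a - 1 = -(a + 1) := by ring
  rw [e, v_symm h] at h1
  exact h1

/-- eventual upper bounds of `v` -/
def UB (μ : Measure X) : Set ℝ := {b | ∃ N : ℕ, ∀ n, N ≤ n → ∀ a, v μ n a ≤ b}

theorem one_UB (h : Law μ) : (1 : ℝ) ∈ UB μ := ⟨0, fun n _ a => v_le_one h n a⟩

theorem UB_nonneg {b : ℝ} (h : b ∈ UB μ) : 0 ≤ b := by
  obtain ⟨N, h⟩ := h
  exact (v_nonneg N 0).trans (h N le_rfl 0)

noncomputable def GG (μ : Measure X) : ℝ := sInf (UB μ)

theorem GG_nonneg (h : Law μ) : 0 ≤ GG μ := le_csInf ⟨1, one_UB h⟩ fun _ h => UB_nonneg h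

theorem GG_above (h : Law μ) {ε : ℝ} (hε : 0 < ε) :
    ∃ N : ℕ, ∀ n, N ≤ n → ∀ a, v μ n a ≤ GG μ + ε := by
  obtain ⟨b, ⟨N, hb⟩, hlt⟩ := exists_lt_of_csInf_lt ⟨1, one_UB h⟩ (show sInf (UB μ) < GG μ + ε by
    unfold GG; linarith)
  exact ⟨N, fun n hn a => (hb n hn a).trans hlt.le⟩

theorem GG_below {ε : ℝ} (hε : 0 < ε) (N : ℕ) : ∃ n, N ≤ n ∧ ∃ a, GG μ - ε ≤ v μ n a := by
  by_contra h
  push Not at h
  have h1 : GG μ - ε ∈ UB μ := ⟨N, fun n hn a => (h n hn a).le⟩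
  have h2 : GG μ ≤ GG μ - ε := csInf_le ⟨0, fun b hb => UB_nonneg hb⟩ h1
  linarith

theorem spread (h : Law μ) (j : ℕ) : ∀ δ : ℝ, 0 < δ → ∃ ε : ℝ, 0 < ε ∧ ∃ N : ℕ, ∀ n, N ≤ n →
    ∀ a : ℤ, GG μ - ε ≤ v μ n a → ∀ i : ℕ, i ≤ j → GG μ - δ ≤ v μ (n - j) (a - j + 2 * i) := by
  induction j with
  | zero =>
    intro δ hδ
    refine ⟨δ, hδ, 0, fun n _ a h i hi => ?_⟩
    have : i = 0 := by omega
    subst this
    simpa using h
  | succ j ih =>
    intro δ hδ
    have hx := x0_pos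
    have hx1 := x0_le h
    obtain ⟨ε, hε, N1, h1⟩ := ih (x0 * δ / 2) (by positivity)
    have he : 0 < x0 * δ / 4 := by positivity
    obtain ⟨k, hk1, hk⟩ := starR h he
    obtain ⟨N2, h2⟩ := GG_above h he
    refine ⟨ε, hε, N1 + N2 + k + j + 2, fun n hn a ha i hi => ?_⟩
    have key : ∀ i' : ℕ, i' ≤ j →
        GG μ - δ ≤ v μ (n - j - 1) (a - j + 2 * i' - 1) ∧
        GG μ - δ ≤ v μ (n - j - 1) (a - j + 2 * i' + 1) := by
      intro i' hi'
      have h3 := h1 n (by omega) a ha i' hi'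
      obtain ⟨h4, h5⟩ := hk (n - j) (by omega) (a - j + 2 * i') (GG μ + x0 * δ / 4)
        (by have := GG_nonneg h; positivity) (fun m hm1 hm2 a' => h2 m (by omega) a')
      have h6 : 0 ≤ (1 - x0) * (x0 * δ / 4) := mul_nonneg (by linarith) he.le
      have h7 : (1 - x0) * (x0 * δ / 4) ≤ x0 * δ / 4 := by nlinarith
      constructor
      · have : x0 * (GG μ - δ) ≤ x0 * v μ (n - j - 1) (a - j + 2 * i' - 1) := by nlinarith
        exact le_of_mul_le_mul_left this hx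
      · have : x0 * (GG μ - δ) ≤ x0 * v μ (n - j - 1) (a - j + 2 * i' + 1) := by nlinarith
        exact le_of_mul_le_mul_left this hx
    have e : n - (j + 1) = n - j - 1 := by omega
    rw [e]
    rcases Nat.lt_or_ge i (j + 1) with h | h
    · have h3 := (key i (by omega)).1
      have e2 : a - ((j + 1 : ℕ) : ℤ) + 2 * i = a - j + 2 * i - 1 := by push_cast; ring
      rw [e2]
      exact h3
    · have hi' : i = j + 1 := by omega
      subst hi'
      have h3 := (key j le_rfl).2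
      have e2 : a - ((j + 1 : ℕ) : ℤ) + 2 * ((j + 1 : ℕ) : ℤ) = a - j + 2 * j + 1 := by
        push_cast; ring
      rw [e2]
      exact h3

theorem GG_zero (hl : Law μ) : GG μ = 0 := by
  by_contra h
  have hG : 0 < GG μ := lt_of_le_of_ne (GG_nonneg hl) (Ne.symm h)
  obtain ⟨j, hj⟩ := exists_nat_gt (2 / GG μ)
  obtain ⟨ε, hε, N, h1⟩ := spread hl j (GG μ / 2) (by positivity)
  obtain ⟨n, hn, a, ha⟩ := GG_below hε N
  have h2 := v_sum_le hl (n - j) (Finset.range (j + 1)) (fun i : ℕ => a - j + 2 * (i : ℤ))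
    (fun i _ i' _ h => by
      have h' : a - (j : ℤ) + 2 * (i : ℤ) = a - j + 2 * (i' : ℤ) := h
      omega)
  have h3 : ∑ i ∈ Finset.range (j + 1), GG μ / 2 ≤
      ∑ i ∈ Finset.range (j + 1), v μ (n - j) (a - j + 2 * (i : ℤ)) :=
    Finset.sum_le_sum fun i hi => by
      have := h1 n hn a ha i (by rw [Finset.mem_range] at hi; omega)
      linarith
  rw [Finset.sum_const, Finset.card_range, nsmul_eq_mul] at h3
  have h4 : ((j + 1 : ℕ) : ℝ) * (GG μ / 2) ≤ 1 := h3.trans h2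
  have h5 : 2 < j * GG μ := by
    rw [div_lt_iff₀ hG] at hj
    exact hj
  push_cast at h4
  nlinarith

/-- **anti-concentration** -/
theorem anti (h : Law μ) {ε : ℝ≥0∞} (hε : ε ≠ 0) : ∃ N : ℕ, ∀ n : ℕ, N ≤ n → ∀ a, u μ n a ≤ ε := by
  by_cases ht : ε = ⊤
  · exact ⟨0, fun n _ a => by rw [ht]; exact le_top⟩
  · have h1 : 0 < ε.toReal := ENNReal.toReal_pos hε ht
    obtain ⟨N, hN⟩ := GG_above h h1
    refine ⟨N, fun n hn a => ?_⟩
    have h2 := hN n hn a
    rw [GG_zero h, zero_add] at h2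
    exact (ENNReal.toReal_le_toReal (u_ne_top h n a) ht).1 h2

end H982.TZ
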