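import Pool.Agent.H982.TZ5

set_option autoImplicit false
set_option linter.unusedSectionVars false

/-! Two independent infinite half-plane walks on the square lattice meet infinitely often. -/

namespace H982.TZ

open Filter Topology MeasureTheory H982.HP
open TH966.AK (P Kw lst)
open Pool.Agent.H976R3 Pool.Agent.R965.HP
open scoped ENNReal

variable {μ : Measure X}

open Classical in
/-- comparison of two symmetric laws -/
theorem num {p p' : ℤ → ℝ≥0∞} (hp : ∑' a, p a = 1) (hp' : ∑' a, p' a = 1)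
    (hs : ∀ a, p (-a) = p a) (hs' : ∀ a, p' (-a) = p' a) {ε : ℝ≥0∞} (hε : ∀ a, p a ≤ ε) (k : ℤ) :
    ∑' b, ∑' a, (if a < b + k then p a * p' b else 0) ≤ 1 / 2 + (k.toNat : ℝ≥0∞) * ε := by
  obtain ⟨A, hA⟩ : ∃ A, A = ∑' b, ∑' a, (if a < b then p a * p' b else 0) := ⟨_, rfl⟩
  obtain ⟨B, hB⟩ : ∃ B, B = ∑' b, ∑' a, (if b < a then p a * p' b else 0) := ⟨_, rfl⟩
  have hAB : A = B := by
    rw [hA, hB, ← Equiv.tsum_eq (Equiv.neg ℤ)]
    refine tsum_congr fun b => ?_
    rw [← Equiv.tsum_eq (Equiv.neg ℤ)]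
    refine tsum_congr fun a => ?_
    simp only [Equiv.neg_apply, neg_lt_neg_iff, hs, hs']
  have hone : ∑' b, ∑' a, p a * p' b = 1 := by
    simp only [ENNReal.tsum_mul_right, hp, one_mul, hp']
  have e : A + B ≤ 1 := by
    rw [← hone, hA, hB, ← ENNReal.tsum_add]
    refine ENNReal.tsum_le_tsum fun b => ?_
    rw [← ENNReal.tsum_add]
    refine ENNReal.tsum_le_tsum fun a => ?_
    rcases lt_trichotomy a b with h | h | h
    · rw [if_pos h, if_neg (not_lt.2 h.le), add_zero]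
    · rw [if_neg (not_lt.2 h.ge), if_neg (not_lt.2 h.le), add_zero]
      exact zero_le
    · rw [if_pos h, if_neg (not_lt.2 h.le), zero_add]
  have hA2 : A ≤ 1 / 2 := by
    rw [← hAB] at e
    rw [ENNReal.le_div_iff_mul_le (Or.inl (by norm_num)) (Or.inl (by norm_num)), mul_two]
    exact e
  have h1 : ∑' b, ∑' a, (if a < b + k then p a * p' b else 0) ≤
      A + ∑' b : ℤ, ∑' a : ℤ, ∑ i ∈ Finset.range k.toNat,
        (if a = b + (i : ℤ) then p a * p' b else 0) := by
    rw [hA, ← ENNReal.tsum_add]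
    refine ENNReal.tsum_le_tsum fun b => ?_
    rw [← ENNReal.tsum_add]
    refine ENNReal.tsum_le_tsum fun a => ?_
    by_cases h2 : a < b + k
    · rw [if_pos h2]
      by_cases h3 : a < b
      · rw [if_pos h3]
        exact le_self_add
      · refine le_trans ?_ le_add_self
        have h5 : (a - b).toNat ∈ Finset.range k.toNat := by
          rw [Finset.mem_range]
          omega
        refine le_trans (le_of_eq ?_) (Finset.single_le_sum (f := fun i : ℕ =>
          if a = b + (i : ℤ) then p a * p' b else 0) (fun _ _ => zero_le) h5)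
        rw [if_pos]
        omega
    · rw [if_neg h2]
      exact zero_le
  refine h1.trans (add_le_add hA2 ?_)
  have h2 : ∀ b : ℤ, ∑' a : ℤ, ∑ i ∈ Finset.range k.toNat,
      (if a = b + (i : ℤ) then p a * p' b else 0) ≤
      (k.toNat : ℝ≥0∞) * ε * p' b := by
    intro b
    rw [Summable.tsum_finsetSum (fun _ _ => ENNReal.summable)]
    refine (Finset.sum_le_sum (g := fun _ => ε * p' b) fun i _ => ?_).trans ?_
    · rw [tsum_eq_single (b + (i : ℤ))]
      · rw [if_pos rfl]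
        gcongr
        exact hε _
      · intro a ha
        rw [if_neg ha]
    · rw [Finset.sum_const, Finset.card_range, nsmul_eq_mul, mul_assoc]
  refine (ENNReal.tsum_le_tsum h2).trans ?_
  rw [ENNReal.tsum_mul_left, hp', mul_one]

/-- the product law -/
noncomputable def nn (μ : Measure X) : Measure (Y × Y) := (nu μ).prod (nu μ)

theorem nn_prob (h : Law μ) : IsProbabilityMeasure (nn μ) := by
  have := nu_prob h.lim
  unfold nn
  infer_instance

open Classical in
theorem event_le (h : Law μ) (n n' : ℤ) (R : ℤ → ℤ → Prop) :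
    nn μ {x | ∃ a b, FV n x.1 a ∧ FV n' x.2 b ∧ R a b} ≤
      ∑' b, ∑' a, (if R a b then u μ n a * u μ n' b else 0) := by
  have := nu_prob h.lim
  have h1 : {x : Y × Y | ∃ a b, FV n x.1 a ∧ FV n' x.2 b ∧ R a b} ⊆
      ⋃ b, ⋃ a, (if R a b then {g | FV n g a} ×ˢ {g | FV n' g b} else ∅) := by
    rintro x ⟨a, b, h1, h2, h3⟩
    refine Set.mem_iUnion.2 ⟨b, Set.mem_iUnion.2 ⟨a, ?_⟩⟩
    rw [if_pos h3]
    exact ⟨h1, h2⟩
  refine (measure_mono h1).trans ((measure_iUnion_le _).trans ?_)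
  refine ENNReal.tsum_le_tsum fun b => (measure_iUnion_le _).trans ?_
  refine ENNReal.tsum_le_tsum fun a => ?_
  split_ifs with h2
  · unfold nn u
    rw [Measure.prod_prod]
  · rw [measure_empty]

theorem compare (h : Law μ) (n n' : ℤ) (k : ℤ) {ε : ℝ≥0∞} (hε : ∀ a, u μ n a ≤ ε) :
    nn μ {x | ∃ a b, FV n x.1 a ∧ FV n' x.2 b ∧ a < b + k} ≤ 1 / 2 + (k.toNat : ℝ≥0∞) * ε := by
  classical
  refine (event_le h n n' (fun a b => a < b + k)).trans (le_trans (le_of_eq ?_)
    (num (u_tsum h n) (u_tsum h n') (u_symm h n) (u_symm h n') hε k))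
  refine tsum_congr fun b => tsum_congr fun a => ?_
  congr

theorem compare' (h : Law μ) (n n' : ℤ) (k : ℤ) {ε : ℝ≥0∞} (hε : ∀ a, u μ n' a ≤ ε) :
    nn μ {x | ∃ a b, FV n x.1 a ∧ FV n' x.2 b ∧ b < a + k} ≤ 1 / 2 + (k.toNat : ℝ≥0∞) * ε := by
  classical
  refine (event_le h n n' (fun a b => b < a + k)).trans ?_
  rw [ENNReal.tsum_comm]
  refine le_trans (le_of_eq ?_)
    (num (u_tsum h n') (u_tsum h n) (u_symm h n') (u_symm h n) hε k)
  refine tsum_congr fun a => tsum_congr fun b => ?_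
  rw [mul_comm]
  congr

/-- no common site after the time `m` -/
def F (m : ℕ) (j : ℤ) (g g' : Y) : Prop := ∀ s t : ℕ, m < max s t → g s ≠ g' t + (0, j)

def G (n m : ℕ) (j : ℤ) (g g' : Y) : Prop :=
  ∀ s t : ℕ, s < n → t < n → m < max s t → g s ≠ g' t + (0, j)

theorem ms3 {p : Q → Q → Prop} (s t : ℕ) : Measurable fun x : Y × Y => p (x.1 s) (x.2 t) :=
  Measurable.comp (g := fun x : Q × Q => p x.1 x.2) (f := fun x : Y × Y => (x.1 s, x.2 t))
    (measurable_of_countable _) (((measurable_pi_apply s).comp measurable_fst).prodMk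
      ((measurable_pi_apply t).comp measurable_snd))

theorem ms_F (m : ℕ) (j : ℤ) : MeasurableSet {x : Y × Y | F m j x.1 x.2} := by
  rw [measurableSet_setOfPred]
  exact Measurable.forall fun s => Measurable.forall fun t =>
    ms3 (p := fun x y => m < max s t → x ≠ y + (0, j)) s t

theorem ms_G (n m : ℕ) (j : ℤ) : MeasurableSet {x : Y × Y | G n m j x.1 x.2} := by
  rw [measurableSet_setOfPred]
  exact Measurable.forall fun s => Measurable.forall fun t =>
    ms3 (p := fun x y => s < n → t < n → m < max s t → x ≠ y + (0, j)) s t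

theorem Dc.prod (h : Law μ) {n : ℕ} (D : Dc μ n) {A : Set (Y × Y)} (hA : MeasurableSet A) :
    nn μ A = ∑' i, ∑' k, D.ρ i * D.ρ k *
      nn μ {x | (pq (D.q i) (D.c i) x.1, pq (D.q k) (D.c k) x.2) ∈ A} := by
  have := nu_prob h.lim
  have hct := D.ct
  have hm : Measurable fun g : Y => nu μ (Prod.mk g ⁻¹' A) := measurable_measure_prodMk_left hA
  unfold nn
  rw [Measure.prod_apply hA, D.int _ hm]
  refine tsum_congr fun i => ?_
  simp only [mul_assoc]
  rw [ENNReal.tsum_mul_left]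
  congr 1
  have hAk : ∀ k, MeasurableSet {x : Y × Y |
      (pq (D.q i) (D.c i) x.1, pq (D.q k) (D.c k) x.2) ∈ A} := fun k =>
    (((pq_meas _ _).comp measurable_fst).prodMk ((pq_meas _ _).comp measurable_snd)) hA
  have e : ∀ g : Y, nu μ (Prod.mk (pq (D.q i) (D.c i) g) ⁻¹' A) =
      ∑' k, D.ρ k * nu μ (Prod.mk g ⁻¹' {x : Y × Y |
        (pq (D.q i) (D.c i) x.1, pq (D.q k) (D.c k) x.2) ∈ A}) := by
    intro g
    exact D.meas (measurable_prodMk_left hA)
  simp only [e]
  rw [lintegral_tsum (fun k => ((measurable_measure_prodMk_left (hAk k)).const_mul _).aemeasurable)]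
  refine tsum_congr fun k => ?_
  rw [lintegral_const_mul _ (measurable_measure_prodMk_left (hAk k)), Measure.prod_apply (hAk k)]

theorem pq_eq0 {q : List Q} {c : Q} {g : Y} (h0 : g 0 = 0) {t : ℕ} (ht : t ≤ q.length) :
    pq q c g t = pq q c 0 t := by
  rcases ht.lt_or_eq with h | h
  · rw [pq_lt h, pq_lt h]
  · rw [pq_ge h.ge, pq_ge h.ge, h, Nat.sub_self, h0]
    rfl

/-- **one half** -/
theorem half (h : Law μ) {n m : ℕ} (j : ℤ) (hn : m + 3 ≤ n) (D : Dc μ n) {i k : D.ι}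
    (hi : D.ρ i ≠ 0) (hk : D.ρ k ≠ 0) :
    nn μ {x | F m j (pq (D.q i) (D.c i) x.1) (pq (D.q k) (D.c k) x.2)} ≤ 1 / 2 := by
  have hp := nu_prob h.lim
  obtain ⟨σ, hσ⟩ : ∃ σ : ZMod 2, σ = up (pq (D.q k) (D.c k) 0 (m + 1) + (0, j))
    (pq (D.q i) (D.c i) 0) (D.q i).length := ⟨_, rfl⟩
  obtain ⟨C, hC⟩ : ∃ C : ℕ, C = ((D.c i).2 - (D.c k).2 - j).natAbs + 1 := ⟨_, rfl⟩
  have hi1 := D.len i
  have hk1 := D.len k
  have hi2 := D.ht i
  have hk2 := D.ht k
  -- almost surely
  have ae1 : ∀ᵐ x ∂(nn μ), Wk (pq (D.q i) (D.c i) x.1) ∧ x.1 0 = 0 :=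
    Measure.quasiMeasurePreserving_fst.ae ((D.ae ms_Wk (nu_Wk h) hi).and (nu_zero h))
  have ae2 : ∀ᵐ x ∂(nn μ), Wk (pq (D.q k) (D.c k) x.2) ∧ x.2 0 = 0 :=
    Measure.quasiMeasurePreserving_snd.ae ((D.ae ms_Wk (nu_Wk h) hk).and (nu_zero h))
  have ae3 : ∀ᵐ x ∂(nn μ), ∀ t, 0 ≤ (x.1 t).1 :=
    Measure.quasiMeasurePreserving_fst.ae ((nu_Wk h).mono fun g hg => hg.pos)
  have key : ∀ ε : ℝ≥0∞, ε ≠ 0 →
      nn μ {x | F m j (pq (D.q i) (D.c i) x.1) (pq (D.q k) (D.c k) x.2)} ≤
        1 / 2 + (C : ℝ≥0∞) * ε := by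
    intro ε hε
    obtain ⟨N0, hN0⟩ := anti h hε
    obtain ⟨N, hN⟩ : ∃ N : ℤ, N = N0 + (m : ℤ) + 3 + (D.q i).length + (D.c i).1 + (D.c k).1 :=
      ⟨_, rfl⟩
    have hu : ∀ N' : ℤ, (N0 : ℤ) ≤ N' → ∀ a, u μ N' a ≤ ε := by
      intro N' hN' a
      have := hN0 N'.toNat (by omega) a
      rwa [Int.toNat_of_nonneg (by omega)] at this
    have hmain : ∀ᵐ x ∂(nn μ), F m j (pq (D.q i) (D.c i) x.1) (pq (D.q k) (D.c k) x.2) →
        ∃ a b, FV (N - (D.c i).1) x.1 a ∧ FV (N - (D.c k).1) x.2 b ∧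
          ((b + (D.c k).2 + j < a + (D.c i).2 ↔ σ = 1) ∧ a + (D.c i).2 ≠ b + (D.c k).2 + j) := by
      filter_upwards [ae1, ae2, ae3] with x hx1 hx2 hx3 hF
      obtain ⟨a, ha⟩ := FV_exists (hx1.1.high N)
      obtain ⟨b, hb⟩ := FV_exists (hx2.1.high N)
      have ha' := (FV_pq (D.low i) (by omega)).1 ha
      have hb' := (FV_pq (D.low k) (by omega)).1 hb
      have ho := order hx1.1 hx2.1 hF (L := (D.q i).length) (fun t ht => by
        rw [pq_ge ht, Prod.fst_add]
        have := hx3 (t - (D.q i).length)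
        omega) (N := N) (by omega) ha hb
      rw [pq_eq0 hx2.2 (t := m + 1) (by omega)] at ho
      have e : up (pq (D.q k) (D.c k) 0 (m + 1) + (0, j)) (pq (D.q i) (D.c i) x.1)
          (D.q i).length = σ := by
        rw [hσ]
        unfold up
        refine Finset.sum_congr rfl fun t ht => ?_
        have := Finset.mem_range.1 ht
        rw [pq_eq0 hx1.2 (by omega), pq_eq0 hx1.2 (by omega)]
      rw [e] at ho
      refine ⟨a - (D.c i).2, b - (D.c k).2, ha', hb', ?_⟩
      rw [sub_add_cancel, sub_add_cancel]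
      exact ho
    by_cases c : σ = 1
    · have h1 : nn μ {x | F m j (pq (D.q i) (D.c i) x.1) (pq (D.q k) (D.c k) x.2)} ≤
          nn μ {x | ∃ a b, FV (N - (D.c i).1) x.1 a ∧ FV (N - (D.c k).1) x.2 b ∧
            b < a + ((D.c i).2 - (D.c k).2 - j)} := by
        refine measure_mono_ae ?_
        filter_upwards [hmain] with x hx hF
        obtain ⟨a, b, h1, h2, h3, h4⟩ := hx hF
        refine ⟨a, b, h1, h2, ?_⟩
        have := h3.2 c
        omega
      refine h1.trans ((compare' h _ _ _ (hu (N - (D.c k).1) (by omega))).trans ?_)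
      gcongr
      omega
    · have h1 : nn μ {x | F m j (pq (D.q i) (D.c i) x.1) (pq (D.q k) (D.c k) x.2)} ≤
          nn μ {x | ∃ a b, FV (N - (D.c i).1) x.1 a ∧ FV (N - (D.c k).1) x.2 b ∧
            a < b + ((D.c k).2 + j - (D.c i).2)} := by
        refine measure_mono_ae ?_
        filter_upwards [hmain] with x hx hF
        obtain ⟨a, b, h1, h2, h3, h4⟩ := hx hF
        refine ⟨a, b, h1, h2, ?_⟩
        have : ¬ (b + (D.c k).2 + j < a + (D.c i).2) := fun h5 => c (h3.1 h5)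
        omega
      refine h1.trans ((compare h _ _ _ (hu (N - (D.c i).1) (by omega))).trans ?_)
      gcongr
      omega
  refine ENNReal.le_of_forall_pos_le_add fun ε hε _ => ?_
  have h1 := key ((ε : ℝ≥0∞) / C) (by
    rw [Ne, ENNReal.div_eq_zero_iff, not_or]
    exact ⟨by simpa using hε.ne', ENNReal.natCast_ne_top C⟩)
  rw [ENNReal.mul_div_cancel (by rw [hC]; simp) (ENNReal.natCast_ne_top C)] at h1
  exact h1

open Classical in
theorem F_le (h : Law μ) {n m : ℕ} (j : ℤ) (hn : m + 3 ≤ n) :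
    nn μ {x | F m j x.1 x.2} ≤ 1 / 2 * nn μ {x | G n m j x.1 x.2} := by
  obtain ⟨D⟩ := exists_Dc h.lim n
  have hpr := nn_prob h
  have hG : ∀ (i k : D.ι) (x : Y × Y), G n m j (pq (D.q i) (D.c i) x.1) (pq (D.q k) (D.c k) x.2) ↔
      G n m j (pq (D.q i) (D.c i) 0) (pq (D.q k) (D.c k) 0) := by
    intro i k x
    have h1 := D.len i
    have h2 := D.len k
    unfold G
    refine forall_congr' fun s => forall_congr' fun t => forall_congr' fun hs =>
      forall_congr' fun ht => ?_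
    rw [pq_lt (g := x.1) (by omega), pq_lt (g := x.2) (by omega), pq_lt (g := 0) (by omega),
      pq_lt (g := 0) (by omega)]
  rw [D.prod h (ms_F m j), D.prod h (ms_G n m j), ← ENNReal.tsum_mul_left]
  refine ENNReal.tsum_le_tsum fun i => ?_
  rw [← ENNReal.tsum_mul_left]
  refine ENNReal.tsum_le_tsum fun k => ?_
  by_cases c1 : D.ρ i = 0
  · rw [c1]
    simp
  by_cases c2 : D.ρ k = 0
  · rw [c2]
    simp
  by_cases c3 : G n m j (pq (D.q i) (D.c i) 0) (pq (D.q k) (D.c k) 0)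
  · have e : {x : Y × Y | (pq (D.q i) (D.c i) x.1, pq (D.q k) (D.c k) x.2) ∈
        {x : Y × Y | G n m j x.1 x.2}} = Set.univ := by
      ext x
      simp only [Set.mem_ofPred_eq, Set.mem_univ, iff_true]
      exact (hG i k x).2 c3
    rw [e, measure_univ, mul_one, mul_comm (1 / 2 : ℝ≥0∞)]
    gcongr
    exact half h j hn D c1 c2
  · have e : {x : Y × Y | (pq (D.q i) (D.c i) x.1, pq (D.q k) (D.c k) x.2) ∈
        {x : Y × Y | F m j x.1 x.2}} = ∅ := by
      ext x
      simp only [Set.mem_ofPred_eq, Set.mem_empty_iff_false, iff_false]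
      intro hF
      exact c3 ((hG i k x).1 fun s t _ _ h5 => hF s t h5)
    rw [e, measure_empty, mul_zero]
    exact zero_le

theorem F_zero (h : Law μ) (m : ℕ) (j : ℤ) : nn μ {x | F m j x.1 x.2} = 0 := by
  have hpr := nn_prob h
  have hanti : Antitone fun n : ℕ => {x : Y × Y | G n m j x.1 x.2} := by
    intro n n' hnn x hx s t hs ht hm
    exact hx s t (by omega) (by omega) hm
  have hinter : ⋂ n : ℕ, {x : Y × Y | G n m j x.1 x.2} = {x | F m j x.1 x.2} := by
    ext x
    simp only [Set.mem_iInter, Set.mem_ofPred_eq]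
    constructor
    · intro hx s t hm
      exact hx (max s t + 1) s t (by omega) (by omega) hm
    · intro hx n s t _ _ hm
      exact hx s t hm
  have hlim : Tendsto (fun n : ℕ => nn μ {x | G n m j x.1 x.2}) atTop
      (𝓝 (nn μ {x | F m j x.1 x.2})) := by
    rw [← hinter]
    exact tendsto_measure_iInter_atTop (fun n => (ms_G n m j).nullMeasurableSet) hanti
      ⟨0, measure_ne_top _ _⟩
  have h2 : nn μ {x | F m j x.1 x.2} ≤ 1 / 2 * nn μ {x | F m j x.1 x.2} := by
    refine ge_of_tendsto (ENNReal.Tendsto.const_mul hlim (Or.inr (by norm_num))) ?_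
    filter_upwards [eventually_ge_atTop (m + 3)] with n hn
    exact F_le h j hn
  obtain ⟨z, hz⟩ : ∃ z, z = nn μ {x | F m j x.1 x.2} := ⟨_, rfl⟩
  rw [← hz] at h2 ⊢
  have hzt : z ≠ ⊤ := by rw [hz]; exact measure_ne_top _ _
  by_contra hne
  have h3 : 1 / 2 * z < z := by
    calc 1 / 2 * z < 1 * z := by
          rw [ENNReal.mul_lt_mul_iff_left hne hzt]
          norm_num
      _ = z := one_mul z
  exact absurd h2 (not_le.2 h3)

end H982.TZ
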