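import Pool.Agent.H982.TZ6

set_option autoImplicit false
set_option linter.unusedSectionVars false

/-! Infinitely many common sites; finite walks. -/

namespace H982.TZ

open Filter Topology MeasureTheory H982.HP
open TH966.AK (P Kw lst)
open Pool.Agent.H976R3 Pool.Agent.R965.HP
open Pool.Agent.H976R3.HPL (PW)
open Pool.Agent.N941.SP (ps ps_re ps_im ps_inj Z2)
open scoped ENNReal

variable {μ : Measure X}

theorem nn_eq (h : Law μ) : nn μ = (μ.prod μ).map (Prod.map Φ Φ) := by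
  have := h.lim.1
  unfold nn nu
  exact Measure.map_prod_map μ μ Φ_meas Φ_meas

theorem shift_eq {z z' : ℂ} (h : z ∈ Z2) (h' : z' ∈ Z2) {j : ℤ} :
    fl z = fl z' + (0, j) ↔ z = z' + j := by
  have e : z' + j = ps (fl z' + (0, j)) := by
    conv_lhs => rw [← ps_fl h']
    unfold ps
    simp only [Prod.fst_add, Prod.snd_add, add_zero]
    push_cast
    ring
  constructor
  · intro h1
    rw [e, ← h1, ps_fl h]
  · intro h1
    rw [h1, e, fl_ps]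

/-- coincidences up to time `K` -/
noncomputable def co (j : ℤ) (K : ℕ) (γ γ' : X) : Set (ℕ × ℕ) :=
  {x | x.1 ≤ K ∧ x.2 ≤ K ∧ γ x.1 = γ' x.2 + j}

theorem co_fin (j : ℤ) (K : ℕ) (γ γ' : X) : (co j K γ γ').Finite := by
  refine ((Set.finite_Iic K).prod (Set.finite_Iic K)).subset ?_
  rintro ⟨s, t⟩ ⟨h1, h2, -⟩
  exact ⟨h1, h2⟩

theorem ae_prod (h : Law μ) : ∀ᵐ x ∂(μ.prod μ), ((∀ i, x.1 i ∈ Z2) ∧ (∀ i, x.2 i ∈ Z2)) ∧
    (Function.Injective x.1 ∧ Function.Injective x.2) ∧ (x.1 ∈ Hs ∧ x.2 ∈ Hs) := by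
  have := h.lim.1
  have h0 : ∀ᵐ γ ∂μ, (∀ i, γ i ∈ Z2) ∧ Function.Injective γ ∧ γ ∈ Hs := by
    filter_upwards [h.ae] with γ hγ
    exact ⟨fun i => (hγ.2.1 i).1, hγ.2.2.2, fun i => (hγ.2.1 i).2⟩
  have h1 : ∀ᵐ x ∂(μ.prod μ), (∀ i, x.1 i ∈ Z2) ∧ Function.Injective x.1 ∧ x.1 ∈ Hs :=
    Measure.quasiMeasurePreserving_fst.ae h0
  have h2 : ∀ᵐ x ∂(μ.prod μ), (∀ i, x.2 i ∈ Z2) ∧ Function.Injective x.2 ∧ x.2 ∈ Hs :=
    Measure.quasiMeasurePreserving_snd.ae h0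
  filter_upwards [h1, h2] with x a1 a2
  exact ⟨⟨a1.1, a2.1⟩, ⟨a1.2.1, a2.2.1⟩, a1.2.2, a2.2.2⟩

/-- after every time there is a coincidence -/
theorem ae_late (h : Law μ) (j : ℤ) : ∀ᵐ x ∂(μ.prod μ), ∀ m : ℕ, ∃ s t : ℕ, m < max s t ∧
    (x.1 s : ℂ) = x.2 t + (j : ℂ) := by
  rw [ae_all_iff]
  intro m
  have h1 := F_zero h m j
  rw [nn_eq h, Measure.map_apply (Φ_meas.prodMap Φ_meas) (ms_F m j)] at h1
  have h2 : ∀ᵐ x ∂(μ.prod μ), ¬ F m j (Φ x.1) (Φ x.2) := by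
    rw [ae_iff]
    simpa using h1
  filter_upwards [h2, ae_prod h] with x a1 a2
  unfold F at a1
  push Not at a1
  obtain ⟨s, t, b1, b2⟩ := a1
  exact ⟨s, t, b1, (shift_eq (a2.1.1 s) (a2.1.2 t)).1 b2⟩

/-- **infinitely many common sites** -/
theorem ae_inf (h : Law μ) (j : ℤ) : ∀ᵐ x ∂(μ.prod μ),
    {z : ℂ | (∃ s, x.1 s = z) ∧ ∃ t, x.2 t + j = z}.Infinite := by
  filter_upwards [ae_late h j, ae_prod h] with x a1 a2
  intro hfin
  have f1 : {s | x.1 s ∈ {z : ℂ | (∃ s, x.1 s = z) ∧ ∃ t, x.2 t + j = z}}.Finite :=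
    hfin.preimage (a2.2.1.1.injOn)
  have f2 : {t | x.2 t + j ∈ {z : ℂ | (∃ s, x.1 s = z) ∧ ∃ t, x.2 t + j = z}}.Finite := by
    refine hfin.preimage (Function.Injective.injOn ?_)
    intro s t hst
    exact a2.2.1.2 (add_right_cancel hst)
  obtain ⟨m, hm⟩ := (f1.union f2).bddAbove
  obtain ⟨s, t, b1, b2⟩ := a1 m
  have c1 : s ≤ m := hm (Or.inl ⟨⟨s, rfl⟩, t, b2.symm⟩)
  have c2 : t ≤ m := hm (Or.inr ⟨⟨s, b2⟩, t, rfl⟩)
  omega

/-- the number of coincidences tends to infinity -/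
theorem ae_count (h : Law μ) (j : ℤ) (M : ℕ) : ∀ᵐ x ∂(μ.prod μ), ∃ K, M < (co j K x.1 x.2).ncard := by
  filter_upwards [ae_late h j] with x a1
  induction M with
  | zero =>
    obtain ⟨s, t, b1, b2⟩ := a1 0
    refine ⟨max s t, ?_⟩
    rw [Set.ncard_pos (co_fin _ _ _ _)]
    exact ⟨(s, t), le_max_left _ _, le_max_right _ _, b2⟩
  | succ M ih =>
    obtain ⟨K, hK⟩ := ih
    obtain ⟨s, t, b1, b2⟩ := a1 K
    refine ⟨max s t, ?_⟩
    refine lt_of_le_of_lt (Nat.succ_le_of_lt hK) ?_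
    refine Set.ncard_lt_ncard ?_ (co_fin _ _ _ _)
    refine ⟨?_, ?_⟩
    · rintro ⟨s', t'⟩ ⟨h1, h2, h3⟩
      exact ⟨h1.trans b1.le, h2.trans b1.le, h3⟩
    · intro hsub
      have h1 : (s, t) ∈ co j K x.1 x.2 := hsub ⟨le_max_left _ _, le_max_right _ _, b2⟩
      have h2 := h1.1
      have h3 := h1.2.1
      simp only at h2 h3
      omega

/-- the event of few coincidences -/
def Few (j : ℤ) (K M : ℕ) : Set (X × X) := {x | (co j K x.1 x.2).ncard ≤ M}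

theorem Few_anti (j : ℤ) (M : ℕ) : Antitone fun K => Few j K M := by
  intro K K' hK x hx
  refine le_trans (Set.ncard_le_ncard ?_ (co_fin _ _ _ _)) hx
  rintro ⟨s, t⟩ ⟨h1, h2, h3⟩
  exact ⟨h1.trans hK, h2.trans hK, h3⟩

/-- a relation of the first `K` steps -/
def Dep2 (K : ℕ) (R : Set (X × X)) : Prop := ∀ γ γ' η η' : X, (∀ i ≤ K, γ i = η i) →
  (∀ i ≤ K, γ' i = η' i) → ((γ, γ') ∈ R ↔ (η, η') ∈ R)

theorem Few_dep (j : ℤ) (K M : ℕ) : Dep2 K (Few j K M) := by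
  intro γ γ' η η' h1 h2
  have e : co j K γ γ' = co j K η η' := by
    ext ⟨s, t⟩
    constructor
    · rintro ⟨a1, a2, a3⟩
      refine ⟨a1, a2, ?_⟩
      simp only at a1 a2 a3 ⊢
      rw [← h1 s a1, ← h2 t a2, a3]
    · rintro ⟨a1, a2, a3⟩
      refine ⟨a1, a2, ?_⟩
      simp only at a1 a2 a3 ⊢
      rw [h1 s a1, h2 t a2, a3]
  show (co j K γ γ').ncard ≤ M ↔ (co j K η η').ncard ≤ M
  rw [e]

/-- stopped walk -/
def stp (K : ℕ) (γ : X) : X := fun i => γ (min i K)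

theorem stp_eq {K : ℕ} {γ : X} {i : ℕ} (h : i ≤ K) : stp K γ i = γ i := by
  unfold stp
  rw [min_eq_left h]

theorem stp_PW {K n : ℕ} (hK : K ≤ n) {γ : X} (h : γ ∈ PW Z2 1 n) : stp K γ ∈ PW Z2 1 K := by
  obtain ⟨h0, h1, h2, h3, h4⟩ := h
  refine ⟨?_, fun i => h1 _, fun i hi => ?_, fun i hi j hj hij => ?_, fun i hi => ?_⟩
  · rw [stp_eq (Nat.zero_le _), h0]
  · rw [stp_eq (by omega), stp_eq (by omega)]
    exact h2 i (by omega)
  · rw [stp_eq hi, stp_eq hj] at hij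
    exact h3 i (by omega) j (by omega) hij
  · unfold stp
    rw [min_eq_right hi, min_self]

theorem PW_fin (n : ℕ) : (PW Z2 1 n).Finite := by
  rw [PW_PS]
  exact (Finset.finite_toSet _).image _

theorem stp_ae (h : Law μ) (K : ℕ) : ∀ᵐ γ ∂μ, stp K γ ∈ PW Z2 1 K := by
  filter_upwards [h.ae] with γ hγ
  obtain ⟨h0, h1, h2, h3⟩ := hγ
  refine ⟨?_, fun i => h1 _, fun i hi => ?_, fun i hi j hj hij => ?_, fun i hi => ?_⟩
  · rw [stp_eq (Nat.zero_le _), h0]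
  · rw [stp_eq (by omega), stp_eq (by omega)]
    exact h2 i
  · rw [stp_eq hi, stp_eq hj] at hij
    exact h3 hij
  · unfold stp
    rw [min_eq_right hi, min_self]

def Cy (K : ℕ) (η : X) : Set X := {γ | ∀ i ≤ K, γ i = η i}

theorem Cy_meas (K : ℕ) (η : X) : MeasurableSet (Cy K η) := by
  have e : Cy K η = ⋂ i, ⋂ (_ : i ≤ K), (fun γ : X => γ i) ⁻¹' {η i} := by
    ext γ
    simp [Cy]
  rw [e]
  exact MeasurableSet.iInter fun i => MeasurableSet.iInter fun _ =>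
    (measurable_pi_apply i) (measurableSet_singleton _)

/-- **counting pairs of finite walks** -/
theorem count_le (h : Law μ) {K : ℕ} {R : Set (X × X)} (hR : Dep2 K R)
    {ε : ℝ} (hε : 0 < ε) : ∃ N : ℕ, ∀ n n', N ≤ n → N ≤ n' →
      (({x | x ∈ PW Z2 1 n ×ˢ PW Z2 1 n' ∧ x ∈ R} : Set (X × X)).ncard : ℝ) ≤
        ((μ.prod μ).real R + ε) * (hC n * hC n') := by
  classical
  have hprob := h.lim.1
  obtain ⟨W, hW⟩ : ∃ W : Finset X, (W : Set X) = PW Z2 1 K := ⟨(PW_fin K).toFinset, by simp⟩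
  obtain ⟨U, hU⟩ : ∃ U : Finset (X × X), U = (W ×ˢ W).filter (fun x => x ∈ R) := ⟨_, rfl⟩
  let f : X → ℕ → ℝ := fun η n => (({γ ∈ PW Z2 1 n | ∀ i ≤ K, γ i = η i}.ncard : ℝ) / hC n)
  have hf : ∀ η, Tendsto (f η) atTop (𝓝 (μ.real (Cy K η))) := by
    intro η
    have := h.cyl K η
    simp only [PW_ncard] at this
    exact this
  have hlim : Tendsto (fun x : ℕ × ℕ => ∑ y ∈ U, f y.1 x.1 * f y.2 x.2) (atTop ×ˢ atTop)
      (𝓝 (∑ y ∈ U, μ.real (Cy K y.1) * μ.real (Cy K y.2))) := by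
    refine tendsto_finsetSum _ fun y _ => ?_
    exact ((hf y.1).comp tendsto_fst).mul ((hf y.2).comp tendsto_snd)
  have hsum : ∑ y ∈ U, μ.real (Cy K y.1) * μ.real (Cy K y.2) ≤ (μ.prod μ).real R := by
    have e1 : ∑ y ∈ U, μ.real (Cy K y.1) * μ.real (Cy K y.2) =
        (μ.prod μ).real (⋃ y ∈ U, Cy K y.1 ×ˢ Cy K y.2) := by
      rw [measureReal_biUnion_finset]
      · refine Finset.sum_congr rfl fun y _ => ?_
        rw [measureReal_prod_prod]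
      · intro y hy y' hy' hne
        refine Set.disjoint_left.2 fun x h1 h2 => hne ?_
        rw [hU, Finset.coe_filter] at hy hy'
        have hy1 := Finset.mem_product.1 hy.1
        have hy1' := Finset.mem_product.1 hy'.1
        have key : ∀ η η' γ : X, η ∈ PW Z2 1 K → η' ∈ PW Z2 1 K → γ ∈ Cy K η → γ ∈ Cy K η' →
            η = η' := by
          intro η η' γ a1 a2 a3 a4
          funext i
          rcases Nat.lt_or_ge K i with hi | hi
          · rw [a1.2.2.2.2 i hi.le, a2.2.2.2.2 i hi.le, ← a3 K le_rfl, a4 K le_rfl]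
          · rw [← a3 i hi, a4 i hi]
        apply Prod.ext
        · exact key _ _ x.1 (by rw [← hW]; exact hy1.1) (by rw [← hW]; exact hy1'.1) h1.1 h2.1
        · exact key _ _ x.2 (by rw [← hW]; exact hy1.2) (by rw [← hW]; exact hy1'.2) h1.2 h2.2
      · intro y _
        exact (Cy_meas K y.1).prod (Cy_meas K y.2)
    rw [e1]
    refine measureReal_mono ?_
    intro x hx
    simp only [Set.mem_iUnion] at hx
    obtain ⟨y, hy, h1, h2⟩ := hx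
    rw [hU, Finset.mem_filter] at hy
    exact (hR x.1 x.2 y.1 y.2 h1 h2).2 hy.2
  obtain ⟨⟨N1, N2⟩, hN⟩ := (by
    rw [prod_atTop_atTop_eq] at hlim
    exact eventually_atTop.1 (hlim.eventually (gt_mem_nhds (show
      ∑ y ∈ U, μ.real (Cy K y.1) * μ.real (Cy K y.2) < (μ.prod μ).real R + ε by linarith))))
  refine ⟨N1 + N2 + K, fun n n' hn hn' => ?_⟩
  have h1 := hN (n, n') ⟨by omega, by omega⟩
  have hpos := hC_pos n
  have hpos' := hC_pos n'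
  have hcount : (({x | x ∈ PW Z2 1 n ×ˢ PW Z2 1 n' ∧ x ∈ R} : Set (X × X)).ncard : ℝ) ≤
      (∑ y ∈ U, f y.1 n * f y.2 n') * (hC n * hC n') := by
    have hsub : ({x | x ∈ PW Z2 1 n ×ˢ PW Z2 1 n' ∧ x ∈ R} : Set (X × X)) ⊆
        ⋃ y ∈ U, {γ ∈ PW Z2 1 n | ∀ i ≤ K, γ i = y.1 i} ×ˢ
          {γ ∈ PW Z2 1 n' | ∀ i ≤ K, γ i = y.2 i} := by
      rintro ⟨γ, γ'⟩ ⟨⟨a1, a2⟩, a3⟩
      simp only [Set.mem_iUnion]
      refine ⟨(stp K γ, stp K γ'), ?_, ⟨a1, fun i hi => (stp_eq hi).symm⟩,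
        ⟨a2, fun i hi => (stp_eq hi).symm⟩⟩
      rw [hU, Finset.mem_filter, Finset.mem_product]
      refine ⟨⟨?_, ?_⟩, ?_⟩
      · have : stp K γ ∈ (W : Set X) := by rw [hW]; exact stp_PW (by omega) a1
        exact this
      · have : stp K γ' ∈ (W : Set X) := by rw [hW]; exact stp_PW (by omega) a2
        exact this
      · exact (hR _ _ _ _ (fun i hi => stp_eq hi) (fun i hi => stp_eq hi)).2 a3
    have hfin : ∀ y : X × X, ({γ ∈ PW Z2 1 n | ∀ i ≤ K, γ i = y.1 i} ×ˢ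
          {γ ∈ PW Z2 1 n' | ∀ i ≤ K, γ i = y.2 i}).Finite := fun y =>
      ((PW_fin n).subset (Set.sep_subset _ _)).prod ((PW_fin n').subset (Set.sep_subset _ _))
    have h2 : ({x | x ∈ PW Z2 1 n ×ˢ PW Z2 1 n' ∧ x ∈ R} : Set (X × X)).ncard ≤
        ∑ y ∈ U, ({γ ∈ PW Z2 1 n | ∀ i ≤ K, γ i = y.1 i} ×ˢ
          {γ ∈ PW Z2 1 n' | ∀ i ≤ K, γ i = y.2 i}).ncard := by
      refine (Set.ncard_le_ncard hsub (U.finite_toSet.biUnion fun y _ => hfin y)).trans ?_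
      exact Finset.set_ncard_biUnion_le _ _
    have h3 : (({x | x ∈ PW Z2 1 n ×ˢ PW Z2 1 n' ∧ x ∈ R} : Set (X × X)).ncard : ℝ) ≤
        ((∑ y ∈ U, ({γ ∈ PW Z2 1 n | ∀ i ≤ K, γ i = y.1 i} ×ˢ
          {γ ∈ PW Z2 1 n' | ∀ i ≤ K, γ i = y.2 i}).ncard : ℕ) : ℝ) := by exact_mod_cast h2
    refine h3.trans (le_of_eq ?_)
    push_cast
    rw [Finset.sum_mul]
    refine Finset.sum_congr rfl fun y _ => ?_
    rw [Set.ncard_prod]
    simp only [f]
    push_cast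
    field_simp
  refine hcount.trans ?_
  exact mul_le_mul_of_nonneg_right h1.le (by positivity)

end H982.TZ
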