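import Pool.Agent.H982.TZ7

set_option autoImplicit false
set_option linter.unusedSectionVars false

/-! The number of common sites of two finite walks. -/

namespace H982.TZ

open Filter Topology MeasureTheory H982.HP
open TH966.AK (P Kw lst)
open Pool.Agent.H976R3 Pool.Agent.R965.HP
open Pool.Agent.H976R3.HPL (PW)
open Pool.Agent.N941.SP (ps ps_re ps_im ps_inj Z2)
open scoped ENNReal

variable {μ : Measure X}

open Classical in
theorem co_card (j : ℤ) (K : ℕ) (γ γ' : X) : (co j K γ γ').ncard =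
    ∑ y ∈ Finset.range (K + 1) ×ˢ Finset.range (K + 1),
      if γ y.1 = γ' y.2 + (j : ℂ) then 1 else 0 := by
  rw [← Finset.card_filter, ← Set.ncard_coe_finset]
  congr 1
  ext ⟨s, t⟩
  simp only [co, Finset.coe_filter, Finset.mem_product, Finset.mem_range]
  constructor
  · rintro ⟨h1, h2, h3⟩
    exact ⟨⟨by simp only at h1; omega, by simp only at h2; omega⟩, h3⟩
  · rintro ⟨⟨h1, h2⟩, h3⟩
    exact ⟨by simp only at h1 ⊢; omega, by simp only at h2 ⊢; omega, h3⟩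

theorem Few_meas (j : ℤ) (K M : ℕ) : MeasurableSet (Few j K M) := by
  classical
  have h1 : Measurable fun x : X × X => (co j K x.1 x.2).ncard := by
    simp only [co_card]
    refine Finset.measurable_sum _ fun y _ => ?_
    refine Measurable.ite ?_ measurable_const measurable_const
    exact measurableSet_eq_fun ((measurable_pi_apply y.1).comp measurable_fst)
      (((measurable_pi_apply y.2).comp measurable_snd).add_const _)
  exact h1 (MeasurableSet.of_discrete (s := {n : ℕ | n ≤ M}))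

theorem few_small (h : Law μ) (j : ℤ) (M : ℕ) {ε : ℝ} (hε : 0 < ε) :
    ∃ K, (μ.prod μ).real (Few j K M) < ε := by
  have hprob := h.lim.1
  have hnull : (μ.prod μ) (⋂ K, Few j K M) = 0 := by
    have h1 := ae_count h j M
    rw [ae_iff] at h1
    refine measure_mono_null ?_ h1
    intro x hx
    simp only [Set.mem_iInter] at hx
    show ¬ ∃ K, M < (co j K x.1 x.2).ncard
    rintro ⟨K, hK⟩
    have := hx K
    exact absurd hK (not_lt.2 this)
  have hlim : Tendsto (fun K => (μ.prod μ) (Few j K M)) atTop (𝓝 0) := by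
    rw [← hnull]
    exact tendsto_measure_iInter_atTop (fun K => (Few_meas j K M).nullMeasurableSet)
      (Few_anti j M) ⟨0, measure_ne_top _ _⟩
  have h2 : Tendsto (fun K => (μ.prod μ).real (Few j K M)) atTop (𝓝 0) := by
    have := (ENNReal.tendsto_toReal ENNReal.zero_ne_top).comp hlim
    rw [ENNReal.toReal_zero] at this
    exact this
  exact (h2.eventually (gt_mem_nhds hε)).exists

theorem small_ev (h : Law μ) (j : ℤ) (M : ℕ) (E : ℕ → ℕ → Set (X × X))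
    (hE : ∀ n n', ∀ x ∈ E n n', x ∈ PW Z2 1 n ×ˢ PW Z2 1 n' ∧
      ∀ K, K ≤ n → K ≤ n' → x ∈ Few j K M) {ε : ℝ} (hε : 0 < ε) :
    ∃ N : ℕ, ∀ n n', N ≤ n → N ≤ n' → ((E n n').ncard : ℝ) ≤ ε * (hC n * hC n') := by
  obtain ⟨K, hK⟩ := few_small h j M (show 0 < ε / 2 by positivity)
  obtain ⟨N, hN⟩ := count_le h (Few_dep j K M) (show 0 < ε / 2 by positivity)
  refine ⟨N + K, fun n n' hn hn' => ?_⟩
  have h1 := hN n n' (by omega) (by omega)
  have hpos := hC_pos n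
  have hpos' := hC_pos n'
  have h2 : (E n n').ncard ≤ ({x | x ∈ PW Z2 1 n ×ˢ PW Z2 1 n' ∧ x ∈ Few j K M} : Set (X × X)).ncard := by
    refine Set.ncard_le_ncard (fun x hx => ?_)
      ((((PW_fin n).prod (PW_fin n')).subset) fun x hx => hx.1)
    obtain ⟨a1, a2⟩ := hE n n' x hx
    exact ⟨a1, a2 K (by omega) (by omega)⟩
  have h3 : ((E n n').ncard : ℝ) ≤
      (({x | x ∈ PW Z2 1 n ×ˢ PW Z2 1 n' ∧ x ∈ Few j K M} : Set (X × X)).ncard : ℝ) := by
    exact_mod_cast h2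
  refine (h3.trans h1).trans ?_
  refine mul_le_mul_of_nonneg_right ?_ (by positivity)
  linarith

theorem small_lim (h : Law μ) (j : ℤ) (M : ℕ) (E : ℕ → ℕ → Set (X × X))
    (hE : ∀ n n', ∀ x ∈ E n n', x ∈ PW Z2 1 n ×ˢ PW Z2 1 n' ∧
      ∀ K, K ≤ n → K ≤ n' → x ∈ Few j K M) :
    Tendsto (fun x : ℕ × ℕ => ((E x.1 x.2).ncard : ℝ) / (hC x.1 * hC x.2)) atTop (𝓝 0) := by
  rw [Metric.tendsto_atTop]
  intro ε hε
  obtain ⟨N, hN⟩ := small_ev h j M E hE (show 0 < ε / 2 by positivity)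
  refine ⟨(N, N), fun x hx => ?_⟩
  have h1 := hN x.1 x.2 hx.1 hx.2
  have hpos := mul_pos (hC_pos x.1) (hC_pos x.2)
  rw [Real.dist_0_eq_abs, abs_of_nonneg (by positivity), div_lt_iff₀ hpos]
  nlinarith

/-- the common sites -/
def cs (j : ℤ) (γ γ' : X) : Set ℂ := {z : ℂ | (∃ s, γ s = z) ∧ ∃ t, γ' t + j = z}

theorem range_fin {n : ℕ} {γ : X} (h : γ ∈ PW Z2 1 n) : {z : ℂ | ∃ s, γ s = z}.Finite := by
  refine ((Set.finite_Iic n).image γ).subset ?_
  rintro z ⟨s, rfl⟩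
  rcases Nat.lt_or_ge n s with hs | hs
  · exact ⟨n, Set.mem_Iic.2 le_rfl, (h.2.2.2.2 s hs.le).symm⟩
  · exact ⟨s, Set.mem_Iic.2 hs, rfl⟩

theorem cs_few {n n' : ℕ} {γ γ' : X} (h : γ ∈ PW Z2 1 n) (h' : γ' ∈ PW Z2 1 n') {j : ℤ} {M : ℕ}
    (hM : (cs j γ γ').ncard ≤ M) {K : ℕ} (hK : K ≤ n) (hK' : K ≤ n') : (γ, γ') ∈ Few j K M := by
  show (co j K γ γ').ncard ≤ M
  refine le_trans ?_ hM
  refine Set.ncard_le_ncard_of_injOn (fun x => γ x.1) ?_ ?_ ((range_fin h).subset fun z hz => hz.1)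
  · rintro ⟨s, t⟩ ⟨h1, h2, h3⟩
    exact ⟨⟨s, rfl⟩, t, h3.symm⟩
  · rintro ⟨s, t⟩ ⟨h1, h2, h3⟩ ⟨s', t'⟩ ⟨h1', h2', h3'⟩ he
    simp only at h1 h2 h3 h1' h2' h3' he
    have e1 : s = s' := h.2.2.2.1 s (by omega) s' (by omega) he
    have e2 : γ' t = γ' t' := by
      rw [he] at h3
      exact add_right_cancel (h3.symm.trans h3')
    have e3 : t = t' := h'.2.2.2.1 t (by omega) t' (by omega) e2
    rw [e1, e3]

/-- pairs which meet only at the start -/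
def Os (γ γ' : X) : Prop := ∀ s t, γ s = γ' t → γ s = 0

theorem Os_cs {γ γ' : X} (h : Os γ γ') : (cs 0 γ γ').ncard ≤ 1 := by
  have : cs 0 γ γ' ⊆ {0} := by
    rintro z ⟨⟨s, hs⟩, t, ht⟩
    have h1 := h s t (by rw [hs, ← ht]; simp)
    rw [← hs, h1]
    rfl
  exact (Set.ncard_le_ncard this (Set.finite_singleton 0)).trans (by simp)

/-- **pairs of finite walks** -/
theorem pairs_lim (h : Law μ) (j : ℤ) (M : ℕ) :
    Tendsto (fun x : ℕ × ℕ => (({y | y ∈ PW Z2 1 x.1 ×ˢ PW Z2 1 x.2 ∧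
      (cs j y.1 y.2).ncard ≤ M} : Set (X × X)).ncard : ℝ) / (hC x.1 * hC x.2)) atTop (𝓝 0) := by
  refine small_lim h j M (fun n n' => {y | y ∈ PW Z2 1 n ×ˢ PW Z2 1 n' ∧
      (cs j y.1 y.2).ncard ≤ M}) fun n n' x hx => ⟨hx.1, fun K hK hK' => ?_⟩
  exact cs_few hx.1.1 hx.1.2 hx.2 hK hK'

/-- the number of pairs which meet only at the start -/
noncomputable def DD (i k : ℕ) : ℕ := ({y | y ∈ PW Z2 1 i ×ˢ PW Z2 1 k ∧ Os y.1 y.2} : Set (X × X)).ncard

theorem DD_ev (h : Law μ) {ε : ℝ} (hε : 0 < ε) :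
    ∃ N : ℕ, ∀ i k, N ≤ i → N ≤ k → (DD i k : ℝ) ≤ ε * (hC i * hC k) := by
  exact small_ev h 0 1 (fun i k => {y | y ∈ PW Z2 1 i ×ˢ PW Z2 1 k ∧ Os y.1 y.2})
    (fun n n' x hx => ⟨hx.1, fun K hK hK' => cs_few hx.1.1 hx.1.2 (Os_cs hx.2) hK hK'⟩) hε

theorem DD_le (i k : ℕ) : (DD i k : ℝ) ≤ hC i * hC k := by
  have h1 : DD i k ≤ (PW Z2 1 i ×ˢ PW Z2 1 k).ncard :=
    Set.ncard_le_ncard (fun x hx => hx.1) ((PW_fin i).prod (PW_fin k))
  rw [Set.ncard_prod] at h1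
  have h2 : (DD i k : ℝ) ≤ (((PW Z2 1 i).ncard * (PW Z2 1 k).ncard : ℕ) : ℝ) := by exact_mod_cast h1
  refine h2.trans (le_of_eq ?_)
  push_cast
  rw [PW_ncard, PW_ncard]

end H982.TZ
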